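import Pool.Agent.Lib.MP_d439b2_co.SA.SpecII

/-!
# MP_d439b2_co, SA, IBSw: symmetry of bands
-/

set_option autoImplicit false

namespace Pool.Agent.MPd439b2.SA

open Pool.Agent.MPd439b2 Pool.Agent.MPd439b2.W

private theorem fam_sw {V : Type} (D : SimpleGraph V) (k n e N : ℕ) (a b u v : ℕ → V) :
    Fam D k n e N b a v u = Fam D k n e N a b u v := by
  ext Q
  exact or_comm

private theorem pos_sw {V : Type} {D : SimpleGraph V} {k n e N i : ℕ} {a b x y u v : ℕ → V}
    {K : ℕ → Set V} {P : Finset ℕ} (hs : Sys D k n e N a b x y u v K)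
    (hp : PosP D k n e N a b u v K P i) : PosP D k n e N b a v u K P i := by
  obtain ⟨hg, hN, hpos⟩ := hp
  refine ⟨by rw [fam_sw]; exact hg, hN, ?_⟩
  intro j hkj hje l hl hal
  have hen := hs.en
  have him := hs.fr.fx.lad.im
  apply hpos j hkj hje l hl
  have hlight : b j ∈ LU D n a b := by
    intro r hr r' hr' h h'
    have key : ∀ s < n, (D.Adj (b j) (a s) ∨ D.Adj (b j) (b s)) → s = j := by
      intro s hs' h1
      rcases h1 with h1 | h1
      · exact ((him s hs' j (by omega)).1).mp h1.symm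
      · exact absurd h1 ((him j (by omega) s hs').2.2)
    rw [key r hr h, key r' hr' h']
  exact (hs.com l hl).2.2 (a j) hal (b j) hlight (him.edge (by omega))

theorem hIBSw (hISw : S_ISw) : S_IBSw := by
  intro V D k n e N i i' a b x y u v K P P' XL WL YL ZL XL' WL' YL' ZL' h
  exact ⟨hISw V D k n e N a b x y u v K h.sys, pos_sw h.sys h.p1, pos_sw h.sys h.p2, h.cy, h.cx,
    h.cy', h.cx', h.hi, h.hi', h.hie⟩

end Pool.Agent.MPd439b2.SA
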