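import Pool.Agent.Lib.MP_d439b2_co.SA.SpecII

/-!
# MP_d439b2_co, SA, II22: the columns of the light part of the band are constant
-/

set_option autoImplicit false

namespace Pool.Agent.MPd439b2.SA

open Pool.Agent.MPd439b2 Pool.Agent.MPd439b2.W

namespace hIColBAux

variable {V : Type} {D : SimpleGraph V} {k n e N i i' : ℕ} {a b x y u v : ℕ → V}
  {K : ℕ → Set V} {P P' : Finset ℕ} {XL WL YL ZL XL' WL' YL' ZL' : Set V}

theorem mem_J {l : ℕ} {z : V} : l ∈ J D N v z ↔ l < N ∧ D.Adj z (v l) := by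
  classical
  unfold J
  rw [Finset.mem_filter, Finset.mem_range]

theorem few_or {n : ℕ} {p q : ℕ → Prop} (h : Few n fun i => p i ∨ q i) : Few n fun i => q i ∨ p i :=
  fun i hi j hj h1 h2 => h i hi j hj h1.symm h2.symm

theorem lu_sw {w : V} (h : w ∈ LU D n a b) : w ∈ LU D n b a := few_or h

/-- the vertices of `BB` are seen by `x (k + 4)` -/
theorem seen4 {w : V} (h : w ∈ BB D k n a b x K P P' WL WL') : D.Adj (x (k + 4)) w := by
  rcases h with h | h
  · exact h.1
  · exact h.1.2.1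

/-- `x r` misses the first `b j` and sees the others -/
theorem lad {r : ℕ} (hL : Lad D n a b x) (hr : r < n) :
    (∀ j < r, ¬ D.Adj (x r) (b j)) ∧ ∀ j < n, r ≤ j → D.Adj (x r) (b j) := by
  refine ⟨fun j hj h => ?_, fun j hj hrj => (hL.xb r hr j hj).2 hrj⟩
  have := (hL.xb r hr j (by omega)).1 h
  omega

/-- case (2), left -/
theorem left (hITch : S_ITch) (hT : TriFree D) (hN : NoSpi k D)
    (hB : Bnd D k n e N i i' a b x y u v K P P' XL WL YL ZL XL' WL' YL' ZL') {t : V}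
    (ht : t ∈ XX D k n e b) (htL : t ∈ XL) : ∀ w ∈ BB D k n a b x K P P' WL WL', D.Adj t w := by
  rintro w (⟨h1, l, hl, hw⟩ | ⟨h1, h2, _⟩)
  · have hlP := (Finset.mem_sdiff.1 hl).1
    have hlN := hB.p1.2.1 l hlP
    have h3 := hB.cx.inL t htL hlP
    exact ((hITch V D k n e N a b x y u v K hT hN hB.sys t ht l hlN).1
      (mem_J.1 h3).2 w hw).2 h1
  · exact hB.cx.cmp t htL w h1 h2

/-- case (2), right -/
theorem right (hITch : S_ITch) (hT : TriFree D) (hN : NoSpi k D)
    (hB : Bnd D k n e N i i' a b x y u v K P P' XL WL YL ZL XL' WL' YL' ZL') {t : V}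
    (ht : t ∈ XX D k n e b) (htL : t ∉ XL') :
    ∀ w ∈ BB D k n a b x K P P' WL WL', ¬ D.Adj t w := by
  rintro w (⟨_, l, hl, hw⟩ | ⟨_, _, h3⟩)
  · have hl' := Finset.mem_sdiff.1 hl
    have hlN := hB.p1.2.1 l hl'.1
    refine (hITch V D k n e N a b x y u v K hT hN hB.sys t ht l hlN).2 (fun h4 => hl'.2 ?_) w hw
    exact hB.cx'.inR t ht htL (mem_J.2 ⟨hlN, h4⟩)
  · exact hB.cx'.nul t ht htL w h3

/-- case (6) -/
theorem light (hIPull : S_IPull) (hIDis : S_IDis) (hICvr : S_ICvr) (hILadPos : S_ILadPos)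
    (hIBSw : S_IBSw) (hT : TriFree D) (hN : NoSpi k D)
    (hB : Bnd D k n e N i i' a b x y u v K P P' XL WL YL ZL XL' WL' YL' ZL') {t : V}
    (ht : t ∈ LU D n a b) {w : V} (hw : w ∈ BB D k n a b x K P P' WL WL') (hwt : D.Adj w t) :
    t ∈ BB D k n b a y K P P' ZL ZL' := by
  rcases hw with ⟨h1, l, hl, hwl⟩ | ⟨h1, _, _⟩
  · have hlP := (Finset.mem_sdiff.1 hl).1
    have hlN := hB.p1.2.1 l hlP
    have hcom := hB.sys.com l hlN
    have htK : t ∈ K l := hcom.2.2 w hwl t ht hwt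
    have hB' := hIBSw V D k n e N i i' a b x y u v K P P' XL WL YL ZL XL' WL' YL' ZL' hB
    have hen := hB.sys.en
    have hhi := hB.hi
    have hhi' := hB.hi'
    have hhie := hB.hie
    have hfy := hB.sys.fr.fy
    -- `y (k + 8)` sees `u l`
    have h2 : y (k + 8) ∈ YL := (hILadPos V D k n e N i b a y x v u K P YL ZL hT hN hB'.sys hB'.p1
      hB'.cx (by omega) (k + 8) le_rfl (by omega)).1 (by omega)
    have h3 : D.Adj (y (k + 8)) (u l) := (mem_J.1 (hB'.cx.inL _ h2 hlP)).2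
    have huK := hB.sys.uK l hlN
    have hL8 := lad (r := k + 8) hfy.lad (by omega)
    have h4 : D.Adj (y (k + 4)) (u l) := hIPull V D k n (k + 4) (k + 8) b a y (y (k + 8)) (u l) hT hN
      hfy (by omega) (by omega) (by omega) hL8.1 (hL8.2 _ (by omega) (by omega))
      (lu_sw (hcom.2.1 huK)) h3
    have hL4 := lad (r := k + 4) hfy.lad (by omega)
    have hcom' : W.IsComp D (LU D n b a) (K l) :=
      ⟨hcom.1, fun z hz => lu_sw (hcom.2.1 hz), fun z hz z' hz' h => hcom.2.2 z hz z' (lu_sw hz') h⟩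
    have h5 := hICvr V D k n e b a y (K l) (y (k + 4)) (u l) hT hN hfy hB.sys.ke hen
      ⟨fun j hj => hL4.1 j (by omega), fun j hj hej => hL4.2 j hj (by have := hB.sys.ke; omega)⟩ hcom' huK h4 w t
    have h6 : ¬ D.Adj (y (k + 4)) w := hIDis V D k n a b x y w hT hN hB.sys.fr (by omega)
      (hcom.2.1 hwl) h1
    have h7 : D.Adj (y (k + 4)) t := by
      by_contra h7
      exact h5 ⟨hwl, htK, hwt, h6, h7⟩
    exact Or.inl ⟨h7, l, hl, htK⟩
  · exact absurd hwt (h1.2.2 t ht)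

end hIColBAux

open hIColBAux in
theorem hIColB (hICov : S_ICov) (hIFul : S_IFul) (hIPull : S_IPull) (hIDis : S_IDis)
    (hINB3 : S_INB3) (hICvr : S_ICvr) (hITch : S_ITch) (hILadPos : S_ILadPos) (hISeen : S_ISeen)
    (hIBSw : S_IBSw) : S_IColB := by
  intro V D k n e N i i' a b x y u v K P P' XL WL YL ZL XL' WL' YL' ZL' hT hN hB t ht
  have hke := hB.sys.ke
  have hen := hB.sys.en
  have hhi := hB.hi
  have hhi' := hB.hi'
  have hhie := hB.hie
  have hfx := hB.sys.fr.fx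
  have hfy := hB.sys.fr.fy
  have hS := hISeen V D k n e N i i' a b x y u v K P P' XL WL YL ZL XL' WL' YL' ZL' hT hN hB
  have hfar : ∀ q, k + 8 ≤ q → q < n → (∀ j < q, ¬ D.Adj t (a j)) → D.Adj t (a (n - 1)) →
      ∀ w ∈ BB D k n a b x K P P' WL WL', ¬ D.Adj w t := by
    intro q hq hqn h1 h2 w hw hwt
    have hwL := (hS w hw).1
    exact hIDis V D k n a b x y w hT hN hB.sys.fr (by omega) hwL (seen4 hw)
      (hIPull V D k n (k + 4) q b a y t w hT hN hfy (by omega) (by omega) hqn h1 h2 (lu_sw hwL)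
        hwt.symm)
  rcases hICov V D k n e a b x y hB.sys.fr hke hen t with h | h | h | h | h | h | h
  · right
    intro w hw hwt
    exact ht (Or.inr (light hIPull hIDis hICvr hILadPos hIBSw hT hN hB h hw hwt))
  · left
    intro w hw
    obtain ⟨h1, h2, _⟩ := hS w hw
    have hL := lad (r := i - 1) hfx.lad (by omega)
    exact (hIFul V D k n (k + 9) (i - 1) a b x t (x (i - 1)) w hT hN hfx (by omega) (by omega)
      (by omega) h hL.1 (hL.2 _ (by omega) (by omega)) h1 (h2 _ (by omega) (by omega))).symm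
  · by_cases hL : t ∈ XL
    · exact Or.inl fun w hw => (left hITch hT hN hB h hL w hw).symm
    · have hL' : t ∉ XL' := fun hL' => ht (Or.inl (Or.inl (Or.inl ⟨h, hL, hL'⟩)))
      exact Or.inr fun w hw hwt => right hITch hT hN hB h hL' w hw hwt.symm
  · right
    intro w hw hwt
    obtain ⟨h1, _, h3⟩ := hS w hw
    exact h3 (i' + 3) le_rfl (by omega) (hIPull V D k n (i' + 3) (e - 1) a b x t w hT hN hfx
      (by omega) (by omega) (by omega) (fun j hj => h.2 j (by omega)) h.1 h1 hwt.symm)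
  · right
    intro w hw hwt
    obtain ⟨_, h2, _⟩ := hS w hw
    exact hINB3 V D k n (k + 9) (2 * k + 11) a b x t w hT hN hfx.lad (by omega) (by omega)
      h (fun r hr1 hr2 => h2 r (by omega) (by omega)) hwt.symm
  · exact Or.inr (hfar (k + 8) le_rfl (by omega) h.1 (h.2 _ (by omega) (by omega)))
  · exact Or.inr (hfar (k + 8) le_rfl (by omega) (fun j hj => h.2 j (by omega)) h.1)

end Pool.Agent.MPd439b2.SA
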