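import Pool.Agent.Lib.MP_d439b2_co.SA.SpecII

/-!
# MP_d439b2_co, SA, II23: the columns of the mediums of the band are constant (helper24)
-/

set_option autoImplicit false

namespace Pool.Agent.MPd439b2.SA

open Pool.Agent.MPd439b2 Pool.Agent.MPd439b2.W

private theorem lt_ab {V : Type} {D : SimpleGraph V} {n : ℕ} {a b : ℕ → V} (h : IM D n a b)
    {j : ℕ} (hj : j < n) : a j ∈ LU D n a b ∧ b j ∈ LU D n a b := by
  constructor
  · intro i hi i' hi' h1 h2
    have e1 : ∀ m < n, (D.Adj (a j) (a m) ∨ D.Adj (a j) (b m)) → m = j := by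
      intro m hm h3
      rcases h3 with h3 | h3
      · exact absurd h3 (h j hj m hm).2.1
      · exact ((h j hj m hm).1.mp h3).symm
    rw [e1 i hi h1, e1 i' hi' h2]
  · intro i hi i' hi' h1 h2
    have e1 : ∀ m < n, (D.Adj (b j) (a m) ∨ D.Adj (b j) (b m)) → m = j := by
      intro m hm h3
      rcases h3 with h3 | h3
      · exact (h m hm j hj).1.mp h3.symm
      · exact absurd h3 (h j hj m hm).2.2
    rw [e1 i hi h1, e1 i' hi' h2]

theorem hIColX (hICov : S_ICov) (hIPull : S_IPull) (hIFarY : S_IFarY) (hICvr : S_ICvr)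
    (hISide : S_ISide) (hIIdx : S_IIdx) (hITch : S_ITch) : S_IColX := by
  classical
  intro V D k n e N i i' a b x y u v K P P' XL WL YL ZL XL' WL' YL' ZL' ht hs hB t htB htF htX
  have hS := hB.sys
  have hfr := hS.fr
  have hke := hS.ke
  have hen := hS.en
  have hi0 := hB.hi
  have hi1 := hB.hi'
  have hi2 := hB.hie
  have him := hfr.fx.lad.im
  -- facts on the mediums of the band
  have hzX : ∀ z ∈ BX D k n e b XL XL', z ∈ XX D k n e b := fun z hz => hz.1
  have hztop : ∀ z ∈ XX D k n e b, D.Adj z (b (n - 1)) := fun z hz => hz.2 (n - 1) (by omega) (by omega)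
  have hXG : ∀ z ∈ XX D k n e b, z ∈ XG D k n e b := fun z hz => ⟨fun j hj => hz.1 j (by omega), hz.2⟩
  have hpull : ∀ z ∈ XX D k n e b, ∀ w ∈ LU D n a b, D.Adj z w → D.Adj (x (k + 4)) w := by
    intro z hz w hw hzw
    exact hIPull V D k n (k + 4) (k + 8) a b x z w ht hs hfr.fx (by omega) (by omega) (by omega)
      hz.1 (hztop z hz) hw hzw
  obtain ⟨c, hc, -⟩ := hIIdx V D k n e N a b x y u v K ht hs hS
  have hsee : ∀ z ∈ BX D k n e b XL XL', ∀ j, i' + 2 ≤ j → j < e → D.Adj z (b j) := by
    intro z hz j hj1 hj2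
    obtain ⟨h1, h2, h3, h4, -⟩ := hc j (by omega) hj2
    have h5 := (hB.p2.2.2 j (by omega) hj2 (c j) h1 h3).2 hj1
    have h6 := hB.cx'.inL z hz.2.2 h5
    unfold J at h6
    rw [Finset.mem_filter] at h6
    exact (h4 z hz.1).mp h6.2
  have hmemJ : ∀ z l, l ∈ J D N v z → D.Adj z (v l) := by
    intro z l h
    unfold J at h
    rw [Finset.mem_filter] at h
    exact h.2
  have hcov := hICov V D k n e a b x y hfr hke hen t
  have hnul : D.Adj t (b (n - 1)) → ∀ z ∈ BX D k n e b XL XL', ¬ D.Adj z t := by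
    intro h z hz hzt
    exact ht z t (b (n - 1)) hzt (hztop z hz.1) h
  rcases hcov with h | h | h | h | h | h | h
  · -- light
    by_cases hiso : ∀ w' ∈ LU D n a b, ¬ D.Adj t w'
    · by_cases hx : D.Adj (x (k + 4)) t
      · have htW : t ∈ WW D k n a b x := ⟨h, hx, hiso⟩
        by_cases h1 : t ∈ WL
        · exact Or.inr fun z hz => hB.cx.nul z hz.1 hz.2.1 t h1
        · by_cases h2 : t ∈ WL'
          · exact absurd (Or.inl (Or.inr (Or.inr ⟨htW, h1, h2⟩))) htB
          · exact Or.inl fun z hz => hB.cx'.cmp z hz.2.2 t htW h2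
      · exact Or.inr fun z hz hzt => hx (hpull z hz.1 t h hzt)
    · push Not at hiso
      obtain ⟨w', hw', htw'⟩ := hiso
      obtain ⟨K', hK', htK⟩ := exists_isComp D h
      have hw'K : w' ∈ K' := hK'.2.2 t htK w' hw' htw'
      by_cases hnone : ∀ z ∈ BX D k n e b XL XL', ∀ w ∈ K', ¬ D.Adj z w
      · exact Or.inr fun z hz => hnone z hz t htK
      · push Not at hnone
        obtain ⟨z₀, hz₀, w₀, hw₀, hzw₀⟩ := hnone
        have hx0 : D.Adj (x (k + 4)) w₀ := hpull z₀ hz₀.1 w₀ (hK'.2.1 hw₀) hzw₀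
        -- no low edge
        have hlow : ∀ r < k + 4, a r ∉ K' ∧ b r ∉ K' := by
          intro r hr
          have hr' : r < n := by omega
          have key : ¬ (a r ∈ K' ∧ b r ∈ K') := by
            rintro ⟨h1, h2⟩
            refine hICvr V D k n e a b x K' z₀ w₀ ht hs hfr.fx hke hen (hXG z₀ hz₀.1) hK' hw₀ hzw₀
              (a r) (b r) ⟨h1, h2, him.edge hr', ?_, ?_⟩
            · exact hfr.fx.ex z₀ (n - 1) (by omega) r hr' (hztop z₀ hz₀.1)
            · exact hz₀.1.1 r (by omega)
          refine ⟨fun h1 => key ⟨h1, hK'.2.2 (a r) h1 (b r) (lt_ab him hr').2 (him.edge hr')⟩,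
            fun h2 => key ⟨hK'.2.2 (b r) h2 (a r) (lt_ab him hr').1 (him.edge hr').symm, h2⟩⟩
        by_cases htop : b (n - 1) ∈ K'
        · -- the top component: constant
          by_cases hxt : D.Adj (x (k + 4)) t
          · exact Or.inl fun z hz => (hISide V D k n e a b x K' z (b (n - 1)) ht hs hfr.fx hke hen
              hz.1 hK' htop (hztop z hz.1) t htK).mpr hxt
          · exact Or.inr fun z hz hzt => hxt (hpull z hz.1 t h hzt)
        · have htop' : a (n - 1) ∉ K' := fun h1 => htop (hK'.2.2 (a (n - 1)) h1 (b (n - 1))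
            (lt_ab him (by omega)).2 (him.edge (by omega)))
          obtain ⟨l, hl, rfl⟩ := hS.al K' hK' ⟨t, htK, w', hw'K, htw'⟩ ⟨w₀, hw₀, Or.inl hx0⟩ (by
            intro r hr hr'
            rcases hr' with hr' | hr'
            · exact hlow r hr'
            · subst hr'
              exact ⟨htop', htop⟩)
          have hT := hITch V D k n e N a b x y u v K ht hs hS
          by_cases hlP' : l ∈ P'
          · by_cases hxt : D.Adj (x (k + 4)) t
            · exact Or.inl fun z hz =>
                ((hT z hz.1 l hl).1 (hmemJ z l (hB.cx'.inL z hz.2.2 hlP')) t htK).mpr hxt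
            · exact Or.inr fun z hz hzt => hxt (hpull z hz.1 t h hzt)
          · by_cases hlP : l ∈ P
            · by_cases hxt : D.Adj (x (k + 4)) t
              · exact absurd (Or.inl (Or.inr (Or.inl ⟨hxt, l, Finset.mem_sdiff.mpr ⟨hlP, hlP'⟩,
                  htK⟩))) htB
              · exact Or.inr fun z hz hzt => hxt (hpull z hz.1 t h hzt)
            · refine Or.inr fun z hz => (hT z hz.1 l hl).2 (fun hzv => hlP ?_) t htK
              apply hB.cx.inR z hz.1 hz.2.1
              unfold J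
              exact Finset.mem_filter.mpr ⟨Finset.mem_range.mpr hl, hzv⟩
  · exact Or.inr (hnul (h (n - 1) (by omega) (by omega)))
  · exact Or.inr (hnul (hztop t h))
  · exact Or.inr (hnul h.1)
  · exact absurd h htF
  · exact absurd h htX
  · refine Or.inl fun z hz => ?_
    exact hIFarY V D k n e (i' + 2) a b x y z t ht hs hfr (by omega) (by omega) hen
      (fun j hj => hz.1.1 j (by omega)) (hsee z hz _ (by omega) (by omega))
      (hsee z hz _ (by omega) (by omega)) (hztop z hz.1) h

end Pool.Agent.MPd439b2.SA
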