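import Pool.Agent.Lib.MP_d439b2_co.SA.SpecII

/-!
# MP_d439b2_co, SA, II1: the cover of the vertices (helper91)
-/

set_option autoImplicit false

namespace Pool.Agent.MPd439b2.SA

open Pool.Agent.MPd439b2 Pool.Agent.MPd439b2.W

namespace hICovAux

theorem side {V : Type} {D : SimpleGraph V} {k n e : ℕ} {c : ℕ → V} {v : V} (hke : k + 12 ≤ e)
    (hen : e + 6 ≤ n) (ht : Few n (fun j => D.Adj v (c j)) ∨ FinS n fun j => D.Adj v (c j))
    (hnf : ¬ Few n (fun j => D.Adj v (c j))) :
    v ∈ FF D k n c ∨ v ∈ XX D k n e c ∨ v ∈ XS D n e c := by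
  obtain ⟨i, hi, j, hj, hvi, hvj, hij⟩ : ∃ i < n, ∃ j < n, D.Adj v (c i) ∧ D.Adj v (c j) ∧ i ≠ j := by
    by_contra hno
    apply hnf
    intro i hi j hj h1 h2
    by_contra hij
    exact hno ⟨i, hi, j, hj, h1, h2, hij⟩
  rcases ht with ht | ⟨q, hq | hq⟩
  · exact absurd ht hnf
  · have h1 := (hq i hi).1 hvi
    have h2 := (hq j hj).1 hvj
    rcases Nat.lt_or_ge q (k + 8) with h3 | h3
    · exact Or.inl fun l hl _ => (hq l hl).2 (by omega)
    · rcases Nat.lt_or_ge e q with h4 | h4
      · refine Or.inr (Or.inr ⟨(hq (n - 1) (by omega)).2 (by omega), fun l hl h5 => ?_⟩)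
        have h6 := (hq l (by omega)).1 h5
        omega
      · refine Or.inr (Or.inl ⟨fun l hl h5 => ?_, fun l hl _ => (hq l hl).2 (by omega)⟩)
        have h6 := (hq l (by omega)).1 h5
        omega
  · have h1 := (hq i hi).1 hvi
    have h2 := (hq j hj).1 hvj
    rcases Nat.lt_or_ge q (k + 8) with h3 | h3
    · exact Or.inl fun l hl _ => (hq l hl).2 (by omega)
    · rcases Nat.lt_or_ge e (q + 2) with h4 | h4
      · refine Or.inr (Or.inr ⟨(hq (n - 1) (by omega)).2 (by omega), fun l hl h5 => ?_⟩)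
        have h6 := (hq l (by omega)).1 h5
        omega
      · refine Or.inr (Or.inl ⟨fun l hl h5 => ?_, fun l hl _ => (hq l hl).2 (by omega)⟩)
        have h6 := (hq l (by omega)).1 h5
        omega

end hICovAux

/-- **II1.** The cover. -/
theorem hICov : S_ICov := by
  intro V D k n e a b x y h hke hen v
  by_cases hb : Few n (fun j => D.Adj v (b j))
  · by_cases ha : Few n (fun j => D.Adj v (a j))
    · left
      intro i hi j hj h1 h2
      rcases h1 with h1 | h1 <;> rcases h2 with h2 | h2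
      · exact ha i hi j hj h1 h2
      · exact absurd h1 (h.fx.ex v j hj i hi h2)
      · exact absurd h2 (h.fx.ex v i hi j hj h1)
      · exact hb i hi j hj h1 h2
    · rcases hICovAux.side hke hen (h.fy.tb v) ha with h1 | h1 | h1
      · exact Or.inr (Or.inr (Or.inr (Or.inr (Or.inl h1))))
      · exact Or.inr (Or.inr (Or.inr (Or.inr (Or.inr (Or.inl h1)))))
      · exact Or.inr (Or.inr (Or.inr (Or.inr (Or.inr (Or.inr h1)))))
  · rcases hICovAux.side hke hen (h.fx.tb v) hb with h1 | h1 | h1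
    · exact Or.inr (Or.inl h1)
    · exact Or.inr (Or.inr (Or.inl h1))
    · exact Or.inr (Or.inr (Or.inr (Or.inl h1)))

end Pool.Agent.MPd439b2.SA
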