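import Pool.Agent.Lib.MP_d439b2_co.SA.SpecII

/-!
# MP_d439b2_co, SA, ICut: the cut at a good set
-/

set_option autoImplicit false

namespace Pool.Agent.MPd439b2.SA

open Pool.Agent.MPd439b2 Pool.Agent.MPd439b2.W

theorem hICut (hIFanX : S_IFanX) (hFanC : S_FanC) : S_ICut := by
  intro V D k n e N i a b x y u v K P ht hns hs hp
  have hfan := hIFanX V D k n e N a b x y u v K ht hns hs
  have hgood : Good D N v (XX D k n e b) P := by
    intro z hz
    exact hp.1 (J D N v z) (Or.inl ⟨z, hz, rfl⟩)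
  obtain ⟨XL, hXL, WL, hWL, h1, h2, h3, h4, h5, h6⟩ :=
    hFanC V D k N u v (b (n - 1)) a b (XX D k n e b) (WW D k n a b x) P ht hns hfan hgood
  exact ⟨XL, WL, ⟨hXL, hWL, h1, h2, h3, h4, h5, h6⟩⟩

end Pool.Agent.MPd439b2.SA
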