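import Pool.Agent.Lib.MP_d439b2_co.SA.SpecII

/-!
# MP_d439b2_co, SA, II8: mediums cover the components which they touch (helper12)
-/

set_option autoImplicit false

namespace Pool.Agent.MPd439b2.SA

open Pool.Agent.MPd439b2 Pool.Agent.MPd439b2.W

theorem hICvr (hMix : S_Mix) (hITwo : S_ITwo) : S_ICvr := by
  intro V D k n e a b x K z c hT hN hF hke hen hz hK hc hzc p q hU
  obtain ⟨w, hw, u, hu, w', hw', hwu, huw', hzw, -, hzw'⟩ :=
    hMix V D K z c p q hT hK.1 hc hzc hU
  exact hzw' (hITwo V D k n e a b x z w u w' hT hN hF (by omega) hen hz (hK.2.1 hw) (hK.2.1 hu)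
    (hK.2.1 hw') hzw hwu huw')

end Pool.Agent.MPd439b2.SA
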