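import Pool.Agent.Lib.MP_d439b2_co.SA.SpecII

/-!
# MP_d439b2_co, SA, II5: no light vertex is seen by both ladders (helper12)
-/

set_option autoImplicit false

namespace Pool.Agent.MPd439b2.SA

open Pool.Agent.MPd439b2 Pool.Agent.MPd439b2.W

theorem hIDis (hPt : S_Pt) (hIPull : S_IPull) : S_IDis := by
  intro V D k n a b x y w hT hN hF hn hw hxw hyw
  have him := hF.fx.lad.im
  obtain ⟨c, hc⟩ : ∃ c, ∀ i < n, i ≠ c → ¬ D.Adj w (a i) ∧ ¬ D.Adj w (b i) := by
    by_cases h : ∃ i < n, D.Adj w (a i) ∨ D.Adj w (b i)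
    · obtain ⟨c, hcn, hc⟩ := h
      refine ⟨c, fun i hi hic => ?_⟩
      rw [← not_or]
      exact fun h => hic (hw i hi c hcn h hc)
    · refine ⟨n, fun i hi _ => ?_⟩
      rw [← not_or]
      exact fun h' => h ⟨i, hi, h'⟩
  have hx1 : D.Adj (x (k + 1)) w := by
    refine hIPull V D k n (k + 1) (k + 4) a b x (x (k + 4)) w hT hN hF.fx le_rfl le_rfl (by omega)
      (fun j hj h => ?_) ((hF.fx.lad.xb (k + 4) (by omega) (n - 1) (by omega)).2 (by omega)) hw hxw
    have := (hF.fx.lad.xb (k + 4) (by omega) j (by omega)).1 h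
    omega
  obtain ⟨p, p', hp1, hp2, hp1', hp2', hpp, hpc, hpc'⟩ : ∃ p p', k + 1 ≤ p ∧ p ≤ k + 3 ∧
      k + 1 ≤ p' ∧ p' ≤ k + 3 ∧ p ≠ p' ∧ p ≠ c ∧ p' ≠ c := by
    by_cases h1 : c = k + 1
    · exact ⟨k + 2, k + 3, by omega, by omega, by omega, by omega, by omega, by omega, by omega⟩
    · by_cases h2 : c = k + 2
      · exact ⟨k + 1, k + 3, by omega, by omega, by omega, by omega, by omega, by omega, by omega⟩
      · exact ⟨k + 1, k + 2, by omega, by omega, by omega, by omega, by omega, by omega, by omega⟩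
  obtain ⟨q, hq1, hq2, hqc⟩ : ∃ q, k + 4 ≤ q ∧ q ≤ k + 5 ∧ q ≠ c := by
    by_cases h1 : c = k + 4
    · exact ⟨k + 5, by omega, by omega, by omega⟩
    · exact ⟨k + 4, by omega, by omega, by omega⟩
  obtain ⟨σ, hσ⟩ : ∃ σ : ℕ → ℕ, σ = fun t => if t < c then t else t + 1 := ⟨_, rfl⟩
  have hσ1 : ∀ t < k, σ t < k + 1 ∧ σ t ≠ c := by
    intro t ht
    rw [hσ]
    simp only
    split_ifs <;> omega
  have hσ2 : ∀ i < k, ∀ j < k, σ i = σ j → i = j := by
    intro i hi j hj
    rw [hσ]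
    simp only
    split_ifs <;> omega
  have aa : ∀ i < n, ∀ j < n, ¬ D.Adj (a i) (a j) := fun i hi j hj => (him i hi j hj).2.1
  have bb : ∀ i < n, ∀ j < n, ¬ D.Adj (b i) (b j) := fun i hi j hj => (him i hi j hj).2.2
  have ab : ∀ i < n, ∀ j < n, i ≠ j → ¬ D.Adj (a i) (b j) := fun i hi j hj hij h =>
    hij ((him i hi j hj).1.1 h)
  have ba : ∀ i < n, ∀ j < n, i ≠ j → ¬ D.Adj (b i) (a j) := fun i hi j hj hij h =>
    hij ((him j hj i hi).1.1 h.symm).symm
  have xa : ∀ i < n, ∀ j < n, ¬ D.Adj (x i) (a j) := hF.fx.lad.xa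
  have yb : ∀ i < n, ∀ j < n, ¬ D.Adj (y i) (b j) := hF.fy.lad.xa
  have xb : ∀ i < n, ∀ j < n, j < i → ¬ D.Adj (x i) (b j) := fun i hi j hj hij h => by
    have := (hF.fx.lad.xb i hi j hj).1 h
    omega
  have ya : ∀ i < n, ∀ j < n, j < i → ¬ D.Adj (y i) (a j) := fun i hi j hj hij h => by
    have := (hF.fy.lad.xb i hi j hj).1 h
    omega
  refine hPt V D k (x (k + 1)) (b p) (a p) (b p') (a p') w (y (k + 4)) (a q) (fun t => a (σ t))
    (fun t => b (σ t)) hT hN ((hF.fx.lad.xb (k + 1) (by omega) p (by omega)).2 hp1)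
    (him.edge (by omega)).symm ((hF.fx.lad.xb (k + 1) (by omega) p' (by omega)).2 hp1')
    (him.edge (by omega)).symm hx1 hyw.symm
    ((hF.fy.lad.xb (k + 4) (by omega) q (by omega)).2 hq1)
    (xa _ (by omega) _ (by omega)) (ba _ (by omega) _ (by omega) hpp)
    (fun h => yb _ (by omega) _ (by omega) h.symm) (ba _ (by omega) _ (by omega) (by omega))
    (ba _ (by omega) _ (by omega) (Ne.symm hpp)) (fun h => yb _ (by omega) _ (by omega) h.symm)
    (ba _ (by omega) _ (by omega) (by omega)) (hc p (by omega) hpc).1 (hc p' (by omega) hpc').1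
    (aa _ (by omega) _ (by omega)) (fun h => ya _ (by omega) _ (by omega) (by omega) h.symm)
    (aa _ (by omega) _ (by omega)) (fun h => ya _ (by omega) _ (by omega) (by omega) h.symm)
    (aa _ (by omega) _ (by omega))
    (him.comp σ (fun i hi => by have := (hσ1 i hi).1; omega) hσ2) ?_
  intro t ht z hz
  obtain ⟨h1, h2⟩ := hσ1 t ht
  rcases hz with rfl | rfl | rfl | rfl | rfl | rfl | rfl | rfl
  · exact ⟨xa _ (by omega) _ (by omega), xb _ (by omega) _ (by omega) (by omega)⟩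
  · exact ⟨ba _ (by omega) _ (by omega) (by omega), bb _ (by omega) _ (by omega)⟩
  · exact ⟨aa _ (by omega) _ (by omega), ab _ (by omega) _ (by omega) (by omega)⟩
  · exact ⟨ba _ (by omega) _ (by omega) (by omega), bb _ (by omega) _ (by omega)⟩
  · exact ⟨aa _ (by omega) _ (by omega), ab _ (by omega) _ (by omega) (by omega)⟩
  · exact hc _ (by omega) h2
  · exact ⟨ya _ (by omega) _ (by omega) (by omega), yb _ (by omega) _ (by omega)⟩
  · exact ⟨aa _ (by omega) _ (by omega), ab _ (by omega) _ (by omega) (by omega)⟩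

end Pool.Agent.MPd439b2.SA
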