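import Pool.Agent.Lib.MP_d439b2_co.SA.SpecII

/-!
# MP_d439b2_co, SA, II10: existence of the system of components (helper12)
-/

set_option autoImplicit false

namespace Pool.Agent.MPd439b2.SA

open Pool.Agent.MPd439b2 Pool.Agent.MPd439b2.W

/-- enumeration of a finite set -/
private theorem enumAux {α : Type} (x₀ : α) (F : Finset α) :
    ∃ K : ℕ → α, (∀ l < F.card, K l ∈ F) ∧ (∀ z ∈ F, ∃ l < F.card, z = K l) ∧
      ∀ l < F.card, ∀ l' < F.card, l ≠ l' → K l ≠ K l' := by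
  classical
  refine ⟨fun l => if h : l < F.card then (F.equivFin.symm ⟨l, h⟩).1 else x₀, ?_, ?_, ?_⟩
  · intro l hl
    simp only [dif_pos hl]
    exact (F.equivFin.symm ⟨l, hl⟩).2
  · intro z hz
    refine ⟨(F.equivFin ⟨z, hz⟩).1, (F.equivFin ⟨z, hz⟩).2, ?_⟩
    simp only [Fin.is_lt, dite_true, Fin.eta, Equiv.symm_apply_apply]
  · intro l hl l' hl' hne
    simp only [dif_pos hl, dif_pos hl']
    intro he
    apply hne
    have h1 := F.equivFin.symm.injective (Subtype.ext he)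
    exact congrArg Fin.val h1

theorem hIEnum (hIDis : S_IDis) : S_IEnum := by
  classical
  intro V _ D k n e a b x y hT hN hF hke hen
  obtain ⟨P, hP⟩ : ∃ P : Set V → Prop, ∀ K', P K' ↔ (W.IsComp D (LU D n a b) K' ∧
      (∃ p ∈ K', ∃ q ∈ K', D.Adj p q) ∧
      (∃ w ∈ K', D.Adj (x (k + 4)) w ∨ D.Adj (y (k + 4)) w) ∧
      (∀ r < n, r < k + 4 ∨ r = n - 1 → a r ∉ K' ∧ b r ∉ K')) := ⟨_, fun _ => Iff.rfl⟩
  have hfin : {K' | P K'}.Finite := Set.toFinite _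
  obtain ⟨K, hK1, hK2, hK3⟩ := enumAux (∅ : Set V) hfin.toFinset
  have hmem : ∀ K', K' ∈ hfin.toFinset ↔ P K' := fun K' => by
    rw [Set.Finite.mem_toFinset]
    exact Iff.rfl
  haveI : Nonempty V := ⟨a 0⟩
  have huv : ∀ K', P K' → ∃ u ∈ K', ∃ v ∈ K', D.Adj u v ∧ ¬ D.Adj (x (k + 4)) u ∧
      ¬ D.Adj (y (k + 4)) v := by
    intro K' hK'
    obtain ⟨hc, ⟨p, hp, q, hq, hpq⟩, ⟨w, hw, hwx⟩, -⟩ := (hP K').1 hK'
    have hnb : ∃ w' ∈ K', D.Adj w w' := by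
      by_contra hcon
      have h1 : {w} = K' := by
        refine hc.1.eq_of_nb (Set.singleton_subset_iff.mpr hw) ⟨w, rfl⟩ ?_
        rintro z hz ⟨-, z', hz', hzz⟩
        rw [Set.mem_singleton_iff] at hz'
        exact hcon ⟨z, hz, hz' ▸ hzz⟩
      rw [← h1, Set.mem_singleton_iff] at hp hq
      rw [hp, hq] at hpq
      exact hpq.ne rfl
    obtain ⟨w', hw', hww⟩ := hnb
    by_cases h : D.Adj (x (k + 4)) w
    · exact ⟨w', hw', w, hw, hww.symm, fun h' => hT _ _ _ h h' hww,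
        hIDis V D k n a b x y w hT hN hF (by omega) (hc.2.1 hw) h⟩
    · have h2 : D.Adj (y (k + 4)) w := hwx.resolve_left h
      exact ⟨w, hw, w', hw', hww, h, fun h' => hT _ _ _ h2 h' hww⟩
  choose! u hu v hv huv2 using huv
  have hPl : ∀ l < hfin.toFinset.card, P (K l) := fun l hl => (hmem _).1 (hK1 l hl)
  refine ⟨hfin.toFinset.card, fun l => u (K l), fun l => v (K l), K, ?_⟩
  refine ⟨hF, hke, hen, fun l hl => ((hP _).1 (hPl l hl)).1, fun l hl => hu _ (hPl l hl),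
    fun l hl => hv _ (hPl l hl), fun l hl => (huv2 _ (hPl l hl)).1, hK3,
    fun l hl => (huv2 _ (hPl l hl)).2.1, fun l hl => (huv2 _ (hPl l hl)).2.2,
    fun l hl => ((hP _).1 (hPl l hl)).2.2.2, ?_⟩
  intro K' h1 h2 h3 h4
  exact hK2 K' ((hmem K').2 ((hP K').2 ⟨h1, h2, h3, h4⟩))

end Pool.Agent.MPd439b2.SA
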