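import Pool.Agent.Lib.MP_d439b2_co.SA.SpecII

/-!
# MP_d439b2_co, SA: joint nestedness of two fans (`S_IFanJ`)
-/

set_option autoImplicit false

namespace Pool.Agent.MPd439b2.SA

open Pool.Agent.MPd439b2 Pool.Agent.MPd439b2.W

private theorem hIFanJAux.mem {V : Type} {D : SimpleGraph V} {N : ℕ} {v : ℕ → V} {x : V} {l : ℕ} :
    l ∈ J D N v x ↔ l < N ∧ D.Adj x (v l) := by
  classical
  unfold J
  rw [Finset.mem_filter, Finset.mem_range]

theorem hIFanJ (hPt : S_Pt) : S_IFanJ := by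
  intro V D k N u v t t' p q X W Y Z ht hk htt h1 h2 x hx y hy
  by_contra hcon
  push Not at hcon
  obtain ⟨hc, hs⟩ := hcon
  obtain ⟨l, hl, l', hl', hne⟩ := Finset.one_lt_card.mp hc
  obtain ⟨m, hmy, hmx⟩ := Finset.not_subset.mp hs
  rw [Finset.mem_sdiff, hIFanJAux.mem, hIFanJAux.mem] at hl hl'
  rw [hIFanJAux.mem] at hmy hmx
  have hlN := hl.1.1
  have hlN' := hl'.1.1
  have hmN := hmy.1
  have hxl := hl.1.2
  have hxl' := hl'.1.2
  have hyl : ¬ D.Adj y (u l) := fun h => hl.2 ⟨hlN, h⟩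
  have hyl' : ¬ D.Adj y (u l') := fun h => hl'.2 ⟨hlN', h⟩
  have hym := hmy.2
  have hxm : ¬ D.Adj x (v m) := fun h => hmx ⟨hmN, h⟩
  have hml : m ≠ l := by
    rintro rfl
    exact hxm hxl
  have hml' : m ≠ l' := by
    rintro rfl
    exact hxm hxl'
  have im := h1.im
  -- matching facts
  have e1 : D.Adj (v l) (u l) := (im.edge hlN).symm
  have e2 : D.Adj (v l') (u l') := (im.edge hlN').symm
  have e3 : D.Adj (u m) (v m) := im.edge hmN
  have vu : ∀ i < N, ∀ j < N, i ≠ j → ¬ D.Adj (v i) (u j) := fun i hi j hj hij h =>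
    hij ((im j hj i hi).1.1 h.symm).symm
  have uv : ∀ i < N, ∀ j < N, i ≠ j → ¬ D.Adj (u i) (v j) := fun i hi j hj hij h =>
    hij ((im i hi j hj).1.1 h)
  have uu : ∀ i < N, ∀ j < N, ¬ D.Adj (u i) (u j) := fun i hi j hj => (im i hi j hj).2.1
  have vv : ∀ i < N, ∀ j < N, ¬ D.Adj (v i) (v j) := fun i hi j hj => (im i hi j hj).2.2
  by_cases hxy : D.Adj x y
  · refine hPt V D k x (v l) (u l) (v l') (u l') y (u m) (v m) p q ht hk hxl e1 hxl' e2 hxy hym e3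
      hxm (vu l hlN l' hlN' hne) (vu l hlN m hmN hml.symm) (vv l hlN m hmN)
      (vu l' hlN' l hlN hne.symm) (vu l' hlN' m hmN hml'.symm) (vv l' hlN' m hmN) hyl hyl'
      (uu l hlN l' hlN') (uu l hlN m hmN) (uv l hlN m hmN hml.symm) (uu l' hlN' m hmN)
      (uv l' hlN' m hmN hml'.symm) h1.low ?_
    intro s hs w hw
    rcases hw with h | h | h | h | h | h | h | h
    · rw [h]; exact h1.lx x hx s hs
    · rw [h]; exact (h1.lu l hlN s hs).2.2
    · rw [h]; exact ⟨(h1.lu l hlN s hs).1, (h1.lu l hlN s hs).2.1⟩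
    · rw [h]; exact (h1.lu l' hlN' s hs).2.2
    · rw [h]; exact ⟨(h1.lu l' hlN' s hs).1, (h1.lu l' hlN' s hs).2.1⟩
    · rw [h]; exact (h2.lx y hy s hs).symm
    · rw [h]; exact ⟨(h1.lu m hmN s hs).1, (h1.lu m hmN s hs).2.1⟩
    · rw [Set.mem_singleton_iff.mp h]; exact (h1.lu m hmN s hs).2.2
  · refine hPt V D k x (v l) (u l) (v l') (u l') t t' y p q ht hk hxl e1 hxl' e2 (h1.xt x hx) htt
      (h2.xt y hy).symm hxy (vu l hlN l' hlN' hne) (fun h => (h2.tu l hlN).1 h.symm)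
      (fun h => h2.xu y hy l hlN h.symm) (vu l' hlN' l hlN hne.symm)
      (fun h => (h2.tu l' hlN').1 h.symm) (fun h => h2.xu y hy l' hlN' h.symm)
      (h1.tu l hlN).1 (h1.tu l' hlN').1 (uu l hlN l' hlN') (fun h => (h2.tu l hlN).2 h.symm)
      (fun h => hyl h.symm) (fun h => (h2.tu l' hlN').2 h.symm) (fun h => hyl' h.symm) h1.low ?_
    intro s hs w hw
    rcases hw with h | h | h | h | h | h | h | h
    · rw [h]; exact h1.lx x hx s hs
    · rw [h]; exact (h1.lu l hlN s hs).2.2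
    · rw [h]; exact ⟨(h1.lu l hlN s hs).1, (h1.lu l hlN s hs).2.1⟩
    · rw [h]; exact (h1.lu l' hlN' s hs).2.2
    · rw [h]; exact ⟨(h1.lu l' hlN' s hs).1, (h1.lu l' hlN' s hs).2.1⟩
    · rw [h]; exact h1.lt s hs
    · rw [h]; exact (h2.lt s hs).symm
    · rw [Set.mem_singleton_iff.mp h]; exact (h2.lx y hy s hs).symm

end Pool.Agent.MPd439b2.SA
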