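import Pool.Agent.Lib.MP_d439b2_co.SA.SpecII

/-!
# MP_d439b2_co, SA, II12: the fan of the mediums
-/

set_option autoImplicit false

namespace Pool.Agent.MPd439b2.SA

open Pool.Agent.MPd439b2 Pool.Agent.MPd439b2.W

namespace hIFanXAux

variable {V : Type} {D : SimpleGraph V} {n : ℕ} {a b : ℕ → V}

theorem ltA (h : IM D n a b) {i : ℕ} (hi : i < n) : a i ∈ LU D n a b := by
  have key : ∀ j < n, D.Adj (a i) (a j) ∨ D.Adj (a i) (b j) → i = j := by
    intro j hj h1
    rcases h1 with h1 | h1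
    · exact absurd h1 (h i hi j hj).2.1
    · exact (h i hi j hj).1.1 h1
  intro j hj j' hj' h1 h2
  rw [← key j hj h1, ← key j' hj' h2]

theorem swp {v : V} (h : v ∈ LU D n b a) : v ∈ LU D n a b :=
  fun i hi j hj h1 h2 => h i hi j hj h1.symm h2.symm

theorem ltB (h : IM D n a b) {i : ℕ} (hi : i < n) : b i ∈ LU D n a b := swp (ltA h.swap hi)

end hIFanXAux

open hIFanXAux in
/-- **II12.** The fan of the mediums. -/
theorem hIFanX (hIPull : S_IPull) : S_IFanX := by
  intro V D k n e N a b x y u v K hT hN hS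
  have him := hS.fr.fx.lad.im
  have hke := hS.ke
  have hen := hS.en
  have huL : ∀ l < N, u l ∈ LU D n a b := fun l hl => (hS.com l hl).2.1 (hS.uK l hl)
  have hvL : ∀ l < N, v l ∈ LU D n a b := fun l hl => (hS.com l hl).2.1 (hS.vK l hl)
  have cl : ∀ l < N, ∀ p ∈ K l, ∀ q ∈ LU D n a b, D.Adj p q → q ∈ K l :=
    fun l hl p hp q hq h => (hS.com l hl).2.2 p hp q hq h
  have dif : ∀ i < N, ∀ j < N, ∀ p ∈ K i, ∀ q ∈ K j, D.Adj p q → i = j := by
    intro i hi j hj p hp q hq h
    by_contra hij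
    exact hS.ne i hi j hj hij ((hS.com i hi).eq (hS.com j hj)
      (cl i hi p hp q ((hS.com j hj).2.1 hq) h) hq)
  have xt : ∀ z ∈ XX D k n e b, D.Adj z (b (n - 1)) := fun z hz =>
    hz.2 (n - 1) (by omega) (by omega)
  have hw : ∀ w ∈ WW D k n a b x, ∀ w' ∈ LU D n a b, ¬ D.Adj w w' := fun w h => h.2.2
  refine ⟨?_, him.mono (by omega), ?_, xt, ?_, ?_, ?_, ?_, ?_, ?_, ?_, ?_⟩
  · intro i hi j hj
    refine ⟨⟨fun h => dif i hi j hj _ (hS.uK i hi) _ (hS.vK j hj) h, ?_⟩, ?_, ?_⟩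
    · rintro rfl
      exact hS.uv i hi
    · intro h
      have h1 := dif i hi j hj _ (hS.uK i hi) _ (hS.uK j hj) h
      rw [h1] at h
      exact D.loopless.irrefl _ h
    · intro h
      have h1 := dif i hi j hj _ (hS.vK i hi) _ (hS.vK j hj) h
      rw [h1] at h
      exact D.loopless.irrefl _ h
  · intro z hz l hl h
    exact hS.nx l hl (hIPull V D k n (k + 4) (k + 8) a b x z (u l) hT hN hS.fr.fx (by omega)
      (by omega) (by omega) hz.1 (xt z hz) (huL l hl) h)
  · exact fun w h l hl => ⟨hw w h _ (huL l hl), hw w h _ (hvL l hl)⟩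
  · exact fun w h => hw w h _ (ltB him (by omega))
  · exact fun w h w' h' => hw w h w' h'.1
  · intro l hl
    have h2 := (hS.lo l hl (n - 1) (by omega) (Or.inr rfl)).2
    exact ⟨fun h => h2 (cl l hl _ (hS.uK l hl) _ (ltB him (by omega)) h.symm),
      fun h => h2 (cl l hl _ (hS.vK l hl) _ (ltB him (by omega)) h.symm)⟩
  · exact fun z hz j hj => ⟨hS.fr.fx.ex z (n - 1) (by omega) j (by omega) (xt z hz),
      hz.1 j (by omega)⟩
  · exact fun w h j hj => ⟨hw w h _ (ltA him (by omega)), hw w h _ (ltB him (by omega))⟩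
  · intro j hj
    refine ⟨fun h => ?_, (him (n - 1) (by omega) j (by omega)).2.2⟩
    have h1 := (him j (by omega) (n - 1) (by omega)).1.1 h.symm
    omega
  · intro l hl j hj
    have h2 := hS.lo l hl j (by omega) (Or.inl (by omega))
    have la := ltA him (show j < n by omega)
    have lb := ltB him (show j < n by omega)
    exact ⟨fun h => h2.1 (cl l hl _ (hS.uK l hl) _ la h),
      fun h => h2.2 (cl l hl _ (hS.uK l hl) _ lb h),
      fun h => h2.1 (cl l hl _ (hS.vK l hl) _ la h),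
      fun h => h2.2 (cl l hl _ (hS.vK l hl) _ lb h)⟩

end Pool.Agent.MPd439b2.SA
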