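import Pool.Agent.Lib.MP_d439b2_co.SA.SpecII

/-!
# MP_d439b2_co, SA: full vertices see the light neighbours of the mediums (`S_IFul`)
-/

set_option autoImplicit false

namespace Pool.Agent.MPd439b2.SA

open Pool.Agent.MPd439b2 Pool.Agent.MPd439b2.W

namespace hIFulAux

variable {V : Type} {D : SimpleGraph V} {n : ℕ} {a b : ℕ → V}

theorem cs (x y : V) : Cmp D {x} {y} ↔ D.Adj x y := by
  unfold Cmp
  constructor
  · intro h
    exact h x (Finset.mem_singleton_self x) y (Finset.mem_singleton_self y)
  · intro h p hp q hq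
    rw [Finset.mem_singleton.mp hp, Finset.mem_singleton.mp hq]
    exact h

theorem bmt (him : IM D n a b) {I : Finset ℕ} (hI : ∀ i ∈ I, i < n) :
    BMt D I (fun i => {a i}) (fun i => {b i}) where
  pne i _ := Finset.singleton_nonempty (a i)
  qne i _ := Finset.singleton_nonempty (b i)
  pq i hi := (cs _ _).mpr (him.edge (hI i hi))
  pp i hi j hj hij := by
    refine ⟨Finset.disjoint_singleton.mpr fun h => hij (him.inj_a (hI i hi) (hI j hj) h), ?_⟩
    rw [cs]
    exact (him i (hI i hi) j (hI j hj)).2.1
  px i hi j hj hij := by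
    refine ⟨Finset.disjoint_singleton.mpr fun h => him.ne_ab (hI i hi) (hI j hj) h, ?_⟩
    rw [cs]
    exact fun h => hij ((him i (hI i hi) j (hI j hj)).1.1 h)
  qq i hi j hj hij := by
    refine ⟨Finset.disjoint_singleton.mpr fun h => hij (him.inj_b (hI i hi) (hI j hj) h), ?_⟩
    rw [cs]
    exact (him i (hI i hi) j (hI j hj)).2.2

/-- two of three consecutive indices are not touched -/
theorem two {T : ℕ → Prop} {i : ℕ} (hi : i + 2 < n) (h : Few n T) :
    ∃ p p', i ≤ p ∧ p < p' ∧ p' ≤ i + 2 ∧ ¬ T p ∧ ¬ T p' := by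
  by_cases h0 : T i
  · refine ⟨i + 1, i + 2, by omega, by omega, le_rfl, fun h1 => ?_, fun h1 => ?_⟩
    · have := h i (by omega) (i + 1) (by omega) h0 h1
      omega
    · have := h i (by omega) (i + 2) (by omega) h0 h1
      omega
  · by_cases h1 : T (i + 1)
    · refine ⟨i, i + 2, le_rfl, by omega, le_rfl, h0, fun h2 => ?_⟩
      have := h (i + 1) (by omega) (i + 2) (by omega) h1 h2
      omega
    · exact ⟨i, i + 1, le_rfl, by omega, by omega, h0, h1⟩

/-- at least `k` of `k + 1` indices are not touched -/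
theorem many {T : ℕ → Prop} {k : ℕ} (hk : k < n) (h : Few n T) :
    ∃ R : Finset ℕ, k ≤ R.card ∧ ∀ r ∈ R, r ≤ k ∧ ¬ T r := by
  classical
  refine ⟨(Finset.range (k + 1)).filter (fun r => ¬ T r), ?_, ?_⟩
  · have h1 : ((Finset.range (k + 1)).filter T).card ≤ 1 := by
      rw [Finset.card_le_one]
      intro r hr s hs
      rw [Finset.mem_filter, Finset.mem_range] at hr hs
      exact h r (by omega) s (by omega) hr.2 hs.2
    have h2 := Finset.card_filter_add_card_filter_not (s := Finset.range (k + 1)) T
    rw [Finset.card_range] at h2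
    omega
  · intro r hr
    rw [Finset.mem_filter, Finset.mem_range] at hr
    exact ⟨by omega, hr.2⟩

end hIFulAux

open hIFulAux

theorem hIFul (h1 : S_L3) : S_IFul := by
  classical
  intro V D k n i q a b x f z w ht hk hfr hki hiq hqn hf hz hzn hw hzw
  by_contra hfw
  have him : IM D n a b := hfr.lad.im
  have hxb := hfr.lad.xb
  have hxa := hfr.lad.xa
  have hwT : Few n fun r => D.Adj w (a r) ∨ D.Adj w (b r) := hw
  obtain ⟨p, p', hip, hpp, hpi, hTp, hTp'⟩ := two (i := i) (by omega) hwT
  obtain ⟨R, hRc, hR⟩ := many (k := k) (by omega) hwT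
  have hin : i < n := by omega
  have hpn : p < n := by omega
  have hpn' : p' < n := by omega
  have hn1 : n - 1 < n := by omega
  -- the vertices of the centre block
  have hc1 : ∀ c, D.Adj c (b p) → D.Adj c (b p') → ∀ r < n, c ≠ b r ∧ c ≠ a r := by
    intro c h2 h3 r hr
    constructor
    · rintro rfl
      exact (him r hr p hpn).2.2 h2
    · rintro rfl
      have e1 := (him r hr p hpn).1.1 h2
      have e2 := (him r hr p' hpn').1.1 h3
      omega
  have hfp : D.Adj f (b p) := hf p hpn hip
  have hfp' : D.Adj f (b p') := hf p' hpn' (by omega)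
  have hxp : D.Adj (x i) (b p) := (hxb i hin p hpn).2 hip
  have hxp' : D.Adj (x i) (b p') := (hxb i hin p' hpn').2 (by omega)
  let C : Finset V := {f, x i}
  have hC : ∀ c ∈ C, D.Adj c (b p) ∧ D.Adj c (b p') := by
    intro c hc
    rcases Finset.mem_insert.mp hc with h | h
    · rw [h]; exact ⟨hfp, hfp'⟩
    · rw [Finset.mem_singleton.mp h]; exact ⟨hxp, hxp'⟩
  have hfC : f ∈ C := Finset.mem_insert_self f _
  have hxC : x i ∈ C := Finset.mem_insert_of_mem (Finset.mem_singleton_self _)
  let I : Finset ℕ := insert p (insert p' R)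
  have hI : ∀ r ∈ I, r < q ∧ ¬ D.Adj w (a r) ∧ ¬ D.Adj w (b r) := by
    intro r hr
    rcases Finset.mem_insert.mp hr with h | h
    · subst h
      exact ⟨by omega, fun h' => hTp (Or.inl h'), fun h' => hTp (Or.inr h')⟩
    rcases Finset.mem_insert.mp h with h | h
    · subst h
      exact ⟨by omega, fun h' => hTp' (Or.inl h'), fun h' => hTp' (Or.inr h')⟩
    · have h2 := hR r h
      exact ⟨by omega, fun h' => h2.2 (Or.inl h'), fun h' => h2.2 (Or.inr h')⟩
  have hIn : ∀ r ∈ I, r < n := fun r hr => (hI r hr).1.trans hqn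
  have hoff : Off I (fun i => {b i}) (fun i => {a i}) C := by
    intro r hr
    constructor
    · rw [Finset.disjoint_singleton_right]
      intro h
      exact (hc1 _ (hC _ h).1 (hC _ h).2 r (hIn r hr)).1 rfl
    · rw [Finset.disjoint_singleton_right]
      intro h
      exact (hc1 _ (hC _ h).1 (hC _ h).2 r (hIn r hr)).2 rfl
  have hU0 : Unt D I (fun i => {b i}) (fun i => {a i}) {b (n - 1)} := by
    intro r hr
    have hrn := hIn r hr
    have hrq := (hI r hr).1
    refine ⟨Finset.disjoint_singleton.mpr fun h => ?_,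
      Finset.disjoint_singleton.mpr fun h => him.ne_ab hrn hn1 h.symm, ?_, ?_⟩
    · have := him.inj_b hn1 hrn h
      omega
    · rw [cs]
      exact (him (n - 1) hn1 r hrn).2.2
    · rw [cs]
      intro h
      have := (him r hrn (n - 1) hn1).1.1 h.symm
      omega
  have hU1 : Unt D I (fun i => {b i}) (fun i => {a i}) {z} := by
    intro r hr
    have hrn := hIn r hr
    have hrq := (hI r hr).1
    refine ⟨Finset.disjoint_singleton.mpr fun h => ?_,
      Finset.disjoint_singleton.mpr fun h => ?_, ?_, ?_⟩
    · rw [h] at hzn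
      exact (him r hrn (n - 1) hn1).2.2 hzn
    · rw [h] at hzn
      have := (him r hrn (n - 1) hn1).1.1 hzn
      omega
    · rw [cs]
      exact hz r hrq
    · rw [cs]
      exact hfr.ex z (n - 1) hn1 r hrn hzn
  have hU2 : Unt D I (fun i => {b i}) (fun i => {a i}) {w} := by
    intro r hr
    have hrn := hIn r hr
    have h2 := (hI r hr).2
    refine ⟨Finset.disjoint_singleton.mpr fun h => ?_,
      Finset.disjoint_singleton.mpr fun h => ?_, ?_, ?_⟩
    · apply h2.1
      rw [h]
      exact (him.edge hrn).symm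
    · apply h2.2
      rw [h]
      exact him.edge hrn
    · rw [cs]
      exact h2.2
    · rw [cs]
      exact h2.1
  have hCz : Disjoint C {z} := by
    rw [Finset.disjoint_singleton_right]
    intro h
    exact hz p (by omega) (hC z h).1
  have hCw : Disjoint C {w} := by
    rw [Finset.disjoint_singleton_right]
    intro h
    exact hTp (Or.inr (hC w h).1)
  have h0w : Disjoint ({b (n - 1)} : Finset V) {w} := by
    rw [Finset.disjoint_singleton]
    intro h
    apply hfw
    rw [← h]
    exact hf (n - 1) hn1 (by omega)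
  have hC0 : Cmp D C {b (n - 1)} := by
    intro c hc y hy
    rw [Finset.mem_singleton.mp hy]
    rcases Finset.mem_insert.mp hc with h | h
    · rw [h]
      exact hf (n - 1) hn1 (by omega)
    · rw [Finset.mem_singleton.mp h]
      exact (hxb i hin (n - 1) hn1).2 (by omega)
  have hCp : ∀ r ∈ ({p, p'} : Finset ℕ), Tc D (fun i => {b i}) (fun i => {a i}) C r := by
    intro r hr
    left
    intro c hc y hy
    rw [Finset.mem_singleton.mp hy]
    rcases Finset.mem_insert.mp hr with h | h
    · rw [h]; exact (hC c hc).1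
    · rw [Finset.mem_singleton.mp h]; exact (hC c hc).2
  have hRI : R ⊆ I := fun r hr => Finset.mem_insert_of_mem (Finset.mem_insert_of_mem hr)
  have hRT : ∀ r ∈ R, ¬ Tc D (fun i => {b i}) (fun i => {a i}) C r := by
    intro r hr h
    have hrk := (hR r hr).1
    have hrn := hIn r (hRI hr)
    rcases h with h | h
    · have h2 := (hxb i hin r hrn).1 (h (x i) hxC (b r) (Finset.mem_singleton_self _))
      omega
    · exact hxa i hin r hrn (h (x i) hxC (a r) (Finset.mem_singleton_self _))
  have hfin := h1 k V D I (fun i => {b i}) (fun i => {a i}) C {b (n - 1)} {z} {w} p p' ht hk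
    (bmt him.swap hIn) ⟨f, hfC⟩ (Finset.singleton_nonempty _) (Finset.singleton_nonempty _)
    (Finset.singleton_nonempty _) hoff hU0 hU1 hU2 hCz hCw h0w hC0 ((cs _ _).mpr hzn.symm)
    ((cs _ _).mpr hzw) (fun h => hfw (h f hfC w (Finset.mem_singleton_self w)))
    (Finset.mem_insert_self _ _) (Finset.mem_insert_of_mem (Finset.mem_insert_self _ _))
    (by omega) (hCp p (by simp)) (hCp p' (by simp)) R hRI hRT
  omega

end Pool.Agent.MPd439b2.SA
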