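import Pool.Agent.Lib.MP_d439b2_co.SA.SpecII

/-!
# MP_d439b2_co, SA, II26: case (I,I), same direction
-/

set_option autoImplicit false

namespace Pool.Agent.MPd439b2.SA

open Pool.Agent.MPd439b2 Pool.Agent.MPd439b2.W

namespace hIIAux

variable {V : Type} {D : SimpleGraph V}

theorem light {n : ℕ} {a b : ℕ → V} (h : IM D n a b) {j : ℕ} (hj : j < n) :
    b j ∈ LU D n a b := by
  intro i hi i' hi' h1 h2
  have key : ∀ i, i < n → (D.Adj (b j) (a i) ∨ D.Adj (b j) (b i)) → i = j := by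
    intro i hi h1
    rcases h1 with h1 | h1
    · exact (h i hi j hj).1.1 h1.symm
    · exact absurd h1 (h j hj i hi).2.2
  exact (key i hi h1).trans (key i' hi' h2).symm

theorem fam (k n e N : ℕ) (a b u v : ℕ → V) :
    Fam D k n e N b a v u = Fam D k n e N a b u v := by
  ext Q
  exact or_comm

theorem posSw {k n e N i : ℕ} {a b x y u v : ℕ → V} {K : ℕ → Set V} {P : Finset ℕ}
    (hS : Sys D k n e N a b x y u v K) (h : PosP D k n e N a b u v K P i) :
    PosP D k n e N b a v u K P i := by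
  refine ⟨?_, h.2.1, ?_⟩
  · rw [fam]
    exact h.1
  · intro j hj hje l hl hal
    refine h.2.2 j hj hje l hl ?_
    have him := hS.fr.fx.lad.im
    have hjn : j < n := by
      have := hS.en
      omega
    exact (hS.com l hl).2.2 (a j) hal (b j) (light him hjn) (him.edge hjn)

end hIIAux

/-- **II26.** -/
theorem hII (hIEnum : S_IEnum) (hISw : S_ISw) (hIPos : S_IPos) (hICut : S_ICut) (hIBSw : S_IBSw)
    (hIRank : S_IRank) (hISize : S_ISize) (hRk0 : S_Rk0) : S_II := by
  intro k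
  obtain ⟨ρ, N₀, hR⟩ := hRk0 k 0
  refine ⟨2 * ρ + 4, ?_⟩
  intro B
  obtain ⟨i, hi⟩ : ∃ i, i = 2 * k + 14 + B := ⟨_, rfl⟩
  obtain ⟨i', hi'⟩ : ∃ i', i' = i + B + 3 := ⟨_, rfl⟩
  obtain ⟨e, he⟩ : ∃ e, e = i' + 10 := ⟨_, rfl⟩
  refine ⟨e + N₀ + 6, ?_⟩
  intro V _ D n a b x y hT hSp hF hn
  obtain ⟨N, u, v, K, hS⟩ := hIEnum V D k n e a b x y hT hSp hF (by omega) (by omega)
  have hS' : Sys D k n e N b a y x v u K := hISw V D k n e N a b x y u v K hS
  obtain ⟨P, hP⟩ := hIPos V D k n e N i a b x y u v K hT hSp hS (by omega) (by omega)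
  obtain ⟨P', hP'⟩ := hIPos V D k n e N i' a b x y u v K hT hSp hS (by omega) (by omega)
  obtain ⟨XL, WL, cx⟩ := hICut V D k n e N i a b x y u v K P hT hSp hS hP
  obtain ⟨YL, ZL, cy⟩ := hICut V D k n e N i b a y x v u K P hT hSp hS' (hIIAux.posSw hS hP)
  obtain ⟨XL', WL', cx'⟩ := hICut V D k n e N i' a b x y u v K P' hT hSp hS hP'
  obtain ⟨YL', ZL', cy'⟩ := hICut V D k n e N i' b a y x v u K P' hT hSp hS' (hIIAux.posSw hS hP')
  have hB : Bnd D k n e N i i' a b x y u v K P P' XL WL YL ZL XL' WL' YL' ZL' :=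
    ⟨hS, hP, hP', cx, cy, cx', cy', by omega, by omega, by omega⟩
  have him : IM D n a b := hF.fx.lad.im
  have hrk : LK.rk D (XX D k n e b ∪ FF D k n b) (XX D k n e a ∪ FF D k n a) ≤ ρ := by
    refine hR V D (fun j => a (e + j)) (fun j => b (e + j)) _ _ hT hSp
      (him.comp (fun j => e + j) (fun j hj => by omega) (fun j hj j' hj' h => by
        have h1 : e + j = e + j' := h
        omega)) ?_ ?_
    · intro z hz
      refine ⟨∅, by simp, ?_⟩
      intro j hj _
      rcases hz with hz | hz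
      · exact hz.2 (e + j) (by omega) (by omega)
      · exact hz (e + j) (by omega) (by omega)
    · intro z hz
      refine ⟨∅, by simp, ?_⟩
      intro j hj _
      rcases hz with hz | hz
      · exact hz.2 (e + j) (by omega) (by omega)
      · exact hz (e + j) (by omega) (by omega)
  have h1 : LK.rk D (XX D k n e b) (FF D k n a ∪ XX D k n e a) ≤ ρ := by
    refine (Rep.rk_mono D Set.subset_union_left ?_).trans hrk
    rw [Set.union_comm]
  have h2 : LK.rk D (XX D k n e a) (FF D k n b ∪ XX D k n e b) ≤ ρ := by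
    rw [Rep.rk_symm]
    refine (Rep.rk_mono D ?_ Set.subset_union_left).trans hrk
    rw [Set.union_comm]
  have h3 := hIRank V D k n e N i i' ρ a b x y u v K P P' XL WL YL ZL XL' WL' YL' ZL' hT hSp hB h1 h2
  obtain ⟨h4, h5⟩ := hISize V D k n e N i i' B a b x y u v K P P' XL WL YL ZL XL' WL' YL' ZL' hT
    hSp hB (by omega) (by omega)
  exact ⟨_, h3, h4, h5⟩

end Pool.Agent.MPd439b2.SA
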