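import Pool.Agent.Lib.MP_d439b2_co.SA.SpecII

/-!
# MP_d439b2_co, SA, II15: the edges of the matching are in different components (helper24)
-/

set_option autoImplicit false

namespace Pool.Agent.MPd439b2.SA

open Pool.Agent.MPd439b2 Pool.Agent.MPd439b2.W

private theorem lt_ab' {V : Type} {D : SimpleGraph V} {n : ℕ} {a b : ℕ → V} (h : IM D n a b)
    {j : ℕ} (hj : j < n) : a j ∈ LU D n a b ∧ b j ∈ LU D n a b := by
  constructor
  · intro i hi i' hi' h1 h2
    have e1 : ∀ m < n, (D.Adj (a j) (a m) ∨ D.Adj (a j) (b m)) → m = j := by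
      intro m hm h3
      rcases h3 with h3 | h3
      · exact absurd h3 (h j hj m hm).2.1
      · exact ((h j hj m hm).1.mp h3).symm
    rw [e1 i hi h1, e1 i' hi' h2]
  · intro i hi i' hi' h1 h2
    have e1 : ∀ m < n, (D.Adj (b j) (a m) ∨ D.Adj (b j) (b m)) → m = j := by
      intro m hm h3
      rcases h3 with h3 | h3
      · exact (h m hm j hj).1.mp h3.symm
      · exact absurd h3 (h j hj m hm).2.2
    rw [e1 i hi h1, e1 i' hi' h2]

/-- one side -/
private theorem side (hICvr : S_ICvr) (hISide : S_ISide) {V : Type}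
    {D : SimpleGraph V} {k n e N : ℕ} {a b x y u v : ℕ → V} {K : ℕ → Set V} (ht : TriFree D)
    (hs : NoSpi k D) (hS : Sys D k n e N a b x y u v K) {l : ℕ} (hl : l < N) {j : ℕ}
    (hj1 : k + 4 ≤ j) (hj2 : j < e) (hb : b j ∈ K l) (z : V) (hz : z ∈ XX D k n e b) :
    D.Adj z (v l) ↔ D.Adj z (b j) := by
  have hke := hS.ke
  have hen := hS.en
  have hfx := hS.fr.fx
  have hKl := hS.com l hl
  have hxj : D.Adj (x (k + 4)) (b j) := (hfx.lad.xb _ (by omega) j (by omega)).mpr hj1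
  have hxG : x (k + 4) ∈ XG D k n e b := by
    refine ⟨fun j hj h => ?_, fun j hj h => (hfx.lad.xb _ (by omega) j hj).mpr (by omega)⟩
    have := (hfx.lad.xb _ (by omega) j (by omega)).mp h
    omega
  have hcv := hICvr V D k n e a b x (K l) (x (k + 4)) (b j) ht hs hfx hke hen hxG hKl hb hxj
  have hxv : D.Adj (x (k + 4)) (v l) := by
    by_contra h
    exact hcv (u l) (v l) ⟨hS.uK l hl, hS.vK l hl, hS.uv l hl, hS.nx l hl, h⟩
  constructor
  · intro h
    exact (hISide V D k n e a b x (K l) z (v l) ht hs hfx hke hen hz hKl (hS.vK l hl) h (b j)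
      hb).mpr hxj
  · intro h
    exact (hISide V D k n e a b x (K l) z (b j) ht hs hfx hke hen hz hKl hb h (v l)
      (hS.vK l hl)).mpr hxv

theorem hIIdx (hICvr : S_ICvr) (hISide : S_ISide) (hISw : S_ISw) : S_IIdx := by
  classical
  intro V D k n e N a b x y u v K ht hs hS
  have hke := hS.ke
  have hen := hS.en
  have hfx := hS.fr.fx
  have him := hfx.lad.im
  have hxG : ∀ j, k + 3 ≤ j → j ≤ e → x j ∈ XG D k n e b := by
    intro i h1 h2
    refine ⟨fun j hj h => ?_, fun j hj h => (hfx.lad.xb _ (by omega) j hj).mpr (by omega)⟩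
    have := (hfx.lad.xb _ (by omega) j (by omega)).mp h
    omega
  -- no other edge of the matching is in the component of `b j`
  have hno : ∀ j, k + 4 ≤ j → j < e → ∀ K', W.IsComp D (LU D n a b) K' → b j ∈ K' →
      ∀ r < n, r ≠ j → a r ∉ K' ∧ b r ∉ K' := by
    intro j hj1 hj2 K' hK' hb r hr hrj
    have key : ¬ (a r ∈ K' ∧ b r ∈ K') := by
      rintro ⟨h1, h2⟩
      rcases lt_or_gt_of_ne hrj with h3 | h3
      · refine hICvr V D k n e a b x K' (x j) (b j) ht hs hfx hke hen (hxG j (by omega) (by omega))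
          hK' hb ((hfx.lad.xb _ (by omega) j (by omega)).mpr le_rfl) (a r) (b r)
          ⟨h1, h2, him.edge hr, hfx.lad.xa _ (by omega) r hr, fun h4 => ?_⟩
        have := (hfx.lad.xb _ (by omega) r hr).mp h4
        omega
      · refine hICvr V D k n e a b x K' (x (j + 1)) (b r) ht hs hfx hke hen
          (hxG (j + 1) (by omega) (by omega)) hK' h2
          ((hfx.lad.xb _ (by omega) r hr).mpr (by omega)) (a j) (b j)
          ⟨hK'.2.2 (b j) hb (a j) (lt_ab' him (by omega)).1 (him.edge (by omega)).symm, hb,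
            him.edge (by omega), hfx.lad.xa _ (by omega) j (by omega), fun h4 => ?_⟩
        have := (hfx.lad.xb _ (by omega) j (by omega)).mp h4
        omega
    exact ⟨fun h1 => key ⟨h1, hK'.2.2 (a r) h1 (b r) (lt_ab' him hr).2 (him.edge hr)⟩,
      fun h2 => key ⟨hK'.2.2 (b r) h2 (a r) (lt_ab' him hr).1 (him.edge hr).symm, h2⟩⟩
  have hex : ∀ j, ∃ l, k + 4 ≤ j → j < e → l < N ∧ a j ∈ K l ∧ b j ∈ K l := by
    intro j
    by_cases hj : k + 4 ≤ j ∧ j < e
    · obtain ⟨K', hK', hb⟩ := exists_isComp D (lt_ab' him (j := j) (by omega)).2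
      have ha : a j ∈ K' :=
        hK'.2.2 (b j) hb (a j) (lt_ab' him (by omega)).1 (him.edge (by omega)).symm
      obtain ⟨l, hl, rfl⟩ := hS.al K' hK' ⟨a j, ha, b j, hb, him.edge (by omega)⟩
        ⟨b j, hb, Or.inl ((hfx.lad.xb _ (by omega) j (by omega)).mpr hj.1)⟩ (fun r hr hr' =>
          hno j hj.1 hj.2 K' hK' hb r hr (by omega))
      exact ⟨l, fun _ _ => ⟨hl, ha, hb⟩⟩
    · exact ⟨0, fun h1 h2 => absurd ⟨h1, h2⟩ hj⟩
  choose c hc using hex
  refine ⟨c, fun j hj1 hj2 => ?_, ?_⟩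
  · obtain ⟨h1, h2, h3⟩ := hc j hj1 hj2
    refine ⟨h1, h2, h3, ?_, ?_⟩
    · exact side hICvr hISide ht hs hS h1 hj1 hj2 h3
    · exact side hICvr hISide ht hs (hISw V D k n e N a b x y u v K hS) h1 hj1 hj2 h2
  · intro j j' hj1 hj2 hj1' hj2' h
    by_contra hne
    obtain ⟨h1, h2, h3⟩ := hc j hj1 hj2
    obtain ⟨h1', h2', h3'⟩ := hc j' hj1' hj2'
    rw [← h] at h3'
    exact (hno j hj1 hj2 _ (hS.com _ h1) h3 j' (by omega) (Ne.symm hne)).2 h3'

end Pool.Agent.MPd439b2.SA
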