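import Pool.Agent.Lib.MP_d439b2_co.SA.SpecII

/-!
# MP_d439b2_co, SA, ILadPos: positions of the ladder vertices
-/

set_option autoImplicit false

namespace Pool.Agent.MPd439b2.SA

open Pool.Agent.MPd439b2 Pool.Agent.MPd439b2.W

private theorem mem_J {V : Type} {D : SimpleGraph V} {N : ℕ} {v : ℕ → V} {z : V} {l : ℕ} :
    l ∈ J D N v z ↔ l < N ∧ D.Adj z (v l) := by
  classical
  rw [J, Finset.mem_filter, Finset.mem_range]

theorem hILadPos (hIIdx : S_IIdx) : S_ILadPos := by
  intro V D k n e N i a b x y u v K P XL WL ht hns hs hp hc hie r hkr hre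
  have hke := hs.ke
  have hen := hs.en
  have hxb := hs.fr.fx.lad.xb
  have hxr : x r ∈ XX D k n e b := by
    constructor
    · intro j hj h
      have h4 := (hxb r (by omega) j (by omega)).mp h
      omega
    · intro j hj hej
      exact (hxb r (by omega) j hj).mpr (by omega)
  obtain ⟨c, hc1, hc2⟩ := hIIdx V D k n e N a b x y u v K ht hns hs
  obtain ⟨hg, hPN, hpos⟩ := hp
  obtain ⟨g1, g2, g3⟩ := hg (J D N v (x r)) (Or.inl ⟨x r, hxr, rfl⟩)
  constructor
  · intro hri
    obtain ⟨h1, h2, h3, h4, h5⟩ := hc1 r (by omega) (by omega)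
    have h6 : c r ∈ J D N v (x r) :=
      mem_J.mpr ⟨h1, (h4 (x r) hxr).mpr ((hxb r (by omega) r (by omega)).mpr le_rfl)⟩
    have h7 : c r ∉ P := (hpos r (by omega) (by omega) (c r) h1 h3).1 hri
    apply hc.big (x r) hxr
    rcases lt_trichotomy (J D N v (x r)).card P.card with h | h | h
    · exact absurd (g3 h h6) h7
    · exact absurd (g1 h ▸ h6) h7
    · exact h
  · intro hir
    obtain ⟨h1, h2, h3, h4, h5⟩ := hc1 (r - 1) (by omega) (by omega)
    have h6 : c (r - 1) ∉ J D N v (x r) := by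
      intro h
      have h7 := (h4 (x r) hxr).mp (mem_J.mp h).2
      have h8 := (hxb r (by omega) (r - 1) (by omega)).mp h7
      omega
    have h7 : c (r - 1) ∈ P := (hpos (r - 1) (by omega) (by omega) (c (r - 1)) h1 h3).2 (by omega)
    apply hc.sml (x r) hxr
    rcases lt_trichotomy (J D N v (x r)).card P.card with h | h | h
    · exact h
    · exact absurd ((g1 h).symm ▸ h7) h6
    · exact absurd (g2 h h7) h6

end Pool.Agent.MPd439b2.SA
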