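import Pool.Agent.Lib.MP_d439b2_co.SA.SpecII

/-!
# MP_d439b2_co, SA, II6: the rule NB3 (helper12)
-/

set_option autoImplicit false

namespace Pool.Agent.MPd439b2.SA

open Pool.Agent.MPd439b2 Pool.Agent.MPd439b2.W

theorem hINB3 (hL3 : S_L3) : S_INB3 := by
  classical
  intro V D k n s i a b x g w hT hN hL hsi hin hga hxw hgw
  have him := hL.im
  have aa : ∀ i < n, ∀ j < n, ¬ D.Adj (a i) (a j) := fun i hi j hj => (him i hi j hj).2.1
  have bb : ∀ i < n, ∀ j < n, ¬ D.Adj (b i) (b j) := fun i hi j hj => (him i hi j hj).2.2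
  have ab : ∀ i < n, ∀ j < n, i ≠ j → ¬ D.Adj (a i) (b j) := fun i hi j hj hij h =>
    hij ((him i hi j hj).1.1 h)
  have ba : ∀ i < n, ∀ j < n, i ≠ j → ¬ D.Adj (b i) (a j) := fun i hi j hj hij h =>
    hij ((him j hj i hi).1.1 h.symm).symm
  have xb : ∀ r < n, ∀ j < n, r ≤ j → D.Adj (x r) (b j) := fun r hr j hj h =>
    (hL.xb r hr j hj).2 h
  have nxb : ∀ r < n, ∀ j < n, j < r → ¬ D.Adj (x r) (b j) := fun r hr j hj h h' => by
    have := (hL.xb r hr j hj).1 h'
    omega
  -- adjacency of `g`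
  have hgx : ∀ r, s ≤ r → r ≤ i → ¬ D.Adj g (x r) := fun r h1 h2 h =>
    hT w g (x r) hgw.symm (hxw r h1 h2).symm h
  have hgb : ∀ r < n, s ≤ r → ¬ D.Adj g (b r) := fun r hr h1 h =>
    hT (a r) g (b r) (hga r hr h1).symm (him.edge hr) h
  have hgai : D.Adj g (a i) := hga i (by omega) (by omega)
  have hgas : D.Adj g (a s) := hga s (by omega) le_rfl
  -- different vertices
  have exa : ∀ r ≤ i, ∀ j < n, x r ≠ a j := by
    intro r hr j hj he
    have h1 := xb r (by omega) r (by omega) le_rfl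
    have h2 := xb r (by omega) (n - 1) (by omega) (by omega)
    rw [he] at h1 h2
    have h3 := (him j hj r (by omega)).1.1 h1
    have h4 := (him j hj (n - 1) (by omega)).1.1 h2
    omega
  have exb : ∀ r ≤ i, ∀ j < n, x r ≠ b j := by
    intro r hr j hj he
    have h1 := xb r (by omega) r (by omega) le_rfl
    rw [he] at h1
    exact bb j hj r (by omega) h1
  have exx : ∀ r ≤ i, ∀ r' ≤ i, r ≠ r' → x r ≠ x r' := by
    intro r hr r' hr' hne he
    rcases Nat.lt_or_gt_of_ne hne with h | h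
    · exact nxb r' (by omega) r (by omega) h (he ▸ xb r (by omega) r (by omega) le_rfl)
    · exact nxb r (by omega) r' (by omega) h (he.symm ▸ xb r' (by omega) r' (by omega) le_rfl)
  have ega : ∀ j < n, g ≠ a j := fun j hj he => aa j hj i (by omega) (he ▸ hgai)
  have egb : ∀ j < n, g ≠ b j := by
    intro j hj he
    rw [he] at hgai hgas
    by_cases h : j = i
    · exact ba j hj s (by omega) (by omega) hgas
    · exact ba j hj i (by omega) h hgai
  have egx : ∀ r < n, g ≠ x r := fun r hr he => hL.xa r hr i (by omega) (he ▸ hgai)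
  have eab : ∀ r < n, ∀ j < n, a r ≠ b j := fun r hr j hj => him.ne_ab hr hj
  have eaa : ∀ r < n, ∀ j < n, r ≠ j → a r ≠ a j := fun r hr j hj h he => h (him.inj_a hr hj he)
  have ebb : ∀ r < n, ∀ j < n, r ≠ j → b r ≠ b j := fun r hr j hj h he => h (him.inj_b hr hj he)
  -- the blocks
  obtain ⟨Q, hQ⟩ : ∃ Q : ℕ → Finset V, ∀ r z, z ∈ Q r ↔ z = a r ∨ (r < s + k ∧ z = x r) := by
    refine ⟨fun r => if r < s + k then {a r, x r} else {a r}, fun r z => ?_⟩
    by_cases h : r < s + k
    · simp only [if_pos h, Finset.mem_insert, Finset.mem_singleton]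
      exact ⟨fun h1 => h1.imp_right fun h2 => ⟨h, h2⟩, fun h1 => h1.imp_right fun h2 => h2.2⟩
    · simp only [if_neg h, Finset.mem_singleton]
      exact ⟨fun h1 => Or.inl h1, fun h1 => h1.resolve_right fun h2 => h h2.1⟩
  have hI : ∀ r, r ∈ Finset.Ico s (s + k + 2) → s ≤ r ∧ r < i ∧ r < n := by
    intro r hr
    rw [Finset.mem_Ico] at hr
    omega
  have haQ : ∀ r, a r ∈ Q r := fun r => (hQ r _).2 (Or.inl rfl)
  have nQ : ∀ z r, z ≠ a r → z ≠ x r → z ∉ Q r := by
    intro z r h1 h2 h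
    rcases (hQ r z).1 h with h | h
    · exact h1 h
    · exact h2 h.2
  have ncQ : ∀ (A : Finset V) z r, z ∈ A → ¬ D.Adj z (a r) → ¬ Cmp D A (Q r) :=
    fun A z r hz h h' => h (h' z hz (a r) (haQ r))
  have nc1 : ∀ z z' : V, ¬ D.Adj z z' → ¬ Cmp D {z} {z'} := fun z z' h h' =>
    h (h' z (Finset.mem_singleton_self z) z' (Finset.mem_singleton_self z'))
  have c1 : ∀ z z' : V, D.Adj z z' → Cmp D {z} {z'} := by
    intro z z' h p hp q hq
    rw [Finset.mem_singleton] at hp hq
    rw [hp, hq]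
    exact h
  have hbm : BMt D (Finset.Ico s (s + k + 2)) (fun r => {b r}) Q := by
    refine ⟨fun r _ => Finset.singleton_nonempty _, fun r _ => ⟨a r, haQ r⟩, ?_, ?_, ?_, ?_⟩
    · intro r hr p hp q hq
      obtain ⟨h1, h2, h3⟩ := hI r hr
      rw [Finset.mem_singleton] at hp
      rw [hp]
      rcases (hQ r q).1 hq with h | h
      · rw [h]
        exact (him.edge h3).symm
      · rw [h.2]
        exact (xb r h3 r h3 le_rfl).symm
    · intro r hr r' hr' hne
      obtain ⟨h1, h2, h3⟩ := hI r hr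
      obtain ⟨h1', h2', h3'⟩ := hI r' hr'
      exact ⟨Finset.disjoint_singleton.2 (ebb r h3 r' h3' hne), nc1 _ _ (bb r h3 r' h3')⟩
    · intro r hr r' hr' hne
      obtain ⟨h1, h2, h3⟩ := hI r hr
      obtain ⟨h1', h2', h3'⟩ := hI r' hr'
      exact ⟨Finset.disjoint_singleton_left.2 (nQ _ _ (fun h => eab r' h3' r h3 h.symm)
        (fun h => exb r' h2'.le r h3 h.symm)), ncQ _ (b r) r' (Finset.mem_singleton_self _)
        (ba r h3 r' h3' hne)⟩
    · intro r hr r' hr' hne
      obtain ⟨h1, h2, h3⟩ := hI r hr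
      obtain ⟨h1', h2', h3'⟩ := hI r' hr'
      refine ⟨Finset.disjoint_left.2 fun z hz => ?_, ncQ _ (a r) r' (haQ r) (aa r h3 r' h3')⟩
      rcases (hQ r z).1 hz with h | h
      · rw [h]
        exact nQ _ _ (eaa r h3 r' h3' hne) (fun h => exa r' h2'.le r h3 h.symm)
      · rw [h.2]
        exact nQ _ _ (exa r h2.le r' h3') (exx r h2.le r' h2'.le hne)
  have hunt : ∀ z : V, (∀ r, s ≤ r → r < i → r < n → z ≠ b r ∧ z ≠ a r ∧ z ≠ x r ∧
      ¬ D.Adj z (b r) ∧ ¬ D.Adj z (a r)) →
      Unt D (Finset.Ico s (s + k + 2)) (fun r => {b r}) Q {z} := by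
    intro z hz r hr
    obtain ⟨h1, h2, h3⟩ := hI r hr
    obtain ⟨g1, g2, g3, g4, g5⟩ := hz r h1 h2 h3
    exact ⟨Finset.disjoint_singleton.2 g1, Finset.disjoint_singleton_left.2 (nQ _ _ g2 g3),
      nc1 _ _ g4, ncQ _ z r (Finset.mem_singleton_self z) g5⟩
  have hkey := hL3 k V D (Finset.Ico s (s + k + 2)) (fun r => {b r}) Q {g} {a i} {b i} {x i}
    (s + k) (s + k + 1) hT hN hbm (Finset.singleton_nonempty _) (Finset.singleton_nonempty _)
    (Finset.singleton_nonempty _) (Finset.singleton_nonempty _) ?_ ?_ ?_ ?_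
    (Finset.disjoint_singleton.2 (egb i (by omega))) (Finset.disjoint_singleton.2 (egx i (by omega)))
    (Finset.disjoint_singleton.2 fun h => exa i le_rfl i (by omega) h.symm) (c1 _ _ hgai)
    (c1 _ _ (him.edge (by omega))) (c1 _ _ (xb i (by omega) i (by omega) le_rfl).symm)
    (nc1 _ _ (hgx i (by omega) le_rfl)) (Finset.mem_Ico.2 ⟨by omega, by omega⟩)
    (Finset.mem_Ico.2 ⟨by omega, by omega⟩) (by omega) ?_ ?_ (Finset.Ico s (s + k))
    (Finset.Ico_subset_Ico_right (by omega)) ?_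
  · rw [Nat.card_Ico] at hkey
    omega
  · intro r hr
    obtain ⟨h1, h2, h3⟩ := hI r hr
    exact ⟨Finset.disjoint_singleton.2 (egb r h3),
      Finset.disjoint_singleton_left.2 (nQ _ _ (ega r h3) (egx r h3))⟩
  · exact hunt (a i) fun r h1 h2 h3 => ⟨eab i (by omega) r h3, eaa i (by omega) r h3 (by omega),
      fun h => exa r h2.le i (by omega) h.symm, ab i (by omega) r h3 (by omega),
      aa i (by omega) r h3⟩
  · exact hunt (b i) fun r h1 h2 h3 => ⟨ebb i (by omega) r h3 (by omega),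
      fun h => eab r h3 i (by omega) h.symm, fun h => exb r h2.le i (by omega) h.symm,
      bb i (by omega) r h3, ba i (by omega) r h3 (by omega)⟩
  · exact hunt (x i) fun r h1 h2 h3 => ⟨exb i le_rfl r h3, exa i le_rfl r h3,
      exx i le_rfl r h2.le (by omega), nxb i (by omega) r h3 h2, hL.xa i (by omega) r h3⟩
  · right
    intro p hp q hq
    rw [Finset.mem_singleton] at hp
    rw [hp]
    rcases (hQ _ q).1 hq with h | h
    · rw [h]
      exact hga _ (by omega) (by omega)
    · exact absurd h.1 (lt_irrefl _)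
  · right
    intro p hp q hq
    rw [Finset.mem_singleton] at hp
    rw [hp]
    rcases (hQ _ q).1 hq with h | h
    · rw [h]
      exact hga _ (by omega) (by omega)
    · have := h.1
      omega
  · intro r hr ht
    rw [Finset.mem_Ico] at hr
    rcases ht with h | h
    · exact hgb r (by omega) hr.1 (h g (Finset.mem_singleton_self g) (b r)
        (Finset.mem_singleton_self _))
    · exact hgx r hr.1 (by omega) (h g (Finset.mem_singleton_self g) (x r)
        ((hQ r _).2 (Or.inr ⟨hr.2, rfl⟩)))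

end Pool.Agent.MPd439b2.SA
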