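import Pool.Agent.Lib.MP_d439b2_co.SA.SpecII

/-!
# MP_d439b2_co, SA/INest: the family is nested
-/

set_option autoImplicit false

namespace Pool.Agent.MPd439b2.SA

open Pool.Agent.MPd439b2 Pool.Agent.MPd439b2.W

theorem hINest (hISw : S_ISw) (hIFanX : S_IFanX) (hIFanJ : S_IFanJ) (hFanN : S_FanN) :
    S_INest := by
  intro V D k n e N a b x y u v K htri hno hs
  have h1 := hIFanX V D k n e N a b x y u v K htri hno hs
  have h2 := hIFanX V D k n e N b a y x v u K htri hno (hISw V D k n e N a b x y u v K hs)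
  have hn : n - 1 < n := by
    have := hs.en
    omega
  have hab : D.Adj (a (n - 1)) (b (n - 1)) := (hs.fr.fx.lad.im (n - 1) hn (n - 1) hn).1.mpr rfl
  rintro P (⟨z, hz, rfl⟩ | ⟨z, hz, rfl⟩) Q (⟨z', hz', rfl⟩ | ⟨z', hz', rfl⟩)
  · exact hFanN V D k N u v _ a b _ _ htri hno h1 z hz z' hz'
  · exact hIFanJ V D k N u v _ _ a b _ _ _ _ htri hno hab.symm h1 h2 z hz z' hz'
  · exact hIFanJ V D k N v u _ _ b a _ _ _ _ htri hno hab h2 h1 z hz z' hz'
  · exact hFanN V D k N v u _ b a _ _ htri hno h2 z hz z' hz'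

end Pool.Agent.MPd439b2.SA
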