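import Pool.Agent.Lib.MP_d439b2_co.SA.SpecII

/-!
# MP_d439b2_co, SA, IPos: good sets exist at all positions
-/

set_option autoImplicit false

namespace Pool.Agent.MPd439b2.SA

open Pool.Agent.MPd439b2 Pool.Agent.MPd439b2.W

private theorem mem_J {V : Type} {D : SimpleGraph V} {N : ℕ} {v : ℕ → V} {z : V} {l : ℕ} :
    l ∈ J D N v z ↔ l < N ∧ D.Adj z (v l) := by
  classical
  rw [J, Finset.mem_filter, Finset.mem_range]

theorem hIPos (hINest : S_INest) (hIIdx : S_IIdx) (hFanG : S_FanG) : S_IPos := by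
  intro V D k n e N i a b x y u v K ht hns hs hki hie
  have hke := hs.ke
  have hen := hs.en
  have hxb := hs.fr.fx.lad.xb
  have hXX : ∀ r, k + 8 ≤ r → r ≤ e → x r ∈ XX D k n e b := by
    intro r hkr hre
    constructor
    · intro j hj h
      have h4 := (hxb r (by omega) j (by omega)).mp h
      omega
    · intro j hj hej
      exact (hxb r (by omega) j hj).mpr (by omega)
  have hx1 := hXX i hki (by omega)
  have hx2 := hXX (i + 2) (by omega) hie
  obtain ⟨c, hc1, hc2⟩ := hIIdx V D k n e N a b x y u v K ht hns hs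
  have hnest := hINest V D k n e N a b x y u v K ht hns hs
  have hF1 : J D N v (x i) ∈ Fam D k n e N a b u v := Or.inl ⟨x i, hx1, rfl⟩
  have hF2 : J D N v (x (i + 2)) ∈ Fam D k n e N a b u v := Or.inl ⟨x (i + 2), hx2, rfl⟩
  have hin : ∀ r, i ≤ r → r ≤ i + 1 → c r ∈ J D N v (x i) ∧ c r ∉ J D N v (x (i + 2)) := by
    intro r hr1 hr2
    obtain ⟨h1, h2, h3, h4, h5⟩ := hc1 r (by omega) (by omega)
    constructor
    · exact mem_J.mpr ⟨h1, (h4 (x i) hx1).mpr ((hxb i (by omega) r (by omega)).mpr hr1)⟩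
    · intro h
      have h6 := (h4 (x (i + 2)) hx2).mp (mem_J.mp h).2
      have h7 := (hxb (i + 2) (by omega) r (by omega)).mp h6
      omega
  have hi0 := hin i le_rfl (by omega)
  have hi1 := hin (i + 1) (by omega) le_rfl
  have hne : c i ≠ c (i + 1) := by
    intro h
    have := hc2 i (i + 1) (by omega) (by omega) (by omega) (by omega) h
    omega
  have hsub : J D N v (x (i + 2)) ⊆ J D N v (x i) := by
    rcases hnest _ hF1 _ hF2 with h | h
    · exfalso
      have h1 := Finset.card_le_one.mp h (c i) (Finset.mem_sdiff.mpr hi0) (c (i + 1))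
        (Finset.mem_sdiff.mpr hi1)
      exact hne h1
    · exact h
  have hlt : (J D N v (x (i + 2))).card < (J D N v (x i)).card := by
    apply Finset.card_lt_card
    rw [Finset.ssubset_iff_of_subset hsub]
    exact ⟨c i, hi0.1, hi0.2⟩
  obtain ⟨P, hP1, hP2, hPg⟩ := hFanG _ _ _ hnest hF2 hF1 hlt
  refine ⟨P, hPg, fun l hl => (mem_J.mp (hP2 hl)).1, ?_⟩
  intro j hkj hje l hl hbl
  obtain ⟨h1, h2, h3, h4, h5⟩ := hc1 j hkj hje
  have hlc : l = c j := by
    by_contra hcon
    exact hs.ne l hl (c j) h1 hcon (IsComp.eq (hs.com l hl) (hs.com (c j) h1) hbl h3)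
  subst hlc
  constructor
  · intro hji hmem
    have h6 := (h4 (x i) hx1).mp (mem_J.mp (hP2 hmem)).2
    have h7 := (hxb i (by omega) j (by omega)).mp h6
    omega
  · intro hij
    apply hP1
    exact mem_J.mpr ⟨h1, (h4 (x (i + 2)) hx2).mpr ((hxb (i + 2) (by omega) j (by omega)).mpr hij)⟩

end Pool.Agent.MPd439b2.SA
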