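import Pool.Agent.Lib.MP_d439b2_co.SA.SpecII

/-!
# MP_d439b2_co, SA/IPull: pull-back
-/

set_option autoImplicit false

namespace Pool.Agent.MPd439b2.SA

open Pool.Agent.MPd439b2 Pool.Agent.MPd439b2.W

theorem hIPull (hIFul : S_IFul) : S_IPull := by
  intro V D k n i q a b x z w htri hno hfr hi hq hqn hz hzl hw hzw
  exact hIFul V D k n i q a b x (x i) z w htri hno hfr hi hq hqn
    (fun j hj hij => (hfr.lad.xb i (by omega) j hj).mpr hij) hz hzl hw hzw

end Pool.Agent.MPd439b2.SA
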