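import Pool.Agent.Lib.MP_d439b2_co.SA.SpecII

/-!
# MP_d439b2_co, SA, II24: the cut-rank of the band
-/

set_option autoImplicit false

namespace Pool.Agent.MPd439b2.SA

open Pool.Agent.MPd439b2 Pool.Agent.MPd439b2.W

namespace hIRankAux

variable {V : Type} {D : SimpleGraph V}

theorem bandSw (k n e : ℕ) (a b x y : ℕ → V) (K : ℕ → Set V) (P P' : Finset ℕ)
    (XL WL YL ZL XL' WL' YL' ZL' : Set V) :
    Band D k n e b a y x K P P' YL ZL XL WL YL' ZL' XL' WL' =
      Band D k n e a b x y K P P' XL WL YL ZL XL' WL' YL' ZL' := by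
  unfold Band
  rw [Set.union_comm (BX D k n e a YL YL') (BX D k n e b XL XL'), Set.union_assoc,
    Set.union_comm (BB D k n b a y K P P' ZL ZL'), ← Set.union_assoc]

theorem one [Finite V] (hIColB : S_IColB) {k n e N i i' : ℕ}
    {a b x y u v : ℕ → V} {K : ℕ → Set V} {P P' : Finset ℕ}
    {XL WL YL ZL XL' WL' YL' ZL' : Set V} (hT : TriFree D) (hS : NoSpi k D)
    (hB : Bnd D k n e N i i' a b x y u v K P P' XL WL YL ZL XL' WL' YL' ZL') :
    LK.rk D (BB D k n a b x K P P' WL WL')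
      (Band D k n e a b x y K P P' XL WL YL ZL XL' WL' YL' ZL')ᶜ ≤ 1 :=
  Rep.rk_col D fun t ht => hIColB V D k n e N i i' a b x y u v K P P' XL WL YL ZL XL' WL' YL' ZL'
    hT hS hB t ht

theorem two [Finite V] (hIColX : S_IColX) {k n e N i i' ρ : ℕ}
    {a b x y u v : ℕ → V} {K : ℕ → Set V} {P P' : Finset ℕ}
    {XL WL YL ZL XL' WL' YL' ZL' : Set V} (hT : TriFree D) (hS : NoSpi k D)
    (hB : Bnd D k n e N i i' a b x y u v K P P' XL WL YL ZL XL' WL' YL' ZL')
    (h : LK.rk D (XX D k n e b) (FF D k n a ∪ XX D k n e a) ≤ ρ) :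
    LK.rk D (BX D k n e b XL XL')
      (Band D k n e a b x y K P P' XL WL YL ZL XL' WL' YL' ZL')ᶜ ≤ ρ + 1 := by
  have h1 := Rep.rk_union_right D (BX D k n e b XL XL')
    ((Band D k n e a b x y K P P' XL WL YL ZL XL' WL' YL' ZL')ᶜ ∩ (FF D k n a ∪ XX D k n e a))
    ((Band D k n e a b x y K P P' XL WL YL ZL XL' WL' YL' ZL')ᶜ \ (FF D k n a ∪ XX D k n e a))
  rw [Set.inter_union_sdiff] at h1
  have h2 : LK.rk D (BX D k n e b XL XL')
      ((Band D k n e a b x y K P P' XL WL YL ZL XL' WL' YL' ZL')ᶜ ∩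
        (FF D k n a ∪ XX D k n e a)) ≤ ρ :=
    (Rep.rk_mono D (fun z hz => hz.1) Set.inter_subset_right).trans h
  have h3 : LK.rk D (BX D k n e b XL XL')
      ((Band D k n e a b x y K P P' XL WL YL ZL XL' WL' YL' ZL')ᶜ \
        (FF D k n a ∪ XX D k n e a)) ≤ 1 :=
    Rep.rk_col D fun t ht => hIColX V D k n e N i i' a b x y u v K P P' XL WL YL ZL XL' WL' YL'
      ZL' hT hS hB t ht.1 (fun h4 => ht.2 (Or.inl h4)) (fun h4 => ht.2 (Or.inr h4))
  omega

end hIRankAux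

/-- **II24.** -/
theorem hIRank (hIBSw : S_IBSw) (hIColB : S_IColB) (hIColX : S_IColX) : S_IRank := by
  intro V _ D k n e N i i' ρ a b x y u v K P P' XL WL YL ZL XL' WL' YL' ZL' hT hS hB h1 h2
  have hB' := hIBSw V D k n e N i i' a b x y u v K P P' XL WL YL ZL XL' WL' YL' ZL' hB
  have a1 := hIRankAux.one hIColB hT hS hB
  have a2 := hIRankAux.one hIColB hT hS hB'
  have a3 := hIRankAux.two hIColX hT hS hB h1
  have a4 := hIRankAux.two hIColX hT hS hB' h2
  rw [hIRankAux.bandSw] at a2 a4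
  unfold LK.cr
  set W := (Band D k n e a b x y K P P' XL WL YL ZL XL' WL' YL' ZL')ᶜ with hW
  have b1 := Rep.rk_union D (BX D k n e b XL XL' ∪ BX D k n e a YL YL' ∪
    BB D k n a b x K P P' WL WL') (BB D k n b a y K P P' ZL ZL') W
  have b2 := Rep.rk_union D (BX D k n e b XL XL' ∪ BX D k n e a YL YL')
    (BB D k n a b x K P P' WL WL') W
  have b3 := Rep.rk_union D (BX D k n e b XL XL') (BX D k n e a YL YL') W
  have b4 : LK.rk D (Band D k n e a b x y K P P' XL WL YL ZL XL' WL' YL' ZL') W =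
    LK.rk D (BX D k n e b XL XL' ∪ BX D k n e a YL YL' ∪
    BB D k n a b x K P P' WL WL' ∪ BB D k n b a y K P P' ZL ZL') W := rfl
  omega

end Pool.Agent.MPd439b2.SA
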