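import Pool.Agent.Lib.MP_d439b2_co.SA.SpecII

/-!
# MP_d439b2_co, SA: light vertices of the band (helper18)
-/

set_option autoImplicit false

namespace Pool.Agent.MPd439b2.SA

open Pool.Agent.MPd439b2 Pool.Agent.MPd439b2.W Pool.Agent.MPd439b2.Rep

theorem hISeen (hITch : S_ITch) (hILadPos : S_ILadPos) : S_ISeen := by
  classical
  intro V D k n e N i i' a b x y u v K P P' XL WL YL ZL XL' WL' YL' ZL' hT hS hB w hw
  have hi := hB.hi
  have hi' := hB.hi'
  have hie := hB.hie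
  have hen := hB.sys.en
  have htch := hITch V D k n e N a b x y u v K hT hS hB.sys
  have hpos := hILadPos V D k n e N i a b x y u v K P XL WL hT hS hB.sys hB.p1 hB.cx (by omega)
  have hpos' := hILadPos V D k n e N i' a b x y u v K P' XL' WL' hT hS hB.sys hB.p2 hB.cx'
    (by omega)
  have hlad := hB.sys.fr.fx.lad
  have hXX : ∀ r, k + 8 ≤ r → r ≤ e → x r ∈ XX D k n e b := by
    intro r h1 h2
    refine ⟨fun j hj h3 => ?_, fun j hj hej => ?_⟩
    · have := (hlad.xb r (by omega) j (by omega)).1 h3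
      omega
    · exact (hlad.xb r (by omega) j hj).2 (by omega)
  have hJ : ∀ z l, l < N → (l ∈ J D N v z ↔ D.Adj z (v l)) := by
    intro z l hl
    unfold J
    rw [Finset.mem_filter, Finset.mem_range]
    exact ⟨fun h => h.2, fun h => ⟨hl, h⟩⟩
  rcases hw with ⟨h4, l, hl, hwl⟩ | ⟨hwW, hwL, hwL'⟩
  · have hlP := (Finset.mem_sdiff.1 hl).1
    have hlP' := (Finset.mem_sdiff.1 hl).2
    have hlN : l < N := hB.p1.2.1 l hlP
    refine ⟨(hB.sys.com l hlN).2.1 hwl, fun r h1 h2 => ?_, fun r h1 h2 => ?_⟩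
    · have hx := (hpos r h1 (by omega)).1 h2
      have h3 := (hJ (x r) l hlN).1 (hB.cx.inL _ hx hlP)
      exact ((htch (x r) (hB.cx.sX hx) l hlN).1 h3 w hwl).2 h4
    · have hx := (hpos' r (by omega) h2).2 h1
      have hxx := hXX r (by omega) h2
      have h3 : ¬ D.Adj (x r) (v l) := fun h => hlP' (hB.cx'.inR _ hxx hx ((hJ (x r) l hlN).2 h))
      exact (htch (x r) hxx l hlN).2 h3 w hwl
  · refine ⟨hwW.1, fun r h1 h2 => ?_, fun r h1 h2 => ?_⟩
    · exact hB.cx.cmp _ ((hpos r h1 (by omega)).1 h2) w hwW hwL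
    · exact hB.cx'.nul _ (hXX r (by omega) h2) ((hpos' r (by omega) h2).2 h1) w hwL'

end Pool.Agent.MPd439b2.SA
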