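import Pool.Agent.Lib.MP_d439b2_co.SA.SpecII

/-!
# MP_d439b2_co, SA, II9: traces of mediums on the components (helper12)
-/

set_option autoImplicit false

namespace Pool.Agent.MPd439b2.SA

open Pool.Agent.MPd439b2 Pool.Agent.MPd439b2.W

theorem hISide (hIPull : S_IPull) (hICvr : S_ICvr) (hPar : S_Par) : S_ISide := by
  intro V D k n e a b x K z c hT hN hF hke hen hz hK hc hzc w hw
  have hzn : D.Adj z (b (n - 1)) := hz.2 _ (by omega) (by omega)
  have hxc : D.Adj (x (k + 4)) c :=
    hIPull V D k n (k + 4) (k + 8) a b x z c hT hN hF (by omega) (by omega) (by omega) hz.1 hzn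
      (hK.2.1 hc) hzc
  have hzG : z ∈ XG D k n e b := ⟨fun j hj => hz.1 j (by omega), hz.2⟩
  have hxG : x (k + 4) ∈ XG D k n e b := by
    refine ⟨fun j hj h => ?_, fun j hj hej => (hF.lad.xb _ (by omega) j hj).2 (by omega)⟩
    have := (hF.lad.xb _ (by omega) j (by omega)).1 h
    omega
  exact hPar V D K z (x (k + 4)) c hT hK.1
    (hICvr V D k n e a b x K z c hT hN hF hke hen hzG hK hc hzc)
    (hICvr V D k n e a b x K (x (k + 4)) c hT hN hF hke hen hxG hK hc hxc) hc
    ⟨fun _ => hxc, fun _ => hzc⟩ w hw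

end Pool.Agent.MPd439b2.SA
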