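import Pool.Agent.Lib.MP_d439b2_co.SA.SpecII

/-!
# MP_d439b2_co, SA, II11: symmetry (helper77)
-/

set_option autoImplicit false

namespace Pool.Agent.MPd439b2.SA

open Pool.Agent.MPd439b2 Pool.Agent.MPd439b2.W

namespace hISwAux

variable {V : Type}

theorem LU_swap (D : SimpleGraph V) (n : ℕ) (a b : ℕ → V) : LU D n a b = LU D n b a := by
  ext v
  unfold LU Lt Few
  simp only [Set.mem_setOf_eq, or_comm]

end hISwAux

theorem hISw : S_ISw := by
  intro V D k n e N a b x y u v K h
  refine
    { fr := ⟨h.fr.fy, h.fr.fx⟩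
      ke := h.ke
      en := h.en
      com := ?_
      uK := h.vK
      vK := h.uK
      uv := fun l hl => (h.uv l hl).symm
      ne := h.ne
      nx := h.ny
      ny := h.nx
      lo := fun l hl r hr hr' => (h.lo l hl r hr hr').symm
      al := ?_ }
  · intro l hl
    rw [← hISwAux.LU_swap D n a b]
    exact h.com l hl
  · intro K' hK' he hw hlo
    rw [← hISwAux.LU_swap D n a b] at hK'
    obtain ⟨w, hw, hxy⟩ := hw
    exact h.al K' hK' he ⟨w, hw, hxy.symm⟩ fun r hr hr' => (hlo r hr hr').symm

end Pool.Agent.MPd439b2.SA
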