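import Pool.Agent.Lib.MP_d439b2_co.SA.SpecII

/-!
# MP_d439b2_co, SA, ITch: traces on the components
-/

set_option autoImplicit false

namespace Pool.Agent.MPd439b2.SA

open Pool.Agent.MPd439b2 Pool.Agent.MPd439b2.W

theorem hITch (hIPull : S_IPull) (hICvr : S_ICvr) (hISide : S_ISide) : S_ITch := by
  intro V D k n e N a b x y u v K ht hns hs z hz l hl
  have hke := hs.ke
  have hen := hs.en
  constructor
  · intro hadj
    exact hISide V D k n e a b x (K l) z (v l) ht hns hs.fr.fx hke hen hz (hs.com l hl)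
      (hs.vK l hl) hadj
  · intro hnadj w hw hzw
    have h1 := hISide V D k n e a b x (K l) z w ht hns hs.fr.fx hke hen hz (hs.com l hl) hw hzw
    have h2 : D.Adj (x (k + 4)) w := (h1 w hw).mp hzw
    have h3 : x (k + 4) ∈ XG D k n e b := by
      constructor
      · intro j hj h
        have h4 := (hs.fr.fx.lad.xb (k + 4) (by omega) j (by omega)).mp h
        omega
      · intro j hj hej
        exact (hs.fr.fx.lad.xb (k + 4) (by omega) j hj).mpr (by omega)
    have h5 := hICvr V D k n e a b x (K l) (x (k + 4)) w ht hns hs.fr.fx hke hen h3 (hs.com l hl)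
      hw h2 (u l) (v l)
    have h6 : D.Adj (x (k + 4)) (v l) := by
      by_contra h7
      exact h5 ⟨hs.uK l hl, hs.vK l hl, hs.uv l hl, hs.nx l hl, h7⟩
    exact hnadj ((h1 (v l) (hs.vK l hl)).mpr h6)

end Pool.Agent.MPd439b2.SA
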