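import Pool.Agent.Lib.MP_d439b2_co.SA.SpecII

/-!
# MP_d439b2_co, SA, II4: distance two (helper91)
-/

set_option autoImplicit false

namespace Pool.Agent.MPd439b2.SA

open Pool.Agent.MPd439b2 Pool.Agent.MPd439b2.W

namespace hITwoAux

theorem enum (S : Finset ℕ) (k : ℕ) (h : k ≤ S.card) :
    ∃ σ : ℕ → ℕ, (∀ i < k, σ i ∈ S) ∧ ∀ i < k, ∀ j < k, σ i = σ j → i = j := by
  refine ⟨fun i => if h' : i < S.card then S.orderEmbOfFin rfl ⟨i, h'⟩ else 0, fun i hi => ?_,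
    fun i hi j hj hij => ?_⟩
  · dsimp only
    rw [dif_pos (by omega)]
    exact Finset.orderEmbOfFin_mem _ _ _
  · dsimp only at hij
    rw [dif_pos (by omega), dif_pos (by omega)] at hij
    have h1 := (S.orderEmbOfFin rfl).injective hij
    exact congrArg Fin.val h1

/-- the edge touched by a light vertex -/
theorem lt_one {V : Type} {D : SimpleGraph V} {n : ℕ} {a b : ℕ → V} {v : V}
    (h : v ∈ LU D n a b) : ∃ t, ∀ i < n, i ≠ t → ¬ D.Adj v (a i) ∧ ¬ D.Adj v (b i) := by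
  by_cases h1 : ∃ t < n, D.Adj v (a t) ∨ D.Adj v (b t)
  · obtain ⟨t, ht, h1⟩ := h1
    refine ⟨t, fun i hi hit => ⟨fun h2 => hit ?_, fun h2 => hit ?_⟩⟩
    · exact h i hi t ht (Or.inl h2) h1
    · exact h i hi t ht (Or.inr h2) h1
  · exact ⟨0, fun i hi _ => ⟨fun h2 => h1 ⟨i, hi, Or.inl h2⟩, fun h2 => h1 ⟨i, hi, Or.inr h2⟩⟩⟩

end hITwoAux

open hITwoAux in
/-- **II4.** The light neighbourhood of `z ∈ XG` is closed under distance two. -/
theorem hITwo (hPt : S_Pt) : S_ITwo := by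
  intro V D k n e a b x z w u w' ht hN hF hke hen hz hw hu hw' hzw hwu huw'
  by_contra hzw'
  obtain ⟨t₁, h₁⟩ := lt_one hw
  obtain ⟨t₂, h₂⟩ := lt_one hu
  obtain ⟨t₃, h₃⟩ := lt_one hw'
  have im := hF.lad.im
  have cT : ({t₁, t₂, t₃} : Finset ℕ).card ≤ 3 := Finset.card_le_three
  have c1 : 1 < (Finset.Ico e (e + 5) \ {t₁, t₂, t₃}).card := by
    have h4 := Finset.le_card_sdiff ({t₁, t₂, t₃} : Finset ℕ) (Finset.Ico e (e + 5))
    rw [Nat.card_Ico] at h4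
    omega
  have c2 : k ≤ (Finset.range (k + 3) \ {t₁, t₂, t₃}).card := by
    have h4 := Finset.le_card_sdiff ({t₁, t₂, t₃} : Finset ℕ) (Finset.range (k + 3))
    rw [Finset.card_range] at h4
    omega
  obtain ⟨p, hp, p', hp', hpp⟩ := Finset.one_lt_card.1 c1
  obtain ⟨σ, hσ, hinj⟩ := enum _ k c2
  simp only [Finset.mem_sdiff, Finset.mem_Ico, Finset.mem_range, Finset.mem_insert,
    Finset.mem_singleton, not_or] at hp hp' hσ
  obtain ⟨⟨hep, hpe⟩, hp1, hp2, hp3⟩ := hp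
  obtain ⟨⟨hep', hpe'⟩, hp1', hp2', hp3'⟩ := hp'
  have hpn : p < n := by omega
  have hpn' : p' < n := by omega
  have hr : ∀ t < k, σ t < k + 3 := fun t ht => (hσ t ht).1
  have hrn : ∀ t < k, σ t < n := fun t ht => by
    have := hr t ht
    omega
  have za : ∀ j < n, ¬ D.Adj z (a j) := fun j hj =>
    hF.ex z e (by omega) j hj (hz.2 e (by omega) le_rfl)
  have bb : ∀ i < n, ∀ j < n, ¬ D.Adj (b i) (b j) := fun i hi j hj => (im i hi j hj).2.2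
  have aa : ∀ i < n, ∀ j < n, ¬ D.Adj (a i) (a j) := fun i hi j hj => (im i hi j hj).2.1
  have ab : ∀ i < n, ∀ j < n, i ≠ j → ¬ D.Adj (a i) (b j) := fun i hi j hj hij h4 =>
    hij ((im i hi j hj).1.1 h4)
  have ba : ∀ i < n, ∀ j < n, i ≠ j → ¬ D.Adj (b i) (a j) := fun i hi j hj hij h4 =>
    ab j hj i hi hij.symm h4.symm
  refine hPt V D k z (b p) (a p) (b p') (a p') w u w' (fun t => a (σ t)) (fun t => b (σ t)) ht hN
    (hz.2 p hpn hep) (im.edge hpn).symm (hz.2 p' hpn' hep') (im.edge hpn').symm hzw hwu huw' hzw'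
    (ba p hpn p' hpn' hpp) (fun h4 => (h₂ p hpn hp2).2 h4.symm)
    (fun h4 => (h₃ p hpn hp3).2 h4.symm) (ba p' hpn' p hpn hpp.symm)
    (fun h4 => (h₂ p' hpn' hp2').2 h4.symm) (fun h4 => (h₃ p' hpn' hp3').2 h4.symm)
    (h₁ p hpn hp1).1 (h₁ p' hpn' hp1').1 (aa p hpn p' hpn')
    (fun h4 => (h₂ p hpn hp2).1 h4.symm) (fun h4 => (h₃ p hpn hp3).1 h4.symm)
    (fun h4 => (h₂ p' hpn' hp2').1 h4.symm) (fun h4 => (h₃ p' hpn' hp3').1 h4.symm)
    (im.comp σ hrn hinj) ?_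
  intro t ht' v hv
  have hrt := hr t ht'
  have hrt' := hrn t ht'
  obtain ⟨_, hs1, hs2, hs3⟩ := hσ t ht'
  rcases hv with rfl | rfl | rfl | rfl | rfl | rfl | rfl | hv
  · exact ⟨za _ hrt', hz.1 _ hrt⟩
  · exact ⟨ba p hpn _ hrt' (by omega), bb p hpn _ hrt'⟩
  · exact ⟨aa p hpn _ hrt', ab p hpn _ hrt' (by omega)⟩
  · exact ⟨ba p' hpn' _ hrt' (by omega), bb p' hpn' _ hrt'⟩
  · exact ⟨aa p' hpn' _ hrt', ab p' hpn' _ hrt' (by omega)⟩
  · exact h₁ _ hrt' hs1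
  · exact h₂ _ hrt' hs2
  · rw [Set.mem_singleton_iff] at hv
    subst hv
    exact h₃ _ hrt' hs3

end Pool.Agent.MPd439b2.SA
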