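import Pool.Agent.Lib.MP_d439b2_co.SA.AllC
import Pool.Agent.Lib.MP_d439b2_co.SA.IBSw
import Pool.Agent.Lib.MP_d439b2_co.SA.IColB
import Pool.Agent.Lib.MP_d439b2_co.SA.IColX
import Pool.Agent.Lib.MP_d439b2_co.SA.ICov
import Pool.Agent.Lib.MP_d439b2_co.SA.ICut
import Pool.Agent.Lib.MP_d439b2_co.SA.ICvr
import Pool.Agent.Lib.MP_d439b2_co.SA.IDis
import Pool.Agent.Lib.MP_d439b2_co.SA.IEnum
import Pool.Agent.Lib.MP_d439b2_co.SA.IFanJ
import Pool.Agent.Lib.MP_d439b2_co.SA.IFanX
import Pool.Agent.Lib.MP_d439b2_co.SA.IFarY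
import Pool.Agent.Lib.MP_d439b2_co.SA.IFul
import Pool.Agent.Lib.MP_d439b2_co.SA.II
import Pool.Agent.Lib.MP_d439b2_co.SA.IIdx
import Pool.Agent.Lib.MP_d439b2_co.SA.ILadPos
import Pool.Agent.Lib.MP_d439b2_co.SA.INB3
import Pool.Agent.Lib.MP_d439b2_co.SA.INest
import Pool.Agent.Lib.MP_d439b2_co.SA.IPos
import Pool.Agent.Lib.MP_d439b2_co.SA.IPull
import Pool.Agent.Lib.MP_d439b2_co.SA.IRank
import Pool.Agent.Lib.MP_d439b2_co.SA.ISeen
import Pool.Agent.Lib.MP_d439b2_co.SA.ISide
import Pool.Agent.Lib.MP_d439b2_co.SA.ISize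
import Pool.Agent.Lib.MP_d439b2_co.SA.ISw
import Pool.Agent.Lib.MP_d439b2_co.SA.ITch
import Pool.Agent.Lib.MP_d439b2_co.SA.ITwo

/-!
# MP_d439b2_co, SA: `S_II` and `S_NO` without hypotheses (helper13, helper24)
-/

set_option autoImplicit false

namespace Pool.Agent.MPd439b2.SA

open Pool.Agent.MPd439b2 Pool.Agent.MPd439b2.W

theorem okIPull : S_IPull := hIPull (hIFul okL3)

theorem okICvr : S_ICvr := hICvr hMix (hITwo hPt)

theorem okISide : S_ISide := hISide okIPull okICvr hPar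

theorem okIIdx : S_IIdx := hIIdx okICvr okISide hISw

theorem okITch : S_ITch := hITch okIPull okICvr okISide

theorem okIDis : S_IDis := hIDis hPt okIPull

theorem okIFanX : S_IFanX := hIFanX okIPull

theorem okINest : S_INest := hINest hISw okIFanX (hIFanJ hPt) okFanN

theorem okIPos : S_IPos := hIPos okINest okIIdx okFanG

theorem okILadPos : S_ILadPos := hILadPos okIIdx

theorem okISeen : S_ISeen := hISeen okITch okILadPos

theorem okIBSw : S_IBSw := hIBSw hISw

theorem okIColX : S_IColX := hIColX hICov okIPull (hIFarY hPt) okICvr okISide okIIdx okITch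

theorem okIColB : S_IColB :=
  hIColB hICov (hIFul okL3) okIPull okIDis (hINB3 okL3) okICvr okITch okILadPos okISeen okIBSw

/-- **Case (I,I)** -/
theorem okII : S_II :=
  hII (hIEnum okIDis) hISw okIPos (hICut okIFanX okFanC) okIBSw (hIRank okIBSw okIColB okIColX)
    (hISize okIIdx) okRk0

/-- **Step A'**: large induced matchings contain opposite ladders, if there are no cuts of bounded rank with two
large sides -/
theorem okNO : S_NO := noOfII okII

end Pool.Agent.MPd439b2.SA
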