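import Pool.Agent.Lib.MP_d439b2_co.SA.SpecC

/-!
# MP_d439b2_co, SA, C16: frames of type (I,T) give a cut of rank at most three
-/

set_option autoImplicit false

namespace Pool.Agent.MPd439b2.SA.B1x

open Pool.Agent.MPd439b2 Pool.Agent.MPd439b2.W

variable {V : Type} {D : SimpleGraph V} {n : ℕ} {a b x : ℕ → V}

theorem a_mem (h : IM D n a b) {j : ℕ} (hj : j < n) : a j ∈ LtS D n a b := by
  have key : ∀ i, i < n → (D.Adj (a j) (a i) ∨ D.Adj (a j) (b i)) → j = i := by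
    intro i hi h1
    rcases h1 with h1 | h1
    · exact absurd h1 (h j hj i hi).2.1
    · exact (h j hj i hi).1.1 h1
  intro i hi i' hi' h1 h2
  rw [← key i hi h1, ← key i' hi' h2]

theorem b_mem (h : IM D n a b) {j : ℕ} (hj : j < n) : b j ∈ LtS D n a b := by
  have key : ∀ i, i < n → (D.Adj (b j) (a i) ∨ D.Adj (b j) (b i)) → i = j := by
    intro i hi h1
    rcases h1 with h1 | h1
    · exact (h i hi j hj).1.1 h1.symm
    · exact absurd h1 (h j hj i hi).2.2
  intro i hi i' hi' h1 h2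
  rw [key i hi h1, key i' hi' h2]

theorem ps (h : Lad D n a b x) {i : ℕ} (hi : i < n) : Ps D n b (x i) i :=
  Or.inl fun j hj => h.xb i hi j hj

/-- more than `B` vertices `b i` in a set -/
theorem many [Finite V] (h : IM D n a b) (Y : Set V) (B lo hi : ℕ) (hhi : hi ≤ n)
    (hlh : lo + B < hi) (hY : ∀ i, lo ≤ i → i < hi → b i ∈ Y) : B < Y.ncard := by
  classical
  have h1 : (Finset.Ico lo hi).card = ((Finset.Ico lo hi).image b).card := by
    rw [Finset.card_image_of_injOn]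
    intro i hi' j hj hij
    rw [Finset.mem_coe, Finset.mem_Ico] at hi' hj
    exact h.inj_b (by omega) (by omega) hij
  have h2 : ((Finset.Ico lo hi).image b).card ≤ Y.ncard := by
    rw [← Set.ncard_coe_finset]
    apply Set.ncard_le_ncard _ (Set.toFinite Y)
    intro v hv
    rw [Finset.mem_coe, Finset.mem_image] at hv
    obtain ⟨i, hi', rfl⟩ := hv
    rw [Finset.mem_Ico] at hi'
    exact hY i hi'.1 hi'.2
  rw [← h1, Nat.card_Ico] at h2
  omega

/-- one of `M + 1` intervals avoids a set with `M` elements -/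
theorem gap (Bd : Finset ℕ) (M s l : ℕ) (_ : 0 < l) (hM : Bd.card ≤ M) :
    ∃ r ≤ M, ∀ i, s + r * l ≤ i → i < s + (r + 1) * l → i ∉ Bd := by
  classical
  by_contra hcon
  push Not at hcon
  choose! f hf1 hf2 hf3 using hcon
  have h1 : ((Finset.range (M + 1)).image f).card = M + 1 := by
    rw [Finset.card_image_of_injOn, Finset.card_range]
    intro r hr r' hr' hrr
    rw [Finset.coe_range, Set.mem_Iio] at hr hr'
    have e1 := hf1 r (by omega)
    have e2 := hf2 r (by omega)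
    have e3 := hf1 r' (by omega)
    have e4 := hf2 r' (by omega)
    rw [hrr] at e1 e2
    by_contra hne
    rcases Nat.lt_or_gt_of_ne hne with h | h
    · have : (r + 1) * l ≤ r' * l := Nat.mul_le_mul_right l h
      omega
    · have : (r' + 1) * l ≤ r * l := Nat.mul_le_mul_right l h
      omega
  have h2 : (Finset.range (M + 1)).image f ⊆ Bd := by
    intro i hi
    rw [Finset.mem_image] at hi
    obtain ⟨r, hr, rfl⟩ := hi
    rw [Finset.mem_range] at hr
    exact hf3 r (by omega)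
  have h3 := Finset.card_le_card h2
  omega

end B1x

open Pool.Agent.MPd439b2 Pool.Agent.MPd439b2.W

theorem pB1 (hClo : S_Clo) (hSide : S_Side) (hCK : S_CK) (hBdK : S_BdK) (hBdX : S_BdX)
    (hBnd : S_Bnd) (hCoMs : S_CoMs) : S_B1 := by
  classical
  intro k B
  obtain ⟨m₀, hm₀⟩ := hCoMs k
  obtain ⟨M, hM⟩ : ∃ M, M = (2 * k + 1) * m₀ + (4 * k + 9) * m₀ := ⟨_, rfl⟩
  obtain ⟨lo', hlo'⟩ : ∃ lo', lo' = 4 * k + 30 + B := ⟨_, rfl⟩
  obtain ⟨ℓ, hℓ⟩ : ∃ ℓ, ℓ = B + 20 := ⟨_, rfl⟩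
  obtain ⟨hi, hhi⟩ : ∃ hi, hi = lo' + (M + 1) * ℓ + 20 := ⟨_, rfl⟩
  refine ⟨hi + 20, ?_⟩
  intro V _ D a b x ht hno hT
  have hF := hT.fr
  have him := hF.lad.im
  have hCo := hm₀ V D ht hno
  set n := hi + 20 with hn
  set lo := k + 8 with hlo
  set U := LtS D n a b with hU
  set X := XM D n b lo hi with hX
  obtain ⟨N, KA, KB, hC, hbN⟩ := hCK V D U X (b (n - 1)) (a (n - 1)) ht
    (by
      rintro y ⟨q, hq1, hq2, hq⟩ w hw u hu w' hw' h1 h2 h3
      exact hClo k n V D a b x ht hno hF y q hq (by omega) (by omega) w hw u hu w' hw' h1 h2 h3)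
    (by
      rintro y ⟨q, hq1, hq2, hq⟩ y' ⟨q', hq1', hq2', hq'⟩ w hw u hu h1 h2
      exact hSide k n V D a b x ht hno hF y y' q q' hq hq' (by omega) (by omega) (by omega)
        (by omega) w hw u hu h1 h2)
    (B1x.b_mem him (by omega)) (B1x.a_mem him (by omega)) (him.edge (by omega)).symm
    ⟨x lo, ⟨lo, le_rfl, by omega, B1x.ps hF.lad (by omega)⟩,
      (hF.lad.xb lo (by omega) (n - 1) (by omega)).2 (by omega)⟩
  obtain ⟨Bd1, hB1, hB1'⟩ := hBdK k m₀ n lo hi lo' N V D a b x KA KB ht hno hCo hF (by omega) hC hbN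
    (by omega) (by omega)
  obtain ⟨Bd2, hB2, hB2'⟩ := hBdX k m₀ n lo' hi V D a b x ht hno hCo hF (by omega) (by omega)
  obtain ⟨r, hr, hgap⟩ := B1x.gap (Bd1 ∪ Bd2) M lo' ℓ (by omega)
    ((Finset.card_union_le _ _).trans (by omega))
  have hrl : r * ℓ ≤ M * ℓ := Nat.mul_le_mul_right ℓ hr
  have hrl2 : (r + 1) * ℓ = r * ℓ + ℓ := by ring
  have hrl3 : (M + 1) * ℓ = M * ℓ + ℓ := by ring
  rw [hrl2] at hgap
  rw [hrl3] at hhi
  obtain ⟨c, hc⟩ : ∃ c, c = lo' + r * ℓ := ⟨_, rfl⟩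
  have hgap1 : ∀ i, c ≤ i → i < c + ℓ → i ∉ Bd1 ∧ i ∉ Bd2 := by
    intro i h1 h2
    have h3 := hgap i (by omega) (by omega)
    rw [Finset.mem_union] at h3
    push Not at h3
    exact h3
  obtain ⟨Y, hY1, hY2, hY3⟩ := hBnd k n lo hi N (c + 2) (c + B + 8) V D a b x KA KB ht hno hT
    (by omega) hC hbN (by omega) (by omega) (by omega) (by omega)
    (fun i h1 h2 y hy g hg => hB2' i (by omega) (by omega) (hgap1 i (by omega) (by omega)).2 y hy g hg)
    (fun i h1 h2 t ht' h3 h4 g hg u hu => hB1' i (by omega) (by omega)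
      (hgap1 i (by omega) (by omega)).1 t ht' h3 h4 g hg u hu)
  refine ⟨Y, hY1, ?_, ?_⟩
  · exact B1x.many him Y B (c + 2 + 2) (c + B + 8) (by omega) (by omega) hY2
  · exact B1x.many him Yᶜ B (lo + 1) (c + 2) (by omega) (by omega) fun i h1 h2 =>
      hY3 i (by omega) h2

end Pool.Agent.MPd439b2.SA
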