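import Pool.Agent.Lib.MP_d439b2_co.SA.SpecTT

/-!
# MP_d439b2_co, SA, TT4: boundedly many components are not covered by some vertex of `F`
-/

set_option autoImplicit false

namespace Pool.Agent.MPd439b2.SA

open Pool.Agent.MPd439b2 Pool.Agent.MPd439b2.W

theorem hBadB (hPar : S_Par) (hBadF : S_BadF) : S_BadB := by
  classical
  intro V D k m N K a b F I ht hk hm hK hN hF hI
  by_contra hcon
  have hcon' : (2 * k + 1) * m ≤ I.card := by omega
  -- choice of the uncovered edges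
  have h1 : ∀ l, ∃ f p q : V, l ∈ I → f ∈ F ∧ Unc D (K l) f p q := by
    intro l
    by_cases hl : l ∈ I
    · obtain ⟨_, f, hf, p, q, h⟩ := hI l hl
      exact ⟨f, p, q, fun _ => ⟨hf, h⟩⟩
    · have hv : Nonempty V := by
        by_contra hne
        have : I.card = 0 := by
          rw [Finset.card_eq_zero, Finset.eq_empty_iff_forall_notMem]
          intro i hi
          obtain ⟨_, f, _⟩ := hI i hi
          exact hne ⟨f⟩
        omega
      exact ⟨hv.some, hv.some, hv.some, fun h => absurd h hl⟩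
  choose f p q hfpq using h1
  obtain ⟨J, hJI, hJc, hJ⟩ := W.dig k m I (fun l l' => ∃ p q, Unc D (K l') (f l) p q) (by
    intro i hi J hJ hJR
    refine hBadF V D k N K a b (f i) J ht hk hK hN (hF _ (hfpq i hi).1) fun l hl => ?_
    exact ⟨(hI l (hJ hl)).1, (hJR l hl).2⟩) hcon'
  -- the vertices `c l`
  let c : ℕ → V := fun l' => if ∃ l ∈ J, l ≠ l' ∧ D.Adj (f l) (p l') then p l' else q l'
  have hc1 : ∀ l ∈ J, ¬ D.Adj (f l) (c l) := by
    intro l hl
    have h2 := (hfpq l (hJI hl)).2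
    show ¬ D.Adj (f l) (if _ then p l else q l)
    split_ifs
    · exact h2.2.2.2.1
    · exact h2.2.2.2.2
  have hc2 : ∀ l ∈ J, ∀ l' ∈ J, l ≠ l' → D.Adj (f l) (c l') := by
    intro l hl l' hl' hne
    have h2 := (hfpq l' (hJI hl')).2
    show D.Adj (f l) (if _ then p l' else q l')
    split_ifs with h3
    · obtain ⟨l₀, hl₀, hne₀, h4⟩ := h3
      have h5 := hPar V D (K l') (f l₀) (f l) (b l') ht (hK.con l' (hI l' (hJI hl')).1)
        (fun x y hxy => hJ l₀ hl₀ l' hl' hne₀ ⟨x, y, hxy⟩)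
        (fun x y hxy => hJ l hl l' hl' hne ⟨x, y, hxy⟩)
        (hK.bmb l' (hI l' (hJI hl')).1)
        (iff_of_true (hF _ (hfpq l₀ (hJI hl₀)).1 l' (hI l' (hJI hl')).1)
          (hF _ (hfpq l (hJI hl)).1 l' (hI l' (hJI hl')).1)) (p l') h2.1
      exact h5.mp h4
    · push Not at h3
      by_contra h4
      exact hJ l hl l' hl' hne ⟨p l', q l', h2.1, h2.2.1, h2.2.2.1, h3 l hl hne, h4⟩
  -- enumeration
  apply hm
  let e := J.equivFinOfCardEq hJc
  let σ : ℕ → ℕ := fun i => if h : i < m then (e.symm ⟨i, h⟩ : ℕ) else 0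
  have hσ : ∀ i (h : i < m), σ i = (e.symm ⟨i, h⟩ : ℕ) := fun i h => dif_pos h
  have hσJ : ∀ i < m, σ i ∈ J := by
    intro i h
    rw [hσ i h]
    exact (e.symm ⟨i, h⟩).2
  have hσi : ∀ i < m, ∀ j < m, σ i = σ j → i = j := by
    intro i hi j hj h
    rw [hσ i hi, hσ j hj] at h
    have h2 := e.symm.injective (Subtype.ext h)
    exact Fin.mk.inj_iff.mp h2
  refine ⟨fun i => f (σ i), fun i => c (σ i), fun i hi j hj => ⟨?_, ?_⟩⟩
  · rintro h rfl
    exact hc1 _ (hσJ i hi) h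
  · intro hne
    exact hc2 _ (hσJ i hi) _ (hσJ j hj) fun h => hne (hσi i hi j hj h)

end Pool.Agent.MPd439b2.SA
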