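import Pool.Agent.Lib.MP_d439b2_co.SA.SpecTT

/-!
# MP_d439b2_co, SA: TT3, one vertex leaves at most `k` components uncovered
-/

set_option autoImplicit false

namespace Pool.Agent.MPd439b2.SA

open Pool.Agent.MPd439b2 Pool.Agent.MPd439b2.W

namespace hBadFAux

/-- enumeration of a finite set of numbers -/
theorem enum (J : Finset ℕ) : ∃ σ : ℕ → ℕ, (∀ t < J.card, σ t ∈ J) ∧
    ∀ t < J.card, ∀ u < J.card, σ t = σ u → t = u := by
  refine ⟨fun t => if h : t < J.card then J.orderEmbOfFin rfl ⟨t, h⟩ else 0, ?_, ?_⟩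
  · intro t ht
    dsimp only
    rw [dif_pos ht]
    exact Finset.orderEmbOfFin_mem J rfl _
  · intro t ht u hu h
    dsimp only at h
    rw [dif_pos ht, dif_pos hu] at h
    have h1 := (J.orderEmbOfFin rfl).injective h
    exact congrArg Fin.val h1

end hBadFAux

open hBadFAux

theorem hBadF (hPt : S_Pt) (hMix : S_Mix) : S_BadF := by
  classical
  intro V D k N K a b f I hT hN hK hkN hf hI
  by_contra hcon
  obtain ⟨J, hJI, hJ⟩ := Finset.exists_subset_card_eq (show k + 1 ≤ I.card by omega)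
  have hJne : J.Nonempty := Finset.card_pos.mp (by omega)
  obtain ⟨l₀, hl₀⟩ := hJne
  have hJ' : (J.erase l₀).card = k := by
    rw [Finset.card_erase_of_mem hl₀, hJ, Nat.add_sub_cancel]
  obtain ⟨σ, hσ, hσi⟩ := enum (J.erase l₀)
  rw [hJ'] at hσ hσi
  have hJN : J ⊆ Finset.range N := fun l hl => Finset.mem_range.mpr (hI l (hJI hl)).1
  have hc : 1 < (Finset.range N \ J).card := by
    have h1 := Finset.card_sdiff_add_card_eq_card hJN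
    rw [Finset.card_range, hJ] at h1
    omega
  obtain ⟨r, hr, r', hr', hrr⟩ := Finset.one_lt_card.mp hc
  rw [Finset.mem_sdiff, Finset.mem_range] at hr hr'
  obtain ⟨hl₀N, p₀, q₀, hu₀⟩ := hI l₀ (hJI hl₀)
  obtain ⟨w, hw, u, hu, w', hw', e1, e2, e3, e4, e5⟩ := hMix V D (K l₀) f (b l₀) p₀ q₀ hT
    (hK.con l₀ hl₀N) (hK.bmb l₀ hl₀N) (hf l₀ hl₀N) hu₀
  have hex : ∀ l ∈ I, ∃ p q, Unc D (K l) f p q := fun l hl => (hI l hl).2
  have hne : Nonempty V := ⟨f⟩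
  choose! P Q hPQ using hex
  have hr0 : r ≠ l₀ := fun h => hr.2 (h ▸ hl₀)
  have hr0' : r' ≠ l₀ := fun h => hr'.2 (h ▸ hl₀)
  have hσI : ∀ t < k, σ t ∈ I := fun t ht => hJI (Finset.mem_of_mem_erase (hσ t ht))
  have hσN : ∀ t < k, σ t < N := fun t ht => (hI _ (hσI t ht)).1
  have hσ0 : ∀ t < k, σ t ≠ l₀ := fun t ht => Finset.ne_of_mem_erase (hσ t ht)
  have hσr : ∀ t < k, σ t ≠ r := fun t ht h =>
    hr.2 (h ▸ Finset.mem_of_mem_erase (hσ t ht))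
  have hσr' : ∀ t < k, σ t ≠ r' := fun t ht h =>
    hr'.2 (h ▸ Finset.mem_of_mem_erase (hσ t ht))
  have ant : ∀ l < N, ∀ l' < N, l ≠ l' → ∀ x ∈ K l, ∀ y ∈ K l', ¬ D.Adj x y := hK.ant
  have ar := hK.ama r hr.1
  have br := hK.bmb r hr.1
  have ar' := hK.ama r' hr'.1
  have br' := hK.bmb r' hr'.1
  have IMk : IM D k (fun t => P (σ t)) (fun t => Q (σ t)) := by
    intro i hi j hj
    have hPi := hPQ _ (hσI i hi)
    have hPj := hPQ _ (hσI j hj)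
    by_cases hij : i = j
    · subst hij
      exact ⟨iff_of_true hPi.2.2.1 rfl, fun h => h.ne rfl, fun h => h.ne rfl⟩
    · have hne' : σ i ≠ σ j := fun h => hij (hσi i hi j hj h)
      exact ⟨iff_of_false (ant _ (hσN i hi) _ (hσN j hj) hne' _ hPi.1 _ hPj.2.1) hij,
        ant _ (hσN i hi) _ (hσN j hj) hne' _ hPi.1 _ hPj.1,
        ant _ (hσN i hi) _ (hσN j hj) hne' _ hPi.2.1 _ hPj.2.1⟩
  refine hPt V D k f (b r) (a r) (b r') (a r') w u w' (fun t => P (σ t)) (fun t => Q (σ t)) hT hN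
    (hf r hr.1) (hK.edg r hr.1).symm (hf r' hr'.1) (hK.edg r' hr'.1).symm e3 e1 e2 e5
    (ant r hr.1 r' hr'.1 hrr _ br _ ar') (ant r hr.1 l₀ hl₀N hr0 _ br _ hu)
    (ant r hr.1 l₀ hl₀N hr0 _ br _ hw') (ant r' hr'.1 r hr.1 hrr.symm _ br' _ ar)
    (ant r' hr'.1 l₀ hl₀N hr0' _ br' _ hu) (ant r' hr'.1 l₀ hl₀N hr0' _ br' _ hw')
    (ant l₀ hl₀N r hr.1 hr0.symm _ hw _ ar) (ant l₀ hl₀N r' hr'.1 hr0'.symm _ hw _ ar')
    (ant r hr.1 r' hr'.1 hrr _ ar _ ar') (ant r hr.1 l₀ hl₀N hr0 _ ar _ hu)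
    (ant r hr.1 l₀ hl₀N hr0 _ ar _ hw') (ant r' hr'.1 l₀ hl₀N hr0' _ ar' _ hu)
    (ant r' hr'.1 l₀ hl₀N hr0' _ ar' _ hw') IMk ?_
  intro t ht v hv
  have hPt' := hPQ _ (hσI t ht)
  have kr : ∀ x ∈ K r, ¬ D.Adj x (P (σ t)) ∧ ¬ D.Adj x (Q (σ t)) := fun x hx =>
    ⟨ant r hr.1 _ (hσN t ht) (hσr t ht).symm _ hx _ hPt'.1,
      ant r hr.1 _ (hσN t ht) (hσr t ht).symm _ hx _ hPt'.2.1⟩
  have kr' : ∀ x ∈ K r', ¬ D.Adj x (P (σ t)) ∧ ¬ D.Adj x (Q (σ t)) := fun x hx =>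
    ⟨ant r' hr'.1 _ (hσN t ht) (hσr' t ht).symm _ hx _ hPt'.1,
      ant r' hr'.1 _ (hσN t ht) (hσr' t ht).symm _ hx _ hPt'.2.1⟩
  have k0 : ∀ x ∈ K l₀, ¬ D.Adj x (P (σ t)) ∧ ¬ D.Adj x (Q (σ t)) := fun x hx =>
    ⟨ant l₀ hl₀N _ (hσN t ht) (hσ0 t ht).symm _ hx _ hPt'.1,
      ant l₀ hl₀N _ (hσN t ht) (hσ0 t ht).symm _ hx _ hPt'.2.1⟩
  simp only [Set.mem_insert_iff, Set.mem_singleton_iff] at hv
  rcases hv with rfl | rfl | rfl | rfl | rfl | rfl | rfl | rfl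
  · exact ⟨hPt'.2.2.2.1, hPt'.2.2.2.2⟩
  · exact kr _ br
  · exact kr _ ar
  · exact kr' _ br'
  · exact kr' _ ar'
  · exact k0 _ hw
  · exact k0 _ hu
  · exact k0 _ hw'

end Pool.Agent.MPd439b2.SA
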