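import Pool.Agent.Lib.MP_d439b2_co.SA.SpecC
import Pool.Agent.Lib.MP_d439b2_co.W.Dig
import Pool.Agent.Lib.MP_d439b2_co.W.Ind

/-!
# MP_d439b2_co, SA, C12: boundedly many bad places for components
-/

set_option autoImplicit false

namespace Pool.Agent.MPd439b2.SA

open Pool.Agent.MPd439b2 Pool.Agent.MPd439b2.W

theorem pBdK (hWr : S_Wr) (hNC : S_NC) : S_BdK := by
  classical
  intro k m₀ n lo hi lo' N V D a b x KA KB ht hk hm hF hn hC hbN hlo1 hlo2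
  -- `KB t` is seen by `x i` and not by the later `x j`
  let Last : ℕ → ℕ → Prop := fun t i => lo' ≤ i ∧ i + 1 < hi ∧ t < N ∧ (∀ v ∈ KB t, D.Adj (x i) v) ∧
    ∀ j, i < j → j < hi → ∀ v ∈ KB t, ¬ D.Adj (x j) v
  let Bd : Finset ℕ := (Finset.range hi).filter fun i =>
    ∃ (t : ℕ) (g u : V), Last t i ∧ g ∈ BFs D n a ∧ u ∈ KA t ∧ ¬ D.Adj g u
  refine ⟨Bd, ?_, ?_⟩
  · have h1 : ∀ i, ∃ (t : ℕ) (g u : V), i ∈ Bd → Last t i ∧ g ∈ BFs D n a ∧ u ∈ KA t ∧
        ¬ D.Adj g u := by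
      intro i
      by_cases hi' : i ∈ Bd
      · obtain ⟨t, g, u, h⟩ := (Finset.mem_filter.mp hi').2
        exact ⟨t, g, u, fun _ => h⟩
      · exact ⟨0, a 0, a 0, fun h => absurd h hi'⟩
    choose t g u' h using h1
    have hxb : ∀ i, lo' ≤ i → i + 1 < hi → Ps D n b (x i) i ∧ D.Adj (x i) (b (n - 1)) := by
      intro i h1 h2
      refine ⟨Or.inl fun j hj => hF.lad.xb i (by omega) j hj, ?_⟩
      exact (hF.lad.xb i (by omega) (n - 1) (by omega)).mpr (by omega)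
    -- a neighbour in `KB`
    have h2 : ∀ i ∈ Bd, ∃ w ∈ KB (t i), D.Adj (u' i) w ∧
        ∀ g' ∈ BFs D n a, ¬ D.Adj g' w := by
      intro i hi'
      obtain ⟨⟨hi1, hi2, hi3, hi4, hi5⟩, hi6, hi7, hi8⟩ := h i hi'
      obtain ⟨w, hw, huw⟩ := (hC.nb (t i) (by omega)).1 _ hi7
      refine ⟨w, hw, huw, fun g' hg' => ?_⟩
      exact hWr k n V D a b x ht hk hF g' (x i) i hg' (hxb i hi1 hi2).1 (by omega) (by omega)
        (hxb i hi1 hi2).2 w ((hC.comp (t i) (by omega)).1 (Or.inr hw)) (hi4 w hw)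
    refine indM W.dig V D m₀ k Bd g u' hm (fun i hi' => (h i hi').2.2.2) fun i hi' J hJ hJg => ?_
    by_contra hcon
    push Not at hcon
    have hJne : J.Nonempty := Finset.card_pos.mp (by omega)
    set s := J.max' hJne with hs
    have hsJ : s ∈ J := J.max'_mem hJne
    have h3 : k ≤ (J.erase s).card := by
      rw [Finset.card_erase_of_mem hsJ]
      omega
    obtain ⟨J', hJ', hJ'c⟩ := Finset.exists_subset_card_eq h3
    have hJ'J : ∀ j ∈ J', j ∈ Bd ∧ j < s ∧ ¬ D.Adj (g i) (u' j) := by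
      intro j hj
      have h4 := hJ' hj
      rw [Finset.mem_erase] at h4
      exact ⟨hJ h4.2, lt_of_le_of_ne (J.le_max' j h4.2) h4.1, hJg j h4.2⟩
    have htinj : ∀ j ∈ Bd, ∀ j' ∈ Bd, t j = t j' → j = j' := by
      have key : ∀ j ∈ Bd, ∀ j' ∈ Bd, t j = t j' → ¬ j < j' := by
        intro j hj j' hj' heq hlt
        obtain ⟨⟨_, _, hj3, _, hj5⟩, _, _, _⟩ := h j hj
        obtain ⟨⟨_, hj2', _, hj4', _⟩, _, _, _⟩ := h j' hj'
        obtain ⟨w, hw⟩ := hC.ne (t j) (by omega)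
        exact hj5 j' hlt (by omega) w hw (hj4' w (heq ▸ hw))
      intro j hj j' hj' heq
      rcases lt_trichotomy j j' with h4 | h4 | h4
      · exact absurd h4 (key j hj j' hj' heq)
      · exact h4
      · exact absurd h4 (key j' hj' j hj heq.symm)
    obtain ⟨⟨hs1, hs2, hs3, hs4, hs5⟩, hs6, hs7, hs8⟩ := h s (hJ hsJ)
    have hgi := (h i hi').2.1
    have h4 : ∀ r, ∃ p q : V, r ∈ J'.image t → (r < N ∧ p ∈ KA r ∧ q ∈ KB r ∧ D.Adj p q ∧
        ¬ D.Adj (g i) p ∧ ¬ D.Adj (g i) q ∧ ¬ D.Adj (x s) q) := by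
      intro r
      by_cases hr : r ∈ J'.image t
      · obtain ⟨j, hj, rfl⟩ := Finset.mem_image.mp hr
        obtain ⟨hj1, hj2, hj3⟩ := hJ'J j hj
        obtain ⟨w, hw, huw, hgw⟩ := h2 j hj1
        obtain ⟨⟨_, _, hj4, _, hj5⟩, _, hj6, _⟩ := h j hj1
        exact ⟨u' j, w, fun _ => ⟨hj4, hj6, hw, huw, hj3, hgw _ hgi, hj5 s hj2 (by omega) w hw⟩⟩
      · exact ⟨a 0, a 0, fun h => absurd h hr⟩
    choose p q hpq using h4
    have h5 := hNC k n lo hi N V D a b x KA KB p q ht hk hF hn hC hbN (g i) (x s) s (J'.image t)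
      hgi (hxb s hs1 hs2).1 (by omega) hs2 (by
        rw [Finset.card_image_of_injOn, hJ'c]
        intro j hj j' hj' heq
        exact htinj j (hJ'J j hj).1 j' (hJ'J j' hj').1 heq) hpq
    obtain ⟨w, hw, huw, hgw⟩ := h2 s (hJ hsJ)
    rcases h5.2 (t s) hs3 (u' s) hs7 w hw huw (hs4 w hw) with h6 | h6
    · exact hJg s hsJ h6
    · exact hgw _ hgi h6
  · intro i hi1 hi2 hi3 t htN h1 h2 g hg u hu
    by_contra hgu
    exact hi3 (Finset.mem_filter.mpr ⟨Finset.mem_range.mpr (by omega), t, g, u,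
      ⟨hi1, hi2, htN, h1, h2⟩, hg, hu, hgu⟩)

end Pool.Agent.MPd439b2.SA
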