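import Pool.Agent.Lib.MP_d439b2_co.SA.SpecC

/-!
# MP_d439b2_co, SA, C15: the band
-/

set_option autoImplicit false

namespace Pool.Agent.MPd439b2.SA

open Pool.Agent.MPd439b2 Pool.Agent.MPd439b2.W

namespace Bndx

variable {V : Type} {D : SimpleGraph V} {n : ℕ} {a b x : ℕ → V}

theorem ps_le {y : V} {q j : ℕ} (h : Ps D n b y q) (hj : j < n) (hyj : D.Adj y (b j)) : q ≤ j := by
  rcases h with h | h
  · exact (h j hj).mp hyj
  · rcases (h j hj).mp hyj with h1 | h1 <;> omega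

theorem ps_self {y : V} {q : ℕ} (h : Ps D n b y q) (hq : q < n) : D.Adj y (b q) := by
  rcases h with h | h
  · exact (h q hq).mpr le_rfl
  · exact (h q hq).mpr (Or.inl rfl)

theorem ps_two {y : V} {q j : ℕ} (h : Ps D n b y q) (hj : j < n) (hqj : q + 2 ≤ j) :
    D.Adj y (b j) := by
  rcases h with h | h
  · exact (h j hj).mpr (by omega)
  · exact (h j hj).mpr (Or.inr hqj)

theorem ps_uniq {y : V} {q q' : ℕ} (h : Ps D n b y q) (h' : Ps D n b y q') (hq : q < n)
    (hq' : q' < n) : q = q' :=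
  le_antisymm (ps_le h hq' (ps_self h' hq')) (ps_le h' hq (ps_self h hq))

theorem ps_notU {y : V} {q : ℕ} (h : Ps D n b y q) (hq : q + 1 < n) (hy : D.Adj y (b (n - 1))) :
    y ∉ LtS D n a b := by
  intro hU
  have h1 := hU q (by omega) (n - 1) (by omega) (Or.inr (ps_self h (by omega))) (Or.inr hy)
  omega

theorem bf_notU {g : V} (hg : g ∈ BFs D n a) (hn : 2 ≤ n) : g ∉ LtS D n a b := by
  intro hU
  have h1 := hU 0 (by omega) 1 (by omega) (Or.inl (hg 0 (by omega))) (Or.inl (hg 1 (by omega)))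
  omega

theorem bf_b (ht : TriFree D) (him : IM D n a b) {g : V} (hg : g ∈ BFs D n a) {j : ℕ}
    (hj : j < n) : ¬ D.Adj g (b j) :=
  fun h => ht g (a j) (b j) (hg j hj) h (him.edge hj)

theorem mem_J {N : ℕ} {v : ℕ → V} {y : V} {l : ℕ} : l ∈ J D N v y ↔ l < N ∧ D.Adj y (v l) := by
  simp only [J, Finset.mem_filter, Finset.mem_range]

end Bndx

open Bndx in
theorem pBnd (hCls : S_Cls) (hFar : S_Far) (hAFc : S_AFc) (hIdx : S_Idx) (hFanX : S_FanX)
    (hFanN : S_FanN) (hFanG : S_FanG) (hFanC : S_FanC) (hThree : S_Three) : S_Bnd := by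
  classical
  intro k n lo hi N i₁ i₂ V _ D a b x KA KB ht hk hF hn hC hbN hlo h1 h2 h3 cX cK
  have hFr := hF.fr
  have him := hFr.lad.im
  have hn1 : n - 1 < n := by omega
  -- the vertices `u l`, `v l`
  have h4 : ∀ l, ∃ p q : V, l < N → p ∈ KA l ∧ q ∈ KB l ∧ D.Adj p q := by
    intro l
    by_cases hl : l < N
    · obtain ⟨q, hq⟩ := hC.ne l (by omega)
      obtain ⟨p, hp, hpq⟩ := (hC.nb l (by omega)).2 q hq
      exact ⟨p, q, fun _ => ⟨hp, hq, hpq⟩⟩
    · exact ⟨a 0, a 0, fun h => absurd h hl⟩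
  choose u v huv using h4
  have hFan := hFanX k n lo hi N V D a b x KA KB u v ht hFr (by omega) (by omega) hn hC hbN huv
  obtain ⟨l, hl, hli⟩ := hIdx n lo hi N V D a b x KA KB ht hFr hn hC hbN
  set U := LtS D n a b with hUdef
  set X := XM D n b lo hi with hXdef
  set W := WI D U X with hWdef
  -- elements of `X`
  have hX1 : ∀ y ∈ X, ∃ q, lo ≤ q ∧ q < hi ∧ Ps D n b y q ∧ D.Adj y (b (n - 1)) := by
    rintro y ⟨q, hq1, hq2, hq3⟩
    exact ⟨q, hq1, hq2, hq3, ps_two hq3 hn1 (by omega)⟩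
  have hXU : ∀ y ∈ X, y ∉ U := by
    intro y hy
    obtain ⟨q, hq1, hq2, hq3, hq4⟩ := hX1 y hy
    exact ps_notU hq3 (by omega) hq4
  have hXl : ∀ y ∈ X, D.Adj y (b (n - 1)) := fun y hy => by
    obtain ⟨q, _, _, _, hq4⟩ := hX1 y hy
    exact hq4
  have hxP : ∀ i, i < n → Ps D n b (x i) i := fun i hi' =>
    Or.inl fun j hj => hFr.lad.xb i hi' j hj
  have hxl : ∀ i, i < n → D.Adj (x i) (b (n - 1)) := fun i hi' =>
    (hFr.lad.xb i hi' (n - 1) hn1).mpr (by omega)
  have hxX : ∀ i, lo ≤ i → i < hi → x i ∈ X := fun i hi1 hi2 =>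
    ⟨i, hi1, hi2, hxP i (by omega)⟩
  have hcomp : ∀ s, s < N + 1 → KA s ∪ KB s ⊆ U := fun s hs => (hC.comp s hs).1
  have hmem : ∀ s, s < N + 1 → ∀ p ∈ KA s ∪ KB s, ∀ q ∈ U, D.Adj p q → q ∈ KA s ∪ KB s := by
    intro s hs p hp q hq hpq
    by_contra h
    exact (hC.comp s hs).2.2 q hq ⟨h, p, hp, hpq⟩
  -- `J`
  have hJ1 : ∀ y ∈ X, ∀ s ∈ J D N v y, s < N ∧ ∀ w ∈ KB s, D.Adj y w := by
    intro y hy s hs
    rw [mem_J] at hs
    refine ⟨hs.1, ?_⟩
    rcases hC.xb y hy s (by omega) with h | h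
    · exact h
    · exact absurd hs.2 (h _ (huv s hs.1).2.1)
  have hJ2 : ∀ y ∈ X, ∀ s < N, ∀ w ∈ KB s, D.Adj y w → s ∈ J D N v y := by
    intro y hy s hs w hw hyw
    rw [mem_J]
    refine ⟨hs, ?_⟩
    rcases hC.xb y hy s (by omega) with h | h
    · exact h _ (huv s hs).2.1
    · exact absurd hyw (h w hw)
  have hJb : ∀ y ∈ X, ∀ i, lo < i → i + 1 < hi → (l i ∈ J D N v y ↔ D.Adj y (b i)) := by
    intro y hy i hi1 hi2
    obtain ⟨h5, h6, _⟩ := hl i hi1 hi2
    exact ⟨fun h => (hJ1 y hy _ h).2 _ h6, fun h => hJ2 y hy _ h5 _ h6 h⟩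
  have hJx : ∀ j, lo ≤ j → j < hi → ∀ i, lo < i → i + 1 < hi → (l i ∈ J D N v (x j) ↔ j ≤ i) := by
    intro j hj1 hj2 i hi1 hi2
    rw [hJb _ (hxX j hj1 hj2) i hi1 hi2]
    exact hFr.lad.xb j (by omega) i (by omega)
  have hnest : ∀ i j, lo < i → i + 2 ≤ j → j < hi →
      J D N v (x j) ⊆ J D N v (x i) ∧ (J D N v (x j)).card < (J D N v (x i)).card := by
    intro i j hi1 hij hj
    have h5 : l i ∈ J D N v (x i) \ J D N v (x j) := by
      rw [Finset.mem_sdiff, hJx i (by omega) (by omega) i hi1 (by omega),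
        hJx j (by omega) (by omega) i hi1 (by omega)]
      omega
    have h6 : l (i + 1) ∈ J D N v (x i) \ J D N v (x j) := by
      rw [Finset.mem_sdiff, hJx i (by omega) (by omega) (i + 1) (by omega) (by omega),
        hJx j (by omega) (by omega) (i + 1) (by omega) (by omega)]
      omega
    have h7 : 1 < (J D N v (x i) \ J D N v (x j)).card := by
      rw [Finset.one_lt_card]
      refine ⟨_, h5, _, h6, fun h => ?_⟩
      have := hli i (i + 1) hi1 (by omega) (by omega) (by omega) h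
      omega
    have h8 : J D N v (x j) ⊆ J D N v (x i) := by
      rcases hFanN V D k N u v (b (n - 1)) a b X W ht hk hFan (x i) (hxX i (by omega) (by omega))
        (x j) (hxX j (by omega) (by omega)) with h | h
      · omega
      · exact h
    refine ⟨h8, Finset.card_lt_card ⟨h8, fun h => ?_⟩⟩
    exact (Finset.mem_sdiff.mp h5).2 (h (Finset.mem_sdiff.mp h5).1)
  -- the good sets
  have hNF : NestF {P | ∃ y ∈ X, P = J D N v y} := by
    rintro P ⟨y, hy, rfl⟩ Q ⟨z, hz, rfl⟩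
    exact hFanN V D k N u v (b (n - 1)) a b X W ht hk hFan y hy z hz
  have hgood : ∀ i, lo < i → i + 2 < hi → ∃ P : Finset ℕ, J D N v (x (i + 2)) ⊆ P ∧
      P ⊆ J D N v (x i) ∧ Good D N v X P := by
    intro i hi1 hi2
    obtain ⟨P, hP1, hP2, hP3⟩ := hFanG _ (J D N v (x (i + 2))) (J D N v (x i)) hNF
      ⟨_, hxX _ (by omega) (by omega), rfl⟩ ⟨_, hxX _ (by omega) (by omega), rfl⟩
      (hnest i (i + 2) hi1 le_rfl hi2).2
    exact ⟨P, hP1, hP2, fun y hy => hP3 _ ⟨y, hy, rfl⟩⟩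
  obtain ⟨P1, hP1a, hP1b, hP1g⟩ := hgood i₁ (by omega) (by omega)
  obtain ⟨P2, hP2a, hP2b, hP2g⟩ := hgood i₂ (by omega) (by omega)
  obtain ⟨A1, hA1X, W1, hW1W, a1, b1, c1, d1, e1, f1⟩ := hFanC V D k N u v (b (n - 1)) a b X W P1
    ht hk hFan hP1g
  obtain ⟨A2, hA2X, W2, hW2W, a2, b2, c2, d2, e2, f2⟩ := hFanC V D k N u v (b (n - 1)) a b X W P2
    ht hk hFan hP2g
  have hPN : ∀ s ∈ P1, s < N := fun s hs => (hJ1 _ (hxX i₁ (by omega) (by omega)) s (hP1b hs)).1
  have hPN2 : ∀ s ∈ P2, s < N := fun s hs => (hJ1 _ (hxX i₂ (by omega) (by omega)) s (hP2b hs)).1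
  -- the classes
  let AF : Set V := {z | ∃ q, q < lo ∧ Ps D n b z q ∧ D.Adj z (b (n - 1))}
  let XE : Set V := {z | ∃ q, hi ≤ q ∧ q + 1 < n ∧ Ps D n b z q ∧ D.Adj z (b (n - 1))}
  have hcls : ∀ z, z ∈ U ∨ z ∈ BFs D n a ∨ z ∈ AF ∨ z ∈ X ∨ z ∈ XE := by
    intro z
    rcases hCls n V D a b x hF z with h | h | ⟨q, hq1, hq2, hq3, _⟩
    · exact Or.inl h
    · exact Or.inr (Or.inl h)
    · rcases Nat.lt_or_ge q lo with h5 | h5
      · exact Or.inr (Or.inr (Or.inl ⟨q, h5, hq2, hq3⟩))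
      · rcases Nat.lt_or_ge q hi with h6 | h6
        · exact Or.inr (Or.inr (Or.inr (Or.inl ⟨q, h5, h6, hq2⟩)))
        · exact Or.inr (Or.inr (Or.inr (Or.inr ⟨q, h6, hq1, hq2, hq3⟩)))
  have hAFU : ∀ z ∈ AF, z ∉ U := by
    rintro z ⟨q, hq1, hq2, hq3⟩
    exact ps_notU hq2 (by omega) hq3
  have hXEU : ∀ z ∈ XE, z ∉ U := by
    rintro z ⟨q, hq1, hq2, hq3, hq4⟩
    exact ps_notU hq3 hq2 hq4
  have hBU : ∀ z ∈ BFs D n a, z ∉ U := fun z hz => bf_notU hz (by omega)
  have hBl : ∀ z ∈ BFs D n a, ¬ D.Adj z (b (n - 1)) := fun z hz => bf_b ht him hz hn1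
  have hAFX : ∀ z ∈ AF, z ∉ X := by
    rintro z ⟨q, hq1, hq2, hq3⟩ ⟨q', hq1', hq2', hq3'⟩
    have := ps_uniq hq2 hq3' (by omega) (by omega)
    omega
  have hXEX : ∀ z ∈ XE, z ∉ X := by
    rintro z ⟨q, hq1, hq2, hq3, hq4⟩ ⟨q', hq1', hq2', hq3'⟩
    have := ps_uniq hq3 hq3' (by omega) (by omega)
    omega
  have hXEA : ∀ z ∈ XE, z ∉ AF := by
    rintro z ⟨q, hq1, hq2, hq3, hq4⟩ ⟨q', hq1', hq2', hq3'⟩
    have := ps_uniq hq3 hq2' (by omega) (by omega)
    omega
  have hBX : ∀ z ∈ BFs D n a, z ∉ X := fun z hz h => hBl z hz (hXl z h)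
  have hBA : ∀ z ∈ BFs D n a, z ∉ AF := fun z hz h => by
    obtain ⟨q, _, _, hq3⟩ := h
    exact hBl z hz hq3
  -- `AF` sees what `x i` sees, `lo + 4 ≤ i`
  have hAFs : ∀ f ∈ AF, ∀ i, lo + 4 ≤ i → i < hi → ∀ z ∈ U, D.Adj (x i) z → D.Adj f z := by
    rintro f ⟨q, hq1, hq2, hq3⟩ i hi1 hi2 z hz hxz
    exact hAFc k n V D a b x ht hk hFr f (x i) (lo + 1) i
      (fun j hj1 hj2 => ps_two hq2 hj2 (by omega)) (hxP i (by omega)) (by omega) (by omega)
      (by omega) (hxl i (by omega)) z hz hxz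
  -- `x i` sees what `XE` sees, `i + 4 ≤ hi`
  have hXEs : ∀ f ∈ XE, ∀ i, lo ≤ i → i + 4 ≤ hi → ∀ z ∈ U, D.Adj f z → D.Adj (x i) z := by
    rintro f ⟨q, hq1, hq2, hq3, hq4⟩ i hi1 hi2 z hz hfz
    exact hFar k n V D a b x ht hk hFr (x i) f i q (hxP i (by omega)) hq3 (by omega) (by omega)
      hq2 hq4 z hz hfz
  -- `BF` is complete to `KA s`
  have hBK : ∀ s ∈ P1, s ∉ P2 → ∀ g ∈ BFs D n a, ∀ p ∈ KA s, D.Adj g p := by
    intro s hs hs2
    have hsN := hPN s hs
    have h5 : s ∈ J D N v (x i₁) := hP1b hs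
    have hex : ∃ i, i < hi ∧ i₁ ≤ i ∧ s ∈ J D N v (x i) := ⟨i₁, by omega, le_rfl, h5⟩
    obtain ⟨i, ⟨hi1, hi2, hi3⟩, hmax⟩ : ∃ i, (i < hi ∧ i₁ ≤ i ∧ s ∈ J D N v (x i)) ∧
        ∀ j, i < j → j < hi → s ∉ J D N v (x j) := by
      let F : Finset ℕ := (Finset.range hi).filter fun i => i₁ ≤ i ∧ s ∈ J D N v (x i)
      have hFne : F.Nonempty := ⟨i₁, Finset.mem_filter.mpr
        ⟨Finset.mem_range.mpr (by omega), le_rfl, h5⟩⟩
      have h6 := Finset.mem_filter.mp (F.max'_mem hFne)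
      refine ⟨F.max' hFne, ⟨Finset.mem_range.mp h6.1, h6.2⟩, fun j hj1 hj2 hj3 => ?_⟩
      have h7 := F.le_max' j (Finset.mem_filter.mpr
        ⟨Finset.mem_range.mpr hj2, by have := h6.2.1; omega, hj3⟩)
      omega
    have hi4 : i ≤ i₂ + 5 := by
      by_contra h6
      have h7 := hFar k n V D a b x ht hk hFr (x (i₂ + 2)) (x i) (i₂ + 2) i (hxP _ (by omega))
        (hxP _ (by omega)) (by omega) (by omega) (by omega) (hxl _ (by omega)) (v s)
        (hcomp s (by omega) (Or.inr (huv s hsN).2.1)) ((mem_J.mp hi3).2)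
      exact hs2 (hP2a (mem_J.mpr ⟨hsN, h7⟩))
    intro g hg p hp
    refine cK i hi2 hi4 s hsN (hJ1 _ (hxX i (by omega) hi1) s hi3).2 (fun j hj1 hj2 w hw hxw => ?_)
      g hg p hp
    exact hmax j hj1 hj2 (hJ2 _ (hxX j (by omega) hj2) s hsN w hw hxw)
  -- the set `Y` and the types
  let Y : Set V := {z | (z ∈ A2 ∧ z ∉ A1) ∨ (∃ s, s ∈ P1 ∧ s ∉ P2 ∧ z ∈ KA s ∪ KB s) ∨
    (z ∈ W2 ∧ z ∉ W1)}
  let T : Fin 3 → Set V := ![{z | z ∈ BFs D n a ∨ (∃ s, (s ∈ P2 ∨ s = N) ∧ z ∈ KB s) ∨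
    (z ∈ W ∧ z ∉ W2)}, BFs D n a, {z | z ∈ AF ∨ z ∈ A1}]
  have hWU : ∀ z ∈ W, z ∈ U := fun z hz => hz.1
  refine ⟨Y, hThree V D Y T ?_, ?_, ?_⟩
  · rintro y (⟨hy2, hy1⟩ | ⟨s, hs1, hs2, hyA | hyB⟩ | ⟨hw2, hw1⟩)
    · -- rows of `XL² \ XL¹`
      refine ⟨0, fun z hz => ?_⟩
      show D.Adj y z ↔ z ∈ BFs D n a ∨ (∃ s, (s ∈ P2 ∨ s = N) ∧ z ∈ KB s) ∨ (z ∈ W ∧ z ∉ W2)
      have hyX := hA2X hy2
      have hyP1 : J D N v y ⊆ P1 := d1 y hyX hy1
      have hyP2 : P2 ⊆ J D N v y := c2 y hy2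
      obtain ⟨p, hp1, hp2, hp3, hp4⟩ := hX1 y hyX
      have hp5 : i₁ - 2 ≤ p := by
        by_contra h5
        have h6 : l (p + 2) ∈ J D N v y :=
          (hJb y hyX (p + 2) (by omega) (by omega)).mpr (ps_two hp3 (by omega) le_rfl)
        have h7 := (hJx i₁ (by omega) (by omega) (p + 2) (by omega) (by omega)).mp
          (hP1b (hyP1 h6))
        omega
      have hp6 : p ≤ i₂ + 2 := by
        have h6 : l (i₂ + 2) ∈ J D N v (x (i₂ + 2)) :=
          (hJx (i₂ + 2) (by omega) (by omega) (i₂ + 2) (by omega) (by omega)).mpr le_rfl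
        have h7 := (hJb y hyX (i₂ + 2) (by omega) (by omega)).mp (hyP2 (hP2a h6))
        exact ps_le hp3 (by omega) h7
      have hyN : ∀ w ∈ KB N, D.Adj y w := by
        rcases hC.xb y hyX N (Nat.lt_succ_self N) with h | h
        · exact h
        · exact absurd hp4 (h _ hbN)
      constructor
      · intro hyz
        have hzl : ¬ D.Adj z (b (n - 1)) := fun h => ht y (b (n - 1)) z hp4 hyz h.symm
        rcases hcls z with h | h | h | h | h
        · right
          by_cases h5 : ∃ z' ∈ U, D.Adj z z'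
          · left
            obtain ⟨z', hz', hzz'⟩ := h5
            obtain ⟨s, hs, hzs⟩ := hC.cov y hyX z h z' hz' hyz hzz'
            refine ⟨s, ?_, hzs⟩
            by_cases hsN : s = N
            · exact Or.inr hsN
            · left
              by_contra h6
              exact hz (Or.inr (Or.inl ⟨s, hyP1 (hJ2 y hyX s (by omega) z hzs hyz), h6,
                Or.inr hzs⟩))
          · right
            push Not at h5
            have hzW : z ∈ W := ⟨h, h5, y, hyX, hyz⟩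
            refine ⟨hzW, fun h6 => ?_⟩
            by_cases h7 : z ∈ W1
            · exact f1 y hyX hy1 z h7 hyz
            · exact hz (Or.inr (Or.inr ⟨h6, h7⟩))
        · exact Or.inl h
        · obtain ⟨q, _, _, hq3⟩ := h
          exact absurd hq3 hzl
        · exact absurd (hXl z h) hzl
        · obtain ⟨q, _, _, _, hq4⟩ := h
          exact absurd hq4 hzl
      · rintro (h | ⟨s, hs | hs, hzs⟩ | ⟨hzW, hzW2⟩)
        · exact (cX p hp5 (by omega) y hp3 z h).symm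
        · exact (hJ1 y hyX s (hyP2 hs)).2 z hzs
        · rw [hs] at hzs
          exact hyN z hzs
        · exact e2 y hy2 z hzW hzW2
    · -- rows of `KA s`
      refine ⟨1, fun z hz => ?_⟩
      show D.Adj y z ↔ z ∈ BFs D n a
      have hsN := hPN s hs1
      obtain ⟨w, hw, hyw⟩ := (hC.nb s (by omega)).1 y hyA
      have hyU : y ∈ U := hcomp s (by omega) (Or.inl hyA)
      have hwU : w ∈ U := hcomp s (by omega) (Or.inr hw)
      constructor
      · intro hyz
        rcases hcls z with h | h | h | h | h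
        · exact absurd (Or.inr (Or.inl ⟨s, hs1, hs2, hmem s (by omega) y (Or.inl hyA) z h hyz⟩)) hz
        · exact h
        · have h5 := hAFs z h i₁ (by omega) (by omega) w hwU
            ((hJ1 _ (hxX i₁ (by omega) (by omega)) s (hP1b hs1)).2 w hw)
          exact absurd hyw (ht z y w hyz.symm h5)
        · exact absurd hyz.symm (hC.xa z h s (by omega) y hyA)
        · have h5 := hXEs z h (i₂ + 2) (by omega) (by omega) y hyU hyz.symm
          exact absurd h5 (hC.xa _ (hxX _ (by omega) (by omega)) s (by omega) y hyA)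
      · intro h
        exact (hBK s hs1 hs2 z h y hyA).symm
    · -- rows of `KB s`
      refine ⟨2, fun z hz => ?_⟩
      show D.Adj y z ↔ z ∈ AF ∨ z ∈ A1
      have hsN := hPN s hs1
      obtain ⟨w, hw, hwy⟩ := (hC.nb s (by omega)).2 y hyB
      have hyU : y ∈ U := hcomp s (by omega) (Or.inr hyB)
      constructor
      · intro hyz
        rcases hcls z with h | h | h | h | h
        · exact absurd (Or.inr (Or.inl ⟨s, hs1, hs2, hmem s (by omega) y (Or.inr hyB) z h hyz⟩)) hz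
        · exact absurd hwy (ht z w y (hBK s hs1 hs2 z h w hw) hyz.symm)
        · exact Or.inl h
        · right
          by_contra h5
          have h6 : z ∉ A2 := fun h6 => hz (Or.inl ⟨h6, h5⟩)
          exact hs2 (d2 z h h6 (hJ2 z h s hsN y hyB hyz.symm))
        · have h5 := hXEs z h (i₂ + 2) (by omega) (by omega) y hyU hyz.symm
          exact absurd (hP2a (hJ2 _ (hxX _ (by omega) (by omega)) s hsN y hyB h5)) hs2
      · rintro (h | h)
        · exact (hAFs z h i₁ (by omega) (by omega) y hyU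
            ((hJ1 _ (hxX i₁ (by omega) (by omega)) s (hP1b hs1)).2 y hyB)).symm
        · exact ((hJ1 z (hA1X h) s (c1 z h hs1)).2 y hyB).symm
    · -- rows of `WL² \ WL¹`
      refine ⟨2, fun z hz => ?_⟩
      show D.Adj y z ↔ z ∈ AF ∨ z ∈ A1
      have hyW := hW2W hw2
      have hyU : y ∈ U := hyW.1
      have h5 : x (i₁ - 2) ∈ A1 := by
        refine a1 _ (hxX _ (by omega) (by omega)) ?_
        have h6 := (hnest (i₁ - 2) i₁ (by omega) (by omega) (by omega)).2
        have h7 := Finset.card_le_card hP1b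
        omega
      have h6 : D.Adj (x (i₁ - 2)) y := e1 _ h5 y hyW hw1
      have h7 : x (i₂ + 4) ∉ A2 := by
        refine b2 _ (hxX _ (by omega) (by omega)) ?_
        have h6 := (hnest (i₂ + 2) (i₂ + 4) (by omega) (by omega) (by omega)).2
        have h7 := Finset.card_le_card hP2a
        omega
      constructor
      · intro hyz
        rcases hcls z with h | h | h | h | h
        · exact absurd hyz (hyW.2.1 z h)
        · have h8 := cX (i₁ - 2) le_rfl (by omega) (x (i₁ - 2)) (hxP _ (by omega)) z h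
          exact absurd h6 (ht z (x (i₁ - 2)) y h8 hyz.symm)
        · exact Or.inl h
        · right
          by_contra h8
          have h9 : z ∉ A2 := fun h9 => hz (Or.inl ⟨h9, h8⟩)
          exact f2 z h h9 y hw2 hyz.symm
        · have h8 := hXEs z h (i₂ + 4) (by omega) (by omega) y hyU hyz.symm
          exact absurd h8 (f2 _ (hxX _ (by omega) (by omega)) h7 y hw2)
      · rintro (h | h)
        · exact (hAFs z h (i₁ - 2) (by omega) (by omega) y hyU h6).symm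
        · exact (e1 z h y hyW hw1).symm
  · intro i hi1 hi2
    obtain ⟨h5, h6, _⟩ := hl i (by omega) (by omega)
    refine Or.inr (Or.inl ⟨l i, hP1a ?_, fun h7 => ?_, Or.inr h6⟩)
    · exact (hJx (i₁ + 2) (by omega) (by omega) i (by omega) (by omega)).mpr hi1
    · have h8 := (hJx i₂ (by omega) (by omega) i (by omega) (by omega)).mp (hP2b h7)
      omega
  · intro i hi1 hi2 hY
    obtain ⟨h5, h6, h7⟩ := hl i hi1 (by omega)
    have hbU : b i ∈ U := hcomp _ (by omega) (Or.inr h6)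
    have haU : a i ∈ U := hcomp _ (by omega) (Or.inl h7)
    rcases hY with ⟨h8, _⟩ | ⟨s, hs1, hs2, hbs⟩ | ⟨h8, _⟩
    · exact hXU _ (hA2X h8) hbU
    · have hsN := hPN s hs1
      have h9 : s = l i := by
        by_contra hne
        exact Set.disjoint_left.mp (hC.dis s (by omega) (l i) (by omega) hne) hbs (Or.inr h6)
      rw [h9] at hs1
      have h10 := (hJx i₁ (by omega) (by omega) i (by omega) (by omega)).mp (hP1b hs1)
      omega
    · exact (hW2W h8).2.1 _ haU (him.edge (by omega)).symm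

end Pool.Agent.MPd439b2.SA
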