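import Pool.Agent.Lib.MP_d439b2_co.SA.SpecFan

/-!
# MP_d439b2_co, SA: Fan1 (helper12)
-/

set_option autoImplicit false

namespace Pool.Agent.MPd439b2.SA

open Pool.Agent.MPd439b2 Pool.Agent.MPd439b2.W

private theorem memJ {V : Type} {D : SimpleGraph V} {N : ℕ} {v : ℕ → V} {x : V} {l : ℕ} :
    l ∈ J D N v x ↔ l < N ∧ D.Adj x (v l) := by
  classical
  unfold J
  rw [Finset.mem_filter, Finset.mem_range]

theorem hFan1 (hPt : S_Pt) (hFan0 : S_Fan0) : S_Fan1 := by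
  intro V D k N u v t p q X W P hT hN hF hG x hx
  obtain ⟨⟨hxX, hxc, x₀, hx₀, hc₀, w₀, hw₀, hw₀x, hw₀x₀⟩, ⟨_, _, x₂, hx₂, hc₂, w₂, hw₂, hw₂x₂, hw₂x⟩⟩ := hx
  have hJx : J D N v x = P := (hG x hxX).1 hxc
  have hJ0 : P ⊆ J D N v x₀ := (hG x₀ hx₀).2.1 (by omega)
  have hJ2 : J D N v x₂ ⊆ P := (hG x₂ hx₂).2.2 (by omega)
  obtain ⟨l, hl, hlP⟩ := Finset.exists_mem_notMem_of_card_lt_card
    (show P.card < (J D N v x₀).card by omega)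
  obtain ⟨l', hl'P, hl'⟩ := Finset.exists_mem_notMem_of_card_lt_card
    (show (J D N v x₂).card < P.card by omega)
  have hne : l ≠ l' := by
    rintro rfl
    exact hlP hl'P
  have hnb : ∀ w ∈ W, D.Adj w x₂ → D.Adj w x₀ := by
    intro w hw hwx
    by_contra hcon
    have h1 := hFan0 V D k N u v t p q X W hT hN hF x₀ hx₀ x₂ hx₂ w hw hwx hcon
    rw [Finset.card_le_one] at h1
    exact hne (h1 l (Finset.mem_sdiff.mpr ⟨hl, fun h => hlP (hJ2 h)⟩) l'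
      (Finset.mem_sdiff.mpr ⟨hJ0 hl'P, hl'⟩))
  have ha := (memJ.mp hl)
  have hb := (memJ.mp (hJ0 hl'P))
  have hlN := ha.1
  have hl'N := hb.1
  have hcx : D.Adj x (v l') := (memJ.mp (hJx.symm ▸ hl'P)).2
  have h2 : ¬ D.Adj x₂ (v l) := fun h => hlP (hJ2 (memJ.mpr ⟨hlN, h⟩))
  have h3 : ¬ D.Adj x (v l) := fun h => hlP (hJx ▸ memJ.mpr ⟨hlN, h⟩)
  have h4 : ¬ D.Adj x₂ (v l') := fun h => hl' (memJ.mpr ⟨hl'N, h⟩)
  have hvu : ∀ i < N, ∀ j < N, i ≠ j → ¬ D.Adj (v i) (u j) := fun i hi j hj hij h =>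
    hij ((hF.im j hj i hi).1.1 h.symm).symm
  refine hPt V D k x₀ (v l) (u l) w₂ x₂ (v l') x w₀ p q hT hN ha.2 (hF.im.edge hlN).symm
    (hnb w₂ hw₂ hw₂x₂).symm hw₂x₂ hb.2 hcx.symm hw₀x.symm
    (fun h => hw₀x₀ h.symm) (fun h => h2 h.symm) (fun h => h3 h.symm)
    (fun h => (hF.wu w₀ hw₀ l hlN).2 h.symm) (hF.wu w₂ hw₂ l hlN).1 hw₂x
    (hF.ww w₂ hw₂ w₀ hw₀) (hvu l' hl'N l hlN (Ne.symm hne)) (fun h => h4 h.symm)
    (fun h => hF.xu x₂ hx₂ l hlN h.symm) (fun h => hF.xu x hxX l hlN h.symm)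
    (fun h => (hF.wu w₀ hw₀ l hlN).1 h.symm)
    (hT t x₂ x (hF.xt x₂ hx₂).symm (hF.xt x hxX).symm)
    (fun h => hw₀x₀ (hnb w₀ hw₀ h.symm)) hF.low ?_
  intro j hj z hz
  rcases hz with rfl | rfl | rfl | rfl | rfl | rfl | rfl | rfl
  · exact hF.lx _ hx₀ j hj
  · exact (hF.lu l hlN j hj).2.2
  · exact ⟨(hF.lu l hlN j hj).1, (hF.lu l hlN j hj).2.1⟩
  · exact hF.lw _ hw₂ j hj
  · exact hF.lx _ hx₂ j hj
  · exact (hF.lu l' hl'N j hj).2.2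
  · exact hF.lx _ hxX j hj
  · exact hF.lw _ hw₀ j hj

end Pool.Agent.MPd439b2.SA
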