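import Pool.Agent.Lib.MP_d439b2_co.SA.SpecFan

/-!
# MP_d439b2_co, SA: Fan2 (helper12)
-/

set_option autoImplicit false

namespace Pool.Agent.MPd439b2.SA

open Pool.Agent.MPd439b2 Pool.Agent.MPd439b2.W

private theorem memJ {V : Type} {D : SimpleGraph V} {N : ℕ} {v : ℕ → V} {x : V} {l : ℕ} :
    l ∈ J D N v x ↔ l < N ∧ D.Adj x (v l) := by
  classical
  unfold J
  rw [Finset.mem_filter, Finset.mem_range]

theorem hFan2 (hPt : S_Pt) : S_Fan2 := by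
  intro V D k N u v t p q X W P hT hN hF hG x hx x' hx' x₀ hx₀ w₀ hw₀ hxc hx'c hc₀ hw₀x hw₀x₀ hnA
  by_contra hcon
  push Not at hcon
  obtain ⟨⟨w, hw, hwx₀, hwx', hwx⟩, ⟨w', hw', hw'x₀, hw'x, hw'x'⟩⟩ := hcon
  have hJx : J D N v x = P := (hG x hx).1 hxc
  have hJx' : J D N v x' = P := (hG x' hx').1 hx'c
  obtain ⟨l, hl, hlP⟩ := Finset.exists_mem_notMem_of_card_lt_card
    (show P.card < (J D N v x₀).card by omega)
  have hw₀x' : ¬ D.Adj w₀ x' := fun h => hnA ⟨hx', hx'c, x₀, hx₀, hc₀, w₀, hw₀, h, hw₀x₀⟩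
  have ha := (memJ.mp hl)
  have hlN := ha.1
  have h2 : ¬ D.Adj x' (v l) := fun h => hlP (hJx' ▸ memJ.mpr ⟨hlN, h⟩)
  have h3 : ¬ D.Adj x (v l) := fun h => hlP (hJx ▸ memJ.mpr ⟨hlN, h⟩)
  refine hPt V D k x₀ (v l) (u l) w x' w' x w₀ p q hT hN ha.2 (hF.im.edge hlN).symm
    hwx₀.symm hwx' hw'x₀.symm hw'x hw₀x.symm
    (fun h => hw₀x₀ h.symm) (fun h => h2 h.symm) (fun h => h3 h.symm)
    (fun h => (hF.wu w₀ hw₀ l hlN).2 h.symm) (hF.wu w hw l hlN).1 hwx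
    (hF.ww w hw w₀ hw₀) (hF.wu w' hw' l hlN).1 hw'x'
    (fun h => hF.xu x' hx' l hlN h.symm) (fun h => hF.xu x hx l hlN h.symm)
    (fun h => (hF.wu w₀ hw₀ l hlN).1 h.symm)
    (hT t x' x (hF.xt x' hx').symm (hF.xt x hx).symm)
    (fun h => hw₀x' h.symm) hF.low ?_
  intro j hj z hz
  rcases hz with rfl | rfl | rfl | rfl | rfl | rfl | rfl | rfl
  · exact hF.lx _ hx₀ j hj
  · exact (hF.lu l hlN j hj).2.2
  · exact ⟨(hF.lu l hlN j hj).1, (hF.lu l hlN j hj).2.1⟩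
  · exact hF.lw _ hw j hj
  · exact hF.lx _ hx' j hj
  · exact hF.lw _ hw' j hj
  · exact hF.lx _ hx j hj
  · exact hF.lw _ hw₀ j hj

end Pool.Agent.MPd439b2.SA
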