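import Pool.Agent.Lib.MP_d439b2_co.SA.SpecFan

/-!
# MP_d439b2_co, SA/FanC: the exact cut (helper69)
-/

set_option autoImplicit false

namespace Pool.Agent.MPd439b2.SA

open Pool.Agent.MPd439b2 Pool.Agent.MPd439b2.W

variable {V : Type}

/-- **FanC.** The exact cut. -/
theorem hFanC (hFan0 : S_Fan0) (hFan1 : S_Fan1) (hFan2 : S_Fan2) : S_FanC := by
  classical
  intro V D k N u v t p q X W P hT hN hF hG
  have F0 := hFan0 V D k N u v t p q X W hT hN hF
  have F1 := hFan1 V D k N u v t p q X W P hT hN hF hG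
  have F2 := hFan2 V D k N u v t p q X W P hT hN hF hG
  have h2 : ∀ x ∈ X, ∀ y ∈ X, ∀ w ∈ W, D.Adj w y → ¬ D.Adj w x →
      (J D N v x).card ≤ (J D N v y).card + 1 := by
    intro x hx y hy w hw h h'
    have e1 := F0 x hx y hy w hw h h'
    have e2 := Finset.le_card_sdiff (J D N v y) (J D N v x)
    omega
  -- the set of the good vertices of `W`
  set W2 : Set V := {w | w ∈ W ∧ (∀ x ∈ X, (J D N v x).card = P.card + 1 → D.Adj w x) ∧
    ∀ x ∈ X, (J D N v x).card + 1 = P.card → ¬ D.Adj w x} with hW2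
  have F3 : ∀ x y, Alp D N v X W P x → Bet D N v X W P y → ∀ w ∈ W2, D.Adj w y → D.Adj w x := by
    intro x y hx hy w hw hwy
    by_contra hwx
    have hya : ¬ Alp D N v X W P y := fun h => F1 y ⟨h, hy⟩
    have hxb : ¬ Bet D N v X W P x := fun h => F1 x ⟨hx, h⟩
    obtain ⟨hxX, hxc, x0, hx0, hx0c, w0, hw0, hwx0, hwx0'⟩ := hx
    obtain ⟨hyX, hyc, x2, hx2, hx2c, w2, hw2, hwx2, hwy2⟩ := hy
    rcases F2 x hxX y hyX x0 hx0 w0 hw0 hxc hyc hx0c hwx0 hwx0' hya with h | h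
    · exact hwx (h w hw.1 (hw.2.1 x0 hx0 hx0c) hwy)
    · refine hwy2 (h w2 hw2 ?_ ?_)
      · by_contra h0
        have := h2 x0 hx0 x2 hx2 w2 hw2 hwx2 h0
        omega
      · by_contra h0
        exact hxb ⟨hxX, hxc, x2, hx2, hx2c, w2, hw2, hwx2, h0⟩
  set gp : V → Prop := fun y => y ∈ X ∧ (J D N v y).card = P.card ∧ ¬ Alp D N v X W P y ∧
    ∃ x, Alp D N v X W P x ∧ (∀ w ∈ W2, D.Adj w x → D.Adj w y) ∧
      ∃ w ∈ W2, D.Adj w y ∧ ¬ D.Adj w x with hgp
  have G1 : ∀ y ∈ X, (J D N v y).card = P.card → ¬ Alp D N v X W P y → ¬ gp y →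
      ∀ x, Alp D N v X W P x → ∀ w ∈ W2, D.Adj w y → D.Adj w x := by
    intro y hy hyc hya hyg x hx w hw hwy
    by_contra hwx
    have hx' := hx
    obtain ⟨hxX, hxc, x0, hx0, hx0c, w0, hw0, hwx0, hwx0'⟩ := hx
    rcases F2 x hxX y hy x0 hx0 w0 hw0 hxc hyc hx0c hwx0 hwx0' hya with h | h
    · exact hwx (h w hw.1 (hw.2.1 x0 hx0 hx0c) hwy)
    · exact hyg ⟨hy, hyc, hya, x, hx', fun z hz hzx => h z hz.1 (hz.2.1 x0 hx0 hx0c) hzx,
        w, hw, hwy, hwx⟩
  have B1 : ∀ y, Bet D N v X W P y → ¬ Alp D N v X W P y ∧ ¬ gp y := by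
    intro y hy
    refine ⟨fun h => F1 y ⟨h, hy⟩, ?_⟩
    rintro ⟨-, -, -, x, hx, -, w, hw, hwy, hwx⟩
    exact hwx (F3 x y hx hy w hw hwy)
  set XL : Set V := {x | x ∈ X ∧ (P.card < (J D N v x).card ∨ Alp D N v X W P x ∨ gp x)} with hXL
  have hXLc : ∀ x ∈ XL, P.card ≤ (J D N v x).card := by
    rintro x ⟨-, h | h | h⟩
    · omega
    · have := h.2.1; omega
    · have := h.2.1; omega
  have hXLc' : ∀ x ∈ X, x ∉ XL → (J D N v x).card ≤ P.card ∧ ¬ Alp D N v X W P x ∧ ¬ gp x := by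
    intro x hx h
    refine ⟨?_, fun h' => h ⟨hx, Or.inr (Or.inl h')⟩, fun h' => h ⟨hx, Or.inr (Or.inr h')⟩⟩
    by_contra h'
    exact h ⟨hx, Or.inl (by omega)⟩
  have hC : ∀ w ∈ W, ∀ y ∈ X, y ∉ XL → D.Adj w y → ∀ x ∈ XL, D.Adj w x := by
    intro w hw y hy hyL hwy x hx
    by_contra hwx
    have e1 := h2 x hx.1 y hy w hw hwy hwx
    have e2 := hXLc x hx
    obtain ⟨e3, hya, hyg⟩ := hXLc' y hy hyL
    by_cases hyc : (J D N v y).card = P.card
    · by_cases hxc : (J D N v x).card = P.card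
      · have hxag : Alp D N v X W P x ∨ gp x := by
          rcases hx.2 with h | h
          · omega
          · exact h
        have hxb : ¬ Bet D N v X W P x := by
          intro h
          rcases hxag with h' | h'
          · exact (B1 x h).1 h'
          · exact (B1 x h).2 h'
        have hw2 : w ∈ W2 := by
          refine ⟨hw, ?_, ?_⟩
          · intro z hz hzc
            by_contra h
            exact hya ⟨hy, hyc, z, hz, hzc, w, hw, hwy, h⟩
          · intro z hz hzc h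
            exact hxb ⟨hx.1, hxc, z, hz, hzc, w, hw, h, hwx⟩
        rcases hxag with h | h
        · exact hwx (G1 y hy hyc hya hyg x h w hw2 hwy)
        · obtain ⟨-, -, -, x1, hx1, hx1', -⟩ := h
          exact hwx (hx1' w hw2 (G1 y hy hyc hya hyg x1 hx1 w hw2 hwy))
      · exact hya ⟨hy, hyc, x, hx.1, by omega, w, hw, hwy, hwx⟩
    · have hxc : (J D N v x).card = P.card := by omega
      have hb : Bet D N v X W P x := ⟨hx.1, hxc, y, hy, by omega, w, hw, hwy, hwx⟩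
      have := B1 x hb
      rcases hx.2 with h | h | h
      · omega
      · exact this.1 h
      · exact this.2 h
  refine ⟨XL, fun x hx => hx.1, {w | w ∈ W ∧ ∀ y ∈ X, y ∉ XL → ¬ D.Adj w y}, fun w hw => hw.1,
    fun x hx h => ⟨hx, Or.inl h⟩, ?_, ?_, ?_, ?_, ?_⟩
  · intro x hx h h'
    have := hXLc x h'
    omega
  · intro x hx
    have e := hXLc x hx
    rcases Nat.lt_or_ge P.card (J D N v x).card with h | h
    · exact (hG x hx.1).2.1 h
    · rw [(hG x hx.1).1 (by omega)]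
  · intro x hx hxL
    have e := (hXLc' x hx hxL).1
    rcases Nat.lt_or_ge (J D N v x).card P.card with h | h
    · exact (hG x hx).2.2 h
    · rw [(hG x hx).1 (by omega)]
  · intro x hx w hw hwL
    have : ∃ y ∈ X, y ∉ XL ∧ D.Adj w y := by
      by_contra h
      push Not at h
      exact hwL ⟨hw, h⟩
    obtain ⟨y, hy, hyL, hwy⟩ := this
    exact (hC w hw y hy hyL hwy x hx).symm
  · intro x hx hxL w hw h
    exact hw.2 x hx hxL h.symm

end Pool.Agent.MPd439b2.SA
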