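import Pool.Agent.Lib.MP_d439b2_co.SA.SpecFan

/-!
# MP_d439b2_co, SA: FanG (helper12)

`P` is always the union of the sets of size `|Q₀|`.
-/

set_option autoImplicit false

namespace Pool.Agent.MPd439b2.SA

open Pool.Agent.MPd439b2 Pool.Agent.MPd439b2.W

theorem hFanG (hFanS : S_FanS) : S_FanG := by
  classical
  intro F Q₀ Q₁ hF h0 h1 hlt
  have key := (hFanS F hF).1
  by_cases hu : ∀ R ∈ F, R.card = Q₀.card → R = Q₀
  · exact ⟨Q₀, Finset.Subset.refl _, key Q₀ h0 Q₁ h1 hlt, fun R hR =>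
      ⟨hu R hR, key Q₀ h0 R hR, key R hR Q₀ h0⟩⟩
  · push Not at hu
    obtain ⟨R₀, hR₀, hs, hne⟩ := hu
    have hmem : ∀ a, a ∈ Q₁.filter (fun a => ∃ R ∈ F, R.card = Q₀.card ∧ a ∈ R) ↔
        ∃ R ∈ F, R.card = Q₀.card ∧ a ∈ R := by
      intro a
      rw [Finset.mem_filter]
      refine ⟨fun h => h.2, fun h => ⟨?_, h⟩⟩
      obtain ⟨R, hR, hc, ha⟩ := h
      exact key R hR Q₁ h1 (by omega) ha
    obtain ⟨P, hP⟩ : ∃ P, P = Q₁.filter (fun a => ∃ R ∈ F, R.card = Q₀.card ∧ a ∈ R) := ⟨_, rfl⟩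
    rw [← hP] at hmem
    have hin : ∀ R ∈ F, R.card = Q₀.card → R ⊆ P := fun R hR hc a ha =>
      (hmem a).mpr ⟨R, hR, hc, ha⟩
    have hout : ∀ R ∈ F, Q₀.card < R.card → P ⊆ R := by
      intro R hR hc a ha
      obtain ⟨R', hR', hc', ha'⟩ := (hmem a).mp ha
      exact key R' hR' R hR (by omega) ha'
    have hsz : Q₀.card < P.card := by
      have h2 : Q₀ ⊂ P := by
        refine ⟨hin Q₀ h0 rfl, fun h => hne ?_⟩
        exact Finset.eq_of_subset_of_card_le ((hin R₀ hR₀ hs).trans h) (by omega)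
      exact Finset.card_lt_card h2
    refine ⟨P, hin Q₀ h0 rfl, hout Q₁ h1 hlt, fun R hR => ⟨fun hc => ?_, fun hc => ?_,
      fun hc => ?_⟩⟩
    · exact (Finset.eq_of_subset_of_card_le (hout R hR (by omega)) (by omega)).symm
    · exact hout R hR (by omega)
    · by_cases hb : Q₀.card < R.card
      · have := Finset.card_le_card (hout R hR hb)
        omega
      · by_cases he : R.card = Q₀.card
        · exact hin R hR he
        · exact (key R hR Q₀ h0 (by omega)).trans (hin Q₀ h0 rfl)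

end Pool.Agent.MPd439b2.SA
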