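import Pool.Agent.Lib.MP_d439b2_co.SA.SpecFan

/-!
# MP_d439b2_co, SA: FanN (helper12)
-/

set_option autoImplicit false

namespace Pool.Agent.MPd439b2.SA

open Pool.Agent.MPd439b2 Pool.Agent.MPd439b2.W

private theorem memJ {V : Type} {D : SimpleGraph V} {N : ℕ} {v : ℕ → V} {x : V} {l : ℕ} :
    l ∈ J D N v x ↔ l < N ∧ D.Adj x (v l) := by
  classical
  unfold J
  rw [Finset.mem_filter, Finset.mem_range]

theorem hFanN (hPt : S_Pt) : S_FanN := by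
  intro V D k N u v t p q X W hT hN hF x hx x' hx'
  rw [Finset.card_le_one]
  by_contra hcon
  rw [not_or] at hcon
  obtain ⟨hA, hB⟩ := hcon
  apply hA
  intro l hl l' hl'
  by_contra hne
  obtain ⟨m, hm1, hm2⟩ := Finset.not_subset.mp hB
  rw [Finset.mem_sdiff, memJ, memJ] at hl hl'
  rw [memJ] at hm1 hm2
  obtain ⟨⟨hlN, hxl⟩, hl2⟩ := hl
  obtain ⟨⟨hl'N, hxl'⟩, hl'2⟩ := hl'
  obtain ⟨hmN, hx'm⟩ := hm1
  have h1 : ¬ D.Adj x' (v l) := fun h => hl2 ⟨hlN, h⟩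
  have h2 : ¬ D.Adj x' (v l') := fun h => hl'2 ⟨hl'N, h⟩
  have h3 : ¬ D.Adj x (v m) := fun h => hm2 ⟨hmN, h⟩
  have hlm : l ≠ m := by
    rintro rfl
    exact h1 hx'm
  have hl'm : l' ≠ m := by
    rintro rfl
    exact h2 hx'm
  have hvu : ∀ i < N, ∀ j < N, i ≠ j → ¬ D.Adj (v i) (u j) := fun i hi j hj hij h =>
    hij ((hF.im j hj i hi).1.1 h.symm).symm
  have huv : ∀ i < N, ∀ j < N, i ≠ j → ¬ D.Adj (u i) (v j) := fun i hi j hj hij h =>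
    hij ((hF.im i hi j hj).1.1 h)
  refine hPt V D k x (v l) (u l) (v l') (u l') t x' (v m) p q hT hN hxl (hF.im.edge hlN).symm hxl'
    (hF.im.edge hl'N).symm (hF.xt x hx) (hF.xt x' hx').symm hx'm
    h3 (hvu l hlN l' hl'N hne) (fun h => h1 h.symm)
    (hF.im l hlN m hmN).2.2 (hvu l' hl'N l hlN (Ne.symm hne)) (fun h => h2 h.symm)
    (hF.im l' hl'N m hmN).2.2 (hF.tu l hlN).1 (hF.tu l' hl'N).1
    (hF.im l hlN l' hl'N).2.1 (fun h => hF.xu x' hx' l hlN h.symm)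
    (huv l hlN m hmN hlm) (fun h => hF.xu x' hx' l' hl'N h.symm)
    (huv l' hl'N m hmN hl'm) hF.low ?_
  intro j hj z hz
  rcases hz with rfl | rfl | rfl | rfl | rfl | rfl | rfl | rfl
  · exact hF.lx _ hx j hj
  · exact (hF.lu l hlN j hj).2.2
  · exact ⟨(hF.lu l hlN j hj).1, (hF.lu l hlN j hj).2.1⟩
  · exact (hF.lu l' hl'N j hj).2.2
  · exact ⟨(hF.lu l' hl'N j hj).1, (hF.lu l' hl'N j hj).2.1⟩
  · exact hF.lt j hj
  · exact hF.lx _ hx' j hj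
  · exact (hF.lu m hmN j hj).2.2

end Pool.Agent.MPd439b2.SA
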