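import Pool.Agent.Lib.MP_d439b2_co.SA.SpecTT

/-!
# MP_d439b2_co, SA, TT5: cut rank of covered components
-/

set_option autoImplicit false

namespace Pool.Agent.MPd439b2.SA

open Pool.Agent.MPd439b2 Pool.Agent.MPd439b2.W

namespace hKCutAux

variable {V : Type}

/-- the vertices of `F` have the same neighbours in all `K l`, `l ∈ G` -/
theorem one [Finite V] (hPar : S_Par) {D : SimpleGraph V} {N : ℕ} {K : ℕ → Set V} {a b c : ℕ → V}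
    {F : Set V} {G : Finset ℕ} (hT : TriFree D) (hK : KSys D N K a b) (hG : ∀ l ∈ G, l < N)
    (hc : ∀ l ∈ G, c l ∈ K l) (hF : ∀ f ∈ F, ∀ l ∈ G, D.Adj f (c l))
    (hu : ∀ f ∈ F, ∀ l ∈ G, ∀ p q, ¬ Unc D (K l) f p q) : LK.rk D F (⋃ l ∈ G, K l) ≤ 1 := by
  by_cases hne : F.Nonempty
  · obtain ⟨f₀, hf₀⟩ := hne
    refine Rep.rk_one D {x | D.Adj f₀ x} fun f hf => Or.inl fun x hx => ?_
    rw [Set.mem_iUnion₂] at hx
    obtain ⟨l, hl, hx⟩ := hx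
    exact hPar V D (K l) f f₀ (c l) hT (hK.con l (hG l hl)) (hu f hf l hl) (hu f₀ hf₀ l hl) (hc l hl)
      (iff_of_true (hF f hf l hl) (hF f₀ hf₀ l hl)) x hx
  · exact Rep.rk_one D ∅ fun f hf => absurd ⟨f, hf⟩ hne

end hKCutAux

theorem hKCut (hPar : S_Par) : S_KCut := by
  intro V _ D N K a b FA FB G hT hK hG hA hB hu hv
  have h1 : LK.rk D FA (⋃ l ∈ G, K l) ≤ 1 :=
    hKCutAux.one hPar hT hK hG (fun l hl => hK.bmb l (hG l hl)) hA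
      fun f hf => hu f (Or.inl hf)
  have h2 : LK.rk D FB (⋃ l ∈ G, K l) ≤ 1 :=
    hKCutAux.one hPar hT hK hG (fun l hl => hK.ama l (hG l hl)) hB
      fun f hf => hu f (Or.inr hf)
  have h0 : LK.rk D {v | ∀ l ∈ G, ∀ x ∈ K l, ¬ D.Adj v x} (⋃ l ∈ G, K l) = 0 := by
    refine Rep.rk_anti D fun v hv x hx => ?_
    rw [Set.mem_iUnion₂] at hx
    obtain ⟨l, hl, hx⟩ := hx
    exact hv l hl x hx
  have hsub : (⋃ l ∈ G, K l)ᶜ ⊆ ({v | ∀ l ∈ G, ∀ x ∈ K l, ¬ D.Adj v x} ∪ FA) ∪ FB := by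
    intro v hvX
    rw [Set.mem_compl_iff, Set.mem_iUnion₂] at hvX
    rcases hv v (fun l hl h => hvX ⟨l, hl, h⟩) with h | h | h
    · exact Or.inl (Or.inr h)
    · exact Or.inr h
    · exact Or.inl (Or.inl h)
  have h3 : LK.cr D (⋃ l ∈ G, K l) = LK.rk D (⋃ l ∈ G, K l)ᶜ (⋃ l ∈ G, K l) :=
    Rep.rk_symm D _ _
  rw [h3]
  have h4 := Rep.rk_mono D hsub (Set.Subset.refl (⋃ l ∈ G, K l))
  have h5 := Rep.rk_union D ({v | ∀ l ∈ G, ∀ x ∈ K l, ¬ D.Adj v x} ∪ FA) FB (⋃ l ∈ G, K l)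
  have h6 := Rep.rk_union D {v | ∀ l ∈ G, ∀ x ∈ K l, ¬ D.Adj v x} FA (⋃ l ∈ G, K l)
  omega

end Pool.Agent.MPd439b2.SA
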