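import Pool.Agent.Lib.MP_d439b2_co.SA.SpecTT

/-!
# MP_d439b2_co, SA: many components (helper18)
-/

set_option autoImplicit false

namespace Pool.Agent.MPd439b2.SA

open Pool.Agent.MPd439b2 Pool.Agent.MPd439b2.W

namespace hManyAux

theorem lower {V : Type} [Finite V] (T : Finset ℕ) (g : ℕ → V) (X : Set V) (B : ℕ)
    (hinj : ∀ l ∈ T, ∀ l' ∈ T, g l = g l' → l = l') (hX : ∀ l ∈ T, g l ∈ X) (hT : B < T.card) :
    B < X.ncard := by
  classical
  have h1 : (T.image g).card = T.card := Finset.card_image_of_injOn fun l hl l' hl' h =>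
    hinj l (Finset.mem_coe.1 hl) l' (Finset.mem_coe.1 hl') h
  have h2 : ((T.image g : Finset V) : Set V) ⊆ X := by
    intro x hx
    obtain ⟨l, hl, rfl⟩ := Finset.mem_image.1 (Finset.mem_coe.1 hx)
    exact hX l hl
  have h3 := Set.ncard_le_ncard h2 (Set.toFinite X)
  rw [Set.ncard_coe_finset] at h3
  omega

end hManyAux

open hManyAux

theorem hMany (hBadB : S_BadB) (hKCut : S_KCut) : S_Many := by
  classical
  intro k m h B
  refine ⟨k + 3 + 2 * ((2 * k + 1) * m) + 2 * B + 2, ?_⟩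
  intro V _ D n a b K ι hT hS hC hM hι hK0 hab hne
  set N := k + 3 + 2 * ((2 * k + 1) * m) + 2 * B + 2 with hN
  have hK : ∀ l < N, W.IsComp D (Lig D h n a b) (K l) := by
    intro l hl
    refine ⟨(hK0 l hl).2.1, (hK0 l hl).1, fun v hv w hw hvw => ?_⟩
    by_contra hwK
    exact (hK0 l hl).2.2 w hw ⟨hwK, v, hv, hvw⟩
  have hL : ∀ l < N, ∀ l' < N, l ≠ l' → ∀ x ∈ K l, x ∉ K l' := by
    intro l hl l' hl' hll x hx hx'
    exact hne l hl l' hl' hll ((hK l hl).eq (hK l' hl') hx hx')
  have hSys : KSys D N K (fun l => a (ι l)) (fun l => b (ι l)) :=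
    { con := fun l hl => (hK l hl).1
      ama := fun l hl => (hab l hl).1
      bmb := fun l hl => (hab l hl).2
      edg := fun l hl => hM.im.edge (hι l hl)
      dis := fun l hl l' hl' hll => by
        rw [Set.disjoint_left]
        exact hL l hl l' hl' hll
      ant := fun l hl l' hl' hll x hx y hy hxy =>
        hL l' hl' l hl hll.symm y hy ((hK l hl).2.2 x hx y ((hK l' hl').2.1 hy) hxy) }
  have hSys' : KSys D N K (fun l => b (ι l)) (fun l => a (ι l)) :=
    { con := hSys.con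
      ama := hSys.bmb
      bmb := hSys.ama
      edg := fun l hl => (hSys.edg l hl).symm
      dis := hSys.dis
      ant := hSys.ant }
  let FA : Set V := {v | ∀ i < n, D.Adj v (b i)}
  let FB : Set V := {v | ∀ i < n, D.Adj v (a i)}
  let IA := (Finset.range N).filter (fun l => ∃ f ∈ FA, ∃ p q, Unc D (K l) f p q)
  let IB := (Finset.range N).filter (fun l => ∃ f ∈ FB, ∃ p q, Unc D (K l) f p q)
  have hkN : k + 3 ≤ N := by omega
  have hIA : IA.card ≤ (2 * k + 1) * m := hBadB V D k m N K _ _ FA IA hT hS hC hSys hkN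
    (fun f hf l hl => hf _ (hι l hl))
    (fun l hl => ⟨Finset.mem_range.1 (Finset.mem_filter.1 hl).1, (Finset.mem_filter.1 hl).2⟩)
  have hIB : IB.card ≤ (2 * k + 1) * m := hBadB V D k m N K _ _ FB IB hT hS hC hSys' hkN
    (fun f hf l hl => hf _ (hι l hl))
    (fun l hl => ⟨Finset.mem_range.1 (Finset.mem_filter.1 hl).1, (Finset.mem_filter.1 hl).2⟩)
  have hGd : 2 * B + 2 ≤ (Finset.range N \ (IA ∪ IB)).card := by
    have h1 := Finset.le_card_sdiff (IA ∪ IB) (Finset.range N)
    have h2 := Finset.card_union_le IA IB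
    rw [Finset.card_range] at h1
    omega
  obtain ⟨G, hG, hGc⟩ := Finset.exists_subset_card_eq (by omega : B + 1 ≤
    (Finset.range N \ (IA ∪ IB)).card)
  have hR : B < ((Finset.range N \ (IA ∪ IB)) \ G).card := by
    have h1 := Finset.card_sdiff_add_card_eq_card hG
    omega
  have hlt : ∀ l ∈ Finset.range N \ (IA ∪ IB), l < N := fun l hl =>
    Finset.mem_range.1 (Finset.mem_sdiff.1 hl).1
  have hGlt : ∀ l ∈ G, l < N := fun l hl => hlt l (hG hl)
  have hcov : ∀ f ∈ FA ∪ FB, ∀ l ∈ G, ∀ p q, ¬ Unc D (K l) f p q := by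
    intro f hf l hl p q hpq
    have h1 := (Finset.mem_sdiff.1 (hG hl)).2
    rcases hf with hf | hf
    · exact h1 (Finset.mem_union_left _ (Finset.mem_filter.2
        ⟨Finset.mem_range.2 (hGlt l hl), f, hf, p, q, hpq⟩))
    · exact h1 (Finset.mem_union_right _ (Finset.mem_filter.2
        ⟨Finset.mem_range.2 (hGlt l hl), f, hf, p, q, hpq⟩))
  have hcut := hKCut V D N K (fun l => a (ι l)) (fun l => b (ι l)) FA FB G hT hSys hGlt
    (fun f hf l hl => hf _ (hι l (hGlt l hl))) (fun f hf l hl => hf _ (hι l (hGlt l hl))) hcov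
    (by
      intro v hv
      rcases hM.tr v with h1 | h1 | h1
      · right
        right
        intro l hl x hx hvx
        exact hv l hl ((hK l (hGlt l hl)).2.2 x hx v h1 hvx.symm)
      · exact Or.inl h1
      · exact Or.inr (Or.inl h1))
  have hinj : ∀ l < N, ∀ l' < N, a (ι l) = a (ι l') → l = l' := by
    intro l hl l' hl' he
    by_contra hll
    have h1 : a (ι l) ∈ K l' := by
      rw [he]
      exact (hab l' hl').1
    exact hL l hl l' hl' hll _ (hab l hl).1 h1
  refine ⟨⋃ l ∈ G, K l, hcut, ?_, ?_⟩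
  · refine lower G (fun l => a (ι l)) _ B
      (fun l hl l' hl' he => hinj l (hGlt l hl) l' (hGlt l' hl') he) (fun l hl => ?_) (by omega)
    exact Set.mem_iUnion₂.2 ⟨l, hl, (hab l (hGlt l hl)).1⟩
  · refine lower ((Finset.range N \ (IA ∪ IB)) \ G) (fun l => a (ι l)) _ B
      (fun l hl l' hl' he => hinj l (hlt l (Finset.mem_sdiff.1 hl).1) l'
        (hlt l' (Finset.mem_sdiff.1 hl').1) he) (fun l hl => ?_) hR
    intro hx
    obtain ⟨l', hl', hx'⟩ := Set.mem_iUnion₂.1 hx
    have hll : l ≠ l' := by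
      rintro rfl
      exact (Finset.mem_sdiff.1 hl).2 hl'
    exact hL l (hlt l (Finset.mem_sdiff.1 hl).1) l' (hGlt l' hl') hll _
      (hab l (hlt l (Finset.mem_sdiff.1 hl).1)).1 hx'

end Pool.Agent.MPd439b2.SA
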