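import Pool.Agent.Lib.MP_d439b2_co.SA.SpecTT

/-!
# MP_d439b2_co, SA, TT1: a mixed triple in a connected set (helper91)
-/

set_option autoImplicit false

namespace Pool.Agent.MPd439b2.SA

open Pool.Agent.MPd439b2 Pool.Agent.MPd439b2.W

/-- **TT1.** -/
theorem hMix : S_Mix := by
  intro V D K f b p q ht hK hb hfb hU
  obtain ⟨hp, hq, hpq, hfp, hfq⟩ := hU
  by_contra hno
  have star : ∀ w ∈ K, ∀ u ∈ K, ∀ w' ∈ K, D.Adj f w → D.Adj w u → D.Adj u w' → D.Adj f w' := by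
    intro w hw u hu w' hw' hfw hwu huw'
    by_contra h
    exact hno ⟨w, hw, u, hu, w', hw', hwu, huw', hfw, fun h' => ht f w u hfw h' hwu, h⟩
  have hCK : {v | v ∈ K ∧ (D.Adj f v ∨ ∃ w ∈ K, D.Adj f w ∧ D.Adj w v)} ⊆ K := fun v hv => hv.1
  have hbC : b ∈ {v | v ∈ K ∧ (D.Adj f v ∨ ∃ w ∈ K, D.Adj f w ∧ D.Adj w v)} :=
    ⟨hb, Or.inl hfb⟩
  by_cases hC : {v | v ∈ K ∧ (D.Adj f v ∨ ∃ w ∈ K, D.Adj f w ∧ D.Adj w v)} = K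
  · have hpC : p ∈ {v | v ∈ K ∧ (D.Adj f v ∨ ∃ w ∈ K, D.Adj f w ∧ D.Adj w v)} := by
      rw [hC]
      exact hp
    rcases hpC.2 with h | ⟨w, hw, hfw, hwp⟩
    · exact hfp h
    · exact hfq (star w hw p hp q hq hfw hwp hpq)
  · obtain ⟨v, hv, v', hv', hvv'⟩ := hK.2 _ hCK ⟨b, hbC⟩ hC
    apply hv'.2
    rcases hv.2 with h | ⟨w, hw, hfw, hwv⟩
    · exact ⟨hv'.1, Or.inr ⟨v, hv.1, h, hvv'⟩⟩
    · exact ⟨hv'.1, Or.inl (star w hw v hv.1 v' hv'.1 hfw hwv hvv')⟩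

end Pool.Agent.MPd439b2.SA
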