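import Pool.Agent.Lib.MP_d439b2_co.SA.SpecN

/-!
# MP_d439b2_co, SA: the assembly `S_NO` (helper13)
-/

set_option autoImplicit false

namespace Pool.Agent.MPd439b2.SA

open Pool.Agent.MPd439b2 Pool.Agent.MPd439b2.W

theorem pOLrev : S_OLrev := by
  intro N V D a b x w h
  have key : ∀ i < N, N - 1 - i < N := fun i hi => by omega
  refine ⟨⟨?_, ?_, ?_⟩, ?_, ?_⟩
  · exact (h.lad.im.comp (n' := N) (fun i => N - 1 - i) key
      (fun i hi j hj (hij : N - 1 - i = N - 1 - j) => by omega)).swap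
  · intro i hi j hj
    rw [h.wa _ (key i hi) _ (key j hj)]
    omega
  · intro i hi j hj
    exact h.wb _ (key i hi) _ (key j hj)
  · intro i hi j hj
    rw [h.lad.xb _ (key i hi) _ (key j hj)]
    omega
  · intro i hi j hj
    exact h.lad.xa _ (key i hi) _ (key j hj)

/-- sub-sequences of opposite ladders -/
theorem OL.sub {V : Type} {D : SimpleGraph V} {n n' : ℕ} {a b x w : ℕ → V} (h : OL D n a b x w)
    (ρ : ℕ → ℕ) (h1 : ∀ i < n', ρ i < n) (h2 : ∀ i < n', ∀ j < n', (ρ i ≤ ρ j ↔ i ≤ j)) :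
    OL D n' (fun i => a (ρ i)) (fun i => b (ρ i)) (fun i => x (ρ i)) fun i => w (ρ i) := by
  refine ⟨⟨?_, ?_, ?_⟩, ?_, ?_⟩
  · refine h.lad.im.comp ρ h1 fun i hi j hj hij => ?_
    have h3 := (h2 i hi j hj).1 hij.le
    have h4 := (h2 j hj i hi).1 hij.ge
    omega
  · intro i hi j hj
    rw [h.lad.xb _ (h1 i hi) _ (h1 j hj), h2 i hi j hj]
  · intro i hi j hj
    exact h.lad.xa _ (h1 i hi) _ (h1 j hj)
  · intro i hi j hj
    rw [h.wa _ (h1 i hi) _ (h1 j hj), h2 j hj i hi]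
  · intro i hi j hj
    exact h.wb _ (h1 i hi) _ (h1 j hj)

/-- increasing enumerations -/
theorem enumNO (S : Finset ℕ) (N : ℕ) (h : N ≤ S.card) :
    ∃ ρ : ℕ → ℕ, (∀ i < N, ρ i ∈ S) ∧ ∀ i < N, ∀ j < N, (ρ i ≤ ρ j ↔ i ≤ j) := by
  refine ⟨fun i => if hi : i < N then Finset.orderEmbOfCardLe S h ⟨i, hi⟩ else 0, ?_, ?_⟩
  · intro i hi
    simp only [hi, dif_pos]
    exact Finset.orderEmbOfCardLe_mem S h _
  · intro i hi j hj
    simp only [hi, hj, dif_pos]
    rw [(Finset.orderEmbOfCardLe S h).le_iff_le]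
    exact Iff.rfl

theorem pOLmix (h1 : S_OLrev) : S_OLmix := by
  classical
  intro N V D a b a' b' x w σ n hσ h
  set S₁ := (Finset.range (2 * N)).filter fun i => a' i = a (σ i) ∧ b' i = b (σ i) with hS₁
  set S₂ := (Finset.range (2 * N)).filter fun i => a' i = b (σ i) ∧ b' i = a (σ i) with hS₂
  have hun : Finset.range (2 * N) ⊆ S₁ ∪ S₂ := by
    intro i hi
    rw [Finset.mem_union, hS₁, hS₂, Finset.mem_filter, Finset.mem_filter]
    rcases (hσ i (Finset.mem_range.1 hi)).2 with h2 | h2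
    · exact Or.inl ⟨hi, h2⟩
    · exact Or.inr ⟨hi, h2⟩
  have hc := (Finset.card_le_card hun).trans (Finset.card_union_le S₁ S₂)
  rw [Finset.card_range] at hc
  have him := h.lad.im
  rcases le_or_gt N S₁.card with h2 | h2
  · obtain ⟨ρ, hρ, hρo⟩ := enumNO S₁ N h2
    have hρ' : ∀ i < N, ρ i < 2 * N ∧ a' (ρ i) = a (σ (ρ i)) ∧ b' (ρ i) = b (σ (ρ i)) := by
      intro i hi
      have h3 := hρ i hi
      rw [hS₁, Finset.mem_filter, Finset.mem_range] at h3
      exact h3
    have hinj : ∀ i < N, ∀ j < N, ρ i = ρ j → i = j := fun i hi j hj hij => by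
      have h3 := (hρo i hi j hj).1 hij.le
      have h4 := (hρo j hj i hi).1 hij.ge
      omega
    have hO := h.sub ρ (fun i hi => (hρ' i hi).1) hρo
    refine ⟨fun i => σ (ρ i), fun i => x (ρ i), fun i => w (ρ i),
      fun i hi => (hσ _ (hρ' i hi).1).1, ?_, ?_⟩
    · intro i hi j hj (hij : σ (ρ i) = σ (ρ j))
      apply hinj i hi j hj
      apply him.inj_a (hρ' i hi).1 (hρ' j hj).1
      rw [(hρ' i hi).2.1, (hρ' j hj).2.1, hij]
    · refine ⟨⟨?_, ?_, ?_⟩, ?_, ?_⟩
      · intro i hi j hj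
        have h3 := hO.lad.im i hi j hj
        simp only [(hρ' i hi).2.1, (hρ' j hj).2.1, (hρ' i hi).2.2, (hρ' j hj).2.2] at h3
        exact h3
      · intro i hi j hj
        have h3 := hO.lad.xb i hi j hj
        simp only [(hρ' j hj).2.2] at h3
        exact h3
      · intro i hi j hj
        have h3 := hO.lad.xa i hi j hj
        simp only [(hρ' j hj).2.1] at h3
        exact h3
      · intro i hi j hj
        have h3 := hO.wa i hi j hj
        simp only [(hρ' j hj).2.1] at h3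
        exact h3
      · intro i hi j hj
        have h3 := hO.wb i hi j hj
        simp only [(hρ' j hj).2.2] at h3
        exact h3
  · have h2' : N ≤ S₂.card := by omega
    obtain ⟨ρ, hρ, hρo⟩ := enumNO S₂ N h2'
    have hρ' : ∀ i < N, ρ i < 2 * N ∧ a' (ρ i) = b (σ (ρ i)) ∧ b' (ρ i) = a (σ (ρ i)) := by
      intro i hi
      have h3 := hρ i hi
      rw [hS₂, Finset.mem_filter, Finset.mem_range] at h3
      exact h3
    have hinj : ∀ i < N, ∀ j < N, ρ i = ρ j → i = j := fun i hi j hj hij => by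
      have h3 := (hρo i hi j hj).1 hij.le
      have h4 := (hρo j hj i hi).1 hij.ge
      omega
    have hO := h.sub ρ (fun i hi => (hρ' i hi).1) hρo
    have hO' : OL D N (fun i => b (σ (ρ i))) (fun i => a (σ (ρ i))) (fun i => x (ρ i))
        fun i => w (ρ i) := by
      refine ⟨⟨?_, ?_, ?_⟩, ?_, ?_⟩
      · intro i hi j hj
        have h3 := hO.lad.im i hi j hj
        simp only [(hρ' i hi).2.1, (hρ' j hj).2.1, (hρ' i hi).2.2, (hρ' j hj).2.2] at h3
        exact h3
      · intro i hi j hj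
        have h3 := hO.lad.xb i hi j hj
        simp only [(hρ' j hj).2.2] at h3
        exact h3
      · intro i hi j hj
        have h3 := hO.lad.xa i hi j hj
        simp only [(hρ' j hj).2.1] at h3
        exact h3
      · intro i hi j hj
        have h3 := hO.wa i hi j hj
        simp only [(hρ' j hj).2.1] at h3
        exact h3
      · intro i hi j hj
        have h3 := hO.wb i hi j hj
        simp only [(hρ' j hj).2.2] at h3
        exact h3
    have hR := h1 N V D (fun i => a (σ (ρ i))) (fun i => b (σ (ρ i))) _ _ hO'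
    have key : ∀ i < N, N - 1 - i < N := fun i hi => by omega
    refine ⟨fun i => σ (ρ (N - 1 - i)), _, _, fun i hi => (hσ _ (hρ' _ (key i hi)).1).1, ?_, hR⟩
    intro i hi j hj (hij : σ (ρ (N - 1 - i)) = σ (ρ (N - 1 - j)))
    have h3 : ρ (N - 1 - i) = ρ (N - 1 - j) := by
      apply him.inj_a (hρ' _ (key i hi)).1 (hρ' _ (key j hj)).1
      rw [(hρ' _ (key i hi)).2.1, (hρ' _ (key j hj)).2.1, hij]
    have h4 := hinj _ (key i hi) _ (key j hj) h3
    omega

/-- **`S_NO`** -/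
theorem pNO (h1 : S_Dich) (h2 : S_Win) (h3 : S_TT) (h4 : S_B1) (h5 : S_IIh) (h6 : S_OLmix) :
    S_NO := by
  intro s k m₀ N' β
  obtain ⟨c₁, hc₁⟩ := h3 s k m₀ 2
  obtain ⟨c₂, hc₂⟩ := h5 k m₀
  obtain ⟨t₁, ht₁⟩ := hc₁ (β c₁)
  obtain ⟨t₂, ht₂⟩ := hc₂ (β c₂)
  obtain ⟨t₃, ht₃⟩ := h4 k (β 3)
  obtain ⟨r, hr⟩ := h2 k (max t₂ t₃) (2 * N')
  obtain ⟨n, hn⟩ := h1 k r t₁
  refine ⟨max (max c₁ c₂) 3, n, ?_⟩
  intro V _ D hT hE hN hC hL a b him
  rcases hn V D a b hT hN him with ⟨σ, -, -, hcm⟩ | ⟨σ, a', b', x, hσ, hlad⟩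
  · exfalso
    obtain ⟨X, hX, hX1, hX2⟩ := ht₁ V D t₁ _ _ hT hE hN hC hcm le_rfl
    exact Rep.link_false hL (c := c₁) (by omega) hX hX1 hX2
  · obtain ⟨τ, hτ1, hτ2, h7 | ⟨y, h7⟩ | ⟨w, h7⟩⟩ := hr V D a' b' x hT hN hlad
    · exfalso
      have h8 : FrT D t₃ (fun i => a' (τ i)) (fun i => b' (τ i)) fun i => x (τ i) := by
        refine ⟨⟨⟨h7.fr.lad.im.mono (by omega), ?_, ?_⟩, ?_, ?_⟩, ?_⟩
        · exact fun i hi j hj => h7.fr.lad.xb i (by omega) j (by omega)
        · exact fun i hi j hj => h7.fr.lad.xa i (by omega) j (by omega)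
        · intro v
          rcases h7.fr.tb v with h8 | ⟨q, h8 | h8⟩
          · exact Or.inl fun i hi j hj => h8 i (by omega) j (by omega)
          · exact Or.inr ⟨q, Or.inl fun j hj => h8 j (by omega)⟩
          · exact Or.inr ⟨q, Or.inr fun j hj => h8 j (by omega)⟩
        · exact fun v i hi j hj => h7.fr.ex v i (by omega) j (by omega)
        · intro v
          rcases h7.ta v with h8 | h8
          · exact Or.inl fun i hi j hj => h8 i (by omega) j (by omega)
          · exact Or.inr fun j hj => h8 j (by omega)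
      obtain ⟨X, hX, hX1, hX2⟩ := ht₃ V D _ _ _ hT hN h8
      exact Rep.link_false hL (c := 3) (by omega) hX hX1 hX2
    · exfalso
      obtain ⟨X, hX, hX1, hX2⟩ := ht₂ V D _ _ _ _ _ hT hN hC h7 (le_max_left t₂ t₃)
      exact Rep.link_false hL (c := c₂) (by omega) hX hX1 hX2
    · exact h6 N' V D a b (fun i => a' (τ i)) (fun i => b' (τ i)) _ _ (fun i => σ (τ i)) n
        (fun i hi => hσ _ (hτ1 i (by omega))) h7

end Pool.Agent.MPd439b2.SA
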