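import Pool.Agent.Lib.MP_d439b2_co.SA.SpecTT

/-!
# MP_d439b2_co, SA: parity (`S_Par`)
-/

set_option autoImplicit false

namespace Pool.Agent.MPd439b2.SA

open Pool.Agent.MPd439b2 Pool.Agent.MPd439b2.W

/-- a covering vertex sees exactly one end of every edge -/
private theorem hParAux.flip {V : Type} {D : SimpleGraph V} {K : Set V} {f : V} (ht : TriFree D)
    (hf : ∀ p q, ¬ Unc D K f p q) {p q : V} (hp : p ∈ K) (hq : q ∈ K) (hpq : D.Adj p q) :
    (D.Adj f q ↔ ¬ D.Adj f p) := by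
  constructor
  · intro h1 h2
    exact ht f p q h2 h1 hpq
  · intro h1
    by_contra h2
    exact hf p q ⟨hp, hq, hpq, h1, h2⟩

theorem hPar : S_Par := by
  intro V D K f g c ht hK hf hg hc hfg v hv
  have h1 : {v | v ∈ K ∧ (D.Adj f v ↔ D.Adj g v)} = K := by
    refine Conn.eq_of_nb hK (fun v hv => hv.1) (C := {v | v ∈ K ∧ (D.Adj f v ↔ D.Adj g v)})
      ⟨c, hc, hfg⟩ ?_
    rintro w hw ⟨h1, b, hb, hbw⟩
    refine h1 ⟨hw, ?_⟩
    rw [hParAux.flip ht hf hb.1 hw hbw, hParAux.flip ht hg hb.1 hw hbw, hb.2]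
  rw [← h1] at hv
  exact hv.2

end Pool.Agent.MPd439b2.SA
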