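import Pool.Agent.Lib.MP_d439b2_co.SA.Defs
import Pool.Agent.Lib.MP_d439b2_co.Rep.Pat3
import Pool.Agent.Lib.MP_d439b2_co.Rep.Cut

/-!
# MP_d439b2_co, SA, Spec A: the engine, patterns, ladders (helper13)

Every `S_...` is a statement to be proved in its own file; the docstring contains the complete proof.
`v ~ w` means `D.Adj v w`; for blocks `C ~ C'` means `Cmp D C C'`.  `Cmp` is symmetric (`W.Cmp.symm`).  In a
triangle-free graph nonempty blocks which are complete to a common nonempty block are not complete to each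
other.  A vertex of an induced matching is adjacent to exactly one vertex of the matching.
-/

set_option autoImplicit false

namespace Pool.Agent.MPd439b2.SA

open Pool.Agent.MPd439b2 Pool.Agent.MPd439b2.W

/-! ## A. the engine -/

/-- **A1.** The engine: centre `C`, two legs from edges of the block matching, the third leg `B0, B1, B2`.

Proof. Suppose that there are `k` different indices `r 0, .., r (k - 1) ∈ I` which are not touched by `C`; they are
different from `i, j`.  Let `X_i` be one of `P i`, `Q i` with `C ~ X_i`, `Y_i` the other one, `X_j, Y_j` similarly.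
`g = ![C, X_i, Y_i, X_j, Y_j, B0, B1, B2]`, `p t = P (r t)`, `q t = Q (r t)`.
Complete pairs: `C X_i`, `X_i Y_i`, `C X_j`, `X_j Y_j`, `C B0`, `B0 B1`, `B1 B2`.
Not complete: `C Y_i` (common `X_i`), `C Y_j`, `C B1` (common `B0`), `C B2` (hypothesis); `X_i, Y_i` and `X_j, Y_j`:
`BMt`; the `X`, `Y` and `B0, B1, B2`: `Unt`; `B0 B2` (common `B1`).
Disjoint: complete blocks are disjoint (no loops); `C B1`, `C B2`, `B0 B2` by hypothesis; `C` and the blocks of the
matching: `Off`; the rest `BMt`, `Unt`.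
The edges `P (r t), Q (r t)`: `BMt` for each other and for `X, Y`; `Unt` for `B0, B1, B2`; `Off` and not touched for
`C`.  So `Spi D k g p q`: contradiction. -/
def S_L3 : Prop := ∀ (k : ℕ) (V : Type) (D : SimpleGraph V) (I : Finset ℕ) (P Q : ℕ → Finset V)
  (C B0 B1 B2 : Finset V) (i j : ℕ), TriFree D → NoSpi k D → BMt D I P Q →
  C.Nonempty → B0.Nonempty → B1.Nonempty → B2.Nonempty →
  Off I P Q C → Unt D I P Q B0 → Unt D I P Q B1 → Unt D I P Q B2 →
  Disjoint C B1 → Disjoint C B2 → Disjoint B0 B2 →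
  Cmp D C B0 → Cmp D B0 B1 → Cmp D B1 B2 → ¬ Cmp D C B2 →
  i ∈ I → j ∈ I → i ≠ j → Tc D P Q C i → Tc D P Q C j →
  ∀ R : Finset ℕ, R ⊆ I → (∀ r ∈ R, ¬ Tc D P Q C r) → R.card < k

/-- **A2.** The rules R1, R2, R3 for blocks.  (Uses `S_L3`.)

Proof. Let `i, j ∈ I` be different, touched by `C` and not by `C'` (the set in the hypothesis has at least two
elements), `R` the set of the indices touched by neither, `k ≤ |R|`, `I' = {i, j} ∪ R` (`BMt` and `Off` for `I'`
follow from those for `I`; no index of `I'` is touched by `C'`).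
(1) If `¬ Cmp D C C'`, and the second alternative holds at `l`: `C ~ X_l`, `C' ~ Y_l` (`{X_l, Y_l} = {P l, Q l}`).
S_L3 with `I'`, `B0 = X_l`, `B1 = Y_l`, `B2 = C'` (`l ∉ I'` as `l` is touched by both; `B0`, `B1` are untouched by
`BMt`; `C'` by the definition of `I'`; `C` and `Y_l`, `X_l` and `C'` are disjoint by `Off`): `|R| < k`, contradiction.
As `C` and `C'` touch `l`, one of the two alternatives holds.
(2) If `Cmp D C C'` then the first alternative at `l` is impossible (triangle `C, C', X_l`), so the second holds.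
(3) Let `m ∈ I` be touched by `C'` and not by `C`, `C' ~ X_m`.  `m ∉ I'`.  If `Cmp D C C'`: S_L3 with `B0 = C'`,
`B1 = X_m`, `B2 = Y_m` (`C` is not complete to `Y_m` as it does not touch `m`).  If `¬ Cmp D C C'`: by (1) `C` and `C'` are
complete to the same block `X_l`; S_L3 with `B0 = X_l`, `B1 = C'`, `B2 = X_m` (`l ≠ m`).  Contradiction. -/
def S_R : Prop := ∀ (k : ℕ) (V : Type) (D : SimpleGraph V) (I : Finset ℕ) (P Q : ℕ → Finset V)
  (C C' : Finset V), TriFree D → NoSpi k D → BMt D I P Q → C.Nonempty → C'.Nonempty →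
  Disjoint C C' → Off I P Q C → Off I P Q C' →
  (∃ R ⊆ I, k ≤ R.card ∧ ∀ r ∈ R, ¬ Tc D P Q C r ∧ ¬ Tc D P Q C' r) →
  (∃ i ∈ I, ∃ j ∈ I, i ≠ j ∧ Tc D P Q C i ∧ Tc D P Q C j ∧ ¬ Tc D P Q C' i ∧ ¬ Tc D P Q C' j) →
  ∀ l ∈ I, Tc D P Q C l → Tc D P Q C' l →
    (∀ m ∈ I, Tc D P Q C' m → Tc D P Q C m) ∧
    (¬ Cmp D C C' → (Cmp D C (P l) ∧ Cmp D C' (P l)) ∨ (Cmp D C (Q l) ∧ Cmp D C' (Q l))) ∧
    (Cmp D C C' → (Cmp D C (P l) ∧ Cmp D C' (Q l)) ∨ (Cmp D C (Q l) ∧ Cmp D C' (P l)))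

/-- **A3.** The rules R1, R2, R3 for two vertices and an induced matching, on a set `I` of indices.  (Uses
`S_R`.)

Proof. `P i = {a i}`, `Q i = {b i}`; `Tc D P Q {v} i` iff `i ∈ Jt D n a b v` for `i < n`.  `v` touches at least two edges,
so it is not a vertex of the matching.  If `v'` is not a vertex of the matching: S_R with `C = {v}`, `C' = {v'}`.  If
`v' = a m` (or `b m`), `m < n`: `Jt v' = {m}`, so `l = m`, and `Jt v' ⊆ Jt v`.  `v' = a l ~ b l`.  `v ~ v'`: `v ~ a l`,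
`v' ~ b l`: opposite ends.  `v ≁ v'`: `v` touches `l` and `v ≁ a l`, so `v ~ b l` and `v' ~ b l`: the same end.  The case
`v' = b m` is symmetric. -/
def S_RV : Prop := ∀ (k n : ℕ) (V : Type) (D : SimpleGraph V) (a b : ℕ → V) (I : Finset ℕ)
  (v v' : V), TriFree D → NoSpi k D → IM D n a b → I ⊆ Finset.range n → v ≠ v' →
  (∃ R ⊆ I, k ≤ R.card ∧ ∀ r ∈ R, r ∉ Jt D n a b v ∧ r ∉ Jt D n a b v') →
  (∃ i ∈ I, ∃ j ∈ I, i ≠ j ∧ i ∈ Jt D n a b v ∧ j ∈ Jt D n a b v ∧ i ∉ Jt D n a b v' ∧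
    j ∉ Jt D n a b v') →
  ∀ l ∈ I, l ∈ Jt D n a b v → l ∈ Jt D n a b v' →
    (∀ m ∈ I, m ∈ Jt D n a b v' → m ∈ Jt D n a b v) ∧
    (¬ D.Adj v v' → (D.Adj v (a l) ∧ D.Adj v' (a l)) ∨ (D.Adj v (b l) ∧ D.Adj v' (b l))) ∧
    (D.Adj v v' → (D.Adj v (a l) ∧ D.Adj v' (b l)) ∨ (D.Adj v (b l) ∧ D.Adj v' (a l)))

/-! ## B. the link to induced minors; patterns which contain everything -/

/-- **A4.** From `K_s ∨ co(S_{2,2,3} + 4 P_2)` to merged spiders.

Proof. Let `Spi D (4 + 2 s) g p q`.  Every block is complete to another (nonempty) block, so there are no edges of `D`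
inside a block (no triangles): it is a clique of `Dᶜ`.  Model of `KCo s F0` in `Dᶜ`: `inr i ↦ g i` for `i < 8`,
`inr (8 + 2 t) ↦ p t`, `inr (9 + 2 t) ↦ q t` for `t < 4`, and `inl c ↦ Z_c = p t ∪ q t ∪ p u` with `t = 4 + 2 c`,
`u = 5 + 2 c`.  `Z_c` is connected in `Dᶜ`: `p t`, `q t`, `p u` are cliques of `Dᶜ`, and `p u` is disjoint from and not
complete (in `D`) to `p t` and to `q t`, so there are edges of `Dᶜ`.  `Z_c` is joined by an edge of `Dᶜ` to every other
set of the model: `p t` is disjoint from it and not complete to it (for `Z_{c'}`: not complete to `p t'`).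
Two different sets among `g i`, `p t`, `q t` are disjoint, so they are joined by an edge of `Dᶜ` iff they are not
complete iff the vertices are not adjacent in `F0`.  (`ims_univ_iff`, `conn_iff` as in the file Mod of W.) -/
def S_Link : Prop := ∀ (s : ℕ) (V : Type) (D : SimpleGraph V), TriFree D →
  ¬ IsIndMinor (KCo s F0) Dᶜ → NoSpi (4 + 2 * s) D

/-- **A5.** No large co-matchings.

Proof. `N = 8 + 2 k`, `m = N * N + 3`.  Let `F` be the graph on `0, .., N - 1` with the spider on `0, .., 7` and the edges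
`(8 + 2 t, 9 + 2 t)`, `t < k`; colour `true`: `0, 2, 4, 6` and `8 + 2 t`; colour `false`: `1, 3, 5, 7` and `9 + 2 t`
(adjacent vertices have different colours).  Let `a, b` be a co-matching of size `m`.  For two different indices
`t, u < m` there is a third index `x`; `a t ≠ a u`, `a t ≁ a u` (common neighbour `b x`), the same for `b`;
`a t ≠ b t`: otherwise `a t = b t` is adjacent to `b u` and `a x`, and `a x ~ b u`: triangle; `a t ≠ b u` as they are
adjacent.  `code i j = i * N + j` (injective on `i, j < N`).  For `i < N` let `I i` be the set of `code i i` and of all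
`code i j`, `code j i` with `j < N`, `col j ≠ col i`, `¬ F.Adj i j`.  For `i ≠ j`: if the colours are equal or
`F.Adj i j` then `I i ∩ I j = ∅` (a common element is `code x y` with `{x, y} = {i, j}`), otherwise `code i j` is in
both.  Block of `i`: `{a t | t ∈ I i}` if the colour is `true`, `{b t | t ∈ I i}` otherwise.  Blocks of the same colour
are disjoint and not complete (`a t ≁ a u`, `t ≠ u`); blocks of different colours are disjoint (`a t ≠ b u`) and
complete iff `I i ∩ I j = ∅` iff `F.Adj i j`.  This is `Spi D k g p q` with `g i` = block `i`, `p t` = block `8 + 2 t`,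
`q t` = block `9 + 2 t`. -/
def S_CoMs : Prop := ∀ k : ℕ, ∃ m : ℕ, ∀ (V : Type) (D : SimpleGraph V), TriFree D → NoSpi k D →
  ¬ CoM D m

/-- **A6.** T1: opposite half graphs at a common rail.

Proof. `n = 20 + 6 k + 10`.  `t 0` is adjacent to all `a i` and `a (n - 1)` to all `t j`, `a 0` to all `t' j`.  So the `a i`
are pairwise not adjacent (common neighbour `t 0`), the `t j` too, the `t' j` too.  They are different: `t j ~ a (n - 1)`
and `a i ≁ a (n - 1)`; `t' j ~ a 0`; the `t j` with different `j` have different traces on the `a i`; for `1 ≤ j` we have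
`t j ≁ a 0`, `t' l ~ a 0`.
For `p < q` let `A[p,q] = {a p, a q}`, and `B[j,l] = {t j, t' l}`; `A[p,q]` is complete to `B[j,l]` iff `j ≤ p` and
`q ≤ l`.  `A`-blocks are not complete to each other, `B`-blocks are not complete to each other (`t j ≁ t j'`).
`g 0 = A[7,8]`, `g 1 = B[1,9]`, `g 2 = A[2,3]`, `g 3 = B[4,11]`, `g 4 = A[5,10]`, `g 5 = B[6,15]`, `g 6 = A[13,14]`,
`g 7 = B[12,16]`, `p t = A[21 + 6 t, 22 + 6 t]`, `q t = B[20 + 6 t, 23 + 6 t]`.  All indices of the `a`'s are different, all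
indices of the `t`'s are different, all indices of the `t'`'s are different.  The complete pairs: `A[7,8]` with
`B[1,9]`, `B[4,11]`, `B[6,15]`; `A[2,3]` with `B[1,9]`; `A[5,10]` with `B[4,11]`; `A[13,14]` with `B[6,15]`, `B[12,16]`;
`p t` with `q t`; no others (check the two inequalities). -/
def S_T1 : Prop := ∀ k : ℕ, ∃ n : ℕ, ∀ (V : Type) (D : SimpleGraph V) (a t t' : ℕ → V),
  TriFree D → NoSpi k D → (∀ i < n, ∀ j < n, (D.Adj (a i) (t j) ↔ j ≤ i)) →
  ¬ ∀ i < n, ∀ j < n, (D.Adj (a i) (t' j) ↔ i ≤ j)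

/-- **A7.** T2 for two matchings, complete to each other crosswise.

Proof. The `u i` have a common neighbour (`w 0`), the `v i` (`f 0`), the `f i` (`v 0`), the `w i` (`u 0`): each of the four
families is independent; `u i ≁ f j` (common neighbour `w j`: `u i ~ w j`, `f j ~ w j`) and `v i ≁ w j` (common
neighbour `f j`).  All `4 n` vertices are different (`u i ≠ u j`, as `u i ~ v i`, `u j ≁ v i`; `u i ≠ f j`: `f j ~ v l` for all `l`, `u i ~ v l` only for `l = i`; adjacent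
vertices are different; `u i`, `v j`: `u i ~ w l` and `v j ≁ w l`; `f i`, `w j`: `f i ~ v l`, `w j ≁ v l`; `v`, `w`:
`w j ~ u l` for all `l`).
`g 0 = {f 0}`, `g 1 = {v 1}`, `g 2 = {f 1, u 1}`, `g 3 = {v 2}`, `g 4 = {f 2, u 2}`, `g 5 = {v 3}`, `g 6 = {f 3, u 3}`,
`g 7 = {w 3}`, `p t = {f (4 + t), u (4 + t)}`, `q t = {w (4 + t), v (4 + t)}`.
Complete: `f 0 ~ v i`; `{f i, u i} ~ v i`; `{f 3, u 3} ~ w 3`; `p t ~ q t`.  Not complete: `f 0 ≁ w 3`,
`{f i, u i}` and `v j` (`u i ≁ v j`), `{f i, u i}` and `w 3` for `i ≠ 3` (`f i ≁ w 3`), `p t` and `v i` (`u`), `p t` and `w 3`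
(`f`), `q t` and `f 0` (`w`), `q t` and `{f i, u i}` (`w (4 + t) ≁ f i`), `p t` and `q t'`; all pairs on the same side. -/
def S_T2MM : Prop := ∀ (k : ℕ) (V : Type) (D : SimpleGraph V) (u v f w : ℕ → V),
  TriFree D → NoSpi k D → (∀ i < k + 4, ∀ j < k + 4, (D.Adj (u i) (v j) ↔ i = j)) →
  (∀ i < k + 4, ∀ j < k + 4, (D.Adj (f i) (w j) ↔ i = j)) →
  (∀ i < k + 4, ∀ j < k + 4, D.Adj (f i) (v j)) → ¬ ∀ i < k + 4, ∀ j < k + 4, D.Adj (u i) (w j)

/-- **A8.** T2 for a half graph and a matching, complete to each other crosswise.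

Proof. As in A7 the four families are independent (`x`: common neighbour `w 0`; `b`: `f 0`; `f`: `b 0`; `w`: `x 0`),
`x i ≁ f j` (common neighbour `w j`), `b i ≁ w j` (common neighbour `f j`), all vertices are different (`x i`, `f j`: `f j ≁ w l`
for `l ≠ j`, `x i ~ w l`; `b`, `w`: `w j ≁ f l` for `l ≠ j`, `b i ~ f l`; `x i ≠ b j`: `x i ~ w l`, `b j ≁ w l`;
`f i ≠ w j`: `f i ~ b l`, `w j ≁ b l`; `x i ≠ x j` by the traces on `b`, `b i ≠ b j`, `f i ≠ f j`, `w i ≠ w j` too).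
Let `c = k + 1`.
`g 0 = {x c}`, `g 1 = {w 1, b (k + 2)}`, `g 2 = {f 1, x (k + 2)}`, `g 3 = {w 2, b (k + 3)}`,
`g 4 = {f 2, x (k + 3)}`, `g 5 = {w 3, b (k + 4)}`, `g 6 = {f 3}`, `g 7 = {b 0}`,
`p t = {f (4 + t), x (1 + t)}`, `q t = {w (4 + t), b (1 + t)}`, `t < k`.
Complete: `x c ~ w`, `x c ~ b j` for `j ≥ c`; `g 1 g 2`: `f 1 ~ w 1`, `f ~ b`, `x ~ w`, `x (k + 2) ~ b (k + 2)`; `g 3 g 4`;
`f 3 ~ w 3`, `f 3 ~ b`; `f 3 ~ b 0`; `p t q t`.
Not complete: `x c ≁ b 0`; `g 1 g 4`, `g 3 g 2`, `g 5 g 2`, `g 5 g 4`, `g 1 g 6`, `g 3 g 6` (`w i ≁ f j`, `i ≠ j`); `g 2 g 7`,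
`g 4 g 7` (`x i ≁ b 0`, `i ≥ 1`); `q t` and `g 0` (`x c ≁ b (1 + t)`, `1 + t < c`), `p t` and `g 1, g 3, g 5` (`f ≁ w`),
`q t` and `g 2, g 4, g 6` (`w ≁ f`), `p t` and `g 7` (`x (1 + t) ≁ b 0`), `p t` and `q t'` (`f ≁ w`); pairs on the same side are
not adjacent at all. -/
def S_T2MH : Prop := ∀ (k : ℕ) (V : Type) (D : SimpleGraph V) (x b f w : ℕ → V),
  TriFree D → NoSpi k D → (∀ i < k + 10, ∀ j < k + 10, (D.Adj (x i) (b j) ↔ i ≤ j)) →
  (∀ i < k + 10, ∀ j < k + 10, (D.Adj (f i) (w j) ↔ i = j)) →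
  (∀ i < k + 10, ∀ j < k + 10, D.Adj (f i) (b j)) →
  ¬ ∀ i < k + 10, ∀ j < k + 10, D.Adj (x i) (w j)

/-- **A9.** Bounded rank between two sets which are complete to the two sides of an induced matching.  (Uses
`S_CoMs`, `S_T2MM`, `S_T2MH`.)

Proof. `m = max (m₀ k) (k + 10)` with `m₀` of `S_CoMs`, `ρ` from `Rep.rk3 m`.  Suppose `Has3 D X Y m`: `x i ∈ X`,
`y i ∈ Y`.  `x i ~ y j` iff `i = j`: S_T2MM with `u = a`, `v = b`, `f = x`, `w = y` (`x i ~ b j`, `a i ~ y j`).
`x i ~ y j` iff `i ≠ j`: `CoM D m`, so `CoM D m₀`.  `x i ~ y j` iff `i ≤ j`: S_T2MH with `x, b := x, y` and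
`f, w := a, b` (`a i ~ y j`, `x i ~ b j`).  (Restrict to the first `k + 4` resp. `k + 10` indices.)
The last claim: up to `e` exceptions.  Then for a pattern of size `m` the at most `2 m` vertices miss at most `2 m e`
of the indices `i < N`; delete these indices. -/
def S_Rk0 : Prop := ∀ k e : ℕ, ∃ ρ N : ℕ, ∀ (V : Type) [Finite V] (D : SimpleGraph V)
  (a b : ℕ → V) (X Y : Set V), TriFree D → NoSpi k D → IM D N a b →
  (∀ x ∈ X, ∃ E : Finset ℕ, E.card ≤ e ∧ ∀ i < N, i ∉ E → D.Adj x (b i)) →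
  (∀ y ∈ Y, ∃ E : Finset ℕ, E.card ≤ e ∧ ∀ i < N, i ∉ E → D.Adj y (a i)) → LK.rk D X Y ≤ ρ

/-! ## C. an induced matching is clean, or there is a ladder -/

/-- **A10.** Chains of traces.

Proof. Define `f 0 = 1`, `f (t + 1) = s * f t + 1`, `n = f R`.  CLAIM by induction on `t`: if `f t ≤ |I|` then there are
`v 0, .., v (t - 1)` and `J 0 = I ⊇ J 1 ⊇ .. ⊇ J t` as in the first alternative (with `t` instead of `R`), or the second
alternative holds with some `m ≤ n`.  `t = 0`: `J 0 = I` is not empty.  Step: `f (t + 1) ≤ |I|`.  If there is `v` with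
`f t ≤ |I ∩ T v|` and `q ≤ |I \ T v|` then use induction for `I ∩ T v` (and put `v` in front).  Otherwise the second
alternative holds with `I' = I`, `m = f t` (`s * m < |I|`). -/
def S_Chn : Prop := ∀ q R s : ℕ, ∃ n : ℕ, ∀ (V : Type) (T : V → Finset ℕ) (I : Finset ℕ),
  n ≤ I.card →
  (∃ (v : ℕ → V) (J : ℕ → Finset ℕ), J 0 = I ∧ (J R).Nonempty ∧
    ∀ t < R, J (t + 1) = J t ∩ T (v t) ∧ q ≤ (J t \ T (v t)).card) ∨
  ∃ (I' : Finset ℕ) (m : ℕ), I' ⊆ I ∧ 1 ≤ m ∧ s * m < I'.card ∧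
    ∀ v, (I' ∩ T v).card < m ∨ (I' \ T v).card < q

/-- **A11.** Mixed sign patterns.  (Uses `S_T1`.)

Proof. `m' = 2 + max n₁ m` (`n₁` of `S_T1`), `N` the number of `W.S_RamC` (`ramC`) for `κ = Prop × Prop` and `m'`.  For `s < t` let
`χ s t = (v t ~ b s, v s ~ b t)`.  We get indices (rename them `0, .., m' - 1`) with constant values `(ε, δ)` for
`s < t`.  `v t` touches `s` for `s ≠ t`.  Note that `v t ≁ a s` if `v t ~ b s` (no triangles).
`(true, true)`: `v t ~ b s` iff `s ≠ t` (`v t` does not touch `t`): `CoM D m'`, so `CoM D m`.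
`(false, false)`: `v t ~ a s` iff `s ≠ t`: `CoM D m` again.
`(true, false)`: for `s < t`: `v t ~ b s`, `v s ≁ b t`, `v s ~ a t`, `v t ≁ a s`.  So `v i ~ b j` iff `j < i`, `v i ~ a j` iff
`i < j`.  S_T1 with `a i := v (i + 1)`, `t j := b j`, `t' j := a (j + 2)`: `v (i + 1) ~ b j` iff `j ≤ i`;
`v (i + 1) ~ a (j + 2)` iff `i ≤ j`.
`(false, true)`: `v i ~ a j` iff `j < i`, `v i ~ b j` iff `i < j`: exchange `a`, `b`. -/
def S_Sgn : Prop := ∀ k m : ℕ, ∃ N : ℕ, ∀ (V : Type) (D : SimpleGraph V) (v a b : ℕ → V),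
  TriFree D → NoSpi k D → ¬ CoM D m → IM D N a b → (∀ i < N, ¬ D.Adj (v i) (a i) ∧ ¬ D.Adj (v i) (b i)) →
  ¬ ∀ i < N, ∀ j < N, i ≠ j → (D.Adj (v i) (a j) ∨ D.Adj (v i) (b j))

/-- **A12.** A chain of traces gives a ladder.  (Uses `S_RV`, `S_Sgn`, `S_CoMs`, `S_T1`.)

Proof. `m₀` from `S_CoMs`, `N₁` from `S_Sgn` for `m₀`; `m' = max N₁ (2 r + 8)`; `R` the number of Ramsey (`ramC`) for
`κ = Prop` and `m'`; `q = k * R + k + 2`.  `T v = Jt D n a b v`.  Let `v, J` be the chain, `I = J 0 ⊆ range n`.  For `t < R`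
choose (after the fact) nothing yet.  Note `J t ⊆ T (v s)` for `s < t`, and `J` is decreasing.
(1) CLAIM: for `s < t < R` either `T (v t) ∩ (J s \ T (v s)) = ∅`, or `|(J s \ T (v s)) \ T (v t)| < k`.  Suppose the
second is false; consider the indices in `I = J s`.  The vertex `v s` touches
`J (s + 1)`; `v t` misses at least `q ≥ 2` elements of `J t ⊆ J (s + 1)`, and touches the elements of `J (t + 1)`
(`J R ≠ ∅`), which are touched by `v s` too; `v s ≠ v t`.  At least `k` indices are touched by neither.  S_RV for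
`v = v s`, `v' = v t`: `T (v t) ∩ J s ⊆ T (v s)`: first alternative.
(2) Ramsey with `χ s t` = the first alternative.  We get `s 0 < .. < s (m' - 1)` with constant colour.
(3) Colour false (second alternative): for every `s = s i` choose `e_s ∈ J s \ T (v s)` which is in `T (v t)` for all
`t = s j > s`: each of the at most `R` vertices `v t` misses less than `k` of the at least `q > k R` elements.  So
`v t` touches `e_s` for `s < t`; for `s > t`: `e_s ∈ J s ⊆ J (t + 1) ⊆ T (v t)`; `v t` does not touch `e_t`.  The `e_s`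
are different (`e_s ∉ T (v s)`, `e_t ∈ J t ⊆ T (v s)` for `s < t`).  `S_Sgn`: contradiction.
(4) Colour true: let `e_s ∈ J s \ T (v s)` be any element (`s = s i`), different as before.  `v t` touches `e_s` iff
`t < s` (for `s > t` as in (3); `s = t` clear; `s < t`: `T (v t) ∩ (J s \ T (v s)) = ∅`).  Write `v_i = v (s i)`, `e_i`.  Let
`R₀ ⊆ J (s 0) \ T (v (s 0))` have `k` elements different from `e_0`; they are not touched by any `v_i`: (for `i ≥ 1` colour
true).  Consider the set of indices `R₀ ∪ {e_0, .., e_{m' - 1}}`.  For `i ≥ 3`: `v_0` touches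
`e_1, e_2, ..`, `v_i` touches `e_{i + 1}, ..`.  S_RV with `v = v_0`, `v' = v_i` (they differ at `e_1, e_2`), for every
`l = e_j`, `j > i`: if `v_0 ≁ v_i` then `v_0` and `v_i` see the same end of every edge `e_j`, `j > i`; if `v_0 ~ v_i` then
they see opposite ends of all of them.  Let `b'_j` be the end of the edge `e_j` (`j ≥ 1`) seen by `v_0`, `a'_j` the other
end.  The induced matching `a'_j, b'_j` (`1 ≤ j < m'`; exchange the ends where necessary, `IM` is preserved).  Every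
`v_i` (`3 ≤ i < m' - 1`) sees either all `b'_j` (`j > i`) and no `a'_j`, or all `a'_j` (`j > i`) and no `b'_j`, and touches no
edge `j ≤ i`.  At least `r + 1` of the at least `2 r + 4` indices `i` have the same kind, say `i_0 < .. < i_r`; in the second kind
exchange the names `a'`, `b'`.  `x t = v_{i_t}`, `b'' t = b'_{i_{t + 1}}`, `a'' t = a'_{i_{t + 1}}` for `t < r`: `x t ~ b'' u`
iff `i_t < i_{u + 1}` iff `t ≤ u`; `x t ≁ a'' u`. -/
def S_ChL : Prop := ∀ k r : ℕ, ∃ q R : ℕ, ∀ (n : ℕ) (V : Type) (D : SimpleGraph V) (a b : ℕ → V)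
  (v : ℕ → V) (J : ℕ → Finset ℕ), TriFree D → NoSpi k D → IM D n a b →
  J 0 ⊆ Finset.range n → (J R).Nonempty →
  (∀ t < R, J (t + 1) = J t ∩ Jt D n a b (v t) ∧ q ≤ (J t \ Jt D n a b (v t)).card) →
  ∃ (σ : ℕ → ℕ) (a' b' x : ℕ → V), (∀ i < r, σ i < n ∧ ((a' i = a (σ i) ∧ b' i = b (σ i)) ∨
    (a' i = b (σ i) ∧ b' i = a (σ i)))) ∧ Lad D r a' b' x

/-- **A13.** Selecting a sub-matching on which the light traces are small.

Proof. For `e ∈ I` let `S e` be a member of `F` of maximal size which contains `e`, or `{e}` if there is none; `e ∈ S e`,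
`|S e| ≤ m`.  (1) If `T ∈ F` contains `e` then `|T \ S e| ≤ 1`: `T` and `S e` are members containing `e`, so they are not
disjoint; `T ⊆ S e`: clear; `S e ⊆ T`: `|T| ≤ |S e|`, so `T = S e`; otherwise the last alternative.
(2) Choose `e 0, .., e (r - 1) ∈ I` one after the other such that `e t` is not in `S (e 0) ∪ .. ∪ S (e (t - 1))` (at most
`t m ≤ r m < |I|` elements); they are different.  `N` = the set of the `e t`.  If `T ∈ F` contained three of them,
`e i, e j, e l`, `i < j < l`, then `e j, e l ∈ T \ S (e i)`: contradiction to (1). -/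
def S_Lgt : Prop := ∀ (r m : ℕ) (I : Finset ℕ) (F : Set (Finset ℕ)), 1 ≤ m → r * m < I.card →
  (∀ T ∈ F, T.card ≤ m) →
  (∀ T ∈ F, ∀ T' ∈ F, Disjoint T T' ∨ T ⊆ T' ∨ T' ⊆ T ∨ ((T \ T').card ≤ 1 ∧ (T' \ T).card ≤ 1)) →
  ∃ N ⊆ I, N.card = r ∧ ∀ T ∈ F, (T ∩ N).card ≤ 2

/-- **A14.** Cleaning the full vertices.  (Uses `S_Sgn`, `S_CoMs`, `S_T1`, `W.S_Dig`.)

Proof. `m₀` from `S_CoMs`, `N₁` from `S_Sgn` for `m₀`, `m₁ = max m₀ (n₁ + 2)` (`n₁` of `S_T1`), `ρ` from `Rep.pat3 m₁`,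
`C₁ = (2 q + 1) * N₁`, `n = C₁ + N * 2 ^ ρ + q + 4`.  Call `v` full if it does not touch at most `q` of the indices
`< n`; the other vertices touch at most two edges.
(1) Let `Bd` be the set of the `c < n` which are not touched by some full vertex `f c`.  CLAIM: `|Bd| ≤ C₁`.  Otherwise
`W.S_Dig` (`dig`) with `τ = q`, `R c c' :↔ f c` does not touch `c'`, gives `J ⊆ Bd` with `N₁` elements such that `f c` touches
`c'` for `c ≠ c'` in `J`; `S_Sgn` (enumerate `J`, `IM.comp`): contradiction.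
(2) `G = range n \ Bd`, `N * 2 ^ ρ ≤ |G|`.  Every full vertex touches all `c ∈ G`.  Let `A` be the set of the full
vertices, `B = {b c | c ∈ G}`.  CLAIM: not `Has3 D A B m₁`: let `f i ∈ A`, `b (c i)` be such a pattern, the `c i` are different.
`f i ~ b (c j)` iff `i ≠ j`: `CoM`.  iff `i = j`: then `f i ~ a (c j)` iff `i ≠ j`: `CoM`.  iff `i ≤ j`: then
`f i ~ a (c j)` iff `j < i`; S_T1 with `a i := f (i + 1)`, `t j := a (c j)` (`j < i + 1` iff `j ≤ i`), `t' j := b (c (j + 1))`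
(`i + 1 ≤ j + 1`).  So `Tr D A B` has at most `ρ` elements (`pat3`).  For `c ∈ G` let `κ c` be the set of the traces
`T ∈ Tr D A B` with `b c ∈ T`; at most `2 ^ ρ` values; so there is `G' ⊆ G` with `N` elements on which `κ` is constant.
Then every full `f` sees all `b c` (`c ∈ G'`) or none of them, and in the second case all `a c`, as it touches `c`.
Enumerate `G'`: `a'`, `b'`.  The other vertices touch at most two edges of the smaller matching. -/
def S_Cln : Prop := ∀ k q N : ℕ, ∃ n : ℕ, ∀ (V : Type) (D : SimpleGraph V) (a b : ℕ → V),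
  TriFree D → NoSpi k D → IM D n a b →
  (∀ v, (Jt D n a b v).card ≤ 2 ∨ (Finset.range n \ Jt D n a b v).card ≤ q) →
  ∃ σ : ℕ → ℕ, (∀ i < N, σ i < n) ∧ (∀ i < N, ∀ j < N, σ i = σ j → i = j) ∧
    CMh D 2 N (fun i => a (σ i)) fun i => b (σ i)

/-- **A15.** The first dichotomy.  (Uses `S_RV`, `S_Chn`, `S_ChL`, `S_Lgt`, `S_Cln`.)

Proof. `q, R` from `S_ChL` for `k, r` (we may increase `q`: the hypothesis for a larger `q` is stronger; so `k + 2 ≤ q`);
`n₁` from `S_Cln` for `q`, `N`; `n₂ = max n₁ (k + q + 3)`; `n` from `S_Chn` for `q`, `R`, `s = n₂ + k + 3`.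
Let `IM D n a b`, `T v = Jt D n a b v`, `I = range n`.  First alternative of `S_Chn`: `S_ChL` gives the ladder.
Second alternative: `I'`, `m`, `(n₂ + k + 3) m < |I'|`, and every vertex `v` is light: `|I' ∩ T v| < m`, or
`|I' \ T v| < q`.  Let `F` be the set of the `I' ∩ T v`, `v` light, without the two alternatives both... it is enough:
two members `I' ∩ T v`, `I' ∩ T v'` (`v ≠ v'`) have fewer than `2 m` elements in their union, so at least
`(n₂ + k + 1) m ≥ k` indices of `I'` are touched by neither; S_RV with `I := I'`: if they are not disjoint and `|T v \ T v'| ≥ 2` (on `I'`) then `T v' ⊆ T v`; the same with exchanged roles;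
otherwise both differences have at most one element.  `S_Lgt` with `r := n₂` gives `N' ⊆ I'`, `|N'| = n₂`, every
light vertex touches at most two indices of `N'`.  `S_Cln` for the matching indexed by `N'` (restrict to `n₁`
indices). -/
def S_Dich : Prop := ∀ k r N : ℕ, ∃ n : ℕ, ∀ (V : Type) (D : SimpleGraph V) (a b : ℕ → V),
  TriFree D → NoSpi k D → IM D n a b →
  (∃ σ : ℕ → ℕ, (∀ i < N, σ i < n) ∧ (∀ i < N, ∀ j < N, σ i = σ j → i = j) ∧
    CMh D 2 N (fun i => a (σ i)) fun i => b (σ i)) ∨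
  ∃ (σ : ℕ → ℕ) (a' b' x : ℕ → V), (∀ i < r, σ i < n ∧ ((a' i = a (σ i) ∧ b' i = b (σ i)) ∨
    (a' i = b (σ i) ∧ b' i = a (σ i)))) ∧ Lad D r a' b' x

end Pool.Agent.MPd439b2.SA
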