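import Pool.Agent.Lib.MP_d439b2_co.SA.SpecTT
import Pool.Agent.Lib.MP_d439b2_co.SA.SpecA

/-!
# MP_d439b2_co, SA, Spec II: Step A', case (I,I), two ladders of the same direction (helper24)

`FrI D n a b x y` (SA/Defs): an induced matching `a i, b i`; `x i ~ b j` iff `i ≤ j`; `y i ~ a j` iff `i ≤ j`; every
`b`-trace and every `a`-trace is small or final.  We construct a BAND: everything located between two good levels.

Light vertices (`LU`) touch at most one edge of the matching.  The components of `D[LU]` which have an edge and are seen by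
`x_{k+4}` or `y_{k+4}` are `K l`, `l < N`, with an edge `u l, v l`, such that the mediums `z ∈ XX` see `v l` but not `u l`.
Positions are measured by the sets `J D N v z`.

Every statement is given for the `x`-side; the `y`-side is the same statement for `(b, a, y, x, v, u)`.
Every `S_...` is a statement to be proved in its own file; the docstring contains the complete proof.
`x ~ y` means `D.Adj x y`.  Point models: use `S_Pt` (hypothesis).  `W.IsComp`: `W.exists_isComp`, `W.IsComp.eq` in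
W/BaseM.
-/

set_option autoImplicit false

namespace Pool.Agent.MPd439b2.SA

open Pool.Agent.MPd439b2 Pool.Agent.MPd439b2.W Pool.Agent.MPd439b2.Rep

variable {V : Type}

/-- the light vertices -/
def LU (D : SimpleGraph V) (n : ℕ) (a b : ℕ → V) : Set V := {v | Lt D n a b v}

/-- vertices which miss `b 0, .., b (k + 2)` and see all `b j`, `e ≤ j < n` -/
def XG (D : SimpleGraph V) (k n e : ℕ) (b : ℕ → V) : Set V :=
  {z | (∀ j < k + 3, ¬ D.Adj z (b j)) ∧ ∀ j < n, e ≤ j → D.Adj z (b j)}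

/-- the mediums: they miss `b 0, .., b (k + 7)` and see all `b j`, `e ≤ j < n` -/
def XX (D : SimpleGraph V) (k n e : ℕ) (b : ℕ → V) : Set V :=
  {z | (∀ j < k + 8, ¬ D.Adj z (b j)) ∧ ∀ j < n, e ≤ j → D.Adj z (b j)}

/-- the full vertices: they see all `b j`, `k + 9 ≤ j < n` -/
def FF (D : SimpleGraph V) (k n : ℕ) (b : ℕ → V) : Set V :=
  {f | ∀ j < n, k + 9 ≤ j → D.Adj f (b j)}

/-- the short mediums: they see `b (n - 1)` and miss all `b j`, `j < e - 1` -/
def XS (D : SimpleGraph V) (n e : ℕ) (b : ℕ → V) : Set V :=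
  {z | D.Adj z (b (n - 1)) ∧ ∀ j, j + 1 < e → ¬ D.Adj z (b j)}

/-- the isolated light vertices seen by `x_{k+4}` -/
def WW (D : SimpleGraph V) (k n : ℕ) (a b x : ℕ → V) : Set V :=
  {w | w ∈ LU D n a b ∧ D.Adj (x (k + 4)) w ∧ ∀ w' ∈ LU D n a b, ¬ D.Adj w w'}

/-- **Systems**: the components `K l`, `l < N`, of the light graph -/
structure Sys (D : SimpleGraph V) (k n e N : ℕ) (a b x y u v : ℕ → V) (K : ℕ → Set V) : Prop where
  fr : FrI D n a b x y
  ke : k + 12 ≤ e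
  en : e + 6 ≤ n
  com : ∀ l < N, W.IsComp D (LU D n a b) (K l)
  uK : ∀ l < N, u l ∈ K l
  vK : ∀ l < N, v l ∈ K l
  uv : ∀ l < N, D.Adj (u l) (v l)
  ne : ∀ l < N, ∀ l' < N, l ≠ l' → K l ≠ K l'
  nx : ∀ l < N, ¬ D.Adj (x (k + 4)) (u l)
  ny : ∀ l < N, ¬ D.Adj (y (k + 4)) (v l)
  lo : ∀ l < N, ∀ r < n, r < k + 4 ∨ r = n - 1 → a r ∉ K l ∧ b r ∉ K l
  al : ∀ K', W.IsComp D (LU D n a b) K' → (∃ p ∈ K', ∃ q ∈ K', D.Adj p q) →
    (∃ w ∈ K', D.Adj (x (k + 4)) w ∨ D.Adj (y (k + 4)) w) →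
    (∀ r < n, r < k + 4 ∨ r = n - 1 → a r ∉ K' ∧ b r ∉ K') → ∃ l < N, K' = K l

/-! ### The rules -/

/-- **II1.** The cover.

Proof. If the `b`-trace of `v` has two elements it is `FinS` with the number `q`.  Case 1: it is `{j | q ≤ j}`, `q ≤ n - 2`.
`q ≤ k + 7`: `v ∈ FF`.  `k + 8 ≤ q ≤ e`: `v ∈ XX`.  `e < q`: `v ∈ XS`.  Case 2: it is `{q} ∪ {j | q + 2 ≤ j}`,
`q + 2 ≤ n - 1`.  `q ≤ k + 7`: `FF`.  `k + 8 ≤ q`, `q + 2 ≤ e`: `XX`.  `e < q + 2`: `XS`.  The same for the `a`-trace.  If both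
traces have at most one element then `v` is light, because by `ex` not both are nonempty. -/
def S_ICov : Prop := ∀ (V : Type) (D : SimpleGraph V) (k n e : ℕ) (a b x y : ℕ → V),
  FrI D n a b x y → k + 12 ≤ e → e + 6 ≤ n → ∀ v, v ∈ LU D n a b ∨
    v ∈ FF D k n b ∨ v ∈ XX D k n e b ∨ v ∈ XS D n e b ∨
    v ∈ FF D k n a ∨ v ∈ XX D k n e a ∨ v ∈ XS D n e a

/-- **II2.** (helper13) Vertices `f` which see all `b j`, `i ≤ j`, are complete to the light neighbours of the mediums `z`.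

Proof. Suppose `f ≁ w`.  `w` touches at most one edge; let `p ≠ p'` be two of `i, i + 1, i + 2` which are not touched by `w`,
and let `R` be `k` indices `r ≤ k` not touched by `w` (so `r < i`).  Model: centre the block `{f, x i}`; legs `(b p, a p)`,
`(b p', a p')`, `(b (n - 1), z, w)`; the separate edges `(a r, b r)`, `r ∈ R`; all other blocks are single vertices.
`f` and `x i` see `b p, b p', b (n - 1)`.  Not complete: `{f, x i}` to `a p, a p', a r` (`x i` misses all `a j`), to `b r`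
(`x i ≁ b r`, `r < i`), to `w` (`f ≁ w`), to `z` (`f ≁ z`: common neighbour `b (n - 1)`).  `z ≁ b p, b p', b r` (indices `< q`),
`z ≁ a p, a p', a r` (`ex`, `z ~ b (n - 1)`); `w` is not adjacent to `b (n - 1)` (`z` is a common neighbour), `b p, a p, ..`;
`IM` for the rest.  `f` and `x i` are different from all other vertices of the model: they see `b p` and `b p'`;
`b j, a j`, `w` do not see both, and `z` sees none of them. 
The engine `S_L3` (SA/SpecA, as a hypothesis) may be used: `I = {p, p'} ∪ R`, `P j = {b j}`, `Q j = {a j}`, `C = {f, x i}`,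
`B0 = {b (n - 1)}`, `B1 = {z}`, `B2 = {w}`. -/
def S_IFul : Prop := ∀ (V : Type) (D : SimpleGraph V) (k n i q : ℕ) (a b x : ℕ → V) (f z w : V),
  TriFree D → NoSpi k D → Fr0 D n a b x → k + 1 ≤ i → i + 3 ≤ q → q < n →
  (∀ j < n, i ≤ j → D.Adj f (b j)) → (∀ j < q, ¬ D.Adj z (b j)) → D.Adj z (b (n - 1)) →
  w ∈ LU D n a b → D.Adj z w → D.Adj f w

/-- **II3.** Pull-back: the ladder vertices to the left see all light neighbours of `z`.  (Uses II2 with `f = x i`.) -/
def S_IPull : Prop := ∀ (V : Type) (D : SimpleGraph V) (k n i q : ℕ) (a b x : ℕ → V) (z w : V),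
  TriFree D → NoSpi k D → Fr0 D n a b x → k + 1 ≤ i → i + 3 ≤ q → q < n →
  (∀ j < q, ¬ D.Adj z (b j)) → D.Adj z (b (n - 1)) →
  w ∈ LU D n a b → D.Adj z w → D.Adj (x i) w

/-- **II4.** The light neighbourhood of `z ∈ XG` is closed under distance two.  (Uses `S_Pt`.)

Proof. Suppose `z ≁ w'`.  `w, u, w'` touch at most three edges; let `p ≠ p'` be two of `e, .., e + 4` and `R` be `k` of the indices
`0, .., k + 2` not touched by them.  `S_Pt`: centre `z`; legs `(b p, a p)`, `(b p', a p')`, `(w, u, w')`; separate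
edges `(a r, b r)`, `r ∈ R`.  `z ≁ a p, a p', a r` (`ex`), `z ≁ b r`, `z ≁ u` (triangle). -/
def S_ITwo : Prop := ∀ (V : Type) (D : SimpleGraph V) (k n e : ℕ) (a b x : ℕ → V) (z w u w' : V),
  TriFree D → NoSpi k D → Fr0 D n a b x → k + 3 ≤ e → e + 6 ≤ n → z ∈ XG D k n e b →
  w ∈ LU D n a b → u ∈ LU D n a b → w' ∈ LU D n a b →
  D.Adj z w → D.Adj w u → D.Adj u w' → D.Adj z w'

/-- **II5.** No light vertex is seen by both ladders.  (Uses `S_Pt`, II3.)

Proof. Suppose that `w` is seen by `x_{k+4}` and `y_{k+4}`.  By `S_IPull` with `z = x_{k+4}`, `q = k + 4`, `i = k + 1`: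
`x_{k+1} ~ w`.  `x_{k+1} ≁ y_{k+4}` (common neighbour `w`).  Let `p ≠ p'` be two of `k + 1, k + 2, k + 3`, `q ∈ {k + 4, k + 5}`,
and `R` be `k` of the indices `0, .., k`, all not touched by `w`.  `S_Pt`: centre `x_{k+1}`; legs `(b p, a p)`,
`(b p', a p')`, `(w, y_{k+4}, a q)`; separate edges `(a r, b r)`, `r ∈ R`.  `x_{k+1} ≁ a q`; `y_{k+4} ≁ a p, a p', a r`
(indices `< k + 4`), `y_{k+4} ≁ b j`; `y_{k+4} ~ a q`. -/
def S_IDis : Prop := ∀ (V : Type) (D : SimpleGraph V) (k n : ℕ) (a b x y : ℕ → V) (w : V),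
  TriFree D → NoSpi k D → FrI D n a b x y → k + 12 ≤ n → w ∈ LU D n a b →
  D.Adj (x (k + 4)) w → ¬ D.Adj (y (k + 4)) w

/-- **II6.** (NB3) Vertices `g` which see all `a j`, `s ≤ j`, miss the vertices `w` seen by many ladder vertices.

Proof. Suppose `g ~ w`.  Then `g ≁ x r` for `s ≤ r ≤ i` (common neighbour `w`), and `g ≁ b r` for `s ≤ r < n` (`g ~ a r ~ b r`).
Model: centre `g`; legs `(a p, b p)`, `(a p', b p')` with `p = s + k`, `p' = s + k + 1 < i`; `(a i, b i, x i)`; the separate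
edges `({a r, x r}, {b r})`, `s ≤ r < s + k`; all other blocks are single vertices.  Adjacent: `g ~ a p, a p', a i`;
`x i ~ b i`; `b r ~ a r, x r`.  Not complete: `g` to `x i`, to `{a r, x r}` (`g ≁ x r`); `x i` to `b p, b p', b r` (indices
`< i`), to `a`'s; `{a r, x r}` to every other block of the model but `b r`: `a r` has no other neighbour among the
`a j, b j`, and `x i ≁ a r`; two blocks `{a r, x r}`, `{a r', x r'}`: `a r ≁ a r'`; `b r` to all others by `IM` and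
`g ≁ b r`, `x i ≁ b r`, and `a r' ≁ b r` for the block `{a r', x r'}`.  Disjoint: `x r ≠ x r'` for `r < r'` (`b r`),
`x r ≠ x i`, `x r ≠ a j, b j` (`x r` sees `b r`, `b (n - 1)`, an `a j` sees only one `b`, a `b j` sees none),
`g ≠ x r` (`g ≁ b r`), `g ≠ a j, b j`. 
The engine `S_L3` (SA/SpecA, as a hypothesis) may be used: `I = {p, p'} ∪ [s, s + k)`, `P j = {b j}`, `Q r = {a r, x r}` for
`r < s + k`, `Q p = {a p}`, `Q p' = {a p'}`, `C = {g}`, `B0 = {a i}`, `B1 = {b i}`, `B2 = {x i}`. -/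
def S_INB3 : Prop := ∀ (V : Type) (D : SimpleGraph V) (k n s i : ℕ) (a b x : ℕ → V) (g w : V),
  TriFree D → NoSpi k D → Lad D n a b x → s + k + 2 ≤ i → i + 1 < n →
  (∀ j < n, s ≤ j → D.Adj g (a j)) → (∀ r, s ≤ r → r ≤ i → D.Adj (x r) w) → ¬ D.Adj g w

/-- **II7.** Far mediums of different sides are adjacent.  (Uses `S_Pt`.)

Proof. Suppose `z ≁ z'`.  `S_Pt`: centre `z`; legs `(b p, a p)`, `(b (p + 1), a (p + 1))`, `(b (n - 1), a (n - 1), z')`;
separate edges `(a r, b r)`, `r < k`.  `z ≁ a j` (`ex`, `z ~ b (n - 1)`), `z' ≁ b j` (`ex` of `fy`, `z' ~ a (n - 1)`), `z' ≁ a j` for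
`j + 1 < e`, `z ≁ b r`. -/
def S_IFarY : Prop := ∀ (V : Type) (D : SimpleGraph V) (k n e p : ℕ) (a b x y : ℕ → V) (z z' : V),
  TriFree D → NoSpi k D → FrI D n a b x y → k ≤ p → p + 2 < e → e + 6 ≤ n →
  (∀ j < k, ¬ D.Adj z (b j)) → D.Adj z (b p) → D.Adj z (b (p + 1)) → D.Adj z (b (n - 1)) →
  z' ∈ XS D n e a → D.Adj z z'

/-- **II8.** Mediums cover the components which they touch.  (Uses `S_Mix` and II4.)

Proof. If `z` does not cover an edge of `K` then `S_Mix` (`f = z`, `b = c`) gives `w, u, w' ∈ K ⊆ LU` with `z ~ w ~ u ~ w'`,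
`z ≁ w'`, against II4. -/
def S_ICvr : Prop := ∀ (V : Type) (D : SimpleGraph V) (k n e : ℕ) (a b x : ℕ → V) (K : Set V) (z c : V),
  TriFree D → NoSpi k D → Fr0 D n a b x → k + 12 ≤ e → e + 6 ≤ n → z ∈ XG D k n e b →
  W.IsComp D (LU D n a b) K → c ∈ K → D.Adj z c → ∀ p q, ¬ Unc D K z p q

/-- **II9.** The trace of a medium on a component which it touches is the trace of `x_{k+4}`.  (Uses II3, II8, `S_Par`.)

Proof. `x_{k+4} ~ c` by `S_IPull` (`i = k + 4`, `q = k + 8`).  `x_{k+4} ∈ XG` and `z ∈ XX ⊆ XG`; by II8 both cover `K`; `S_Par`. -/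
def S_ISide : Prop := ∀ (V : Type) (D : SimpleGraph V) (k n e : ℕ) (a b x : ℕ → V) (K : Set V) (z c : V),
  TriFree D → NoSpi k D → Fr0 D n a b x → k + 12 ≤ e → e + 6 ≤ n → z ∈ XX D k n e b →
  W.IsComp D (LU D n a b) K → c ∈ K → D.Adj z c → ∀ w ∈ K, (D.Adj z w ↔ D.Adj (x (k + 4)) w)

/-! ### The system -/

/-- **II10.** Existence of the system.  (Uses II5.)

Proof. Let `𝒦` be the (finite) set of the components `K'` of `D[LU]` with an edge, with a vertex seen by `x_{k+4}` or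
`y_{k+4}`, and without the vertices `a r, b r` with `r < k + 4` or `r = n - 1`.  Enumerate `𝒦` as `K l`, `l < N`.  If `x_{k+4}` sees
`w ∈ K l` let `v l = w` and let `u l` be a neighbour of `w` in `K l` (`K l` is connected and `K l ≠ {w}` because it has an
edge); `x_{k+4} ≁ u l` (triangle), `y_{k+4} ≁ v l` (II5).  Otherwise `y_{k+4}` sees some `w ∈ K l`; let `u l = w` and `v l` be a
neighbour of `w` in `K l`; `y_{k+4} ≁ v l` (triangle). -/
def S_IEnum : Prop := ∀ (V : Type) [Finite V] (D : SimpleGraph V) (k n e : ℕ) (a b x y : ℕ → V),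
  TriFree D → NoSpi k D → FrI D n a b x y → k + 12 ≤ e → e + 6 ≤ n →
  ∃ (N : ℕ) (u v : ℕ → V) (K : ℕ → Set V), Sys D k n e N a b x y u v K

/-- **II11.** Symmetry.

Proof. `LU D n a b = LU D n b a` (`or_comm`); everything else is symmetric. -/
def S_ISw : Prop := ∀ (V : Type) (D : SimpleGraph V) (k n e N : ℕ) (a b x y u v : ℕ → V)
  (K : ℕ → Set V), Sys D k n e N a b x y u v K → Sys D k n e N b a y x v u K

/-- **II12.** The fan.  (Uses II3.)

Proof. `im`: `u l, v l` are in the component `K l`; vertices in different components are not adjacent (`IsComp`,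
`W.IsComp.eq`).  `low`: `IM.mono`.  `xu`: `z ∈ XX`, `z ~ u l` implies `x_{k+4} ~ u l` (`S_IPull`, `i = k + 4`, `q = k + 8`), against
`nx`.  `xt`: `e ≤ n - 1`.  `wu`, `wt`, `ww`, `lw`: `w ∈ WW` has no light neighbour, and `u l, v l, a j, b j` are light.  `tu`, `lu`:
a light neighbour of `u l` or `v l` is in `K l`; use `lo`.  `lx`: `z ≁ a j` by `ex` (`z ~ b (n - 1)`), `z ≁ b j` for `j < k + 8`.
`lt`: `IM`. -/
def S_IFanX : Prop := ∀ (V : Type) (D : SimpleGraph V) (k n e N : ℕ) (a b x y u v : ℕ → V)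
  (K : ℕ → Set V), TriFree D → NoSpi k D → Sys D k n e N a b x y u v K →
  Fan D k N u v (b (n - 1)) a b (XX D k n e b) (WW D k n a b x)

/-- **II13.** Joint nestedness of two fans.  (Uses `S_Pt`.)

Proof. Suppose that `l ≠ l'` are in `J x \ I y` (`J x = J D N v x`, `I y = J D N u y`) and `m ∈ I y \ J x`.  Case `x ≁ y`: `S_Pt`:
centre `x`; legs `(v l, u l)`, `(v l', u l')`, `(t, t', y)`.  `x ~ v l, v l', t`; `t' ~ y`.  `v l ≁ y` (`xu` of the second fan),
`u l ≁ y` (`l ∉ I y`), `t, t' ≁ u l, v l` (`tu` of both fans).  Case `x ~ y`: centre `x`; legs `(v l, u l)`, `(v l', u l')`,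
`(y, u m, v m)`; `y ~ u m`; `x ≁ v m`; `y ≁ u l, u l'`; `IM`.  Separate edges `(p j, q j)`. -/
def S_IFanJ : Prop := ∀ (V : Type) (D : SimpleGraph V) (k N : ℕ) (u v : ℕ → V) (t t' : V)
  (p q : ℕ → V) (X W Y Z : Set V), TriFree D → NoSpi k D → D.Adj t t' →
  Fan D k N u v t p q X W → Fan D k N v u t' q p Y Z →
  ∀ x ∈ X, ∀ y ∈ Y, (J D N v x \ J D N u y).card ≤ 1 ∨ J D N u y ⊆ J D N v x

/-- the family of the sets `J z`, `z` a medium on one of the two sides -/
def Fam (D : SimpleGraph V) (k n e N : ℕ) (a b u v : ℕ → V) : Set (Finset ℕ) :=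
  {Q | (∃ z ∈ XX D k n e b, Q = J D N v z) ∨ ∃ z ∈ XX D k n e a, Q = J D N u z}

/-- **II14.** The family is nested.  (Uses II11, II12, II13, `S_FanN`.)

Proof. `S_IFanX` for both sides, `S_FanN` for two mediums of the same side, `S_IFanJ` (for the fans in both orders;
`t = b (n - 1)`, `t' = a (n - 1)`) for mediums of different sides. -/
def S_INest : Prop := ∀ (V : Type) (D : SimpleGraph V) (k n e N : ℕ) (a b x y u v : ℕ → V)
  (K : ℕ → Set V), TriFree D → NoSpi k D → Sys D k n e N a b x y u v K →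
  NestF (Fam D k n e N a b u v)

/-- **II15.** The edges of the matching are in different components.  (Uses II3, II8, II9, II11.)

Proof. Let `k + 4 ≤ j < e`, and let `K'` be the component of `D[LU]` which contains `b j` (`exists_comp`); it contains `a j`.
`x_{k+4} ~ b j`.  (1) `K'` contains no `a r, b r` with `r < j`: `x j ∈ XG` sees `b j` and covers `K'` (II8), but it misses `a r` and
`b r`.  (2) `K'` contains no `a r, b r` with `j < r`: `x (j + 1) ∈ XG` (`j + 1 ≤ e`) sees `b r`, so if `b r ∈ K'` (and then `a r ∈ K'`) it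
covers `K'`, but it misses `a j, b j`.  So `K' = K l` for some `l < N` (`al`); let `c j = l`.  `c` is injective by (1), (2).
For `z ∈ XX`: if `z ~ v l` then `z ~ w ↔ x_{k+4} ~ w` on `K'` (II9), so `z ~ b j`; if `z ~ b j` then the same, and `x_{k+4} ~ v l`
because `x_{k+4}` covers the edge `u l, v l` of `K'` (II8) and misses `u l` (`nx`).  The same for `a j, u l` with the second ladder
(II11). -/
def S_IIdx : Prop := ∀ (V : Type) (D : SimpleGraph V) (k n e N : ℕ) (a b x y u v : ℕ → V)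
  (K : ℕ → Set V), TriFree D → NoSpi k D → Sys D k n e N a b x y u v K →
  ∃ c : ℕ → ℕ, (∀ j, k + 4 ≤ j → j < e → c j < N ∧ a j ∈ K (c j) ∧ b j ∈ K (c j) ∧
    (∀ z ∈ XX D k n e b, (D.Adj z (v (c j)) ↔ D.Adj z (b j))) ∧
    ∀ z ∈ XX D k n e a, (D.Adj z (u (c j)) ↔ D.Adj z (a j))) ∧
    ∀ j j', k + 4 ≤ j → j < e → k + 4 ≤ j' → j' < e → c j = c j' → j = j'

/-- the components touched by `z ∈ XX` are the `K l` with `z ~ v l` (among the `K l`) -/
def Tch1 (D : SimpleGraph V) (k n e N : ℕ) (b v : ℕ → V) (K : ℕ → Set V) (xs : V) : Prop :=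
  ∀ z ∈ XX D k n e b, ∀ l < N, (D.Adj z (v l) → ∀ w ∈ K l, (D.Adj z w ↔ D.Adj xs w)) ∧
    (¬ D.Adj z (v l) → ∀ w ∈ K l, ¬ D.Adj z w)

/-- **II16.** Traces on the components.  (Uses II3, II8, II9.)

Proof. If `z ~ c` for some `c ∈ K l` then `z ~ w ↔ x_{k+4} ~ w` on `K l` (II9); `x_{k+4} ~ c`, so `x_{k+4}` covers the edge
`u l, v l` (II8), and misses `u l` (`nx`); so `x_{k+4} ~ v l` and `z ~ v l`. -/
def S_ITch : Prop := ∀ (V : Type) (D : SimpleGraph V) (k n e N : ℕ) (a b x y u v : ℕ → V)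
  (K : ℕ → Set V), TriFree D → NoSpi k D → Sys D k n e N a b x y u v K →
  Tch1 D k n e N b v K (x (k + 4))

/-- `P` is a good set at the position `i` -/
def PosP (D : SimpleGraph V) (k n e N : ℕ) (a b u v : ℕ → V) (K : ℕ → Set V) (P : Finset ℕ)
    (i : ℕ) : Prop :=
  GoodF (Fam D k n e N a b u v) P ∧ (∀ l ∈ P, l < N) ∧
  ∀ j, k + 4 ≤ j → j < e → ∀ l < N, b j ∈ K l → (j < i → l ∉ P) ∧ (i + 2 ≤ j → l ∈ P)

/-- **II17.** Good sets exist at all positions.  (Uses II14, II15, `S_FanG`.)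

Proof. `x i, x (i + 2) ∈ XX` (`k + 8 ≤ i`, `i + 2 ≤ e`).  `c i, c (i + 1) ∈ J (x i) \ J (x (i + 2))` (II15), so
`J (x (i + 2)) ⊆ J (x i)` by `NestF`, and it is smaller.  `S_FanG`: `J (x (i + 2)) ⊆ P ⊆ J (x i)`, `GoodF`.  If `b j ∈ K l` then
`l = c j` (`W.IsComp.eq`, `ne`).  `j < i`: `c j ∉ J (x i)` (II15: `x i ≁ b j`).  `i + 2 ≤ j`: `c j ∈ J (x (i + 2))`. -/
def S_IPos : Prop := ∀ (V : Type) (D : SimpleGraph V) (k n e N i : ℕ) (a b x y u v : ℕ → V)
  (K : ℕ → Set V), TriFree D → NoSpi k D → Sys D k n e N a b x y u v K → k + 8 ≤ i → i + 2 ≤ e →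
  ∃ P : Finset ℕ, PosP D k n e N a b u v K P i

/-- the exact cut of a fan at `P` (conclusion of `S_FanC`) -/
structure FCut (D : SimpleGraph V) (N : ℕ) (v : ℕ → V) (X W : Set V) (P : Finset ℕ) (XL WL : Set V) :
    Prop where
  sX : XL ⊆ X
  sW : WL ⊆ W
  big : ∀ x ∈ X, P.card < (J D N v x).card → x ∈ XL
  sml : ∀ x ∈ X, (J D N v x).card < P.card → x ∉ XL
  inL : ∀ x ∈ XL, P ⊆ J D N v x
  inR : ∀ x ∈ X, x ∉ XL → J D N v x ⊆ P
  cmp : ∀ x ∈ XL, ∀ w ∈ W, w ∉ WL → D.Adj x w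
  nul : ∀ x ∈ X, x ∉ XL → ∀ w ∈ WL, ¬ D.Adj x w

/-- **II18.** The cut at a good set.  (Uses II12, `S_FanC`.)

Proof. `S_FanC` for the fan II12; `Good` follows from `GoodF` for the members `J z`, `z ∈ XX D k n e b` of the family. -/
def S_ICut : Prop := ∀ (V : Type) (D : SimpleGraph V) (k n e N i : ℕ) (a b x y u v : ℕ → V)
  (K : ℕ → Set V) (P : Finset ℕ), TriFree D → NoSpi k D → Sys D k n e N a b x y u v K →
  PosP D k n e N a b u v K P i →
  ∃ XL WL : Set V, FCut D N v (XX D k n e b) (WW D k n a b x) P XL WL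

/-- **II19.** Positions of the ladder vertices.  (Uses II15.)

Proof. Let `k + 8 ≤ r ≤ e`, so `x r ∈ XX`.  `r < i`: `c r ∈ J (x r) \ P` (II15: `x r ~ b r`; `PosP`), so neither `J (x r) = P` nor
`J (x r) ⊆ P`; by `GoodF` the size of `J (x r)` is larger than `|P|`; `big`.  `i + 3 ≤ r`: `c (r - 1) ∈ P \ J (x r)`
(`i + 2 ≤ r - 1 < e`, `x r ≁ b (r - 1)`), so the size is smaller; `sml`. -/
def S_ILadPos : Prop := ∀ (V : Type) (D : SimpleGraph V) (k n e N i : ℕ) (a b x y u v : ℕ → V)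
  (K : ℕ → Set V) (P : Finset ℕ) (XL WL : Set V), TriFree D → NoSpi k D →
  Sys D k n e N a b x y u v K → PosP D k n e N a b u v K P i →
  FCut D N v (XX D k n e b) (WW D k n a b x) P XL WL → i ≤ e →
  ∀ r, k + 8 ≤ r → r ≤ e → (r < i → x r ∈ XL) ∧ (i + 3 ≤ r → x r ∉ XL)

/-! ### The band -/

/-- **Bands** between the good sets `P` (left, position `i`) and `P'` (right, position `i'`) -/
structure Bnd (D : SimpleGraph V) (k n e N i i' : ℕ) (a b x y u v : ℕ → V) (K : ℕ → Set V)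
    (P P' : Finset ℕ) (XL WL YL ZL XL' WL' YL' ZL' : Set V) : Prop where
  sys : Sys D k n e N a b x y u v K
  p1 : PosP D k n e N a b u v K P i
  p2 : PosP D k n e N a b u v K P' i'
  cx : FCut D N v (XX D k n e b) (WW D k n a b x) P XL WL
  cy : FCut D N u (XX D k n e a) (WW D k n b a y) P YL ZL
  cx' : FCut D N v (XX D k n e b) (WW D k n a b x) P' XL' WL'
  cy' : FCut D N u (XX D k n e a) (WW D k n b a y) P' YL' ZL'
  hi : 2 * k + 14 ≤ i
  hi' : i + 2 ≤ i'
  hie : i' + 10 ≤ e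

/-- the mediums between the two cuts -/
def BX (D : SimpleGraph V) (k n e : ℕ) (b : ℕ → V) (XL XL' : Set V) : Set V :=
  {z | z ∈ XX D k n e b ∧ z ∉ XL ∧ z ∈ XL'}

/-- the light vertices of the `b`-side between the two cuts: the vertices of `K l`, `l ∈ P \ P'`, seen by `x_{k+4}`, and
the isolated ones -/
def BB (D : SimpleGraph V) (k n : ℕ) (a b x : ℕ → V) (K : ℕ → Set V) (P P' : Finset ℕ)
    (WL WL' : Set V) : Set V :=
  {w | (D.Adj (x (k + 4)) w ∧ ∃ l ∈ P \ P', w ∈ K l) ∨ (w ∈ WW D k n a b x ∧ w ∉ WL ∧ w ∈ WL')}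

/-- the band -/
def Band (D : SimpleGraph V) (k n e : ℕ) (a b x y : ℕ → V) (K : ℕ → Set V) (P P' : Finset ℕ)
    (XL WL YL ZL XL' WL' YL' ZL' : Set V) : Set V :=
  BX D k n e b XL XL' ∪ BX D k n e a YL YL' ∪ BB D k n a b x K P P' WL WL' ∪
    BB D k n b a y K P P' ZL ZL'

/-- **II20.** Symmetry of bands.  (Uses II11.)

Proof. `Fam D k n e N a b u v = Fam D k n e N b a v u` (`or_comm`); in `PosP` for the swapped data: `a j ∈ K l` iff
`b j ∈ K l`, because `a j ~ b j` are both light and `K l` is a component. -/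
def S_IBSw : Prop := ∀ (V : Type) (D : SimpleGraph V) (k n e N i i' : ℕ) (a b x y u v : ℕ → V)
  (K : ℕ → Set V) (P P' : Finset ℕ) (XL WL YL ZL XL' WL' YL' ZL' : Set V),
  Bnd D k n e N i i' a b x y u v K P P' XL WL YL ZL XL' WL' YL' ZL' →
  Bnd D k n e N i i' b a y x v u K P P' YL ZL XL WL YL' ZL' XL' WL'

/-- **II21.** The light vertices of the band are seen by the left part of the ladder and missed by the right part.
(Uses II16, II19.)

Proof. `x r ∈ XL` for `k + 8 ≤ r < i` and `x r ∉ XL'` for `i' + 3 ≤ r ≤ e` (II19); `x r ∈ XX`.  `w ∈ K l`, `l ∈ P \ P'`: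
`l ∈ P ⊆ J (x r)`, so `x r ~ v l` and `x r ~ w` (II16, `x_{k+4} ~ w`) for `r < i`; `l ∉ P' ⊇ J (x r)`, so `x r ≁ v l` and `x r ≁ w` for
`i' + 3 ≤ r`.  `w ∈ WW \ WL`, `w ∈ WL'`: `cmp`, `nul`. -/
def S_ISeen : Prop := ∀ (V : Type) (D : SimpleGraph V) (k n e N i i' : ℕ) (a b x y u v : ℕ → V)
  (K : ℕ → Set V) (P P' : Finset ℕ) (XL WL YL ZL XL' WL' YL' ZL' : Set V), TriFree D →
  NoSpi k D → Bnd D k n e N i i' a b x y u v K P P' XL WL YL ZL XL' WL' YL' ZL' →
  ∀ w ∈ BB D k n a b x K P P' WL WL', w ∈ LU D n a b ∧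
    (∀ r, k + 8 ≤ r → r < i → D.Adj (x r) w) ∧ ∀ r, i' + 3 ≤ r → r ≤ e → ¬ D.Adj (x r) w

/-- **II22.** The columns of the `b`-side of the band are constant.  (Uses II1, II2, II3, II5, II6, II16, II21.)

Proof. Let `t ∉ Band`, `T = BB D k n a b x K P P' WL WL'`.  All `w ∈ T` are light and seen by `x r`, `k + 8 ≤ r < i`, and by `x_{k+4}`
(`S_IPull` for `z = x_{k+8}`, `q = k + 8`).  II1 for `t`:
(1) `t ∈ FF D k n b`: complete to `T`: `S_IFul` with `f = t`, `i = k + 9`, `z = x (i - 1)` (`i` of the band; `q = i - 1 ≥ k + 12`).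
(2) `t ∈ XX D k n e b`: `t ∈ XL` or `t ∉ XL'` (otherwise `t ∈ BX`).  `t ∈ XL`: `P ⊆ J t`, so `t ~ v l` for `l ∈ P \ P'` and `t` sees the
`w ∈ K l` seen by `x_{k+4}` (II16); `cmp` for the isolated ones: complete.  `t ∉ XL'`: `J t ⊆ P'`, so `t ≁ v l` and `t` misses `K l`
(II16); `nul`: no edges.
(3) `t ∈ XS D n e b`: no edges: `t ~ w` gives `x (i' + 3) ~ w` by `S_IPull` (`q = e - 1`), against II21.
(4) `t ∈ FF D k n a`: no edges: `S_INB3` with `s = k + 9`, `i = 2 k + 11`.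
(5) `t ∈ XX D k n e a` or `t ∈ XS D n e a`: no edges: `t ~ w` gives `y_{k+4} ~ w` by `S_IPull` for the second ladder (`q = k + 8`;
`LU D n b a = LU D n a b`), against `S_IDis`.
(6) `t` light: no edges: `w ∈ K l`, `l ∈ P \ P'`, `t ~ w` gives `t ∈ K l`; by II16 for both sides `t` is seen by `x_{k+4}` or by `y_{k+4}`
(`x r` and `y r`, `r = k + 8 < i`, see `v l` resp. `u l`, so `x_{k+4}` and `y_{k+4}` touch `K l` and cover its edge `t w` by II8;
`x_{k+4} ~ w`, so `y_{k+4} ≁ w` by II5 and `y_{k+4} ~ t`), so `t` is in the band, contradiction.  `w ∈ WW`: `w` has no light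
neighbours. -/
def S_IColB : Prop := ∀ (V : Type) (D : SimpleGraph V) (k n e N i i' : ℕ) (a b x y u v : ℕ → V)
  (K : ℕ → Set V) (P P' : Finset ℕ) (XL WL YL ZL XL' WL' YL' ZL' : Set V), TriFree D →
  NoSpi k D → Bnd D k n e N i i' a b x y u v K P P' XL WL YL ZL XL' WL' YL' ZL' →
  ∀ t, t ∉ Band D k n e a b x y K P P' XL WL YL ZL XL' WL' YL' ZL' →
    (∀ w ∈ BB D k n a b x K P P' WL WL', D.Adj w t) ∨
    ∀ w ∈ BB D k n a b x K P P' WL WL', ¬ D.Adj w t

/-- **II23.** The columns of the mediums of the band are constant, but for the other side.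
(Uses II1, II3, II7, II8, II9, II15, II16.)

Proof. Let `t ∉ Band`, `t ∉ FF D k n a`, `t ∉ XX D k n e a`.  All `z ∈ BX` see `b (n - 1)` and `b j` for `i' + 2 ≤ j < e`
(`P' ⊆ J z`, II15 and `PosP`).  II1 for `t`:
(1) `t ∈ FF D k n b`, `XX D k n e b` or `XS D n e b`: `t ~ b (n - 1)`, so `t ≁ z` (triangle).
(2) `t ∈ XS D n e a`: complete by II7 with `p = i' + 2`.
(3) `t` light.  If `t` has no light neighbour: either `x_{k+4} ≁ t`, then `z ≁ t` for all `z ∈ BX` (`S_IPull`, `q = k + 8`); or `t ∈ WW`, and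
(`t ∉ Band`) `t ∈ WL` (no edges by `nul`, as `z ∉ XL`) or `t ∉ WL'` (complete by `cmp`, as `z ∈ XL'`).
If `t` has a light neighbour let `K'` be the component of `D[LU]` with `t ∈ K'`.  If no `z ∈ BX` touches `K'`: no edges.
Otherwise `x_{k+4}` touches `K'` (`S_IPull`).  If `K' ∋ a r` or `b r` with `r < k + 4` (then it contains both): `z` would cover
`a r, b r` (II8), but it misses them: contradiction.  If `K' ∋ b (n - 1)`: every `z ∈ BX` touches `K'`, so
`z ~ t ↔ x_{k+4} ~ t` (II9): constant.  Otherwise `K' = K l` (`al`).  `l ∈ P'`: every `z ∈ BX` sees `v l` (`P' ⊆ J z`), so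
`z ~ t ↔ x_{k+4} ~ t` (II16): constant.  `l ∉ P`: `J z ⊆ P`, so `z` misses `K l` (II16): no edges.  `l ∈ P \ P'`: if `x_{k+4} ~ t` then
`t ∈ BB`, contradiction; otherwise `z ≁ t` (II16): no edges. -/
def S_IColX : Prop := ∀ (V : Type) (D : SimpleGraph V) (k n e N i i' : ℕ) (a b x y u v : ℕ → V)
  (K : ℕ → Set V) (P P' : Finset ℕ) (XL WL YL ZL XL' WL' YL' ZL' : Set V), TriFree D →
  NoSpi k D → Bnd D k n e N i i' a b x y u v K P P' XL WL YL ZL XL' WL' YL' ZL' →
  ∀ t, t ∉ Band D k n e a b x y K P P' XL WL YL ZL XL' WL' YL' ZL' → t ∉ FF D k n a →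
    t ∉ XX D k n e a →
    (∀ z ∈ BX D k n e b XL XL', D.Adj z t) ∨ ∀ z ∈ BX D k n e b XL XL', ¬ D.Adj z t

/-- **II24.** The cut-rank of the band.  (Uses II20, II22, II23.)

Proof. `cr D Band = rk D Band Bandᶜ`, `Band` is the union of four sets.  The rank between `BB` and `Bandᶜ` is at most one
(`rk_col`, II22), for both sides (II20; the band of the swapped data is the same set).  `BX` and `Bandᶜ`: split `Bandᶜ` in the
part `Q` in `FF D k n a ∪ XX D k n e a` and the rest: the rank between `BX` and `Q` is at most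
`rk D (XX D k n e b) (FF D k n a ∪ XX D k n e a) ≤ ρ`, the rank between `BX` and the rest at most one (`rk_col`, II23).  The
same for the other side. -/
def S_IRank : Prop := ∀ (V : Type) [Finite V] (D : SimpleGraph V) (k n e N i i' ρ : ℕ)
  (a b x y u v : ℕ → V) (K : ℕ → Set V) (P P' : Finset ℕ)
  (XL WL YL ZL XL' WL' YL' ZL' : Set V), TriFree D →
  NoSpi k D → Bnd D k n e N i i' a b x y u v K P P' XL WL YL ZL XL' WL' YL' ZL' →
  LK.rk D (XX D k n e b) (FF D k n a ∪ XX D k n e a) ≤ ρ →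
  LK.rk D (XX D k n e a) (FF D k n b ∪ XX D k n e b) ≤ ρ →
  LK.cr D (Band D k n e a b x y K P P' XL WL YL ZL XL' WL' YL' ZL') ≤ 2 * ρ + 4

/-- **II25.** The two sides of the band.

Proof. For `i + 2 ≤ j < i'` let `K'` be the component with `b j`; `K' = K l` (II15), and `l ∈ P \ P'` (`PosP`); `x_{k+4} ~ b j`, so
`b j ∈ BB ⊆ Band`.  For `j < i` the vertex `b j` is not in the band: it is not in `XX D k n e b` (it sees no `b`), not in
`XX D k n e a` (it does not see `a e` and `a (e + 1)`), not in `WW` (`a j ~ b j` is light), and not in `K l` with `l ∈ P` (`lo` for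
`j < k + 4`, `PosP` for `k + 4 ≤ j < i`).  The `b j` are different.  (Uses II15.) -/
def S_ISize : Prop := ∀ (V : Type) [Finite V] (D : SimpleGraph V) (k n e N i i' B : ℕ)
  (a b x y u v : ℕ → V) (K : ℕ → Set V) (P P' : Finset ℕ)
  (XL WL YL ZL XL' WL' YL' ZL' : Set V), TriFree D →
  NoSpi k D → Bnd D k n e N i i' a b x y u v K P P' XL WL YL ZL XL' WL' YL' ZL' →
  B < i → i + B + 2 < i' →
  B < (Band D k n e a b x y K P P' XL WL YL ZL XL' WL' YL' ZL').ncard ∧
  B < (Band D k n e a b x y K P P' XL WL YL ZL XL' WL' YL' ZL')ᶜ.ncard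

/-- **II26.** Case (I,I), same direction.  (Uses II10, II11, II17, II18, II24, II25, `S_Rk0` of SA/SpecA.)

Proof. `c = 2 ρ + 4` with `ρ, N₀` from `S_Rk0` for `k` and `e = 0` (all exception sets empty).  `i = 2 k + 14 + B`,
`i' = i + B + 3`, `e = i' + 10`, `n₀ = e + N₀ + 6`.  For `n₀ ≤ n`:
`S_IEnum`, `S_IPos` at `i` and `i'`: `P, P'`; `S_ICut` for both sides (II11; `PosP` for the swapped data as in II20) gives the
`Bnd`.  `S_Rk0` for the matching `a (e + j), b (e + j)`, `j < N₀`, and the sets `XX D k n e b ∪ FF D k n b`,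
`XX D k n e a ∪ FF D k n a` (`k + 9 ≤ e`) gives the two rank hypotheses of `S_IRank` (`rk_mono`, `rk_symm`).  `S_ISize`. -/
def S_II : Prop := ∀ k : ℕ, ∃ c : ℕ, ∀ B : ℕ, ∃ n₀ : ℕ, ∀ (V : Type) [Finite V]
  (D : SimpleGraph V) (n : ℕ) (a b x y : ℕ → V), TriFree D → NoSpi k D → FrI D n a b x y →
  n₀ ≤ n → ∃ X : Set V, LK.cr D X ≤ c ∧ B < X.ncard ∧ B < Xᶜ.ncard

end Pool.Agent.MPd439b2.SA
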