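import Pool.Agent.Lib.MP_d439b2_co.SA.SpecTT

/-!
# MP_d439b2_co, SA, TT7: assembly of the case (T,T)
-/

set_option autoImplicit false

namespace Pool.Agent.MPd439b2.SA

open Pool.Agent.MPd439b2 Pool.Agent.MPd439b2.W

private theorem tt_lig {V : Type} {D : SimpleGraph V} {h n : ℕ} {a b : ℕ → V} (hC : CMh D h n a b)
    (hn : 2 ≤ n) {i : ℕ} (hi : i < n) : a i ∈ Lig D h n a b ∧ b i ∈ Lig D h n a b := by
  obtain ⟨j, hj, hji⟩ : ∃ j < n, j ≠ i := by
    by_cases h0 : i = 0
    · exact ⟨1, by omega, by omega⟩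
    · exact ⟨0, by omega, fun h1 => h0 h1.symm⟩
  constructor
  · rcases hC.tr (a i) with h1 | h1 | h1
    · exact h1
    · exact absurd ((hC.im i hi j hj).1.mp (h1 j hj)) (Ne.symm hji)
    · exact absurd (h1 i hi) (hC.im i hi i hi).2.1
  · rcases hC.tr (b i) with h1 | h1 | h1
    · exact h1
    · exact absurd (h1 i hi) (hC.im i hi i hi).2.2
    · exact absurd ((hC.im j hj i hi).1.mp (h1 j hj).symm) hji

theorem hTT (hMany : S_Many) (hOneComp : S_OneComp) : S_TT := by
  classical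
  intro s k m h
  obtain ⟨c, hc⟩ := hOneComp s k m h
  refine ⟨max c 2, fun B => ?_⟩
  obtain ⟨n₁, hn₁⟩ := hc B
  obtain ⟨N, hN⟩ := hMany k m h B
  refine ⟨n₁ * N + 2, fun V _ D n a b ht hE hk hm hC hn => ?_⟩
  have hn2 : 2 ≤ n := by omega
  -- the components
  have h1 : ∀ i, ∃ K : Set V, i < n → IsComp D (Lig D h n a b) K ∧ a i ∈ K ∧ b i ∈ K := by
    intro i
    by_cases hi : i < n
    · obtain ⟨h2, h3⟩ := tt_lig hC hn2 hi
      obtain ⟨K, hK, haK⟩ := exists_isComp D h2
      refine ⟨K, fun _ => ⟨⟨hK.2.1, hK.1, ?_⟩, haK, hK.2.2 (a i) haK (b i) h3 (hC.im.edge hi)⟩⟩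
      rintro u hu ⟨hun, w, hw, hwu⟩
      exact hun (hK.2.2 w hw u hu hwu)
    · exact ⟨∅, fun h => absurd h hi⟩
  choose C hCi using h1
  by_cases hbig : ∃ i < n, n₁ ≤ ((Finset.range n).filter fun j => C j = C i).card
  · obtain ⟨i, hi, hcard⟩ := hbig
    obtain ⟨X, hX1, hX2, hX3⟩ := hn₁ V D n a b (C i)
      ((Finset.range n).filter fun j => C j = C i) ht hE hk hm hC (hCi i hi).1 (by
        intro j hj
        rw [Finset.mem_filter, Finset.mem_range] at hj
        have h2 := (hCi j hj.1).2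
        rw [hj.2] at h2
        exact ⟨hj.1, h2⟩) hcard
    exact ⟨X, hX1.trans (le_max_left _ _), hX2, hX3⟩
  · push Not at hbig
    have h2 : (Finset.range n).card ≤ n₁ * ((Finset.range n).image C).card := by
      refine Finset.card_le_mul_card_image _ _ fun K hK => ?_
      obtain ⟨i, hi, rfl⟩ := Finset.mem_image.mp hK
      exact (hbig i (Finset.mem_range.mp hi)).le
    rw [Finset.card_range] at h2
    have h3 : N ≤ ((Finset.range n).image C).card := by
      by_contra h4
      have h5 : n₁ * ((Finset.range n).image C).card ≤ n₁ * N :=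
        Nat.mul_le_mul_left _ (by omega)
      omega
    obtain ⟨T, hT, hTc⟩ := Finset.exists_subset_card_eq h3
    let e := T.equivFinOfCardEq hTc
    have h4 : ∀ l, ∃ i, ∀ hl : l < N, i < n ∧ C i = (e.symm ⟨l, hl⟩ : Set V) := by
      intro l
      by_cases hl : l < N
      · obtain ⟨i, hi, he⟩ := Finset.mem_image.mp (hT (e.symm ⟨l, hl⟩).2)
        exact ⟨i, fun _ => ⟨Finset.mem_range.mp hi, he⟩⟩
      · exact ⟨0, fun h => absurd h hl⟩
    choose ι hι using h4
    obtain ⟨X, hX1, hX2, hX3⟩ := hN V D n a b (fun l => C (ι l)) ι ht hk hm hC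
      (fun l hl => (hι l hl).1) (fun l hl => (hCi _ (hι l hl).1).1)
      (fun l hl => (hCi _ (hι l hl).1).2) (by
        intro l hl l' hl' hne h5
        apply hne
        have h5' : C (ι l) = C (ι l') := h5
        rw [(hι l hl).2, (hι l' hl').2] at h5'
        exact Fin.mk.inj_iff.mp (e.symm.injective (Subtype.ext h5')))
    exact ⟨X, hX1.trans (le_max_right _ _), hX2, hX3⟩

end Pool.Agent.MPd439b2.SA
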