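import Pool.Agent.Lib.MP_d439b2_co.SA.SpecTT
import Pool.Agent.Lib.MP_d439b2_co.W.SpecT

/-!
# MP_d439b2_co, SA: one component with many edges, from Spec T of helper28
-/

set_option autoImplicit false

namespace Pool.Agent.MPd439b2.SA

open Pool.Agent.MPd439b2 Pool.Agent.MPd439b2.W Pool.Agent.MPd439b2.Rep

theorem hOneComp (h : W.S_TT1) : S_OneComp := by
  intro s k m hh
  obtain ⟨c, hc⟩ := h s hh
  refine ⟨c, fun B => ?_⟩
  obtain ⟨n₀, hn⟩ := hc (B + 1)
  refine ⟨n₀, fun V _ D n a b K I ht hE _ _ hC hK hI hcard => ?_⟩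
  obtain ⟨X, hX, h1, h2⟩ := hn n V D a b (Lig D hh n a b) K I ht hE hC.im (fun v hv => hv) (by
    intro v hv
    have h3 : (Jt D n a b v).card = n := by
      have h4 : Jt D n a b v = Finset.range n := by
        ext i
        rw [mem_Jt, Finset.mem_range]
        refine ⟨fun h => h.1, fun hi => ⟨hi, ?_⟩⟩
        rcases hC.tr v with h5 | h5 | h5
        · exact absurd h5 hv
        · exact Or.inr (h5 i hi)
        · exact Or.inl (h5 i hi)
      rw [h4, Finset.card_range]
    omega)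
    ⟨hK.2.1, hK.1, fun v hv w hw e => by_contra fun hn => hK.2.2 w hw ⟨hn, v, hv, e⟩⟩
    (fun i hi => ⟨(hI i hi).1, (hI i hi).2.1⟩) hcard
  exact ⟨X, cr_types D hX, by omega, by omega⟩

end Pool.Agent.MPd439b2.SA
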