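import Pool.Agent.Lib.MP_d439b2_co.SA.AllB
import Pool.Agent.Lib.MP_d439b2_co.SA.BdK
import Pool.Agent.Lib.MP_d439b2_co.SA.Bnd
import Pool.Agent.Lib.MP_d439b2_co.SA.B1
import Pool.Agent.Lib.MP_d439b2_co.SA.Fan0
import Pool.Agent.Lib.MP_d439b2_co.SA.Fan1
import Pool.Agent.Lib.MP_d439b2_co.SA.Fan2
import Pool.Agent.Lib.MP_d439b2_co.SA.FanC
import Pool.Agent.Lib.MP_d439b2_co.SA.FanG
import Pool.Agent.Lib.MP_d439b2_co.SA.FanN
import Pool.Agent.Lib.MP_d439b2_co.SA.FanS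
import Pool.Agent.Lib.MP_d439b2_co.SA.Mix
import Pool.Agent.Lib.MP_d439b2_co.SA.Par
import Pool.Agent.Lib.MP_d439b2_co.SA.BadF
import Pool.Agent.Lib.MP_d439b2_co.SA.BadB
import Pool.Agent.Lib.MP_d439b2_co.SA.KCut
import Pool.Agent.Lib.MP_d439b2_co.SA.Many
import Pool.Agent.Lib.MP_d439b2_co.SA.TT
import Pool.Agent.Lib.MP_d439b2_co.SA.SpecII
import Pool.Agent.Lib.MP_d439b2_co.SA.NO
import Pool.Agent.Lib.MP_d439b2_co.W.FinalT

/-!
# MP_d439b2_co, SA: parts (2) and (T,T) without hypotheses, `S_NO` modulo `S_II` (helper13)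
-/

set_option autoImplicit false

namespace Pool.Agent.MPd439b2.SA

open Pool.Agent.MPd439b2 Pool.Agent.MPd439b2.W

theorem okFanN : S_FanN := hFanN hPt

theorem okFanG : S_FanG := hFanG hFanS

theorem okFan0 : S_Fan0 := hFan0 hPt

theorem okFanC : S_FanC := hFanC okFan0 (hFan1 hPt okFan0) (hFan2 hPt)

theorem okBdK : S_BdK := pBdK okWr okNC

theorem okBnd : S_Bnd := pBnd pCls okFar okAFc pIdx pFanX okFanN okFanG okFanC pThree

/-- **Part (2)**: frames of type (I,T) give a cut of rank at most three -/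
theorem okB1 : S_B1 := pB1 pClo pSide pCK okBdK okBdX okBnd okCoMs

/-- **Case (T,T)** -/
theorem okTT : S_TT := hTT (hMany (hBadB hPar (hBadF hPt hMix)) (hKCut hPar)) oneCompF

/-- **`S_NO`** from part (3) -/
theorem noOfII (h : S_II) : S_NO :=
  pNO okDich okWin okTT okB1 (fun k _ => by
    obtain ⟨c, hc⟩ := h k
    refine ⟨c, fun B => ?_⟩
    obtain ⟨n₀, hn₀⟩ := hc B
    exact ⟨n₀, fun V _ D n a b x y h1 h2 _ h3 h4 => hn₀ V D n a b x y h1 h2 h3 h4⟩)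
    (pOLmix pOLrev)

end Pool.Agent.MPd439b2.SA
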