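import Pool.Agent.Lib.MP_d439b2_co.SA.SpecC

/-!
# MP_d439b2_co, SA/AFc: full vertices see the light neighbours of the mediums (helper6)
-/

set_option autoImplicit false

namespace Pool.Agent.MPd439b2.SA

open Pool.Agent.MPd439b2 Pool.Agent.MPd439b2.W

namespace AFcx

variable {V : Type} {D : SimpleGraph V} {n : ℕ} {b : ℕ → V}

theorem Ps.miss {v : V} {q : ℕ} (h : Ps D n b v q) {j : ℕ} (hj : j < n) (hq : j < q) :
    ¬ D.Adj v (b j) := by
  rcases h with h | h
  · intro h1
    have := (h j hj).1 h1
    omega
  · intro h1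
    have := (h j hj).1 h1
    omega

/-- `k` indices below `k + 1` which do not satisfy `p` -/
theorem skip {n k : ℕ} {p : ℕ → Prop} (h : Few n p) (hk : k + 1 ≤ n) :
    ∃ r : ℕ → ℕ, (∀ t < k, r t ≤ k ∧ ¬ p (r t)) ∧ ∀ s < k, ∀ t < k, r s = r t → s = t := by
  classical
  by_cases h0 : ∃ τ, τ < k + 1 ∧ p τ
  · obtain ⟨τ, hτ, hp⟩ := h0
    refine ⟨fun t => if t < τ then t else t + 1, ?_, ?_⟩
    · intro t ht
      refine ⟨?_, ?_⟩
      · show (if t < τ then t else t + 1) ≤ k
        split_ifs <;> omega
      · show ¬ p (if t < τ then t else t + 1)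
        intro hp2
        have h3 := h τ (by omega) (if t < τ then t else t + 1) (by split_ifs <;> omega) hp hp2
        split_ifs at h3 <;> omega
    · intro s _ t _ he
      have he' : (if s < τ then s else s + 1) = (if t < τ then t else t + 1) := he
      split_ifs at he' <;> omega
  · refine ⟨fun t => t, ?_, ?_⟩
    · intro t ht
      exact ⟨by show t ≤ k; omega, fun hp => h0 ⟨t, by omega, hp⟩⟩
    · intro s _ t _ he
      exact he

theorem cmp11 {u v : V} : Cmp D {u} {v} ↔ D.Adj u v := by
  unfold Cmp
  simp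

end AFcx

open AFcx in
theorem pAFc (hL3 : S_L3) : S_AFc := by
  classical
  intro k n V D a b x hT hN hF f y e q hf hy hke heq hqn hyn z hz hyz
  by_contra hnz
  have hz' : Few n fun i => D.Adj z (a i) ∨ D.Adj z (b i) := hz
  have im := hF.lad.im
  have hn1 : n - 1 < n := by omega
  have hzb : z ≠ b (n - 1) := by
    rintro rfl
    exact hnz (hf (n - 1) (by omega) hn1)
  -- two indices of `{e, e + 1, e + 2}` which are not touched by `z`
  have hij : ∃ i j, i ≠ j ∧ e ≤ i ∧ i < e + 3 ∧ e ≤ j ∧ j < e + 3 ∧
      ¬ (D.Adj z (a i) ∨ D.Adj z (b i)) ∧ ¬ (D.Adj z (a j) ∨ D.Adj z (b j)) := by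
    by_cases t0 : D.Adj z (a e) ∨ D.Adj z (b e)
    · refine ⟨e + 1, e + 2, by omega, by omega, by omega, by omega, by omega, ?_, ?_⟩
      · intro h
        have := hz' e (by omega) (e + 1) (by omega) t0 h
        omega
      · intro h
        have := hz' e (by omega) (e + 2) (by omega) t0 h
        omega
    · by_cases t1 : D.Adj z (a (e + 1)) ∨ D.Adj z (b (e + 1))
      · refine ⟨e, e + 2, by omega, by omega, by omega, by omega, by omega, t0, ?_⟩
        intro h
        have := hz' (e + 1) (by omega) (e + 2) (by omega) t1 h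
        omega
      · exact ⟨e, e + 1, by omega, by omega, by omega, by omega, by omega, t0, t1⟩
  obtain ⟨i, j, hne, hi1, hi2, hj1, hj2, zi, zj⟩ := hij
  obtain ⟨r, hr, hinj⟩ := skip (k := k) hz' (by omega)
  set R : Finset ℕ := (Finset.range k).image r with hR
  have hRm : ∀ m ∈ R, m < e ∧ ¬ (D.Adj z (a m) ∨ D.Adj z (b m)) := by
    intro m hm
    obtain ⟨t, ht, rfl⟩ := Finset.mem_image.1 hm
    have h1 := hr t (Finset.mem_range.1 ht)
    exact ⟨by omega, h1.2⟩
  have hRc : R.card = k := by
    rw [hR, Finset.card_image_of_injOn, Finset.card_range]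
    intro s hs t ht hst
    exact hinj s (Finset.mem_range.1 hs) t (Finset.mem_range.1 ht) hst
  set I : Finset ℕ := insert i (insert j R) with hI
  have hIm : ∀ m ∈ I, m < q ∧ ¬ (D.Adj z (a m) ∨ D.Adj z (b m)) := by
    intro m hm
    rcases Finset.mem_insert.1 hm with rfl | hm
    · exact ⟨by omega, zi⟩
    · rcases Finset.mem_insert.1 hm with rfl | hm
      · exact ⟨by omega, zj⟩
      · exact ⟨by have := (hRm m hm).1; omega, (hRm m hm).2⟩
  have ab : ∀ s < n, ∀ t < n, s ≠ t → ¬ D.Adj (a s) (b t) := fun s hs t ht hst h =>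
    hst ((im s hs t ht).1.1 h)
  have ba : ∀ s < n, ∀ t < n, s ≠ t → ¬ D.Adj (b s) (a t) := fun s hs t ht hst h =>
    hst ((im t ht s hs).1.1 h.symm).symm
  have xe := hF.lad.xb e (by omega)
  have ya : ∀ m < n, ¬ D.Adj y (a m) := fun m hm => hF.ex y (n - 1) hn1 m hm hyn
  -- vertices which see `b e` and `b (e + 1)` are not vertices of the matching
  have big : ∀ v, D.Adj v (b e) → D.Adj v (b (e + 1)) → ∀ m < n, v ≠ b m ∧ v ≠ a m := by
    intro v h1 h2 m hm
    refine ⟨?_, ?_⟩
    · rintro rfl
      exact (im m hm e (by omega)).2.2 h1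
    · rintro rfl
      have e1 := (im m hm e (by omega)).1.1 h1
      have e2 := (im m hm (e + 1) (by omega)).1.1 h2
      omega
  have hfe := hf e le_rfl (by omega)
  have hfe1 := hf (e + 1) (by omega) (by omega)
  have hxe : D.Adj (x e) (b e) := (xe e (by omega)).2 le_rfl
  have hxe1 : D.Adj (x e) (b (e + 1)) := (xe (e + 1) (by omega)).2 (by omega)
  have hzbig : ∀ v, D.Adj v (b e) → D.Adj v (b (e + 1)) → v ≠ z := by
    rintro v h1 h2 rfl
    have := hz' e (by omega) (e + 1) (by omega) (Or.inr h1) (Or.inr h2)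
    omega
  have hBM : BMt D I (fun m => {b m}) (fun m => {a m}) := by
    refine ⟨fun m _ => Finset.singleton_nonempty _, fun m _ => Finset.singleton_nonempty _, ?_,
      ?_, ?_, ?_⟩
    · intro m hm
      exact cmp11.2 (im.edge (by have := (hIm m hm).1; omega)).symm
    · intro s hs t ht hst
      have h1 := (hIm s hs).1
      have h2 := (hIm t ht).1
      refine ⟨Finset.disjoint_singleton.2 fun h => hst (im.inj_b (by omega) (by omega) h), ?_⟩
      rw [cmp11]
      exact (im s (by omega) t (by omega)).2.2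
    · intro s hs t ht hst
      have h1 := (hIm s hs).1
      have h2 := (hIm t ht).1
      refine ⟨Finset.disjoint_singleton.2 (im.ne_ab (by omega) (by omega)).symm, ?_⟩
      rw [cmp11]
      exact ba s (by omega) t (by omega) hst
    · intro s hs t ht hst
      have h1 := (hIm s hs).1
      have h2 := (hIm t ht).1
      refine ⟨Finset.disjoint_singleton.2 fun h => hst (im.inj_a (by omega) (by omega) h), ?_⟩
      rw [cmp11]
      exact (im s (by omega) t (by omega)).2.1
  have hlt := hL3 k V D I (fun m => {b m}) (fun m => {a m}) {f, x e} {b (n - 1)} {y} {z} i j hT hN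
    hBM ⟨f, by simp⟩ ⟨b (n - 1), by simp⟩ ⟨y, by simp⟩ ⟨z, by simp⟩ ?_ ?_ ?_ ?_ ?_ ?_ ?_ ?_ ?_ ?_ ?_
    (Finset.mem_insert_self _ _) (Finset.mem_insert_of_mem (Finset.mem_insert_self _ _)) hne
    ?_ ?_ R (fun m hm => Finset.mem_insert_of_mem (Finset.mem_insert_of_mem hm)) ?_
  · omega
  · intro m hm
    have h1 := (hIm m hm).1
    refine ⟨?_, ?_⟩
    · rw [Finset.disjoint_singleton_right, Finset.mem_insert, Finset.mem_singleton]
      rintro (h | h)
      · exact (big f hfe hfe1 m (by omega)).1 h.symm
      · exact (big (x e) hxe hxe1 m (by omega)).1 h.symm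
    · rw [Finset.disjoint_singleton_right, Finset.mem_insert, Finset.mem_singleton]
      rintro (h | h)
      · exact (big f hfe hfe1 m (by omega)).2 h.symm
      · exact (big (x e) hxe hxe1 m (by omega)).2 h.symm
  · intro m hm
    have h1 := (hIm m hm).1
    refine ⟨Finset.disjoint_singleton.2 fun h => ?_,
      Finset.disjoint_singleton.2 (im.ne_ab (by omega) hn1).symm, ?_, ?_⟩
    · have := im.inj_b hn1 (by omega) h
      omega
    · rw [cmp11]
      exact (im (n - 1) hn1 m (by omega)).2.2
    · rw [cmp11]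
      exact ba (n - 1) hn1 m (by omega) (by omega)
  · intro m hm
    have h1 := (hIm m hm).1
    refine ⟨Finset.disjoint_singleton.2 ?_, Finset.disjoint_singleton.2 ?_, ?_, ?_⟩
    · rintro rfl
      exact (im m (by omega) (n - 1) hn1).2.2 hyn
    · rintro rfl
      exact ab m (by omega) (n - 1) hn1 (by omega) hyn
    · rw [cmp11]
      exact Ps.miss hy (by omega) h1
    · rw [cmp11]
      exact ya m (by omega)
  · intro m hm
    have h1 := (hIm m hm).1
    have h2 := (hIm m hm).2
    refine ⟨Finset.disjoint_singleton.2 ?_, Finset.disjoint_singleton.2 ?_, ?_, ?_⟩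
    · rintro rfl
      exact h2 (Or.inl (im.edge (by omega)).symm)
    · rintro rfl
      exact h2 (Or.inr (im.edge (by omega)))
    · rw [cmp11]
      exact fun h => h2 (Or.inr h)
    · rw [cmp11]
      exact fun h => h2 (Or.inl h)
  · rw [Finset.disjoint_singleton_right, Finset.mem_insert, Finset.mem_singleton]
    rintro (h | h)
    · rw [← h] at hfe
      exact Ps.miss hy (by omega) (by omega) hfe
    · rw [← h] at hxe
      exact Ps.miss hy (by omega) (by omega) hxe
  · rw [Finset.disjoint_singleton_right, Finset.mem_insert, Finset.mem_singleton]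
    rintro (h | h)
    · exact hzbig f hfe hfe1 h.symm
    · exact hzbig (x e) hxe hxe1 h.symm
  · exact Finset.disjoint_singleton.2 hzb.symm
  · intro u hu v hv
    rw [Finset.mem_singleton] at hv
    subst hv
    rcases Finset.mem_insert.1 hu with rfl | hu
    · exact hf (n - 1) (by omega) hn1
    · rw [Finset.mem_singleton] at hu
      subst hu
      exact (xe (n - 1) hn1).2 (by omega)
  · exact cmp11.2 hyn.symm
  · exact cmp11.2 hyz
  · intro h
    exact hnz (h f (by simp) z (by simp))
  · left
    intro u hu v hv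
    rw [Finset.mem_singleton] at hv
    subst hv
    rcases Finset.mem_insert.1 hu with rfl | hu
    · exact hf i hi1 (by omega)
    · rw [Finset.mem_singleton] at hu
      subst hu
      exact (xe i (by omega)).2 hi1
  · left
    intro u hu v hv
    rw [Finset.mem_singleton] at hv
    subst hv
    rcases Finset.mem_insert.1 hu with rfl | hu
    · exact hf j hj1 (by omega)
    · rw [Finset.mem_singleton] at hu
      subst hu
      exact (xe j (by omega)).2 hj1
  · intro m hm h
    have h1 := (hRm m hm).1
    rcases h with h | h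
    · have h2 := h (x e) (by simp) (b m) (by simp)
      have h3 := (xe m (by omega)).1 h2
      omega
    · exact hF.lad.xa e (by omega) m (by omega) (h (x e) (by simp) (a m) (by simp))

end Pool.Agent.MPd439b2.SA
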