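import Pool.Agent.Lib.MP_d439b2_co.SA.SpecA
import Pool.Agent.Lib.MP_d439b2_co.W.RamC

/-!
# MP_d439b2_co, SA, A12: a chain of traces gives a ladder (helper70)
-/

set_option autoImplicit false

namespace Pool.Agent.MPd439b2.SA

open Pool.Agent.MPd439b2 Pool.Agent.MPd439b2.W

namespace ChLx

variable {V : Type} {D : SimpleGraph V}

open Classical in
/-- exchange the ends of some edges -/
theorem flip {m : ℕ} {a b : ℕ → V} (h : IM D m a b) (c : ℕ → Prop) :
    IM D m (fun j => if c j then a j else b j) (fun j => if c j then b j else a j) := by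
  intro i hi j hj
  have h1 := h i hi j hj
  have h2 := h j hj i hi
  by_cases ci : c i <;> by_cases cj : c j
  · simp only [if_pos ci, if_pos cj]
    exact h1
  · simp only [if_pos ci, if_neg cj]
    have hne : i ≠ j := fun h => cj (h ▸ ci)
    exact ⟨⟨fun h => absurd h h1.2.1, fun h => absurd h hne⟩, fun h => hne (h1.1.1 h),
      fun h => hne (h2.1.1 h.symm).symm⟩
  · simp only [if_neg ci, if_pos cj]
    have hne : i ≠ j := fun h => ci (h ▸ cj)
    exact ⟨⟨fun h => absurd h h1.2.2, fun h => absurd h hne⟩, fun h => hne (h2.1.1 h.symm).symm,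
      fun h => hne (h1.1.1 h)⟩
  · simp only [if_neg ci, if_neg cj]
    exact h.swap i hi j hj

/-- increasing enumeration -/
theorem enum (K : Finset ℕ) : ∃ f : ℕ → ℕ, (∀ t < K.card, f t ∈ K) ∧
    ∀ t u, t < u → u < K.card → f t < f u := by
  refine ⟨fun t => if h : t < K.card then K.orderEmbOfFin rfl ⟨t, h⟩ else 0, fun t ht => ?_,
    fun t u htu hu => ?_⟩
  · simp only [dif_pos ht]
    exact K.orderEmbOfFin_mem rfl _
  · simp only [dif_pos (htu.trans hu), dif_pos hu]
    exact (K.orderEmbOfFin rfl).strictMono htu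

/-- the ladder from indices of the same kind -/
theorem fin {m r : ℕ} {A B w : ℕ → V} (him : IM D m A B) (K : Finset ℕ)
    (hK : K ⊆ Finset.range m) (hr : r + 1 ≤ K.card)
    (h : ∀ i ∈ K, ∀ j < m, (D.Adj (w i) (B j) ↔ i < j) ∧ ¬ D.Adj (w i) (A j)) :
    ∃ (f : ℕ → ℕ) (x : ℕ → V), (∀ t < r, f t < m) ∧
      Lad D r (fun t => A (f t)) (fun t => B (f t)) x := by
  obtain ⟨g, hg, hgm⟩ := enum K
  have hlt : ∀ t u, t ≤ r → u ≤ r → (g t < g u ↔ t < u) := by
    intro t u ht hu
    constructor
    · intro h1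
      rcases Nat.lt_trichotomy t u with h2 | h2 | h2
      · exact h2
      · rw [h2] at h1
        exact absurd h1 (lt_irrefl _)
      · have := hgm u t h2 (by omega)
        omega
    · intro h1
      exact hgm t u h1 (by omega)
  have hgr : ∀ t, t ≤ r → g t < m := fun t ht => Finset.mem_range.1 (hK (hg t (by omega)))
  refine ⟨fun t => g (t + 1), fun t => w (g t), fun t ht => hgr _ (by omega), ?_, ?_, ?_⟩
  · refine him.comp (fun t => g (t + 1)) (fun t ht => hgr _ (by omega)) ?_
    intro i hi j hj hij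
    have h1 := hlt (i + 1) (j + 1) (by omega) (by omega)
    have h2 := hlt (j + 1) (i + 1) (by omega) (by omega)
    have hij' : g (i + 1) = g (j + 1) := hij
    rw [hij'] at h1 h2
    have h3 : ¬ (i + 1 < j + 1) := fun h => lt_irrefl _ (h1.2 h)
    have h4 : ¬ (j + 1 < i + 1) := fun h => lt_irrefl _ (h2.2 h)
    omega
  · intro i hi j hj
    rw [(h (g i) (hg i (by omega)) (g (j + 1)) (hgr _ (by omega))).1, hlt i (j + 1) (by omega)
      (by omega)]
    omega
  · intro i hi j hj
    exact (h (g i) (hg i (by omega)) (g (j + 1)) (hgr _ (by omega))).2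

end ChLx

open ChLx

theorem pChL (h1 : S_RV) (h2 : S_Sgn) (h3 : S_CoMs) (_ : S_T1) : S_ChL := by
  classical
  intro k r
  obtain ⟨m₀, hm₀⟩ := h3 k
  obtain ⟨N₁, hN₁⟩ := h2 k m₀
  obtain ⟨m', hm'⟩ : ∃ m', m' = max N₁ (2 * r + 8) := ⟨_, rfl⟩
  have hmN : N₁ ≤ m' := hm' ▸ le_max_left _ _
  have hmr : 2 * r + 8 ≤ m' := hm' ▸ le_max_right _ _
  obtain ⟨R, hR⟩ := ramC Prop m'
  refine ⟨k * m' + k + 2, R, ?_⟩
  intro n V D a b v J ht hk him hJ0 hJR hJ
  have hcom := hm₀ V D ht hk
  -- monotonicity
  have hmon : ∀ d s, s + d ≤ R → J (s + d) ⊆ J s := by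
    intro d
    induction d with
    | zero =>
      intro s _
      exact Finset.Subset.refl _
    | succ d ih =>
      intro s hs
      have h4 := (hJ (s + d) (by omega)).1
      rw [← Nat.add_assoc, h4]
      exact Finset.inter_subset_left.trans (ih s (by omega))
  have hmono : ∀ s t, s ≤ t → t ≤ R → J t ⊆ J s := by
    intro s t hst htR
    have h4 := hmon (t - s) s (by omega)
    rwa [Nat.add_sub_cancel' hst] at h4
  have hsub : ∀ s t, s < t → t ≤ R → J t ⊆ Jt D n a b (v s) := by
    intro s t hst htR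
    refine (hmono (s + 1) t hst htR).trans ?_
    rw [(hJ s (by omega)).1]
    exact Finset.inter_subset_right
  have hrange : ∀ s, s ≤ R → J s ⊆ Finset.range n :=
    fun s hs => (hmono 0 s (Nat.zero_le _) hs).trans hJ0
  obtain ⟨l, hl⟩ := hJR
  -- (1)
  have claim : ∀ s t, s < t → t < R → (∀ m ∈ J s \ Jt D n a b (v s), m ∉ Jt D n a b (v t)) ∨
      ((J s \ Jt D n a b (v s)) \ Jt D n a b (v t)).card < k := by
    intro s t hst htR
    by_contra hcon
    push Not at hcon
    obtain ⟨⟨m, hm, hmt⟩, hcard⟩ := hcon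
    have hq := (hJ t htR).2
    obtain ⟨i, hi, j, hj, hij⟩ := Finset.one_lt_card.1
      (show 1 < (J t \ Jt D n a b (v t)).card by omega)
    rw [Finset.mem_sdiff] at hi hj hm
    have hits := hsub s t hst htR.le hi.1
    have hjts := hsub s t hst htR.le hj.1
    have hne : v s ≠ v t := fun h => hi.2 (h ▸ hits)
    have key := h1 k n V D a b (J s) (v s) (v t) ht hk him (hrange s (by omega)) hne
      ⟨(J s \ Jt D n a b (v s)) \ Jt D n a b (v t),
        Finset.sdiff_subset.trans Finset.sdiff_subset, hcard, fun x hx => by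
          rw [Finset.mem_sdiff, Finset.mem_sdiff] at hx
          exact ⟨hx.1.2, hx.2⟩⟩
      ⟨i, hmono s t hst.le htR.le hi.1, j, hmono s t hst.le htR.le hj.1, hij, hits, hjts,
        hi.2, hj.2⟩
      l (hmono s R (by omega) le_rfl hl) (hsub s R (by omega) le_rfl hl)
      (hsub t R htR le_rfl hl)
    exact hm.2 (key.1 m hm.1 hmt)
  -- (2)
  obtain ⟨s, c, hs, hsR, hc⟩ := hR fun s t =>
    ∀ m ∈ J s \ Jt D n a b (v s), m ∉ Jt D n a b (v t)
  have hdif : ∀ i < m', k * m' + k + 2 ≤ (J (s i) \ Jt D n a b (v (s i))).card :=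
    fun i hi => (hJ (s i) (hsR i hi)).2
  have hafter : ∀ i j, i < j → j < m' → ∀ e ∈ J (s j), e ∈ Jt D n a b (v (s i)) :=
    fun i j hij hj e he => hsub (s i) (s j) (hs i j hij hj) (hsR j hj).le he
  by_cases hcc : c
  · -- (4)
    have hch : ∀ i, ∃ e, i < m' → e ∈ J (s i) \ Jt D n a b (v (s i)) := by
      intro i
      by_cases hi : i < m'
      · obtain ⟨e, he⟩ := Finset.card_pos.1 (lt_of_lt_of_le (by omega) (hdif i hi))
        exact ⟨e, fun _ => he⟩
      · exact ⟨0, fun h => absurd h hi⟩
    choose e he using hch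
    have hen : ∀ i < m', e i < n := fun i hi =>
      Finset.mem_range.1 (hrange (s i) (hsR i hi).le (Finset.mem_sdiff.1 (he i hi)).1)
    have hmem : ∀ i < m', ∀ j < m', (e j ∈ Jt D n a b (v (s i)) ↔ i < j) := by
      intro i hi j hj
      rcases Nat.lt_trichotomy i j with h | h | h
      · exact ⟨fun _ => h, fun _ => hafter i j h hj _ (Finset.mem_sdiff.1 (he j hj)).1⟩
      · subst h
        exact ⟨fun h => absurd h (Finset.mem_sdiff.1 (he i hi)).2,
          fun h => absurd h (lt_irrefl _)⟩
      · refine ⟨fun h' => absurd h' ?_, fun h' => by omega⟩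
        have h4 := hc j i h hi
        have h5 : (∀ m ∈ J (s j) \ Jt D n a b (v (s j)), m ∉ Jt D n a b (v (s i))) := by
          rw [h4]
          exact hcc
        exact h5 (e j) (he j hj)
    have hinj : ∀ i < m', ∀ j < m', e i = e j → i = j := by
      intro i hi j hj hij
      have h4 := hmem i hi j hj
      have h5 := hmem i hi i hi
      have h6 := hmem j hj i hi
      have h7 := hmem j hj j hj
      rw [← hij] at h4 h7
      have h8 : ¬ i < j := fun h => lt_irrefl _ (h5.1 (h4.2 h))
      have h9 : ¬ j < i := fun h => lt_irrefl _ (h7.1 (h6.2 h))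
      omega
    -- untouched indices
    obtain ⟨R₀, hR₀⟩ : ∃ R₀, R₀ = J (s 0) \ Jt D n a b (v (s 0)) := ⟨_, rfl⟩
    have hR₀c : k ≤ R₀.card := by
      have := hdif 0 (by omega)
      rw [hR₀]
      omega
    have hR₀n : R₀ ⊆ Finset.range n := by
      rw [hR₀]
      exact Finset.sdiff_subset.trans (hrange (s 0) (hsR 0 (by omega)).le)
    have hR₀u : ∀ i < m', ∀ x ∈ R₀, x ∉ Jt D n a b (v (s i)) := by
      intro i hi x hx
      rw [hR₀] at hx
      rcases Nat.eq_zero_or_pos i with h | h
      · rw [h]
        exact (Finset.mem_sdiff.1 hx).2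
      · have h4 := hc 0 i h hi
        have h5 : (∀ m ∈ J (s 0) \ Jt D n a b (v (s 0)), m ∉ Jt D n a b (v (s i))) := by
          rw [h4]
          exact hcc
        exact h5 x hx
    -- ends
    have him' : IM D m' (fun j => a (e j)) (fun j => b (e j)) := him.comp e hen hinj
    have hfl := flip him' fun j => D.Adj (v (s 0)) (b (e j))
    obtain ⟨A, hA⟩ : ∃ A : ℕ → V, A = fun j =>
      if D.Adj (v (s 0)) (b (e j)) then a (e j) else b (e j) := ⟨_, rfl⟩
    obtain ⟨B, hB⟩ : ∃ B : ℕ → V, B = fun j =>
      if D.Adj (v (s 0)) (b (e j)) then b (e j) else a (e j) := ⟨_, rfl⟩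
    have hAB : IM D m' A B := by
      rw [hA, hB]
      exact hfl
    have hend : ∀ j, (A j = a (e j) ∧ B j = b (e j)) ∨ (A j = b (e j) ∧ B j = a (e j)) := by
      intro j
      rw [hA, hB]
      by_cases h : D.Adj (v (s 0)) (b (e j))
      · left
        simp only [if_pos h, and_self]
      · right
        simp only [if_neg h, and_self]
    have htou : ∀ i < m', ∀ j < m', ((D.Adj (v (s i)) (A j) ∨ D.Adj (v (s i)) (B j)) ↔ i < j) := by
      intro i hi j hj
      rw [← hmem i hi j hj, mem_Jt]
      rcases hend j with h | h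
      · rw [h.1, h.2]
        exact ⟨fun h => ⟨hen j hj, h⟩, fun h => h.2⟩
      · rw [h.1, h.2]
        exact ⟨fun h => ⟨hen j hj, h.symm⟩, fun h => h.2.symm⟩
    have hv0 : ∀ j < m', 0 < j → D.Adj (v (s 0)) (B j) := by
      intro j hj h0
      have h4 := (hmem 0 (by omega) j hj).2 h0
      rw [mem_Jt] at h4
      rw [hB]
      by_cases h : D.Adj (v (s 0)) (b (e j))
      · simp only [if_pos h]
        exact h
      · simp only [if_neg h]
        exact h4.2.resolve_right h
    -- the two kinds
    have hkind : ∀ i, 3 ≤ i → i < m' → ∀ j, i < j → j < m' →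
        (¬ D.Adj (v (s 0)) (v (s i)) → D.Adj (v (s i)) (B j) ∧ ¬ D.Adj (v (s i)) (A j)) ∧
        (D.Adj (v (s 0)) (v (s i)) → D.Adj (v (s i)) (A j) ∧ ¬ D.Adj (v (s i)) (B j)) := by
      intro i hi3 hi j hij hj
      have e1 : e 1 ∈ Jt D n a b (v (s 0)) := (hmem 0 (by omega) 1 (by omega)).2 (by omega)
      have e2 : e 2 ∈ Jt D n a b (v (s 0)) := (hmem 0 (by omega) 2 (by omega)).2 (by omega)
      have e1' : e 1 ∉ Jt D n a b (v (s i)) := fun h => by
        have := (hmem i hi 1 (by omega)).1 h
        omega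
      have e2' : e 2 ∉ Jt D n a b (v (s i)) := fun h => by
        have := (hmem i hi 2 (by omega)).1 h
        omega
      have hne : v (s 0) ≠ v (s i) := fun h => e1' (h ▸ e1)
      have h12 : e 1 ≠ e 2 := fun h => by
        have := hinj 1 (by omega) 2 (by omega) h
        omega
      have key := h1 k n V D a b (Finset.range n) (v (s 0)) (v (s i)) ht hk him
        (Finset.Subset.refl _) hne
        ⟨R₀, hR₀n, hR₀c, fun x hx => ⟨hR₀u 0 (by omega) x hx, hR₀u i hi x hx⟩⟩
        ⟨e 1, Finset.mem_range.2 (hen 1 (by omega)), e 2, Finset.mem_range.2 (hen 2 (by omega)),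
          h12, e1, e2, e1', e2'⟩
        (e j) (Finset.mem_range.2 (hen j hj)) ((hmem 0 (by omega) j hj).2 (by omega))
        ((hmem i hi j hj).2 hij)
      have h0B := hv0 j hj (by omega)
      have hABj : D.Adj (A j) (B j) := hAB.edge hj
      have h0A : ¬ D.Adj (v (s 0)) (A j) := fun h => ht _ _ _ h h0B hABj
      constructor
      · intro hna
        have h5 : D.Adj (v (s i)) (B j) := by
          rcases key.2.1 hna with h | h
          · rcases hend j with h' | h'
            · rw [h'.1] at h0A
              exact absurd h.1 h0A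
            · rw [h'.2]
              exact h.2
          · rcases hend j with h' | h'
            · rw [h'.2]
              exact h.2
            · rw [h'.1] at h0A
              exact absurd h.1 h0A
        exact ⟨h5, fun h => ht _ _ _ h h5 hABj⟩
      · intro hna
        have h5 : D.Adj (v (s i)) (A j) := by
          rcases key.2.2 hna with h | h
          · rcases hend j with h' | h'
            · rw [h'.1] at h0A
              exact absurd h.1 h0A
            · rw [h'.1]
              exact h.2
          · rcases hend j with h' | h'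
            · rw [h'.1]
              exact h.2
            · rw [h'.1] at h0A
              exact absurd h.1 h0A
        exact ⟨h5, fun h => ht _ _ _ h5 h hABj⟩
    -- pigeonhole
    obtain ⟨K₁, hK₁⟩ : ∃ K, K = (Finset.Ico 3 m').filter fun i => D.Adj (v (s 0)) (v (s i)) :=
      ⟨_, rfl⟩
    obtain ⟨K₂, hK₂⟩ : ∃ K, K = (Finset.Ico 3 m').filter fun i => ¬ D.Adj (v (s 0)) (v (s i)) :=
      ⟨_, rfl⟩
    have hsum : K₁.card + K₂.card = m' - 3 := by
      rw [hK₁, hK₂, Finset.card_filter_add_card_filter_not, Nat.card_Ico]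
    rcases Nat.lt_or_ge r K₁.card with hr | hr
    · obtain ⟨f, x, hf, hlad⟩ := fin (w := fun i => v (s i)) (r := r) hAB.swap K₁ (by
        intro i hi
        rw [hK₁, Finset.mem_filter, Finset.mem_Ico] at hi
        exact Finset.mem_range.2 hi.1.2) (by omega) (by
        intro i hi j hj
        rw [hK₁, Finset.mem_filter, Finset.mem_Ico] at hi
        have h5 := htou i hi.1.2 j hj
        rcases Nat.lt_or_ge i j with h | h
        · have h6 := (hkind i hi.1.1 hi.1.2 j h hj).2 hi.2
          exact ⟨⟨fun _ => h, fun _ => h6.1⟩, h6.2⟩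
        · have h7 : ¬ i < j := by omega
          exact ⟨⟨fun h' => absurd (h5.1 (Or.inl h')) h7, fun h' => absurd h' h7⟩,
            fun h' => h7 (h5.1 (Or.inr h'))⟩)
      refine ⟨fun t => e (f t), fun t => B (f t), fun t => A (f t), x, fun i hi =>
        ⟨hen _ (hf i hi), ?_⟩, hlad⟩
      rcases hend (f i) with h | h
      · exact Or.inr ⟨h.2, h.1⟩
      · exact Or.inl ⟨h.2, h.1⟩
    · obtain ⟨f, x, hf, hlad⟩ := fin (w := fun i => v (s i)) (r := r) hAB K₂ (by
        intro i hi
        rw [hK₂, Finset.mem_filter, Finset.mem_Ico] at hi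
        exact Finset.mem_range.2 hi.1.2) (by omega) (by
        intro i hi j hj
        rw [hK₂, Finset.mem_filter, Finset.mem_Ico] at hi
        have h5 := htou i hi.1.2 j hj
        rcases Nat.lt_or_ge i j with h | h
        · have h6 := (hkind i hi.1.1 hi.1.2 j h hj).1 hi.2
          exact ⟨⟨fun _ => h, fun _ => h6.1⟩, h6.2⟩
        · have h7 : ¬ i < j := by omega
          exact ⟨⟨fun h' => absurd (h5.1 (Or.inr h')) h7, fun h' => absurd h' h7⟩,
            fun h' => h7 (h5.1 (Or.inl h'))⟩)
      exact ⟨fun t => e (f t), fun t => A (f t), fun t => B (f t), x, fun i hi =>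
        ⟨hen _ (hf i hi), hend (f i)⟩, hlad⟩
  · -- (3)
    exfalso
    have hch : ∀ i, ∃ e, i < m' → e ∈ J (s i) \ Jt D n a b (v (s i)) ∧
        ∀ j, i < j → j < m' → e ∈ Jt D n a b (v (s j)) := by
      intro i
      by_cases hi : i < m'
      · obtain ⟨E, hE⟩ : ∃ E, E = J (s i) \ Jt D n a b (v (s i)) := ⟨_, rfl⟩
        obtain ⟨U, hU⟩ : ∃ U, U = ((Finset.range m').filter fun j => i < j).biUnion fun j =>
          E \ Jt D n a b (v (s j)) := ⟨_, rfl⟩
        have hUc : U.card ≤ m' * k := by
          rw [hU]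
          have h4 : ∀ j ∈ (Finset.range m').filter fun j => i < j,
              (E \ Jt D n a b (v (s j))).card ≤ k := by
            intro j hj
            rw [Finset.mem_filter, Finset.mem_range] at hj
            have h5 := hc i j hj.2 hj.1
            rcases claim (s i) (s j) (hs i j hj.2 hj.1) (hsR j hj.1) with h6 | h6
            · exact absurd (h5 ▸ h6) hcc
            · rw [hE]
              exact h6.le
          refine (Finset.card_biUnion_le_card_mul _ _ k h4).trans ?_
          refine Nat.mul_le_mul_right k ?_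
          exact (Finset.card_filter_le _ _).trans (by rw [Finset.card_range])
        have hlt : U.card < E.card := by
          have h5 := hdif i hi
          rw [← hE] at h5
          have h6 : m' * k = k * m' := Nat.mul_comm _ _
          omega
        obtain ⟨e, he, heU⟩ := Finset.exists_mem_notMem_of_card_lt_card hlt
        refine ⟨e, fun _ => ⟨hE ▸ he, fun j hij hj => ?_⟩⟩
        by_contra hcon
        apply heU
        rw [hU, Finset.mem_biUnion]
        exact ⟨j, Finset.mem_filter.2 ⟨Finset.mem_range.2 hj, hij⟩,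
          Finset.mem_sdiff.2 ⟨he, hcon⟩⟩
      · exact ⟨0, fun h => absurd h hi⟩
    choose e he using hch
    have hen : ∀ i < m', e i < n := fun i hi =>
      Finset.mem_range.1 (hrange (s i) (hsR i hi).le (Finset.mem_sdiff.1 (he i hi).1).1)
    have hmem : ∀ i < m', ∀ j < m', i ≠ j → e j ∈ Jt D n a b (v (s i)) := by
      intro i hi j hj hij
      rcases Nat.lt_or_ge i j with h | h
      · exact hafter i j h hj _ (Finset.mem_sdiff.1 (he j hj).1).1
      · exact (he j hj).2 i (by omega) hi
    have hnm : ∀ i < m', e i ∉ Jt D n a b (v (s i)) :=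
      fun i hi => (Finset.mem_sdiff.1 (he i hi).1).2
    have hinj : ∀ i < m', ∀ j < m', e i = e j → i = j := by
      intro i hi j hj hij
      by_contra hne
      have h4 := hmem i hi j hj hne
      rw [← hij] at h4
      exact hnm i hi h4
    refine hN₁ V D (fun i => v (s i)) (fun j => a (e j)) (fun j => b (e j)) ht hk hcom
      ((him.comp e hen hinj).mono hmN) ?_ ?_
    · intro i hi
      have h4 := hnm i (by omega)
      rw [mem_Jt] at h4
      push Not at h4
      exact h4 (hen i (by omega))
    · intro i hi j hj hij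
      have h4 := hmem i (by omega) j (by omega) hij
      rw [mem_Jt] at h4
      exact h4.2

end Pool.Agent.MPd439b2.SA
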