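import Pool.Agent.Lib.MP_d439b2_co.SA.SpecA

/-!
# MP_d439b2_co, SA, A10: chains of traces
-/

set_option autoImplicit false

namespace Pool.Agent.MPd439b2.SA

open Pool.Agent.MPd439b2 Pool.Agent.MPd439b2.W

namespace Chnx

theorem claim (q s : ℕ) : ∀ R : ℕ, ∃ n : ℕ, 1 ≤ n ∧ ∀ (V : Type) [Nonempty V] (T : V → Finset ℕ)
    (I : Finset ℕ), n ≤ I.card →
    (∃ (v : ℕ → V) (J : ℕ → Finset ℕ), J 0 = I ∧ (J R).Nonempty ∧
      ∀ t < R, J (t + 1) = J t ∩ T (v t) ∧ q ≤ (J t \ T (v t)).card) ∨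
    ∃ (I' : Finset ℕ) (m : ℕ), I' ⊆ I ∧ 1 ≤ m ∧ s * m < I'.card ∧
      ∀ v, (I' ∩ T v).card < m ∨ (I' \ T v).card < q := by
  intro R
  induction R with
  | zero =>
    refine ⟨1, le_refl 1, fun V _ T I hI => Or.inl ?_⟩
    exact ⟨fun _ => Classical.arbitrary V, fun _ => I, rfl, (Finset.card_pos.1 hI : I.Nonempty),
      fun t ht => absurd ht (Nat.not_lt_zero t)⟩
  | succ R ih =>
    obtain ⟨n, hn1, hn⟩ := ih
    refine ⟨s * n + 1, by omega, fun V _ T I hI => ?_⟩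
    by_cases h : ∃ v, n ≤ (I ∩ T v).card ∧ q ≤ (I \ T v).card
    · obtain ⟨v, hv1, hv2⟩ := h
      rcases hn V T (I ∩ T v) hv1 with ⟨w, J, hJ0, hJR, hJ⟩ | ⟨I', m, h1, h2, h3, h4⟩
      · left
        refine ⟨fun i => Nat.casesOn i v w, fun i => Nat.casesOn i I J, rfl, hJR, ?_⟩
        intro t ht
        cases t with
        | zero => exact ⟨hJ0, hv2⟩
        | succ t => exact hJ t (by omega)
      · exact Or.inr ⟨I', m, h1.trans Finset.inter_subset_left, h2, h3, h4⟩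
    · right
      refine ⟨I, n, Finset.Subset.refl I, hn1, by omega, fun v => ?_⟩
      by_contra hcon
      push Not at hcon
      exact h ⟨v, hcon⟩

end Chnx

theorem pChn : S_Chn := by
  intro q R s
  obtain ⟨n, hn1, hn⟩ := Chnx.claim q s R
  refine ⟨max n (s + 1), fun V T I hI => ?_⟩
  rcases isEmpty_or_nonempty V with hV | hV
  · right
    refine ⟨I, 1, Finset.Subset.refl I, le_refl 1, ?_, fun v => (hV.false v).elim⟩
    have := le_max_right n (s + 1)
    omega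
  · exact hn V T I ((le_max_left _ _).trans hI)

end Pool.Agent.MPd439b2.SA
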