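import Pool.Agent.Lib.MP_d439b2_co.SA.SpecA
import Pool.Agent.Lib.MP_d439b2_co.W.Dig

/-!
# MP_d439b2_co, SA, A14: cleaning the full vertices
-/

set_option autoImplicit false

namespace Pool.Agent.MPd439b2.SA

open Pool.Agent.MPd439b2 Pool.Agent.MPd439b2.W

namespace Clnx

variable {V : Type} {D : SimpleGraph V}

/-- enumeration of a finite set of numbers -/
theorem enum (J : Finset ℕ) (m : ℕ) (hJ : J.card = m) :
    ∃ e : ℕ → ℕ, (∀ i < m, e i ∈ J) ∧ ∀ i < m, ∀ j < m, e i = e j → i = j := by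
  refine ⟨fun i => if h : i < m then J.orderEmbOfFin hJ ⟨i, h⟩ else 0, fun i hi => ?_,
    fun i hi j hj h => ?_⟩
  · simp only [dif_pos hi]
    exact J.orderEmbOfFin_mem hJ ⟨i, hi⟩
  · simp only [dif_pos hi, dif_pos hj] at h
    have h1 := (J.orderEmbOfFin hJ).injective h
    exact Fin.mk.inj_iff.1 h1

theorem coM_mono {m m' : ℕ} (h : m' ≤ m) (hC : CoM D m) : CoM D m' := by
  obtain ⟨a, b, hab⟩ := hC
  exact ⟨a, b, fun i hi j hj => hab i (by omega) j (by omega)⟩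

/-- few indices are not touched by some full vertex -/
theorem few_bad {k m₀ N₁ q n : ℕ} {a b : ℕ → V}
    (hS : ∀ (v a b : ℕ → V), TriFree D → NoSpi k D → ¬ CoM D m₀ → IM D N₁ a b →
      (∀ i < N₁, ¬ D.Adj (v i) (a i) ∧ ¬ D.Adj (v i) (b i)) →
      ¬ ∀ i < N₁, ∀ j < N₁, i ≠ j → (D.Adj (v i) (a j) ∨ D.Adj (v i) (b j)))
    (hT : TriFree D) (hN : NoSpi k D) (hC : ¬ CoM D m₀) (hI : IM D n a b) (Bd : Finset ℕ)
    (hBd : ∀ c ∈ Bd, c < n ∧ ∃ f, (Finset.range n \ Jt D n a b f).card ≤ q ∧ c ∉ Jt D n a b f) :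
    Bd.card < (2 * q + 1) * N₁ ∨ N₁ = 0 := by
  by_contra hcon
  rw [not_or, not_lt] at hcon
  obtain ⟨h1, h2⟩ := hcon
  have hne : Nonempty V := by
    have h3 : 0 < (2 * q + 1) * N₁ := Nat.mul_pos (by omega) (Nat.pos_of_ne_zero h2)
    obtain ⟨c, hc⟩ := Finset.card_pos.1 (h3.trans_le h1)
    obtain ⟨_, f, _⟩ := hBd c hc
    exact ⟨f⟩
  choose! hlt f hf1 hf2 using hBd
  obtain ⟨J, hJ, hJc, hJR⟩ := W.dig q N₁ Bd (fun c c' => c' ∉ Jt D n a b (f c)) (by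
    intro i hi J hJ hJi
    refine (Finset.card_le_card ?_).trans (hf1 i hi)
    intro j hj
    exact Finset.mem_sdiff.2 ⟨Finset.mem_range.2 (hlt j (hJ hj)), (hJi j hj).2⟩) h1
  obtain ⟨e, he, hinj⟩ := enum J N₁ hJc
  refine hS (fun i => f (e i)) (fun i => a (e i)) (fun i => b (e i)) hT hN hC
    (hI.comp e (fun i hi => hlt _ (hJ (he i hi))) hinj) (fun i hi => ?_) fun i hi j hj hij => ?_
  · have h3 := hf2 (e i) (hJ (he i hi))
    rw [mem_Jt, not_and, not_or] at h3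
    exact h3 (hlt _ (hJ (he i hi)))
  · have h3 := hJR (e i) (he i hi) (e j) (he j hj) fun h => hij (hinj i hi j hj h)
    rw [not_not, mem_Jt] at h3
    exact h3.2

/-- no patterns between the full vertices and the vertices `b c` -/
theorem no3 {k m₀ n₁ m₁ n : ℕ} {a b : ℕ → V}
    (hS : ∀ (a t t' : ℕ → V), TriFree D → NoSpi k D →
      (∀ i < n₁, ∀ j < n₁, (D.Adj (a i) (t j) ↔ j ≤ i)) →
      ¬ ∀ i < n₁, ∀ j < n₁, (D.Adj (a i) (t' j) ↔ i ≤ j))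
    (hT : TriFree D) (hN : NoSpi k D) (hC : ¬ CoM D m₀) (hI : IM D n a b) (hm0 : m₀ ≤ m₁)
    (hn1 : n₁ + 2 ≤ m₁) (G : Finset ℕ) (hG : ∀ c ∈ G, c < n) (A : Set V)
    (hA : ∀ f ∈ A, ∀ c ∈ G, D.Adj f (a c) ∨ D.Adj f (b c)) :
    ¬ Rep.Has3 D A {y | ∃ c ∈ G, y = b c} m₁ := by
  rintro ⟨f, y, h⟩
  have hab : ∀ c ∈ G, ∀ x, D.Adj x (b c) → ¬ D.Adj x (a c) := fun c hc x h1 h2 =>
    hT x (a c) (b c) h2 h1 (hI.edge (hG c hc))
  rcases h with ⟨h1, h2, h3⟩ | ⟨h1, h2, h3⟩ | ⟨h1, h2, h3⟩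
  · choose! c hc1 hc2 using h2
    refine hC (coM_mono hm0 ⟨f, fun j => a (c j), fun i hi j hj => ?_⟩)
    constructor
    · rintro h4 rfl
      refine hab (c i) (hc1 i hi) (f i) ?_ h4
      rw [← hc2 i hi]
      exact (h3 i hi i hi).2 rfl
    · intro h4
      rcases hA (f i) (h1 i hi) (c j) (hc1 j hj) with h5 | h5
      · exact h5
      · rw [← hc2 j hj, h3 i hi j hj] at h5
        exact absurd h5 h4
  · exact hC (coM_mono hm0 ⟨f, y, h3⟩)
  · choose! c hc1 hc2 using h2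
    refine hS (fun i => f (i + 1)) (fun j => a (c j)) (fun j => b (c (j + 1))) hT hN
      (fun i hi j hj => ?_) fun i hi j hj => ?_
    · constructor
      · intro h4
        by_contra h5
        refine hab (c j) (hc1 j (by omega)) (f (i + 1)) ?_ h4
        rw [← hc2 j (by omega)]
        exact (h3 (i + 1) (by omega) j (by omega)).2 (by omega)
      · intro h4
        rcases hA (f (i + 1)) (h1 (i + 1) (by omega)) (c j) (hc1 j (by omega)) with h5 | h5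
        · exact h5
        · rw [← hc2 j (by omega), h3 (i + 1) (by omega) j (by omega)] at h5
          omega
    · show D.Adj (f (i + 1)) (b (c (j + 1))) ↔ i ≤ j
      rw [← hc2 (j + 1) (by omega), h3 (i + 1) (by omega) (j + 1) (by omega)]
      omega

/-- pigeonhole for the traces -/
theorem pigT {ρ N : ℕ} {b : ℕ → V} (G : Finset ℕ) (A : Set V)
    (hTr : (Rep.Tr D A {y | ∃ c ∈ G, y = b c}).encard ≤ ρ) (hG : N * 2 ^ ρ ≤ G.card) :
    ∃ G' ⊆ G, G'.card = N ∧ ∀ f ∈ A, ∀ c ∈ G', ∀ c' ∈ G', D.Adj f (b c) → D.Adj f (b c') := by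
  classical
  have hfin : (Rep.Tr D A {y | ∃ c ∈ G, y = b c}).Finite :=
    Set.finite_of_encard_le_coe hTr
  obtain ⟨TF, hTF⟩ : ∃ TF : Finset (Set V), ∀ T, T ∈ TF ↔ T ∈ Rep.Tr D A {y | ∃ c ∈ G, y = b c} :=
    ⟨hfin.toFinset, fun T => hfin.mem_toFinset⟩
  have hcard : TF.card ≤ ρ := by
    have e : (TF : Set (Set V)) = Rep.Tr D A {y | ∃ c ∈ G, y = b c} := by
      ext T
      rw [Finset.mem_coe, hTF]
    rw [← e, Set.encard_coe_eq_coe_finsetCard] at hTr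
    exact_mod_cast hTr
  obtain ⟨P₀, _, hP⟩ := Finset.exists_le_card_fiber_of_mul_le_card_of_maps_to
    (s := G) (t := TF.powerset) (f := fun c => TF.filter fun T => b c ∈ T) (n := N)
    (fun c _ => Finset.mem_powerset.2 (Finset.filter_subset _ _))
    ⟨∅, Finset.empty_mem_powerset _⟩ (by
      rw [Finset.card_powerset, Nat.mul_comm]
      exact (Nat.mul_le_mul_left N (Nat.pow_le_pow_right (by omega) hcard)).trans hG)
  obtain ⟨G', hG', hc⟩ := Finset.exists_subset_card_eq hP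
  refine ⟨G', hG'.trans (Finset.filter_subset _ _), hc, fun f hf c hcG c' hcG' h => ?_⟩
  have h1 := Finset.mem_filter.1 (hG' hcG)
  have h2 := Finset.mem_filter.1 (hG' hcG')
  have h3 : (TF.filter fun T => b c ∈ T) = TF.filter fun T => b c' ∈ T := h1.2.trans h2.2.symm
  have h4 : {y | y ∈ {y | ∃ c ∈ G, y = b c} ∧ D.Adj f y} ∈ TF.filter fun T => b c ∈ T := by
    rw [Finset.mem_filter, hTF]
    exact ⟨⟨f, hf, rfl⟩, ⟨c, h1.1, rfl⟩, h⟩
  rw [h3, Finset.mem_filter] at h4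
  exact h4.2.2

end Clnx

theorem pCln (h1 : S_Sgn) (h2 : S_CoMs) (h3 : S_T1) : S_Cln := by
  classical
  intro k q N
  obtain ⟨m₀, hm₀⟩ := h2 k
  obtain ⟨N₁, hN₁⟩ := h1 k m₀
  obtain ⟨n₁, hn₁⟩ := h3 k
  obtain ⟨ρ, hρ⟩ := Rep.pat3 (max m₀ (n₁ + 2))
  refine ⟨(2 * q + 1) * N₁ + N * 2 ^ ρ + q + 4, ?_⟩
  obtain ⟨n, hn⟩ : ∃ n, n = (2 * q + 1) * N₁ + N * 2 ^ ρ + q + 4 := ⟨_, rfl⟩
  rw [← hn]
  intro V D a b hT hN hI hq
  have hC := hm₀ V D hT hN
  obtain ⟨Bd, hBd⟩ : ∃ Bd : Finset ℕ, ∀ c, c ∈ Bd ↔ c < n ∧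
      ∃ f, (Finset.range n \ Jt D n a b f).card ≤ q ∧ c ∉ Jt D n a b f :=
    ⟨(Finset.range n).filter fun c => ∃ f, (Finset.range n \ Jt D n a b f).card ≤ q ∧
      c ∉ Jt D n a b f, fun c => by rw [Finset.mem_filter, Finset.mem_range]⟩
  have hBc : Bd.card ≤ (2 * q + 1) * N₁ := by
    rcases Clnx.few_bad (hN₁ V D) hT hN hC hI Bd fun c hc => (hBd c).1 hc with h | h
    · exact h.le
    · exfalso
      subst h
      exact hN₁ V D a a b hT hN hC (fun i hi => by omega) (fun i hi => by omega)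
        fun i hi => by omega
  obtain ⟨G, hG⟩ : ∃ G, G = Finset.range n \ Bd := ⟨_, rfl⟩
  have hGc : N * 2 ^ ρ ≤ G.card := by
    have h4 := Finset.le_card_sdiff Bd (Finset.range n)
    rw [Finset.card_range] at h4
    rw [hG]
    omega
  have hGn : ∀ c ∈ G, c < n := by
    intro c hc
    rw [hG] at hc
    exact Finset.mem_range.1 (Finset.mem_sdiff.1 hc).1
  obtain ⟨A, hA⟩ : ∃ A : Set V, ∀ f, f ∈ A ↔ (Finset.range n \ Jt D n a b f).card ≤ q :=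
    ⟨{f | (Finset.range n \ Jt D n a b f).card ≤ q}, fun f => Iff.rfl⟩
  have hAG : ∀ f ∈ A, ∀ c ∈ G, D.Adj f (a c) ∨ D.Adj f (b c) := by
    intro f hf c hc
    by_contra hcon
    rw [hG] at hc
    refine (Finset.mem_sdiff.1 hc).2 ((hBd c).2 ⟨Finset.mem_range.1 (Finset.mem_sdiff.1 hc).1, f,
      (hA f).1 hf, fun h => hcon ?_⟩)
    exact (mem_Jt.1 h).2
  have hno := Clnx.no3 (hn₁ V D) hT hN hC hI (le_max_left _ _) (le_max_right _ _) G hGn A hAG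
  obtain ⟨G', hG', hGc', hf⟩ := Clnx.pigT G A (hρ V D A _ hno) hGc
  obtain ⟨σ, hσ, hinj⟩ := Clnx.enum G' N hGc'
  have hσn : ∀ i < N, σ i < n := fun i hi => hGn _ (hG' (hσ i hi))
  refine ⟨σ, hσn, hinj, hI.comp σ hσn hinj, fun v => ?_⟩
  rcases hq v with h | h
  · refine Or.inl (le_trans ?_ h)
    refine Finset.card_le_card_of_injOn σ (fun i hi => ?_) fun i hi j hj hij => ?_
    · have h4 := mem_Jt.1 (Finset.mem_coe.1 hi)
      exact Finset.mem_coe.2 (mem_Jt.2 ⟨hσn i h4.1, h4.2⟩)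
    · exact hinj i (mem_Jt.1 (Finset.mem_coe.1 hi)).1 j (mem_Jt.1 (Finset.mem_coe.1 hj)).1 hij
  · right
    by_cases hex : ∃ i < N, D.Adj v (b (σ i))
    · left
      obtain ⟨i, hi, h4⟩ := hex
      exact fun j hj => hf v ((hA v).2 h) (σ i) (hσ i hi) (σ j) (hσ j hj) h4
    · right
      intro i hi
      rcases hAG v ((hA v).2 h) (σ i) (hG' (hσ i hi)) with h4 | h4
      · exact h4
      · exact absurd ⟨i, hi, h4⟩ hex

end Pool.Agent.MPd439b2.SA
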