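import Pool.Agent.Lib.MP_d439b2_co.SA.SpecA

/-!
# MP_d439b2_co, SA/CoMs: no large co-matchings (helper69)
-/

set_option autoImplicit false

namespace Pool.Agent.MPd439b2.SA

open Pool.Agent.MPd439b2 Pool.Agent.MPd439b2.W

namespace hCoMsAux

/-- the edges of the spider on `0, .., 7` and of the separate edges `(8 + 2 t, 9 + 2 t)` -/
def G (i j : ℕ) : Prop :=
  ((i, j) ∈ spL ∨ (j, i) ∈ spL) ∨ (8 ≤ i ∧ 8 ≤ j ∧ i ≠ j ∧ i / 2 = j / 2)

instance (i j : ℕ) : Decidable (G i j) := by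
  unfold G
  infer_instance

theorem spL_par : ∀ p ∈ spL, p.1 % 2 ≠ p.2 % 2 ∧ p.1 < 8 ∧ p.2 < 8 := by decide

theorem G_par {i j : ℕ} (h : G i j) : i % 2 ≠ j % 2 := by
  rcases h with (h | h) | h
  · exact (spL_par _ h).1
  · exact fun h' => (spL_par _ h).1 h'.symm
  · omega

/-- the index set of the block `i` -/
def I (N i : ℕ) : Finset ℕ :=
  (Finset.range (N * N)).filter fun c => (c / N = i ∨ c % N = i) ∧
    (c / N = c % N ∨ ((c / N) % 2 ≠ (c % N) % 2 ∧ ¬ G (c / N) (c % N) ∧ ¬ G (c % N) (c / N)))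

theorem mem_I {N i c : ℕ} : c ∈ I N i ↔ c < N * N ∧ (c / N = i ∨ c % N = i) ∧
    (c / N = c % N ∨ ((c / N) % 2 ≠ (c % N) % 2 ∧ ¬ G (c / N) (c % N) ∧ ¬ G (c % N) (c / N))) := by
  unfold I
  rw [Finset.mem_filter, Finset.mem_range]

theorem G_symm {i j : ℕ} (h : G i j) : G j i := by
  rcases h with (h | h) | h
  · exact Or.inl (Or.inr h)
  · exact Or.inl (Or.inl h)
  · exact Or.inr ⟨h.2.1, h.1, h.2.2.1.symm, h.2.2.2.symm⟩

theorem code_div {N i j : ℕ} (hj : j < N) : (i * N + j) / N = i := by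
  have hN : 0 < N := by omega
  rw [mul_comm, Nat.mul_add_div hN, Nat.div_eq_of_lt hj, add_zero]

theorem code_mod {N i j : ℕ} (hj : j < N) : (i * N + j) % N = j := by
  rw [mul_comm, Nat.mul_add_mod, Nat.mod_eq_of_lt hj]

theorem code_lt {N i j : ℕ} (hi : i < N) (hj : j < N) : i * N + j < N * N := by
  nlinarith

theorem self_mem {N i : ℕ} (hi : i < N) : i * N + i ∈ I N i := by
  rw [mem_I, code_div hi, code_mod hi]
  exact ⟨code_lt hi hi, Or.inl rfl, Or.inl rfl⟩

theorem cross_mem {N i j : ℕ} (hi : i < N) (hj : j < N) (hp : i % 2 ≠ j % 2) (hG : ¬ G i j) :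
    i * N + j ∈ I N i ∧ i * N + j ∈ I N j := by
  rw [mem_I, mem_I, code_div hj, code_mod hj]
  exact ⟨⟨code_lt hi hj, Or.inl rfl, Or.inr ⟨hp, hG, fun h => hG (G_symm h)⟩⟩,
    ⟨code_lt hi hj, Or.inr rfl, Or.inr ⟨hp, hG, fun h => hG (G_symm h)⟩⟩⟩

/-- a common index of two different blocks -/
theorem common {N i j c : ℕ} (hij : i ≠ j) (h : c ∈ I N i) (h' : c ∈ I N j) :
    i % 2 ≠ j % 2 ∧ ¬ G i j := by
  rw [mem_I] at h h'
  obtain ⟨-, h1, h2⟩ := h
  obtain ⟨-, h3, -⟩ := h'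
  rcases h1 with h1 | h1 <;> rcases h3 with h3 | h3
  · exact absurd (h1.symm.trans h3) hij
  · rw [h1, h3] at h2
    rcases h2 with h2 | h2
    · exact absurd h2 hij
    · exact ⟨h2.1, h2.2.1⟩
  · rw [h1, h3] at h2
    rcases h2 with h2 | h2
    · exact absurd h2.symm hij
    · exact ⟨fun h => h2.1 h.symm, h2.2.2⟩
  · exact absurd (h1.symm.trans h3) hij

section

variable {V : Type} {D : SimpleGraph V} {m : ℕ} {a b : ℕ → V}

/-- the sides of a co-matching are independent -/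
theorem ind (hT : TriFree D) (hm : 3 ≤ m) (h : ∀ i < m, ∀ j < m, (D.Adj (a i) (b j) ↔ i ≠ j))
    {t u : ℕ} (ht : t < m) (hu : u < m) : ¬ D.Adj (a t) (a u) := by
  have : ∃ x < m, x ≠ t ∧ x ≠ u := by
    by_cases h0 : 0 ≠ t ∧ 0 ≠ u
    · exact ⟨0, by omega, h0.1, h0.2⟩
    by_cases h1 : 1 ≠ t ∧ 1 ≠ u
    · exact ⟨1, by omega, h1.1, h1.2⟩
    · exact ⟨2, by omega, by omega, by omega⟩
  obtain ⟨x, hx, hxt, hxu⟩ := this
  intro h'
  exact hT (a t) (a u) (b x) h' ((h t ht x hx).2 hxt.symm) ((h u hu x hx).2 hxu.symm)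

theorem inj (h : ∀ i < m, ∀ j < m, (D.Adj (a i) (b j) ↔ i ≠ j))
    {t u : ℕ} (ht : t < m) (hu : u < m) (he : a t = a u) : t = u := by
  by_contra hne
  have h1 := (h t ht u hu).2 hne
  rw [he] at h1
  exact (h u hu u hu).1 h1 rfl

theorem swap (h : ∀ i < m, ∀ j < m, (D.Adj (a i) (b j) ↔ i ≠ j)) :
    ∀ i < m, ∀ j < m, (D.Adj (b i) (a j) ↔ i ≠ j) := by
  intro i hi j hj
  rw [D.adj_comm, h j hj i hi]
  exact ne_comm

theorem ne_ab (hT : TriFree D) (hm : 3 ≤ m) (h : ∀ i < m, ∀ j < m, (D.Adj (a i) (b j) ↔ i ≠ j))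
    {t u : ℕ} (ht : t < m) (hu : u < m) : a t ≠ b u := by
  intro he
  by_cases htu : t = u
  · subst htu
    have : ∃ x < m, x ≠ t := by
      by_cases h0 : 0 ≠ t
      · exact ⟨0, by omega, h0⟩
      · exact ⟨1, by omega, by omega⟩
    obtain ⟨x, hx, hxt⟩ := this
    have h1 := (h x hx t ht).2 hxt
    rw [← he] at h1
    exact ind hT hm h hx ht h1
  · have h1 := (h t ht u hu).2 htu
    rw [he] at h1
    exact h1.ne rfl

end

open Classical in
/-- the block `i` -/
noncomputable def Bl {V : Type} (N : ℕ) (a b : ℕ → V) (i : ℕ) : Finset V :=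
  if i % 2 = 0 then (I N i).image a else (I N i).image b

theorem Bl_ne {V : Type} {N : ℕ} (a b : ℕ → V) {i : ℕ} (hi : i < N) : (Bl N a b i).Nonempty := by
  classical
  unfold Bl
  split_ifs
  · exact ⟨a (i * N + i), Finset.mem_image_of_mem _ (self_mem hi)⟩
  · exact ⟨b (i * N + i), Finset.mem_image_of_mem _ (self_mem hi)⟩

theorem I_lt {N i c m : ℕ} (hN : N * N ≤ m) (h : c ∈ I N i) : c < m :=
  lt_of_lt_of_le (mem_I.1 h).1 hN

theorem I_disj {N i j c d : ℕ} (hij : i ≠ j) (hp : i % 2 = j % 2) (hc : c ∈ I N i)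
    (hd : d ∈ I N j) : c ≠ d := by
  rintro rfl
  exact (common hij hc hd).1 hp

/-- the main statement on the blocks -/
theorem Bl_main {V : Type} {D : SimpleGraph V} {N m : ℕ} {a b : ℕ → V} (hT : TriFree D)
    (hm : 3 ≤ m) (hN : N * N ≤ m) (h : ∀ i < m, ∀ j < m, (D.Adj (a i) (b j) ↔ i ≠ j))
    {i j : ℕ} (hi : i < N) (hj : j < N) (hij : i ≠ j) :
    Disjoint (Bl N a b i) (Bl N a b j) ∧ (Cmp D (Bl N a b i) (Bl N a b j) ↔ G i j) := by
  classical
  have h' := swap h
  have hne1 := Bl_ne a b hi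
  have hne2 := Bl_ne a b hj
  by_cases hi2 : i % 2 = 0 <;> by_cases hj2 : j % 2 = 0
  · have e1 : Bl N a b i = (I N i).image a := by unfold Bl; rw [if_pos hi2]
    have e2 : Bl N a b j = (I N j).image a := by unfold Bl; rw [if_pos hj2]
    refine ⟨?_, ?_, fun hG => absurd (hi2.trans hj2.symm) (G_par hG)⟩
    · rw [e1, e2, Finset.disjoint_left]
      intro x hx hx'
      obtain ⟨c, hc, rfl⟩ := Finset.mem_image.1 hx
      obtain ⟨d, hd, hcd⟩ := Finset.mem_image.1 hx'
      exact I_disj hij (hi2.trans hj2.symm) hc hd (inj h (I_lt hN hc) (I_lt hN hd) hcd.symm)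
    · intro hC
      obtain ⟨x, hx⟩ := hne1
      obtain ⟨y, hy⟩ := hne2
      have h1 := hC x hx y hy
      rw [e1] at hx
      rw [e2] at hy
      obtain ⟨c, hc, rfl⟩ := Finset.mem_image.1 hx
      obtain ⟨d, hd, rfl⟩ := Finset.mem_image.1 hy
      exact absurd h1 (ind hT hm h (I_lt hN hc) (I_lt hN hd))
  · have e1 : Bl N a b i = (I N i).image a := by unfold Bl; rw [if_pos hi2]
    have e2 : Bl N a b j = (I N j).image b := by unfold Bl; rw [if_neg hj2]
    refine ⟨?_, ?_, ?_⟩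
    · rw [e1, e2, Finset.disjoint_left]
      intro x hx hx'
      obtain ⟨c, hc, rfl⟩ := Finset.mem_image.1 hx
      obtain ⟨d, hd, hcd⟩ := Finset.mem_image.1 hx'
      exact ne_ab hT hm h (I_lt hN hc) (I_lt hN hd) hcd.symm
    · intro hC
      by_contra hG
      obtain ⟨h1, h2⟩ := cross_mem hi hj (by omega) hG
      have h3 := hC (a (i * N + j)) (by rw [e1]; exact Finset.mem_image_of_mem _ h1)
        (b (i * N + j)) (by rw [e2]; exact Finset.mem_image_of_mem _ h2)
      exact (h _ (I_lt hN h1) _ (I_lt hN h1)).1 h3 rfl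
    · intro hG x hx y hy
      rw [e1] at hx
      rw [e2] at hy
      obtain ⟨c, hc, rfl⟩ := Finset.mem_image.1 hx
      obtain ⟨d, hd, rfl⟩ := Finset.mem_image.1 hy
      refine (h _ (I_lt hN hc) _ (I_lt hN hd)).2 ?_
      rintro rfl
      exact (common hij hc hd).2 hG
  · have e1 : Bl N a b i = (I N i).image b := by unfold Bl; rw [if_neg hi2]
    have e2 : Bl N a b j = (I N j).image a := by unfold Bl; rw [if_pos hj2]
    refine ⟨?_, ?_, ?_⟩
    · rw [e1, e2, Finset.disjoint_left]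
      intro x hx hx'
      obtain ⟨c, hc, rfl⟩ := Finset.mem_image.1 hx
      obtain ⟨d, hd, hcd⟩ := Finset.mem_image.1 hx'
      exact ne_ab hT hm h (I_lt hN hd) (I_lt hN hc) hcd
    · intro hC
      by_contra hG
      obtain ⟨h1, h2⟩ := cross_mem hi hj (by omega) hG
      have h3 := hC (b (i * N + j)) (by rw [e1]; exact Finset.mem_image_of_mem _ h1)
        (a (i * N + j)) (by rw [e2]; exact Finset.mem_image_of_mem _ h2)
      exact (h' _ (I_lt hN h1) _ (I_lt hN h1)).1 h3 rfl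
    · intro hG x hx y hy
      rw [e1] at hx
      rw [e2] at hy
      obtain ⟨c, hc, rfl⟩ := Finset.mem_image.1 hx
      obtain ⟨d, hd, rfl⟩ := Finset.mem_image.1 hy
      refine (h' _ (I_lt hN hc) _ (I_lt hN hd)).2 ?_
      rintro rfl
      exact (common hij hc hd).2 hG
  · have e1 : Bl N a b i = (I N i).image b := by unfold Bl; rw [if_neg hi2]
    have e2 : Bl N a b j = (I N j).image b := by unfold Bl; rw [if_neg hj2]
    have hp : i % 2 = j % 2 := by omega
    refine ⟨?_, ?_, fun hG => absurd hp (G_par hG)⟩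
    · rw [e1, e2, Finset.disjoint_left]
      intro x hx hx'
      obtain ⟨c, hc, rfl⟩ := Finset.mem_image.1 hx
      obtain ⟨d, hd, hcd⟩ := Finset.mem_image.1 hx'
      exact I_disj hij hp hc hd (inj h' (I_lt hN hc) (I_lt hN hd) hcd.symm)
    · intro hC
      obtain ⟨x, hx⟩ := hne1
      obtain ⟨y, hy⟩ := hne2
      have h1 := hC x hx y hy
      rw [e1] at hx
      rw [e2] at hy
      obtain ⟨c, hc, rfl⟩ := Finset.mem_image.1 hx
      obtain ⟨d, hd, rfl⟩ := Finset.mem_image.1 hy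
      exact absurd h1 (ind hT hm h' (I_lt hN hc) (I_lt hN hd))

/-- a vertex of the spider and a vertex of a separate edge are not adjacent -/
theorem G_far {i j : ℕ} (hi : i < 8) (hj : 8 ≤ j) : ¬ G i j := by
  rintro ((h | h) | h)
  · have := (spL_par _ h).2.2
    simp only at this
    omega
  · have := (spL_par _ h).2.1
    simp only at this
    omega
  · omega

theorem G_high {i j : ℕ} (hi : 8 ≤ i) (hj : 8 ≤ j) : G i j ↔ i ≠ j ∧ i / 2 = j / 2 := by
  constructor
  · rintro ((h | h) | h)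
    · have := (spL_par _ h).2.2
      simp only at this
      omega
    · have := (spL_par _ h).2.1
      simp only at this
      omega
    · exact h.2.2
  · intro h
    exact Or.inr ⟨hi, hj, h⟩

theorem G_low {i j : Fin 8} : G i.val j.val ↔ spE i j := by
  constructor
  · rintro (h | h)
    · exact h
    · have := i.isLt
      omega
  · intro h
    exact Or.inl h

end hCoMsAux

open hCoMsAux in
/-- **A5.** No large co-matchings. -/
theorem hCoMs : S_CoMs := by
  intro k
  refine ⟨(8 + 2 * k) * (8 + 2 * k) + 3, ?_⟩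
  intro V D hT hN
  rintro ⟨a, b, h⟩
  have M : ∀ i j, i < 8 + 2 * k → j < 8 + 2 * k → i ≠ j →
      Disjoint (Bl (8 + 2 * k) a b i) (Bl (8 + 2 * k) a b j) ∧
        (Cmp D (Bl (8 + 2 * k) a b i) (Bl (8 + 2 * k) a b j) ↔ G i j) := by
    intro i j hi hj hij
    exact Bl_main hT (by omega) (by omega) h hi hj hij
  refine hN (fun i => Bl (8 + 2 * k) a b i.val) (fun t => Bl (8 + 2 * k) a b (8 + 2 * t))
    (fun t => Bl (8 + 2 * k) a b (9 + 2 * t)) ?_
  refine
    { gne := fun i => Bl_ne a b (by have := i.isLt; omega)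
      pne := fun t ht => Bl_ne a b (by omega)
      qne := fun t ht => Bl_ne a b (by omega)
      gdis := fun i j hij => (M i.val j.val (by have := i.isLt; omega) (by have := j.isLt; omega)
        (fun h => hij (Fin.ext h))).1
      gcmp := fun i j hij => ?_
      gp := fun i t ht => ?_
      gq := fun i t ht => ?_
      pq := fun t ht => ?_
      pp := fun t ht u hu htu => ?_
      px := fun t ht u hu htu => ?_
      qq := fun t ht u hu htu => ?_ }
  · rw [← G_low]
    exact (M i.val j.val (by have := i.isLt; omega) (by have := j.isLt; omega)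
        (fun h => hij (Fin.ext h))).2
  · have hi := i.isLt
    obtain ⟨h1, h2⟩ := M i.val (8 + 2 * t) (by omega) (by omega) (by omega)
    exact ⟨h1, fun h3 => G_far hi (by omega) (h2.1 h3)⟩
  · have hi := i.isLt
    obtain ⟨h1, h2⟩ := M i.val (9 + 2 * t) (by omega) (by omega) (by omega)
    exact ⟨h1, fun h3 => G_far hi (by omega) (h2.1 h3)⟩
  · obtain ⟨h1, h2⟩ := M (8 + 2 * t) (9 + 2 * t) (by omega) (by omega) (by omega)
    exact ⟨h1, h2.2 ((G_high (by omega) (by omega)).2 (by omega))⟩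
  · obtain ⟨h1, h2⟩ := M (8 + 2 * t) (8 + 2 * u) (by omega) (by omega) (by omega)
    refine ⟨h1, fun h3 => ?_⟩
    have := (G_high (by omega) (by omega)).1 (h2.1 h3)
    omega
  · obtain ⟨h1, h2⟩ := M (8 + 2 * t) (9 + 2 * u) (by omega) (by omega) (by omega)
    refine ⟨h1, fun h3 => ?_⟩
    have := (G_high (by omega) (by omega)).1 (h2.1 h3)
    omega
  · obtain ⟨h1, h2⟩ := M (9 + 2 * t) (9 + 2 * u) (by omega) (by omega) (by omega)
    refine ⟨h1, fun h3 => ?_⟩
    have := (G_high (by omega) (by omega)).1 (h2.1 h3)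
    omega

end Pool.Agent.MPd439b2.SA
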