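import Pool.Agent.Lib.MP_d439b2_co.SA.SpecA

/-!
# MP_d439b2_co, SA: the first dichotomy, clean or ladder (A15)
-/

set_option autoImplicit false

namespace Pool.Agent.MPd439b2.SA

open Pool.Agent.MPd439b2 Pool.Agent.MPd439b2.W

namespace Dichx

theorem enum (S : Finset ℕ) (m : ℕ) (h : m ≤ S.card) : ∃ σ : ℕ → ℕ, (∀ i < m, σ i ∈ S) ∧
    ∀ i < m, ∀ j < m, σ i = σ j → i = j := by
  refine ⟨fun i => if hi : i < S.card then S.orderEmbOfFin rfl ⟨i, hi⟩ else 0, fun i hi => ?_,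
    fun i hi j hj hij => ?_⟩
  · dsimp only
    rw [dif_pos (by omega)]
    exact S.orderEmbOfFin_mem rfl _
  · dsimp only at hij
    rw [dif_pos (by omega), dif_pos (by omega)] at hij
    exact congrArg Fin.val ((S.orderEmbOfFin rfl).injective hij)

theorem two_of {S : Finset ℕ} (h : ¬ S.card ≤ 1) : ∃ i ∈ S, ∃ j ∈ S, i ≠ j := by
  have h1 : 1 < S.card := by omega
  exact Finset.one_lt_card.1 h1

/-- one direction of the comparison of two light traces -/
theorem half (hRV : S_RV) {k n : ℕ} {V : Type} {D : SimpleGraph V} {a b : ℕ → V} {I : Finset ℕ}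
    {v v' : V} (hT : TriFree D) (hN : NoSpi k D) (hIM : IM D n a b) (hI : I ⊆ Finset.range n)
    (hne : v ≠ v')
    (hR : ∃ R ⊆ I, k ≤ R.card ∧ ∀ r ∈ R, r ∉ Jt D n a b v ∧ r ∉ Jt D n a b v')
    (hnd : ¬ Disjoint (I ∩ Jt D n a b v) (I ∩ Jt D n a b v'))
    (h2 : ¬ ((I ∩ Jt D n a b v) \ (I ∩ Jt D n a b v')).card ≤ 1) :
    I ∩ Jt D n a b v' ⊆ I ∩ Jt D n a b v := by
  obtain ⟨i, hi, j, hj, hij⟩ := two_of h2
  rw [Finset.not_disjoint_iff] at hnd
  obtain ⟨l, hl, hl'⟩ := hnd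
  rw [Finset.mem_inter] at hl hl'
  simp only [Finset.mem_sdiff, Finset.mem_inter, not_and] at hi hj
  have h3 := hRV k n V D a b I v v' hT hN hIM hI hne hR
    ⟨i, hi.1.1, j, hj.1.1, hij, hi.1.2, hj.1.2, hi.2 hi.1.1, hj.2 hj.1.1⟩ l hl.1 hl.2 hl'.2
  intro x hx
  rw [Finset.mem_inter] at hx ⊢
  exact ⟨hx.1, h3.1 x hx.1 hx.2⟩

end Dichx

open Dichx

theorem pDich (h1 : S_RV) (h2 : S_Chn) (h3 : S_ChL) (h4 : S_Lgt) (h5 : S_Cln) : S_Dich := by
  classical
  intro k r N
  obtain ⟨q₀, R, hChL⟩ := h3 k r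
  obtain ⟨n₁, hCln⟩ := h5 k (q₀ + k + 2) N
  obtain ⟨n, hChn⟩ := h2 (q₀ + k + 2) R (n₁ + k + 3)
  refine ⟨n, ?_⟩
  intro V D a b hT hN hIM
  rcases hChn V (fun v => Jt D n a b v) (Finset.range n) (by rw [Finset.card_range]) with
    ⟨v, J, hJ0, hJR, hJ⟩ | ⟨I', m, hI', hm, hsm, hlf⟩
  · right
    refine hChL n V D a b v J hT hN hIM (by rw [hJ0]) hJR (fun t ht => ?_)
    obtain ⟨e1, e2⟩ := hJ t ht
    exact ⟨e1, le_trans (by omega) e2⟩
  · left
    have hmul : (n₁ + k + 3) * m = n₁ * m + k * m + 3 * m := by ring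
    have hkm : k ≤ k * m := Nat.le_mul_of_pos_right k hm
    -- many untouched indices for two light vertices
    have hR : ∀ v v', (I' ∩ Jt D n a b v).card < m → (I' ∩ Jt D n a b v').card < m →
        ∃ R ⊆ I', k ≤ R.card ∧ ∀ r ∈ R, r ∉ Jt D n a b v ∧ r ∉ Jt D n a b v' := by
      intro v v' hv hv'
      refine ⟨I' \ (Jt D n a b v ∪ Jt D n a b v'), Finset.sdiff_subset, ?_, ?_⟩
      · have hcov : I' ⊆ (I' \ (Jt D n a b v ∪ Jt D n a b v')) ∪
            ((I' ∩ Jt D n a b v) ∪ (I' ∩ Jt D n a b v')) := by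
          intro x hx
          simp only [Finset.mem_union, Finset.mem_sdiff, Finset.mem_inter, not_or]
          tauto
        have c1 := Finset.card_le_card hcov
        have c2 := Finset.card_union_le (I' \ (Jt D n a b v ∪ Jt D n a b v'))
          ((I' ∩ Jt D n a b v) ∪ (I' ∩ Jt D n a b v'))
        have c3 := Finset.card_union_le (I' ∩ Jt D n a b v) (I' ∩ Jt D n a b v')
        omega
      · intro x hx
        simp only [Finset.mem_sdiff, Finset.mem_union, not_or] at hx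
        exact hx.2
    let F : Set (Finset ℕ) := {S | ∃ v, (I' ∩ Jt D n a b v).card < m ∧ S = I' ∩ Jt D n a b v}
    have hF : ∀ T ∈ F, T.card ≤ m := by
      rintro T ⟨v, hv, rfl⟩
      exact hv.le
    have hFF : ∀ T ∈ F, ∀ T' ∈ F, Disjoint T T' ∨ T ⊆ T' ∨ T' ⊆ T ∨
        ((T \ T').card ≤ 1 ∧ (T' \ T).card ≤ 1) := by
      rintro T ⟨v, hv, rfl⟩ T' ⟨v', hv', rfl⟩
      by_cases hne : v = v'
      · subst hne
        exact Or.inr (Or.inl (Finset.Subset.refl _))
      · by_cases hd : Disjoint (I' ∩ Jt D n a b v) (I' ∩ Jt D n a b v')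
        · exact Or.inl hd
        · by_cases c1 : ((I' ∩ Jt D n a b v) \ (I' ∩ Jt D n a b v')).card ≤ 1
          · by_cases c2 : ((I' ∩ Jt D n a b v') \ (I' ∩ Jt D n a b v)).card ≤ 1
            · exact Or.inr (Or.inr (Or.inr ⟨c1, c2⟩))
            · exact Or.inr (Or.inl (half h1 hT hN hIM hI' (Ne.symm hne) (hR v' v hv' hv)
                (fun h => hd h.symm) c2))
          · exact Or.inr (Or.inr (Or.inl (half h1 hT hN hIM hI' hne (hR v v' hv hv') hd c1)))
    obtain ⟨N', hN'I, hN'c, hN'F⟩ := h4 n₁ m I' F hm (by omega) hF hFF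
    obtain ⟨e, he, heinj⟩ := enum N' n₁ hN'c.ge
    have hen : ∀ i < n₁, e i < n := fun i hi => Finset.mem_range.1 (hI' (hN'I (he i hi)))
    have hIM' : IM D n₁ (fun i => a (e i)) (fun i => b (e i)) := hIM.comp e hen heinj
    have hJ : ∀ v i, i < n₁ → (i ∈ Jt D n₁ (fun i => a (e i)) (fun i => b (e i)) v ↔
        e i ∈ Jt D n a b v) := by
      intro v i hi
      rw [mem_Jt, mem_Jt]
      exact ⟨fun h => ⟨hen i hi, h.2⟩, fun h => ⟨hi, h.2⟩⟩
    obtain ⟨σ, hσ, hσinj, hCM⟩ := hCln V D (fun i => a (e i)) (fun i => b (e i)) hT hN hIM' (by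
      intro v
      rcases hlf v with hv | hv
      · left
        have hm1 : I' ∩ Jt D n a b v ∈ F := ⟨v, hv, rfl⟩
        refine le_trans ?_ (hN'F _ hm1)
        refine Finset.card_le_card_of_injOn e (fun i hi => ?_) (fun i hi j hj hij => ?_)
        · have hi' : i ∈ Jt D n₁ (fun i => a (e i)) (fun i => b (e i)) v := hi
          have hin : i < n₁ := (mem_Jt.1 hi').1
          have hm2 : e i ∈ (I' ∩ Jt D n a b v) ∩ N' := by
            rw [Finset.mem_inter, Finset.mem_inter]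
            exact ⟨⟨hN'I (he i hin), (hJ v i hin).1 hi'⟩, he i hin⟩
          exact hm2
        · have hi' : i ∈ Jt D n₁ (fun i => a (e i)) (fun i => b (e i)) v := hi
          have hj' : j ∈ Jt D n₁ (fun i => a (e i)) (fun i => b (e i)) v := hj
          exact heinj i (mem_Jt.1 hi').1 j (mem_Jt.1 hj').1 hij
      · right
        refine le_trans ?_ hv.le
        refine Finset.card_le_card_of_injOn e (fun i hi => ?_) (fun i hi j hj hij => ?_)
        · have hi' : i ∈ Finset.range n₁ \ Jt D n₁ (fun i => a (e i)) (fun i => b (e i)) v := hi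
          rw [Finset.mem_sdiff, Finset.mem_range] at hi'
          have hm2 : e i ∈ I' \ Jt D n a b v := by
            rw [Finset.mem_sdiff]
            exact ⟨hN'I (he i hi'.1), fun h => hi'.2 ((hJ v i hi'.1).2 h)⟩
          exact hm2
        · have hi' : i ∈ Finset.range n₁ \ Jt D n₁ (fun i => a (e i)) (fun i => b (e i)) v := hi
          have hj' : j ∈ Finset.range n₁ \ Jt D n₁ (fun i => a (e i)) (fun i => b (e i)) v := hj
          rw [Finset.mem_sdiff, Finset.mem_range] at hi' hj'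
          exact heinj i hi'.1 j hj'.1 hij)
    refine ⟨fun i => e (σ i), fun i hi => hen _ (hσ i hi), fun i hi j hj hij => ?_, hCM⟩
    exact hσinj i hi j hj (heinj _ (hσ i hi) _ (hσ j hj) hij)

end Pool.Agent.MPd439b2.SA
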