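import Pool.Agent.Lib.MP_d439b2_co.SA.SpecB

/-!
# MP_d439b2_co, SA/Ex: no vertex has neighbours of both kinds (helper69)
-/

set_option autoImplicit false

namespace Pool.Agent.MPd439b2.SA

open Pool.Agent.MPd439b2 Pool.Agent.MPd439b2.W

namespace hExAux

variable {V : Type} {D : SimpleGraph V} {n : ℕ} {a b x : ℕ → V}

theorem xx_ne (L : Lad D n a b x) {s t : ℕ} (hs : s < n) (ht : t < n) (h : x s = x t) : s = t := by
  rcases Nat.lt_trichotomy s t with h1 | h1 | h1
  · have h2 := (L.xb s hs s hs).2 le_rfl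
    rw [h] at h2
    have := (L.xb t ht s hs).1 h2
    omega
  · exact h1
  · have h2 := (L.xb t ht t ht).2 le_rfl
    rw [← h] at h2
    have := (L.xb s hs t ht).1 h2
    omega

theorem xa_ne (L : Lad D n a b x) {s j : ℕ} (hs : s + 1 < n) (hj : j < n) : x s ≠ a j := by
  intro h
  have h1 := (L.xb s (by omega) (n - 1) (by omega)).2 (by omega)
  have h2 := (L.xb s (by omega) (n - 2) (by omega)).2 (by omega)
  rw [h] at h1 h2
  have h3 := (L.im j hj (n - 1) (by omega)).1.1 h1
  have h4 := (L.im j hj (n - 2) (by omega)).1.1 h2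
  omega

theorem xb_ne (L : Lad D n a b x) {s j : ℕ} (hs : s + 1 < n) (hj : j < n) : x s ≠ b j := by
  intro h
  have h1 := (L.xb s (by omega) (n - 1) (by omega)).2 (by omega)
  rw [h] at h1
  exact (L.im j hj (n - 1) (by omega)).2.2 h1

end hExAux

open hExAux in
/-- the main step: `v` sees none of the `b m`, `2 k + 5 ≤ m ≤ 3 k + 6` -/
theorem hExAux.core (hR : S_R) (k n : ℕ) (V : Type) (D : SimpleGraph V) (a b x : ℕ → V)
    (hT : TriFree D) (hN : NoSpi k D) (L : Lad D n a b x) (v : V) (e j : ℕ)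
    (he : 3 * k + 8 ≤ e) (hen : e + 3 < n) (hj : 3 * k + 8 ≤ j) (hjn : j < n)
    (hve : D.Adj v (b e)) (hvj : D.Adj v (a j))
    (hvm : ∀ m, 2 * k + 5 ≤ m → m ≤ 3 * k + 6 → ¬ D.Adj v (b m)) : False := by
  classical
  have hvbj : ¬ D.Adj v (b j) := fun h => hT v (a j) (b j) hvj h (L.im.edge hjn)
  have hej : e ≠ j := by
    rintro rfl
    exact hvbj hve
  -- the index set
  set I : Finset ℕ := insert e (insert j (Finset.Ico (2 * k + 5) (3 * k + 7))) with hI
  have mI : ∀ i, i ∈ I ↔ i = e ∨ i = j ∨ (2 * k + 5 ≤ i ∧ i < 3 * k + 7) := by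
    intro i
    rw [hI, Finset.mem_insert, Finset.mem_insert, Finset.mem_Ico]
  have In : ∀ i ∈ I, i < n := by
    intro i hi
    rw [mI] at hi
    omega
  set P : ℕ → Finset V := fun i => {b i} with hP
  set Q : ℕ → Finset V := fun i => if i < 3 * k + 7 then {a i, x (i - (2 * k + 5))} else {a i}
    with hQ
  have mQ : ∀ i z, z ∈ Q i ↔ z = a i ∨ (i < 3 * k + 7 ∧ z = x (i - (2 * k + 5))) := by
    intro i z
    rw [hQ]
    by_cases h : i < 3 * k + 7
    · simp [h]
    · simp [h]
  have aQ : ∀ i, a i ∈ Q i := fun i => (mQ i _).2 (Or.inl rfl)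
  have mP : ∀ i z, z ∈ P i ↔ z = b i := fun i z => by rw [hP]; exact Finset.mem_singleton
  have bP : ∀ i, b i ∈ P i := fun i => (mP i _).2 rfl
  have hB : BMt D I P Q := by
    refine
      { pne := fun i _ => ⟨b i, bP i⟩
        qne := fun i _ => ⟨a i, aQ i⟩
        pq := fun i hi z hz w hw => ?_
        pp := fun i hi i' hi' hne => ⟨?_, fun h => ?_⟩
        px := fun i hi i' hi' hne => ⟨?_, fun h => ?_⟩
        qq := fun i hi i' hi' hne => ⟨?_, fun h => ?_⟩ }
    · rw [mP] at hz
      rw [mQ] at hw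
      have hin := In i hi
      rw [mI] at hi
      rcases hw with hw | ⟨h1, hw⟩
      · rw [hz, hw]
        exact (L.im.edge hin).symm
      · rw [hz, hw]
        exact ((L.xb _ (by omega) i hin).2 (by omega)).symm
    · rw [Finset.disjoint_left]
      intro z hz hz'
      rw [mP] at hz hz'
      exact hne (L.im.inj_b (In i hi) (In i' hi') (hz.symm.trans hz'))
    · exact (L.im i (In i hi) i' (In i' hi')).2.2 (h _ (bP i) _ (bP i'))
    · rw [Finset.disjoint_left]
      intro z hz hz'
      rw [mP] at hz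
      rw [mQ] at hz'
      have hin := In i hi
      have hin' := In i' hi'
      rcases hz' with h1 | ⟨h1, h2⟩
      · exact L.im.ne_ab hin' hin (h1.symm.trans hz)
      · exact xb_ne L (by rw [mI] at hi'; omega) hin (h2.symm.trans hz)
    · exact hne ((L.im i' (In i' hi') i (In i hi)).1.1 (h _ (bP i) _ (aQ i')).symm).symm
    · rw [Finset.disjoint_left]
      intro z hz hz'
      rw [mQ] at hz hz'
      have hin := In i hi
      have hin' := In i' hi'
      rw [mI] at hi hi'
      rcases hz with h1 | ⟨h1, h2⟩ <;> rcases hz' with h3 | ⟨h3, h4⟩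
      · exact hne (L.im.inj_a hin hin' (h1.symm.trans h3))
      · exact xa_ne L (by omega) hin (h4.symm.trans h1)
      · exact xa_ne L (by omega) hin' (h2.symm.trans h3)
      · have := xx_ne L (by omega) (by omega) (h2.symm.trans h4)
        omega
    · exact (L.im i (In i hi) i' (In i' hi')).2.1 (h _ (aQ i) _ (aQ i'))
  have hxb : ∀ s ≤ 3 * k + 5, D.Adj (x s) (b e) := fun s hs =>
    (L.xb s (by omega) e (by omega)).2 (by omega)
  have hvx : ∀ s ≤ 3 * k + 5, ¬ D.Adj v (x s) := fun s hs h =>
    hT v (x s) (b e) h hve (hxb s hs)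
  have hvx' : ∀ s ≤ 3 * k + 5, v ≠ x s := by
    intro s hs h
    have h1 := (L.xb s (by omega) (3 * k + 5) (by omega)).2 hs
    rw [← h] at h1
    exact hvm _ (by omega) (by omega) h1
  have hva : ∀ i < n, v ≠ a i := by
    rintro i hi rfl
    exact (L.im i hi j hjn).2.1 hvj
  have hvb : ∀ i < n, v ≠ b i := by
    rintro i hi rfl
    exact (L.im i hi e (by omega)).2.2 hve
  set C : Finset V := {x (3 * k + 5)} with hC
  set C' : Finset V := {v} with hC'
  have mC : ∀ z, z ∈ C ↔ z = x (3 * k + 5) := fun z => by rw [hC]; exact Finset.mem_singleton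
  have mC' : ∀ z, z ∈ C' ↔ z = v := fun z => by rw [hC']; exact Finset.mem_singleton
  have hOC : Off I P Q C := by
    intro i hi
    have hin := In i hi
    constructor
    · rw [Finset.disjoint_left]
      intro z hz hz'
      rw [mC] at hz
      rw [mP] at hz'
      exact xb_ne L (by omega) hin (hz.symm.trans hz')
    · rw [Finset.disjoint_left]
      intro z hz hz'
      rw [mC] at hz
      rw [mQ] at hz'
      rcases hz' with h1 | ⟨h1, h2⟩
      · exact xa_ne L (by omega) hin (hz.symm.trans h1)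
      · have := xx_ne L (by omega) (by omega) (hz.symm.trans h2)
        omega
  have hOC' : Off I P Q C' := by
    intro i hi
    have hin := In i hi
    constructor
    · rw [Finset.disjoint_left]
      intro z hz hz'
      rw [mC'] at hz
      rw [mP] at hz'
      exact hvb i hin (hz.symm.trans hz')
    · rw [Finset.disjoint_left]
      intro z hz hz'
      rw [mC'] at hz
      rw [mQ] at hz'
      rcases hz' with h1 | ⟨h1, h2⟩
      · exact hva i hin (hz.symm.trans h1)
      · exact hvx' _ (by omega) (hz.symm.trans h2)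
  have cC : ∀ A : Finset V, Cmp D C A ↔ ∀ z ∈ A, D.Adj (x (3 * k + 5)) z := by
    intro A
    constructor
    · intro h z hz
      exact h _ ((mC _).2 rfl) z hz
    · intro h y hy z hz
      rw [mC] at hy
      rw [hy]
      exact h z hz
  have cC' : ∀ A : Finset V, Cmp D C' A ↔ ∀ z ∈ A, D.Adj v z := by
    intro A
    constructor
    · intro h z hz
      exact h _ ((mC' _).2 rfl) z hz
    · intro h y hy z hz
      rw [mC'] at hy
      rw [hy]
      exact h z hz
  have tC : ∀ i ∈ I, (Tc D P Q C i ↔ 3 * k + 5 ≤ i) := by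
    intro i hi
    have hin := In i hi
    constructor
    · rintro (h | h)
      · rw [cC] at h
        exact (L.xb _ (by omega) i hin).1 (h _ (bP i))
      · rw [cC] at h
        exact absurd (h _ (aQ i)) (L.xa _ (by omega) i hin)
    · intro h
      left
      rw [cC]
      intro z hz
      rw [mP] at hz
      rw [hz]
      exact (L.xb _ (by omega) i hin).2 h
  have tC' : ∀ i ∈ I, i < 3 * k + 7 → ¬ Tc D P Q C' i := by
    intro i hi h
    rintro (h' | h')
    · rw [cC'] at h'
      rw [mI] at hi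
      exact hvm i (by omega) (by omega) (h' _ (bP i))
    · rw [cC'] at h'
      exact hvx _ (by omega) (h' _ ((mQ i _).2 (Or.inr ⟨h, rfl⟩)))
  have tCe : Tc D P Q C' e := by
    left
    rw [cC']
    intro z hz
    rw [mP] at hz
    rw [hz]
    exact hve
  have tCj : Tc D P Q C' j := by
    right
    rw [cC']
    intro z hz
    rw [mQ] at hz
    rcases hz with h | ⟨h, -⟩
    · rw [h]
      exact hvj
    · omega
  have heI : e ∈ I := (mI e).2 (Or.inl rfl)
  have hjI : j ∈ I := (mI j).2 (Or.inr (Or.inl rfl))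
  have key := hR k V D I P Q C C' hT hN hB ⟨_, (mC _).2 rfl⟩ ⟨_, (mC' _).2 rfl⟩
    (by
      rw [Finset.disjoint_left]
      intro z hz hz'
      rw [mC] at hz
      rw [mC'] at hz'
      exact hvx' _ le_rfl (hz'.symm.trans hz)) hOC hOC'
    ⟨Finset.Ico (2 * k + 5) (3 * k + 5), by
      intro i hi
      rw [Finset.mem_Ico] at hi
      rw [mI]
      omega, by
      rw [Nat.card_Ico]
      omega, by
      intro r hr
      rw [Finset.mem_Ico] at hr
      have hrI : r ∈ I := by
        rw [mI]
        omega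
      refine ⟨?_, tC' r hrI (by omega)⟩
      rw [tC r hrI]
      omega⟩
    ⟨3 * k + 5, by rw [mI]; omega, 3 * k + 6, by rw [mI]; omega, by omega,
      (tC _ (by rw [mI]; omega)).2 (by omega), (tC _ (by rw [mI]; omega)).2 (by omega),
      tC' _ (by rw [mI]; omega) (by omega), tC' _ (by rw [mI]; omega) (by omega)⟩
  have h1 := (key e heI ((tC e heI).2 (by omega)) tCe).1 j hjI tCj
  have h2 := (key j hjI h1 tCj).2.1 (by
    rw [cC]
    intro h
    exact hvx _ le_rfl (h v ((mC' _).2 rfl)).symm)
  rcases h2 with ⟨-, h2⟩ | ⟨h2, -⟩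
  · rw [cC'] at h2
    exact hvbj (h2 _ (bP j))
  · rw [cC] at h2
    exact L.xa _ (by omega) j hjn (h2 _ (aQ j))

/-- **B5.** No vertex has neighbours of both kinds. -/
theorem hEx (hR : S_R) (hTb : S_Tb) : S_Ex := by
  intro k n V D a b x hT hN L v e j he hen hj hjn hve hvj
  have hvbj : ¬ D.Adj v (b j) := fun h => hT v (a j) (b j) hvj h (L.im.edge hjn)
  refine hExAux.core hR k n V D a b x hT hN L v e j he hen hj hjn hve hvj ?_
  intro m hm1 hm2 hvm
  have em : m - (2 * k + 4) + (2 * k + 4) = m := by omega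
  have ee : e - (2 * k + 4) + (2 * k + 4) = e := by omega
  have ej : j - (2 * k + 4) + (2 * k + 4) = j := by omega
  rcases hTb k n V D a b x hT hN L v with h | ⟨q, h | h⟩
  · have h1 : D.Adj v (b (m - (2 * k + 4) + (2 * k + 4))) := by rw [em]; exact hvm
    have h2 : D.Adj v (b (e - (2 * k + 4) + (2 * k + 4))) := by rw [ee]; exact hve
    have := h (m - (2 * k + 4)) (by omega) (e - (2 * k + 4)) (by omega) h1 h2
    omega
  · have h1 : D.Adj v (b (m - (2 * k + 4) + (2 * k + 4))) := by rw [em]; exact hvm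
    have h2 := (h (m - (2 * k + 4)) (by omega)).1 h1
    have h3 : D.Adj v (b (j - (2 * k + 4) + (2 * k + 4))) :=
      (h (j - (2 * k + 4)) (by omega)).2 (by omega)
    rw [ej] at h3
    exact hvbj h3
  · have h1 : D.Adj v (b (m - (2 * k + 4) + (2 * k + 4))) := by rw [em]; exact hvm
    have h2 := (h (m - (2 * k + 4)) (by omega)).1 h1
    have h3 : D.Adj v (b (j - (2 * k + 4) + (2 * k + 4))) :=
      (h (j - (2 * k + 4)) (by omega)).2 (by omega)
    rw [ej] at h3
    exact hvbj h3

end Pool.Agent.MPd439b2.SA
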