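import Pool.Agent.Lib.MP_d439b2_co.SA.SpecA

/-!
# MP_d439b2_co, SA: A4, from induced minors to merged spiders
-/

set_option autoImplicit false

namespace Pool.Agent.MPd439b2.SA

open Pool.Agent.MPd439b2 Pool.Agent.MPd439b2.W

namespace Linkx

/-- the pieces of the model -/
abbrev Pc := Fin 8 ⊕ (ℕ × Bool)

/-- adjacency of the pieces -/
def Ed : Pc → Pc → Prop
  | Sum.inl i, Sum.inl j => spE i j
  | Sum.inr x, Sum.inr y => x.1 = y.1 ∧ x.2 ≠ y.2
  | _, _ => False

instance : DecidableRel Ed := fun x y => by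
  rcases x with x | x <;> rcases y with y | y <;> unfold Ed <;> infer_instance

/-- the pieces of the sixteen vertices of `F0` -/
def ph (i : Fin 16) : Pc :=
  if h : i.val < 8 then Sum.inl ⟨i.val, h⟩ else Sum.inr ((i.val - 8) / 2, decide ((i.val - 8) % 2 = 1))

theorem ph_adj : ∀ i j : Fin 16, i ≠ j → (F0.Adj i j ↔ Ed (ph i) (ph j)) := by
  unfold F0
  decide

theorem ph_inj : ∀ i j : Fin 16, i ≠ j → ph i ≠ ph j := by
  decide

theorem ph_lt : ∀ (i : Fin 16) (t : ℕ) (b : Bool), ph i = Sum.inr (t, b) → t < 4 := by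
  intro i t b h
  unfold ph at h
  split_ifs at h with h1
  have h2 := Sum.inr.inj h
  have h3 : (i.val - 8) / 2 = t := congrArg Prod.fst h2
  have := i.2
  omega

theorem spE_nb : ∀ i : Fin 8, ∃ j, j ≠ i ∧ spE i j := by
  decide

section

variable {V : Type} {D : SimpleGraph V} {k : ℕ} {g : Fin 8 → Finset V} {p q : ℕ → Finset V}

/-- the block of a piece -/
def bl (g : Fin 8 → Finset V) (p q : ℕ → Finset V) : Pc → Finset V
  | Sum.inl i => g i
  | Sum.inr (t, false) => p t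
  | Sum.inr (t, true) => q t

/-- the index of the piece is admissible -/
def okp (k : ℕ) : Pc → Prop
  | Sum.inl _ => True
  | Sum.inr x => x.1 < k

theorem bl_ne (h : Spi D k g p q) {x : Pc} (hx : okp k x) : (bl g p q x).Nonempty := by
  rcases x with i | ⟨t, _ | _⟩
  · exact h.gne i
  · exact h.pne t hx
  · exact h.qne t hx

theorem facts (h : Spi D k g p q) {x y : Pc} (hx : okp k x) (hy : okp k y) (hxy : x ≠ y) :
    Disjoint (bl g p q x) (bl g p q y) ∧ (Cmp D (bl g p q x) (bl g p q y) ↔ Ed x y) := by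
  rcases x with i | ⟨t, b⟩ <;> rcases y with j | ⟨u, b'⟩
  · have hij : i ≠ j := fun h0 => hxy (by rw [h0])
    exact ⟨h.gdis i j hij, h.gcmp i j hij⟩
  · rcases b' with _ | _
    · exact ⟨(h.gp i u hy).1, iff_of_false (h.gp i u hy).2 id⟩
    · exact ⟨(h.gq i u hy).1, iff_of_false (h.gq i u hy).2 id⟩
  · rcases b with _ | _
    · exact ⟨(h.gp j t hx).1.symm, iff_of_false (fun h0 => (h.gp j t hx).2 (Cmp.symm h0)) id⟩
    · exact ⟨(h.gq j t hx).1.symm, iff_of_false (fun h0 => (h.gq j t hx).2 (Cmp.symm h0)) id⟩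
  · by_cases htu : t = u
    · subst htu
      rcases b with _ | _ <;> rcases b' with _ | _
      · exact absurd rfl hxy
      · exact ⟨(h.pq t hx).1, iff_of_true (h.pq t hx).2 ⟨rfl, Bool.false_ne_true⟩⟩
      · exact ⟨(h.pq t hx).1.symm, iff_of_true (Cmp.symm (h.pq t hx).2) ⟨rfl, Bool.false_ne_true.symm⟩⟩
      · exact absurd rfl hxy
    · have hE : ¬ Ed (Sum.inr (t, b)) (Sum.inr (u, b')) := fun h0 => htu h0.1
      rcases b with _ | _ <;> rcases b' with _ | _
      · exact ⟨(h.pp t hx u hy htu).1, iff_of_false (h.pp t hx u hy htu).2 hE⟩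
      · exact ⟨(h.px t hx u hy htu).1, iff_of_false (h.px t hx u hy htu).2 hE⟩
      · have h1 := h.px u hy t hx (Ne.symm htu)
        exact ⟨h1.1.symm, iff_of_false (fun h0 => h1.2 (Cmp.symm h0)) hE⟩
      · exact ⟨(h.qq t hx u hy htu).1, iff_of_false (h.qq t hx u hy htu).2 hE⟩

theorem conn_bl (hT : TriFree D) (h : Spi D k g p q) {x : Pc} (hx : okp k x) :
    Conn Dᶜ (bl g p q x : Set V) := by
  obtain ⟨y, hy, hyx, hE⟩ : ∃ y, okp k y ∧ x ≠ y ∧ Ed x y := by
    rcases x with i | ⟨t, b⟩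
    · obtain ⟨j, hj, hs⟩ := spE_nb i
      exact ⟨Sum.inl j, trivial, fun h0 => hj (Sum.inl.inj h0).symm, hs⟩
    · refine ⟨Sum.inr (t, !b), hx, fun h0 => ?_, rfl, ?_⟩
      · have h1 := congrArg Prod.snd (Sum.inr.inj h0)
        cases b <;> simp at h1
      · cases b <;> simp
  have hc := (facts h hx hy hyx).2.mpr hE
  obtain ⟨z, hz⟩ := bl_ne h hy
  obtain ⟨x₀, hx₀⟩ := bl_ne h hx
  refine ⟨⟨x₀, hx₀⟩, fun B hB hBne hBne' => ?_⟩
  obtain ⟨b, hb⟩ := hBne
  obtain ⟨a, ha, haB⟩ : ∃ a ∈ (bl g p q x : Set V), a ∉ B := by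
    by_contra hcon
    push Not at hcon
    exact hBne' (Set.Subset.antisymm hB hcon)
  refine ⟨b, hb, a, ⟨ha, haB⟩, ?_⟩
  rw [SimpleGraph.compl_adj]
  exact ⟨fun h' => haB (h' ▸ hb), hT z b a (hc b (hB hb) z hz).symm (hc a ha z hz).symm⟩

theorem tch_bl (h : Spi D k g p q) {x y : Pc} (hx : okp k x) (hy : okp k y) (hxy : x ≠ y) :
    Tch Dᶜ (bl g p q x : Set V) (bl g p q y : Set V) ↔ ¬ Ed x y := by
  obtain ⟨h1, h2⟩ := facts h hx hy hxy
  rw [← h2]
  constructor
  · rintro ⟨u, hu, v, hv, huv⟩ h3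
    rw [SimpleGraph.compl_adj] at huv
    exact huv.2 (h3 u hu v hv)
  · intro h3
    unfold Cmp at h3
    push Not at h3
    obtain ⟨u, hu, v, hv, huv⟩ := h3
    refine ⟨u, hu, v, hv, ?_⟩
    rw [SimpleGraph.compl_adj]
    refine ⟨?_, huv⟩
    rintro rfl
    exact Finset.disjoint_left.mp h1 hu hv

end

/-- the pieces of the branch sets -/
def pcs {s : ℕ} : Fin s ⊕ Fin 16 → List Pc
  | Sum.inl c => [Sum.inr (5 + 2 * c.val, false), Sum.inr (4 + 2 * c.val, false),
      Sum.inr (4 + 2 * c.val, true)]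
  | Sum.inr i => [ph i]

theorem pcs_ok {s : ℕ} (w : Fin s ⊕ Fin 16) {x : Pc} (hx : x ∈ pcs w) : okp (4 + 2 * s) x := by
  rcases w with c | i
  · have hc := c.2
    simp only [pcs, List.mem_cons, List.not_mem_nil, or_false] at hx
    rcases hx with rfl | rfl | rfl
    · show 5 + 2 * c.val < 4 + 2 * s
      omega
    · show 4 + 2 * c.val < 4 + 2 * s
      omega
    · show 4 + 2 * c.val < 4 + 2 * s
      omega
  · simp only [pcs, List.mem_singleton] at hx
    subst hx
    rcases hp : ph i with j | ⟨t, b⟩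
    · trivial
    · have h1 := ph_lt i t b hp
      show t < 4 + 2 * s
      omega

theorem pcs_inl {s : ℕ} {c : Fin s} {x : Pc} (hx : x ∈ pcs (Sum.inl c)) :
    ∃ t b, x = Sum.inr (t, b) ∧ (t = 4 + 2 * c.val ∨ t = 5 + 2 * c.val) := by
  simp only [pcs, List.mem_cons, List.not_mem_nil, or_false] at hx
  rcases hx with rfl | rfl | rfl
  · exact ⟨_, _, rfl, Or.inr rfl⟩
  · exact ⟨_, _, rfl, Or.inl rfl⟩
  · exact ⟨_, _, rfl, Or.inl rfl⟩

theorem pcs_ne {s : ℕ} {w w' : Fin s ⊕ Fin 16} (hw : w ≠ w') {x y : Pc} (hx : x ∈ pcs w)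
    (hy : y ∈ pcs w') : x ≠ y := by
  rcases w with c | i <;> rcases w' with c' | i'
  · have hcc : c.val ≠ c'.val := fun h => hw (by rw [Fin.ext h])
    obtain ⟨t, b, rfl, ht⟩ := pcs_inl hx
    obtain ⟨u, b', rfl, hu⟩ := pcs_inl hy
    intro h
    have h1 := congrArg Prod.fst (Sum.inr.inj h)
    simp only at h1
    omega
  · obtain ⟨t, b, rfl, ht⟩ := pcs_inl hx
    simp only [pcs, List.mem_singleton] at hy
    subst hy
    intro h
    have h1 := ph_lt i' t b h.symm
    omega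
  · obtain ⟨t, b, rfl, ht⟩ := pcs_inl hy
    simp only [pcs, List.mem_singleton] at hx
    subst hx
    intro h
    have h1 := ph_lt i t b h
    omega
  · simp only [pcs, List.mem_singleton] at hx hy
    subst hx hy
    exact ph_inj i i' fun h => hw (by rw [h])

theorem pcs_adj {s : ℕ} {w w' : Fin s ⊕ Fin 16} (hw : w ≠ w') :
    (KCo s F0).Adj w w' ↔ ∃ x ∈ pcs w, ∃ y ∈ pcs w', ¬ Ed x y := by
  have key : ∀ (c : Fin s) (w' : Fin s ⊕ Fin 16), Sum.inl c ≠ w' → ∀ y ∈ pcs w',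
      ¬ Ed (Sum.inr (4 + 2 * c.val, false)) y ∧ ¬ Ed y (Sum.inr (4 + 2 * c.val, false)) := by
    intro c w' hcw y hy
    have h1 : (Sum.inr (4 + 2 * c.val, true) : Pc) ≠ y :=
      pcs_ne hcw (by simp [pcs]) hy
    rcases y with j | ⟨u, b'⟩
    · exact ⟨id, id⟩
    · refine ⟨fun h => h1 ?_, fun h => h1 ?_⟩
      · obtain ⟨e1, e2⟩ := h
        have e1' : 4 + 2 * c.val = u := e1
        have e2' : false ≠ b' := e2
        cases b'
        · exact absurd rfl e2'
        · rw [e1']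
      · obtain ⟨e1, e2⟩ := h
        have e1' : u = 4 + 2 * c.val := e1
        have e2' : b' ≠ false := e2
        cases b'
        · exact absurd rfl e2'
        · rw [e1']
  have hex : ∀ w : Fin s ⊕ Fin 16, ∃ y, y ∈ pcs w := by
    rintro (c | i)
    · exact ⟨_, List.mem_cons_self⟩
    · exact ⟨_, List.mem_cons_self⟩
  rcases w with c | i <;> rcases w' with c' | i'
  · have hcc : c ≠ c' := fun h => hw (by rw [h])
    obtain ⟨y, hy⟩ := hex (Sum.inl c')
    exact iff_of_true hcc ⟨Sum.inr (4 + 2 * c.val, false), by simp [pcs], y, hy, (key c _ hw y hy).1⟩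
  · obtain ⟨y, hy⟩ := hex (Sum.inr i')
    exact iff_of_true trivial
      ⟨Sum.inr (4 + 2 * c.val, false), by simp [pcs], y, hy, (key c _ hw y hy).1⟩
  · obtain ⟨y, hy⟩ := hex (Sum.inr i)
    exact iff_of_true trivial
      ⟨y, hy, Sum.inr (4 + 2 * c'.val, false), by simp [pcs], (key c' _ hw.symm y hy).2⟩
  · have hii : i ≠ i' := fun h => hw (by rw [h])
    have h1 := ph_adj i i' hii
    constructor
    · rintro ⟨_, h2⟩
      exact ⟨ph i, by simp [pcs], ph i', by simp [pcs], fun h3 => h2 (h1.mpr h3)⟩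
    · rintro ⟨x, hx, y, hy, hE⟩
      simp only [pcs, List.mem_singleton] at hx hy
      subst hx hy
      exact ⟨hii, fun h3 => hE (h1.mp h3)⟩

end Linkx

open Linkx

theorem pLink : S_Link := by
  intro s V D hT hno g p q h
  apply hno
  rw [← ims_univ_iff]
  have hM : ∀ w : Fin s ⊕ Fin 16, Conn Dᶜ {v | ∃ x ∈ pcs w, v ∈ (bl g p q x : Set V)} := by
    rintro (c | i)
    · have o1 : okp (4 + 2 * s) (Sum.inr (5 + 2 * c.val, false)) :=
        pcs_ok (Sum.inl c) (by simp [pcs])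
      have o2 : okp (4 + 2 * s) (Sum.inr (4 + 2 * c.val, false)) :=
        pcs_ok (Sum.inl c) (by simp [pcs])
      have o3 : okp (4 + 2 * s) (Sum.inr (4 + 2 * c.val, true)) :=
        pcs_ok (Sum.inl c) (by simp [pcs])
      have n12 : (Sum.inr (5 + 2 * c.val, false) : Pc) ≠ Sum.inr (4 + 2 * c.val, false) := by
        intro h0
        have h1 := congrArg Prod.fst (Sum.inr.inj h0)
        simp only at h1
        omega
      have n13 : (Sum.inr (5 + 2 * c.val, false) : Pc) ≠ Sum.inr (4 + 2 * c.val, true) := by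
        intro h0
        have h1 := congrArg Prod.fst (Sum.inr.inj h0)
        simp only at h1
        omega
      have t12 := (tch_bl h o1 o2 n12).mpr (fun h0 => by
        have h1 : 5 + 2 * c.val = 4 + 2 * c.val := h0.1
        omega)
      have t13 := (tch_bl h o1 o3 n13).mpr (fun h0 => by
        have h1 : 5 + 2 * c.val = 4 + 2 * c.val := h0.1
        omega)
      have c12 := (conn_bl hT h o1).union (conn_bl hT h o2) (Or.inr t12)
      have c123 := c12.union (conn_bl hT h o3)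
        (Or.inr (t13.mono Set.subset_union_left (Set.Subset.refl _)))
      have heq : {v | ∃ x ∈ pcs (Sum.inl c : Fin s ⊕ Fin 16), v ∈ (bl g p q x : Set V)} =
          (bl g p q (Sum.inr (5 + 2 * c.val, false)) : Set V) ∪
            (bl g p q (Sum.inr (4 + 2 * c.val, false)) : Set V) ∪
            (bl g p q (Sum.inr (4 + 2 * c.val, true)) : Set V) := by
        ext v
        simp only [pcs, List.mem_cons, List.not_mem_nil, or_false, exists_eq_or_imp,
          exists_eq_left, Set.mem_ofPred_eq, Set.mem_union]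
        tauto
      rw [heq]
      exact c123
    · have heq : {v | ∃ x ∈ pcs (Sum.inr i : Fin s ⊕ Fin 16), v ∈ (bl g p q x : Set V)} =
          (bl g p q (ph i) : Set V) := by
        ext v
        simp only [pcs, List.mem_singleton, exists_eq_left, Set.mem_ofPred_eq]
      rw [heq]
      exact conn_bl hT h (pcs_ok (Sum.inr i) (by simp [pcs]))
  refine ⟨fun w => {v | ∃ x ∈ pcs w, v ∈ (bl g p q x : Set V)}, fun w => Set.subset_univ _, hM,
    fun w w' hw => ?_, fun w w' hw => ?_⟩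
  · rw [Set.disjoint_left]
    rintro v ⟨x, hx, hvx⟩ ⟨y, hy, hvy⟩
    exact Finset.disjoint_left.mp (facts h (pcs_ok w hx) (pcs_ok w' hy) (pcs_ne hw hx hy)).1 hvx hvy
  · rw [pcs_adj hw]
    constructor
    · rintro ⟨x, hx, y, hy, hE⟩
      obtain ⟨u, hu, v, hv, huv⟩ :=
        (tch_bl h (pcs_ok w hx) (pcs_ok w' hy) (pcs_ne hw hx hy)).mpr hE
      exact ⟨u, ⟨x, hx, hu⟩, v, ⟨y, hy, hv⟩, huv⟩
    · rintro ⟨u, ⟨x, hx, hu⟩, v, ⟨y, hy, hv⟩, huv⟩
      exact ⟨x, hx, y, hy, (tch_bl h (pcs_ok w hx) (pcs_ok w' hy) (pcs_ne hw hx hy)).mp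
        ⟨u, hu, v, hv, huv⟩⟩

end Pool.Agent.MPd439b2.SA
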