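import Pool.Agent.Lib.MP_d439b2_co.SA.SpecA

/-!
# MP_d439b2_co, SA, A2: the rules R1, R2, R3 for blocks (helper91)
-/

set_option autoImplicit false

namespace Pool.Agent.MPd439b2.SA

open Pool.Agent.MPd439b2 Pool.Agent.MPd439b2.W

namespace Rx

variable {V : Type} {D : SimpleGraph V} {I : Finset ℕ} {P Q : ℕ → Finset V}

/-- `X, Y` are the two blocks with the index `m` -/
def Pr (P Q : ℕ → Finset V) (m : ℕ) (X Y : Finset V) : Prop :=
  (X = P m ∧ Y = Q m) ∨ (X = Q m ∧ Y = P m)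

theorem tri (ht : TriFree D) {A B C : Finset V} (hA : A.Nonempty) (hB : B.Nonempty)
    (hC : C.Nonempty) (h1 : Cmp D A B) (h2 : Cmp D A C) (h3 : Cmp D B C) : False := by
  obtain ⟨a, ha⟩ := hA
  obtain ⟨b, hb⟩ := hB
  obtain ⟨c, hc⟩ := hC
  exact ht a b c (h1 a ha b hb) (h2 a ha c hc) (h3 b hb c hc)

theorem csymm {A B : Finset V} (h : Cmp D A B) : Cmp D B A :=
  fun b hb a ha => (h a ha b hb).symm

theorem bmono (h : BMt D I P Q) {J : Finset ℕ} (hJ : J ⊆ I) : BMt D J P Q where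
  pne i hi := h.pne i (hJ hi)
  qne i hi := h.qne i (hJ hi)
  pq i hi := h.pq i (hJ hi)
  pp i hi j hj := h.pp i (hJ hi) j (hJ hj)
  px i hi j hj := h.px i (hJ hi) j (hJ hj)
  qq i hi j hj := h.qq i (hJ hi) j (hJ hj)

/-- two blocks with different indices -/
theorem blk (h : BMt D I P Q) {m l : ℕ} (hm : m ∈ I) (hl : l ∈ I) (hml : m ≠ l) {X Y X' Y' : Finset V}
    (h1 : Pr P Q m X Y) (h2 : Pr P Q l X' Y') : Disjoint X X' ∧ ¬ Cmp D X X' := by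
  rcases h1 with ⟨rfl, rfl⟩ | ⟨rfl, rfl⟩ <;> rcases h2 with ⟨rfl, rfl⟩ | ⟨rfl, rfl⟩
  · exact h.pp m hm l hl hml
  · exact h.px m hm l hl hml
  · exact ⟨(h.px l hl m hm hml.symm).1.symm, fun h3 => (h.px l hl m hm hml.symm).2 (csymm h3)⟩
  · exact h.qq m hm l hl hml

theorem Pr.symm {m : ℕ} {X Y : Finset V} (h : Pr P Q m X Y) : Pr P Q m Y X := by
  rcases h with ⟨h1, h2⟩ | ⟨h1, h2⟩
  · exact Or.inr ⟨h2, h1⟩
  · exact Or.inl ⟨h2, h1⟩

theorem Pr.ne (h : BMt D I P Q) {m : ℕ} (hm : m ∈ I) {X Y : Finset V} (h1 : Pr P Q m X Y) :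
    X.Nonempty := by
  rcases h1 with ⟨rfl, rfl⟩ | ⟨rfl, rfl⟩
  · exact h.pne m hm
  · exact h.qne m hm

theorem Pr.cmp (h : BMt D I P Q) {m : ℕ} (hm : m ∈ I) {X Y : Finset V} (h1 : Pr P Q m X Y) :
    Cmp D X Y := by
  rcases h1 with ⟨rfl, rfl⟩ | ⟨rfl, rfl⟩
  · exact h.pq m hm
  · exact csymm (h.pq m hm)

theorem Pr.off {C : Finset V} (h : Off I P Q C) {m : ℕ} (hm : m ∈ I) {X Y : Finset V}
    (h1 : Pr P Q m X Y) : Disjoint C X := by
  rcases h1 with ⟨rfl, rfl⟩ | ⟨rfl, rfl⟩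
  · exact (h m hm).1
  · exact (h m hm).2

theorem Pr.ntc {C : Finset V} {m : ℕ} (h : ¬ Tc D P Q C m) {X Y : Finset V}
    (h1 : Pr P Q m X Y) : ¬ Cmp D C X := by
  intro h2
  apply h
  rcases h1 with ⟨rfl, rfl⟩ | ⟨rfl, rfl⟩
  · exact Or.inl h2
  · exact Or.inr h2

theorem Pr.unt (h : BMt D I P Q) {J : Finset ℕ} (hJ : J ⊆ I) {m : ℕ} (hm : m ∈ I) (hmJ : m ∉ J)
    {X Y : Finset V} (h1 : Pr P Q m X Y) : Unt D J P Q X := by
  intro r hr
  have hmr : m ≠ r := fun h2 => hmJ (h2 ▸ hr)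
  have h3 := blk h hm (hJ hr) hmr h1 (Or.inl ⟨rfl, rfl⟩)
  have h4 := blk h hm (hJ hr) hmr h1 (Or.inr ⟨rfl, rfl⟩)
  exact ⟨h3.1, h4.1, h3.2, h4.2⟩

/-- a touched index: the touched block and the other one -/
theorem tc_pr {C : Finset V} {m : ℕ} (h : Tc D P Q C m) : ∃ X Y, Pr P Q m X Y ∧ Cmp D C X := by
  rcases h with h | h
  · exact ⟨P m, Q m, Or.inl ⟨rfl, rfl⟩, h⟩
  · exact ⟨Q m, P m, Or.inr ⟨rfl, rfl⟩, h⟩

end Rx

open Rx in
/-- **A2.** The rules R1, R2, R3 for blocks. -/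
theorem pR (h1 : S_L3) : S_R := by
  classical
  intro k V D I P Q C C' ht hN hB hC hC' hdis hO hO' hex hex' l hl hCl hC'l
  obtain ⟨R, hRI, hRk, hR⟩ := hex
  obtain ⟨i, hi, j, hj, hij, hCi, hCj, hC'i, hC'j⟩ := hex'
  obtain ⟨I', rfl⟩ : ∃ I', I' = insert i (insert j R) := ⟨_, rfl⟩
  have hI' : insert i (insert j R) ⊆ I := by
    intro r hr
    rcases Finset.mem_insert.1 hr with rfl | hr
    · exact hi
    · rcases Finset.mem_insert.1 hr with rfl | hr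
      · exact hj
      · exact hRI hr
  have hC'I' : ∀ r ∈ insert i (insert j R), ¬ Tc D P Q C' r := by
    intro r hr
    rcases Finset.mem_insert.1 hr with rfl | hr
    · exact hC'i
    · rcases Finset.mem_insert.1 hr with rfl | hr
      · exact hC'j
      · exact (hR r hr).2
  have hI'n : ∀ m, Tc D P Q C' m → m ∉ insert i (insert j R) := fun m hm h => hC'I' m h hm
  have eng : ∀ B0 B1 B2 : Finset V, B0.Nonempty → B1.Nonempty → B2.Nonempty →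
      Unt D (insert i (insert j R)) P Q B0 → Unt D (insert i (insert j R)) P Q B1 →
      Unt D (insert i (insert j R)) P Q B2 → Disjoint C B1 → Disjoint C B2 → Disjoint B0 B2 →
      Cmp D C B0 → Cmp D B0 B1 → Cmp D B1 B2 → ¬ Cmp D C B2 → False := by
    intro B0 B1 B2 n0 n1 n2 u0 u1 u2 d1 d2 d3 c0 c1 c2 nc
    have h2 := h1 k V D (insert i (insert j R)) P Q C B0 B1 B2 i j ht hN (bmono hB hI') hC n0 n1 n2
      (fun r hr => hO r (hI' hr)) u0 u1 u2 d1 d2 d3 c0 c1 c2 nc (Finset.mem_insert_self _ _)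
      (Finset.mem_insert_of_mem (Finset.mem_insert_self _ _)) hij hCi hCj R
      (fun r hr => Finset.mem_insert_of_mem (Finset.mem_insert_of_mem hr)) fun r hr => (hR r hr).1
    omega
  have uC' : Unt D (insert i (insert j R)) P Q C' := fun r hr =>
    ⟨(hO' r (hI' hr)).1, (hO' r (hI' hr)).2, fun h => hC'I' r hr (Or.inl h),
      fun h => hC'I' r hr (Or.inr h)⟩
  have st1 : ¬ Cmp D C C' → ∀ X Y, Pr P Q l X Y → Cmp D C X → Cmp D C' Y → False := by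
    intro hn X Y hp hCX hCY
    exact eng X Y C' (hp.ne hB hl) (hp.symm.ne hB hl) hC' (hp.unt hB hI' hl (hI'n l hC'l))
      (hp.symm.unt hB hI' hl (hI'n l hC'l)) uC' (hp.symm.off hO hl) hdis (hp.off hO' hl).symm hCX
      (hp.cmp hB hl) (csymm hCY) hn
  have c2 : ¬ Cmp D C C' →
      (Cmp D C (P l) ∧ Cmp D C' (P l)) ∨ (Cmp D C (Q l) ∧ Cmp D C' (Q l)) := by
    intro hn
    rcases hCl with a | a <;> rcases hC'l with b | b
    · exact Or.inl ⟨a, b⟩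
    · exact (st1 hn _ _ (Or.inl ⟨rfl, rfl⟩) a b).elim
    · exact (st1 hn _ _ (Or.inr ⟨rfl, rfl⟩) a b).elim
    · exact Or.inr ⟨a, b⟩
  refine ⟨?_, c2, ?_⟩
  · intro m hm hC'm
    by_contra hCm
    have hml : m ≠ l := fun h => hCm (h ▸ hCl)
    obtain ⟨X, Y, hp, hX⟩ := tc_pr hC'm
    by_cases hc : Cmp D C C'
    · exact eng C' X Y hC' (hp.ne hB hm) (hp.symm.ne hB hm) uC' (hp.unt hB hI' hm (hI'n m hC'm))
        (hp.symm.unt hB hI' hm (hI'n m hC'm)) (hp.off hO hm) (hp.symm.off hO hm)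
        (hp.symm.off hO' hm) hc hX (hp.cmp hB hm) (hp.symm.ntc hCm)
    · obtain ⟨X', Y', hp', hX', hX''⟩ : ∃ X' Y', Pr P Q l X' Y' ∧ Cmp D C X' ∧ Cmp D C' X' := by
        rcases c2 hc with ⟨a, b⟩ | ⟨a, b⟩
        · exact ⟨_, _, Or.inl ⟨rfl, rfl⟩, a, b⟩
        · exact ⟨_, _, Or.inr ⟨rfl, rfl⟩, a, b⟩
      exact eng X' C' X (hp'.ne hB hl) hC' (hp.ne hB hm) (hp'.unt hB hI' hl (hI'n l hC'l)) uC'
        (hp.unt hB hI' hm (hI'n m hC'm)) hdis (hp.off hO hm) (blk hB hl hm hml.symm hp' hp).1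
        hX' (csymm hX'') hX (hp.ntc hCm)
  · intro hc
    rcases hCl with a | a <;> rcases hC'l with b | b
    · exact (tri ht hC hC' (hB.pne l hl) hc a b).elim
    · exact Or.inl ⟨a, b⟩
    · exact Or.inr ⟨a, b⟩
    · exact (tri ht hC hC' (hB.qne l hl) hc a b).elim

end Pool.Agent.MPd439b2.SA
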