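import Pool.Agent.Lib.MP_d439b2_co.SA.SpecA

/-!
# MP_d439b2_co, SA: the rules for two vertices (`S_RV`)
-/

set_option autoImplicit false

namespace Pool.Agent.MPd439b2.SA

open Pool.Agent.MPd439b2 Pool.Agent.MPd439b2.W

namespace RVx

variable {V : Type} {D : SimpleGraph V} {n : ℕ} {a b : ℕ → V}

/-- a vertex of the matching touches only its own edge -/
theorem only_a (him : IM D n a b) {m i : ℕ} (hm : m < n) (hi : i ∈ Jt D n a b (a m)) : i = m := by
  rw [mem_Jt] at hi
  rcases hi.2 with h | h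
  · exact absurd h (him m hm i hi.1).2.1
  · exact ((him m hm i hi.1).1.1 h).symm

theorem only_b (him : IM D n a b) {m i : ℕ} (hm : m < n) (hi : i ∈ Jt D n a b (b m)) : i = m := by
  rw [Jt_swap] at hi
  exact only_a him.swap hm hi

theorem cs (x y : V) : Cmp D {x} {y} ↔ D.Adj x y := by
  unfold Cmp
  constructor
  · intro h
    exact h x (Finset.mem_singleton_self x) y (Finset.mem_singleton_self y)
  · intro h p hp q hq
    rw [Finset.mem_singleton.mp hp, Finset.mem_singleton.mp hq]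
    exact h

theorem bmt (him : IM D n a b) {I : Finset ℕ} (hI : ∀ i ∈ I, i < n) :
    BMt D I (fun i => {a i}) (fun i => {b i}) where
  pne i _ := Finset.singleton_nonempty (a i)
  qne i _ := Finset.singleton_nonempty (b i)
  pq i hi := (cs _ _).mpr (him.edge (hI i hi))
  pp i hi j hj hij := by
    refine ⟨Finset.disjoint_singleton.mpr fun h => hij (him.inj_a (hI i hi) (hI j hj) h), ?_⟩
    rw [cs]
    exact (him i (hI i hi) j (hI j hj)).2.1
  px i hi j hj hij := by
    refine ⟨Finset.disjoint_singleton.mpr fun h => him.ne_ab (hI i hi) (hI j hj) h, ?_⟩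
    rw [cs]
    exact fun h => hij ((him i (hI i hi) j (hI j hj)).1.1 h)
  qq i hi j hj hij := by
    refine ⟨Finset.disjoint_singleton.mpr fun h => hij (him.inj_b (hI i hi) (hI j hj) h), ?_⟩
    rw [cs]
    exact (him i (hI i hi) j (hI j hj)).2.2

end RVx

open RVx

theorem pRV (h1 : S_R) : S_RV := by
  intro k n V D a b I v v' ht hk him hI hvv hR hij l hl hlv hlv'
  have hlt : ∀ i ∈ I, i < n := fun i hi => Finset.mem_range.mp (hI hi)
  have hln : l < n := hlt l hl
  have hva : ∀ m < n, v ≠ a m := by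
    rintro m hm rfl
    obtain ⟨i, _, j, _, hne, h2, h3, _⟩ := hij
    exact hne ((only_a him hm h2).trans (only_a him hm h3).symm)
  have hvb : ∀ m < n, v ≠ b m := by
    rintro m hm rfl
    obtain ⟨i, _, j, _, hne, h2, h3, _⟩ := hij
    exact hne ((only_b him hm h2).trans (only_b him hm h3).symm)
  have hvl : D.Adj v (a l) ∨ D.Adj v (b l) := (mem_Jt.mp hlv).2
  by_cases ha : ∃ m < n, v' = a m
  · obtain ⟨m, hm, rfl⟩ := ha
    have hml : l = m := only_a him hm hlv'
    subst hml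
    refine ⟨fun m' _ h2 => ?_, fun h2 => Or.inr ⟨?_, him.edge hm⟩, fun h2 => Or.inl ⟨h2, him.edge hm⟩⟩
    · rw [only_a him hm h2]
      exact hlv
    · rcases hvl with h3 | h3
      · exact absurd h3 h2
      · exact h3
  by_cases hb : ∃ m < n, v' = b m
  · obtain ⟨m, hm, rfl⟩ := hb
    have hml : l = m := only_b him hm hlv'
    subst hml
    refine ⟨fun m' _ h2 => ?_, fun h2 => Or.inl ⟨?_, (him.edge hm).symm⟩,
      fun h2 => Or.inr ⟨h2, (him.edge hm).symm⟩⟩
    · rw [only_b him hm h2]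
      exact hlv
    · rcases hvl with h3 | h3
      · exact h3
      · exact absurd h3 h2
  have hT : ∀ x, ∀ i ∈ I,
      (Tc D (fun i => {a i}) (fun i => {b i}) {x} i ↔ i ∈ Jt D n a b x) := by
    intro x i hi
    unfold Tc
    rw [cs, cs, mem_Jt]
    exact ⟨fun h => ⟨hlt i hi, h⟩, fun h => h.2⟩
  have hoff : Off I (fun i => {a i}) (fun i => {b i}) {v} := fun i hi =>
    ⟨Finset.disjoint_singleton.mpr (hva i (hlt i hi)),
      Finset.disjoint_singleton.mpr (hvb i (hlt i hi))⟩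
  have hoff' : Off I (fun i => {a i}) (fun i => {b i}) {v'} := fun i hi =>
    ⟨Finset.disjoint_singleton.mpr fun h => ha ⟨i, hlt i hi, h⟩,
      Finset.disjoint_singleton.mpr fun h => hb ⟨i, hlt i hi, h⟩⟩
  have hR' : ∃ R ⊆ I, k ≤ R.card ∧ ∀ r ∈ R, ¬ Tc D (fun i => {a i}) (fun i => {b i}) {v} r ∧
      ¬ Tc D (fun i => {a i}) (fun i => {b i}) {v'} r := by
    obtain ⟨R, hRI, hRc, hR⟩ := hR
    refine ⟨R, hRI, hRc, fun r hr => ?_⟩
    rw [hT v r (hRI hr), hT v' r (hRI hr)]
    exact hR r hr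
  have hij' : ∃ i ∈ I, ∃ j ∈ I, i ≠ j ∧ Tc D (fun i => {a i}) (fun i => {b i}) {v} i ∧
      Tc D (fun i => {a i}) (fun i => {b i}) {v} j ∧
      ¬ Tc D (fun i => {a i}) (fun i => {b i}) {v'} i ∧
      ¬ Tc D (fun i => {a i}) (fun i => {b i}) {v'} j := by
    obtain ⟨i, hi, j, hj, h⟩ := hij
    refine ⟨i, hi, j, hj, ?_⟩
    rw [hT v i hi, hT v j hj, hT v' i hi, hT v' j hj]
    exact h
  obtain ⟨c1, c2, c3⟩ := h1 k V D I _ _ {v} {v'} ht hk (bmt him hlt)
    (Finset.singleton_nonempty v) (Finset.singleton_nonempty v')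
    (Finset.disjoint_singleton.mpr hvv) hoff hoff' hR' hij' l hl ((hT v l hl).mpr hlv)
    ((hT v' l hl).mpr hlv')
  rw [cs, cs, cs, cs, cs] at c2
  rw [cs, cs, cs, cs, cs] at c3
  refine ⟨fun m hm h => ?_, c2, c3⟩
  exact (hT v m hm).mp (c1 m hm ((hT v' m hm).mpr h))

end Pool.Agent.MPd439b2.SA
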