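import Pool.Agent.Lib.MP_d439b2_co.SA.SpecA

/-!
# MP_d439b2_co, SA: bounded rank between sets complete to a matching (helper18)
-/

set_option autoImplicit false

namespace Pool.Agent.MPd439b2.SA

open Pool.Agent.MPd439b2 Pool.Agent.MPd439b2.W

namespace Rk0x

/-- an injective enumeration of a large finite set of numbers -/
theorem enum (T : Finset ℕ) (m : ℕ) (hT : m ≤ T.card) : ∃ σ : ℕ → ℕ, (∀ i < m, σ i ∈ T) ∧
    ∀ i < m, ∀ j < m, σ i = σ j → i = j := by
  classical
  obtain ⟨S, hS, hSc⟩ := Finset.exists_subset_card_eq hT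
  refine ⟨fun i => if h : i < m then ((S.equivFinOfCardEq hSc).symm ⟨i, h⟩ : ℕ) else 0,
    fun i hi => ?_, fun i hi j hj h => ?_⟩
  · show (if h : i < m then ((S.equivFinOfCardEq hSc).symm ⟨i, h⟩ : ℕ) else 0) ∈ T
    rw [dif_pos hi]
    exact hS ((S.equivFinOfCardEq hSc).symm ⟨i, hi⟩).2
  · have h' : (if h : i < m then ((S.equivFinOfCardEq hSc).symm ⟨i, h⟩ : ℕ) else 0) =
        (if h : j < m then ((S.equivFinOfCardEq hSc).symm ⟨j, h⟩ : ℕ) else 0) := h
    rw [dif_pos hi, dif_pos hj] at h'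
    have h2 := (S.equivFinOfCardEq hSc).symm.injective (Subtype.ext h')
    exact congrArg Fin.val h2

theorem good (m e N : ℕ) (hN : m + 2 * m * e ≤ N) (E F : ℕ → Finset ℕ)
    (hE : ∀ i < m, (E i).card ≤ e) (hF : ∀ i < m, (F i).card ≤ e) :
    ∃ σ : ℕ → ℕ, (∀ i < m, σ i < N ∧ ∀ j < m, σ i ∉ E j ∧ σ i ∉ F j) ∧
      ∀ i < m, ∀ j < m, σ i = σ j → i = j := by
  classical
  have h1 : ((Finset.range m).biUnion E).card ≤ m * e := by
    have h := Finset.card_biUnion_le_card_mul (Finset.range m) E e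
      (fun i hi => hE i (Finset.mem_range.1 hi))
    rwa [Finset.card_range] at h
  have h2 : ((Finset.range m).biUnion F).card ≤ m * e := by
    have h := Finset.card_biUnion_le_card_mul (Finset.range m) F e
      (fun i hi => hF i (Finset.mem_range.1 hi))
    rwa [Finset.card_range] at h
  have h3 := Finset.card_union_le ((Finset.range m).biUnion E) ((Finset.range m).biUnion F)
  have h4 := Finset.le_card_sdiff ((Finset.range m).biUnion E ∪ (Finset.range m).biUnion F)
    (Finset.range N)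
  rw [Finset.card_range] at h4
  have h5 : 2 * m * e = m * e + m * e := by ring
  obtain ⟨σ, hσ, hinj⟩ := enum (Finset.range N \
    ((Finset.range m).biUnion E ∪ (Finset.range m).biUnion F)) m (by omega)
  refine ⟨σ, fun i hi => ⟨?_, fun j hj => ⟨fun h => ?_, fun h => ?_⟩⟩, hinj⟩
  · exact Finset.mem_range.1 (Finset.mem_sdiff.1 (hσ i hi)).1
  · exact (Finset.mem_sdiff.1 (hσ i hi)).2 (Finset.mem_union_left _
      (Finset.mem_biUnion.2 ⟨j, Finset.mem_range.2 hj, h⟩))
  · exact (Finset.mem_sdiff.1 (hσ i hi)).2 (Finset.mem_union_right _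
      (Finset.mem_biUnion.2 ⟨j, Finset.mem_range.2 hj, h⟩))

end Rk0x

open Rk0x

theorem pRk0 (h1 : S_CoMs) (h2 : S_T2MM) (h3 : S_T2MH) : S_Rk0 := by
  classical
  intro k e
  obtain ⟨m0, hm0⟩ := h1 k
  obtain ⟨ρ, hρ⟩ := Rep.rk3 (max m0 (k + 10))
  refine ⟨ρ, max m0 (k + 10) + 2 * max m0 (k + 10) * e, ?_⟩
  intro V _ D a b X Y hT hS hM hX hY
  refine hρ V D X Y ?_
  have hm1 : m0 ≤ max m0 (k + 10) := le_max_left _ _
  have hm2 : k + 10 ≤ max m0 (k + 10) := le_max_right _ _
  generalize hm : max m0 (k + 10) = m at *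
  rintro ⟨x, y, hxy⟩
  have hxX : ∀ i < m, x i ∈ X := by
    rcases hxy with h | h | h
    · exact h.1
    · exact h.1
    · exact h.1
  have hyY : ∀ i < m, y i ∈ Y := by
    rcases hxy with h | h | h
    · exact h.2.1
    · exact h.2.1
    · exact h.2.1
  have hE : ∀ i, ∃ E : Finset ℕ, i < m → (E.card ≤ e ∧ ∀ l < m + 2 * m * e, l ∉ E →
      D.Adj (x i) (b l)) := by
    intro i
    by_cases hi : i < m
    · obtain ⟨E, hE⟩ := hX (x i) (hxX i hi)
      exact ⟨E, fun _ => hE⟩
    · exact ⟨∅, fun h => absurd h hi⟩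
  choose E hE using hE
  have hF : ∀ i, ∃ F : Finset ℕ, i < m → (F.card ≤ e ∧ ∀ l < m + 2 * m * e, l ∉ F →
      D.Adj (y i) (a l)) := by
    intro i
    by_cases hi : i < m
    · obtain ⟨F, hF⟩ := hY (y i) (hyY i hi)
      exact ⟨F, fun _ => hF⟩
    · exact ⟨∅, fun h => absurd h hi⟩
  choose F hF using hF
  obtain ⟨σ, hσ, hinj⟩ := good m e (m + 2 * m * e) le_rfl E F (fun i hi => (hE i hi).1)
    (fun i hi => (hF i hi).1)
  have hM' := hM.comp σ (fun i hi => (hσ i hi).1) hinj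
  have hxb : ∀ i < m, ∀ j < m, D.Adj (x i) (b (σ j)) := fun i hi j hj =>
    (hE i hi).2 _ (hσ j hj).1 ((hσ j hj).2 i hi).1
  have hya : ∀ i < m, ∀ j < m, D.Adj (a (σ i)) (y j) := fun i hi j hj =>
    ((hF j hj).2 _ (hσ i hi).1 ((hσ i hi).2 j hj).2).symm
  rcases hxy with h | h | h
  · exact h2 k V D (fun i => a (σ i)) (fun i => b (σ i)) x y hT hS
      (fun i hi j hj => (hM' i (by omega) j (by omega)).1)
      (fun i hi j hj => h.2.2 i (by omega) j (by omega))
      (fun i hi j hj => hxb i (by omega) j (by omega))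
      (fun i hi j hj => hya i (by omega) j (by omega))
  · exact hm0 V D hT hS ⟨x, y, fun i hi j hj => h.2.2 i (by omega) j (by omega)⟩
  · exact h3 k V D x y (fun i => a (σ i)) (fun i => b (σ i)) hT hS
      (fun i hi j hj => h.2.2 i (by omega) j (by omega))
      (fun i hi j hj => (hM' i (by omega) j (by omega)).1)
      (fun i hi j hj => hya i (by omega) j (by omega))
      (fun i hi j hj => hxb i (by omega) j (by omega))

end Pool.Agent.MPd439b2.SA
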