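import Pool.Agent.Lib.MP_d439b2_co.SA.SpecA

/-!
# MP_d439b2_co, SA, A11: mixed sign patterns
-/

set_option autoImplicit false

namespace Pool.Agent.MPd439b2.SA

open Pool.Agent.MPd439b2 Pool.Agent.MPd439b2.W

namespace Sgnx

/-- signs `(true, false)` -/
theorem tf {k n : ℕ} {V : Type} {D : SimpleGraph V} {v a b : ℕ → V}
    (hT : ∀ (V : Type) (D : SimpleGraph V) (a t t' : ℕ → V),
      TriFree D → NoSpi k D → (∀ i < n, ∀ j < n, (D.Adj (a i) (t j) ↔ j ≤ i)) →
      ¬ ∀ i < n, ∀ j < n, (D.Adj (a i) (t' j) ↔ i ≤ j))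
    (ht : TriFree D) (hk : NoSpi k D) (hI : IM D (2 + n) a b)
    (hno : ∀ i < 2 + n, ¬ D.Adj (v i) (a i) ∧ ¬ D.Adj (v i) (b i))
    (h : ∀ i j, i < j → j < 2 + n → D.Adj (v j) (b i) ∧ D.Adj (v i) (a j)) : False := by
  have hb : ∀ i < 2 + n, ∀ j < 2 + n, (D.Adj (v i) (b j) ↔ j < i) := by
    intro i hi j hj
    constructor
    · intro h1
      rcases Nat.lt_trichotomy j i with h2 | h2 | h2
      · exact h2
      · subst h2
        exact absurd h1 (hno j hj).2
      · exact absurd (hI.edge hj) (ht (v i) (a j) (b j) (h i j h2 hj).2 h1)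
    · intro h1
      exact (h j i h1 hi).1
  have ha : ∀ i < 2 + n, ∀ j < 2 + n, (D.Adj (v i) (a j) ↔ i < j) := by
    intro i hi j hj
    constructor
    · intro h1
      rcases Nat.lt_trichotomy i j with h2 | h2 | h2
      · exact h2
      · subst h2
        exact absurd h1 (hno i hj).1
      · exact absurd (hI.edge hj) (ht (v i) (a j) (b j) h1 (h j i h2 hi).1)
    · intro h1
      exact (h i j h1 hj).2
  refine hT V D (fun i => v (i + 1)) b (fun j => a (j + 2)) ht hk ?_ ?_
  · intro i hi j hj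
    show D.Adj (v (i + 1)) (b j) ↔ j ≤ i
    rw [hb (i + 1) (by omega) j (by omega)]
    exact Nat.lt_succ_iff
  · intro i hi j hj
    show D.Adj (v (i + 1)) (a (j + 2)) ↔ i ≤ j
    rw [ha (i + 1) (by omega) (j + 2) (by omega)]
    constructor
    · intro h1
      omega
    · intro h1
      omega

/-- constant signs -/
theorem core {k n m : ℕ} {V : Type} {D : SimpleGraph V} {v a b : ℕ → V}
    (hT : ∀ (V : Type) (D : SimpleGraph V) (a t t' : ℕ → V),
      TriFree D → NoSpi k D → (∀ i < n, ∀ j < n, (D.Adj (a i) (t j) ↔ j ≤ i)) →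
      ¬ ∀ i < n, ∀ j < n, (D.Adj (a i) (t' j) ↔ i ≤ j))
    (ht : TriFree D) (hk : NoSpi k D) (hC : ¬ CoM D m) (hI : IM D (2 + max n m) a b)
    (hno : ∀ i < 2 + max n m, ¬ D.Adj (v i) (a i) ∧ ¬ D.Adj (v i) (b i))
    (hto : ∀ i < 2 + max n m, ∀ j < 2 + max n m, i ≠ j → (D.Adj (v i) (a j) ∨ D.Adj (v i) (b j)))
    (ε δ : Prop) (h1 : ∀ i j, i < j → j < 2 + max n m → (D.Adj (v j) (b i) ↔ ε))
    (h2 : ∀ i j, i < j → j < 2 + max n m → (D.Adj (v i) (b j) ↔ δ)) : False := by
  have hn := le_max_left n m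
  have hm := le_max_right n m
  have tri : ∀ i j, j < 2 + max n m → D.Adj (v i) (a j) → D.Adj (v i) (b j) → False :=
    fun i j hj g1 g2 => ht (v i) (a j) (b j) g1 g2 (hI.edge hj)
  by_cases hε : ε
  · by_cases hδ : δ
    · refine hC ⟨v, b, fun i hi j hj => ⟨?_, ?_⟩⟩
      · intro g1 g2
        subst g2
        exact (hno i (by omega)).2 g1
      · intro g
        rcases Nat.lt_or_gt_of_ne g with g1 | g1
        · exact (h2 i j g1 (by omega)).2 hδ
        · exact (h1 j i g1 (by omega)).2 hε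
    · refine tf (n := n) hT ht hk (hI.mono (by omega)) (fun i hi => hno i (by omega))
        (fun i j hij hj => ⟨(h1 i j hij (by omega)).2 hε, ?_⟩)
      rcases hto i (by omega) j (by omega) (by omega) with g | g
      · exact g
      · exact absurd ((h2 i j hij (by omega)).1 g) hδ
  · by_cases hδ : δ
    · refine tf (n := n) (a := b) (b := a) hT ht hk (hI.mono (by omega)).swap
        (fun i hi => (hno i (by omega)).symm) (fun i j hij hj => ⟨?_, (h2 i j hij (by omega)).2 hδ⟩)
      rcases hto j (by omega) i (by omega) (by omega) with g | g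
      · exact g
      · exact absurd ((h1 i j hij (by omega)).1 g) hε
    · refine hC ⟨v, a, fun i hi j hj => ⟨?_, ?_⟩⟩
      · intro g1 g2
        subst g2
        exact (hno i (by omega)).1 g1
      · intro g
        rcases hto i (by omega) j (by omega) g with g2 | g2
        · exact g2
        · exfalso
          rcases Nat.lt_or_gt_of_ne g with g1 | g1
          · exact hδ ((h2 i j g1 (by omega)).1 g2)
          · exact hε ((h1 j i g1 (by omega)).1 g2)

end Sgnx

theorem pSgn (h1 : S_T1) : S_Sgn := by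
  intro k m
  obtain ⟨n, hn⟩ := h1 k
  obtain ⟨N, hN⟩ := ramC (Prop × Prop) (2 + max n m)
  refine ⟨N, fun V D v a b ht hk hC hI hno hto => ?_⟩
  obtain ⟨s, c, hs1, hs2, hs3⟩ := hN (fun i j => (D.Adj (v j) (b i), D.Adj (v i) (b j)))
  have inj : ∀ i < 2 + max n m, ∀ j < 2 + max n m, s i = s j → i = j := by
    intro i hi j hj hij
    rcases Nat.lt_trichotomy i j with h2 | h2 | h2
    · exact absurd hij (hs1 i j h2 hj).ne
    · exact h2
    · exact absurd hij.symm (hs1 j i h2 hi).ne
  refine Sgnx.core (v := fun i => v (s i)) (a := fun i => a (s i)) (b := fun i => b (s i)) hn ht hk hC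
    (hI.comp s hs2 inj) (fun i hi => hno _ (hs2 i hi))
    (fun i hi j hj hij => hto _ (hs2 i hi) _ (hs2 j hj) (fun h => hij (inj i hi j hj h)))
    c.1 c.2 (fun i j hij hj => ?_) (fun i j hij hj => ?_)
  · have h3 := hs3 i j hij hj
    exact iff_of_eq (congrArg Prod.fst h3)
  · have h3 := hs3 i j hij hj
    exact iff_of_eq (congrArg Prod.snd h3)

end Pool.Agent.MPd439b2.SA
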