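import Pool.Agent.Lib.MP_d439b2_co.SA.SpecB

/-!
# MP_d439b2_co, SA, B7: subsequences of ladders and frames
-/

set_option autoImplicit false

namespace Pool.Agent.MPd439b2.SA

open Pool.Agent.MPd439b2 Pool.Agent.MPd439b2.W

private theorem sub_le {n' : ℕ} {σ : ℕ → ℕ} (hm : ∀ i j, i < j → j < n' → σ i < σ j) {i j : ℕ}
    (hi : i < n') (hj : j < n') : σ i ≤ σ j ↔ i ≤ j := by
  constructor
  · intro h
    by_contra h1
    have := hm j i (by omega) hi
    omega
  · intro h
    rcases h.lt_or_eq with h1 | h1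
    · exact (hm i j h1 hj).le
    · rw [h1]

private theorem sub_thr {n' : ℕ} {σ : ℕ → ℕ} (hm : ∀ i j, i < j → j < n' → σ i < σ j) (q : ℕ) :
    ∃ q', ∀ j < n', (q ≤ σ j ↔ q' ≤ j) := by
  classical
  have hex : ∃ j, j = n' ∨ q ≤ σ j := ⟨n', Or.inl rfl⟩
  refine ⟨Nat.find hex, fun j hj => ⟨fun h => Nat.find_min' hex (Or.inr h), fun h => ?_⟩⟩
  rcases Nat.find_spec hex with h1 | h1
  · omega
  · exact h1.trans ((sub_le hm (by omega) hj).mpr h)

private theorem sub_fin {n n' : ℕ} {σ : ℕ → ℕ} (hσ : ∀ i < n', σ i < n)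
    (hm : ∀ i j, i < j → j < n' → σ i < σ j) {p : ℕ → Prop} (h : FinS n p) :
    FinS n' fun j => p (σ j) := by
  obtain ⟨q, h | h⟩ := h
  · obtain ⟨q', hq'⟩ := sub_thr hm q
    exact ⟨q', Or.inl fun j hj => (h _ (hσ j hj)).trans (hq' j hj)⟩
  · by_cases h1 : ∃ s < n', σ s = q
    · obtain ⟨s, hs, hsq⟩ := h1
      by_cases h2 : s + 1 < n' ∧ σ (s + 1) = q + 1
      · refine ⟨s, Or.inr fun j hj => ?_⟩
        show p (σ j) ↔ _
        rw [h _ (hσ j hj)]
        constructor
        · rintro (h3 | h3)
          · left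
            have h4 : σ j ≤ σ s := by omega
            have h5 : σ s ≤ σ j := by omega
            rw [sub_le hm hj hs] at h4
            rw [sub_le hm hs hj] at h5
            omega
          · right
            by_contra h4
            have h5 : σ j ≤ σ (s + 1) := (sub_le hm hj h2.1).mpr (by omega)
            omega
        · rintro (h3 | h3)
          · left
            rw [h3, hsq]
          · right
            have h4 := hm (s + 1) j (by omega) hj
            omega
      · refine ⟨s, Or.inl fun j hj => ?_⟩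
        show p (σ j) ↔ _
        rw [h _ (hσ j hj)]
        constructor
        · intro h3
          have h4 : σ s ≤ σ j := by omega
          exact (sub_le hm hs hj).mp h4
        · intro h3
          rcases h3.lt_or_eq with h4 | h4
          · right
            have h5 : s + 1 < n' := by omega
            have h6 : σ (s + 1) ≤ σ j := (sub_le hm h5 hj).mpr (by omega)
            have h7 := hm s (s + 1) (by omega) h5
            have h8 : σ (s + 1) ≠ q + 1 := fun h9 => h2 ⟨h5, h9⟩
            omega
          · left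
            rw [← h4, hsq]
    · obtain ⟨q', hq'⟩ := sub_thr hm (q + 2)
      refine ⟨q', Or.inl fun j hj => ?_⟩
      show p (σ j) ↔ _
      rw [h _ (hσ j hj), ← hq' j hj]
      constructor
      · rintro (h3 | h3)
        · exact absurd ⟨j, hj, h3⟩ h1
        · exact h3
      · exact Or.inr

private theorem sub_few {n n' : ℕ} {σ : ℕ → ℕ} (hσ : ∀ i < n', σ i < n)
    (hm : ∀ i j, i < j → j < n' → σ i < σ j) {p : ℕ → Prop} (h : Few n p) :
    Few n' fun j => p (σ j) := by
  intro i hi j hj h1 h2
  have h3 := h _ (hσ i hi) _ (hσ j hj) h1 h2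
  have h4 := (sub_le hm hi hj).mp h3.le
  have h5 := (sub_le hm hj hi).mp h3.ge
  omega

theorem pSub0 : S_Sub0 := by
  intro n n' V D a b x σ hσ hm
  have hinj : ∀ i < n', ∀ j < n', σ i = σ j → i = j := by
    intro i hi j hj h3
    have h4 := (sub_le hm hi hj).mp h3.le
    have h5 := (sub_le hm hj hi).mp h3.ge
    omega
  have hlad : Lad D n a b x → Lad D n' (fun i => a (σ i)) (fun i => b (σ i)) fun i => x (σ i) :=
    fun h => {
      im := h.im.comp σ hσ hinj
      xb := fun i hi j hj => (h.xb _ (hσ i hi) _ (hσ j hj)).trans (sub_le hm hi hj)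
      xa := fun i hi j hj => h.xa _ (hσ i hi) _ (hσ j hj) }
  have hfr : Fr0 D n a b x → Fr0 D n' (fun i => a (σ i)) (fun i => b (σ i)) fun i => x (σ i) :=
    fun h => {
      lad := hlad h.lad
      tb := fun v => (h.tb v).imp (sub_few hσ hm) (sub_fin hσ hm)
      ex := fun v i hi j hj => h.ex v _ (hσ i hi) _ (hσ j hj) }
  refine ⟨hlad, hfr, fun h => ⟨hfr h.fr, fun v => (h.ta v).imp (sub_few hσ hm) ?_⟩⟩
  exact fun h1 j hj => h1 _ (hσ j hj)

end Pool.Agent.MPd439b2.SA
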