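import Pool.Agent.Lib.MP_d439b2_co.SA.Bip

/-!
# MP_d439b2_co, SA, A6 (T1): opposite half graphs at a common rail (helper82)
-/

set_option autoImplicit false

namespace Pool.Agent.MPd439b2.SA

open Pool.Agent.MPd439b2 Pool.Agent.MPd439b2.W

namespace T1x

/-- first index of the block `A i` -/
def iP (i : ℕ) : ℕ := if i = 0 then 7 else if i = 1 then 2 else if i = 2 then 5 else
  if i = 3 then 13 else 6 * i - 3

/-- second index of the block `A i` -/
def iQ (i : ℕ) : ℕ := if i = 0 then 8 else if i = 1 then 3 else if i = 2 then 10 else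
  if i = 3 then 14 else 6 * i - 2

/-- first index of the block `B i` -/
def iJ (i : ℕ) : ℕ := if i = 0 then 1 else if i = 1 then 4 else if i = 2 then 6 else
  if i = 3 then 12 else 6 * i - 4

/-- second index of the block `B i` -/
def iL (i : ℕ) : ℕ := if i = 0 then 9 else if i = 1 then 11 else if i = 2 then 15 else
  if i = 3 then 16 else 6 * i - 1

theorem lt {k i : ℕ} (hi : i < k + 4) : iP i < 6 * k + 29 ∧ iQ i < 6 * k + 29 ∧
    iJ i < 6 * k + 29 ∧ iL i < 6 * k + 29 ∧ 1 ≤ iJ i := by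
  unfold iP iQ iJ iL
  refine ⟨?_, ?_, ?_, ?_, ?_⟩ <;> split_ifs <;> omega

theorem neP {i j : ℕ} (h : i ≠ j) : iP i ≠ iP j := by
  unfold iP
  split_ifs <;> omega

theorem neQ {i j : ℕ} (h : i ≠ j) : iQ i ≠ iQ j := by
  unfold iQ
  split_ifs <;> omega

theorem nePQ {i j : ℕ} (h : i ≠ j) : iP i ≠ iQ j := by
  unfold iP iQ
  split_ifs <;> omega

theorem neJ {i j : ℕ} (h : i ≠ j) : iJ i ≠ iJ j := by
  unfold iJ
  split_ifs <;> omega

theorem neL {i j : ℕ} (h : i ≠ j) : iL i ≠ iL j := by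
  unfold iL
  split_ifs <;> omega

theorem key (i j : ℕ) : (iJ j ≤ iP i ∧ iP i ≤ iL j ∧ iJ j ≤ iQ i ∧ iQ i ≤ iL j) ↔
    Bip.bE i j := by
  unfold iP iQ iJ iL Bip.bE
  split_ifs <;> omega

end T1x

open T1x in
theorem pT1 : S_T1 := by
  intro k
  refine ⟨6 * k + 30, ?_⟩
  intro V D a t t' hT hN h1 h2
  -- the `a i` are pairwise not adjacent
  have haa : ∀ p < 6 * k + 30, ∀ q < 6 * k + 30, ¬ D.Adj (a p) (a q) := by
    intro p hp q hq
    refine hT (t 0) (a p) (a q) ?_ ?_
    · exact ((h1 p hp 0 (by omega)).2 (by omega)).symm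
    · exact ((h1 q hq 0 (by omega)).2 (by omega)).symm
  have htt : ∀ p < 6 * k + 30, ∀ q < 6 * k + 30, ¬ D.Adj (t p) (t q) := by
    intro p hp q hq
    refine hT (a (6 * k + 29)) (t p) (t q) ?_ ?_
    · exact (h1 _ (by omega) p hp).2 (by omega)
    · exact (h1 _ (by omega) q hq).2 (by omega)
  have ne_a : ∀ p < 6 * k + 30, ∀ q < 6 * k + 30, p ≠ q → a p ≠ a q := by
    have : ∀ p < 6 * k + 30, ∀ q < 6 * k + 30, p < q → a p ≠ a q := by
      intro p hp q hq hpq he
      have h3 := (h1 q hq q hq).2 le_rfl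
      rw [← he, h1 p hp q hq] at h3
      omega
    intro p hp q hq hpq he
    rcases lt_or_gt_of_ne hpq with h | h
    · exact this p hp q hq h he
    · exact this q hq p hp h he.symm
  have ne_t : ∀ p < 6 * k + 30, ∀ q < 6 * k + 30, p ≠ q → t p ≠ t q := by
    have : ∀ p < 6 * k + 30, ∀ q < 6 * k + 30, p < q → t p ≠ t q := by
      intro p hp q hq hpq he
      have h3 := (h1 p hp p hp).2 le_rfl
      rw [he, h1 p hp q hq] at h3
      omega
    intro p hp q hq hpq he
    rcases lt_or_gt_of_ne hpq with h | h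
    · exact this p hp q hq h he
    · exact this q hq p hp h he.symm
  have ne_t' : ∀ p < 6 * k + 30, ∀ q < 6 * k + 30, p ≠ q → t' p ≠ t' q := by
    have : ∀ p < 6 * k + 30, ∀ q < 6 * k + 30, p < q → t' p ≠ t' q := by
      intro p hp q hq hpq he
      have h3 := (h2 q hq q hq).2 le_rfl
      rw [← he, h2 q hq p hp] at h3
      omega
    intro p hp q hq hpq he
    rcases lt_or_gt_of_ne hpq with h | h
    · exact this p hp q hq h he
    · exact this q hq p hp h he.symm
  have ne_tt' : ∀ p < 6 * k + 30, ∀ q < 6 * k + 30, 1 ≤ p → t p ≠ t' q := by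
    intro p hp q hq h3 he
    have h4 := (h2 0 (by omega) q hq).2 (by omega)
    rw [← he, h1 0 (by omega) p hp] at h4
    omega
  have ne_at : ∀ p < 6 * k + 30, ∀ q < 6 * k + 30, a p ≠ t q := by
    intro p hp q hq he
    have h4 := (h1 (6 * k + 29) (by omega) q hq).2 (by omega)
    rw [← he] at h4
    exact haa _ (by omega) p hp h4
  have ne_at' : ∀ p < 6 * k + 30, ∀ q < 6 * k + 30, a p ≠ t' q := by
    intro p hp q hq he
    have h4 := (h2 0 (by omega) q hq).2 (by omega)
    rw [← he] at h4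
    exact haa _ (by omega) p hp h4
  refine Bip.spi_pairs (D := D) k (fun i => a (iP i)) (fun i => a (iQ i)) (fun i => t (iJ i))
    (fun i => t' (iL i)) ?_ ?_ ?_ ?_ hN
  · intro i hi j hj hij
    obtain ⟨i1, i2, i3, i4, i5⟩ := lt hi
    obtain ⟨j1, j2, j3, j4, j5⟩ := lt hj
    exact ⟨ne_a _ (by omega) _ (by omega) (neP hij), ne_a _ (by omega) _ (by omega) (nePQ hij),
      ne_a _ (by omega) _ (by omega) (neQ hij), haa _ (by omega) _ (by omega)⟩
  · intro i hi j hj hij
    obtain ⟨i1, i2, i3, i4, i5⟩ := lt hi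
    obtain ⟨j1, j2, j3, j4, j5⟩ := lt hj
    exact ⟨ne_t _ (by omega) _ (by omega) (neJ hij), ne_tt' _ (by omega) _ (by omega) i5,
      ne_t' _ (by omega) _ (by omega) (neL hij), htt _ (by omega) _ (by omega)⟩
  · intro i hi j hj
    obtain ⟨i1, i2, i3, i4, i5⟩ := lt hi
    obtain ⟨j1, j2, j3, j4, j5⟩ := lt hj
    exact ⟨ne_at _ (by omega) _ (by omega), ne_at' _ (by omega) _ (by omega),
      ne_at _ (by omega) _ (by omega), ne_at' _ (by omega) _ (by omega)⟩
  · intro i hi j hj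
    obtain ⟨i1, i2, i3, i4, i5⟩ := lt hi
    obtain ⟨j1, j2, j3, j4, j5⟩ := lt hj
    rw [← key i j]
    rw [h1 (iP i) (by omega) (iJ j) (by omega), h2 (iP i) (by omega) (iL j) (by omega),
      h1 (iQ i) (by omega) (iJ j) (by omega), h2 (iQ i) (by omega) (iL j) (by omega)]

end Pool.Agent.MPd439b2.SA
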