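import Pool.Agent.Lib.MP_d439b2_co.SA.Bip

/-!
# MP_d439b2_co, SA, A8 (T2): half graph and matching, complete to each other crosswise (helper82)
-/

set_option autoImplicit false

namespace Pool.Agent.MPd439b2.SA

open Pool.Agent.MPd439b2 Pool.Agent.MPd439b2.W

namespace T2MHx

/-- index of the `x` in the block `A i` -/
def xi (k i : ℕ) : ℕ := if i = 0 then k + 1 else if i = 1 then k + 2 else if i = 2 then k + 3 else
  i - 3

/-- index of the `b` in the block `B j` -/
def bj (k j : ℕ) : ℕ := if j < 3 then k + 2 + j else j - 3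

/-- index of the `w` in the block `B j` -/
def wj (j : ℕ) : ℕ := if j < 3 then j + 1 else j

theorem xi_lt {k i : ℕ} (hi : i < k + 4) : xi k i < k + 10 := by
  unfold xi
  split_ifs <;> omega

theorem bj_lt {k i : ℕ} (hi : i < k + 4) : bj k i < k + 10 := by
  unfold bj
  split_ifs <;> omega

theorem wj_lt {k i : ℕ} (hi : i < k + 4) : wj i < k + 10 := by
  unfold wj
  split_ifs <;> omega

theorem xi_ne {k i j : ℕ} (hi : i < k + 4) (hj : j < k + 4) (hi3 : i ≠ 3) (hj3 : j ≠ 3)
    (h : i ≠ j) : xi k i ≠ xi k j := by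
  unfold xi
  split_ifs <;> omega

theorem xi_ne0 {k j : ℕ} (hj : j < k + 4) (h : j ≠ 0) : k + 1 ≠ xi k j := by
  unfold xi
  split_ifs <;> omega

theorem bj_ne {k i j : ℕ} (hi : i < k + 4) (hj : j < k + 4) (h : i ≠ j) : bj k i ≠ bj k j := by
  unfold bj
  split_ifs <;> omega

theorem bj_ne0 {k j : ℕ} (hj : j < k + 4) (h : j ≠ 3) : 0 ≠ bj k j := by
  unfold bj
  split_ifs <;> omega

theorem wj_ne {i j : ℕ} (hi : i ≠ 3) (hj : j ≠ 3) (h : i ≠ j) : wj i ≠ wj j := by
  unfold wj
  split_ifs <;> omega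

theorem key {k i j : ℕ} (hi : i < k + 4) (hj : j < k + 4) :
    (((i = 0 ∧ j ≠ 3) ∨ (i ≠ 0 ∧ (j = 3 ∨ i = wj j))) ∧ ((i = 0 ∧ k + 1 ≤ bj k j) ∨ i ≠ 0) ∧
      ((i ≠ 3 ∧ j ≠ 3) ∨ (i = 3 ∧ (j = 3 ∨ 3 = wj j))) ∧ (i = 3 ∨ (i ≠ 3 ∧ xi k i ≤ bj k j))) ↔
      Bip.bE i j := by
  unfold xi bj wj Bip.bE
  split_ifs <;> omega

end T2MHx

open T2MHx in
theorem pT2MH : S_T2MH := by
  intro k V D x b f w hT hN hxb hfw hfb hxw
  have bx : ∀ i < k + 10, ∀ j < k + 10, (D.Adj (b i) (x j) ↔ j ≤ i) := fun i hi j hj => by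
    rw [D.adj_comm, hxb j hj i hi]
  have wf : ∀ i < k + 10, ∀ j < k + 10, (D.Adj (w i) (f j) ↔ j = i) := fun i hi j hj => by
    rw [D.adj_comm, hfw j hj i hi]
  have bf : ∀ i < k + 10, ∀ j < k + 10, D.Adj (b i) (f j) := fun i hi j hj => (hfb j hj i hi).symm
  have wx : ∀ i < k + 10, ∀ j < k + 10, D.Adj (w i) (x j) := fun i hi j hj => (hxw j hj i hi).symm
  have hxx : ∀ i < k + 10, ∀ j < k + 10, ¬ D.Adj (x i) (x j) := fun i hi j hj =>
    hT (w 0) _ _ (wx 0 (by omega) i hi) (wx 0 (by omega) j hj)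
  have hff : ∀ i < k + 10, ∀ j < k + 10, ¬ D.Adj (f i) (f j) := fun i hi j hj =>
    hT (b 0) _ _ (bf 0 (by omega) i hi) (bf 0 (by omega) j hj)
  have hbb : ∀ i < k + 10, ∀ j < k + 10, ¬ D.Adj (b i) (b j) := fun i hi j hj =>
    hT (f 0) _ _ (hfb 0 (by omega) i hi) (hfb 0 (by omega) j hj)
  have hww : ∀ i < k + 10, ∀ j < k + 10, ¬ D.Adj (w i) (w j) := fun i hi j hj =>
    hT (x 0) _ _ (hxw 0 (by omega) i hi) (hxw 0 (by omega) j hj)
  have hxf : ∀ i < k + 10, ∀ j < k + 10, ¬ D.Adj (x i) (f j) := fun i hi j hj =>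
    hT (w j) _ _ (wx j hj i hi) ((wf j hj j hj).2 rfl)
  have hbw : ∀ i < k + 10, ∀ j < k + 10, ¬ D.Adj (b i) (w j) := fun i hi j hj =>
    hT (f j) _ _ (hfb j hj i hi) ((hfw j hj j hj).2 rfl)
  -- different vertices
  have ne_xx : ∀ i < k + 10, ∀ j < k + 10, i ≠ j → x i ≠ x j := by
    have : ∀ i < k + 10, ∀ j < k + 10, i < j → x i ≠ x j := fun i hi j hj hij he => by
      have h1 := (hxb i hi i hi).2 le_rfl
      rw [he, hxb j hj i hi] at h1
      omega
    intro i hi j hj hij he
    rcases lt_or_gt_of_ne hij with h | h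
    · exact this i hi j hj h he
    · exact this j hj i hi h he.symm
  have ne_bb : ∀ i < k + 10, ∀ j < k + 10, i ≠ j → b i ≠ b j := by
    have : ∀ i < k + 10, ∀ j < k + 10, i < j → b i ≠ b j := fun i hi j hj hij he => by
      have h1 := (bx j hj j hj).2 le_rfl
      rw [← he, bx i hi j hj] at h1
      omega
    intro i hi j hj hij he
    rcases lt_or_gt_of_ne hij with h | h
    · exact this i hi j hj h he
    · exact this j hj i hi h he.symm
  have ne_ff : ∀ i < k + 10, ∀ j < k + 10, i ≠ j → f i ≠ f j := fun i hi j hj hij he => by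
    have h1 := (hfw i hi i hi).2 rfl
    rw [he, hfw j hj i hi] at h1
    exact hij h1.symm
  have ne_ww : ∀ i < k + 10, ∀ j < k + 10, i ≠ j → w i ≠ w j := fun i hi j hj hij he => by
    have h1 := (wf i hi i hi).2 rfl
    rw [he, wf j hj i hi] at h1
    exact hij h1
  have ne_xf : ∀ i < k + 10, ∀ j < k + 10, x i ≠ f j := fun i hi j hj he => by
    obtain ⟨l, hl, hlj⟩ : ∃ l < k + 10, j ≠ l := by
      by_cases h0 : j = 0
      · exact ⟨1, by omega, by omega⟩
      · exact ⟨0, by omega, h0⟩
    have h1 := hxw i hi l hl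
    rw [he, hfw j hj l hl] at h1
    exact hlj h1
  have ne_bw : ∀ i < k + 10, ∀ j < k + 10, b i ≠ w j := fun i hi j hj he => by
    obtain ⟨l, hl, hlj⟩ : ∃ l < k + 10, j ≠ l := by
      by_cases h0 : j = 0
      · exact ⟨1, by omega, by omega⟩
      · exact ⟨0, by omega, h0⟩
    have h1 := bf i hi l hl
    rw [he, wf j hj l hl] at h1
    exact hlj h1.symm
  have ne_xb : ∀ i < k + 10, ∀ j < k + 10, x i ≠ b j := fun i hi j hj he => by
    have h1 := hxw i hi 0 (by omega)
    rw [he] at h1
    exact hbw j hj 0 (by omega) h1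
  have ne_xw : ∀ i < k + 10, ∀ j < k + 10, x i ≠ w j := fun i hi j hj he => by
    have h1 := hxw i hi 0 (by omega)
    rw [he] at h1
    exact hww j hj 0 (by omega) h1
  have ne_fb : ∀ i < k + 10, ∀ j < k + 10, f i ≠ b j := fun i hi j hj he => by
    have h1 := hfb i hi 0 (by omega)
    rw [he] at h1
    exact hbb j hj 0 (by omega) h1
  have ne_fw : ∀ i < k + 10, ∀ j < k + 10, f i ≠ w j := fun i hi j hj he => by
    have h1 := hfb i hi 0 (by omega)
    rw [he] at h1
    exact hbw 0 (by omega) j hj h1.symm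
  refine Bip.spi_pairs (D := D) k (fun i => if i = 0 then x (k + 1) else f i)
    (fun i => if i = 3 then f 3 else x (xi k i)) (fun j => if j = 3 then b 0 else w (wj j))
    (fun j => b (bj k j)) ?_ ?_ ?_ ?_ hN
  · intro i hi j hj hij
    have hxi := xi_lt hi
    have hxj := xi_lt hj
    refine ⟨?_, ?_, ?_, ?_⟩
    · split_ifs with h1 h2 h2
      · omega
      · exact ne_xf _ (by omega) _ (by omega)
      · exact (ne_xf _ (by omega) _ (by omega)).symm
      · exact ne_ff _ (by omega) _ (by omega) hij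
    · split_ifs with h1 h2 h2
      · exact ne_xf _ (by omega) _ (by omega)
      · exact ne_xx _ (by omega) _ (by omega) (xi_ne0 hj (by omega))
      · exact ne_ff _ (by omega) _ (by omega) (by omega)
      · exact (ne_xf _ (by omega) _ (by omega)).symm
    · split_ifs with h1 h2 h2
      · omega
      · exact (ne_xf _ (by omega) _ (by omega)).symm
      · exact ne_xf _ (by omega) _ (by omega)
      · exact ne_xx _ (by omega) _ (by omega) (xi_ne hi hj h1 h2 hij)
    · split_ifs with h1 h2 h2
      · exact hxx _ (by omega) _ (by omega)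
      · exact hxf _ (by omega) _ (by omega)
      · exact fun h => hxf _ (by omega) _ (by omega) h.symm
      · exact hff _ (by omega) _ (by omega)
  · intro i hi j hj hij
    have hbi := bj_lt hi
    have hbj := bj_lt hj
    have hwi := wj_lt hi
    have hwj := wj_lt hj
    refine ⟨?_, ?_, ?_, ?_⟩
    · split_ifs with h1 h2 h2
      · omega
      · exact ne_bw _ (by omega) _ (by omega)
      · exact (ne_bw _ (by omega) _ (by omega)).symm
      · exact ne_ww _ (by omega) _ (by omega) (wj_ne h1 h2 hij)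
    · split_ifs with h1
      · exact ne_bb _ (by omega) _ (by omega) (bj_ne0 hj (by omega))
      · exact (ne_bw _ (by omega) _ (by omega)).symm
    · exact ne_bb _ (by omega) _ (by omega) (bj_ne hi hj hij)
    · split_ifs with h1 h2 h2
      · exact hbb _ (by omega) _ (by omega)
      · exact hbw _ (by omega) _ (by omega)
      · exact fun h => hbw _ (by omega) _ (by omega) h.symm
      · exact hww _ (by omega) _ (by omega)
  · intro i hi j hj
    have hxi := xi_lt hi
    have hbj := bj_lt hj
    have hwj := wj_lt hj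
    refine ⟨?_, ?_, ?_, ?_⟩
    · split_ifs with h1 h2 h2
      · exact ne_xb _ (by omega) _ (by omega)
      · exact ne_xw _ (by omega) _ (by omega)
      · exact ne_fb _ (by omega) _ (by omega)
      · exact ne_fw _ (by omega) _ (by omega)
    · split_ifs with h1
      · exact ne_xb _ (by omega) _ (by omega)
      · exact ne_fb _ (by omega) _ (by omega)
    · split_ifs with h1 h2 h2
      · exact ne_fb _ (by omega) _ (by omega)
      · exact ne_fw _ (by omega) _ (by omega)
      · exact ne_xb _ (by omega) _ (by omega)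
      · exact ne_xw _ (by omega) _ (by omega)
    · split_ifs with h1
      · exact ne_fb _ (by omega) _ (by omega)
      · exact ne_xb _ (by omega) _ (by omega)
  · intro i hi j hj
    have hxi := xi_lt hi
    have hbj := bj_lt hj
    have hwj := wj_lt hj
    rw [← key hi hj]
    refine and_congr ?_ (and_congr ?_ (and_congr ?_ ?_))
    · split_ifs with h1 h2 h2
      · rw [hxb _ (by omega) _ (by omega)]
        omega
      · exact iff_of_true (hxw _ (by omega) _ (by omega)) (Or.inl ⟨h1, h2⟩)
      · exact iff_of_true (hfb _ (by omega) _ (by omega)) (Or.inr ⟨h1, Or.inl h2⟩)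
      · rw [hfw _ (by omega) _ (by omega)]
        exact ⟨fun h => Or.inr ⟨h1, Or.inr h⟩, fun h => by
          rcases h with h | h
          · exact absurd h.1 h1
          · exact h.2.resolve_left h2⟩
    · split_ifs with h1
      · rw [hxb _ (by omega) _ (by omega)]
        exact ⟨fun h => Or.inl ⟨h1, h⟩, fun h => by
          rcases h with h | h
          · exact h.2
          · exact absurd h1 h⟩
      · exact iff_of_true (hfb _ (by omega) _ (by omega)) (Or.inr h1)
    · split_ifs with h1 h2 h2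
      · exact iff_of_true (hfb _ (by omega) _ (by omega)) (Or.inr ⟨h1, Or.inl h2⟩)
      · rw [hfw _ (by omega) _ (by omega)]
        exact ⟨fun h => Or.inr ⟨h1, Or.inr h⟩, fun h => by
          rcases h with h | h
          · exact absurd h1 h.1
          · exact h.2.resolve_left h2⟩
      · rw [hxb _ (by omega) _ (by omega)]
        have h3 : 1 ≤ xi k i := by
          unfold xi
          split_ifs <;> omega
        omega
      · exact iff_of_true (hxw _ (by omega) _ (by omega)) (Or.inl ⟨h1, h2⟩)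
    · split_ifs with h1
      · exact iff_of_true (hfb _ (by omega) _ (by omega)) (Or.inl h1)
      · rw [hxb _ (by omega) _ (by omega)]
        exact ⟨fun h => Or.inr ⟨h1, h⟩, fun h => by
          rcases h with h | h
          · exact absurd h h1
          · exact h.2⟩

end Pool.Agent.MPd439b2.SA
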