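import Pool.Agent.Lib.MP_d439b2_co.SA.Bip

/-!
# MP_d439b2_co, SA, A7 (T2): two matchings, complete to each other crosswise (helper82)
-/

set_option autoImplicit false

namespace Pool.Agent.MPd439b2.SA

open Pool.Agent.MPd439b2 Pool.Agent.MPd439b2.W

theorem pT2MM : S_T2MM := by
  intro k V D u v f w hT hN huv hfw hfv huw
  have vu : ∀ i < k + 4, ∀ j < k + 4, (D.Adj (v i) (u j) ↔ j = i) := fun i hi j hj => by
    rw [D.adj_comm, huv j hj i hi]
  have wf : ∀ i < k + 4, ∀ j < k + 4, (D.Adj (w i) (f j) ↔ j = i) := fun i hi j hj => by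
    rw [D.adj_comm, hfw j hj i hi]
  have vf : ∀ i < k + 4, ∀ j < k + 4, D.Adj (v i) (f j) := fun i hi j hj => (hfv j hj i hi).symm
  have wu : ∀ i < k + 4, ∀ j < k + 4, D.Adj (w i) (u j) := fun i hi j hj => (huw j hj i hi).symm
  have huu : ∀ i < k + 4, ∀ j < k + 4, ¬ D.Adj (u i) (u j) := fun i hi j hj =>
    hT (w 0) _ _ (wu 0 (by omega) i hi) (wu 0 (by omega) j hj)
  have hff : ∀ i < k + 4, ∀ j < k + 4, ¬ D.Adj (f i) (f j) := fun i hi j hj =>
    hT (v 0) _ _ (vf 0 (by omega) i hi) (vf 0 (by omega) j hj)
  have hvv : ∀ i < k + 4, ∀ j < k + 4, ¬ D.Adj (v i) (v j) := fun i hi j hj =>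
    hT (f 0) _ _ (hfv 0 (by omega) i hi) (hfv 0 (by omega) j hj)
  have hww : ∀ i < k + 4, ∀ j < k + 4, ¬ D.Adj (w i) (w j) := fun i hi j hj =>
    hT (u 0) _ _ (huw 0 (by omega) i hi) (huw 0 (by omega) j hj)
  have huf : ∀ i < k + 4, ∀ j < k + 4, ¬ D.Adj (u i) (f j) := fun i hi j hj =>
    hT (w j) _ _ (wu j hj i hi) ((wf j hj j hj).2 rfl)
  have hvw : ∀ i < k + 4, ∀ j < k + 4, ¬ D.Adj (v i) (w j) := fun i hi j hj =>
    hT (f j) _ _ (hfv j hj i hi) ((hfw j hj j hj).2 rfl)
  -- different vertices
  have ne_uu : ∀ i < k + 4, ∀ j < k + 4, i ≠ j → u i ≠ u j := fun i hi j hj hij he => by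
    have h1 := (huv i hi i hi).2 rfl
    rw [he, huv j hj i hi] at h1
    exact hij h1.symm
  have ne_ff : ∀ i < k + 4, ∀ j < k + 4, i ≠ j → f i ≠ f j := fun i hi j hj hij he => by
    have h1 := (hfw i hi i hi).2 rfl
    rw [he, hfw j hj i hi] at h1
    exact hij h1.symm
  have ne_vv : ∀ i < k + 4, ∀ j < k + 4, i ≠ j → v i ≠ v j := fun i hi j hj hij he => by
    have h1 := (vu i hi i hi).2 rfl
    rw [he, vu j hj i hi] at h1
    exact hij h1
  have ne_ww : ∀ i < k + 4, ∀ j < k + 4, i ≠ j → w i ≠ w j := fun i hi j hj hij he => by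
    have h1 := (wf i hi i hi).2 rfl
    rw [he, wf j hj i hi] at h1
    exact hij h1
  have ne_fu : ∀ i < k + 4, ∀ j < k + 4, f i ≠ u j := fun i hi j hj he => by
    obtain ⟨l, hl, hlj⟩ : ∃ l < k + 4, j ≠ l := by
      by_cases h0 : j = 0
      · exact ⟨1, by omega, by omega⟩
      · exact ⟨0, by omega, h0⟩
    have h1 := hfv i hi l hl
    rw [he, huv j hj l hl] at h1
    exact hlj h1
  have ne_wv : ∀ i < k + 4, ∀ j < k + 4, w i ≠ v j := fun i hi j hj he => by
    obtain ⟨l, hl, hlj⟩ : ∃ l < k + 4, j ≠ l := by
      by_cases h0 : j = 0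
      · exact ⟨1, by omega, by omega⟩
      · exact ⟨0, by omega, h0⟩
    have h1 := wu i hi l hl
    rw [he, vu j hj l hl] at h1
    exact hlj h1.symm
  have ne_uv : ∀ i < k + 4, ∀ j < k + 4, u i ≠ v j := fun i hi j hj he => by
    have h1 := huw i hi 0 (by omega)
    rw [he] at h1
    exact hvw j hj 0 (by omega) h1
  have ne_uw : ∀ i < k + 4, ∀ j < k + 4, u i ≠ w j := fun i hi j hj he => by
    have h1 := huw i hi 0 (by omega)
    rw [he] at h1
    exact hww j hj 0 (by omega) h1
  have ne_fv : ∀ i < k + 4, ∀ j < k + 4, f i ≠ v j := fun i hi j hj he => by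
    have h1 := hfv i hi 0 (by omega)
    rw [he] at h1
    exact hvv j hj 0 (by omega) h1
  have ne_fw : ∀ i < k + 4, ∀ j < k + 4, f i ≠ w j := fun i hi j hj he => by
    have h1 := hfv i hi 0 (by omega)
    rw [he] at h1
    exact hvw 0 (by omega) j hj h1.symm
  -- the blocks: `A 0 = {f 0}`, `A i = {f i, u i}`; `B j = {v (j+1)}` for `j < 3`, `B 3 = {w 3}`,
  -- `B j = {w j, v j}` for `4 ≤ j`
  refine Bip.spi_pairs (D := D) k (fun i => f i) (fun i => if i = 0 then f 0 else u i)
    (fun i => if i < 3 then v (i + 1) else w i)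
    (fun i => if i < 3 then v (i + 1) else if i = 3 then w 3 else v i) ?_ ?_ ?_ ?_ hN
  · intro i hi j hj hij
    refine ⟨ne_ff i hi j hj hij, ?_, ?_, hff i hi j hj⟩
    · skip
      split_ifs with h1
      · exact ne_ff i hi 0 (by omega) (by omega)
      · exact ne_fu i hi j hj
    · skip
      split_ifs with h1 h2 h2
      · omega
      · exact ne_fu 0 (by omega) j hj
      · exact (ne_fu 0 (by omega) i hi).symm
      · exact ne_uu i hi j hj hij
  · intro i hi j hj hij
    refine ⟨?_, ?_, ?_, ?_⟩
    · skip
      split_ifs with h1 h2 h2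
      · exact ne_vv _ (by omega) _ (by omega) (by omega)
      · exact (ne_wv _ (by omega) _ (by omega)).symm
      · exact ne_wv _ (by omega) _ (by omega)
      · exact ne_ww _ (by omega) _ (by omega) hij
    · skip
      split_ifs with h1 h2 h3 h2 h3
      · exact ne_vv _ (by omega) _ (by omega) (by omega)
      · exact (ne_wv _ (by omega) _ (by omega)).symm
      · exact ne_vv _ (by omega) _ (by omega) (by omega)
      · exact ne_wv _ (by omega) _ (by omega)
      · exact ne_ww _ (by omega) _ (by omega) (by omega)
      · exact ne_wv _ (by omega) _ (by omega)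
    · skip
      split_ifs with h1 h2 h3 h2 h3 h4 h4 h5
      · exact ne_vv _ (by omega) _ (by omega) (by omega)
      · exact (ne_wv _ (by omega) _ (by omega)).symm
      · exact ne_vv _ (by omega) _ (by omega) (by omega)
      · exact ne_wv _ (by omega) _ (by omega)
      · omega
      · exact ne_wv _ (by omega) _ (by omega)
      · exact ne_vv _ (by omega) _ (by omega) (by omega)
      · exact (ne_wv _ (by omega) _ (by omega)).symm
      · exact ne_vv _ (by omega) _ (by omega) (by omega)
    · skip
      split_ifs with h1 h2 h2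
      · exact hvv _ (by omega) _ (by omega)
      · exact hvw _ (by omega) _ (by omega)
      · exact fun h => hvw _ (by omega) _ (by omega) h.symm
      · exact hww _ (by omega) _ (by omega)
  · intro i hi j hj
    refine ⟨?_, ?_, ?_, ?_⟩
    · skip
      split_ifs with h1
      · exact ne_fv _ (by omega) _ (by omega)
      · exact ne_fw _ (by omega) _ (by omega)
    · skip
      split_ifs with h1 h2
      · exact ne_fv _ (by omega) _ (by omega)
      · exact ne_fw _ (by omega) _ (by omega)
      · exact ne_fv _ (by omega) _ (by omega)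
    · skip
      split_ifs with h1 h2 h2
      · exact ne_fv _ (by omega) _ (by omega)
      · exact ne_fw _ (by omega) _ (by omega)
      · exact ne_uv _ (by omega) _ (by omega)
      · exact ne_uw _ (by omega) _ (by omega)
    · skip
      split_ifs with h1 h2 h3 h2 h3
      · exact ne_fv _ (by omega) _ (by omega)
      · exact ne_fw _ (by omega) _ (by omega)
      · exact ne_fv _ (by omega) _ (by omega)
      · exact ne_uv _ (by omega) _ (by omega)
      · exact ne_uw _ (by omega) _ (by omega)
      · exact ne_uv _ (by omega) _ (by omega)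
  · intro i hi j hj
    unfold Bip.bE
    by_cases j3 : j < 3
    · simp only [if_pos j3]
      have e1 : D.Adj (f i) (v (j + 1)) := hfv i hi _ (by omega)
      by_cases i0 : i = 0
      · simp only [if_pos i0]
        subst i0
        constructor
        · intro _
          exact Or.inl ⟨rfl, j3⟩
        · intro _
          exact ⟨e1, e1, e1, e1⟩
      · simp only [if_neg i0]
        rw [huv i hi (j + 1) (by omega)]
        constructor
        · rintro ⟨-, -, h, -⟩
          omega
        · intro h
          have h' : i = j + 1 := by omega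
          exact ⟨e1, e1, h', h'⟩
    · simp only [if_neg j3]
      rw [hfw i hi j hj]
      by_cases j4 : j = 3
      · simp only [if_pos j4]
        subst j4
        by_cases i0 : i = 0
        · simp only [if_pos i0]
          subst i0
          constructor
          · rintro ⟨h, -, -, -⟩
            omega
          · intro h
            omega
        · simp only [if_neg i0]
          rw [hfw i hi 3 (by omega)]
          have e2 : D.Adj (u i) (w 3) := huw i hi _ (by omega)
          constructor
          · rintro ⟨h, -, -, -⟩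
            exact Or.inr (Or.inr (Or.inr (Or.inl ⟨h, Or.inr trivial⟩)))
          · intro h
            have h' : i = 3 := by omega
            exact ⟨h', h', e2, e2⟩
      · simp only [if_neg j4]
        by_cases i0 : i = 0
        · subst i0
          constructor
          · rintro ⟨h, -, -, -⟩
            omega
          · intro h
            omega
        · simp only [if_neg i0]
          have e1 : D.Adj (f i) (v j) := hfv i hi _ (by omega)
          have e2 : D.Adj (u i) (w j) := huw i hi _ (by omega)
          rw [huv i hi j hj]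
          constructor
          · rintro ⟨h, -, -, -⟩
            omega
          · intro h
            have h' : i = j := by omega
            exact ⟨h', e1, e2, h'⟩

end Pool.Agent.MPd439b2.SA
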