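import Pool.Agent.Lib.MP_d439b2_co.SA.SpecB

/-!
# MP_d439b2_co, SA, B4: the `b`-traces are exact
-/

set_option autoImplicit false

namespace Pool.Agent.MPd439b2.SA

open Pool.Agent.MPd439b2 Pool.Agent.MPd439b2.W

theorem pTb (hTbA : S_TbA) (hTbB : S_TbB) (hTbC : S_TbC) : S_Tb := by
  classical
  intro k n V D a b x ht hk hL v
  by_cases hex : ∃ q, q < n ∧ D.Adj v (b q) ∧ ∃ p, k ≤ p ∧ p < q ∧ D.Adj v (b p)
  · obtain ⟨hqn, hq, p, hkp, hpq, hp⟩ := Nat.find_spec hex
    have hmin := fun m => Nat.find_min hex (m := m)
    set q := Nat.find hex with hqdef
    have huni : ∀ j, k ≤ j → j < q → D.Adj v (b j) → j = p := by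
      intro j hkj hjq hj
      rcases lt_trichotomy j p with h1 | h1 | h1
      · exact absurd ⟨by omega, hp, j, hkj, h1, hj⟩ (hmin p hpq)
      · exact h1
      · exact absurd ⟨by omega, hj, p, hkp, h1, hp⟩ (hmin j hjq)
    by_cases hlast : ∀ j, q < j → j < n → ¬ D.Adj v (b j)
    · left
      have hcl : ∀ i j, 2 * k + 4 ≤ i → i < j → j + 3 < n → D.Adj v (b i) → D.Adj v (b j) →
          False := by
        intro i j hi hij hj hai haj
        have h1 : j = q := by
          rcases lt_trichotomy j q with h2 | h2 | h2
          · have h3 := huni j (by omega) h2 haj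
            have h4 := huni i (by omega) (by omega) hai
            omega
          · exact h2
          · exact absurd haj (hlast j h2 (by omega))
        have h2 : i = p := huni i (by omega) (by omega) hai
        subst h1
        subst h2
        exact hTbB k n V D a b x ht hk hL v i q (by omega) hpq (by omega) (by omega) hp hq huni
          hlast
      intro i hi j hj hai haj
      rcases lt_trichotomy i j with h1 | h1 | h1
      · exact (hcl _ _ (by omega) (by omega) (by omega) hai haj).elim
      · exact h1
      · exact (hcl _ _ (by omega) (by omega) (by omega) haj hai).elim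
    · right
      push Not at hlast
      obtain ⟨l, hql, hln, hl⟩ := hlast
      have hfin : ∀ e, q ≤ e → e < n → D.Adj v (b e) := by
        intro e hqe hen
        rcases hqe.lt_or_eq with h1 | h1
        · exact hTbA k n V D a b x ht hk hL v p q l e hkp hpq hql h1 hln hen hp hq hl
        · rw [← h1]
          exact hq
      by_cases hqc : q ≤ 2 * k + 4
      · exact ⟨0, Or.inl fun j hj => iff_of_true (hfin _ (by omega) (by omega)) (Nat.zero_le _)⟩
      · have hq2 : q ≤ p + 2 := by
          by_contra h1
          exact hTbC k n V D a b x ht hk hL v p q hkp (by omega) (by omega) (by omega) hp huni hfin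
        by_cases hq1 : q = p + 1
        · refine ⟨p - (2 * k + 4), Or.inl fun j hj => ⟨fun h1 => ?_, fun h1 => ?_⟩⟩
          · by_contra h2
            have h3 := huni (j + (2 * k + 4)) (by omega) (by omega) h1
            omega
          · rcases Nat.lt_or_ge (j + (2 * k + 4)) q with h2 | h2
            · have h3 : j + (2 * k + 4) = p := by omega
              rw [h3]
              exact hp
            · exact hfin _ h2 (by omega)
        · have hq3 : q = p + 2 := by omega
          by_cases hcp : 2 * k + 4 ≤ p
          · refine ⟨p - (2 * k + 4), Or.inr fun j hj => ⟨fun h1 => ?_, fun h1 => ?_⟩⟩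
            · by_contra h2
              have h3 := huni (j + (2 * k + 4)) (by omega) (by omega) h1
              omega
            · rcases h1 with h1 | h1
              · have h3 : j + (2 * k + 4) = p := by omega
                rw [h3]
                exact hp
              · exact hfin _ (by omega) (by omega)
          · refine ⟨p + 2 - (2 * k + 4), Or.inl fun j hj => ⟨fun h1 => ?_, fun h1 => ?_⟩⟩
            · by_contra h2
              have h3 := huni (j + (2 * k + 4)) (by omega) (by omega) h1
              omega
            · exact hfin _ (by omega) (by omega)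
  · left
    push Not at hex
    intro i hi j hj hai haj
    rcases lt_trichotomy i j with h1 | h1 | h1
    · exact absurd hai (hex (j + (2 * k + 4)) (by omega) haj (i + (2 * k + 4)) (by omega) (by omega))
    · exact h1
    · exact absurd haj (hex (i + (2 * k + 4)) (by omega) hai (j + (2 * k + 4)) (by omega) (by omega))

end Pool.Agent.MPd439b2.SA
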