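import Pool.Agent.Lib.MP_d439b2_co.SA.SpecB

/-!
# MP_d439b2_co, SA, B1: after two neighbours the trace is constant
-/

set_option autoImplicit false

namespace Pool.Agent.MPd439b2.SA

open Pool.Agent.MPd439b2 Pool.Agent.MPd439b2.W

namespace TbAx

variable {V : Type} {D : SimpleGraph V}

theorem bmt {n : ℕ} {a b : ℕ → V} {I : Finset ℕ} (h : IM D n a b) (hI : ∀ i ∈ I, i < n) :
    BMt D I (fun i => {b i}) (fun i => {a i}) where
  pne := fun i _ => Finset.singleton_nonempty _
  qne := fun i _ => Finset.singleton_nonempty _
  pq := by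
    intro i hi u hu v hv
    rw [Finset.mem_singleton] at hu hv
    subst hu; subst hv
    exact (h.edge (hI i hi)).symm
  pp := by
    intro i hi j hj hij
    refine ⟨?_, ?_⟩
    · rw [Finset.disjoint_singleton]
      intro he
      have h1 := h.edge (hI i hi)
      rw [he] at h1
      exact hij ((h i (hI i hi) j (hI j hj)).1.1 h1)
    · intro hc
      exact (h i (hI i hi) j (hI j hj)).2.2
        (hc _ (Finset.mem_singleton_self _) _ (Finset.mem_singleton_self _))
  px := by
    intro i hi j hj hij
    refine ⟨?_, ?_⟩
    · rw [Finset.disjoint_singleton]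
      intro he
      exact h.ne_ab (hI j hj) (hI i hi) he.symm
    · intro hc
      exact hij ((h j (hI j hj) i (hI i hi)).1.1
        (hc _ (Finset.mem_singleton_self _) _ (Finset.mem_singleton_self _)).symm).symm
  qq := by
    intro i hi j hj hij
    refine ⟨?_, ?_⟩
    · rw [Finset.disjoint_singleton]
      intro he
      have h1 := h.edge (hI i hi)
      rw [he] at h1
      exact hij ((h j (hI j hj) i (hI i hi)).1.1 h1).symm
    · intro hc
      exact (h i (hI i hi) j (hI j hj)).2.1
        (hc _ (Finset.mem_singleton_self _) _ (Finset.mem_singleton_self _))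

/-- a vertex which sees two different `b`-vertices is not a vertex of the matching -/
theorem off {n : ℕ} {a b : ℕ → V} (h : IM D n a b) {v : V} {p q : ℕ} (hp : p < n) (hq : q < n)
    (hpq : p ≠ q) (h1 : D.Adj v (b p)) (h2 : D.Adj v (b q)) {i : ℕ} (hi : i < n) :
    v ≠ b i ∧ v ≠ a i := by
  constructor
  · rintro rfl
    exact (h i hi p hp).2.2 h1
  · rintro rfl
    exact hpq (((h i hi p hp).1.1 h1).symm.trans ((h i hi q hq).1.1 h2))

end TbAx

/-- **B1.** -/
theorem pTbA (h1 : S_R) : S_TbA := by
  classical
  intro k n V D a b x hT hS hL v p q l e hkp hpq hql hqe hln hen vp vq vl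
  by_contra hve
  have hel : e ≠ l := by
    rintro rfl
    exact hve vl
  have him := hL.im
  have hpn : p < n := by omega
  have hqn : q < n := by omega
  have hq1 : q + 1 < n := by omega
  have xpp : D.Adj (x p) (b p) := (hL.xb p hpn p hpn).2 (le_refl p)
  have xpq : D.Adj (x p) (b q) := (hL.xb p hpn q hqn).2 (by omega)
  have xpl : D.Adj (x p) (b l) := (hL.xb p hpn l hln).2 (by omega)
  have yl : D.Adj (x (q + 1)) (b l) := (hL.xb _ hq1 l hln).2 (by omega)
  have ye : D.Adj (x (q + 1)) (b e) := (hL.xb _ hq1 e hen).2 (by omega)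
  have yp : ¬ D.Adj (x (q + 1)) (b p) := fun h => by
    have := (hL.xb _ hq1 p hpn).1 h
    omega
  set I : Finset ℕ := Finset.range k ∪ {p, q, l, e} with hI
  have hIn : ∀ i ∈ I, i < n := by
    intro i hi
    simp only [hI, Finset.mem_union, Finset.mem_range, Finset.mem_insert,
      Finset.mem_singleton] at hi
    rcases hi with h | rfl | rfl | rfl | rfl <;> omega
  have hpI : p ∈ I := by simp [hI]
  have hqI : q ∈ I := by simp [hI]
  have hlI : l ∈ I := by simp [hI]
  have heI : e ∈ I := by simp [hI]
  have hTC : ∀ i ∈ I, Tc D (fun i => {b i}) (fun i => {a i}) {v, x p} i ↔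
      D.Adj v (b i) ∧ p ≤ i := by
    intro i hi
    constructor
    · rintro (h | h)
      · refine ⟨h v (by simp) (b i) (by simp), ?_⟩
        exact (hL.xb p hpn i (hIn i hi)).1 (h (x p) (by simp) (b i) (by simp))
      · exact absurd (h (x p) (by simp) (a i) (by simp)) (hL.xa p hpn i (hIn i hi))
    · rintro ⟨h2, h3⟩
      left
      intro u hu w hw
      rw [Finset.mem_singleton] at hw
      rw [Finset.mem_insert, Finset.mem_singleton] at hu
      subst hw
      rcases hu with rfl | rfl
      · exact h2
      · exact (hL.xb p hpn i (hIn i hi)).2 h3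
  have hTC' : ∀ i ∈ I, Tc D (fun i => {b i}) (fun i => {a i}) {x (q + 1)} i ↔ q + 1 ≤ i := by
    intro i hi
    constructor
    · rintro (h | h)
      · exact (hL.xb _ hq1 i (hIn i hi)).1 (h _ (by simp) (b i) (by simp))
      · exact absurd (h _ (by simp) (a i) (by simp)) (hL.xa _ hq1 i (hIn i hi))
    · intro h2
      left
      intro u hu w hw
      rw [Finset.mem_singleton] at hu hw
      subst hu; subst hw
      exact (hL.xb _ hq1 i (hIn i hi)).2 h2
  have key := h1 k V D I (fun i => {b i}) (fun i => {a i}) {v, x p} {x (q + 1)} hT hS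
    (TbAx.bmt him hIn) (Finset.insert_nonempty _ _) (Finset.singleton_nonempty _) ?_ ?_ ?_ ?_ ?_
    l hlI ((hTC l hlI).2 ⟨vl, by omega⟩) ((hTC' l hlI).2 (by omega))
  · exact hve ((hTC e heI).1 (key.1 e heI ((hTC' e heI).2 (by omega)))).1
  · rw [Finset.disjoint_singleton_right, Finset.mem_insert, Finset.mem_singleton]
    rintro (h | h)
    · rw [h] at yp
      exact yp vp
    · rw [h] at yp
      exact yp xpp
  · intro i hi
    have hv := TbAx.off him hpn hqn (by omega) vp vq (hIn i hi)
    have hx := TbAx.off him hpn hqn (by omega) xpp xpq (hIn i hi)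
    constructor
    · rw [Finset.disjoint_singleton_right, Finset.mem_insert, Finset.mem_singleton]
      rintro (h | h)
      · exact hv.1 h.symm
      · exact hx.1 h.symm
    · rw [Finset.disjoint_singleton_right, Finset.mem_insert, Finset.mem_singleton]
      rintro (h | h)
      · exact hv.2 h.symm
      · exact hx.2 h.symm
  · intro i hi
    have hx := TbAx.off him hln hen hel.symm yl ye (hIn i hi)
    constructor
    · rw [Finset.disjoint_singleton]
      exact hx.1
    · rw [Finset.disjoint_singleton]
      exact hx.2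
  · refine ⟨Finset.range k, ?_, ?_, ?_⟩
    · rw [hI]
      exact Finset.subset_union_left
    · rw [Finset.card_range]
    · intro r hr
      have hrI : r ∈ I := by
        rw [hI]
        exact Finset.mem_union_left _ hr
      rw [Finset.mem_range] at hr
      constructor
      · intro h
        have := ((hTC r hrI).1 h).2
        omega
      · intro h
        have := (hTC' r hrI).1 h
        omega
  · refine ⟨p, hpI, q, hqI, by omega, (hTC p hpI).2 ⟨vp, le_refl p⟩,
      (hTC q hqI).2 ⟨vq, by omega⟩, ?_, ?_⟩
    · intro h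
      have := (hTC' p hpI).1 h
      omega
    · intro h
      have := (hTC' q hqI).1 h
      omega

end Pool.Agent.MPd439b2.SA
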