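import Pool.Agent.Lib.MP_d439b2_co.SA.SpecB

/-!
# MP_d439b2_co, SA, B2: a trace does not consist of two neighbours
-/

set_option autoImplicit false

namespace Pool.Agent.MPd439b2.SA.TbBx

open Pool.Agent.MPd439b2 Pool.Agent.MPd439b2.W

variable {V : Type} {D : SimpleGraph V} {n : ℕ} {a b x : ℕ → V}

theorem xa_ne (h : Lad D n a b x) {s j : ℕ} (hs : s + 1 < n) (hj : j < n) : x s ≠ a j := by
  intro he
  have h1 := (h.xb s (by omega) s (by omega)).2 le_rfl
  have h2 := (h.xb s (by omega) (s + 1) hs).2 (by omega)
  rw [he] at h1 h2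
  have h3 := (h.im j hj s (by omega)).1.1 h1
  have h4 := (h.im j hj (s + 1) hs).1.1 h2
  omega

theorem xb_ne (h : Lad D n a b x) {s j : ℕ} (hs : s < n) (hj : j < n) : x s ≠ b j := by
  intro he
  have h1 := (h.xb s hs s hs).2 le_rfl
  rw [he] at h1
  exact (h.im j hj s hs).2.2 h1

theorem x_inj (h : Lad D n a b x) {s t : ℕ} (hs : s < n) (ht : t < n) (he : x s = x t) : s = t := by
  have h1 := (h.xb s hs s hs).2 le_rfl
  have h2 := (h.xb t ht t ht).2 le_rfl
  rw [he] at h1
  rw [← he] at h2
  have h3 := (h.xb t ht s hs).1 h1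
  have h4 := (h.xb s hs t ht).1 h2
  omega

open Classical in
/-- the block matching of the merge trick; the blocks with an index in `E` are not enlarged -/
theorem bmt (h : Lad D n a b x) (I E : Finset ℕ) (s : ℕ → ℕ) (hI : ∀ i ∈ I, i < n)
    (hs : ∀ i ∈ I, i ∉ E → s i ≤ i ∧ s i + 1 < n)
    (hinj : ∀ i ∈ I, ∀ j ∈ I, i ∉ E → j ∉ E → s i = s j → i = j) :
    BMt D I (fun i => {b i}) (fun i => if i ∈ E then {a i} else {a i, x (s i)}) where
  pne i _ := Finset.singleton_nonempty _
  qne i _ := by
    split_ifs
    · exact Finset.singleton_nonempty _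
    · exact Finset.insert_nonempty _ _
  pq i hi := by
    intro u hu w hw
    rw [Finset.mem_singleton] at hu
    subst hu
    split_ifs at hw with he
    · rw [Finset.mem_singleton] at hw
      subst hw
      exact (h.im.edge (hI i hi)).symm
    · rw [Finset.mem_insert, Finset.mem_singleton] at hw
      rcases hw with rfl | rfl
      · exact (h.im.edge (hI i hi)).symm
      · obtain ⟨h1, h2⟩ := hs i hi he
        exact ((h.xb (s i) (by omega) i (hI i hi)).2 h1).symm
  pp i hi j hj hij := by
    refine ⟨?_, fun hc => (h.im i (hI i hi) j (hI j hj)).2.2 (hc _ (Finset.mem_singleton_self _) _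
      (Finset.mem_singleton_self _))⟩
    rw [Finset.disjoint_singleton]
    exact fun he => hij (h.im.inj_b (hI i hi) (hI j hj) he)
  px i hi j hj hij := by
    have hmem : a j ∈ (if j ∈ E then {a j} else {a j, x (s j)} : Finset V) := by
      split_ifs
      · exact Finset.mem_singleton_self _
      · exact Finset.mem_insert_self _ _
    refine ⟨?_, fun hc => ?_⟩
    · rw [Finset.disjoint_singleton_left]
      intro hm
      split_ifs at hm with he
      · rw [Finset.mem_singleton] at hm
        exact h.im.ne_ab (hI j hj) (hI i hi) hm.symm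
      · rw [Finset.mem_insert, Finset.mem_singleton] at hm
        rcases hm with hm | hm
        · exact h.im.ne_ab (hI j hj) (hI i hi) hm.symm
        · exact xb_ne h (by have := (hs j hj he).2; omega) (hI i hi) hm.symm
    · have h1 := hc _ (Finset.mem_singleton_self _) _ hmem
      exact hij ((h.im j (hI j hj) i (hI i hi)).1.1 h1.symm).symm
  qq i hi j hj hij := by
    have hmem : ∀ j, a j ∈ (if j ∈ E then {a j} else {a j, x (s j)} : Finset V) := by
      intro j
      split_ifs
      · exact Finset.mem_singleton_self _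
      · exact Finset.mem_insert_self _ _
    refine ⟨?_, fun hc => (h.im i (hI i hi) j (hI j hj)).2.1 (hc _ (hmem i) _ (hmem j))⟩
    have hcase : ∀ {i : ℕ} {u : V}, u ∈ (if i ∈ E then {a i} else {a i, x (s i)} : Finset V) →
        u = a i ∨ (i ∉ E ∧ u = x (s i)) := by
      intro i u hu
      split_ifs at hu with he
      · exact Or.inl (Finset.mem_singleton.1 hu)
      · rw [Finset.mem_insert, Finset.mem_singleton] at hu
        exact hu.imp id fun h => ⟨he, h⟩
    rw [Finset.disjoint_left]
    intro u hu hu'
    rcases hcase hu with h1 | ⟨he, h1⟩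
    · rcases hcase hu' with h2 | ⟨he', h2⟩
      · exact hij (h.im.inj_a (hI i hi) (hI j hj) (h1.symm.trans h2))
      · exact xa_ne h (hs j hj he').2 (hI i hi) (h2.symm.trans h1)
    · rcases hcase hu' with h2 | ⟨he', h2⟩
      · exact xa_ne h (hs i hi he).2 (hI j hj) (h1.symm.trans h2)
      · have h3 := (hs i hi he).2
        have h4 := (hs j hj he').2
        exact hij (hinj i hi j hj he he' (x_inj h (by omega) (by omega) (h1.symm.trans h2)))

end TbBx

open Pool.Agent.MPd439b2 Pool.Agent.MPd439b2.W

theorem pTbB (hR : S_R) : S_TbB := by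
  classical
  intro k n V D a b x ht hno hL v p q hkp hpq hkq hqn hvp hvq honly hcon
  -- the indices
  set τ : ℕ → ℕ := fun j => if k + j < p then k + j else k + j + 1 with hτ
  set T : Finset ℕ := (Finset.range k).image τ with hT
  set s : ℕ → ℕ := fun i => if i < p then i - k else if i < q then i - k - 1 else i - q - 1 + k
    with hs
  set I : Finset ℕ := T ∪ {p, q, q + 1, q + 2} with hI
  set E : Finset ℕ := {p, q} with hE
  have hTm : ∀ i ∈ T, k ≤ i ∧ i ≤ 2 * k ∧ i ≠ p ∧ i < q ∧ s i < k := by
    intro i hi
    rw [hT, Finset.mem_image] at hi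
    obtain ⟨j, hj, rfl⟩ := hi
    rw [Finset.mem_range] at hj
    simp only [hτ, hs]
    split_ifs <;> omega
  have hTc : T.card = k := by
    rw [hT, Finset.card_image_of_injective]
    · exact Finset.card_range k
    · intro i j hij
      simp only [hτ] at hij
      split_ifs at hij <;> omega
  have hIm : ∀ i, i ∈ I ↔ i ∈ T ∨ i = p ∨ i = q ∨ i = q + 1 ∨ i = q + 2 := by
    intro i
    rw [hI, Finset.mem_union]
    simp only [Finset.mem_insert, Finset.mem_singleton]
  have hIn : ∀ i ∈ I, i < n := by
    intro i hi
    rw [hIm] at hi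
    rcases hi with hi | hi | hi | hi | hi
    · have := hTm i hi; omega
    all_goals omega
  have hEm : ∀ i, i ∉ E ↔ i ≠ p ∧ i ≠ q := by
    intro i
    rw [hE]
    simp only [Finset.mem_insert, Finset.mem_singleton]
    push Not
    exact Iff.rfl
  have hs1 : s (q + 1) = k := by simp only [hs]; split_ifs <;> omega
  have hs2 : s (q + 2) = k + 1 := by simp only [hs]; split_ifs <;> omega
  have hsI : ∀ i ∈ I, i ∉ E → s i ≤ i ∧ s i ≤ k + 1 := by
    intro i hi he
    rw [hEm] at he
    rw [hIm] at hi
    rcases hi with hi | hi | hi | hi | hi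
    · have := hTm i hi; omega
    · exact absurd hi he.1
    · exact absurd hi he.2
    · subst hi; rw [hs1]; omega
    · subst hi; rw [hs2]; omega
  have hsinj : ∀ i ∈ I, ∀ j ∈ I, i ∉ E → j ∉ E → s i = s j → i = j := by
    intro i hi j hj hei hej hij
    rw [hEm] at hei hej
    rw [hIm] at hi hj
    have key : ∀ i ∈ T, ∀ j ∈ T, s i = s j → i = j := by
      intro i hi j hj hij
      have h1 := hTm i hi
      have h2 := hTm j hj
      simp only [hs] at hij
      split_ifs at hij <;> omega
    rcases hi with hi | hi | hi | hi | hi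
    · rcases hj with hj | hj | hj | hj | hj
      · exact key i hi j hj hij
      · exact absurd hj hej.1
      · exact absurd hj hej.2
      · subst hj; rw [hs1] at hij; have := hTm i hi; omega
      · subst hj; rw [hs2] at hij; have := hTm i hi; omega
    · exact absurd hi hei.1
    · exact absurd hi hei.2
    · subst hi
      rw [hs1] at hij
      rcases hj with hj | hj | hj | hj | hj
      · have := hTm j hj; omega
      · exact absurd hj hej.1
      · exact absurd hj hej.2
      · exact hj.symm
      · subst hj; rw [hs2] at hij; omega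
    · subst hi
      rw [hs2] at hij
      rcases hj with hj | hj | hj | hj | hj
      · have := hTm j hj; omega
      · exact absurd hj hej.1
      · exact absurd hj hej.2
      · subst hj; rw [hs1] at hij; omega
      · exact hj.symm
  have hB := TbBx.bmt hL I E s hIn (fun i hi he => ⟨(hsI i hi he).1, by
    have := (hsI i hi he).2; omega⟩) hsinj
  set P : ℕ → Finset V := fun i => {b i} with hP
  set Q : ℕ → Finset V := fun i => if i ∈ E then {a i} else {a i, x (s i)} with hQ
  have hQm : ∀ {i : ℕ} {u : V}, u ∈ Q i → u = a i ∨ (i ∉ E ∧ u = x (s i)) := by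
    intro i u hu
    simp only [hQ] at hu
    split_ifs at hu with he
    · exact Or.inl (Finset.mem_singleton.1 hu)
    · rw [Finset.mem_insert, Finset.mem_singleton] at hu
      exact hu.imp id fun h => ⟨he, h⟩
  have haQ : ∀ i, a i ∈ Q i := by
    intro i
    simp only [hQ]
    split_ifs
    · exact Finset.mem_singleton_self _
    · exact Finset.mem_insert_self _ _
  -- the vertex v
  have hvx : ∀ i ∈ I, i ∉ E → ¬ D.Adj v (x (s i)) := by
    intro i hi he h1
    have h2 := (hsI i hi he).2
    have h3 := (hL.xb (s i) (by omega) p (by omega)).2 (by omega)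
    exact ht (b p) v (x (s i)) hvp.symm h3.symm h1
  have hv1 : ¬ D.Adj v (b (q + 1)) := hcon _ (by omega) (by omega)
  have hv2 : ¬ D.Adj v (b (q + 2)) := hcon _ (by omega) (by omega)
  have hTc' : ∀ i ∈ I, (Tc D P Q {v} i ↔ D.Adj v (b i)) := by
    intro i hi
    constructor
    · rintro (h1 | h1)
      · exact h1 v (Finset.mem_singleton_self _) (b i) (Finset.mem_singleton_self _)
      · by_cases he : i ∈ E
        · exfalso
          have h2 := h1 v (Finset.mem_singleton_self _) _ (haQ i)
          rw [hE, Finset.mem_insert, Finset.mem_singleton] at he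
          rcases he with he | he
          · subst he
            exact ht v (a i) (b i) h2 hvp (hL.im.edge (hIn i hi))
          · subst he
            exact ht v (a i) (b i) h2 hvq (hL.im.edge (hIn i hi))
        · exfalso
          refine hvx i hi he (h1 v (Finset.mem_singleton_self _) _ ?_)
          simp only [hQ, he, if_false]
          exact Finset.mem_insert_of_mem (Finset.mem_singleton_self _)
    · intro h1
      left
      intro u hu w hw
      rw [Finset.mem_singleton] at hu hw
      rw [hu, hw]
      exact h1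
  have hTcx : ∀ i ∈ I, (Tc D P Q {x q} i ↔ q ≤ i) := by
    intro i hi
    constructor
    · rintro (h1 | h1)
      · exact (hL.xb q (by omega) i (hIn i hi)).1
          (h1 _ (Finset.mem_singleton_self _) (b i) (Finset.mem_singleton_self _))
      · exact absurd (h1 _ (Finset.mem_singleton_self _) _ (haQ i))
          (hL.xa q (by omega) i (hIn i hi))
    · intro h1
      left
      intro u hu w hw
      rw [Finset.mem_singleton] at hu hw
      rw [hu, hw]
      exact (hL.xb q (by omega) i (hIn i hi)).2 h1
  have hmp : p ∈ I := (hIm p).2 (Or.inr (Or.inl rfl))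
  have hmq : q ∈ I := (hIm q).2 (Or.inr (Or.inr (Or.inl rfl)))
  have hmq1 : q + 1 ∈ I := (hIm _).2 (Or.inr (Or.inr (Or.inr (Or.inl rfl))))
  have hmq2 : q + 2 ∈ I := (hIm _).2 (Or.inr (Or.inr (Or.inr (Or.inr rfl))))
  have hxv : x q ≠ v := by
    intro he
    apply hv1
    rw [← he]
    exact (hL.xb q (by omega) (q + 1) (by omega)).2 (by omega)
  have hres := hR k V D I P Q {x q} {v} ht hno hB (Finset.singleton_nonempty _)
    (Finset.singleton_nonempty _) (Finset.disjoint_singleton.2 hxv)
    (by
      intro i hi
      refine ⟨?_, ?_⟩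
      · rw [Finset.disjoint_singleton]
        exact TbBx.xb_ne hL (by omega) (hIn i hi)
      · rw [Finset.disjoint_singleton_left]
        intro hm
        rcases hQm hm with h1 | ⟨he, h1⟩
        · exact TbBx.xa_ne hL (by omega) (hIn i hi) h1
        · have h2 := (hsI i hi he).2
          have h3 := TbBx.x_inj hL (by omega) (by omega) h1
          omega)
    (by
      intro i hi
      refine ⟨?_, ?_⟩
      · rw [Finset.disjoint_singleton]
        intro he
        rw [he] at hvp
        exact (hL.im i (hIn i hi) p (by omega)).2.2 hvp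
      · rw [Finset.disjoint_singleton_left]
        intro hm
        rcases hQm hm with h1 | ⟨he, h1⟩
        · rw [h1] at hvp hvq
          have h2 := (hL.im i (hIn i hi) p (by omega)).1.1 hvp
          have h3 := (hL.im i (hIn i hi) q (by omega)).1.1 hvq
          omega
        · have h2 := (hsI i hi he).2
          apply hv1
          rw [h1]
          exact (hL.xb (s i) (by omega) (q + 1) (by omega)).2 (by omega))
    ⟨T, fun i hi => (hIm i).2 (Or.inl hi), hTc.ge, fun r hr => by
      have h1 := hTm r hr
      have hrI : r ∈ I := (hIm r).2 (Or.inl hr)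
      refine ⟨fun h2 => ?_, fun h2 => ?_⟩
      · have := (hTcx r hrI).1 h2
        omega
      · exact h1.2.2.1 (honly r h1.1 h1.2.2.2.1 ((hTc' r hrI).1 h2))⟩
    ⟨q + 1, hmq1, q + 2, hmq2, by omega, (hTcx _ hmq1).2 (by omega), (hTcx _ hmq2).2 (by omega),
      fun h1 => hv1 ((hTc' _ hmq1).1 h1), fun h1 => hv2 ((hTc' _ hmq2).1 h1)⟩
    q hmq ((hTcx q hmq).2 le_rfl) ((hTc' q hmq).2 hvq)
  have h1 := (hTcx p hmp).1 (hres.1 p hmp ((hTc' p hmp).2 hvp))
  omega

end Pool.Agent.MPd439b2.SA
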