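import Pool.Agent.Lib.MP_d439b2_co.SA.SpecB

/-!
# MP_d439b2_co, SA: traces, the gap (helper18)
-/

set_option autoImplicit false

namespace Pool.Agent.MPd439b2.SA

open Pool.Agent.MPd439b2 Pool.Agent.MPd439b2.W

namespace TbCx

variable {V : Type} {D : SimpleGraph V} {n : ℕ} {a b x : ℕ → V}

theorem ne_xb (h : Lad D n a b x) {i j : ℕ} (hi : i < n) (hj : j < n) : x i ≠ b j := by
  intro he
  have h1 := (h.xb i hi (n - 1) (by omega)).2 (by omega)
  rw [he] at h1
  exact (h.im j hj (n - 1) (by omega)).2.2 h1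

theorem ne_xa (h : Lad D n a b x) {i j : ℕ} (hi : i + 1 < n) (hj : j < n) : x i ≠ a j := by
  intro he
  have h1 := (h.xb i (by omega) (n - 1) (by omega)).2 (by omega)
  have h2 := (h.xb i (by omega) i (by omega)).2 le_rfl
  rw [he] at h1 h2
  have h3 := (h.im j hj (n - 1) (by omega)).1.1 h1
  have h4 := (h.im j hj i (by omega)).1.1 h2
  omega

theorem ne_xx (h : Lad D n a b x) {i j : ℕ} (hi : i < n) (hj : j < n) (hij : i ≠ j) :
    x i ≠ x j := by
  intro he
  rcases Nat.lt_or_gt_of_ne hij with h1 | h1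
  · have h2 := (h.xb i hi i hi).2 le_rfl
    rw [he, h.xb j hj i hi] at h2
    omega
  · have h2 := (h.xb j hj j hj).2 le_rfl
    rw [← he, h.xb i hi j hj] at h2
    omega

open Classical in
/-- the sets `Q i` of the merge trick -/
noncomputable def Qm (a x : ℕ → V) (J : Finset ℕ) (s : ℕ → ℕ) (i : ℕ) : Finset V :=
  if i ∈ J then {a i, x (s i)} else {a i}

theorem mem_Qm {J : Finset ℕ} {s : ℕ → ℕ} {i : ℕ} {v : V} :
    v ∈ Qm a x J s i ↔ v = a i ∨ (i ∈ J ∧ v = x (s i)) := by
  classical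
  unfold Qm
  split_ifs with h
  · simp [h]
  · simp [h]

/-- the merge trick -/
theorem merge (h : Lad D n a b x) (I J : Finset ℕ) (s : ℕ → ℕ) (hI : ∀ i ∈ I, i < n)
    (hs : ∀ i ∈ J, s i ≤ i ∧ s i + 1 < n) (hinj : ∀ i ∈ J, ∀ j ∈ J, s i = s j → i = j) :
    BMt D I (fun i => {b i}) (Qm a x J s) where
  pne i _ := ⟨b i, Finset.mem_singleton_self _⟩
  qne i _ := ⟨a i, mem_Qm.2 (Or.inl rfl)⟩
  pq i hi := by
    intro u hu w hw
    rw [Finset.mem_singleton] at hu
    subst hu
    rcases mem_Qm.1 hw with rfl | ⟨hJ, rfl⟩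
    · exact (h.im.edge (hI i hi)).symm
    · exact ((h.xb _ (by have := hs i hJ; omega) i (hI i hi)).2 (hs i hJ).1).symm
  pp i hi j hj hij := by
    refine ⟨?_, fun hc => ?_⟩
    · rw [Finset.disjoint_singleton]
      exact fun he => hij (h.im.inj_b (hI i hi) (hI j hj) he)
    · exact (h.im i (hI i hi) j (hI j hj)).2.2 (hc _ (Finset.mem_singleton_self _) _
        (Finset.mem_singleton_self _))
  px i hi j hj hij := by
    refine ⟨?_, fun hc => ?_⟩
    · rw [Finset.disjoint_left]
      intro u hu hw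
      rw [Finset.mem_singleton] at hu
      subst hu
      rcases mem_Qm.1 hw with he | ⟨hJ, he⟩
      · exact h.im.ne_ab (hI j hj) (hI i hi) he.symm
      · exact ne_xb h (by have := hs j hJ; omega) (hI i hi) he.symm
    · have h1 := hc (b i) (Finset.mem_singleton_self _) (a j) (mem_Qm.2 (Or.inl rfl))
      exact hij ((h.im j (hI j hj) i (hI i hi)).1.1 h1.symm).symm
  qq i hi j hj hij := by
    refine ⟨?_, fun hc => ?_⟩
    · rw [Finset.disjoint_left]
      intro u hu hw
      rcases mem_Qm.1 hu with rfl | ⟨hJ, rfl⟩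
      · rcases mem_Qm.1 hw with he | ⟨hJ', he⟩
        · exact hij (h.im.inj_a (hI i hi) (hI j hj) he)
        · exact ne_xa h (hs j hJ').2 (hI i hi) he.symm
      · rcases mem_Qm.1 hw with he | ⟨hJ', he⟩
        · exact ne_xa h (hs i hJ).2 (hI j hj) he
        · refine ne_xx h (by have := hs i hJ; omega) (by have := hs j hJ'; omega) ?_ he
          exact fun hss => hij (hinj i hJ j hJ' hss)
    · exact (h.im i (hI i hi) j (hI j hj)).2.1 (hc (a i) (mem_Qm.2 (Or.inl rfl)) (a j)
        (mem_Qm.2 (Or.inl rfl)))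

theorem idx (T : Finset ℕ) (k : ℕ) (hT : T.card = k) : ∃ σ : ℕ → ℕ, (∀ i ∈ T, σ i < k) ∧
    ∀ i ∈ T, ∀ j ∈ T, σ i = σ j → i = j := by
  classical
  refine ⟨fun i => if h : i ∈ T then (T.equivFinOfCardEq hT ⟨i, h⟩ : ℕ) else 0,
    fun i hi => ?_, fun i hi j hj h => ?_⟩
  · show (if h : i ∈ T then (T.equivFinOfCardEq hT ⟨i, h⟩ : ℕ) else 0) < k
    rw [dif_pos hi]
    exact (T.equivFinOfCardEq hT ⟨i, hi⟩).2
  · have h' : (if h : i ∈ T then (T.equivFinOfCardEq hT ⟨i, h⟩ : ℕ) else 0) =
        (if h : j ∈ T then (T.equivFinOfCardEq hT ⟨j, h⟩ : ℕ) else 0) := h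
    rw [dif_pos hi, dif_pos hj] at h'
    have h2 := (T.equivFinOfCardEq hT).injective (Fin.ext h')
    exact congrArg Subtype.val h2

end TbCx

open TbCx

theorem pTbC (h1 : S_R) : S_TbC := by
  classical
  intro k n V D a b x hT hS hL v p q hkp hpq hkq hqn hvp hgap hfin
  -- the set `T`
  obtain ⟨T, hTs, hTc⟩ := Finset.exists_subset_card_eq
    (s := (Finset.Ico k (q - 2)).erase p) (n := k) (by
      have h2 := Finset.pred_card_le_card_erase (s := Finset.Ico k (q - 2)) (a := p)
      rw [Nat.card_Ico] at h2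
      omega)
  have hTm : ∀ i ∈ T, i ≠ p ∧ k ≤ i ∧ i < q - 2 := by
    intro i hi
    have h2 := Finset.mem_erase.1 (hTs hi)
    have h3 := Finset.mem_Ico.1 h2.2
    exact ⟨h2.1, h3.1, h3.2⟩
  obtain ⟨σ, hσ, hσi⟩ := idx T k hTc
  let s : ℕ → ℕ := fun i => if i = q - 2 then k else if i = q - 1 then k + 1 else σ i
  have s2 : s (q - 2) = k := if_pos rfl
  have s1 : s (q - 1) = k + 1 := by
    show (if q - 1 = q - 2 then k else if q - 1 = q - 1 then k + 1 else σ (q - 1)) = k + 1
    rw [if_neg (by omega), if_pos rfl]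
  have sT : ∀ i ∈ T, s i = σ i := by
    intro i hi
    have h2 := hTm i hi
    show (if i = q - 2 then k else if i = q - 1 then k + 1 else σ i) = σ i
    rw [if_neg (by omega), if_neg (by omega)]
  let J : Finset ℕ := insert (q - 2) (insert (q - 1) T)
  have hJm : ∀ i, i ∈ J ↔ i = q - 2 ∨ i = q - 1 ∨ i ∈ T := by
    intro i
    show i ∈ insert (q - 2) (insert (q - 1) T) ↔ _
    rw [Finset.mem_insert, Finset.mem_insert]
  let I : Finset ℕ := insert p (insert (n - 1) J)
  have hIm : ∀ i, i ∈ I ↔ i = p ∨ i = n - 1 ∨ i ∈ J := by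
    intro i
    show i ∈ insert p (insert (n - 1) J) ↔ _
    rw [Finset.mem_insert, Finset.mem_insert]
  have hsb : ∀ i ∈ J, s i ≤ k + 1 ∧ s i ≤ i := by
    intro i hi
    rcases (hJm i).1 hi with rfl | rfl | hi'
    · rw [s2]
      omega
    · rw [s1]
      omega
    · rw [sT i hi']
      have h2 := hTm i hi'
      have h3 := hσ i hi'
      omega
  have hsi : ∀ i ∈ J, ∀ j ∈ J, s i = s j → i = j := by
    intro i hi j hj hij
    rcases (hJm i).1 hi with rfl | rfl | hi' <;> rcases (hJm j).1 hj with rfl | rfl | hj'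
    · rfl
    · rw [s2, s1] at hij
      omega
    · rw [s2, sT j hj'] at hij
      have h3 := hσ j hj'
      omega
    · rw [s2, s1] at hij
      omega
    · rfl
    · rw [s1, sT j hj'] at hij
      have h3 := hσ j hj'
      omega
    · rw [s2, sT i hi'] at hij
      have h3 := hσ i hi'
      omega
    · rw [s1, sT i hi'] at hij
      have h3 := hσ i hi'
      omega
    · rw [sT i hi', sT j hj'] at hij
      exact hσi i hi' j hj' hij
  have hJlt : ∀ i ∈ J, k ≤ i ∧ i < q ∧ i ≠ p := by
    intro i hi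
    rcases (hJm i).1 hi with rfl | rfl | hi'
    · omega
    · omega
    · have h2 := hTm i hi'
      omega
  have hIlt : ∀ i ∈ I, i < n := by
    intro i hi
    rcases (hIm i).1 hi with rfl | rfl | hi'
    · omega
    · omega
    · have h2 := hJlt i hi'
      omega
  have hB := merge hL I J s hIlt (fun i hi => by have := hsb i hi; omega) hsi
  -- facts on v
  have hvn : D.Adj v (b (n - 1)) := hfin (n - 1) (by omega) (by omega)
  have hvJ : ∀ i ∈ J, ¬ D.Adj v (b i) := by
    intro i hi hvi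
    have h2 := hJlt i hi
    exact h2.2.2 (hgap i h2.1 h2.2.1 hvi)
  have hvx : ∀ i, i < n → ¬ D.Adj v (x i) := by
    intro i hi hvi
    exact hT v (x i) (b (n - 1)) hvi hvn ((hL.xb i hi (n - 1) (by omega)).2 (by omega))
  have hnx : ∀ i, i < n → v ≠ x i := by
    intro i hi he
    have h2 : D.Adj (x i) (b p) := he ▸ hvp
    have h3 := (hL.xb i hi p (by omega)).1 h2
    have h4 := (hL.xb i hi (q - 1) (by omega)).2 (by omega)
    rw [← he] at h4
    exact hvJ (q - 1) ((hJm _).2 (Or.inr (Or.inl rfl))) h4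
  have hnb : ∀ i, i < n → v ≠ b i := by
    intro i hi he
    exact (hL.im i hi (n - 1) (by omega)).2.2 (he ▸ hvn)
  have hna : ∀ i, i < n → v ≠ a i := by
    intro i hi he
    have h2 : D.Adj (a i) (b p) := he ▸ hvp
    have h3 : D.Adj (a i) (b (n - 1)) := he ▸ hvn
    have h4 := (hL.im i hi p (by omega)).1.1 h2
    have h5 := (hL.im i hi (n - 1) (by omega)).1.1 h3
    omega
  -- touching
  have tC : ∀ i, i < n → (Tc D (fun i => {b i}) (Qm a x J s) {x (q - 2)} i ↔ q - 2 ≤ i) := by
    intro i hi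
    constructor
    · rintro (h2 | h2)
      · exact (hL.xb (q - 2) (by omega) i hi).1 (h2 _ (Finset.mem_singleton_self _) _
          (Finset.mem_singleton_self _))
      · exact absurd (h2 _ (Finset.mem_singleton_self _) (a i) (mem_Qm.2 (Or.inl rfl)))
          (hL.xa (q - 2) (by omega) i hi)
    · intro h2
      left
      intro u hu w hw
      rw [Finset.mem_singleton] at hu hw
      subst hu hw
      exact (hL.xb (q - 2) (by omega) i hi).2 h2
  have tv : ∀ i, D.Adj v (b i) → Tc D (fun i => {b i}) (Qm a x J s) {v} i := by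
    intro i hvi
    left
    intro u hu w hw
    rw [Finset.mem_singleton] at hu hw
    subst hu hw
    exact hvi
  have tJ : ∀ i ∈ J, ¬ Tc D (fun i => {b i}) (Qm a x J s) {v} i := by
    intro i hi
    rintro (h2 | h2)
    · exact hvJ i hi (h2 _ (Finset.mem_singleton_self _) _ (Finset.mem_singleton_self _))
    · refine hvx (s i) ?_ (h2 _ (Finset.mem_singleton_self _) (x (s i))
        (mem_Qm.2 (Or.inr ⟨hi, rfl⟩)))
      have := hsb i hi
      omega
  have hpI : p ∈ I := (hIm p).2 (Or.inl rfl)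
  have hnI : n - 1 ∈ I := (hIm _).2 (Or.inr (Or.inl rfl))
  have hJI : ∀ i ∈ J, i ∈ I := fun i hi => (hIm i).2 (Or.inr (Or.inr hi))
  have h2J : q - 2 ∈ J := (hJm _).2 (Or.inl rfl)
  have h1J : q - 1 ∈ J := (hJm _).2 (Or.inr (Or.inl rfl))
  have hTJ : ∀ i ∈ T, i ∈ J := fun i hi => (hJm i).2 (Or.inr (Or.inr hi))
  have key := h1 k V D I (fun i => {b i}) (Qm a x J s) {x (q - 2)} {v} hT hS hB
    ⟨_, Finset.mem_singleton_self _⟩ ⟨_, Finset.mem_singleton_self _⟩
    (by
      rw [Finset.disjoint_singleton]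
      exact (hnx (q - 2) (by omega)).symm)
    (by
      intro i hi
      have hin := hIlt i hi
      constructor
      · rw [Finset.disjoint_singleton]
        exact ne_xb hL (by omega) hin
      · rw [Finset.disjoint_singleton_left, mem_Qm]
        rintro (he | ⟨hJ, he⟩)
        · exact ne_xa hL (by omega) hin he
        · have := hsb i hJ
          exact ne_xx hL (by omega) (by omega) (by omega) he)
    (by
      intro i hi
      have hin := hIlt i hi
      constructor
      · rw [Finset.disjoint_singleton]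
        exact hnb i hin
      · rw [Finset.disjoint_singleton_left, mem_Qm]
        rintro (he | ⟨hJ, he⟩)
        · exact hna i hin he
        · have := hsb i hJ
          exact hnx (s i) (by omega) he)
    ⟨T, fun i hi => hJI i (hTJ i hi), hTc.ge, fun r hr => ⟨fun h2 => by
      have h3 := hTm r hr
      have h4 := (tC r (by omega)).1 h2
      omega, tJ r (hTJ r hr)⟩⟩
    ⟨q - 2, hJI _ h2J, q - 1, hJI _ h1J, by omega, (tC _ (by omega)).2 le_rfl,
      (tC _ (by omega)).2 (by omega), tJ _ h2J, tJ _ h1J⟩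
    (n - 1) hnI ((tC _ (by omega)).2 (by omega)) (tv _ hvn)
  have h2 := (tC p (by omega)).1 (key.1 p hpI (tv p hvp))
  omega

end Pool.Agent.MPd439b2.SA
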