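import Pool.Agent.Lib.MP_d439b2_co.SA.SpecB

/-!
# MP_d439b2_co, SA, B8: the `a`-traces over a ladder (helper70)
-/

set_option autoImplicit false

namespace Pool.Agent.MPd439b2.SA

open Pool.Agent.MPd439b2 Pool.Agent.MPd439b2.W

namespace TraAx

variable {V : Type} {D : SimpleGraph V} {k n : ℕ} {a b x : ℕ → V}

theorem mem_x (hL : Lad D n a b x) {i : ℕ} (hi : i < n) {j : ℕ} :
    j ∈ Jt D n a b (x i) ↔ j < n ∧ i ≤ j := by
  rw [mem_Jt]
  constructor
  · rintro ⟨h1, h2 | h2⟩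
    · exact absurd h2 (hL.xa i hi j h1)
    · exact ⟨h1, (hL.xb i hi j h1).1 h2⟩
  · rintro ⟨h1, h2⟩
    exact ⟨h1, Or.inr ((hL.xb i hi j h1).2 h2)⟩

theorem mem_v {v : V} (hv : ∀ j < n, ¬ D.Adj v (b j)) {j : ℕ} :
    j ∈ Jt D n a b v ↔ j < n ∧ D.Adj v (a j) := by
  rw [mem_Jt]
  constructor
  · rintro ⟨h1, h2 | h2⟩
    · exact ⟨h1, h2⟩
    · exact absurd h2 (hv j h1)
  · rintro ⟨h1, h2⟩
    exact ⟨h1, Or.inl h2⟩

theorem ne_x (hL : Lad D n a b x) {v : V} (hv : ∀ j < n, ¬ D.Adj v (b j)) {i : ℕ} (hi : i < n) :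
    x i ≠ v := by
  intro h
  apply hv i hi
  rw [← h]
  exact (hL.xb i hi i hi).2 (le_refl i)

theorem r1 (hRV : S_RV) (ht : TriFree D) (hk : NoSpi k D) (hL : Lad D n a b x) {v : V}
    (hv : ∀ j < n, ¬ D.Adj v (b j)) {i : ℕ} (hi : i < n)
    (hZ : ∃ Z : Finset ℕ, k ≤ Z.card ∧ ∀ z ∈ Z, z < i ∧ ¬ D.Adj v (a z)) {z z' l : ℕ}
    (hne : z ≠ z') (h1 : i ≤ z) (h2 : z < n) (h3 : i ≤ z') (h4 : z' < n)
    (h5 : ¬ D.Adj v (a z)) (h6 : ¬ D.Adj v (a z')) (h7 : i ≤ l) (h8 : l < n)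
    (h9 : D.Adj v (a l)) : ∀ m < n, D.Adj v (a m) → i ≤ m := by
  obtain ⟨Z, hZc, hZ⟩ := hZ
  intro m hm hmv
  have hR : ∃ R ⊆ Finset.range n, k ≤ R.card ∧
      ∀ r ∈ R, r ∉ Jt D n a b (x i) ∧ r ∉ Jt D n a b v := by
    refine ⟨Z, fun r hr => Finset.mem_range.2 ((hZ r hr).1.trans hi), hZc, fun r hr => ⟨?_, ?_⟩⟩
    · intro h
      have := ((mem_x hL hi).1 h).2
      have := (hZ r hr).1
      omega
    · intro h
      exact (hZ r hr).2 ((mem_v hv).1 h).2
  have hD : ∃ i' ∈ Finset.range n, ∃ j' ∈ Finset.range n, i' ≠ j' ∧ i' ∈ Jt D n a b (x i) ∧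
      j' ∈ Jt D n a b (x i) ∧ i' ∉ Jt D n a b v ∧ j' ∉ Jt D n a b v :=
    ⟨z, Finset.mem_range.2 h2, z', Finset.mem_range.2 h4, hne, (mem_x hL hi).2 ⟨h2, h1⟩,
      (mem_x hL hi).2 ⟨h4, h3⟩, fun h => h5 ((mem_v hv).1 h).2, fun h => h6 ((mem_v hv).1 h).2⟩
  have key := hRV k n V D a b (Finset.range n) (x i) v ht hk hL.im (Finset.Subset.refl _)
    (ne_x hL hv hi) hR hD l (Finset.mem_range.2 h8) ((mem_x hL hi).2 ⟨h8, h7⟩)
    ((mem_v hv).2 ⟨h8, h9⟩)
  exact ((mem_x hL hi).1 (key.1 m (Finset.mem_range.2 hm) ((mem_v hv).2 ⟨hm, hmv⟩))).2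

theorem r2 (hRV : S_RV) (ht : TriFree D) (hk : NoSpi k D) (hL : Lad D n a b x) {v : V}
    (hv : ∀ j < n, ¬ D.Adj v (b j)) {i : ℕ} (hi : i < n)
    (hZ : ∃ Z : Finset ℕ, k ≤ Z.card ∧ ∀ z ∈ Z, z < i ∧ ¬ D.Adj v (a z)) {p q l : ℕ}
    (hpq : p ≠ q) (h1 : p < i) (h2 : q < i) (h3 : D.Adj v (a p)) (h4 : D.Adj v (a q))
    (h7 : i ≤ l) (h8 : l < n) (h9 : D.Adj v (a l)) : ∀ m < n, i ≤ m → D.Adj v (a m) := by
  obtain ⟨Z, hZc, hZ⟩ := hZ
  intro m hm him
  have hR : ∃ R ⊆ Finset.range n, k ≤ R.card ∧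
      ∀ r ∈ R, r ∉ Jt D n a b v ∧ r ∉ Jt D n a b (x i) := by
    refine ⟨Z, fun r hr => Finset.mem_range.2 ((hZ r hr).1.trans hi), hZc, fun r hr => ⟨?_, ?_⟩⟩
    · intro h
      exact (hZ r hr).2 ((mem_v hv).1 h).2
    · intro h
      have := ((mem_x hL hi).1 h).2
      have := (hZ r hr).1
      omega
  have hx : ∀ {j : ℕ}, j < i → j ∉ Jt D n a b (x i) := by
    intro j hj h
    have := ((mem_x hL hi).1 h).2
    omega
  have hD : ∃ i' ∈ Finset.range n, ∃ j' ∈ Finset.range n, i' ≠ j' ∧ i' ∈ Jt D n a b v ∧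
      j' ∈ Jt D n a b v ∧ i' ∉ Jt D n a b (x i) ∧ j' ∉ Jt D n a b (x i) :=
    ⟨p, Finset.mem_range.2 (h1.trans hi), q, Finset.mem_range.2 (h2.trans hi), hpq,
      (mem_v hv).2 ⟨h1.trans hi, h3⟩, (mem_v hv).2 ⟨h2.trans hi, h4⟩, hx h1, hx h2⟩
  have key := hRV k n V D a b (Finset.range n) v (x i) ht hk hL.im (Finset.Subset.refl _)
    (ne_x hL hv hi).symm hR hD l (Finset.mem_range.2 h8) ((mem_v hv).2 ⟨h8, h9⟩)
    ((mem_x hL hi).2 ⟨h8, h7⟩)
  exact ((mem_v hv).1 (key.1 m (Finset.mem_range.2 hm) ((mem_x hL hi).2 ⟨hm, him⟩))).2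

end TraAx

open TraAx

theorem pTraA (h1 : S_RV) : S_TraA := by
  classical
  intro k n V D a b x ht hk hL v hv
  -- the non-neighbours below `i`
  obtain ⟨Zf, hZf⟩ : ∃ Zf : ℕ → Finset ℕ, Zf = fun i =>
    (Finset.range i).filter fun j => ¬ D.Adj v (a j) := ⟨_, rfl⟩
  have hmem : ∀ i j, j ∈ Zf i ↔ j < i ∧ ¬ D.Adj v (a j) := by
    intro i j
    rw [hZf]
    simp only [Finset.mem_filter, Finset.mem_range]
  have hZc : ∀ i, k ≤ (Zf i).card → ∃ Z : Finset ℕ, k ≤ Z.card ∧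
      ∀ z ∈ Z, z < i ∧ ¬ D.Adj v (a z) := fun i hi => ⟨Zf i, hi, fun z hz => (hmem i z).1 hz⟩
  by_cases hsm : (Zf n).card ≤ k
  · refine Or.inr (Or.inr (Or.inr (Or.inl fun Z hZ => ?_)))
    exact (Finset.card_le_card fun z hz => (hmem n z).2 (hZ z hz)).trans hsm
  push Not at hsm
  by_cases hfst : ∀ i j, k + 3 ≤ i → i + 3 < n → k + 3 ≤ j → j + 3 < n → D.Adj v (a i) →
      D.Adj v (a j) → i = j
  · exact Or.inl hfst
  -- the index `i₀`
  have hex : ∃ i, k ≤ (Zf i).card := ⟨n, hsm.le⟩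
  obtain ⟨i₀, hi₀, hmin⟩ : ∃ i₀, k ≤ (Zf i₀).card ∧ ∀ i < i₀, ¬ k ≤ (Zf i).card :=
    ⟨Nat.find hex, Nat.find_spec hex, fun i hi => Nat.find_min hex hi⟩
  have hmono : ∀ i j, i ≤ j → Zf i ⊆ Zf j := by
    intro i j hij z hz
    rw [hmem] at hz ⊢
    exact ⟨by omega, hz.2⟩
  have hi₀n : i₀ ≤ n := by
    by_contra hlt
    exact hmin n (by omega) hsm.le
  have hi₀k : (Zf i₀).card ≤ k := by
    rcases Nat.eq_zero_or_pos i₀ with h0 | h0
    · have : Zf i₀ = ∅ := by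
        ext z
        rw [hmem, h0]
        simp
      rw [this]
      simp
    · have h2 := hmin (i₀ - 1) (by omega)
      have h3 : Zf i₀ ⊆ insert (i₀ - 1) (Zf (i₀ - 1)) := by
        intro z hz
        rw [Finset.mem_insert, hmem]
        rw [hmem] at hz
        by_cases hz1 : z = i₀ - 1
        · exact Or.inl hz1
        · exact Or.inr ⟨by omega, hz.2⟩
      have h4 := Finset.card_le_card h3
      have h5 := Finset.card_insert_le (i₀ - 1) (Zf (i₀ - 1))
      omega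
  obtain ⟨z₀, hz₀, hz₀n, hz₀v⟩ : ∃ z, i₀ ≤ z ∧ z < n ∧ ¬ D.Adj v (a z) := by
    by_contra hcon
    push Not at hcon
    have : Zf n ⊆ Zf i₀ := by
      intro z hz
      rw [hmem] at hz ⊢
      refine ⟨?_, hz.2⟩
      by_contra hle
      exact hz.2 (hcon z (by omega) hz.1)
    have := Finset.card_le_card this
    omega
  -- the two smallest neighbours
  push Not at hfst
  obtain ⟨i, j, hik, hin, hjk, hjn, hi, hj, hij⟩ := hfst
  have hexp : ∃ p, p < n ∧ D.Adj v (a p) := ⟨i, by omega, hi⟩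
  obtain ⟨p, ⟨hpn, hp⟩, hpm⟩ : ∃ p, (p < n ∧ D.Adj v (a p)) ∧
      ∀ m < p, ¬ (m < n ∧ D.Adj v (a m)) :=
    ⟨Nat.find hexp, Nat.find_spec hexp, fun m hm => Nat.find_min hexp hm⟩
  have hexq : ∃ q, p < q ∧ q < n ∧ D.Adj v (a q) := by
    by_cases hpi : p < i
    · exact ⟨i, hpi, by omega, hi⟩
    · refine ⟨j, ?_, by omega, hj⟩
      by_contra hpj
      have h2 := hpm i
      have h3 := hpm j
      have h4 : ¬ i < p := fun h => h2 h ⟨by omega, hi⟩
      have h5 : ¬ j < p := fun h => h3 h ⟨by omega, hj⟩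
      omega
  obtain ⟨q, ⟨hpq, hqn, hq⟩, hqm⟩ : ∃ q, (p < q ∧ q < n ∧ D.Adj v (a q)) ∧
      ∀ m < q, ¬ (p < m ∧ m < n ∧ D.Adj v (a m)) :=
    ⟨Nat.find hexq, Nat.find_spec hexq, fun m hm => Nat.find_min hexq hm⟩
  have hlow : ∀ m < q, D.Adj v (a m) → m = p := by
    intro m hm hmv
    by_contra hmp
    rcases Nat.lt_or_ge m p with h | h
    · exact hpm m h ⟨by omega, hmv⟩
    · exact hqm m hm ⟨by omega, by omega, hmv⟩
  -- many non-neighbours below `q`
  have hcnt : ∀ c ≤ q, c ≤ (Zf c).card + 1 := by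
    intro c hc
    have h2 : Finset.range c ⊆ insert p (Zf c) := by
      intro z hz
      rw [Finset.mem_range] at hz
      rw [Finset.mem_insert, hmem]
      by_cases hzp : z = p
      · exact Or.inl hzp
      · exact Or.inr ⟨hz, fun h => hzp (hlow z (by omega) h)⟩
    have h3 := Finset.card_le_card h2
    rw [Finset.card_range] at h3
    exact h3.trans (Finset.card_insert_le _ _)
  by_cases hα : ∃ l, q + 1 ≤ l ∧ i₀ ≤ l ∧ l < n ∧ D.Adj v (a l)
  · obtain ⟨l, hl1, hl2, hln, hl⟩ := hα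
    obtain ⟨i₁, hi₁⟩ : ∃ i₁, i₁ = max (q + 1) i₀ := ⟨_, rfl⟩
    have h3 : q + 1 ≤ i₁ := hi₁ ▸ le_max_left _ _
    have h4 : i₀ ≤ i₁ := hi₁ ▸ le_max_right _ _
    have h5 : i₁ ≤ l := by
      rw [hi₁]
      exact max_le hl1 hl2
    have hall := r2 h1 ht hk hL hv (i := i₁) (by omega)
      (hZc i₁ (hi₀.trans (Finset.card_le_card (hmono _ _ h4)))) (p := p) (q := q) (l := l)
      (by omega) (by omega) (by omega) hp hq h5 hln hl
    have h6 : i₁ = q + 1 := by
      by_contra hne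
      have h7 : i₁ = i₀ := by
        rcases le_total (q + 1) i₀ with h | h
        · rw [hi₁, max_eq_right h]
        · exact absurd (by rw [hi₁, max_eq_left h]) hne
      exact hz₀v (hall z₀ hz₀n (by omega))
    -- the trace is `p` and everything from `q`
    have htr : ∀ m < n, (D.Adj v (a m) ↔ m = p ∨ q ≤ m) := by
      intro m hm
      constructor
      · intro hmv
        rcases Nat.lt_or_ge m q with h | h
        · exact Or.inl (hlow m h hmv)
        · exact Or.inr h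
      · rintro (h | h)
        · rw [h]
          exact hp
        · rcases Nat.lt_or_ge m i₁ with h' | h'
          · have : m = q := by omega
            rw [this]
            exact hq
          · exact hall m hm h'
    by_cases hq3 : q ≤ k + 3
    · refine Or.inr (Or.inl ⟨0, fun m hm1 hm2 => ?_⟩)
      rw [htr m hm2]
      exact ⟨fun _ => Nat.zero_le _, fun _ => Or.inr (by omega)⟩
    by_cases hqp : q = p + 1
    · refine Or.inr (Or.inl ⟨p, fun m hm1 hm2 => ?_⟩)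
      rw [htr m hm2]
      omega
    by_cases hqp2 : q = p + 2
    · refine Or.inr (Or.inr (Or.inl ⟨p, fun m hm1 hm2 => ?_⟩))
      rw [htr m hm2]
      omega
    exfalso
    have h8 := hcnt (q - 2) (by omega)
    have h9 := r1 h1 ht hk hL hv (i := q - 2) (by omega) (hZc (q - 2) (by omega))
      (z := q - 2) (z' := q - 1) (l := q) (by omega) (le_refl _) (by omega) (by omega) (by omega)
      (fun h => by
        have := hlow _ (by omega) h
        omega)
      (fun h => by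
        have := hlow _ (by omega) h
        omega) (by omega) hqn hq p hpn hp
    omega
  · push Not at hα
    rcases Nat.lt_or_ge q i₀ with hqi | hqi
    · refine Or.inr (Or.inr (Or.inr (Or.inr ⟨i₀, hi₀n, fun m h2 h3 => ?_, fun Z hZ => ?_⟩)))
      · exact hα m (by omega) h2 h3
      · exact (Finset.card_le_card fun z hz => (hmem i₀ z).2 (hZ z hz)).trans hi₀k
    · exfalso
      have hS : ∀ m < n, D.Adj v (a m) → m = p ∨ m = q := by
        intro m hm hmv
        rcases Nat.lt_trichotomy m q with h | h | h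
        · exact Or.inl (hlow m h hmv)
        · exact Or.inr h
        · exact absurd hmv (hα m (by omega) (by omega) hm)
      have hi' := hS i (by omega) hi
      have hj' := hS j (by omega) hj
      have h8 := hcnt q (le_refl q)
      have hpk : k + 3 ≤ p := by omega
      have hq3 : q + 3 < n := by omega
      have h9 := r1 h1 ht hk hL hv (i := q) (by omega) (hZc q (by omega))
        (z := q + 1) (z' := q + 2) (l := q) (by omega) (by omega) (by omega) (by omega)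
        (by omega)
        (fun h => by
          have := hS _ (by omega) h
          omega)
        (fun h => by
          have := hS _ (by omega) h
          omega) (le_refl q) hqn hq p hpn hp
      omega

end Pool.Agent.MPd439b2.SA
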