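import Pool.Agent.Lib.MP_d439b2_co.SA.Fr0
import Pool.Agent.Lib.MP_d439b2_co.SA.Ex
import Pool.Agent.Lib.MP_d439b2_co.SA.Tb
import Pool.Agent.Lib.MP_d439b2_co.SA.TbA
import Pool.Agent.Lib.MP_d439b2_co.SA.TbB
import Pool.Agent.Lib.MP_d439b2_co.SA.TbC
import Pool.Agent.Lib.MP_d439b2_co.SA.TraA
import Pool.Agent.Lib.MP_d439b2_co.SA.Sub0
import Pool.Agent.Lib.MP_d439b2_co.SA.Dich
import Pool.Agent.Lib.MP_d439b2_co.SA.Cln
import Pool.Agent.Lib.MP_d439b2_co.SA.Lgt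
import Pool.Agent.Lib.MP_d439b2_co.SA.ChL
import Pool.Agent.Lib.MP_d439b2_co.SA.Chn
import Pool.Agent.Lib.MP_d439b2_co.SA.Sgn
import Pool.Agent.Lib.MP_d439b2_co.SA.T1
import Pool.Agent.Lib.MP_d439b2_co.SA.T2MM
import Pool.Agent.Lib.MP_d439b2_co.SA.T2MH
import Pool.Agent.Lib.MP_d439b2_co.SA.Rk0
import Pool.Agent.Lib.MP_d439b2_co.SA.CoMs
import Pool.Agent.Lib.MP_d439b2_co.SA.RV
import Pool.Agent.Lib.MP_d439b2_co.SA.R
import Pool.Agent.Lib.MP_d439b2_co.SA.L3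
import Pool.Agent.Lib.MP_d439b2_co.SA.Link

/-!
# MP_d439b2_co, SA: the statements of Spec A and Spec B without hypotheses (helper13)
-/

set_option autoImplicit false

namespace Pool.Agent.MPd439b2.SA

open Pool.Agent.MPd439b2 Pool.Agent.MPd439b2.W

theorem okL3 : S_L3 := pL3

theorem okR : S_R := pR okL3

theorem okRV : S_RV := pRV okR

theorem okLink : S_Link := pLink

theorem okCoMs : S_CoMs := hCoMs

theorem okT1 : S_T1 := pT1

theorem okRk0 : S_Rk0 := pRk0 okCoMs pT2MM pT2MH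

theorem okSgn : S_Sgn := pSgn okT1

theorem okChL : S_ChL := pChL okRV okSgn okCoMs okT1

theorem okCln : S_Cln := pCln okSgn okCoMs okT1

theorem okDich : S_Dich := pDich okRV pChn okChL pLgt okCln

theorem okTb : S_Tb := pTb (pTbA okR) (pTbB okR) (pTbC okR)

theorem okFr0 : S_Fr0 := pFr0 okTb (hEx okR okTb)

theorem okTraA : S_TraA := pTraA okRV

end Pool.Agent.MPd439b2.SA
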