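import Pool.Agent.Lib.MP_d439b2_co.SA.SpecC
import Pool.Agent.Lib.MP_d439b2_co.W.SpecM

/-!
# MP_d439b2_co, SA, C13: boundedly many bad places for mediums
-/

set_option autoImplicit false

namespace Pool.Agent.MPd439b2.SA

open Pool.Agent.MPd439b2 Pool.Agent.MPd439b2.W

namespace BdXAux

/-- enumeration of a finite set of numbers -/
theorem enum (J : Finset ℕ) : ∃ σ : ℕ → ℕ, (∀ t < J.card, σ t ∈ J) ∧
    ∀ t < J.card, ∀ u < J.card, σ t = σ u → t = u := by
  refine ⟨fun t => if h : t < J.card then J.orderEmbOfFin rfl ⟨t, h⟩ else 0, ?_, ?_⟩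
  · intro t ht
    dsimp only
    rw [dif_pos ht]
    exact Finset.orderEmbOfFin_mem J rfl _
  · intro t ht u hu h
    dsimp only at h
    rw [dif_pos ht, dif_pos hu] at h
    have h1 := (J.orderEmbOfFin rfl).injective h
    exact congrArg Fin.val h1

variable {V : Type} {D : SimpleGraph V} {n : ℕ} {b : ℕ → V} {v : V} {q : ℕ}

theorem self (h : Ps D n b v q) (hq : q < n) : D.Adj v (b q) := by
  rcases h with h | h
  · exact (h q hq).mpr le_rfl
  · exact (h q hq).mpr (Or.inl rfl)

theorem lower (h : Ps D n b v q) {j : ℕ} (hj : j < q) (hn : j < n) : ¬ D.Adj v (b j) := by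
  intro h1
  rcases h with h | h
  · have := (h j hn).mp h1
    omega
  · have := (h j hn).mp h1
    omega

theorem upper (h : Ps D n b v q) {j : ℕ} (hj : q + 2 ≤ j) (hn : j < n) : D.Adj v (b j) := by
  rcases h with h | h
  · exact (h j hn).mpr (by omega)
  · exact (h j hn).mpr (Or.inr hj)

theorem uniq (h : Ps D n b v q) {q' : ℕ} (h' : Ps D n b v q') (hq : q < n) (hq' : q' < n) :
    q = q' := by
  rcases lt_trichotomy q q' with h1 | h1 | h1
  · exact absurd (self h hq) (lower h' h1 hq)
  · exact h1
  · exact absurd (self h' hq') (lower h h1 hq')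

end BdXAux

open BdXAux

theorem hBdX (hGX : S_GX) (hInd : W.S_Ind) : S_BdX := by
  classical
  intro k m₀ n lo' hi V D a b x hT hN hC hF hhi hlo
  have hne : Nonempty V := ⟨a 0⟩
  set Bd : Finset ℕ := (Finset.range hi).filter fun i => lo' ≤ i ∧
    ∃ g ∈ BFs D n a, ∃ y, Ps D n b y i ∧ ¬ D.Adj g y with hBd
  have hex : ∀ i ∈ Bd, ∃ g y, g ∈ BFs D n a ∧ Ps D n b y i ∧ ¬ D.Adj g y := by
    intro i hi'
    rw [hBd, Finset.mem_filter] at hi'
    obtain ⟨-, -, g, hg, y, hy, h⟩ := hi'
    exact ⟨g, y, hg, hy, h⟩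
  choose! G Y hGY using hex
  refine ⟨Bd, ?_, ?_⟩
  · have h1 := hInd V D m₀ (2 * k + 4) Bd G Y hC (fun i hi' => (hGY i hi').2.2) ?_
    · calc Bd.card ≤ (2 * (2 * k + 4) + 1) * m₀ := h1
        _ = (4 * k + 9) * m₀ := by ring
    · intro i₀ hi₀ J hJ hJg
      set g : V := G i₀ with hg
      have hgB : g ∈ BFs D n a := (hGY i₀ hi₀).1
      rcases J.eq_empty_or_nonempty with h0 | h0
      · rw [h0, Finset.card_empty]
        exact Nat.zero_le _
      set m : ℕ := J.max' h0 with hm
      have hmJ : m ∈ J := J.max'_mem h0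
      have hJ1 : ∀ j ∈ J, lo' ≤ j ∧ j < hi := by
        intro j hj
        have h2 := hJ hj
        rw [hBd, Finset.mem_filter, Finset.mem_range] at h2
        exact ⟨h2.2.1, h2.1⟩
      have hJm : ∀ j ∈ J, j ≤ m := fun j hj => J.le_max' j hj
      have hPs : ∀ j ∈ J, Ps D n b (Y j) j := fun j hj => (hGY j (hJ hj)).2.1
      have hm1 := hJ1 m hmJ
      have hcard : (J.filter fun j => j + k + 2 ≤ m).card ≤ k + 1 := by
        by_contra hcon
        obtain ⟨J', hJ', hJc⟩ := Finset.exists_subset_card_eq
          (show k + 2 ≤ (J.filter fun j => j + k + 2 ≤ m).card by omega)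
        obtain ⟨σ, hσ, hσi⟩ := enum J'
        rw [hJc] at hσ hσi
        have hσJ : ∀ t < k + 2, σ t ∈ J ∧ σ t + k + 2 ≤ m := by
          intro t ht
          have h2 := hJ' (hσ t ht)
          rw [Finset.mem_filter] at h2
          exact h2
        refine hGX k n V D a b x hT hN hF g (Y m) (fun t => Y (σ t)) (m - k) hgB (by omega)
          ?_ ?_ (hJg m hmJ) ?_ ?_
        · intro t ht
          obtain ⟨h2, h3⟩ := hσJ t ht
          have h4 := hJ1 _ h2
          refine ⟨hJg _ h2, ?_, ?_⟩
          · intro h5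
            have h5' : Y (σ t) = Y m := h5
            have h6 := hPs _ h2
            rw [h5'] at h6
            have h7 := uniq h6 (hPs m hmJ) (by omega) (by omega)
            omega
          · intro j hj hjn
            exact upper (hPs _ h2) (by omega) hjn
        · intro t ht u hu h2
          have h2' : Y (σ t) = Y (σ u) := h2
          have h3 := hσJ t ht
          have h4 := hσJ u hu
          have h5 := hJ1 _ h3.1
          have h6 := hJ1 _ h4.1
          have h7 := hPs _ h3.1
          rw [h2'] at h7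
          exact hσi t ht u hu (uniq h7 (hPs _ h4.1) (by omega) (by omega))
        · intro j hj
          exact lower (hPs m hmJ) (by omega) (by omega)
        · exact ⟨upper (hPs m hmJ) (by omega) (by omega), upper (hPs m hmJ) (by omega) (by omega),
            upper (hPs m hmJ) (by omega) (by omega)⟩
      have hrest : (J.filter fun j => ¬ j + k + 2 ≤ m).card ≤ k + 2 := by
        have h2 : (J.filter fun j => ¬ j + k + 2 ≤ m) ⊆ Finset.Ioc (m - (k + 2)) m := by
          intro j hj
          rw [Finset.mem_filter] at hj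
          rw [Finset.mem_Ioc]
          have := hJm j hj.1
          omega
        have h3 := Finset.card_le_card h2
        rw [Nat.card_Ioc] at h3
        omega
      have h2 := Finset.card_filter_add_card_filter_not (s := J) (fun j => j + k + 2 ≤ m)
      omega
  · intro i h1 h2 h3 y hy g hg
    by_contra h4
    apply h3
    rw [hBd, Finset.mem_filter, Finset.mem_range]
    exact ⟨h2, h1, g, hg, y, hy, h4⟩

end Pool.Agent.MPd439b2.SA
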