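import Pool.Agent.Lib.MP_d439b2_co.SA.SpecC

/-!
# MP_d439b2_co, SA, C6: lists of components
-/

set_option autoImplicit false

namespace Pool.Agent.MPd439b2.SA

open Pool.Agent.MPd439b2 Pool.Agent.MPd439b2.W

namespace CKx

variable {V : Type} {D : SimpleGraph V} {U X K K' : Set V}

/-- the vertices of `K` seen by `X` -/
def kb (D : SimpleGraph V) (X K : Set V) : Set V := {v | v ∈ K ∧ ∃ x ∈ X, D.Adj x v}

theorem comp_mem (h : MPd439b2.IsComp D U K) {v w : V} (hv : v ∈ K) (hw : w ∈ U)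
    (hvw : D.Adj v w) : w ∈ K := by
  by_contra hn
  exact h.2.2 w hw ⟨hn, v, hv, hvw⟩

theorem comp_w (h : MPd439b2.IsComp D U K) : W.IsComp D U K :=
  ⟨h.2.1, h.1, fun _ hv _ hw hvw => comp_mem h hv hw hvw⟩

theorem comp_eq (h : MPd439b2.IsComp D U K) (h' : MPd439b2.IsComp D U K') {v : V} (hv : v ∈ K)
    (hv' : v ∈ K') : K = K' :=
  W.IsComp.eq (comp_w h) (comp_w h') hv hv'

/-- the relevant components -/
def Rel (D : SimpleGraph V) (U X K : Set V) : Prop :=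
  MPd439b2.IsComp D U K ∧ ∃ x ∈ X, ∃ z ∈ K, D.Adj x z ∧ ∃ z' ∈ U, D.Adj z z'

variable (clo : ∀ x ∈ X, ∀ w ∈ U, ∀ u ∈ U, ∀ w' ∈ U, D.Adj x w → D.Adj w u → D.Adj u w' → D.Adj x w')
  (side : ∀ x ∈ X, ∀ x' ∈ X, ∀ w ∈ U, ∀ u ∈ U, D.Adj w u → D.Adj x w → ¬ D.Adj x' u)

include side in
theorem step1 (hK : MPd439b2.IsComp D U K) {w u : V} (hw : w ∈ kb D X K) (hu : u ∈ U)
    (hwu : D.Adj w u) : u ∈ K \ kb D X K := by
  obtain ⟨hwK, x, hx, hxw⟩ := hw
  refine ⟨comp_mem hK hwK hu hwu, fun h => ?_⟩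
  obtain ⟨_, x', hx', hxu⟩ := h
  exact side x hx x' hx' w (hK.1 hwK) u hu hwu hxw hxu

include clo in
theorem all (hK : MPd439b2.IsComp D U K) {x : V} (hx : x ∈ X) {z : V} (hz : z ∈ K)
    (hxz : D.Adj x z) :
    ∀ u ∈ K, (D.Adj x u ∧ u ∈ kb D X K) ∨ ∃ w ∈ kb D X K, D.Adj x w ∧ D.Adj u w := by
  have h1 : {u | u ∈ K ∧ ((D.Adj x u ∧ u ∈ kb D X K) ∨
      ∃ w ∈ kb D X K, D.Adj x w ∧ D.Adj u w)} = K := by
    refine hK.2.1.eq_of_nb (fun u hu => hu.1) ⟨z, hz, Or.inl ⟨hxz, hz, x, hx, hxz⟩⟩ ?_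
    rintro v hv ⟨hvn, c, ⟨hcK, hc⟩, hcv⟩
    apply hvn
    refine ⟨hv, ?_⟩
    rcases hc with ⟨h1, h2⟩ | ⟨w, hw, hxw, hcw⟩
    · exact Or.inr ⟨c, h2, h1, hcv.symm⟩
    · have h3 := clo x hx w (hK.1 hw.1) c (hK.1 hcK) v (hK.1 hv) hxw hcw.symm hcv
      exact Or.inl ⟨h3, hv, x, hx, h3⟩
  intro u hu
  rw [← h1] at hu
  exact hu.2

include clo side

theorem xb (hK : MPd439b2.IsComp D U K) {x : V} (hx : x ∈ X) :
    (∀ v ∈ kb D X K, D.Adj x v) ∨ ∀ v ∈ kb D X K, ¬ D.Adj x v := by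
  by_cases h : ∃ v ∈ kb D X K, D.Adj x v
  · left
    obtain ⟨z, hz, hxz⟩ := h
    intro v hv
    rcases all clo hK hx hz.1 hxz v hv.1 with h1 | ⟨w, hw, _, hvw⟩
    · exact h1.1
    · exact absurd hw (step1 side hK hv (hK.1 hw.1) hvw).2
  · right
    push Not at h
    exact h

theorem nbA (hK : Rel D U X K) {u : V} (hu : u ∈ K \ kb D X K) :
    (∃ w ∈ kb D X K, D.Adj u w) ∧ ∀ w ∈ U, D.Adj u w → w ∈ kb D X K := by
  obtain ⟨hK, x, hx, z, hz, hxz, z', hz', hzz'⟩ := hK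
  rcases all clo hK hx hz hxz u hu.1 with h1 | ⟨w, hw, hxw, huw⟩
  · exact absurd h1.2 hu.2
  · refine ⟨⟨w, hw, huw⟩, fun w' hw' huw' => ?_⟩
    have h2 := clo x hx w (hK.1 hw.1) u (hK.1 hu.1) w' hw' hxw huw.symm huw'
    exact ⟨comp_mem hK hu.1 hw' huw', x, hx, h2⟩

theorem nbB (hK : Rel D U X K) {v : V} (hv : v ∈ kb D X K) : ∃ u ∈ K \ kb D X K, D.Adj u v := by
  obtain ⟨hK, x, hx, z, hz, hxz, z', hz', hzz'⟩ := hK
  have hz'K : z' ∈ K := comp_mem hK hz hz' hzz'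
  obtain ⟨c, hc, w, hw, hcw⟩ := hK.2.1.2 {v} (Set.singleton_subset_iff.mpr hv.1) ⟨v, rfl⟩ (by
    intro h
    rw [← h] at hz hz'K
    exact hzz'.ne ((Set.mem_singleton_iff.mp hz).trans (Set.mem_singleton_iff.mp hz'K).symm))
  rw [Set.mem_singleton_iff.mp hc] at hcw
  exact ⟨w, step1 side hK hv (hK.1 hw.1) hcw, hcw.symm⟩

end CKx

open CKx in
theorem pCK : S_CK := by
  classical
  intro V _ D U X t t' _ clo side ht ht' htt' hxt
  obtain ⟨K₀, hK₀U, htK₀, hK₀c, hK₀n⟩ := exists_comp D ht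
  have hK₀ : MPd439b2.IsComp D U K₀ := ⟨hK₀U, hK₀c, hK₀n⟩
  have hR₀ : Rel D U X K₀ := by
    obtain ⟨x, hx, hxt⟩ := hxt
    exact ⟨hK₀, x, hx, t, htK₀, hxt, t', ht', htt'⟩
  let S : Set (Set V) := {K | Rel D U X K ∧ K ≠ K₀}
  have hfin : S.Finite := Set.toFinite S
  let T : Finset (Set V) := hfin.toFinset
  let e := T.equivFin
  let Kf : ℕ → Set V := fun s => if h : s < T.card then (e.symm ⟨s, h⟩ : Set V) else K₀
  have hKf : ∀ s (h : s < T.card), Kf s = (e.symm ⟨s, h⟩ : Set V) := fun s h => dif_pos h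
  have hKN : Kf T.card = K₀ := dif_neg (lt_irrefl _)
  have hT : ∀ K ∈ T, Rel D U X K ∧ K ≠ K₀ := fun K hK => hfin.mem_toFinset.mp hK
  have hrel : ∀ s < T.card + 1, Rel D U X (Kf s) := by
    intro s hs
    by_cases h : s < T.card
    · rw [hKf s h]
      exact (hT _ (e.symm ⟨s, h⟩).2).1
    · have h1 : s = T.card := by omega
      rw [h1, hKN]
      exact hR₀
  have hinj : ∀ s < T.card + 1, ∀ s' < T.card + 1, s ≠ s' → Kf s ≠ Kf s' := by
    have key : ∀ s < T.card, ∀ s' < T.card + 1, s ≠ s' → Kf s ≠ Kf s' := by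
      intro s h s' hs' hne heq
      by_cases h' : s' < T.card
      · rw [hKf s h, hKf s' h'] at heq
        exact hne (Fin.mk.inj_iff.mp (e.symm.injective (Subtype.ext heq)))
      · have h1 : s' = T.card := by omega
        rw [h1, hKN, hKf s h] at heq
        exact (hT _ (e.symm ⟨s, h⟩).2).2 heq
    intro s hs s' hs' hne heq
    by_cases h : s < T.card
    · exact key s h s' hs' hne heq
    · exact key s' (by omega) s hs (Ne.symm hne) heq.symm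
  have hun : ∀ K : Set V, (K \ kb D X K) ∪ kb D X K = K := fun K =>
    Set.diff_union_of_subset fun v hv => hv.1
  refine ⟨T.card, fun s => Kf s \ kb D X (Kf s), fun s => kb D X (Kf s), ?_, ?_⟩
  · refine ⟨?_, ?_, ?_, ?_, ?_, ?_, ?_, ?_, ?_, ?_, ?_⟩
    · intro s hs
      show MPd439b2.IsComp D U ((Kf s \ kb D X (Kf s)) ∪ kb D X (Kf s))
      rw [hun]
      exact (hrel s hs).1
    · intro s _
      exact Set.disjoint_sdiff_left
    · intro s hs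
      exact ⟨fun u hu => (nbA clo side (hrel s hs) hu).1, fun v hv => nbB clo side (hrel s hs) hv⟩
    · intro s hs
      obtain ⟨_, x, hx, z, hz, hxz, _⟩ := hrel s hs
      exact ⟨z, hz, x, hx, hxz⟩
    · intro s hs u hu u' hu' h
      exact hu'.2 ((nbA clo side (hrel s hs) hu).2 u' ((hrel s hs).1.1 hu'.1) h)
    · intro s hs v hv v' hv' h
      exact (step1 side (hrel s hs).1 hv ((hrel s hs).1.1 hv'.1) h).2 hv'
    · intro s hs s' hs' hne
      show Disjoint ((Kf s \ kb D X (Kf s)) ∪ kb D X (Kf s))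
        ((Kf s' \ kb D X (Kf s')) ∪ kb D X (Kf s'))
      rw [hun, hun, Set.disjoint_left]
      intro v hv hv'
      exact hinj s hs s' hs' hne (comp_eq (hrel s hs).1 (hrel s' hs').1 hv hv')
    · intro s hs
      obtain ⟨hc, x, hx, z, hz, hxz, _⟩ := hrel s hs
      refine ⟨x, hx, ?_⟩
      rcases xb clo side hc hx with h | h
      · exact h
      · exact absurd hxz (h z ⟨hz, x, hx, hxz⟩)
    · intro x hx s _ u hu hxu
      exact hu.2 ⟨hu.1, x, hx, hxu⟩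
    · intro x hx s hs
      exact xb clo side (hrel s hs).1 hx
    · intro x hx z hz z' hz' hxz hzz'
      obtain ⟨K, hKU, hzK, hKc, hKn⟩ := exists_comp D hz
      have hK : Rel D U X K := ⟨⟨hKU, hKc, hKn⟩, x, hx, z, hzK, hxz, z', hz', hzz'⟩
      by_cases h : K = K₀
      · refine ⟨T.card, by omega, ?_⟩
        show z ∈ kb D X (Kf T.card)
        rw [hKN, ← h]
        exact ⟨hzK, x, hx, hxz⟩
      · have hKT : K ∈ T := hfin.mem_toFinset.mpr ⟨hK, h⟩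
        have h1 : Kf (e ⟨K, hKT⟩ : ℕ) = K := by
          rw [hKf _ (e ⟨K, hKT⟩).2]
          show ((e.symm (e ⟨K, hKT⟩) : T) : Set V) = K
          rw [e.symm_apply_apply]
        refine ⟨(e ⟨K, hKT⟩ : ℕ), by omega, ?_⟩
        show z ∈ kb D X (Kf (e ⟨K, hKT⟩ : ℕ))
        rw [h1]
        exact ⟨hzK, x, hx, hxz⟩
  · show t ∈ kb D X (Kf T.card)
    rw [hKN]
    obtain ⟨x, hx, hxt⟩ := hxt
    exact ⟨htK₀, x, hx, hxt⟩

end Pool.Agent.MPd439b2.SA
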