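import Pool.Agent.Lib.MP_d439b2_co.SA.SpecFan

/-!
# MP_d439b2_co, SA: models of the spider which consist of single vertices
-/

set_option autoImplicit false

namespace Pool.Agent.MPd439b2.SA

open Pool.Agent.MPd439b2 Pool.Agent.MPd439b2.W

namespace hPtAux

variable {V : Type}

theorem cmp_single {D : SimpleGraph V} {a b : V} : Cmp D {a} {b} ↔ D.Adj a b := by
  unfold Cmp
  simp

theorem twin : ∀ i j : Fin 8, (∀ r : Fin 8, (spE i r ↔ spE j r)) → i = j := by decide

/-- a copy of the spider and an induced matching without edges to it -/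
theorem mk {D : SimpleGraph V} {k : ℕ} {m : Fin 8 → V} {p q : ℕ → V}
    (hm : ∀ i j, D.Adj (m i) (m j) ↔ spE i j) (hpq : IM D k p q)
    (hl : ∀ t < k, ∀ i, ¬ D.Adj (m i) (p t) ∧ ¬ D.Adj (m i) (q t)) :
    Spi D k (fun i => {m i}) (fun t => {p t}) (fun t => {q t}) where
  gne _ := Finset.singleton_nonempty _
  pne _ _ := Finset.singleton_nonempty _
  qne _ _ := Finset.singleton_nonempty _
  gdis i j hij := by
    rw [Finset.disjoint_singleton]
    intro h
    refine hij (twin i j fun r => ?_)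
    rw [← hm i r, ← hm j r, h]
  gcmp i j _ := by rw [cmp_single, hm]
  gp i t ht := by
    rw [Finset.disjoint_singleton, cmp_single]
    refine ⟨fun h => (hl t ht i).2 ?_, (hl t ht i).1⟩
    rw [h]
    exact hpq.edge ht
  gq i t ht := by
    rw [Finset.disjoint_singleton, cmp_single]
    refine ⟨fun h => (hl t ht i).1 ?_, (hl t ht i).2⟩
    rw [h]
    exact (hpq.edge ht).symm
  pq t ht := by
    rw [Finset.disjoint_singleton, cmp_single]
    exact ⟨(hpq.edge ht).ne, hpq.edge ht⟩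
  pp t ht u hu htu := by
    rw [Finset.disjoint_singleton, cmp_single]
    exact ⟨fun h => htu (hpq.inj_a ht hu h), (hpq t ht u hu).2.1⟩
  px t ht u hu htu := by
    rw [Finset.disjoint_singleton, cmp_single]
    exact ⟨hpq.ne_ab ht hu, fun h => htu ((hpq t ht u hu).1.1 h)⟩
  qq t ht u hu htu := by
    rw [Finset.disjoint_singleton, cmp_single]
    exact ⟨fun h => htu (hpq.inj_b ht hu h), (hpq t ht u hu).2.2⟩

end hPtAux

theorem hPt : S_Pt := by
  intro V D k c x₁ y₁ x₂ y₂ x₃ y₃ z₃ p q hT hN h01 h12 h03 h34 h05 h56 h67 n07 n14 n16 n17 n32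
    n36 n37 n52 n54 n24 n26 n27 n46 n47 hpq hl
  have n02 : ¬ D.Adj c y₁ := hT x₁ c y₁ h01.symm h12
  have n04 : ¬ D.Adj c y₂ := hT x₂ c y₂ h03.symm h34
  have n06 : ¬ D.Adj c y₃ := hT x₃ c y₃ h05.symm h56
  have n13 : ¬ D.Adj x₁ x₂ := hT c x₁ x₂ h01 h03
  have n15 : ¬ D.Adj x₁ x₃ := hT c x₁ x₃ h01 h05
  have n35 : ¬ D.Adj x₂ x₃ := hT c x₂ x₃ h03 h05
  have n57 : ¬ D.Adj x₃ z₃ := hT y₃ x₃ z₃ h56.symm h67
  have n23 : ¬ D.Adj y₁ x₂ := fun h => n32 h.symm
  have n25 : ¬ D.Adj y₁ x₃ := fun h => n52 h.symm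
  have n45 : ¬ D.Adj y₂ x₃ := fun h => n54 h.symm
  have key : ∀ i j : Fin 8, i < j → (D.Adj (![c, x₁, y₁, x₂, y₂, x₃, y₃, z₃] i)
      (![c, x₁, y₁, x₂, y₂, x₃, y₃, z₃] j) ↔ spE i j) := by
    intro i j hij
    fin_cases i <;> fin_cases j <;> first
      | exact absurd hij (by decide)
      | exact iff_of_true (by assumption) (by decide)
      | exact iff_of_false (by assumption) (by decide)
  have irr : ∀ i : Fin 8, ¬ spE i i := by decide
  have sym : ∀ i j : Fin 8, spE i j ↔ spE j i := fun i j => or_comm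
  refine hN _ _ _ (hPtAux.mk (m := ![c, x₁, y₁, x₂, y₂, x₃, y₃, z₃]) ?_ hpq ?_)
  · intro i j
    rcases lt_trichotomy i j with h | h | h
    · exact key i j h
    · subst h
      exact iff_of_false (D.loopless.irrefl _) (irr i)
    · rw [D.adj_comm, sym]
      exact key j i h
  · intro t ht i
    refine hl t ht _ ?_
    fin_cases i <;> simp

end Pool.Agent.MPd439b2.SA
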