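import Pool.Agent.Lib.MP_d439b2_co.SA.SpecC
import Pool.Agent.Lib.MP_d439b2_co.SA.Pt

/-!
# MP_d439b2_co, SA: Clo (helper31)

Neighbourhoods of mediums in the light graph are closed under distance two.
-/

set_option autoImplicit false

namespace Pool.Agent.MPd439b2.SA

open Pool.Agent.MPd439b2 Pool.Agent.MPd439b2.W

namespace Clox

variable {V : Type}

open Classical in
/-- the indices which are touched by `v` -/
noncomputable def Tchd (D : SimpleGraph V) (n : ℕ) (a b : ℕ → V) (v : V) : Finset ℕ :=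
  (Finset.range n).filter fun i => D.Adj v (a i) ∨ D.Adj v (b i)

theorem mem_Tchd {D : SimpleGraph V} {n : ℕ} {a b : ℕ → V} {v : V} {i : ℕ} :
    i ∈ Tchd D n a b v ↔ i < n ∧ (D.Adj v (a i) ∨ D.Adj v (b i)) := by
  classical
  unfold Tchd
  rw [Finset.mem_filter, Finset.mem_range]

theorem card_Tchd {D : SimpleGraph V} {n : ℕ} {a b : ℕ → V} {v : V} (h : Lt D n a b v) :
    (Tchd D n a b v).card ≤ 1 := by
  rw [Finset.card_le_one]
  intro i hi j hj
  rw [mem_Tchd] at hi hj
  exact h i hi.1 j hj.1 hi.2 hj.2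

/-- an enumeration of `k` elements of a finite set -/
theorem enum {k : ℕ} {S : Finset ℕ} (h : k ≤ S.card) :
    ∃ r : ℕ → ℕ, (∀ t < k, r t ∈ S) ∧ ∀ t < k, ∀ u < k, r t = r u → t = u := by
  refine ⟨fun t => if h : t < S.card then S.orderEmbOfFin rfl ⟨t, h⟩ else 0, ?_, ?_⟩
  · intro t ht
    have h1 : t < S.card := by omega
    simp only [h1, dif_pos]
    exact Finset.orderEmbOfFin_mem S rfl _
  · intro t ht u hu htu
    have h1 : t < S.card := by omega
    have h2 : u < S.card := by omega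
    simp only [h1, h2, dif_pos] at htu
    have h3 := (S.orderEmbOfFin rfl).injective htu
    exact congrArg Fin.val h3

theorem untouched {D : SimpleGraph V} {n : ℕ} {a b : ℕ → V} {v : V} {B : Finset ℕ} {i : ℕ}
    (hB : Tchd D n a b v ⊆ B) (hi : i < n) (hiB : i ∉ B) : ¬ D.Adj v (a i) ∧ ¬ D.Adj v (b i) := by
  constructor
  · intro h
    exact hiB (hB (mem_Tchd.2 ⟨hi, Or.inl h⟩))
  · intro h
    exact hiB (hB (mem_Tchd.2 ⟨hi, Or.inr h⟩))

end Clox

open Clox in
theorem pClo : S_Clo := by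
  intro k n V D a b x hT hN hF y q hP hk hn w hw u hu w' hw' hyw hwu huw'
  by_contra hyw'
  have hyn : D.Adj y (b (n - 1)) := by
    rcases hP with h | h
    · exact (h (n - 1) (by omega)).2 (by omega)
    · exact (h (n - 1) (by omega)).2 (Or.inr (by omega))
  have hya : ∀ j < n, ¬ D.Adj y (a j) := fun j hj => hF.ex y (n - 1) (by omega) j hj hyn
  have hyb : ∀ j < n, q + 2 ≤ j → D.Adj y (b j) := by
    intro j hj hqj
    rcases hP with h | h
    · exact (h j hj).2 (by omega)
    · exact (h j hj).2 (Or.inr hqj)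
  have hyb' : ∀ j < n, j < q → ¬ D.Adj y (b j) := by
    intro j hj hqj h1
    rcases hP with h | h
    · have := (h j hj).1 h1
      omega
    · have := (h j hj).1 h1
      omega
  classical
  obtain ⟨B, hB⟩ : ∃ B : Finset ℕ, B = Tchd D n a b w ∪ Tchd D n a b u ∪ Tchd D n a b w' := ⟨_, rfl⟩
  have hBc : B.card ≤ 3 := by
    have h1 := Finset.card_union_le (Tchd D n a b w ∪ Tchd D n a b u) (Tchd D n a b w')
    have h2 := Finset.card_union_le (Tchd D n a b w) (Tchd D n a b u)
    have h3 := card_Tchd (show Lt D n a b w from hw)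
    have h4 := card_Tchd (show Lt D n a b u from hu)
    have h5 := card_Tchd (show Lt D n a b w' from hw')
    rw [hB]
    omega
  have hBw : Tchd D n a b w ⊆ B := by
    rw [hB]
    exact fun i hi => Finset.mem_union_left _ (Finset.mem_union_left _ hi)
  have hBu : Tchd D n a b u ⊆ B := by
    rw [hB]
    exact fun i hi => Finset.mem_union_left _ (Finset.mem_union_right _ hi)
  have hBw' : Tchd D n a b w' ⊆ B := by
    rw [hB]
    exact fun i hi => Finset.mem_union_right _ hi
  have hc1 : 1 < (Finset.Ico (q + 2) n \ B).card := by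
    have h1 := Finset.le_card_sdiff B (Finset.Ico (q + 2) n)
    rw [Nat.card_Ico] at h1
    omega
  have hc2 : k ≤ (Finset.range q \ B).card := by
    have h1 := Finset.le_card_sdiff B (Finset.range q)
    rw [Finset.card_range] at h1
    omega
  obtain ⟨i, hi, j, hj, hij⟩ := Finset.one_lt_card.1 hc1
  obtain ⟨r, hr, hri⟩ := enum hc2
  rw [Finset.mem_sdiff, Finset.mem_Ico] at hi hj
  obtain ⟨⟨hi1, hin⟩, hiB⟩ := hi
  obtain ⟨⟨hj1, hjn⟩, hjB⟩ := hj
  have hr' : ∀ t < k, r t < q ∧ r t < n ∧ r t ∉ B := by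
    intro t ht
    have h1 := hr t ht
    rw [Finset.mem_sdiff, Finset.mem_range] at h1
    exact ⟨h1.1, by omega, h1.2⟩
  have im := hF.lad.im
  have hwi := untouched hBw hin hiB
  have hwj := untouched hBw hjn hjB
  have hui := untouched hBu hin hiB
  have huj := untouched hBu hjn hjB
  have hwi' := untouched hBw' hin hiB
  have hwj' := untouched hBw' hjn hjB
  refine hPt V D k y (b i) (a i) (b j) (a j) w u w' (fun t => a (r t)) (fun t => b (r t)) hT hN
    (hyb i hin hi1) (im.edge hin).symm (hyb j hjn hj1) (im.edge hjn).symm hyw hwu huw'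
    hyw' (fun h => hij ((im j hjn i hin).1.1 h.symm).symm) (fun h => hui.2 h.symm)
    (fun h => hwi'.2 h.symm) (fun h => hij ((im i hin j hjn).1.1 h.symm)) (fun h => huj.2 h.symm)
    (fun h => hwj'.2 h.symm) hwi.1 hwj.1 (im i hin j hjn).2.1 (fun h => hui.1 h.symm)
    (fun h => hwi'.1 h.symm) (fun h => huj.1 h.symm) (fun h => hwj'.1 h.symm) ?_ ?_
  · exact im.comp r (fun t ht => (hr' t ht).2.1) hri
  · intro t ht v hv
    obtain ⟨h1, h2, h3⟩ := hr' t ht
    have hne1 : i ≠ r t := by omega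
    have hne2 : j ≠ r t := by omega
    have hmis : ∀ l < n, l ≠ r t → (¬ D.Adj (b l) (a (r t)) ∧ ¬ D.Adj (b l) (b (r t))) ∧
        ¬ D.Adj (a l) (a (r t)) ∧ ¬ D.Adj (a l) (b (r t)) := by
      intro l hl hlr
      exact ⟨⟨fun h => hlr ((im (r t) h2 l hl).1.1 h.symm).symm, (im l hl (r t) h2).2.2⟩,
        (im l hl (r t) h2).2.1, fun h => hlr ((im l hl (r t) h2).1.1 h)⟩
    rcases hv with rfl | rfl | rfl | rfl | rfl | rfl | rfl | rfl
    · exact ⟨hya _ h2, hyb' _ h2 h1⟩
    · exact (hmis i hin hne1).1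
    · exact (hmis i hin hne1).2
    · exact (hmis j hjn hne2).1
    · exact (hmis j hjn hne2).2
    · exact untouched hBw h2 h3
    · exact untouched hBu h2 h3
    · exact untouched hBw' h2 h3

end Pool.Agent.MPd439b2.SA
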