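import Pool.Agent.Lib.MP_d439b2_co.SA.SpecC

/-!
# MP_d439b2_co, SA, C1: the classes of vertices (helper91)
-/

set_option autoImplicit false

namespace Pool.Agent.MPd439b2.SA

open Pool.Agent.MPd439b2 Pool.Agent.MPd439b2.W

/-- **C1.** The classes of vertices. -/
theorem pCls : S_Cls := by
  intro n V D a b x h v
  by_cases hL : v ∈ LtS D n a b
  · exact Or.inl hL
  right
  obtain ⟨i, hi, j, hj, hti, htj, hij⟩ : ∃ i < n, ∃ j < n, (D.Adj v (a i) ∨ D.Adj v (b i)) ∧
      (D.Adj v (a j) ∨ D.Adj v (b j)) ∧ i ≠ j := by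
    by_contra hno
    apply hL
    intro i hi j hj h1 h2
    by_contra hij
    exact hno ⟨i, hi, j, hj, h1, h2, hij⟩
  by_cases hb : ∃ i < n, D.Adj v (b i)
  · right
    obtain ⟨i₀, hi₀, hb₀⟩ := hb
    have na : ∀ j < n, ¬ D.Adj v (a j) := fun j hj => h.fr.ex v i₀ hi₀ j hj hb₀
    have hbi : D.Adj v (b i) := hti.resolve_left (na i hi)
    have hbj : D.Adj v (b j) := htj.resolve_left (na j hj)
    rcases h.fr.tb v with hf | ⟨q, hq⟩
    · exact absurd (hf i hi j hj hbi hbj) hij
    refine ⟨q, ?_, hq, ?_, na⟩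
    · rcases hq with hq | hq
      · have h1 := (hq i hi).1 hbi
        have h2 := (hq j hj).1 hbj
        omega
      · have h1 := (hq i hi).1 hbi
        have h2 := (hq j hj).1 hbj
        omega
    · rcases hq with hq | hq
      · have h1 := (hq i hi).1 hbi
        exact (hq (n - 1) (by omega)).2 (by omega)
      · have h1 := (hq i hi).1 hbi
        have h2 := (hq j hj).1 hbj
        exact (hq (n - 1) (by omega)).2 (by omega)
  · left
    have hai : D.Adj v (a i) := hti.resolve_right fun h1 => hb ⟨i, hi, h1⟩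
    have haj : D.Adj v (a j) := htj.resolve_right fun h1 => hb ⟨j, hj, h1⟩
    rcases h.ta v with hf | hf
    · exact absurd (hf i hi j hj hai haj) hij
    · exact hf

end Pool.Agent.MPd439b2.SA
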