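import Pool.Agent.Lib.MP_d439b2_co.SA.SpecC

/-!
# MP_d439b2_co, SA, C8: the fan of a frame
-/

set_option autoImplicit false

namespace Pool.Agent.MPd439b2.SA.FanXx

open Pool.Agent.MPd439b2 Pool.Agent.MPd439b2.W

variable {V : Type} {D : SimpleGraph V} {n lo hi N : ℕ} {a b x : ℕ → V} {U X : Set V}
  {KA KB : ℕ → Set V}

/-- components are closed under neighbours -/
theorem cl {K : Set V} {v w : V} (h : Pool.Agent.MPd439b2.IsComp D U K) (hv : v ∈ K) (hw : w ∈ U)
    (hvw : D.Adj v w) : w ∈ K := by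
  by_contra h1
  exact h.2.2 w hw ⟨h1, v, hv, hvw⟩

/-- adjacent vertices in components are in the same component -/
theorem comp_eq (h : CK D U X N KA KB) {s t : ℕ} (hs : s < N) (ht : t < N) {y z : V}
    (hy : y ∈ KA s ∪ KB s) (hz : z ∈ KA t ∪ KB t) (hyz : D.Adj y z) : s = t := by
  by_contra hst
  have h1 : z ∈ KA s ∪ KB s := cl (h.comp s hs) hy ((h.comp t ht).1 hz) hyz
  exact Set.disjoint_left.mp (h.dis s hs t ht hst) h1 hz

theorem a_mem (h : IM D n a b) {j : ℕ} (hj : j < n) : a j ∈ LtS D n a b := by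
  have key : ∀ i, i < n → (D.Adj (a j) (a i) ∨ D.Adj (a j) (b i)) → j = i := by
    intro i hi h1
    rcases h1 with h1 | h1
    · exact absurd h1 (h j hj i hi).2.1
    · exact (h j hj i hi).1.1 h1
  intro i hi i' hi' h1 h2
  rw [← key i hi h1, ← key i' hi' h2]

theorem b_mem (h : IM D n a b) {j : ℕ} (hj : j < n) : b j ∈ LtS D n a b := by
  have key : ∀ i, i < n → (D.Adj (b j) (a i) ∨ D.Adj (b j) (b i)) → i = j := by
    intro i hi h1
    rcases h1 with h1 | h1
    · exact (h i hi j hj).1.1 h1.symm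
    · exact absurd h1 (h j hj i hi).2.2
  intro i hi i' hi' h1 h2
  rw [key i hi h1, key i' hi' h2]

/-- the vertices of `XM` see the last vertex, and nothing of the low edges -/
theorem xm (h : Fr0 D n a b x) (hhi : hi + 8 ≤ n) {y : V} (hy : y ∈ XM D n b lo hi) :
    D.Adj y (b (n - 1)) ∧ (∀ j < n, ¬ D.Adj y (a j)) ∧ ∀ j < lo, ¬ D.Adj y (b j) := by
  obtain ⟨q, hq1, hq2, hq⟩ := hy
  have h1 : D.Adj y (b (n - 1)) := by
    rcases hq with hq | hq
    · exact (hq _ (by omega)).2 (by omega)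
    · exact (hq _ (by omega)).2 (Or.inr (by omega))
  refine ⟨h1, fun j hj => h.ex y (n - 1) (by omega) j hj h1, fun j hj h2 => ?_⟩
  rcases hq with hq | hq
  · have := (hq j (by omega)).1 h2
    omega
  · have := (hq j (by omega)).1 h2
    omega

end FanXx

open Pool.Agent.MPd439b2 Pool.Agent.MPd439b2.W

theorem pFanX : S_FanX := by
  intro k n lo hi N V D a b x KA KB u v _ hF hk hlh hhi hC hb huv
  have hU : ∀ {t : ℕ} {y : V}, t < N + 1 → y ∈ KA t ∪ KB t → y ∈ LtS D n a b :=
    fun ht hy => (hC.comp _ ht).1 hy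
  have hu : ∀ l < N, u l ∈ KA l ∪ KB l := fun l hl => Or.inl (huv l hl).1
  have hv : ∀ l < N, v l ∈ KA l ∪ KB l := fun l hl => Or.inr (huv l hl).2.1
  have ht : b (n - 1) ∈ KA N ∪ KB N := Or.inr hb
  -- the low edges
  have hlow : ∀ l < N, ∀ y, y ∈ KA l ∪ KB l → ∀ j < k, ¬ D.Adj y (a j) ∧ ¬ D.Adj y (b j) := by
    intro l hl y hy j hj
    have key : ¬ (a j ∈ KA l ∪ KB l ∧ b j ∈ KA l ∪ KB l) := by
      rintro ⟨h1, h2⟩
      obtain ⟨x', hx', hseen⟩ := hC.seen l (by omega)
      obtain ⟨-, h3, h4⟩ := FanXx.xm hF hhi hx'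
      rcases h1 with h1 | h1
      · rcases h2 with h2 | h2
        · exact hC.iA l (by omega) _ h1 _ h2 (hF.lad.im.edge (by omega))
        · exact h4 j (by omega) (hseen _ h2)
      · exact h3 j (by omega) (hseen _ h1)
    constructor
    · intro h1
      have h2 : a j ∈ KA l ∪ KB l := FanXx.cl (hC.comp l (by omega)) hy
        (FanXx.a_mem hF.lad.im (by omega)) h1
      exact key ⟨h2, FanXx.cl (hC.comp l (by omega)) h2 (FanXx.b_mem hF.lad.im (by omega))
        (hF.lad.im.edge (by omega))⟩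
    · intro h1
      have h2 : b j ∈ KA l ∪ KB l := FanXx.cl (hC.comp l (by omega)) hy
        (FanXx.b_mem hF.lad.im (by omega)) h1
      exact key ⟨FanXx.cl (hC.comp l (by omega)) h2 (FanXx.a_mem hF.lad.im (by omega))
        (hF.lad.im.edge (by omega)).symm, h2⟩
  refine
    { im := ?_
      low := hF.lad.im.mono (by omega)
      xu := fun x' hx' l hl => hC.xa x' hx' l (by omega) _ (huv l hl).1
      xt := fun x' hx' => (FanXx.xm hF hhi hx').1
      wu := fun w hw l hl => ⟨hw.2.1 _ (hU (by omega) (hu l hl)), hw.2.1 _ (hU (by omega) (hv l hl))⟩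
      wt := fun w hw => hw.2.1 _ (hU (by omega) ht)
      ww := fun w hw w' hw' => hw.2.1 w' hw'.1
      tu := ?_
      lx := fun x' hx' j hj => ⟨(FanXx.xm hF hhi hx').2.1 j (by omega),
        (FanXx.xm hF hhi hx').2.2 j (by omega)⟩
      lw := fun w hw j hj => ⟨hw.2.1 _ (FanXx.a_mem hF.lad.im (by omega)),
        hw.2.1 _ (FanXx.b_mem hF.lad.im (by omega))⟩
      lt := ?_
      lu := fun l hl j hj => ⟨(hlow l hl _ (hu l hl) j hj).1, (hlow l hl _ (hu l hl) j hj).2,
        (hlow l hl _ (hv l hl) j hj).1, (hlow l hl _ (hv l hl) j hj).2⟩ }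
  · intro i hi j hj
    by_cases hij : i = j
    · subst hij
      exact ⟨iff_of_true (huv i hi).2.2 rfl, fun h => h.ne rfl, fun h => h.ne rfl⟩
    · refine ⟨iff_of_false (fun h => hij ?_) hij, fun h => hij ?_, fun h => hij ?_⟩
      · exact FanXx.comp_eq hC (by omega) (by omega) (hu i hi) (hv j hj) h
      · exact FanXx.comp_eq hC (by omega) (by omega) (hu i hi) (hu j hj) h
      · exact FanXx.comp_eq hC (by omega) (by omega) (hv i hi) (hv j hj) h
  · intro l hl
    refine ⟨fun h => ?_, fun h => ?_⟩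
    · have := FanXx.comp_eq hC (by omega) (by omega) ht (hu l hl) h
      omega
    · have := FanXx.comp_eq hC (by omega) (by omega) ht (hv l hl) h
      omega
  · intro j hj
    refine ⟨fun h => ?_, (hF.lad.im (n - 1) (by omega) j (by omega)).2.2⟩
    have := (hF.lad.im j (by omega) (n - 1) (by omega)).1.1 h.symm
    omega

end Pool.Agent.MPd439b2.SA
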