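import Pool.Agent.Lib.MP_d439b2_co.SA.SpecC

/-!
# MP_d439b2_co, SA/Far: light neighbours of a vertex are seen by all vertices further left (helper6)
-/

set_option autoImplicit false

namespace Pool.Agent.MPd439b2.SA

open Pool.Agent.MPd439b2 Pool.Agent.MPd439b2.W

namespace Farx

variable {V : Type} {D : SimpleGraph V} {n : ℕ} {b : ℕ → V}

/-- a vertex of position `q` misses `b j` for `j < q` -/
theorem Ps.miss {v : V} {q : ℕ} (h : Ps D n b v q) {j : ℕ} (hj : j < n) (hq : j < q) :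
    ¬ D.Adj v (b j) := by
  rcases h with h | h
  · intro h1
    have := (h j hj).1 h1
    omega
  · intro h1
    have := (h j hj).1 h1
    omega

theorem Ps.hit0 {v : V} {q : ℕ} (h : Ps D n b v q) (hq : q < n) : D.Adj v (b q) := by
  rcases h with h | h
  · exact (h q hq).2 le_rfl
  · exact (h q hq).2 (Or.inl rfl)

theorem Ps.hit {v : V} {q : ℕ} (h : Ps D n b v q) {j : ℕ} (hj : j < n) (hq : q + 2 ≤ j) :
    D.Adj v (b j) := by
  rcases h with h | h
  · exact (h j hj).2 (by omega)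
  · exact (h j hj).2 (Or.inr hq)

/-- `k` indices below `k + 1` which do not satisfy `p` -/
theorem skip {n k : ℕ} {p : ℕ → Prop} (h : Few n p) (hk : k + 1 ≤ n) :
    ∃ r : ℕ → ℕ, (∀ t < k, r t ≤ k ∧ ¬ p (r t)) ∧ ∀ s < k, ∀ t < k, r s = r t → s = t := by
  classical
  by_cases h0 : ∃ τ, τ < k + 1 ∧ p τ
  · obtain ⟨τ, hτ, hp⟩ := h0
    refine ⟨fun t => if t < τ then t else t + 1, ?_, ?_⟩
    · intro t ht
      refine ⟨?_, ?_⟩
      · show (if t < τ then t else t + 1) ≤ k
        split_ifs <;> omega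
      · show ¬ p (if t < τ then t else t + 1)
        intro hp2
        have h3 := h τ (by omega) (if t < τ then t else t + 1) (by split_ifs <;> omega) hp hp2
        split_ifs at h3 <;> omega
    · intro s _ t _ he
      have he' : (if s < τ then s else s + 1) = (if t < τ then t else t + 1) := he
      split_ifs at he' <;> omega
  · refine ⟨fun t => t, ?_, ?_⟩
    · intro t ht
      exact ⟨by show t ≤ k; omega, fun hp => h0 ⟨t, by omega, hp⟩⟩
    · intro s _ t _ he
      exact he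

end Farx

open Farx in
theorem pFar (hPt : S_Pt) : S_Far := by
  intro k n V D a b x hT hN hF y y' q q' hy hy' hkq hqq hqn hyn z hz hyz
  by_contra hnz
  have hz' : Few n fun i => D.Adj z (a i) ∨ D.Adj z (b i) := hz
  have im := hF.lad.im
  -- two neighbours of `y` which are not touched by `z`
  have hij : ∃ i j, i ≠ j ∧ q ≤ i ∧ i < q + 4 ∧ q ≤ j ∧ j < q + 4 ∧ D.Adj y (b i) ∧ D.Adj y (b j) ∧
      ¬ (D.Adj z (a i) ∨ D.Adj z (b i)) ∧ ¬ (D.Adj z (a j) ∨ D.Adj z (b j)) := by
    have e0 := Ps.hit0 hy (by omega)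
    have e2 := Ps.hit hy (j := q + 2) (by omega) (by omega)
    have e3 := Ps.hit hy (j := q + 3) (by omega) (by omega)
    by_cases t0 : D.Adj z (a q) ∨ D.Adj z (b q)
    · refine ⟨q + 2, q + 3, by omega, by omega, by omega, by omega, by omega, e2, e3, ?_, ?_⟩
      · intro h
        have := hz' q (by omega) (q + 2) (by omega) t0 h
        omega
      · intro h
        have := hz' q (by omega) (q + 3) (by omega) t0 h
        omega
    · by_cases t2 : D.Adj z (a (q + 2)) ∨ D.Adj z (b (q + 2))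
      · refine ⟨q, q + 3, by omega, by omega, by omega, by omega, by omega, e0, e3, t0, ?_⟩
        intro h
        have := hz' (q + 2) (by omega) (q + 3) (by omega) t2 h
        omega
      · exact ⟨q, q + 2, by omega, by omega, by omega, by omega, by omega, e0, e2, t0, t2⟩
  obtain ⟨i, j, hne, hi1, hi2, hj1, hj2, yi, yj, zi, zj⟩ := hij
  obtain ⟨r, hr, hinj⟩ := skip (k := k) hz' (by omega)
  have hin : i < n := by omega
  have hjn : j < n := by omega
  have hn1 : n - 1 < n := by omega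
  have ya : ∀ m < n, ¬ D.Adj y (a m) := fun m hm =>
    hF.ex y i hin m hm yi
  have y'a : ∀ m < n, ¬ D.Adj y' (a m) := fun m hm =>
    hF.ex y' (n - 1) hn1 m hm hyn
  have ab : ∀ s < n, ∀ t < n, s ≠ t → ¬ D.Adj (a s) (b t) := fun s hs t ht hst h =>
    hst ((im s hs t ht).1.1 h)
  have ba : ∀ s < n, ∀ t < n, s ≠ t → ¬ D.Adj (b s) (a t) := fun s hs t ht hst h =>
    hst ((im t ht s hs).1.1 h.symm).symm
  have yn : D.Adj y (b (n - 1)) := Ps.hit hy hn1 (by omega)
  have zu : ∀ m, ¬ (D.Adj z (a m) ∨ D.Adj z (b m)) → ¬ D.Adj (a m) z ∧ ¬ D.Adj (b m) z :=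
    fun m h => ⟨fun h1 => h (Or.inl h1.symm), fun h1 => h (Or.inr h1.symm)⟩
  refine hPt V D k y (b i) (a i) (b j) (a j) (b (n - 1)) y' z (fun t => a (r t))
    (fun t => b (r t)) hT hN yi (im.edge hin).symm yj (im.edge hjn).symm yn hyn.symm hyz hnz
    (ba i hin j hjn hne) (fun h => Ps.miss hy' hin (by omega) h.symm) (zu i zi).2
    (ba j hjn i hin (Ne.symm hne)) (fun h => Ps.miss hy' hjn (by omega) h.symm) (zu j zj).2
    (ba (n - 1) hn1 i hin (by omega)) (ba (n - 1) hn1 j hjn (by omega))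
    (im i hin j hjn).2.1 (fun h => y'a i hin h.symm) (zu i zi).1
    (fun h => y'a j hjn h.symm) (zu j zj).1
    (im.comp r (fun t ht => by have := (hr t ht).1; omega) hinj) ?_
  intro t ht v hv
  obtain ⟨hrk, hrz⟩ := hr t ht
  have hrn : r t < n := by omega
  rcases hv with rfl | rfl | rfl | rfl | rfl | rfl | rfl | rfl
  · exact ⟨ya _ hrn, Ps.miss hy hrn (by omega)⟩
  · exact ⟨ba i hin _ hrn (by omega), (im i hin _ hrn).2.2⟩
  · exact ⟨(im i hin _ hrn).2.1, ab i hin _ hrn (by omega)⟩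
  · exact ⟨ba j hjn _ hrn (by omega), (im j hjn _ hrn).2.2⟩
  · exact ⟨(im j hjn _ hrn).2.1, ab j hjn _ hrn (by omega)⟩
  · exact ⟨ba (n - 1) hn1 _ hrn (by omega), (im (n - 1) hn1 _ hrn).2.2⟩
  · exact ⟨y'a _ hrn, Ps.miss hy' hrn (by omega)⟩
  · exact ⟨fun h => hrz (Or.inl h), fun h => hrz (Or.inr h)⟩

end Pool.Agent.MPd439b2.SA
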