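import Pool.Agent.Lib.MP_d439b2_co.SA.SpecA

/-!
# MP_d439b2_co, SA/L3: the engine
-/

set_option autoImplicit false

namespace Pool.Agent.MPd439b2.SA

open Pool.Agent.MPd439b2 Pool.Agent.MPd439b2.W

namespace L3x

variable {V : Type} {D : SimpleGraph V}

/-- disjoint and not complete -/
def Nb (D : SimpleGraph V) (A B : Finset V) : Prop := Disjoint A B ∧ ¬ Cmp D A B

/-- disjoint and complete -/
def Cb (D : SimpleGraph V) (A B : Finset V) : Prop := Disjoint A B ∧ Cmp D A B

theorem csymm {A B : Finset V} (h : Cmp D A B) : Cmp D B A := fun b hb a ha => (h a ha b hb).symm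

theorem Nb.symm {A B : Finset V} (h : Nb D A B) : Nb D B A :=
  ⟨h.1.symm, fun h' => h.2 (csymm h')⟩

theorem Cb.symm {A B : Finset V} (h : Cb D A B) : Cb D B A := ⟨h.1.symm, csymm h.2⟩

theorem cdis {A B : Finset V} (h : Cmp D A B) : Cb D A B := by
  refine ⟨?_, h⟩
  rw [Finset.disjoint_left]
  intro x hx hx'
  exact (h x hx x hx').ne rfl

theorem tri (hT : TriFree D) {A B C : Finset V} (hA : A.Nonempty) (hB : B.Nonempty)
    (hC : C.Nonempty) (h1 : Cmp D A B) (h2 : Cmp D B C) : ¬ Cmp D A C := by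
  intro h3
  obtain ⟨x, hx⟩ := hA
  obtain ⟨y, hy⟩ := hB
  obtain ⟨z, hz⟩ := hC
  exact hT x y z (h1 x hx y hy) (h3 x hx z hz) (h2 y hy z hz)

theorem dn {A B : Finset V} (h : Nb D A B) {a b : Fin 8} (hs : ¬ spE a b) :
    Disjoint A B ∧ (Cmp D A B ↔ spE a b) := ⟨h.1, iff_of_false h.2 hs⟩

theorem dc {A B : Finset V} (h : Cb D A B) {a b : Fin 8} (hs : spE a b) :
    Disjoint A B ∧ (Cmp D A B ↔ spE a b) := ⟨h.1, iff_of_true h.2 hs⟩

theorem spE_symm {a b : Fin 8} (h : spE a b) : spE b a := Or.symm h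

/-- the two ends of the edge `i`, first the one which is complete to `C` -/
theorem ends {I : Finset ℕ} {P Q : ℕ → Finset V} {C : Finset V} {i : ℕ} (hM : BMt D I P Q)
    (hO : Off I P Q C) (hi : i ∈ I) (ht : Tc D P Q C i) :
    ∃ X Y : Finset V, (X = P i ∨ X = Q i) ∧ (Y = P i ∨ Y = Q i) ∧ X.Nonempty ∧ Y.Nonempty ∧
      Cb D X Y ∧ Cb D C X ∧ Disjoint C Y := by
  rcases ht with h | h
  · exact ⟨P i, Q i, Or.inl rfl, Or.inr rfl, hM.pne i hi, hM.qne i hi, cdis (hM.pq i hi), cdis h,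
      (hO i hi).2⟩
  · exact ⟨Q i, P i, Or.inr rfl, Or.inl rfl, hM.qne i hi, hM.pne i hi, (cdis (hM.pq i hi)).symm,
      cdis h, (hO i hi).1⟩

theorem blk {I : Finset ℕ} {P Q : ℕ → Finset V} (hM : BMt D I P Q) {i j : ℕ} (hi : i ∈ I)
    (hj : j ∈ I) (hij : i ≠ j) {X Y : Finset V} (hX : X = P i ∨ X = Q i) (hY : Y = P j ∨ Y = Q j) :
    Nb D X Y := by
  rcases hX with rfl | rfl <;> rcases hY with rfl | rfl
  · exact hM.pp i hi j hj hij
  · exact hM.px i hi j hj hij
  · exact Nb.symm (hM.px j hj i hi hij.symm)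
  · exact hM.qq i hi j hj hij

theorem unt {I : Finset ℕ} {P Q : ℕ → Finset V} {B : Finset V} (hU : Unt D I P Q B) {i : ℕ}
    (hi : i ∈ I) {X : Finset V} (hX : X = P i ∨ X = Q i) : Nb D X B := by
  obtain ⟨h1, h2, h3, h4⟩ := hU i hi
  rcases hX with rfl | rfl
  · exact Nb.symm ⟨h1, h3⟩
  · exact Nb.symm ⟨h2, h4⟩

end L3x

open L3x

theorem pL3 : S_L3 := by
  classical
  intro k V D I P Q C B0 B1 B2 i j hT hS hM hC hB0 hB1 hB2 hO hU0 hU1 hU2 dC1 dC2 d02 c0 c01 c12
    nC2 hi hj hij hti htj R hRI hR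
  by_contra hcard
  push Not at hcard
  -- the indices
  obtain ⟨r, hr, hrinj⟩ : ∃ r : ℕ → ℕ, (∀ t < k, r t ∈ R) ∧ ∀ t < k, ∀ u < k, r t = r u → t = u := by
    obtain ⟨R', hR', hR'c⟩ := Finset.exists_subset_card_eq hcard
    let e := R'.orderEmbOfFin hR'c
    refine ⟨fun t => if h : t < k then e ⟨t, h⟩ else 0, ?_, ?_⟩
    · intro t ht
      simp only [dif_pos ht]
      exact hR' (Finset.orderEmbOfFin_mem R' hR'c _)
    · intro t ht u hu htu
      simp only [dif_pos ht, dif_pos hu] at htu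
      have := e.injective htu
      exact congrArg Fin.val this
  have hrI : ∀ t < k, r t ∈ I := fun t ht => hRI (hr t ht)
  have hri : ∀ t < k, i ≠ r t := fun t ht h => hR _ (hr t ht) (h ▸ hti)
  have hrj : ∀ t < k, j ≠ r t := fun t ht h => hR _ (hr t ht) (h ▸ htj)
  obtain ⟨X, Y, hX, hY, neX, neY, cXY, cCX, dCY⟩ := ends hM hO hi hti
  obtain ⟨U, W, hU, hW, neU, neW, cUW, cCU, dCW⟩ := ends hM hO hj htj
  have n02 : Nb D C Y := ⟨dCY, tri hT hC neX neY cCX.2 cXY.2⟩
  have n04 : Nb D C W := ⟨dCW, tri hT hC neU neW cCU.2 cUW.2⟩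
  have c05 : Cb D C B0 := cdis c0
  have n06 : Nb D C B1 := ⟨dC1, tri hT hC hB0 hB1 c0 c01⟩
  have n07 : Nb D C B2 := ⟨dC2, nC2⟩
  have n13 : Nb D X U := blk hM hi hj hij hX hU
  have n14 : Nb D X W := blk hM hi hj hij hX hW
  have n15 : Nb D X B0 := unt hU0 hi hX
  have n16 : Nb D X B1 := unt hU1 hi hX
  have n17 : Nb D X B2 := unt hU2 hi hX
  have n23 : Nb D Y U := blk hM hi hj hij hY hU
  have n24 : Nb D Y W := blk hM hi hj hij hY hW
  have n25 : Nb D Y B0 := unt hU0 hi hY
  have n26 : Nb D Y B1 := unt hU1 hi hY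
  have n27 : Nb D Y B2 := unt hU2 hi hY
  have n35 : Nb D U B0 := unt hU0 hj hU
  have n36 : Nb D U B1 := unt hU1 hj hU
  have n37 : Nb D U B2 := unt hU2 hj hU
  have n45 : Nb D W B0 := unt hU0 hj hW
  have n46 : Nb D W B1 := unt hU1 hj hW
  have n47 : Nb D W B2 := unt hU2 hj hW
  have c56 : Cb D B0 B1 := cdis c01
  have n57 : Nb D B0 B2 := ⟨d02, tri hT hB0 hB1 hB2 c01 c12⟩
  have c67 : Cb D B1 B2 := cdis c12
  let g : Fin 8 → Finset V := ![C, X, Y, U, W, B0, B1, B2]
  have key : ∀ a b : Fin 8, a < b → Disjoint (g a) (g b) ∧ (Cmp D (g a) (g b) ↔ spE a b) := by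
    intro a b hab
    fin_cases a <;> fin_cases b <;> first
      | exact absurd hab (by decide)
      | exact dc cCX (by decide)
      | exact dn n02 (by decide)
      | exact dc cCU (by decide)
      | exact dn n04 (by decide)
      | exact dc c05 (by decide)
      | exact dn n06 (by decide)
      | exact dn n07 (by decide)
      | exact dc cXY (by decide)
      | exact dn n13 (by decide)
      | exact dn n14 (by decide)
      | exact dn n15 (by decide)
      | exact dn n16 (by decide)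
      | exact dn n17 (by decide)
      | exact dn n23 (by decide)
      | exact dn n24 (by decide)
      | exact dn n25 (by decide)
      | exact dn n26 (by decide)
      | exact dn n27 (by decide)
      | exact dc cUW (by decide)
      | exact dn n35 (by decide)
      | exact dn n36 (by decide)
      | exact dn n37 (by decide)
      | exact dn n45 (by decide)
      | exact dn n46 (by decide)
      | exact dn n47 (by decide)
      | exact dc c56 (by decide)
      | exact dn n57 (by decide)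
      | exact dc c67 (by decide)
  have sep : ∀ t < k, ∀ Z : Finset V, Z = P (r t) ∨ Z = Q (r t) → ∀ a : Fin 8, Nb D (g a) Z := by
    intro t ht Z hZ a
    have hC' : Nb D C Z := by
      rcases hZ with rfl | rfl
      · exact ⟨(hO _ (hrI t ht)).1, fun h => hR _ (hr t ht) (Or.inl h)⟩
      · exact ⟨(hO _ (hrI t ht)).2, fun h => hR _ (hr t ht) (Or.inr h)⟩
    fin_cases a
    · exact hC'
    · exact blk hM hi (hrI t ht) (hri t ht) hX hZ
    · exact blk hM hi (hrI t ht) (hri t ht) hY hZ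
    · exact blk hM hj (hrI t ht) (hrj t ht) hU hZ
    · exact blk hM hj (hrI t ht) (hrj t ht) hW hZ
    · exact (unt hU0 (hrI t ht) hZ).symm
    · exact (unt hU1 (hrI t ht) hZ).symm
    · exact (unt hU2 (hrI t ht) hZ).symm
  refine hS g (fun t => P (r t)) (fun t => Q (r t)) ⟨?_, ?_, ?_, ?_, ?_, ?_, ?_, ?_, ?_, ?_, ?_⟩
  · intro a
    fin_cases a
    · exact hC
    · exact neX
    · exact neY
    · exact neU
    · exact neW
    · exact hB0
    · exact hB1
    · exact hB2
  · exact fun t ht => hM.pne _ (hrI t ht)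
  · exact fun t ht => hM.qne _ (hrI t ht)
  · intro a b hab
    rcases lt_or_gt_of_ne hab with h | h
    · exact (key a b h).1
    · exact (key b a h).1.symm
  · intro a b hab
    rcases lt_or_gt_of_ne hab with h | h
    · exact (key a b h).2
    · have h1 := (key b a h).2
      exact ⟨fun h2 => spE_symm (h1.1 (csymm h2)), fun h2 => csymm (h1.2 (spE_symm h2))⟩
  · exact fun a t ht => sep t ht _ (Or.inl rfl) a
  · exact fun a t ht => sep t ht _ (Or.inr rfl) a
  · exact fun t ht => cdis (hM.pq _ (hrI t ht))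
  · exact fun t ht u hu htu => blk hM (hrI t ht) (hrI u hu) (fun h => htu (hrinj t ht u hu h))
      (Or.inl rfl) (Or.inl rfl)
  · exact fun t ht u hu htu => blk hM (hrI t ht) (hrI u hu) (fun h => htu (hrinj t ht u hu h))
      (Or.inl rfl) (Or.inr rfl)
  · exact fun t ht u hu htu => blk hM (hrI t ht) (hrI u hu) (fun h => htu (hrinj t ht u hu h))
      (Or.inr rfl) (Or.inr rfl)

end Pool.Agent.MPd439b2.SA
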