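import Pool.Agent.Lib.MP_d439b2_co.SA.SpecC
import Pool.Agent.Lib.MP_d439b2_co.SA.L3

/-!
# MP_d439b2_co, SA, C9: non-neighbours of a `B`-full vertex are close to each other
-/

set_option autoImplicit false

namespace Pool.Agent.MPd439b2.SA

open Pool.Agent.MPd439b2 Pool.Agent.MPd439b2.W

namespace GXx

variable {V : Type} {D : SimpleGraph V}

theorem cmp_ss {x y : V} : Cmp D {x} {y} ↔ D.Adj x y := by
  constructor
  · intro h
    exact h x (Finset.mem_singleton_self x) y (Finset.mem_singleton_self y)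
  · intro h a ha b hb
    rw [Finset.mem_singleton.1 ha, Finset.mem_singleton.1 hb]
    exact h

theorem cmp_sp [DecidableEq V] {x y z : V} : Cmp D {x} {y, z} ↔ D.Adj x y ∧ D.Adj x z := by
  constructor
  · intro h
    exact ⟨h x (Finset.mem_singleton_self x) y (by simp),
      h x (Finset.mem_singleton_self x) z (by simp)⟩
  · rintro ⟨h1, h2⟩ a ha b hb
    rw [Finset.mem_singleton.1 ha]
    rcases Finset.mem_insert.1 hb with h | h
    · rw [h]
      exact h1
    · rw [Finset.mem_singleton.1 h]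
      exact h2

theorem dis_ss {x y : V} (h : x ≠ y) : Disjoint ({x} : Finset V) {y} := by
  rw [Finset.disjoint_singleton]
  exact h

theorem dis_sp [DecidableEq V] {x y z : V} (h1 : x ≠ y) (h2 : x ≠ z) :
    Disjoint ({x} : Finset V) {y, z} := by
  rw [Finset.disjoint_singleton_left, Finset.mem_insert, Finset.mem_singleton, not_or]
  exact ⟨h1, h2⟩

theorem dis_pp [DecidableEq V] {x x' y z : V} (h1 : x ≠ y) (h2 : x ≠ z) (h3 : x' ≠ y)
    (h4 : x' ≠ z) : Disjoint ({x, x'} : Finset V) {y, z} := by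
  rw [Finset.disjoint_insert_left, Finset.mem_insert, Finset.mem_singleton, not_or]
  exact ⟨⟨h1, h2⟩, dis_sp h3 h4⟩

/-- a vertex with two neighbours among the `b j` is no vertex of the matching -/
theorem out {n : ℕ} {a b : ℕ → V} (hI : IM D n a b) {v : V} {i j : ℕ} (hi : i < n) (hj : j < n)
    (hij : i ≠ j) (h1 : D.Adj v (b i)) (h2 : D.Adj v (b j)) :
    (∀ l < n, a l ≠ v) ∧ ∀ l < n, b l ≠ v := by
  refine ⟨fun l hl h => ?_, fun l hl h => ?_⟩
  · subst h
    exact hij (((hI l hl i hi).1.1 h1).symm.trans ((hI l hl j hj).1.1 h2))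
  · subst h
    exact (hI l hl i hi).2.2 h1

end GXx

theorem pGX : S_GX := by
  classical
  intro k n V D a b x hT hN hF g z y c hg hcn hy hinj hgz hz hzn
  obtain ⟨z3, z2, z1⟩ := hzn
  have hI := hF.lad.im
  obtain ⟨m, hm⟩ : ∃ m : ℕ → ℕ, ∀ j, m j = if j = n - 2 then 0 else if j = n - 1 then 1 else
    j - c + 2 := ⟨_, fun _ => rfl⟩
  obtain ⟨I, hIm⟩ : ∃ I : Finset ℕ, ∀ i, i ∈ I ↔ (c ≤ i ∧ i < c + k) ∨ i = n - 2 ∨ i = n - 1 :=
    ⟨Finset.Ico c (c + k) ∪ {n - 2, n - 1}, fun i => by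
      rw [Finset.mem_union, Finset.mem_Ico, Finset.mem_insert, Finset.mem_singleton]⟩
  have hmlt : ∀ i ∈ I, m i < k + 2 := by
    intro i hi
    rw [hm]
    rcases (hIm i).1 hi with h | h | h
    · rw [if_neg (by omega), if_neg (by omega)]
      omega
    · rw [if_pos h]
      omega
    · rw [if_neg (by omega), if_pos h]
      omega
  have hminj : ∀ i ∈ I, ∀ j ∈ I, m i = m j → i = j := by
    intro i hi j hj h
    rw [hm, hm] at h
    rcases (hIm i).1 hi with h' | h' | h' <;> rcases (hIm j).1 hj with h'' | h'' | h''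
    · rw [if_neg (by omega), if_neg (by omega), if_neg (by omega), if_neg (by omega)] at h
      omega
    · rw [if_neg (by omega), if_neg (by omega), if_pos h''] at h
      omega
    · rw [if_neg (by omega), if_neg (by omega), if_neg (by omega), if_pos h''] at h
      omega
    · rw [if_pos h', if_neg (by omega), if_neg (by omega)] at h
      omega
    · omega
    · rw [if_pos h', if_neg (by omega), if_pos h''] at h
      omega
    · rw [if_neg (by omega), if_pos h', if_neg (by omega), if_neg (by omega)] at h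
      omega
    · rw [if_neg (by omega), if_pos h', if_pos h''] at h
      omega
    · omega
  have hIn : ∀ i ∈ I, c ≤ i ∧ i < n ∧ i ≠ n - 3 := by
    intro i hi
    rcases (hIm i).1 hi with h | h | h <;> omega
  -- the vertices `y`
  have hyb : ∀ i < k + 2, ∀ j, c ≤ j → j < n → D.Adj (y i) (b j) := fun i hi => (hy i hi).2.2
  have hyo : ∀ i < k + 2, (∀ l < n, a l ≠ y i) ∧ ∀ l < n, b l ≠ y i := fun i hi =>
    GXx.out hI (i := n - 2) (j := n - 1) (by omega) (by omega) (by omega)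
      (hyb i hi _ (by omega) (by omega)) (hyb i hi _ (by omega) (by omega))
  have hzo : (∀ l < n, a l ≠ z) ∧ ∀ l < n, b l ≠ z :=
    GXx.out hI (i := n - 2) (j := n - 1) (by omega) (by omega) (by omega) z2 z1
  have hza : ∀ l < n, ¬ D.Adj z (a l) := fun l hl => hF.ex z (n - 1) (by omega) l hl z1
  have hgb : ∀ l < n, ¬ D.Adj g (b l) := fun l hl h => hT g (a l) (b l) (hg l hl) h (hI.edge hl)
  have hgbn : ∀ l < n, g ≠ b l := by
    intro l hl h
    obtain ⟨j, hj, hjl⟩ : ∃ j < n, j ≠ l := by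
      by_cases h0 : l = 0
      · exact ⟨1, by omega, by omega⟩
      · exact ⟨0, by omega, fun h => h0 h.symm⟩
    have h2 := hg j hj
    rw [h] at h2
    exact hjl ((hI j hj l hl).1.1 h2.symm)
  have hgan : ∀ l < n, g ≠ a l := fun l hl h => (hg l hl).ne h
  have hgy : ∀ i < k + 2, g ≠ y i := by
    intro i hi h
    refine hF.ex (y i) (n - 1) (by omega) 0 (by omega) (hyb i hi _ (by omega) (by omega)) ?_
    rw [← h]
    exact hg 0 (by omega)
  have hB : BMt D I (fun i => {b i}) (fun i => {a i, y (m i)}) := by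
    refine ⟨fun i _ => Finset.singleton_nonempty _, fun i _ => Finset.insert_nonempty _ _, ?_, ?_,
      ?_, ?_⟩
    · intro i hi
      exact GXx.cmp_sp.2 ⟨(hI.edge (hIn i hi).2.1).symm,
        (hyb _ (hmlt i hi) i (hIn i hi).1 (hIn i hi).2.1).symm⟩
    · intro i hi j hj hij
      exact ⟨GXx.dis_ss fun h => hij (hI.inj_b (hIn i hi).2.1 (hIn j hj).2.1 h),
        fun h => (hI i (hIn i hi).2.1 j (hIn j hj).2.1).2.2 (GXx.cmp_ss.1 h)⟩
    · intro i hi j hj hij
      refine ⟨GXx.dis_sp (fun h => hI.ne_ab (hIn j hj).2.1 (hIn i hi).2.1 h.symm)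
        ((hyo _ (hmlt j hj)).2 i (hIn i hi).2.1), fun h => ?_⟩
      exact hij ((hI j (hIn j hj).2.1 i (hIn i hi).2.1).1.1 (GXx.cmp_sp.1 h).1.symm).symm
    · intro i hi j hj hij
      refine ⟨GXx.dis_pp (fun h => hij (hI.inj_a (hIn i hi).2.1 (hIn j hj).2.1 h))
        ((hyo _ (hmlt j hj)).1 i (hIn i hi).2.1)
        (fun h => (hyo _ (hmlt i hi)).1 j (hIn j hj).2.1 h.symm)
        (fun h => hij (hminj i hi j hj (hinj _ (hmlt i hi) _ (hmlt j hj) h))), fun h => ?_⟩
      exact (hI i (hIn i hi).2.1 j (hIn j hj).2.1).2.1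
        (h (a i) (Finset.mem_insert_self _ _) (a j) (Finset.mem_insert_self _ _))
  have hR := pL3 k V D I (fun i => {b i}) (fun i => {a i, y (m i)}) {z} {b (n - 3)} {a (n - 3)} {g}
    (n - 2) (n - 1) hT hN hB (Finset.singleton_nonempty _) (Finset.singleton_nonempty _)
    (Finset.singleton_nonempty _) (Finset.singleton_nonempty _)
    (fun i hi => ⟨GXx.dis_ss fun h => hzo.2 i (hIn i hi).2.1 h.symm,
      GXx.dis_sp (fun h => hzo.1 i (hIn i hi).2.1 h.symm)
        fun h => (hy _ (hmlt i hi)).2.1 h.symm⟩)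
    (fun i hi => ⟨GXx.dis_ss fun h => (hIn i hi).2.2 (hI.inj_b (by omega) (hIn i hi).2.1 h).symm,
      GXx.dis_sp (fun h => hI.ne_ab (hIn i hi).2.1 (by omega) h.symm)
        ((hyo _ (hmlt i hi)).2 _ (by omega)),
      fun h => (hI (n - 3) (by omega) i (hIn i hi).2.1).2.2 (GXx.cmp_ss.1 h),
      fun h => (hIn i hi).2.2 ((hI i (hIn i hi).2.1 (n - 3) (by omega)).1.1
        (GXx.cmp_sp.1 h).1.symm)⟩)
    (fun i hi => ⟨GXx.dis_ss fun h => hI.ne_ab (by omega) (hIn i hi).2.1 h,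
      GXx.dis_sp (fun h => (hIn i hi).2.2 (hI.inj_a (by omega) (hIn i hi).2.1 h).symm)
        ((hyo _ (hmlt i hi)).1 _ (by omega)),
      fun h => (hIn i hi).2.2 ((hI (n - 3) (by omega) i (hIn i hi).2.1).1.1
        (GXx.cmp_ss.1 h)).symm,
      fun h => (hI (n - 3) (by omega) i (hIn i hi).2.1).2.1 (GXx.cmp_sp.1 h).1⟩)
    (fun i hi => ⟨GXx.dis_ss (hgbn i (hIn i hi).2.1),
      GXx.dis_sp (hgan i (hIn i hi).2.1) (hgy _ (hmlt i hi)),
      fun h => hgb i (hIn i hi).2.1 (GXx.cmp_ss.1 h),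
      fun h => (hy _ (hmlt i hi)).1 (GXx.cmp_sp.1 h).2⟩)
    (GXx.dis_ss fun h => hzo.1 _ (by omega) h.symm)
    (GXx.dis_ss fun h => hgb (n - 1) (by omega) (h ▸ z1))
    (GXx.dis_ss fun h => hgbn _ (by omega) h.symm)
    (GXx.cmp_ss.2 z3) (GXx.cmp_ss.2 (hI.edge (by omega)).symm)
    (GXx.cmp_ss.2 (hg _ (by omega)).symm) (fun h => hgz (GXx.cmp_ss.1 h).symm)
    ((hIm _).2 (Or.inr (Or.inl rfl))) ((hIm _).2 (Or.inr (Or.inr rfl))) (by omega)
    (Or.inl (GXx.cmp_ss.2 z2)) (Or.inl (GXx.cmp_ss.2 z1)) (Finset.Ico c (c + k))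
    (fun i hi => (hIm i).2 (Or.inl (Finset.mem_Ico.1 hi)))
    (fun r hr => by
      have hr' := Finset.mem_Ico.1 hr
      rintro (h | h)
      · exact hz r hr'.2 (GXx.cmp_ss.1 h)
      · exact hza r (by omega) (GXx.cmp_sp.1 h).1)
  rw [Nat.card_Ico] at hR
  omega

end Pool.Agent.MPd439b2.SA
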