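import Pool.Agent.Lib.MP_d439b2_co.SA.SpecC

/-!
# MP_d439b2_co, SA, C11: components with an edge which is not touched by a `B`-full vertex
-/

set_option autoImplicit false

namespace Pool.Agent.MPd439b2.SA

open Pool.Agent.MPd439b2 Pool.Agent.MPd439b2.W

namespace NCx

variable {V : Type} {D : SimpleGraph V} {U X : Set V} {N : ℕ} {KA KB : ℕ → Set V}

/-- different components are anticomplete -/
theorem ant (h : CK D U X N KA KB) {s t : ℕ} (hs : s < N) (ht : t < N) (hne : s ≠ t) {p q : V}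
    (hp : p ∈ KA s ∪ KB s) (hq : q ∈ KA t ∪ KB t) : ¬ D.Adj p q := by
  intro hpq
  have h1 := (h.comp s hs).2.2 q ((h.comp t ht).1 hq)
  have h2 : q ∉ KA s ∪ KB s := fun h3 => Set.disjoint_left.mp (h.dis s hs t ht hne) h3 hq
  exact h1 ⟨h2, p, hp, hpq⟩

/-- neighbours of a component -/
theorem mem (h : CK D U X N KA KB) {s : ℕ} (hs : s < N) {p q : V}
    (hp : p ∈ KA s ∪ KB s) (hq : q ∈ U) (hpq : D.Adj p q) : q ∈ KA s ∪ KB s := by
  by_contra h2
  exact (h.comp s hs).2.2 q hq ⟨h2, p, hp, hpq⟩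

end NCx

open NCx in
theorem pNC (hPt : S_Pt) (hIdx : S_Idx) : S_NC := by
  classical
  intro k n lo hi N V D a b x KA KB u v ht hk hF hn hC hbN g z q S hg hz hq1 hq2 hSk hS
  obtain ⟨l, hl, hli⟩ := hIdx n lo hi N V D a b x KA KB ht hF hn hC hbN
  have him := hF.lad.im
  have hn1 : n - 1 < n := by omega
  have hqn : q < n := by omega
  -- `z` is in `X`
  have hzX : z ∈ XM D n b lo hi := ⟨q, by omega, by omega, hz⟩
  have hzlt : ∀ j, j < q → ¬ D.Adj z (b j) := by
    intro j hj h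
    rcases hz with h1 | h1
    · have := (h1 j (by omega)).mp h
      omega
    · have := (h1 j (by omega)).mp h
      omega
  have hzl : D.Adj z (b (n - 1)) := by
    rcases hz with h1 | h1
    · exact (h1 (n - 1) hn1).mpr (by omega)
    · exact (h1 (n - 1) hn1).mpr (by omega)
  have hza : ∀ j < n, ¬ D.Adj z (a j) := fun j hj => hF.ex z (n - 1) hn1 j hj hzl
  have hgb : ∀ j < n, ¬ D.Adj g (b j) := fun j hj h => ht g (a j) (b j) (hg j hj) h (him.edge hj)
  -- the component of `a (n - 1)`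
  have hbU : b (n - 1) ∈ KA N ∪ KB N := Or.inr hbN
  have haL : a (n - 1) ∈ LtS D n a b := by
    intro i hi' j hj h1 h2
    have key : ∀ i < n, (D.Adj (a (n - 1)) (a i) ∨ D.Adj (a (n - 1)) (b i)) → n - 1 = i := by
      intro i hi' h
      rcases h with h | h
      · exact absurd h (him (n - 1) hn1 i hi').2.1
      · exact (him (n - 1) hn1 i hi').1.mp h
    rw [← key i hi' h1, ← key j hj h2]
  have haU : a (n - 1) ∈ KA N ∪ KB N := mem hC (Nat.lt_succ_self N) hbU haL (him.edge hn1).symm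
  -- two free indices
  obtain ⟨i, j, hi1, hi2, hj1, hj2, hij, hiS, hjS⟩ : ∃ i j, lo < i ∧ i < q ∧ lo < j ∧ j < q ∧
      i ≠ j ∧ l i ∉ S ∧ l j ∉ S := by
    have h1 : ((Finset.Ioo lo q).filter fun i => l i ∈ S).card ≤ k := by
      rw [← hSk]
      refine Finset.card_le_card_of_injOn l (fun i hi' => ?_) fun i hi' j hj' h => ?_
      · exact (Finset.mem_filter.mp hi').2
      · have h2 := Finset.mem_Ioo.mp (Finset.mem_filter.mp hi').1
        have h3 := Finset.mem_Ioo.mp (Finset.mem_filter.mp hj').1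
        exact hli i j h2.1 (by omega) h3.1 (by omega) h
    have h2 := Finset.card_filter_add_card_filter_not (s := Finset.Ioo lo q) fun i => l i ∈ S
    rw [Nat.card_Ioo] at h2
    have h3 : 1 < ((Finset.Ioo lo q).filter fun i => ¬ l i ∈ S).card := by omega
    obtain ⟨i, hi', j, hj', hne⟩ := Finset.one_lt_card.mp h3
    rw [Finset.mem_filter, Finset.mem_Ioo] at hi' hj'
    exact ⟨i, j, hi'.1.1, hi'.1.2, hj'.1.1, hj'.1.2, hne, hi'.2, hj'.2⟩
  obtain ⟨hli1, hli2, hli3⟩ := hl i hi1 (by omega)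
  obtain ⟨hlj1, hlj2, hlj3⟩ := hl j hj1 (by omega)
  have hin : i < n := by omega
  have hjn : j < n := by omega
  have hlij : l i ≠ l j := fun h => hij (hli i j hi1 (by omega) hj1 (by omega) h)
  -- the low edges
  let e := S.equivFinOfCardEq hSk
  let σ : ℕ → ℕ := fun t => if h : t < k then (e.symm ⟨t, h⟩ : ℕ) else 0
  have hσ : ∀ t (h : t < k), σ t = (e.symm ⟨t, h⟩ : ℕ) := fun t h => dif_pos h
  have hσS : ∀ t < k, σ t ∈ S := fun t h => by
    rw [hσ t h]
    exact (e.symm ⟨t, h⟩).2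
  have hσi : ∀ t < k, ∀ t' < k, σ t = σ t' → t = t' := fun t h t' h' heq => by
    rw [hσ t h, hσ t' h'] at heq
    exact Fin.mk.inj_iff.mp (e.symm.injective (Subtype.ext heq))
  have hσN : ∀ t < k, σ t < N + 1 := fun t h => Nat.lt_succ_of_lt (hS _ (hσS t h)).1
  have hpu : ∀ t < k, u (σ t) ∈ KA (σ t) ∪ KB (σ t) := fun t h => Or.inl (hS _ (hσS t h)).2.1
  have hpv : ∀ t < k, v (σ t) ∈ KA (σ t) ∪ KB (σ t) := fun t h => Or.inr (hS _ (hσS t h)).2.2.1
  have himS : IM D k (fun t => u (σ t)) fun t => v (σ t) := by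
    intro t h t' h'
    by_cases heq : t = t'
    · subst heq
      exact ⟨iff_of_true (hS _ (hσS t h)).2.2.2.1 rfl, SimpleGraph.irrefl _, SimpleGraph.irrefl _⟩
    · have hne : σ t ≠ σ t' := fun h1 => heq (hσi t h t' h' h1)
      exact ⟨iff_of_false (ant hC (hσN t h) (hσN t' h') hne (hpu t h) (hpv t' h')) heq,
        ant hC (hσN t h) (hσN t' h') hne (hpu t h) (hpu t' h'),
        ant hC (hσN t h) (hσN t' h') hne (hpv t h) (hpv t' h')⟩
  -- vertices of another component do not touch the low edges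
  have hlow : ∀ s < N + 1, s ∉ S → ∀ w ∈ KA s ∪ KB s, ∀ t < k,
      ¬ D.Adj w (u (σ t)) ∧ ¬ D.Adj w (v (σ t)) := by
    intro s hs hsS w hw t h
    have hne : s ≠ σ t := fun h1 => hsS (h1 ▸ hσS t h)
    exact ⟨ant hC hs (hσN t h) hne hw (hpu t h), ant hC hs (hσN t h) hne hw (hpv t h)⟩
  have hlg : ∀ t < k, ¬ D.Adj g (u (σ t)) ∧ ¬ D.Adj g (v (σ t)) := fun t h =>
    ⟨(hS _ (hσS t h)).2.2.2.2.1, (hS _ (hσS t h)).2.2.2.2.2.1⟩
  have hlz : ∀ t < k, ¬ D.Adj z (u (σ t)) ∧ ¬ D.Adj z (v (σ t)) := fun t h =>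
    ⟨hC.xa z hzX _ (hσN t h) _ (hS _ (hσS t h)).2.1, (hS _ (hσS t h)).2.2.2.2.2.2⟩
  have hNS : N ∉ S := fun h => absurd (hS N h).1 (lt_irrefl N)
  have hai : a i ∈ KA (l i) ∪ KB (l i) := Or.inl hli3
  have hbi : b i ∈ KA (l i) ∪ KB (l i) := Or.inr hli2
  have haj : a j ∈ KA (l j) ∪ KB (l j) := Or.inl hlj3
  have hbj : b j ∈ KA (l j) ∪ KB (l j) := Or.inr hlj2
  have hliN : l i < N + 1 := Nat.lt_succ_of_lt hli1
  have hljN : l j < N + 1 := Nat.lt_succ_of_lt hlj1
  have hNN : N < N + 1 := Nat.lt_succ_self N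
  have hgz : D.Adj g z := by
    by_contra hgz
    refine hPt V D k g (a i) (b i) (a j) (b j) (a (n - 1)) (b (n - 1)) z (fun t => u (σ t))
      (fun t => v (σ t)) ht hk (hg i hin) (him.edge hin) (hg j hjn) (him.edge hjn)
      (hg (n - 1) hn1) (him.edge hn1) hzl.symm hgz
      (fun h => hij ((him i hin j hjn).1.mp h))
      (ant hC hliN hNN (by omega) hai hbU) (fun h => hza i hin h.symm)
      (fun h => hij ((him j hjn i hin).1.mp h).symm)
      (ant hC hljN hNN (by omega) haj hbU) (fun h => hza j hjn h.symm)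
      (ant hC hNN hliN (by omega) haU hbi) (ant hC hNN hljN (by omega) haU hbj)
      (him i hin j hjn).2.2 (ant hC hliN hNN (by omega) hbi hbU)
      (fun h => hzlt i hi2 h.symm) (ant hC hljN hNN (by omega) hbj hbU)
      (fun h => hzlt j hj2 h.symm) himS fun t h w hw => ?_
    simp only [Set.mem_insert_iff, Set.mem_singleton_iff] at hw
    rcases hw with rfl | rfl | rfl | rfl | rfl | rfl | rfl | rfl
    · exact hlg t h
    · exact hlow _ hliN hiS _ hai t h
    · exact hlow _ hliN hiS _ hbi t h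
    · exact hlow _ hljN hjS _ haj t h
    · exact hlow _ hljN hjS _ hbj t h
    · exact hlow _ hNN hNS _ haU t h
    · exact hlow _ hNN hNS _ hbU t h
    · exact hlz t h
  refine ⟨hgz, fun m hm u' hu' v' hv' huv hzv => ?_⟩
  by_contra hcon
  push Not at hcon
  have hmN : m < N + 1 := Nat.lt_succ_of_lt hm
  have hzall : ∀ w ∈ KB m, D.Adj z w := by
    rcases hC.xb z hzX m hmN with h | h
    · exact h
    · exact absurd hzv (h v' hv')
  have hmS : m ∉ S := fun h => (hS m h).2.2.2.2.2.2 (hzall _ (hS m h).2.2.1)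
  have hmi : l i ≠ m := fun h => hzlt i hi2 (hzall _ (h ▸ hli2))
  have hmj : l j ≠ m := fun h => hzlt j hj2 (hzall _ (h ▸ hlj2))
  have hu'U : u' ∈ KA m ∪ KB m := Or.inl hu'
  have hv'U : v' ∈ KA m ∪ KB m := Or.inr hv'
  refine hPt V D k g (a i) (b i) (a j) (b j) z v' u' (fun t => u (σ t))
    (fun t => v (σ t)) ht hk (hg i hin) (him.edge hin) (hg j hjn) (him.edge hjn)
    hgz hzv huv.symm hcon.1
    (fun h => hij ((him i hin j hjn).1.mp h))
    (ant hC hliN hmN hmi hai hv'U) (ant hC hliN hmN hmi hai hu'U)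
    (fun h => hij ((him j hjn i hin).1.mp h).symm)
    (ant hC hljN hmN hmj haj hv'U) (ant hC hljN hmN hmj haj hu'U)
    (hzlt i hi2) (hzlt j hj2)
    (him i hin j hjn).2.2 (ant hC hliN hmN hmi hbi hv'U)
    (ant hC hliN hmN hmi hbi hu'U) (ant hC hljN hmN hmj hbj hv'U)
    (ant hC hljN hmN hmj hbj hu'U) himS fun t h w hw => ?_
  simp only [Set.mem_insert_iff, Set.mem_singleton_iff] at hw
  rcases hw with rfl | rfl | rfl | rfl | rfl | rfl | rfl | rfl
  · exact hlg t h
  · exact hlow _ hliN hiS _ hai t h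
  · exact hlow _ hliN hiS _ hbi t h
  · exact hlow _ hljN hjS _ haj t h
  · exact hlow _ hljN hjS _ hbj t h
  · exact hlz t h
  · exact hlow _ hmN hmS _ hv'U t h
  · exact hlow _ hmN hmS _ hu'U t h

end Pool.Agent.MPd439b2.SA
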