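import Pool.Agent.Lib.MP_d439b2_co.SA.SpecC
import Pool.Agent.Lib.MP_d439b2_co.SA.L3
import Pool.Agent.Lib.MP_d439b2_co.SA.R

/-!
# MP_d439b2_co, SA, C3: mediums see the same side of an edge of the light graph
-/

set_option autoImplicit false

namespace Pool.Agent.MPd439b2.SA

open Pool.Agent.MPd439b2 Pool.Agent.MPd439b2.W

namespace Sidex

variable {V : Type} {D : SimpleGraph V}

theorem cs (x y : V) : Cmp D {x} {y} ↔ D.Adj x y := by
  unfold Cmp
  constructor
  · intro h
    exact h x (Finset.mem_singleton_self x) y (Finset.mem_singleton_self y)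
  · intro h p hp q hq
    rw [Finset.mem_singleton.mp hp, Finset.mem_singleton.mp hq]
    exact h

/-- an induced matching with the index set `I` gives a block matching -/
theorem bmt {I : Finset ℕ} {p q : ℕ → V}
    (h : ∀ i ∈ I, ∀ j ∈ I, (D.Adj (p i) (q j) ↔ i = j) ∧ ¬ D.Adj (p i) (p j) ∧
      ¬ D.Adj (q i) (q j)) : BMt D I (fun i => {p i}) (fun i => {q i}) where
  pne i _ := Finset.singleton_nonempty (p i)
  qne i _ := Finset.singleton_nonempty (q i)
  pq i hi := (cs _ _).mpr ((h i hi i hi).1.2 rfl)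
  pp i hi j hj hij := by
    refine ⟨Finset.disjoint_singleton.mpr fun he => hij ?_, ?_⟩
    · have h1 := (h j hj j hj).1.2 rfl
      rw [← he] at h1
      exact (h i hi j hj).1.1 h1
    · rw [cs]
      exact (h i hi j hj).2.1
  px i hi j hj hij := by
    refine ⟨Finset.disjoint_singleton.mpr fun he => ?_, ?_⟩
    · have h1 := (h j hj j hj).1.2 rfl
      rw [← he] at h1
      exact (h j hj i hi).2.1 h1
    · rw [cs]
      exact fun h2 => hij ((h i hi j hj).1.1 h2)
  qq i hi j hj hij := by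
    refine ⟨Finset.disjoint_singleton.mpr fun he => hij ?_, ?_⟩
    · have h1 := (h i hi i hi).1.2 rfl
      rw [he] at h1
      exact (h i hi j hj).1.1 h1
    · rw [cs]
      exact (h i hi j hj).2.2

open Classical in
/-- all but two indices are avoided by two small sets -/
theorem free {n : ℕ} {p q T : ℕ → Prop} (hp : Few n p) (hq : Few n q)
    (hT : ∀ i, ¬ p i → ¬ q i → T i) (S : Finset ℕ)
    (hS : ∀ i ∈ S, i < n) : S.card ≤ (S.filter T).card + 2 := by
  have h1 : (S.filter fun i => p i).card ≤ 1 := by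
    rw [Finset.card_le_one]
    intro i hi j hj
    rw [Finset.mem_filter] at hi hj
    exact hp i (hS i hi.1) j (hS j hj.1) hi.2 hj.2
  have h2 : (S.filter fun i => q i).card ≤ 1 := by
    rw [Finset.card_le_one]
    intro i hi j hj
    rw [Finset.mem_filter] at hi hj
    exact hq i (hS i hi.1) j (hS j hj.1) hi.2 hj.2
  have h3 : S ⊆ S.filter T ∪ ((S.filter fun i => p i) ∪ (S.filter fun i => q i)) := by
    intro i hi
    rw [Finset.mem_union, Finset.mem_union, Finset.mem_filter, Finset.mem_filter, Finset.mem_filter]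
    by_cases h4 : p i
    · exact Or.inr (Or.inl ⟨hi, h4⟩)
    · by_cases h5 : q i
      · exact Or.inr (Or.inr ⟨hi, h5⟩)
      · exact Or.inl ⟨hi, hT i h4 h5⟩
  have h4 := Finset.card_le_card h3
  have h5 := Finset.card_union_le (S.filter T) ((S.filter fun i => p i) ∪
      (S.filter fun i => q i))
  have h6 := Finset.card_union_le (S.filter fun i => p i) (S.filter fun i => q i)
  omega

/-- a vertex with a position `q`, `q + 8 ≤ n` -/
theorem psl {n : ℕ} {b : ℕ → V} {y : V} {q : ℕ} (h : Ps D n b y q) :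
    (∀ j < n, j < q → ¬ D.Adj y (b j)) ∧ ∀ j < n, q + 2 ≤ j → D.Adj y (b j) := by
  rcases h with h | h
  · refine ⟨fun j hj hjq h1 => ?_, fun j hj hjq => (h j hj).2 (by omega)⟩
    have h2 := (h j hj).1 h1
    omega
  · refine ⟨fun j hj hjq h1 => ?_, fun j hj hjq => (h j hj).2 (by omega)⟩
    have h2 := (h j hj).1 h1
    omega

/-- the ladder vertex sees the same end -/
theorem claim {k n : ℕ} {a b x : ℕ → V} (ht : TriFree D) (hN : NoSpi k D) (hF : Fr0 D n a b x)
    {y : V} {q : ℕ} (hy : Ps D n b y q) (hq : k + 8 ≤ q) (hqn : q + 8 ≤ n) {w u : V}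
    (hw : w ∈ LtS D n a b) (hu : u ∈ LtS D n a b) (hwu : D.Adj w u) (hyw : D.Adj y w) :
    D.Adj (x (k + 2)) w := by
  classical
  have him := hF.lad.im
  obtain ⟨y1, y2⟩ := psl hy
  have ya : ∀ j < n, ¬ D.Adj y (a j) := fun j hj =>
    hF.ex y (n - 1) (by omega) j hj (y2 (n - 1) (by omega) (by omega))
  have zb : ∀ j < n, (D.Adj (x (k + 2)) (b j) ↔ k + 2 ≤ j) := fun j hj =>
    hF.lad.xb (k + 2) (by omega) j hj
  have za : ∀ j < n, ¬ D.Adj (x (k + 2)) (a j) := fun j hj => hF.lad.xa (k + 2) (by omega) j hj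
  have hw' : Few n fun i => D.Adj w (a i) ∨ D.Adj w (b i) := hw
  have hu' : Few n fun i => D.Adj u (a i) ∨ D.Adj u (b i) := hu
  obtain ⟨T, hT⟩ : ∃ T : ℕ → Prop, T = fun i => ¬ (D.Adj w (a i) ∨ D.Adj w (b i)) ∧
    ¬ (D.Adj u (a i) ∨ D.Adj u (b i)) := ⟨_, rfl⟩
  have fr' : ∀ S : Finset ℕ, (∀ i ∈ S, i < n) → S.card ≤ (S.filter T).card + 2 :=
    fun S hS => free hw' hu' (fun i h1 h2 => by rw [hT]; exact ⟨h1, h2⟩) S hS
  have hTi : ∀ i, T i → ¬ D.Adj w (a i) ∧ ¬ D.Adj w (b i) ∧ ¬ D.Adj u (a i) ∧ ¬ D.Adj u (b i) := by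
    intro i hi
    rw [hT] at hi
    exact ⟨fun h => hi.1 (Or.inl h), fun h => hi.1 (Or.inr h), fun h => hi.2 (Or.inl h),
      fun h => hi.2 (Or.inr h)⟩
  obtain ⟨p, hp⟩ : ∃ p : ℕ → V, p = fun i => if i = n then w else b i := ⟨_, rfl⟩
  obtain ⟨r, hr⟩ : ∃ r : ℕ → V, r = fun i => if i = n then u else a i := ⟨_, rfl⟩
  have pn : p n = w := by rw [hp]; exact if_pos rfl
  have rn : r n = u := by rw [hr]; exact if_pos rfl
  have pi : ∀ i < n, p i = b i := fun i hi => by rw [hp]; exact if_neg (by omega)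
  have ri : ∀ i < n, r i = a i := fun i hi => by rw [hr]; exact if_neg (by omega)
  obtain ⟨I, hI⟩ : ∃ I : Finset ℕ, I = insert n ((Finset.range n).filter T) := ⟨_, rfl⟩
  have hIm : ∀ i ∈ I, i = n ∨ (i < n ∧ T i) := by
    intro i hi
    rw [hI, Finset.mem_insert, Finset.mem_filter, Finset.mem_range] at hi
    exact hi
  have hIn : n ∈ I := by rw [hI]; exact Finset.mem_insert_self _ _
  have hIi : ∀ i, i < n → T i → i ∈ I := by
    intro i hi hTi
    rw [hI]
    exact Finset.mem_insert_of_mem (Finset.mem_filter.mpr ⟨Finset.mem_range.mpr hi, hTi⟩)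
  have hB : BMt D I (fun i => {p i}) (fun i => {r i}) := by
    apply bmt
    intro i hi j hj
    rcases hIm i hi with rfl | ⟨hin, hTi'⟩
    · rcases hIm j hj with rfl | ⟨hjn, hTj'⟩
      · rw [pn, rn]
        exact ⟨⟨fun _ => rfl, fun _ => hwu⟩, D.loopless.irrefl _, D.loopless.irrefl _⟩
      · rw [pn, rn, pi j hjn, ri j hjn]
        obtain ⟨t1, t2, t3, t4⟩ := hTi j hTj'
        exact ⟨⟨fun h => absurd h t1, fun h => by omega⟩, t2, t3⟩
    · rcases hIm j hj with rfl | ⟨hjn, hTj'⟩
      · rw [pn, rn, pi i hin, ri i hin]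
        obtain ⟨t1, t2, t3, t4⟩ := hTi i hTi'
        exact ⟨⟨fun h => absurd h.symm t4, fun h => by omega⟩, fun h => t2 h.symm,
          fun h => t3 h.symm⟩
      · rw [pi i hin, ri i hin, pi j hjn, ri j hjn]
        exact him.swap i hin j hjn
  have hTc : ∀ (v : V) (i : ℕ), Tc D (fun i => {p i}) (fun i => {r i}) {v} i ↔
      (D.Adj v (p i) ∨ D.Adj v (r i)) := by
    intro v i
    unfold Tc
    rw [cs, cs]
  have hTc' : ∀ (v : V) (i : ℕ), i < n → (Tc D (fun i => {p i}) (fun i => {r i}) {v} i ↔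
      (D.Adj v (b i) ∨ D.Adj v (a i))) := by
    intro v i hi
    rw [hTc, pi i hi, ri i hi]
  -- two vertices `b` which are neighbours: the vertex is off
  have off : ∀ v : V, D.Adj v (b (n - 1)) → D.Adj v (b (n - 2)) →
      Off I (fun i => {p i}) (fun i => {r i}) {v} := by
    intro v h1 h2 i hi
    have hvw : ∀ t ∈ LtS D n a b, v ≠ t := by
      rintro t ht rfl
      have h3 := ht (n - 1) (by omega) (n - 2) (by omega) (Or.inr h1) (Or.inr h2)
      omega
    rw [Finset.disjoint_singleton, Finset.disjoint_singleton]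
    rcases hIm i hi with rfl | ⟨hin, _⟩
    · rw [pn, rn]
      exact ⟨hvw w hw, hvw u hu⟩
    · rw [pi i hin, ri i hin]
      constructor
      · rintro rfl
        exact (him i hin (n - 1) (by omega)).2.2 h1
      · rintro rfl
        have h3 := (him i hin (n - 1) (by omega)).1.1 h1
        have h4 := (him i hin (n - 2) (by omega)).1.1 h2
        omega
  have offz := off (x (k + 2)) ((zb _ (by omega)).2 (by omega)) ((zb _ (by omega)).2 (by omega))
  have offy := off y (y2 _ (by omega) (by omega)) (y2 _ (by omega) (by omega))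
  have hzy : x (k + 2) ≠ y := by
    intro h
    have h1 := (zb (k + 2) (by omega)).2 le_rfl
    rw [h] at h1
    exact y1 (k + 2) (by omega) (by omega) h1
  obtain ⟨l, hl⟩ : ((Finset.Ico (q + 2) n).filter T).Nonempty := by
    rw [← Finset.card_pos]
    have h1 := fr' (Finset.Ico (q + 2) n) (fun i hi => (Finset.mem_Ico.mp hi).2)
    rw [Nat.card_Ico] at h1
    omega
  rw [Finset.mem_filter, Finset.mem_Ico] at hl
  have hzyn : ¬ D.Adj (x (k + 2)) y := fun h =>
    ht (b l) (x (k + 2)) y ((zb l hl.1.2).2 (by omega)).symm (y2 l hl.1.2 hl.1.1).symm h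
  have hR : ∃ R ⊆ I, k ≤ R.card ∧ ∀ s ∈ R, ¬ Tc D (fun i => {p i}) (fun i => {r i}) {x (k + 2)} s ∧
      ¬ Tc D (fun i => {p i}) (fun i => {r i}) {y} s := by
    refine ⟨(Finset.range (k + 2)).filter T, ?_, ?_, ?_⟩
    · intro s hs
      rw [Finset.mem_filter, Finset.mem_range] at hs
      exact hIi s (by omega) hs.2
    · have h1 := fr' (Finset.range (k + 2)) (fun i hi => by
        have := Finset.mem_range.mp hi
        omega)
      rw [Finset.card_range] at h1
      omega
    · intro s hs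
      rw [Finset.mem_filter, Finset.mem_range] at hs
      rw [hTc' _ s (by omega), hTc' _ s (by omega), zb s (by omega)]
      constructor
      · rintro (h | h)
        · omega
        · exact za s (by omega) h
      · rintro (h | h)
        · exact y1 s (by omega) (by omega) h
        · exact ya s (by omega) h
  have hij : ∃ i ∈ I, ∃ j ∈ I, i ≠ j ∧ Tc D (fun i => {p i}) (fun i => {r i}) {x (k + 2)} i ∧
      Tc D (fun i => {p i}) (fun i => {r i}) {x (k + 2)} j ∧
      ¬ Tc D (fun i => {p i}) (fun i => {r i}) {y} i ∧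
      ¬ Tc D (fun i => {p i}) (fun i => {r i}) {y} j := by
    obtain ⟨i, hi, j, hj, hne⟩ : ∃ i ∈ (Finset.Ico (k + 2) q).filter T,
        ∃ j ∈ (Finset.Ico (k + 2) q).filter T, i ≠ j := by
      rw [← Finset.one_lt_card]
      have h1 := fr' (Finset.Ico (k + 2) q) (fun i hi => by
        have := Finset.mem_Ico.mp hi
        omega)
      rw [Nat.card_Ico] at h1
      omega
    rw [Finset.mem_filter, Finset.mem_Ico] at hi hj
    have tz : ∀ s, k + 2 ≤ s → s < q → Tc D (fun i => {p i}) (fun i => {r i}) {x (k + 2)} s := by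
      intro s h1 h2
      rw [hTc' _ s (by omega), zb s (by omega)]
      exact Or.inl h1
    have ty : ∀ s, s < q → ¬ Tc D (fun i => {p i}) (fun i => {r i}) {y} s := by
      intro s h2
      rw [hTc' _ s (by omega)]
      rintro (h | h)
      · exact y1 s (by omega) (by omega) h
      · exact ya s (by omega) h
    exact ⟨i, hIi i (by omega) hi.2, j, hIi j (by omega) hj.2, hne, tz i hi.1.1 hi.1.2,
      tz j hj.1.1 hj.1.2, ty i hi.1.2, ty j hj.1.2⟩
  have main := pR pL3 k V D I (fun i => {p i}) (fun i => {r i}) {x (k + 2)} {y} ht hN hB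
    (Finset.singleton_nonempty _) (Finset.singleton_nonempty _)
    (Finset.disjoint_singleton.mpr hzy) offz offy hR hij
  have tyn : Tc D (fun i => {p i}) (fun i => {r i}) {y} n := by
    rw [hTc, pn]
    exact Or.inl hyw
  have tzn : Tc D (fun i => {p i}) (fun i => {r i}) {x (k + 2)} n :=
    (main l (hIi l hl.1.2 hl.2) ((hTc' _ l hl.1.2).2 (Or.inl ((zb l hl.1.2).2 (by omega))))
      ((hTc' _ l hl.1.2).2 (Or.inl (y2 l hl.1.2 hl.1.1)))).1 n hIn tyn
  have h3 := (main n hIn tzn tyn).2.1 (fun h => hzyn ((cs _ _).1 h))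
  rw [cs, cs, cs, cs, pn, rn] at h3
  rcases h3 with h3 | h3
  · exact h3.1
  · exact absurd hwu (ht y w u hyw h3.2)

end Sidex

open Sidex in
/-- **C3.** Two mediums do not see the two ends of an edge of the light graph. -/
theorem pSide : S_Side := by
  intro k n V D a b x ht hN hF y y' q q' hy hy' hq hqn hq' hqn' w hw u hu hwu hyw hyu
  exact ht (x (k + 2)) w u (claim ht hN hF hy hq hqn hw hu hwu hyw)
    (claim ht hN hF hy' hq' hqn' hu hw hwu.symm hyu) hwu

end Pool.Agent.MPd439b2.SA
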