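import Pool.Agent.Lib.MP_d439b2_co.SA.SpecC
import Pool.Agent.Lib.MP_d439b2_co.L4.A1

/-!
# MP_d439b2_co, SA, C14: sets with three kinds of rows
-/

set_option autoImplicit false

namespace Pool.Agent.MPd439b2.SA

open Pool.Agent.MPd439b2 Pool.Agent.MPd439b2.W

/-- **C14.** -/
theorem pThree : S_Three := by
  intro V _ D Y T h
  have h1 := (LK.a1 V D).2.2.2.2.2 Y Yᶜ (Set.range fun i : Fin 3 => {b | b ∈ Yᶜ ∧ b ∈ T i})
    (fun a ha => by
      obtain ⟨i, hi⟩ := h a ha
      left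
      refine ⟨i, ?_⟩
      ext b
      constructor
      · rintro ⟨h2, h3⟩
        exact ⟨h2, (hi b h2).2 h3⟩
      · rintro ⟨h2, h3⟩
        exact ⟨h2, (hi b h2).1 h3⟩)
  refine le_trans h1 ?_
  rw [← Set.image_univ]
  refine (Set.ncard_image_le Set.finite_univ).trans ?_
  rw [Set.ncard_univ, Nat.card_eq_fintype_card, Fintype.card_fin]

end Pool.Agent.MPd439b2.SA
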