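import Pool.Agent.Lib.MP_d439b2_co.SA.SpecB
import Pool.Agent.Lib.MP_d439b2_co.SA.Sub0
import Pool.Agent.Lib.MP_d439b2_co.W.Dig
import Pool.Agent.Lib.MP_d439b2_co.W.Ind

/-!
# MP_d439b2_co, SA, B9: the second dichotomy (helper70)
-/

set_option autoImplicit false

namespace Pool.Agent.MPd439b2.SA

open Pool.Agent.MPd439b2 Pool.Agent.MPd439b2.W

namespace Tri3x

variable {V : Type} {D : SimpleGraph V}

/-- increasing enumeration -/
theorem enum (K : Finset ℕ) : ∃ f : ℕ → ℕ, (∀ t < K.card, f t ∈ K) ∧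
    ∀ t u, t < u → u < K.card → f t < f u := by
  refine ⟨fun t => if h : t < K.card then K.orderEmbOfFin rfl ⟨t, h⟩ else 0, fun t ht => ?_,
    fun t u htu hu => ?_⟩
  · simp only [dif_pos ht]
    exact K.orderEmbOfFin_mem rfl _
  · simp only [dif_pos (htu.trans hu), dif_pos hu]
    exact (K.orderEmbOfFin rfl).strictMono htu

/-- the comparison of the values of an increasing function -/
theorem lt_iff {m : ℕ} {f : ℕ → ℕ} (hf : ∀ t u, t < u → u < m → f t < f u) {t u : ℕ}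
    (ht : t < m) (hu : u < m) : f t < f u ↔ t < u := by
  constructor
  · intro h1
    rcases Nat.lt_trichotomy t u with h2 | h2 | h2
    · exact h2
    · rw [h2] at h1
      exact absurd h1 (lt_irrefl _)
    · have := hf u t h2 ht
      omega
  · intro h1
    exact hf t u h1 hu

theorem inj_of {m : ℕ} {f : ℕ → ℕ} (hf : ∀ t u, t < u → u < m → f t < f u) :
    ∀ i < m, ∀ j < m, f i = f j → i = j := by
  intro i hi j hj hij
  rcases Nat.lt_trichotomy i j with h | h | h
  · have := hf i j h hj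
    omega
  · exact h
  · have := hf j i h hi
    omega

open Classical in
/-- the number of the indices in the block which are not neighbours -/
noncomputable def Bz (D : SimpleGraph V) (a : ℕ → V) (v : V) (c l : ℕ) : Finset ℕ :=
  (Finset.Ico c (c + l)).filter fun j => ¬ D.Adj v (a j)

theorem mem_Bz {a : ℕ → V} {v : V} {c l j : ℕ} :
    j ∈ Bz D a v c l ↔ (c ≤ j ∧ j < c + l) ∧ ¬ D.Adj v (a j) := by
  classical
  unfold Bz
  rw [Finset.mem_filter, Finset.mem_Ico]

/-- kinds of vertices -/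
theorem kinds (hT : S_TraA) {k n ℓ T : ℕ} {a b x : ℕ → V} (ht : TriFree D) (hk : NoSpi k D)
    (hL : Lad D n a b x) (hℓ : k + 3 ≤ ℓ) (hn : n = 2 * k + 8 + T * ℓ) {t : ℕ} (htT : t < T) {v : V}
    (hv : ∀ j < n, ¬ D.Adj v (b j))
    (h2 : ∃ i j, i < j ∧ k + 3 + t * ℓ ≤ i ∧ j < k + 3 + t * ℓ + ℓ ∧ D.Adj v (a i) ∧
      D.Adj v (a j))
    (h3 : k < (Bz D a v (k + 3 + t * ℓ) ℓ).card) :
    (∀ s < T, s ≠ t → (D.Adj v (a (k + 3 + s * ℓ)) ↔ t < s)) ∨
    ((∀ s < T, t < s → ¬ D.Adj v (a (k + 3 + s * ℓ))) ∧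
      ∀ Z : Finset ℕ, (∀ s ∈ Z, s < t ∧ ¬ D.Adj v (a (k + 3 + s * ℓ))) → Z.card ≤ k) := by
  obtain ⟨i, j, hij, hi, hj, hvi, hvj⟩ := h2
  -- positions
  have hup : ∀ s < T, s * ℓ + ℓ ≤ T * ℓ := by
    intro s hs
    have : (s + 1) * ℓ ≤ T * ℓ := Nat.mul_le_mul_right ℓ hs
    rwa [Nat.add_mul, Nat.one_mul] at this
  have hlt : ∀ s s', s < s' → s * ℓ + ℓ ≤ s' * ℓ := by
    intro s s' hs
    have : (s + 1) * ℓ ≤ s' * ℓ := Nat.mul_le_mul_right ℓ hs
    rwa [Nat.add_mul, Nat.one_mul] at this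
  have htup := hup t htT
  have hsub : ∀ z ∈ Bz D a v (k + 3 + t * ℓ) ℓ, z < n ∧ ¬ D.Adj v (a z) := by
    intro z hz
    rw [mem_Bz] at hz
    exact ⟨by omega, hz.2⟩
  obtain ⟨z, hz⟩ := Finset.card_pos.1 (lt_of_le_of_lt (Nat.zero_le k) h3)
  rw [mem_Bz] at hz
  obtain ⟨⟨hz1, hz2⟩, hz3⟩ := hz
  rcases hT k n V D a b x ht hk hL v hv with h | ⟨q, h⟩ | ⟨q, h⟩ | h | ⟨q, hqn, hq, h⟩
  · exact absurd (h i j (by omega) (by omega) (by omega) (by omega) hvi hvj) (by omega)
  · left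
    intro s hs hst
    have hsup := hup s hs
    have e1 := h z (by omega) (by omega)
    have e2 := (h i (by omega) (by omega)).1 hvi
    have e3 : ¬ q ≤ z := fun h' => hz3 (e1.2 h')
    rw [h _ (by omega) (by omega)]
    rcases Nat.lt_or_ge t s with h' | h'
    · have := hlt t s h'
      exact ⟨fun _ => h', fun _ => by omega⟩
    · have := hlt s t (by omega)
      exact ⟨fun _ => by omega, fun _ => by omega⟩
  · left
    intro s hs hst
    have hsup := hup s hs
    have e1 := h z (by omega) (by omega)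
    have e2 := (h i (by omega) (by omega)).1 hvi
    have e4 := (h j (by omega) (by omega)).1 hvj
    have e3 : ¬ (z = q ∨ q + 2 ≤ z) := fun h' => hz3 (e1.2 h')
    rw [h _ (by omega) (by omega)]
    rcases Nat.lt_or_ge t s with h' | h'
    · have := hlt t s h'
      exact ⟨fun _ => h', fun _ => by omega⟩
    · have := hlt s t (by omega)
      exact ⟨fun _ => by omega, fun _ => by omega⟩
  · exact absurd (h _ hsub) (by omega)
  · right
    have e1 : k + 3 + t * ℓ < q := by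
      by_contra hcon
      exact hq i (by omega) (by omega) hvi
    have e2 : q < k + 3 + t * ℓ + ℓ := by
      by_contra hcon
      refine absurd (h (Bz D a v (k + 3 + t * ℓ) ℓ) fun z hz => ?_) (by omega)
      rw [mem_Bz] at hz
      exact ⟨by omega, hz.2⟩
    refine ⟨fun s hs hts => hq _ ?_ ?_, fun Z hZ => ?_⟩
    · have := hlt t s hts
      omega
    · have := hup s hs
      omega
    · have e3 := h (Z.image fun s => k + 3 + s * ℓ) (by
        intro z hz
        rw [Finset.mem_image] at hz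
        obtain ⟨s, hs, rfl⟩ := hz
        have e4 := hlt s t (hZ s hs).1
        exact ⟨by omega, (hZ s hs).2⟩)
      rwa [Finset.card_image_of_injective] at e3
      intro s s' hss
      have e5 : s * ℓ = s' * ℓ := by
        have : k + 3 + s * ℓ = k + 3 + s' * ℓ := hss
        omega
      exact Nat.eq_of_mul_eq_mul_right (by omega) e5

end Tri3x

open Tri3x

theorem pTri3 (h1 : S_TraA) (h2 : W.S_Dig) (h3 : W.S_Ind) : S_Tri3 := by
  classical
  intro k m₀ L N'
  obtain ⟨M, hM⟩ : ∃ M, M = L + N' := ⟨_, rfl⟩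
  obtain ⟨ℓ, hℓ⟩ : ∃ ℓ, ℓ = M + (2 * k + 1) * m₀ + k + 3 := ⟨_, rfl⟩
  obtain ⟨T, hT⟩ : ∃ T, T = 2 * ((2 * k + 1) * (2 * M + 4) + 1) := ⟨_, rfl⟩
  refine ⟨2 * k + 8 + T * ℓ, ?_⟩
  intro V D a b x ht hk hC hF
  obtain ⟨n, hn⟩ : ∃ n, n = 2 * k + 8 + T * ℓ := ⟨_, rfl⟩
  rw [← hn] at hF ⊢
  rw [← hM]
  have hL := hF.lad
  have hℓk : k + 3 ≤ ℓ := by omega
  -- positions
  have hup : ∀ s < T, s * ℓ + ℓ ≤ T * ℓ := by
    intro s hs
    have : (s + 1) * ℓ ≤ T * ℓ := Nat.mul_le_mul_right ℓ hs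
    rwa [Nat.add_mul, Nat.one_mul] at this
  have hlt : ∀ s s', s < s' → s * ℓ + ℓ ≤ s' * ℓ := by
    intro s s' hs
    have : (s + 1) * ℓ ≤ s' * ℓ := Nat.mul_le_mul_right ℓ hs
    rwa [Nat.add_mul, Nat.one_mul] at this
  by_cases hgood : ∃ t < T, ∀ v, (∀ j < n, ¬ D.Adj v (b j)) →
      (∀ i j, i < j → k + 3 + t * ℓ ≤ i → j < k + 3 + t * ℓ + ℓ → D.Adj v (a i) →
        ¬ D.Adj v (a j)) ∨ (Bz D a v (k + 3 + t * ℓ) ℓ).card ≤ k
  · -- (1)
    obtain ⟨t, htT, hgood⟩ := hgood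
    have htup := hup t htT
    obtain ⟨C, hCd⟩ : ∃ C, C = (Finset.Ico (k + 3 + t * ℓ) (k + 3 + t * ℓ + ℓ)).filter fun c =>
      ∃ f, (∀ j < n, ¬ D.Adj f (b j)) ∧ ¬ D.Adj f (a c) ∧
        (Bz D a f (k + 3 + t * ℓ) ℓ).card ≤ k := ⟨_, rfl⟩
    have hCc : C.card ≤ (2 * k + 1) * m₀ := by
      have hch : ∀ c, ∃ f, c ∈ C → (∀ j < n, ¬ D.Adj f (b j)) ∧ ¬ D.Adj f (a c) ∧
          (Bz D a f (k + 3 + t * ℓ) ℓ).card ≤ k := by
        intro c
        by_cases hc : c ∈ C
        · rw [hCd, Finset.mem_filter] at hc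
          obtain ⟨f, hf⟩ := hc.2
          exact ⟨f, fun _ => hf⟩
        · exact ⟨a 0, fun h => absurd h hc⟩
      choose f hf using hch
      refine h3 V D m₀ k C f a hC (fun i hi => (hf i hi).2.1) ?_
      intro i hi J hJC hJ
      refine (Finset.card_le_card ?_).trans (hf i hi).2.2
      intro j hj
      rw [mem_Bz]
      have := hJC hj
      rw [hCd, Finset.mem_filter, Finset.mem_Ico] at this
      exact ⟨this.1, hJ j hj⟩
    obtain ⟨G, hG⟩ : ∃ G, G = Finset.Ico (k + 3 + t * ℓ) (k + 3 + t * ℓ + ℓ) \ C := ⟨_, rfl⟩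
    have hGc : M ≤ G.card := by
      have e1 := Finset.le_card_sdiff C (Finset.Ico (k + 3 + t * ℓ) (k + 3 + t * ℓ + ℓ))
      rw [← hG, Nat.card_Ico] at e1
      omega
    have hGm : ∀ g ∈ G, k + 3 + t * ℓ ≤ g ∧ g < k + 3 + t * ℓ + ℓ ∧ g ∉ C := by
      intro g hg
      rw [hG, Finset.mem_sdiff, Finset.mem_Ico] at hg
      exact ⟨hg.1.1, hg.1.2, hg.2⟩
    obtain ⟨σ, hσ, hσm⟩ := enum G
    have hσn : ∀ i < M, σ i < n := fun i hi => by
      have := hGm _ (hσ i (by omega))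
      omega
    have hσM : ∀ i j, i < j → j < M → σ i < σ j := fun i j hij hj => hσm i j hij (by omega)
    refine ⟨σ, hσn, hσM, Or.inl ⟨?_, ?_⟩⟩
    · exact (pSub0 n L V D a b x σ (fun i hi => hσn i (by omega))
        (fun i j hij hj => hσM i j hij (by omega))).2.1 hF
    · intro v
      by_cases hvE : ∀ j < n, ¬ D.Adj v (b j)
      · rcases hgood v hvE with h | h
        · left
          intro i hi j hj hvi hvj
          have gi := hGm _ (hσ i (by omega))
          have gj := hGm _ (hσ j (by omega))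
          rcases Nat.lt_trichotomy i j with h' | h' | h'
          · exact absurd hvj (h (σ i) (σ j) (hσM i j h' (by omega)) gi.1 gj.2.1 hvi)
          · exact h'
          · exact absurd hvi (h (σ j) (σ i) (hσM j i h' (by omega)) gj.1 gi.2.1 hvj)
        · right
          intro j hj
          by_contra hcon
          have gj := hGm _ (hσ j (by omega))
          apply gj.2.2
          rw [hCd, Finset.mem_filter, Finset.mem_Ico]
          exact ⟨⟨gj.1, gj.2.1⟩, v, hvE, hcon, h⟩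
      · left
        push Not at hvE
        obtain ⟨e, he, hve⟩ := hvE
        intro i hi j hj hvi hvj
        exact absurd hvi (hF.ex v e he (σ i) (hσn i (by omega)) hve)
  · -- (2)
    push Not at hgood
    have hch : ∀ t, ∃ v, t < T → (∀ j < n, ¬ D.Adj v (b j)) ∧
        ((∀ s < T, s ≠ t → (D.Adj v (a (k + 3 + s * ℓ)) ↔ t < s)) ∨
        ((∀ s < T, t < s → ¬ D.Adj v (a (k + 3 + s * ℓ))) ∧
        ∀ Z : Finset ℕ, (∀ s ∈ Z, s < t ∧ ¬ D.Adj v (a (k + 3 + s * ℓ))) → Z.card ≤ k)) := by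
      intro t
      by_cases htT : t < T
      · obtain ⟨v, hv, ⟨i, j, h4, h5, h6, h7, h8⟩, h9⟩ := hgood t htT
        exact ⟨v, fun _ => ⟨hv, kinds h1 ht hk hL hℓk hn htT hv ⟨i, j, h4, h5, h6, h7, h8⟩ h9⟩⟩
      · exact ⟨a 0, fun h => absurd h htT⟩
    choose v hv using hch
    obtain ⟨K₁, hK₁⟩ : ∃ K, K = (Finset.range T).filter fun t =>
      ∀ s < T, s ≠ t → (D.Adj (v t) (a (k + 3 + s * ℓ)) ↔ t < s) := ⟨_, rfl⟩
    obtain ⟨K₂, hK₂⟩ : ∃ K, K = (Finset.range T).filter fun t =>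
      ¬ ∀ s < T, s ≠ t → (D.Adj (v t) (a (k + 3 + s * ℓ)) ↔ t < s) := ⟨_, rfl⟩
    have hsum : K₁.card + K₂.card = T := by
      rw [hK₁, hK₂, Finset.card_filter_add_card_filter_not, Finset.card_range]
    have hcn : ∀ s < T, k + 3 + s * ℓ < n := by
      intro s hs
      have := hup s hs
      omega
    have hbig : (2 * M + 4) ≤ (2 * k + 1) * (2 * M + 4) :=
      Nat.le_mul_of_pos_left _ (by omega)
    rcases Nat.lt_or_ge ((2 * k + 1) * (2 * M + 4)) K₁.card with hc | hc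
    · -- kind (i)
      obtain ⟨f, hf, hfm⟩ := enum K₁
      have hf' : ∀ i < K₁.card, f i < T ∧
          ∀ s < T, s ≠ f i → (D.Adj (v (f i)) (a (k + 3 + s * ℓ)) ↔ f i < s) := by
        intro i hi
        have := hf i hi
        rw [hK₁, Finset.mem_filter, Finset.mem_range] at this
        exact this
      refine ⟨fun j => k + 3 + f (2 * j + 1) * ℓ, fun i hi => hcn _ (hf' _ (by omega)).1, ?_,
        Or.inr (Or.inl ⟨fun i => v (f (2 * i)), ?_, ?_, ?_⟩)⟩
      · intro i j hij hj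
        have e1 := hlt _ _ (hfm (2 * i + 1) (2 * j + 1) (by omega) (by omega))
        show k + 3 + f (2 * i + 1) * ℓ < k + 3 + f (2 * j + 1) * ℓ
        omega
      · refine (hL.im.comp (fun j => k + 3 + f (2 * j + 1) * ℓ)
          (fun i hi => hcn _ (hf' _ (by omega)).1) ?_).swap
        refine inj_of fun i j hij hj => ?_
        have e1 := hlt _ _ (hfm (2 * i + 1) (2 * j + 1) (by omega) (by omega))
        show k + 3 + f (2 * i + 1) * ℓ < k + 3 + f (2 * j + 1) * ℓ
        omega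
      · intro i hi j hj
        have e1 := hf' (2 * i) (by omega)
        have e2 := hf' (2 * j + 1) (by omega)
        have e3 := lt_iff hfm (t := 2 * i) (u := 2 * j + 1) (by omega) (by omega)
        have e4 : f (2 * j + 1) ≠ f (2 * i) := by
          intro h
          have := inj_of hfm (2 * j + 1) (by omega) (2 * i) (by omega) h
          omega
        rw [e1.2 _ e2.1 e4, e3]
        omega
      · intro i hi j hj
        exact (hv _ (hf' (2 * i) (by omega)).1).1 _ (hcn _ (hf' (2 * j + 1) (by omega)).1)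
    · -- kind (ii)
      have hK₂' : ∀ t ∈ K₂, t < T ∧ (∀ s < T, t < s → ¬ D.Adj (v t) (a (k + 3 + s * ℓ))) ∧
          ∀ Z : Finset ℕ, (∀ s ∈ Z, s < t ∧ ¬ D.Adj (v t) (a (k + 3 + s * ℓ))) →
            Z.card ≤ k := by
        intro t ht'
        rw [hK₂, Finset.mem_filter, Finset.mem_range] at ht'
        exact ⟨ht'.1, (hv t ht'.1).2.resolve_left ht'.2⟩
      obtain ⟨J, hJK, hJc, hJ⟩ := h2 k (2 * M + 4) K₂
        (fun t s => s < t ∧ ¬ D.Adj (v t) (a (k + 3 + s * ℓ)))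
        (fun i hi J hJ hJ' => (hK₂' i hi).2.2 J fun j hj => (hJ' j hj).2) (by omega)
      obtain ⟨f, hf, hfm⟩ := enum J
      have hfT : ∀ i < J.card, f i < T := fun i hi => (hK₂' _ (hJK (hf i hi))).1
      have hadj : ∀ i < J.card, ∀ j < J.card, i ≠ j →
          (D.Adj (v (f i)) (a (k + 3 + f j * ℓ)) ↔ j < i) := by
        intro i hi j hj hij
        rcases Nat.lt_or_ge j i with h | h
        · refine ⟨fun _ => h, fun _ => ?_⟩
          have e1 := hfm j i h hi
          have e2 := hJ (f i) (hf i hi) (f j) (hf j hj) (by omega)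
          by_contra hcon
          exact e2 ⟨e1, hcon⟩
        · refine ⟨fun h' => absurd h' ?_, fun h' => absurd h' (by omega)⟩
          exact (hK₂' _ (hJK (hf i hi))).2.1 _ (hfT j hj) (hfm i j (by omega) hj)
      refine ⟨fun j => k + 3 + f (2 * j) * ℓ, fun i hi => hcn _ (hfT _ (by omega)), ?_,
        Or.inr (Or.inr ⟨fun i => v (f (2 * i + 1)), ?_, ?_, ?_⟩)⟩
      · intro i j hij hj
        have e1 := hlt _ _ (hfm (2 * i) (2 * j) (by omega) (by omega))
        show k + 3 + f (2 * i) * ℓ < k + 3 + f (2 * j) * ℓ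
        omega
      · refine (pSub0 n N' V D a b x (fun j => k + 3 + f (2 * j) * ℓ)
          (fun i hi => hcn _ (hfT _ (by omega))) (fun i j hij hj => ?_)).1 hL
        have e1 := hlt _ _ (hfm (2 * i) (2 * j) (by omega) (by omega))
        show k + 3 + f (2 * i) * ℓ < k + 3 + f (2 * j) * ℓ
        omega
      · intro i hi j hj
        rw [hadj (2 * i + 1) (by omega) (2 * j) (by omega) (by omega)]
        omega
      · intro i hi j hj
        exact (hv _ (hfT (2 * i + 1) (by omega))).1 _ (hcn _ (hfT (2 * j) (by omega)))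

end Pool.Agent.MPd439b2.SA
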