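import Pool.Agent.Lib.MP_d439b2_co.SA.SpecB

/-!
# MP_d439b2_co, SA, B10: the second dichotomy in final form
-/

set_option autoImplicit false

namespace Pool.Agent.MPd439b2.SA

open Pool.Agent.MPd439b2 Pool.Agent.MPd439b2.W

theorem pWin (hFr0 : S_Fr0) (hSub0 : S_Sub0) (hTri3 : S_Tri3) (hCoMs : S_CoMs) : S_Win := by
  intro k L N'
  obtain ⟨m₀, hm₀⟩ := hCoMs k
  obtain ⟨n, hn⟩ := hTri3 k m₀ (L + (3 * k + 11)) N'
  refine ⟨n + (3 * k + 11), fun V D a b x ht hk hL => ?_⟩
  have h0 := hFr0 k n V D a b x ht hk hL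
  obtain ⟨σ, hσ, hm, h⟩ := hn V D _ _ _ ht hk (hm₀ V D ht hk) h0
  rcases h with h | ⟨y, h⟩ | h
  · refine ⟨fun i => σ i + (3 * k + 8), fun i hi => ?_, fun i j hij hj => ?_, Or.inl ?_⟩
    · have h1 := hσ i (by omega)
      show σ i + (3 * k + 8) < _
      omega
    · have h1 := hm i j hij (by omega)
      show σ i + (3 * k + 8) < σ j + (3 * k + 8)
      omega
    · exact (hSub0 (L + (3 * k + 11)) L V D _ _ _ (fun i => i)
        (fun i hi => (by omega : i < L + (3 * k + 11))) (fun i j hij _ => hij)).2.2 h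
  · refine ⟨fun i => σ (i + (3 * k + 8)) + (3 * k + 8), fun i hi => ?_, fun i j hij hj => ?_,
      Or.inr (Or.inl ⟨fun i => y (i + (3 * k + 8)), ?_, ?_⟩)⟩
    · have h1 := hσ (i + (3 * k + 8)) (by omega)
      show σ (i + (3 * k + 8)) + (3 * k + 8) < _
      omega
    · have h1 := hm (i + (3 * k + 8)) (j + (3 * k + 8)) (by omega) (by omega)
      show σ (i + (3 * k + 8)) + (3 * k + 8) < σ (j + (3 * k + 8)) + (3 * k + 8)
      omega
    · exact (hSub0 n L V D _ _ _ (fun i => σ (i + (3 * k + 8)))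
        (fun i hi => hσ _ (by omega)) (fun i j hij hj => hm _ _ (by omega) (by omega))).2.1 h0
    · exact hFr0 k L V D _ _ _ ht hk h
  · refine ⟨fun i => σ i + (3 * k + 8), fun i hi => ?_, fun i j hij hj => ?_,
      Or.inr (Or.inr h)⟩
    · have h1 := hσ i (by omega)
      show σ i + (3 * k + 8) < _
      omega
    · have h1 := hm i j hij (by omega)
      show σ i + (3 * k + 8) < σ j + (3 * k + 8)
      omega

end Pool.Agent.MPd439b2.SA
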