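import Pool.Agent.Lib.MP_d439b2_co.SA.SpecC

/-!
# MP_d439b2_co, SA/Wr: `B`-full vertices do not see light vertices of type `B` (helper6)
-/

set_option autoImplicit false

namespace Pool.Agent.MPd439b2.SA

open Pool.Agent.MPd439b2 Pool.Agent.MPd439b2.W

theorem pWr (hFa : S_Far) (hGX : S_GX) : S_Wr := by
  intro k n V D a b x hT hN hF g y q hg hy hkq hqn hyn v hv hyv hgv
  have xb := hF.lad.xb
  have hxv : ∀ i, k + 3 ≤ i → i + 4 ≤ q → D.Adj (x i) v := by
    intro i h1 h2
    exact hFa k n V D a b x hT hN hF (x i) y i q (Or.inl fun j hj => xb i (by omega) j hj) hy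
      (by omega) h2 hqn hyn v hv hyv
  have hgx : ∀ i, k + 3 ≤ i → i + 4 ≤ q → ¬ D.Adj g (x i) := by
    intro i h1 h2 h3
    exact hT g (x i) v h3 hgv (hxv i h1 h2)
  have hne : ∀ s t, s < n → t < n → x s = x t → s = t := by
    intro s t hs ht he
    have h1 := (xb s hs s hs).2 le_rfl
    have h2 := (xb t ht t ht).2 le_rfl
    rw [he] at h1
    rw [← he] at h2
    have h3 := (xb t ht s hs).1 h1
    have h4 := (xb s hs t ht).1 h2
    omega
  refine hGX k n V D a b x hT hN hF g (x (q - 4)) (fun i => x (k + 3 + i)) (2 * k + 5) hg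
    (by omega) ?_ ?_ (hgx (q - 4) (by omega) (by omega)) ?_
    ⟨(xb _ (by omega) _ (by omega)).2 (by omega), (xb _ (by omega) _ (by omega)).2 (by omega),
      (xb _ (by omega) _ (by omega)).2 (by omega)⟩
  · intro i hi
    refine ⟨hgx _ (by omega) (by omega), ?_, ?_⟩
    · intro h
      have := hne _ _ (by omega) (by omega) h
      omega
    · intro j hj1 hj2
      exact (xb _ (by omega) j hj2).2 (by omega)
  · intro i hi j hj h
    have := hne _ _ (by omega) (by omega) h
    omega
  · intro j hj h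
    have := (xb _ (by omega) j (by omega)).1 h
    omega

end Pool.Agent.MPd439b2.SA
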