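import Pool.Agent.Lib.MP_d439b2_co.SA.AllA
import Pool.Agent.Lib.MP_d439b2_co.SA.Win
import Pool.Agent.Lib.MP_d439b2_co.SA.Tri3
import Pool.Agent.Lib.MP_d439b2_co.SA.Pt
import Pool.Agent.Lib.MP_d439b2_co.SA.Cls
import Pool.Agent.Lib.MP_d439b2_co.SA.Clo
import Pool.Agent.Lib.MP_d439b2_co.SA.Side
import Pool.Agent.Lib.MP_d439b2_co.SA.Far
import Pool.Agent.Lib.MP_d439b2_co.SA.AFc
import Pool.Agent.Lib.MP_d439b2_co.SA.CK
import Pool.Agent.Lib.MP_d439b2_co.SA.Idx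
import Pool.Agent.Lib.MP_d439b2_co.SA.FanX
import Pool.Agent.Lib.MP_d439b2_co.SA.GX
import Pool.Agent.Lib.MP_d439b2_co.SA.Wr
import Pool.Agent.Lib.MP_d439b2_co.SA.NC
import Pool.Agent.Lib.MP_d439b2_co.SA.BdX
import Pool.Agent.Lib.MP_d439b2_co.SA.Three
import Pool.Agent.Lib.MP_d439b2_co.W.Ind

/-!
# MP_d439b2_co, SA: the statements of Spec B and Spec C without hypotheses (helper13)
-/

set_option autoImplicit false

namespace Pool.Agent.MPd439b2.SA

open Pool.Agent.MPd439b2 Pool.Agent.MPd439b2.W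

theorem okInd : W.S_Ind := W.indM W.dig

theorem okTri3 : S_Tri3 := pTri3 okTraA W.dig okInd

theorem okWin : S_Win := pWin okFr0 pSub0 okTri3 okCoMs

theorem okFar : S_Far := pFar hPt

theorem okAFc : S_AFc := pAFc okL3

theorem okWr : S_Wr := pWr okFar pGX

theorem okNC : S_NC := pNC hPt pIdx

theorem okBdX : S_BdX := hBdX pGX okInd

end Pool.Agent.MPd439b2.SA
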