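import Pool.Agent.Lib.MP_d439b2_co.SA.SpecA

/-!
# MP_d439b2_co, SA: models of the spider from two families of blocks with two vertices (helper82)
-/

set_option autoImplicit false

namespace Pool.Agent.MPd439b2.SA

open Pool.Agent.MPd439b2 Pool.Agent.MPd439b2.W

namespace Bip

variable {V : Type} {D : SimpleGraph V}

/-- the bipartite adjacency of `S_{2,2,3} + k P_2`: `g (2 i) = A i`, `g (2 j + 1) = B j`, `p t = A (4 + t)`,
`q t = B (4 + t)` -/
def bE (i j : ℕ) : Prop :=
  (i = 0 ∧ j < 3) ∨ (i = 1 ∧ j = 0) ∨ (i = 2 ∧ j = 1) ∨ (i = 3 ∧ (j = 2 ∨ j = 3)) ∨ (4 ≤ i ∧ i = j)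

instance : DecidableRel bE := fun i j => by
  unfold bE
  infer_instance

theorem fin_even : ∀ i j : Fin 8, i.val % 2 = 0 → j.val % 2 = 0 → ¬ spE i j := by decide

theorem fin_odd : ∀ i j : Fin 8, i.val % 2 = 1 → j.val % 2 = 1 → ¬ spE i j := by decide

theorem fin_mix : ∀ i j : Fin 8, i.val % 2 = 0 → j.val % 2 = 1 →
    (spE i j ↔ bE (i.val / 2) (j.val / 2)) := by decide

theorem fin_mix' : ∀ i j : Fin 8, i.val % 2 = 1 → j.val % 2 = 0 →
    (spE i j ↔ bE (j.val / 2) (i.val / 2)) := by decide

/-- models of the spider from two families of blocks -/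
theorem spi_of (k : ℕ) (A B : ℕ → Finset V)
    (hA : ∀ i < k + 4, (A i).Nonempty) (hB : ∀ i < k + 4, (B i).Nonempty)
    (hAA : ∀ i < k + 4, ∀ j < k + 4, i ≠ j → Disjoint (A i) (A j) ∧ ¬ Cmp D (A i) (A j))
    (hBB : ∀ i < k + 4, ∀ j < k + 4, i ≠ j → Disjoint (B i) (B j) ∧ ¬ Cmp D (B i) (B j))
    (hAB : ∀ i < k + 4, ∀ j < k + 4, Disjoint (A i) (B j))
    (hE : ∀ i < k + 4, ∀ j < k + 4, (Cmp D (A i) (B j) ↔ bE i j)) :
    Spi D k (fun i => if i.val % 2 = 0 then A (i.val / 2) else B (i.val / 2))
      (fun t => A (4 + t)) (fun t => B (4 + t)) := by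
  have hsym : ∀ {X Y : Finset V}, Cmp D X Y ↔ Cmp D Y X := fun {X Y} => ⟨Cmp.symm, Cmp.symm⟩
  constructor
  · intro i
    have hi := i.isLt
    split_ifs
    · exact hA _ (by omega)
    · exact hB _ (by omega)
  · intro t ht
    exact hA _ (by omega)
  · intro t ht
    exact hB _ (by omega)
  · intro i j hij
    have hi := i.isLt
    have hj := j.isLt
    have hij' : i.val ≠ j.val := fun h => hij (Fin.ext h)
    by_cases h1 : i.val % 2 = 0
    · by_cases h2 : j.val % 2 = 0
      · simp only [if_pos h1, if_pos h2]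
        exact (hAA _ (by omega) _ (by omega) (by omega)).1
      · simp only [if_pos h1, if_neg h2]
        exact hAB _ (by omega) _ (by omega)
    · by_cases h2 : j.val % 2 = 0
      · simp only [if_neg h1, if_pos h2]
        exact (hAB _ (by omega) _ (by omega)).symm
      · simp only [if_neg h1, if_neg h2]
        exact (hBB _ (by omega) _ (by omega) (by omega)).1
  · intro i j hij
    have hi := i.isLt
    have hj := j.isLt
    have hij' : i.val ≠ j.val := fun h => hij (Fin.ext h)
    by_cases h1 : i.val % 2 = 0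
    · by_cases h2 : j.val % 2 = 0
      · simp only [if_pos h1, if_pos h2]
        exact iff_of_false (hAA _ (by omega) _ (by omega) (by omega)).2 (fin_even i j h1 h2)
      · simp only [if_pos h1, if_neg h2]
        rw [fin_mix i j h1 (by omega)]
        exact hE _ (by omega) _ (by omega)
    · by_cases h2 : j.val % 2 = 0
      · simp only [if_neg h1, if_pos h2]
        rw [fin_mix' i j (by omega) h2, hsym]
        exact hE _ (by omega) _ (by omega)
      · simp only [if_neg h1, if_neg h2]
        exact iff_of_false (hBB _ (by omega) _ (by omega) (by omega)).2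
          (fin_odd i j (by omega) (by omega))
  · intro i t ht
    have hi := i.isLt
    by_cases h1 : i.val % 2 = 0
    · simp only [if_pos h1]
      exact hAA _ (by omega) _ (by omega) (by omega)
    · simp only [if_neg h1]
      refine ⟨(hAB _ (by omega) _ (by omega)).symm, ?_⟩
      rw [hsym, hE _ (by omega) _ (by omega)]
      unfold bE
      omega
  · intro i t ht
    have hi := i.isLt
    by_cases h1 : i.val % 2 = 0
    · simp only [if_pos h1]
      refine ⟨hAB _ (by omega) _ (by omega), ?_⟩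
      rw [hE _ (by omega) _ (by omega)]
      unfold bE
      omega
    · simp only [if_neg h1]
      exact hBB _ (by omega) _ (by omega) (by omega)
  · intro t ht
    refine ⟨hAB _ (by omega) _ (by omega), ?_⟩
    rw [hE _ (by omega) _ (by omega)]
    unfold bE
    omega
  · intro t ht u hu htu
    exact hAA _ (by omega) _ (by omega) (by omega)
  · intro t ht u hu htu
    refine ⟨hAB _ (by omega) _ (by omega), ?_⟩
    rw [hE _ (by omega) _ (by omega)]
    unfold bE
    omega
  · intro t ht u hu htu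
    exact hBB _ (by omega) _ (by omega) (by omega)

open Classical in
/-- models of the spider from two families of blocks with at most two vertices -/
theorem spi_pairs (k : ℕ) (α α' β β' : ℕ → V)
    (hAA : ∀ i < k + 4, ∀ j < k + 4, i ≠ j → α i ≠ α j ∧ α i ≠ α' j ∧ α' i ≠ α' j ∧
      ¬ D.Adj (α i) (α j))
    (hBB : ∀ i < k + 4, ∀ j < k + 4, i ≠ j → β i ≠ β j ∧ β i ≠ β' j ∧ β' i ≠ β' j ∧
      ¬ D.Adj (β i) (β j))
    (hAB : ∀ i < k + 4, ∀ j < k + 4, α i ≠ β j ∧ α i ≠ β' j ∧ α' i ≠ β j ∧ α' i ≠ β' j)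
    (hE : ∀ i < k + 4, ∀ j < k + 4, ((D.Adj (α i) (β j) ∧ D.Adj (α i) (β' j) ∧
      D.Adj (α' i) (β j) ∧ D.Adj (α' i) (β' j)) ↔ bE i j)) (h : NoSpi k D) : False := by
  refine h _ _ _ (spi_of k (fun i => {α i, α' i}) (fun i => {β i, β' i}) ?_ ?_ ?_ ?_ ?_ ?_)
  · intro i _
    exact ⟨α i, by simp⟩
  · intro i _
    exact ⟨β i, by simp⟩
  · intro i hi j hj hij
    obtain ⟨h1, h2, h3, h4⟩ := hAA i hi j hj hij
    have h5 := (hAA j hj i hi (Ne.symm hij)).2.1
    refine ⟨?_, fun h6 => h4 (h6 _ (by simp) _ (by simp))⟩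
    rw [Finset.disjoint_left]
    intro v hv hv'
    simp only [Finset.mem_insert, Finset.mem_singleton] at hv hv'
    rcases hv with rfl | rfl <;> rcases hv' with hv' | hv'
    · exact h1 hv'
    · exact h2 hv'
    · exact h5 hv'.symm
    · exact h3 hv'
  · intro i hi j hj hij
    obtain ⟨h1, h2, h3, h4⟩ := hBB i hi j hj hij
    have h5 := (hBB j hj i hi (Ne.symm hij)).2.1
    refine ⟨?_, fun h6 => h4 (h6 _ (by simp) _ (by simp))⟩
    rw [Finset.disjoint_left]
    intro v hv hv'
    simp only [Finset.mem_insert, Finset.mem_singleton] at hv hv'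
    rcases hv with rfl | rfl <;> rcases hv' with hv' | hv'
    · exact h1 hv'
    · exact h2 hv'
    · exact h5 hv'.symm
    · exact h3 hv'
  · intro i hi j hj
    obtain ⟨h1, h2, h3, h4⟩ := hAB i hi j hj
    rw [Finset.disjoint_left]
    intro v hv hv'
    simp only [Finset.mem_insert, Finset.mem_singleton] at hv hv'
    rcases hv with rfl | rfl <;> rcases hv' with hv' | hv'
    · exact h1 hv'
    · exact h2 hv'
    · exact h3 hv'
    · exact h4 hv'
  · intro i hi j hj
    rw [← hE i hi j hj]
    constructor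
    · intro h1
      exact ⟨h1 _ (by simp) _ (by simp), h1 _ (by simp) _ (by simp), h1 _ (by simp) _ (by simp),
        h1 _ (by simp) _ (by simp)⟩
    · rintro ⟨h1, h2, h3, h4⟩ v hv w hw
      simp only [Finset.mem_insert, Finset.mem_singleton] at hv hw
      rcases hv with rfl | rfl <;> rcases hw with rfl | rfl
      · exact h1
      · exact h2
      · exact h3
      · exact h4

end Bip

end Pool.Agent.MPd439b2.SA
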