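import Pool.Agent.Lib.MP_d439b2_co.W.BaseM
import Pool.Agent.Lib.MP_d439b2_co.Rep.Defs

/-!
# MP_d439b2_co, SA: Step A' of the row `S_{2,2,3} + k P_2`, definitions (helper13)

`D` is a triangle-free graph.  All models are families of disjoint nonempty finite sets (blocks), complete
to each other in `D` for the edges and NOT complete to each other for the non-edges.
-/

set_option autoImplicit false

namespace Pool.Agent.MPd439b2.SA

open Pool.Agent.MPd439b2 Pool.Agent.MPd439b2.W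

variable {V : Type}

/-- the edges of the spider `S_{2,2,3}`: centre `0`, legs `1 2`, `3 4`, `5 6 7` -/
def spL : List (ℕ × ℕ) := [(0, 1), (1, 2), (0, 3), (3, 4), (0, 5), (5, 6), (6, 7)]

/-- adjacency in the spider -/
def spE (i j : Fin 8) : Prop := (i.val, j.val) ∈ spL ∨ (j.val, i.val) ∈ spL

instance : DecidableRel spE := fun i j => by
  unfold spE
  infer_instance

/-- **Models of `S_{2,2,3} + k P_2`**: the blocks `g 0, ..., g 7` form the spider, `(p t, q t)`, `t < k`, are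
the blocks of the separate edges -/
structure Spi (D : SimpleGraph V) (k : ℕ) (g : Fin 8 → Finset V) (p q : ℕ → Finset V) : Prop where
  gne : ∀ i, (g i).Nonempty
  pne : ∀ t < k, (p t).Nonempty
  qne : ∀ t < k, (q t).Nonempty
  gdis : ∀ i j, i ≠ j → Disjoint (g i) (g j)
  gcmp : ∀ i j, i ≠ j → (Cmp D (g i) (g j) ↔ spE i j)
  gp : ∀ i, ∀ t < k, Disjoint (g i) (p t) ∧ ¬ Cmp D (g i) (p t)
  gq : ∀ i, ∀ t < k, Disjoint (g i) (q t) ∧ ¬ Cmp D (g i) (q t)
  pq : ∀ t < k, Disjoint (p t) (q t) ∧ Cmp D (p t) (q t)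
  pp : ∀ t < k, ∀ u < k, t ≠ u → Disjoint (p t) (p u) ∧ ¬ Cmp D (p t) (p u)
  px : ∀ t < k, ∀ u < k, t ≠ u → Disjoint (p t) (q u) ∧ ¬ Cmp D (p t) (q u)
  qq : ∀ t < k, ∀ u < k, t ≠ u → Disjoint (q t) (q u) ∧ ¬ Cmp D (q t) (q u)

/-- there is no merged `S_{2,2,3} + k P_2` in `D` -/
def NoSpi (k : ℕ) (D : SimpleGraph V) : Prop := ∀ g p q, ¬ Spi D k g p q

/-- **Block matchings** with the finite index set `I`: `P i` is complete to `Q i`; all other pairs of blocks
are disjoint and not complete to each other -/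
structure BMt (D : SimpleGraph V) (I : Finset ℕ) (P Q : ℕ → Finset V) : Prop where
  pne : ∀ i ∈ I, (P i).Nonempty
  qne : ∀ i ∈ I, (Q i).Nonempty
  pq : ∀ i ∈ I, Cmp D (P i) (Q i)
  pp : ∀ i ∈ I, ∀ j ∈ I, i ≠ j → Disjoint (P i) (P j) ∧ ¬ Cmp D (P i) (P j)
  px : ∀ i ∈ I, ∀ j ∈ I, i ≠ j → Disjoint (P i) (Q j) ∧ ¬ Cmp D (P i) (Q j)
  qq : ∀ i ∈ I, ∀ j ∈ I, i ≠ j → Disjoint (Q i) (Q j) ∧ ¬ Cmp D (Q i) (Q j)

/-- the block `C` touches the edge `i`: it is complete to `P i` or to `Q i` -/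
def Tc (D : SimpleGraph V) (P Q : ℕ → Finset V) (C : Finset V) (i : ℕ) : Prop :=
  Cmp D C (P i) ∨ Cmp D C (Q i)

open Classical in
/-- the indices in `I` of the edges touched by `C` -/
noncomputable def TT (D : SimpleGraph V) (I : Finset ℕ) (P Q : ℕ → Finset V) (C : Finset V) :
    Finset ℕ :=
  I.filter fun i => Tc D P Q C i

/-- `C` is disjoint from all blocks with index in `I` -/
def Off (I : Finset ℕ) (P Q : ℕ → Finset V) (C : Finset V) : Prop :=
  ∀ i ∈ I, Disjoint C (P i) ∧ Disjoint C (Q i)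

/-- `C` is disjoint from all blocks with index in `I` and touches none of these edges -/
def Unt (D : SimpleGraph V) (I : Finset ℕ) (P Q : ℕ → Finset V) (C : Finset V) : Prop :=
  ∀ i ∈ I, Disjoint C (P i) ∧ Disjoint C (Q i) ∧ ¬ Cmp D C (P i) ∧ ¬ Cmp D C (Q i)

/-! ### ladders -/

/-- **Ladders**: an induced matching `a i, b i` and `x i ~ b j` iff `i ≤ j` -/
structure Lad (D : SimpleGraph V) (n : ℕ) (a b x : ℕ → V) : Prop where
  im : IM D n a b
  xb : ∀ i < n, ∀ j < n, (D.Adj (x i) (b j) ↔ i ≤ j)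
  xa : ∀ i < n, ∀ j < n, ¬ D.Adj (x i) (a j)

/-- **Opposite ladders**: `x i ~ b j` iff `i ≤ j`, `w i ~ a j` iff `j ≤ i` -/
structure OL (D : SimpleGraph V) (n : ℕ) (a b x w : ℕ → V) : Prop where
  lad : Lad D n a b x
  wa : ∀ i < n, ∀ j < n, (D.Adj (w i) (a j) ↔ j ≤ i)
  wb : ∀ i < n, ∀ j < n, ¬ D.Adj (w i) (b j)

/-- at most one index `< n` satisfies `p` -/
def Few (n : ℕ) (p : ℕ → Prop) : Prop := ∀ i < n, ∀ j < n, p i → p j → i = j

/-- the indices `< n` which satisfy `p` are `q, q + 1, ...`, or `q, q + 2, q + 3, ...` -/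
def FinS (n : ℕ) (p : ℕ → Prop) : Prop :=
  ∃ q, (∀ j < n, (p j ↔ q ≤ j)) ∨ ∀ j < n, (p j ↔ j = q ∨ q + 2 ≤ j)

/-- `v` touches at most one of the edges `a i, b i` -/
def Lt (D : SimpleGraph V) (n : ℕ) (a b : ℕ → V) (v : V) : Prop :=
  Few n fun i => D.Adj v (a i) ∨ D.Adj v (b i)

/-- **Exact frames** for a ladder: the `b`-trace of every vertex is small or final, and no vertex has
neighbours among the `a i` and among the `b i` -/
structure Fr0 (D : SimpleGraph V) (n : ℕ) (a b x : ℕ → V) : Prop where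
  lad : Lad D n a b x
  tb : ∀ v, Few n (fun j => D.Adj v (b j)) ∨ FinS n fun j => D.Adj v (b j)
  ex : ∀ v, ∀ i < n, ∀ j < n, D.Adj v (b i) → ¬ D.Adj v (a j)

/-- **Frames of type (I,T)**: the `a`-trace of every vertex is small or everything -/
structure FrT (D : SimpleGraph V) (n : ℕ) (a b x : ℕ → V) : Prop where
  fr : Fr0 D n a b x
  ta : ∀ v, Few n (fun j => D.Adj v (a j)) ∨ ∀ j < n, D.Adj v (a j)

/-- **Frames of type (I,I)**, same direction: `x i ~ b j` iff `i ≤ j`, `y i ~ a j` iff `i ≤ j`; all traces are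
exact -/
structure FrI (D : SimpleGraph V) (n : ℕ) (a b x y : ℕ → V) : Prop where
  fx : Fr0 D n a b x
  fy : Fr0 D n b a y

/-- **Clean matchings** with the bound `h`: every vertex is complete to all `b i`, or complete to all `a i`, or
touches at most `h` edges -/
structure CMh (D : SimpleGraph V) (h n : ℕ) (a b : ℕ → V) : Prop where
  im : IM D n a b
  tr : ∀ v, (Jt D n a b v).card ≤ h ∨ (∀ i < n, D.Adj v (b i)) ∨ ∀ i < n, D.Adj v (a i)

/-- there is no opposite ladder of size `N` on a sub-matching of `a i, b i` (`i < n`), in any orientation -/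
def NoOL (D : SimpleGraph V) (n N : ℕ) (a b : ℕ → V) : Prop :=
  ∀ (σ : ℕ → ℕ) (x w : ℕ → V), (∀ i < N, σ i < n) → (∀ i < N, ∀ j < N, σ i = σ j → i = j) →
    ¬ OL D N (fun i => a (σ i)) (fun i => b (σ i)) x w

end Pool.Agent.MPd439b2.SA
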