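import Pool.Agent.Lib.MP_d439b2_co.SA.SpecFan

/-!
# MP_d439b2_co, SA: FanS (helper12)
-/

set_option autoImplicit false

namespace Pool.Agent.MPd439b2.SA

open Pool.Agent.MPd439b2 Pool.Agent.MPd439b2.W

theorem hFanS : S_FanS := by
  intro F hF
  have key : ∀ P ∈ F, ∀ Q ∈ F, P.card < Q.card → P ⊆ Q := by
    intro P hP Q hQ hlt
    by_contra hns
    rcases hF Q hQ P hP with h1 | h1
    · have h2 : 0 < (P \ Q).card := by
        rw [Finset.card_pos]
        obtain ⟨a, ha, ha'⟩ := Finset.not_subset.mp hns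
        exact ⟨a, Finset.mem_sdiff.mpr ⟨ha, ha'⟩⟩
      have h3 := Finset.card_sdiff_add_card_inter P Q
      have h4 := Finset.card_sdiff_add_card_inter Q P
      rw [Finset.inter_comm] at h4
      omega
    · exact hns h1
  refine ⟨key, fun s => ?_⟩
  by_contra hcon
  rw [not_or] at hcon
  obtain ⟨hA, hB⟩ := hcon
  apply hA
  intro P hP P' hP' hs hs'
  by_contra hne
  apply hB
  intro Q hQ Q' hQ' ht ht'
  have h1 : s + 1 ≤ (P ∪ P').card := by
    have h2 : P ⊂ P ∪ P' := by
      refine ⟨Finset.subset_union_left, fun h => hne ?_⟩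
      have h3 : P' ⊆ P := fun a ha => h (Finset.mem_union_right _ ha)
      exact (Finset.eq_of_subset_of_card_le h3 (by omega)).symm
    have := Finset.card_lt_card h2
    omega
  have hu : ∀ R ∈ F, R.card = s + 1 → P ∪ P' = R := by
    intro R hR hRs
    refine Finset.eq_of_subset_of_card_le ?_ (by omega)
    exact Finset.union_subset (key P hP R hR (by omega)) (key P' hP' R hR (by omega))
  rw [← hu Q hQ ht, ← hu Q' hQ' ht']

end Pool.Agent.MPd439b2.SA
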