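import Pool.Agent.Lib.MP_d439b2_co.SA.SpecB

/-!
# MP_d439b2_co, SA, B6: ladders give exact frames
-/

set_option autoImplicit false

namespace Pool.Agent.MPd439b2.SA

open Pool.Agent.MPd439b2 Pool.Agent.MPd439b2.W

namespace Fr0x

theorem im {V : Type} {D : SimpleGraph V} {n c m : ℕ} {a b : ℕ → V} (hm : n + c ≤ m)
    (h : IM D m a b) : IM D n (fun i => a (i + c)) (fun i => b (i + c)) :=
  h.comp (fun i => i + c) (fun i hi => by omega) (fun i hi j hj hij => by
    have h1 : i + c = j + c := hij
    omega)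

theorem few {n m c d e : ℕ} {p : ℕ → Prop} (hm : n + d ≤ m) (hc : d + e = c)
    (h : Few m (fun j => p (j + e))) : Few n (fun j => p (j + c)) := by
  intro i hi j hj h1 h2
  have h3 := h (i + d) (by omega) (j + d) (by omega)
    (by change p (i + d + e); rw [add_assoc, hc]; exact h1)
    (by change p (j + d + e); rw [add_assoc, hc]; exact h2)
  omega

theorem fins {n m c d e : ℕ} {p : ℕ → Prop} (hm : n + d ≤ m) (hc : d + e = c)
    (h : FinS m (fun j => p (j + e))) : FinS n (fun j => p (j + c)) := by
  obtain ⟨q, h⟩ := h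
  have hp : ∀ j, p (j + c) = p (j + d + e) := fun j => by rw [add_assoc, hc]
  rcases h with h | h
  · refine ⟨q - d, Or.inl ?_⟩
    intro j hj
    have h3 := h (j + d) (by omega)
    change p (j + c) ↔ _
    rw [hp]
    refine h3.trans ?_
    omega
  · by_cases hd : d ≤ q
    · refine ⟨q - d, Or.inr ?_⟩
      intro j hj
      have h3 := h (j + d) (by omega)
      change p (j + c) ↔ _
      rw [hp]
      refine h3.trans ?_
      omega
    · refine ⟨q + 2 - d, Or.inl ?_⟩
      intro j hj
      have h3 := h (j + d) (by omega)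
      change p (j + c) ↔ _
      rw [hp]
      refine h3.trans ?_
      omega

end Fr0x

/-- **B6.** -/
theorem pFr0 (h1 : S_Tb) (h2 : S_Ex) : S_Fr0 := by
  intro k n V D a b x hT hS hL
  refine ⟨⟨Fr0x.im (by omega) hL.im, ?_, ?_⟩, ?_, ?_⟩
  · intro i hi j hj
    rw [hL.xb (i + (3 * k + 8)) (by omega) (j + (3 * k + 8)) (by omega)]
    omega
  · intro i hi j hj
    exact hL.xa (i + (3 * k + 8)) (by omega) (j + (3 * k + 8)) (by omega)
  · intro v
    rcases h1 k _ V D a b x hT hS hL v with h | h
    · exact Or.inl (Fr0x.few (p := fun j => D.Adj v (b j)) (d := k + 4) (by omega) (by omega) h)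
    · exact Or.inr (Fr0x.fins (p := fun j => D.Adj v (b j)) (d := k + 4) (by omega) (by omega) h)
  · intro v i hi j hj h
    exact h2 k _ V D a b x hT hS hL v (i + (3 * k + 8)) (j + (3 * k + 8)) (by omega) (by omega)
      (by omega) (by omega) h

end Pool.Agent.MPd439b2.SA
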