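import Pool.Agent.Lib.MP_d439b2_co.SA.SpecII

/-!
# MP_d439b2_co, SA, II7: far mediums of different sides are adjacent (helper12)
-/

set_option autoImplicit false

namespace Pool.Agent.MPd439b2.SA

open Pool.Agent.MPd439b2 Pool.Agent.MPd439b2.W

theorem hIFarY (hPt : S_Pt) : S_IFarY := by
  intro V D k n e p a b x y z z' hT hN hF hkp hpe hen hzk hzp hzp1 hzn hz'
  by_contra hzz
  have him := hF.fx.lad.im
  obtain ⟨hz'1, hz'2⟩ := hz'
  have aa : ∀ i < n, ∀ j < n, ¬ D.Adj (a i) (a j) := fun i hi j hj => (him i hi j hj).2.1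
  have bb : ∀ i < n, ∀ j < n, ¬ D.Adj (b i) (b j) := fun i hi j hj => (him i hi j hj).2.2
  have ab : ∀ i < n, ∀ j < n, i ≠ j → ¬ D.Adj (a i) (b j) := fun i hi j hj hij h =>
    hij ((him i hi j hj).1.1 h)
  have ba : ∀ i < n, ∀ j < n, i ≠ j → ¬ D.Adj (b i) (a j) := fun i hi j hj hij h =>
    hij ((him j hj i hi).1.1 h.symm).symm
  have za : ∀ j < n, ¬ D.Adj z (a j) := fun j hj => hF.fx.ex z (n - 1) (by omega) j hj hzn
  have zb' : ∀ j < n, ¬ D.Adj z' (b j) := fun j hj => hF.fy.ex z' (n - 1) (by omega) j hj hz'1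
  refine hPt V D k z (b p) (a p) (b (p + 1)) (a (p + 1)) (b (n - 1)) (a (n - 1)) z' a b hT hN hzp
    (him.edge (by omega)).symm hzp1 (him.edge (by omega)).symm hzn (him.edge (by omega)).symm
    hz'1.symm hzz (ba _ (by omega) _ (by omega) (by omega))
    (ba _ (by omega) _ (by omega) (by omega)) (fun h => zb' _ (by omega) h.symm)
    (ba _ (by omega) _ (by omega) (by omega)) (ba _ (by omega) _ (by omega) (by omega))
    (fun h => zb' _ (by omega) h.symm)
    (ba _ (by omega) _ (by omega) (by omega)) (ba _ (by omega) _ (by omega) (by omega))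
    (aa _ (by omega) _ (by omega)) (aa _ (by omega) _ (by omega))
    (fun h => hz'2 _ (by omega) h.symm) (aa _ (by omega) _ (by omega))
    (fun h => hz'2 _ (by omega) h.symm) (him.mono (by omega)) ?_
  intro t ht z₁ hz₁
  rcases hz₁ with rfl | rfl | rfl | rfl | rfl | rfl | rfl | rfl
  · exact ⟨za _ (by omega), hzk _ ht⟩
  · exact ⟨ba _ (by omega) _ (by omega) (by omega), bb _ (by omega) _ (by omega)⟩
  · exact ⟨aa _ (by omega) _ (by omega), ab _ (by omega) _ (by omega) (by omega)⟩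
  · exact ⟨ba _ (by omega) _ (by omega) (by omega), bb _ (by omega) _ (by omega)⟩
  · exact ⟨aa _ (by omega) _ (by omega), ab _ (by omega) _ (by omega) (by omega)⟩
  · exact ⟨ba _ (by omega) _ (by omega) (by omega), bb _ (by omega) _ (by omega)⟩
  · exact ⟨aa _ (by omega) _ (by omega), ab _ (by omega) _ (by omega) (by omega)⟩
  · exact ⟨hz'2 _ (by omega), zb' _ (by omega)⟩

end Pool.Agent.MPd439b2.SA
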