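import Pool.Agent.Lib.MP_d439b2_co.SA.SpecII

/-!
# MP_d439b2_co, SA, II25: the two sides of the band (helper24)
-/

set_option autoImplicit false

namespace Pool.Agent.MPd439b2.SA

open Pool.Agent.MPd439b2 Pool.Agent.MPd439b2.W

private theorem ncard_gt {V : Type} [Finite V] {S : Set V} {b : ℕ → V} {B : ℕ} (I : Finset ℕ)
    (hI : B < I.card) (hS : ∀ j ∈ I, b j ∈ S) (inj : ∀ j ∈ I, ∀ j' ∈ I, b j = b j' → j = j') :
    B < S.ncard := by
  classical
  have h1 : ((I.image b : Finset V) : Set V) ⊆ S := by
    intro v hv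
    rw [Finset.mem_coe, Finset.mem_image] at hv
    obtain ⟨j, hj, rfl⟩ := hv
    exact hS j hj
  have h2 := Set.ncard_le_ncard h1 S.toFinite
  rw [Set.ncard_coe_finset, Finset.card_image_of_injOn (fun j hj j' hj' h =>
    inj j hj j' hj' h)] at h2
  omega

theorem hISize (hIIdx : S_IIdx) : S_ISize := by
  classical
  intro V _ D k n e N i i' B a b x y u v K P P' XL WL YL ZL XL' WL' YL' ZL' ht hs hB hBi hBi'
  have hS := hB.sys
  have hfr := hS.fr
  have hke := hS.ke
  have hen := hS.en
  have hi0 := hB.hi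
  have hi1 := hB.hi'
  have hi2 := hB.hie
  have him := hfr.fx.lad.im
  obtain ⟨c, hc, -⟩ := hIIdx V D k n e N a b x y u v K ht hs hS
  constructor
  · refine ncard_gt (b := b) (Finset.Ico (i + 2) i') (by rw [Nat.card_Ico]; omega) ?_ ?_
    · intro j hj
      rw [Finset.mem_Ico] at hj
      obtain ⟨h1, h2, h3, -⟩ := hc j (by omega) (by omega)
      refine Or.inl (Or.inr (Or.inl ⟨(hfr.fx.lad.xb _ (by omega) j (by omega)).mpr (by omega),
        c j, ?_, h3⟩))
      rw [Finset.mem_sdiff]
      exact ⟨(hB.p1.2.2 j (by omega) (by omega) (c j) h1 h3).2 hj.1,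
        (hB.p2.2.2 j (by omega) (by omega) (c j) h1 h3).1 hj.2⟩
    · intro j hj j' hj' h
      rw [Finset.mem_Ico] at hj hj'
      exact him.inj_b (by omega) (by omega) h
  · refine ncard_gt (b := b) (Finset.range i) (by rw [Finset.card_range]; omega) ?_ ?_
    · intro j hj hmem
      rw [Finset.mem_range] at hj
      have hiso : ∀ w' ∈ LU D n a b, D.Adj (b j) w' → ¬ ∀ w' ∈ LU D n a b, ¬ D.Adj (b j) w' :=
        fun w' h1 h2 h3 => h3 w' h1 h2
      have haj : a j ∈ LU D n a b := by
        intro r hr r' hr' h1 h2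
        have e1 : ∀ m < n, (D.Adj (a j) (a m) ∨ D.Adj (a j) (b m)) → m = j := by
          intro m hm h3
          rcases h3 with h3 | h3
          · exact absurd h3 (him j (by omega) m hm).2.1
          · exact ((him j (by omega) m hm).1.mp h3).symm
        rw [e1 r hr h1, e1 r' hr' h2]
      have haj' : a j ∈ LU D n b a := by
        intro r hr r' hr' h1 h2
        exact haj r hr r' hr' h1.symm h2.symm
      have hedge : D.Adj (b j) (a j) := (him.edge (by omega)).symm
      have hKno : ∀ l ∈ P \ P', b j ∉ K l := by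
        intro l hl hb
        have hlP := (Finset.mem_sdiff.mp hl).1
        have hlN := hB.p1.2.1 l hlP
        by_cases h1 : j < k + 4
        · exact (hS.lo l hlN j (by omega) (Or.inl h1)).2 hb
        · exact (hB.p1.2.2 j (by omega) (by omega) l hlN hb).1 hj hlP
      rcases hmem with ((h | h) | h) | h
      · exact (him j (by omega) e (by omega)).2.2 (h.1.2 e (by omega) le_rfl)
      · have h1 := (him e (by omega) j (by omega)).1.mp (h.1.2 e (by omega) le_rfl).symm
        omega
      · rcases h with ⟨-, l, hl, hb⟩ | ⟨h, -⟩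
        · exact hKno l hl hb
        · exact h.2.2 (a j) haj hedge
      · rcases h with ⟨-, l, hl, hb⟩ | ⟨h, -⟩
        · exact hKno l hl hb
        · exact h.2.2 (a j) haj' hedge
    · intro j hj j' hj' h
      rw [Finset.mem_range] at hj hj'
      exact him.inj_b (by omega) (by omega) h

end Pool.Agent.MPd439b2.SA
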