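import Pool.Agent.Lib.MP_d439b2_co.SA.SpecC

/-!
# MP_d439b2_co, SA: components of the frame edges (helper18)
-/

set_option autoImplicit false

namespace Pool.Agent.MPd439b2.SA

open Pool.Agent.MPd439b2 Pool.Agent.MPd439b2.W

theorem pIdx : S_Idx := by
  classical
  intro n lo hi N V D a b x KA KB _ hF hhi hK hN
  have hL := hF.lad
  have hX : ∀ i, lo ≤ i → i < hi → x i ∈ XM D n b lo hi := fun i h1 h2 =>
    ⟨i, h1, h2, Or.inl fun j hj => hL.xb i (by omega) j hj⟩
  have hbU : ∀ i, i < n → b i ∈ LtS D n a b := by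
    intro i hi'
    intro j hj l hl h1 h2
    have e1 : i = j := by
      rcases h1 with h1 | h1
      · exact ((hL.im j hj i hi').1.1 h1.symm).symm
      · exact absurd h1 (hL.im i hi' j hj).2.2
    have e2 : i = l := by
      rcases h2 with h2 | h2
      · exact ((hL.im l hl i hi').1.1 h2.symm).symm
      · exact absurd h2 (hL.im i hi' l hl).2.2
    omega
  have haU : ∀ i, i < n → a i ∈ LtS D n a b := by
    intro i hi'
    intro j hj l hl h1 h2
    have e1 : i = j := by
      rcases h1 with h1 | h1
      · exact absurd h1 (hL.im i hi' j hj).2.1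
      · exact (hL.im i hi' j hj).1.1 h1
    have e2 : i = l := by
      rcases h2 with h2 | h2
      · exact absurd h2 (hL.im i hi' l hl).2.1
      · exact (hL.im i hi' l hl).1.1 h2
    omega
  have hall : ∀ i j t, t < N + 1 → lo < i → i < hi → j < n → D.Adj (x i) (b j) → b j ∈ KB t →
      ∀ v ∈ KB t, D.Adj (x i) v := by
    intro i j t ht h1 h2 hj hadj hbj
    rcases hK.xb (x i) (hX i h1.le h2) t ht with h | h
    · exact h
    · exact absurd hadj (h _ hbj)
  have hex : ∀ i, ∃ t, lo < i → i + 1 < hi → t < N ∧ b i ∈ KB t ∧ a i ∈ KA t := by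
    intro i
    by_cases h1 : lo < i ∧ i + 1 < hi
    · have hin : i < n := by omega
      have hba : D.Adj (b i) (a i) := (hL.im.edge hin).symm
      obtain ⟨t, ht, hbt⟩ := hK.cov (x lo) (hX lo le_rfl (by omega)) (b i) (hbU i hin) (a i)
        (haU i hin) ((hL.xb lo (by omega) i hin).2 (by omega)) hba
      refine ⟨t, fun _ _ => ⟨?_, hbt, ?_⟩⟩
      · by_contra hne
        have htN : t = N := by omega
        subst htN
        have h2 := hall (i + 1) (n - 1) t ht (by omega) h1.2 (by omega)
          ((hL.xb (i + 1) (by omega) (n - 1) (by omega)).2 (by omega)) hN (b i) hbt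
        have h3 := (hL.xb (i + 1) (by omega) i hin).1 h2
        omega
      · have hmem : a i ∈ KA t ∪ KB t := by
          by_contra hno
          exact (hK.comp t ht).2.2 (a i) (haU i hin) ⟨hno, b i, Or.inr hbt, hba⟩
        rcases hmem with h2 | h2
        · exact h2
        · exact absurd hba (hK.iB t ht _ hbt _ h2)
    · exact ⟨0, fun h2 h3 => absurd ⟨h2, h3⟩ h1⟩
  choose l hl using hex
  refine ⟨l, hl, ?_⟩
  have key : ∀ i j, lo < i → j + 1 < hi → l i = l j → ¬ i < j := by
    intro i j h1 h2 hij hlt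
    have hi1 := hl i h1 (by omega)
    have hj1 := hl j (by omega) h2
    have h3 := hall (i + 1) j (l j) (by omega) (by omega) (by omega) (by omega)
      ((hL.xb (i + 1) (by omega) j (by omega)).2 (by omega)) hj1.2.1 (b i) (hij ▸ hi1.2.1)
    have h4 := (hL.xb (i + 1) (by omega) i (by omega)).1 h3
    omega
  intro i j h1 h2 h3 h4 hij
  have h5 := key i j h1 h4 hij
  have h6 := key j i h3 h2 hij.symm
  omega

end Pool.Agent.MPd439b2.SA
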