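import Pool.Agent.Lib.MP_d439b2_co.SA.SpecA

/-!
# MP_d439b2_co, SA, A13: selecting a sub-matching on which the light traces are small
-/

set_option autoImplicit false

namespace Pool.Agent.MPd439b2.SA

open Pool.Agent.MPd439b2 Pool.Agent.MPd439b2.W

namespace Lgtx

/-- a member of maximal size -/
theorem exmax (m e : ℕ) (F : Set (Finset ℕ)) (hm : ∀ T ∈ F, T.card ≤ m) : ∀ d : ℕ,
    (∃ T ∈ F, e ∈ T ∧ m ≤ T.card + d) →
    ∃ S ∈ F, e ∈ S ∧ ∀ T ∈ F, e ∈ T → T.card ≤ S.card := by
  intro d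
  induction d with
  | zero =>
    rintro ⟨T, hT, he, hc⟩
    exact ⟨T, hT, he, fun T' hT' _ => (hm T' hT').trans (by omega)⟩
  | succ d ih =>
    rintro ⟨T, hT, he, hc⟩
    by_cases h : ∃ T' ∈ F, e ∈ T' ∧ T.card < T'.card
    · obtain ⟨T', hT', he', hlt⟩ := h
      exact ih ⟨T', hT', he', by omega⟩
    · refine ⟨T, hT, he, fun T' hT' he' => ?_⟩
      by_contra hcon
      exact h ⟨T', hT', he', by omega⟩

/-- the sets `S e` -/
theorem exS (m : ℕ) (F : Set (Finset ℕ)) (h1 : 1 ≤ m) (hm : ∀ T ∈ F, T.card ≤ m)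
    (hF : ∀ T ∈ F, ∀ T' ∈ F, Disjoint T T' ∨ T ⊆ T' ∨ T' ⊆ T ∨
      ((T \ T').card ≤ 1 ∧ (T' \ T).card ≤ 1)) (e : ℕ) :
    ∃ S : Finset ℕ, e ∈ S ∧ S.card ≤ m ∧ ∀ T ∈ F, e ∈ T → (T \ S).card ≤ 1 := by
  by_cases h : ∃ T ∈ F, e ∈ T
  · obtain ⟨T, hT, he⟩ := h
    obtain ⟨S, hS, heS, hmax⟩ := exmax m e F hm m ⟨T, hT, he, by omega⟩
    refine ⟨S, heS, hm S hS, fun T' hT' he' => ?_⟩
    rcases hF T' hT' S hS with h2 | h2 | h2 | h2
    · exact absurd heS (Finset.disjoint_left.1 h2 he')
    · rw [Finset.sdiff_eq_empty_iff_subset.2 h2, Finset.card_empty]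
      omega
    · have h3 : S = T' := Finset.eq_of_subset_of_card_le h2 (hmax T' hT' he')
      rw [h3, Finset.sdiff_self, Finset.card_empty]
      omega
    · exact h2.1
  · refine ⟨{e}, Finset.mem_singleton_self e, ?_, fun T hT he => absurd ⟨T, hT, he⟩ h⟩
    rw [Finset.card_singleton]
    exact h1

end Lgtx

theorem pLgt : S_Lgt := by
  intro r m I F h1 hI hm hF
  choose S hS1 hS2 hS3 using Lgtx.exS m F h1 hm hF
  clear hF
  induction r generalizing I with
  | zero =>
    refine ⟨∅, Finset.empty_subset I, Finset.card_empty, fun T _ => ?_⟩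
    rw [Finset.inter_empty, Finset.card_empty]
    omega
  | succ r ih =>
    have hne : I.Nonempty := Finset.card_pos.1 (by omega)
    obtain ⟨e, he⟩ := hne
    have hc : r * m < (I \ S e).card := by
      have h2 := Finset.le_card_sdiff (S e) I
      have h3 := hS2 e
      have h4 : (r + 1) * m = r * m + m := by ring
      omega
    obtain ⟨N, hN1, hN2, hN3⟩ := ih (I \ S e) hc
    have heN : e ∉ N := fun h => (Finset.mem_sdiff.1 (hN1 h)).2 (hS1 e)
    refine ⟨insert e N, ?_, ?_, fun T hT => ?_⟩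
    · intro x hx
      rcases Finset.mem_insert.1 hx with h | h
      · exact h ▸ he
      · exact (Finset.mem_sdiff.1 (hN1 h)).1
    · rw [Finset.card_insert_of_notMem heN, hN2]
    · by_cases heT : e ∈ T
      · have hsub : T ∩ insert e N ⊆ insert e (T \ S e) := by
          intro x hx
          rw [Finset.mem_inter, Finset.mem_insert] at hx
          rw [Finset.mem_insert, Finset.mem_sdiff]
          rcases hx.2 with h | h
          · exact Or.inl h
          · exact Or.inr ⟨hx.1, (Finset.mem_sdiff.1 (hN1 h)).2⟩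
        have h5 := Finset.card_le_card hsub
        have h6 := Finset.card_insert_le e (T \ S e)
        have h7 := hS3 e T hT heT
        omega
      · rw [Finset.inter_insert_of_notMem heT]
        exact hN3 T hT

end Pool.Agent.MPd439b2.SA
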