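import Pool.Agent.Lib.MP_d439b2_co.SA.SpecA

/-!
# MP_d439b2_co, SA, Spec B: exact frames (helper13)

Every `S_...` is a statement to be proved in its own file; the docstring contains the complete proof.
`v ~ w` means `D.Adj v w`.  In a ladder the `x i` are pairwise not adjacent (common neighbour `b (n - 1)`), they are
different (different traces on the `b j`), and different from the `a j`, `b j` (`x i` with `i + 1 < n` sees at least two
vertices of the matching; a vertex of the matching sees only one).  A vertex which is adjacent to two different vertices of the matching is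
not a vertex of the matching.  A vertex is not adjacent to both `a j` and `b j`.
THE MERGE TRICK: for a set `I` of indices let `P i = {b i}`, `Q i = {a i}` or `Q i = {a i, x (s i)}` with
`s i ≤ i`, the `s i` different: this is a block matching (`b i ~ x (s i)` as `s i ≤ i`; `b i ≁ a j`, `a i ≁ a j`,
`b i ≁ b j` for `i ≠ j`).  A vertex `v` with `v ≁ x (s i)` touches the edge `i` of it iff `v ~ b i`.
-/

set_option autoImplicit false

namespace Pool.Agent.MPd439b2.SA

open Pool.Agent.MPd439b2 Pool.Agent.MPd439b2.W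

/-- **B1.** After two neighbours the trace is constant.  (Uses `S_R`.)

Proof. Suppose `v ≁ b e`; `e ≠ l`.  `I = {0, .., k - 1} ∪ {p, q, l, e}` (`k ≤ p`), `P i = {b i}`, `Q i = {a i}`,
`C = {v, x p}`, `C' = {x (q + 1)}`.  `v` is different from `x p` (`x p ~ b e`), from `x (q + 1)` (`≁ b p`) and from the vertices of
the matching (`v ~ b p, b q`).  `C` is complete to `{b i}` iff `i ≥ p` and `v ~ b i`: among the indices of `I` these are
`p, q, l`; it is never complete to `{a i}`.  `C'` touches `l, e` only.  `C` is not complete to `C'` (`x p ≁ x (q + 1)`).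
S_R: `R = {0, .., k - 1}`, `i, j = p, q`, common index `l`: every index touched by `C'` is touched by `C`; but `e` is
not: contradiction. -/
def S_TbA : Prop := ∀ (k n : ℕ) (V : Type) (D : SimpleGraph V) (a b x : ℕ → V), TriFree D →
  NoSpi k D → Lad D n a b x → ∀ (v : V) (p q l e : ℕ), k ≤ p → p < q → q < l → q < e → l < n → e < n →
  D.Adj v (b p) → D.Adj v (b q) → D.Adj v (b l) → D.Adj v (b e)

/-- **B2.** A trace does not consist of two neighbours.  (Uses `S_R`.)

Proof. `T` = a set of `k` elements of `{k, .., q - 1} \ {p}` (it has `q - k - 1 ≥ k + 3` elements).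
`I = T ∪ {p, q, q + 1, q + 2}`.  `P i = {b i}`; `Q p = {a p}`, `Q q = {a q}`, and `Q i = {a i, x (s i)}` for the other
`k + 2` indices, where `s` is the order isomorphism of these indices onto `{0, .., k + 1}`: `s i ≤ i` (the `j`-th
element of `T` is at least `k + j`), `s i ≤ k + 1 < p < q`.  `v ≁ x s` for `s ≤ p`: common neighbour `b p`.  `v ≠ x s` for
all `s`: `x s ~ b q` implies `x s ~ b (q + 1)`.
`C = {x q}`, `C' = {v}`.  `C` touches `q, q + 1, q + 2` (and not the indices `< q`; `x q ≁ a i`).  `C'` touches `p, q`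
(`v ≁ a p, a q`, no triangles) and no other index of `I` (merge trick).  S_R with `R = T`, `i, j = q + 1, q + 2`, common
index `q`: `p` is touched by `C`: contradiction. -/
def S_TbB : Prop := ∀ (k n : ℕ) (V : Type) (D : SimpleGraph V) (a b x : ℕ → V), TriFree D →
  NoSpi k D → Lad D n a b x → ∀ (v : V) (p q : ℕ), k + 2 ≤ p → p < q → 2 * k + 4 ≤ q → q + 3 < n →
  D.Adj v (b p) → D.Adj v (b q) → (∀ j, k ≤ j → j < q → D.Adj v (b j) → j = p) →
  ¬ ∀ j, q < j → j < n → ¬ D.Adj v (b j)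

/-- **B3.** The gap in a final trace.  (Uses `S_R`.)

Proof. `T` = a set of `k` elements of `{k, .., q - 3} \ {p}` (it has at least `q - k - 3 ≥ k + 1` elements).
`I = T ∪ {p, q - 2, q - 1, n - 1}`.  `P i = {b i}`, `Q p = {a p}`, `Q (n - 1) = {a (n - 1)}`, `Q i = {a i, x (s i)}` for
the other `k + 2` indices, `s` the order isomorphism onto `{0, .., k + 1}` (`s i ≤ i`, `s i ≤ k + 1 < q - 2`).
`v ≁ x s` for all `s < n`: common neighbour `b (n - 1)`.  `v ≠ x s`: `v ~ b p`, `v ≁ b (q - 1)`.  `C = {x (q - 2)}`,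
`C' = {v}`.  `C` touches `q - 2, q - 1, n - 1`; `C'` touches `p, n - 1`.  S_R with `R = T`, `i, j = q - 2, q - 1`,
common index `n - 1`: `p` is touched by `C`: contradiction. -/
def S_TbC : Prop := ∀ (k n : ℕ) (V : Type) (D : SimpleGraph V) (a b x : ℕ → V), TriFree D →
  NoSpi k D → Lad D n a b x → ∀ (v : V) (p q : ℕ), k ≤ p → p + 3 ≤ q → 2 * k + 4 ≤ q → q + 1 < n →
  D.Adj v (b p) → (∀ j, k ≤ j → j < q → D.Adj v (b j) → j = p) →
  ¬ ∀ j, q ≤ j → j < n → D.Adj v (b j)

/-- **B4.** The `b`-traces are exact.  (Uses `S_TbA`, `S_TbB`, `S_TbC`.)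

Proof. `c = 2 k + 4`.  Let `S` be the set of the `j` with `k ≤ j < n`, `v ~ b j`.  If `|S| ≤ 1`: first alternative.
Otherwise let `p < q` be the two smallest elements of `S`.
Case 1: `v ≁ b j` for `q < j < n` (so `S = {p, q}`).  If `q < c` or `q + 3 ≥ n` or `p < c`: at most one element of `S` is in
`{c, .., n - 4}`: first alternative.  Otherwise B2: contradiction (`k + 2 ≤ c ≤ p`).
Case 2: otherwise B1 gives `v ~ b j` for all `q < j < n`, and `q + 1 < n`.  If `q ≤ c`: all `j ≥ c` are neighbours: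
`FinS` with `q' = 0`.  If `q > c`: by B3 `q ≤ p + 2`.  `q = p + 1`: `v ~ b j` iff `p ≤ j` (for `k ≤ j`): `FinS`, first form
with `q' = p - c`.  `q = p + 2`: for `j ≥ k`: `v ~ b j` iff `j = p` or `p + 2 ≤ j`; if `c ≤ p` the second form with
`q' = p - c`, otherwise the first form with `q' = p + 2 - c`. -/
def S_Tb : Prop := ∀ (k n : ℕ) (V : Type) (D : SimpleGraph V) (a b x : ℕ → V), TriFree D →
  NoSpi k D → Lad D n a b x → ∀ v : V,
  Few (n - (2 * k + 7)) (fun j => D.Adj v (b (j + (2 * k + 4)))) ∨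
    FinS (n - (2 * k + 4)) fun j => D.Adj v (b (j + (2 * k + 4)))

/-- **B5.** No vertex has neighbours of both kinds.  (Uses `S_R`, `S_Tb`.)

Proof. Suppose `v ~ a j`.  So `v ≁ b j`, `e ≠ j`, and `v` is not a vertex of the matching.  `c = 2 k + 4`,
`i' = 3 k + 5 = c + k + 1`.  By B4:
Case 1: `e` is the only index in `{c, .., n - 4}` with `v ~ b e`.  `T` = a set of `k` elements of `{c, .., i' - 1} \ {j}`,
`p, q` different elements of `{i', .., n - 4} \ {e, j}` (this interval has at least four elements: `e + 3 < n`,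
`3 k + 8 ≤ e`), `e' = e`.
Case 2: for `c ≤ m < n`: `v ~ b m` iff `q₀ ≤ m`, or iff `m = q₀` or `q₀ + 2 ≤ m` (`q₀ ≥ c`, or all `m ≥ c` are neighbours).
As `v ~ b e`, `e + 3 < n`, we have `v ~ b (n - 1)`.  If `q₀ + 1 < 3 k + 8` (or all are neighbours) then `v ~ b j`:
contradiction.  So `3 k + 7 ≤ q₀`; `T = {c, .., c + k - 1}` (`j ≥ 3 k + 8`), `p, q` different elements of
`{i', .., q₀ - 1} \ {j}` (if `q₀ = 3 k + 7` then `j` is not in this interval; otherwise it has at least three
elements), `e' = n - 1`, `e' ≠ j`.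
In both cases: `I = T ∪ {p, q, e', j}`, `P i = {b i}`, `Q e' = {a e'}`, `Q j = {a j}`, `Q i = {a i, x (s i)}` for the
other `k + 2` indices, with different `s i ∈ {0, .., k + 1}` (all indices are at least `c > k + 1`).  `v ≁ x s` for
`s ≤ k + 1`, and `v ≁ x i'`: common neighbour `b e'` (`i' ≤ e'`).  `v ≠ x s, x i'` as `v ≁ b p`, `x s, x i' ~ b p`.
`C = {x i'}`, `C' = {v}`.  `C` touches the indices `≥ i'` of `I`, at the `b`-side; `C'` touches `e'` (at the `b`-side) and
`j` (at the `a`-side) only (merge trick; `v ≁ a e'`).  S_R with `R = T`, `p, q`, common index `e'`: `j` is touched by `C`.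
S_R with common index `j`: as `C` is not complete to `C'`, both are complete to `{b j}` or both to `{a j}`:
contradiction (`v ≁ b j`, `x i' ≁ a j`). -/
def S_Ex : Prop := ∀ (k n : ℕ) (V : Type) (D : SimpleGraph V) (a b x : ℕ → V), TriFree D →
  NoSpi k D → Lad D n a b x → ∀ (v : V) (e j : ℕ), 3 * k + 8 ≤ e → e + 3 < n → 3 * k + 8 ≤ j → j < n →
  D.Adj v (b e) → ¬ D.Adj v (a j)

/-- **B6.** Ladders give exact frames.  (Uses `S_Tb`, `S_Ex`.)

Proof. `c = 3 k + 8`, `N = n + 3 k + 11`.  `lad` is clear.  `tb`: B4; `b (j + c) = b ((j + k + 4) + (2 k + 4))`.  `Few`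
restricts.  `FinS` for `j' = j + k + 4`: first form with `q'`: first form with `q' - (k + 4)`.  Second form
(`j' = q'` or `q' + 2 ≤ j'`): if `k + 4 ≤ q'` the second form with `q' - (k + 4)`, otherwise the first form with
`q' + 2 - (k + 4)`.  `ex`: B5 (`i + c + 3 < N`). -/
def S_Fr0 : Prop := ∀ (k n : ℕ) (V : Type) (D : SimpleGraph V) (a b x : ℕ → V), TriFree D →
  NoSpi k D → Lad D (n + (3 * k + 11)) a b x →
  Fr0 D n (fun i => a (i + (3 * k + 8))) (fun i => b (i + (3 * k + 8))) fun i => x (i + (3 * k + 8))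

/-- **B7.** Subsequences of ladders and frames.

Proof. `σ` is injective on `i < n'`, and `σ i ≤ σ j` iff `i ≤ j`.  `Few` and `ex` are clear.  `FinS` for `p` with `q`, first
form: let `q'` be the number of the `j < n'` with `σ j < q`; these are the `j < q'`, so `p (σ j)` iff `q' ≤ j`.  Second
form (`p i` iff `i = q` or `q + 2 ≤ i`): let `q'` be the number of the `j < n'` with `σ j < q`.  If both `q` and `q + 1` are
values of `σ` then `σ q' = q`, `σ (q' + 1) = q + 1`, and `p (σ j)` iff `j = q'` or `q' + 2 ≤ j`.  If `q` is a value and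
`q + 1` is not: `p (σ j)` iff `q' ≤ j`.  If `q` is not a value: `p (σ j)` iff `σ j ≥ q + 2` iff `j ≥ q''`, the number of the
`j < n'` with `σ j < q + 2`. -/
def S_Sub0 : Prop := ∀ (n n' : ℕ) (V : Type) (D : SimpleGraph V) (a b x : ℕ → V) (σ : ℕ → ℕ),
  (∀ i < n', σ i < n) → (∀ i j, i < j → j < n' → σ i < σ j) →
  (Lad D n a b x → Lad D n' (fun i => a (σ i)) (fun i => b (σ i)) fun i => x (σ i)) ∧
  (Fr0 D n a b x → Fr0 D n' (fun i => a (σ i)) (fun i => b (σ i)) fun i => x (σ i)) ∧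
  (FrT D n a b x → FrT D n' (fun i => a (σ i)) (fun i => b (σ i)) fun i => x (σ i))

/-- **B8.** The `a`-traces over a ladder.  (Uses `S_RV`.)

Proof. Let `S = {j < n | v ~ a j}`, `Z = {j < n | v ≁ a j}`; `Jt D n a b v = S`, `Jt D n a b (x i) = {j < n | i ≤ j}`.
`x i` sees the `b`-ends, `v` the `a`-ends, so they never see the same end.  `v ≠ x i` (`x i ~ b i`).
(R1) If at least `k` elements of `Z` are smaller than `i < n`, at least two elements of `Z` are `≥ i`, and some element of `S`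
is `≥ i`, then every element of `S` is `≥ i`: S_RV for `x i`, `v`.
(R2) If at least `k` elements of `Z` are smaller than `i < n`, at least two elements of `S` are smaller than `i`, and some
element of `S` is `≥ i`, then all `j ≥ i` are in `S`: S_RV for `v`, `x i` (if `j ≥ i`, `j ∉ S` then `j` is touched by `x i`,
not by `v`).
If `|Z| ≤ k`: fourth alternative.  Otherwise let `i₀` be the least `i` such that `k` elements of `Z` are smaller than
`i` (so exactly `k`; `i₀ < n`, or some element of `Z` is `≥ i₀`).  If at most one element of `S` is in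
`{k + 3, .., n - 4}`: first alternative.  Otherwise let `p < q` be the two smallest elements of `S`, and
`i₁ = max (q + 1) i₀`.  By (R2), if `i₁ < n`: no element or every `j` with `i₁ ≤ j < n` is in `S` (if `i₁ = n` the first holds).
(α) `S` has no elements `≥ i₁`.  If `i₁ = i₀`: fifth alternative with `q := i₀`.  If `i₁ = q + 1`: `S = {p, q}`, so
`k + 3 ≤ p`, `q + 3 < n`; (R1) with `i = q`: `q - 1 ≥ k` elements of `Z` are smaller than `q`, `q + 1, q + 2 ∈ Z`, `q ∈ S`: so
`p ≥ q`: contradiction.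
(β) Every `j`, `i₁ ≤ j < n`, is in `S`, `i₁ < n`.  As some element of `Z` is `≥ i₀`, `i₁ ≠ i₀`, so `i₁ = q + 1 > i₀` and
`S = {p} ∪ {j | q ≤ j}`.  If `q ≤ k + 3`: second alternative with `q' = k + 3`, i.e. `v ~ a j` for all `j ≥ k + 3`.  If
`q ≤ p + 2`: second alternative (`q = p + 1`, with `p`) or third (`q = p + 2`, with `p`); if `p < k + 3` this gives the
second alternative or the third for the indices `j ≥ k + 3`.  If `k + 4 ≤ q` and `p + 3 ≤ q`: (R1) with `i = q - 2`: `q - 3 ≥ k`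
elements of `Z` are smaller (all except `p`), (`i₀ ≤ q` is not needed), `q - 2, q - 1 ∈ Z`, `q ∈ S`: so `p ≥ q - 2`:
contradiction. -/
def S_TraA : Prop := ∀ (k n : ℕ) (V : Type) (D : SimpleGraph V) (a b x : ℕ → V), TriFree D →
  NoSpi k D → Lad D n a b x → ∀ v : V, (∀ j < n, ¬ D.Adj v (b j)) →
  (∀ i j, k + 3 ≤ i → i + 3 < n → k + 3 ≤ j → j + 3 < n → D.Adj v (a i) → D.Adj v (a j) → i = j) ∨
  (∃ q, ∀ j, k + 3 ≤ j → j < n → (D.Adj v (a j) ↔ q ≤ j)) ∨
  (∃ q, ∀ j, k + 3 ≤ j → j < n → (D.Adj v (a j) ↔ j = q ∨ q + 2 ≤ j)) ∨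
  (∀ Z : Finset ℕ, (∀ j ∈ Z, j < n ∧ ¬ D.Adj v (a j)) → Z.card ≤ k) ∨
  ∃ q ≤ n, (∀ j, q ≤ j → j < n → ¬ D.Adj v (a j)) ∧
    ∀ Z : Finset ℕ, (∀ j ∈ Z, j < q ∧ ¬ D.Adj v (a j)) → Z.card ≤ k

/-- **B9.** The second dichotomy.  (Uses `S_TraA`, `W.S_Dig`, `W.S_Ind`.)

Proof. `M = L + N'`, `ℓ = M + (2 k + 1) * m₀ + k + 3`, `T = 2 * ((2 k + 1) * (2 M + 4) + 1)`, `n = 2 k + 8 + T * ℓ`.  Blocks
`B_t = {c_t, .., c_t + ℓ - 1}`, `c_t = k + 3 + t ℓ`, `t < T`.  Let `E` be the set of the vertices `v` without neighbours among the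
`b j` (`j < n`), `S v = {j < n | v ~ a j}`.
(1) Some block `B_t` is such that for every `v ∈ E`: `|S v ∩ B_t| ≤ 1` or `|B_t \ S v| ≤ k`.  Let `C` be the set of the
`c ∈ B_t` such that `f_c ≁ a c` for some `f_c ∈ E` with `|B_t \ S f_c| ≤ k`.  `W.S_Ind` (`x := f`, `τ = k`):
`|C| ≤ (2 k + 1) m₀`.  `σ` = the increasing enumeration of `M` elements of `B_t \ C`.  `FrT D L`: `Fr0` by `S_Sub0`; `ta`: if
`v ∉ E` then `v ~ b i` for some `i < n`, so `v` has no neighbours among the `a j`, `j < n` (`ex`).  If `v ∈ E`: `Few` in the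
first case, and in the second case all `j ∈ B_t \ C` are in `S v`.
(2) Otherwise for every `t < T` there is `v_t ∈ E` with `|S v_t ∩ B_t| ≥ 2`, `|B_t \ S v_t| ≥ k + 1`.  `S_TraA` for `v_t`: not the
first alternative (`B_t ⊆ {k + 3, .., n - 4}`), not the fourth.  `t` has kind (i) if the second or the third alternative
holds, kind (ii) if the fifth holds.  Note `c_s` is the first element of `B_s`.
Kind (i): second alternative: `c_t < q` (something in `B_t` is not in `S`) and `q < c_t + ℓ - 1`; so `c_s ∈ S v_t` iff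
`s > t`, for `s ≠ t`.  Third alternative: something of `B_t` is not in `S`, so `c_t ≤ q + 1`; two elements of `B_t` are in
`S`, so `q + 2 ≤ c_t + ℓ - 1`.  For `s > t`: `c_s ≥ q + 2`, `c_s ∈ S`.  For `s < t`: `c_s ≤ c_t - ℓ < c_t - 1 ≤ q`, so
`c_s ∉ S` (`ℓ ≥ 3`).
Kind (ii): `q > c_t` and `q < c_t + ℓ` (otherwise `B_t \ S` has at most `k` elements).  For `s > t`: `c_s ≥ q`, `c_s ∉ S v_t`.  For
`s < t`: `c_s < q`, so at most `k` of the `s < t` satisfy `c_s ∉ S v_t`.
(3) At least `T / 2` blocks have the same kind.  Kind (i): let `t_0 < t_1 < .. < t_{2 M + 1}` be such; `y i = v_{t_{2 i}}` for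
`i < L`, `σ j = c_{t_{2 j + 1}}` for `j < M`: `y i ~ a (σ j)` iff `t_{2 j + 1} > t_{2 i}` iff `i ≤ j` (the indices are different).
`y i ≁ b`.  `IM` is restricted and swapped.  Second alternative of the statement.
Kind (ii): `W.S_Dig` with `τ = k` and `R t s :↔ s < t ∧ c_s ∉ S v_t` gives `2 M + 2` indices `t_0 < t_1 < ..` of this
kind with `c_s ∈ S v_t` for all `s < t` among them.  `w i = v_{t_{2 i + 1}}` for `i < N'`, `σ j = c_{t_{2 j}}` for `j < M`:
`w i ~ a (σ j)` iff `2 j < 2 i + 1` iff `j ≤ i`; `w i ≁ b`.  `x (σ i) ~ b (σ j)` iff `σ i ≤ σ j` iff `i ≤ j`.  Third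
alternative. -/
def S_Tri3 : Prop := ∀ k m₀ L N' : ℕ, ∃ n : ℕ, ∀ (V : Type) (D : SimpleGraph V) (a b x : ℕ → V),
  TriFree D → NoSpi k D → ¬ CoM D m₀ → Fr0 D n a b x →
  ∃ σ : ℕ → ℕ, (∀ i < L + N', σ i < n) ∧ (∀ i j, i < j → j < L + N' → σ i < σ j) ∧
    (FrT D L (fun i => a (σ i)) (fun i => b (σ i)) (fun i => x (σ i)) ∨
    (∃ y, Lad D L (fun i => b (σ i)) (fun i => a (σ i)) y) ∨
    ∃ w, OL D N' (fun i => a (σ i)) (fun i => b (σ i)) (fun i => x (σ i)) w)

/-- **B10.** The second dichotomy in final form.  (Uses `S_Fr0`, `S_Sub0`, `S_Tri3`, `S_CoMs`.)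

Proof. `m₀` from `S_CoMs`; `n` from `S_Tri3` for `L₁ = L + 3 k + 11` and `N'`; `r = n + 3 k + 11`.  `S_Fr0` gives
`Fr0 D n` (shifted by `3 k + 8`); `S_Tri3` gives `σ`.  First alternative: `FrT D L₁`, restrict to the first `L` indices
(`S_Sub0` with the identity).  Third alternative: done.  Second: `Lad D L₁ (b ∘ σ) (a ∘ σ) y`; `S_Fr0` with exchanged
roles: `Fr0 D L` for `b ∘ σ`, `a ∘ σ`, `y` shifted by `3 k + 8`; and `Fr0 D n a b x` restricted by
`i ↦ σ (i + 3 k + 8)` (`S_Sub0`).  Together `FrI D L`.  The final `σ` is `i ↦ σ i + 3 k + 8` resp.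
`i ↦ σ (i + 3 k + 8) + 3 k + 8`. -/
def S_Win : Prop := ∀ k L N' : ℕ, ∃ r : ℕ, ∀ (V : Type) (D : SimpleGraph V) (a b x : ℕ → V),
  TriFree D → NoSpi k D → Lad D r a b x →
  ∃ σ : ℕ → ℕ, (∀ i < L + N', σ i < r) ∧ (∀ i j, i < j → j < L + N' → σ i < σ j) ∧
    (FrT D L (fun i => a (σ i)) (fun i => b (σ i)) (fun i => x (σ i)) ∨
    (∃ y, FrI D L (fun i => a (σ i)) (fun i => b (σ i)) (fun i => x (σ i)) y) ∨
    ∃ w, OL D N' (fun i => a (σ i)) (fun i => b (σ i)) (fun i => x (σ i)) w)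

end Pool.Agent.MPd439b2.SA
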