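import Pool.Agent.Lib.MP_d439b2_co.SA.Defs

/-!
# MP_d439b2_co, SA, Spec Fan: the exact cut between mediums and isolated light vertices (helper24)

Note 2693 (1).  `J D N v x` = the indices `l < N` with `x ~ v l`.  In a fan the sets `J x`, `x ∈ X`, of different
sizes are nested.  At a size `s` at which at most one set `P` occurs, `X` and `W` can be split such that
the left part of `X` is complete to the right part of `W` and the right part of `X` has no neighbour in the left part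
of `W`.

Every `S_...` is a statement to be proved in its own file; the docstring contains the complete proof.
`x ~ y` means `D.Adj x y`.  All models of `S_{2,2,3} + k P_2` in this file consist of single vertices
`c; (x₁, y₁), (x₂, y₂), (x₃, y₃, z₃)` and the low edges `(p j, q j)`, `j < k`: use `S_Pt` (hypothesis).
-/

set_option autoImplicit false

namespace Pool.Agent.MPd439b2.SA

open Pool.Agent.MPd439b2 Pool.Agent.MPd439b2.W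

variable {V : Type}

/-- **Pt.** Models which consist of single vertices.

Proof. `g = ![{c}, {x₁}, {y₁}, {x₂}, {y₂}, {x₃}, {y₃}, {z₃}]`, `p t ↦ {p t}`, `q t ↦ {q t}` is a `Spi D k`.
The pairs `c y₁`, `c y₂`, `c y₃`, `x₁ x₂`, `x₁ x₃`, `x₂ x₃`, `x₃ z₃` are not adjacent because `D` has no triangles.
Different vertices of the model are different in `D`: if `s, s'` are two of them there is a vertex `r` of the model which
is adjacent to exactly one of them (`c, x₁`: adjacent; `c, y₁`: `x₂`; `c, y₃`: `x₁`; `c, z₃`: `x₁`; `y₁, y₂`: `x₁`; ...;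
`p t` and `v`: `q t`; `q t` and `v`: `p t`; `p t`, `p u`: `q t`; `p t`, `q u`: `q t`). -/
def S_Pt : Prop := ∀ (V : Type) (D : SimpleGraph V) (k : ℕ) (c x₁ y₁ x₂ y₂ x₃ y₃ z₃ : V)
  (p q : ℕ → V), TriFree D → NoSpi k D →
  D.Adj c x₁ → D.Adj x₁ y₁ → D.Adj c x₂ → D.Adj x₂ y₂ → D.Adj c x₃ → D.Adj x₃ y₃ → D.Adj y₃ z₃ →
  ¬ D.Adj c z₃ → ¬ D.Adj x₁ y₂ → ¬ D.Adj x₁ y₃ → ¬ D.Adj x₁ z₃ → ¬ D.Adj x₂ y₁ →
  ¬ D.Adj x₂ y₃ → ¬ D.Adj x₂ z₃ → ¬ D.Adj x₃ y₁ → ¬ D.Adj x₃ y₂ → ¬ D.Adj y₁ y₂ →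
  ¬ D.Adj y₁ y₃ → ¬ D.Adj y₁ z₃ → ¬ D.Adj y₂ y₃ → ¬ D.Adj y₂ z₃ →
  IM D k p q →
  (∀ t < k, ∀ v ∈ ({c, x₁, y₁, x₂, y₂, x₃, y₃, z₃} : Set V), ¬ D.Adj v (p t) ∧ ¬ D.Adj v (q t)) →
  False

open Classical in
/-- the indices `l < N` with `x ~ v l` -/
noncomputable def J (D : SimpleGraph V) (N : ℕ) (v : ℕ → V) (x : V) : Finset ℕ :=
  (Finset.range N).filter fun l => D.Adj x (v l)

/-- **Fans**: an induced matching `u l, v l` (`l < N`); the vertices of `X` see some `v l`, no `u l`, and the common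
vertex `t`; the vertices of `W` see only vertices of `X` (among the vertices of the fan); `k` low edges
`p j, q j` without edges to the rest -/
structure Fan (D : SimpleGraph V) (k N : ℕ) (u v : ℕ → V) (t : V) (p q : ℕ → V) (X W : Set V) :
    Prop where
  im : IM D N u v
  low : IM D k p q
  xu : ∀ x ∈ X, ∀ l < N, ¬ D.Adj x (u l)
  xt : ∀ x ∈ X, D.Adj x t
  wu : ∀ w ∈ W, ∀ l < N, ¬ D.Adj w (u l) ∧ ¬ D.Adj w (v l)
  wt : ∀ w ∈ W, ¬ D.Adj w t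
  ww : ∀ w ∈ W, ∀ w' ∈ W, ¬ D.Adj w w'
  tu : ∀ l < N, ¬ D.Adj t (u l) ∧ ¬ D.Adj t (v l)
  lx : ∀ x ∈ X, ∀ j < k, ¬ D.Adj x (p j) ∧ ¬ D.Adj x (q j)
  lw : ∀ w ∈ W, ∀ j < k, ¬ D.Adj w (p j) ∧ ¬ D.Adj w (q j)
  lt : ∀ j < k, ¬ D.Adj t (p j) ∧ ¬ D.Adj t (q j)
  lu : ∀ l < N, ∀ j < k, ¬ D.Adj (u l) (p j) ∧ ¬ D.Adj (u l) (q j) ∧
    ¬ D.Adj (v l) (p j) ∧ ¬ D.Adj (v l) (q j)

/-- **Fan0.** (F0)

Proof. Suppose that `l ≠ l'` are in `J x \ J x'`.  `S_Pt`: centre `x`; legs `(v l, u l)`, `(v l', u l')`, `(t, x', w)`; low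
edges `(p j, q j)`.  Adjacent: `x ~ v l, v l', t`; `v l ~ u l`; `v l' ~ u l'`; `t ~ x'`; `x' ~ w`.  Not adjacent:
`x ≁ w`; `v l, v l' ≁ x'` (`l, l' ∉ J x'`); `u l, u l' ≁ x'` (`xu`); `w ≁ u l, v l, u l', v l'` (`wu`); `t ≁ u l, u l'`
(`tu`); `u l, v l ≁ u l', v l'` (`im`); the low edges: `lx`, `lw`, `lt`, `lu`. -/
def S_Fan0 : Prop := ∀ (V : Type) (D : SimpleGraph V) (k N : ℕ) (u v : ℕ → V) (t : V)
  (p q : ℕ → V) (X W : Set V), TriFree D → NoSpi k D → Fan D k N u v t p q X W →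
  ∀ x ∈ X, ∀ x' ∈ X, ∀ w ∈ W, D.Adj w x' → ¬ D.Adj w x → (J D N v x \ J D N v x').card ≤ 1

/-- **FanN.** Nested, or the difference has at most one element.

Proof. Suppose that `l ≠ l'` are in `J x \ J x'` and `m ∈ J x' \ J x`.  `S_Pt`: centre `x`; legs `(v l, u l)`, `(v l', u l')`,
`(t, x', v m)`.  `x' ~ v m`, `x ≁ v m`; `m ≠ l, l'`, so `v m ≁ u l, v l, u l', v l'` (`im`); the rest as in Fan0. -/
def S_FanN : Prop := ∀ (V : Type) (D : SimpleGraph V) (k N : ℕ) (u v : ℕ → V) (t : V)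
  (p q : ℕ → V) (X W : Set V), TriFree D → NoSpi k D → Fan D k N u v t p q X W →
  ∀ x ∈ X, ∀ x' ∈ X, (J D N v x \ J D N v x').card ≤ 1 ∨ J D N v x' ⊆ J D N v x

/-- families of finite sets: nested up to one element -/
def NestF (F : Set (Finset ℕ)) : Prop := ∀ P ∈ F, ∀ Q ∈ F, (P \ Q).card ≤ 1 ∨ Q ⊆ P

/-- `P` is good for `F`: all sets of the size `|P|` are equal to `P`, larger sets contain `P`, smaller ones are
contained in `P` -/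
def GoodF (F : Set (Finset ℕ)) (P : Finset ℕ) : Prop :=
  ∀ Q ∈ F, (Q.card = P.card → Q = P) ∧ (P.card < Q.card → P ⊆ Q) ∧ (Q.card < P.card → Q ⊆ P)

/-- **FanS.** Sizes.

Proof. (1) Let `|P| < |Q|` and suppose that `P` is not contained in `Q`.  `Q ⊆ P` is impossible, so `|P \ Q| ≤ 1`
(`NestF` for `P, Q`), hence `|P \ Q| = 1` and `|Q \ P| = |Q| - |P| + |P \ Q| ≥ 2`.  `NestF` for `Q, P` gives `P ⊆ Q`:
contradiction.  (2) Let `P ≠ P'` have size `s` and `Q` size `s + 1`.  By (1) `P ∪ P' ⊆ Q` and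
`s + 1 ≤ |P ∪ P'|`, so `Q = P ∪ P'`; the same for `Q'`. -/
def S_FanS : Prop := ∀ F : Set (Finset ℕ), NestF F →
  (∀ P ∈ F, ∀ Q ∈ F, P.card < Q.card → P ⊆ Q) ∧
  ∀ s, (∀ P ∈ F, ∀ P' ∈ F, P.card = s → P'.card = s → P = P') ∨
    ∀ Q ∈ F, ∀ Q' ∈ F, Q.card = s + 1 → Q'.card = s + 1 → Q = Q'

/-- **FanG.** Good sets exist between two sets of different sizes.  (Uses FanS.)

Proof. Let `s = |Q₀| < |Q₁|`.  If `Q₀` is the only set of size `s` in `F` then `P = Q₀` (FanS (1)).  Otherwise let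
`s' > s` be minimal such that a set of size `s'` is in `F` (`s' ≤ |Q₁|`).  If `s' = s + 1` then by FanS (2) there is
only one set `P` of size `s'`; it is good; `Q₀ ⊆ P` by (1); `P ⊆ Q₁` by (1) or `Q₁ = P`.  If `s' ≥ s + 2` let
`P = ⋃ {Q ∈ F | |Q| = s}` (all these `Q` are subsets of `Q₁` by (1)).  `Q₀ ⊆ P ⊆ Q₁` and, by (1), `P ⊆ Q` for all
`Q ∈ F` with `|Q| > s`, so `|P| ≤ s'`; `|P| > s` because there are two sets of size `s`.  If `|P| < s'` then no set in `F`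
has size `|P|`, larger sets have size `> s`, smaller sets have size `≤ s` and are contained in `P` (size `s`: by
definition; size `< s`: contained in `Q₀` by (1)).  If `|P| = s'` then every `Q ∈ F` of size `s'` contains `P`, so
`Q = P`; the other sizes as before. -/
def S_FanG : Prop := ∀ (F : Set (Finset ℕ)) (Q₀ Q₁ : Finset ℕ), NestF F → Q₀ ∈ F → Q₁ ∈ F →
  Q₀.card < Q₁.card → ∃ P : Finset ℕ, Q₀ ⊆ P ∧ P ⊆ Q₁ ∧ GoodF F P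

/-- the set `P` is good for the sets `J x`, `x ∈ X` -/
def Good (D : SimpleGraph V) (N : ℕ) (v : ℕ → V) (X : Set V) (P : Finset ℕ) : Prop :=
  ∀ x ∈ X, ((J D N v x).card = P.card → J D N v x = P) ∧
    (P.card < (J D N v x).card → P ⊆ J D N v x) ∧ ((J D N v x).card < P.card → J D N v x ⊆ P)

/-- `x` has the size of `P`, and some `x₀ ∈ X` of size one more misses a `w₀ ∈ W` seen by `x` -/
def Alp (D : SimpleGraph V) (N : ℕ) (v : ℕ → V) (X W : Set V) (P : Finset ℕ) (x : V) : Prop :=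
  x ∈ X ∧ (J D N v x).card = P.card ∧ ∃ x₀ ∈ X, (J D N v x₀).card = P.card + 1 ∧
    ∃ w₀ ∈ W, D.Adj w₀ x ∧ ¬ D.Adj w₀ x₀

/-- `x` has the size of `P`, and some `x₂ ∈ X` of size one less sees a `w₂ ∈ W` missed by `x` -/
def Bet (D : SimpleGraph V) (N : ℕ) (v : ℕ → V) (X W : Set V) (P : Finset ℕ) (x : V) : Prop :=
  x ∈ X ∧ (J D N v x).card = P.card ∧ ∃ x₂ ∈ X, (J D N v x₂).card + 1 = P.card ∧
    ∃ w₂ ∈ W, D.Adj w₂ x₂ ∧ ¬ D.Adj w₂ x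

/-- **Fan1.** (F1)  (Uses Fan0.)

Proof. Let `x` be in both, with `x₀, w₀` and `x₂, w₂`.  `Good`: `J x = P`, `P ⊆ J x₀`, `J x₂ ⊆ P`; so there are
`l ∈ J x₀ \ P` and `l' ∈ P \ J x₂`, `l ≠ l'`, both in `J x₀ \ J x₂`.  By Fan0 for `(x₀, x₂)`: every `w ∈ W` with `w ~ x₂`
satisfies `w ~ x₀`.  So `w₂ ~ x₀`, and `w₀ ≁ x₂` (as `w₀ ≁ x₀`).
`S_Pt`: centre `x₀`; legs `(v l, u l)`, `(w₂, x₂)`, `(v l', x, w₀)`; low edges `(p j, q j)`.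
Adjacent: `x₀ ~ v l, w₂, v l'`; `v l ~ u l`; `w₂ ~ x₂`; `v l' ~ x` (`l' ∈ P = J x`); `x ~ w₀`.  Not adjacent: `x₀ ≁ w₀`;
`v l ≁ x₂, x` (`l ∉ P ⊇ J x₂`, `J x = P`); `v l ≁ w₀`; `w₂ ≁ u l, x, w₀`; `v l' ≁ u l, x₂` (`l' ∉ J x₂`); `u l ≁ x₂, x, w₀`;
`x₂ ≁ x` (common neighbour `t`, no triangles); `x₂ ≁ w₀`. -/
def S_Fan1 : Prop := ∀ (V : Type) (D : SimpleGraph V) (k N : ℕ) (u v : ℕ → V) (t : V)
  (p q : ℕ → V) (X W : Set V) (P : Finset ℕ), TriFree D → NoSpi k D → Fan D k N u v t p q X W →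
  Good D N v X P → ∀ x, ¬ (Alp D N v X W P x ∧ Bet D N v X W P x)

/-- **Fan2.** (F2)

Proof. `Good`: `J x = J x' = P ⊆ J x₀` and there is `l ∈ J x₀ \ P`.  Suppose that `w, w' ∈ W` see `x₀`, `w ~ x'`, `w ≁ x`,
`w' ~ x`, `w' ≁ x'`.  `w₀ ≁ x'` (otherwise `x'` satisfies `Alp` with `x₀, w₀`).
`S_Pt`: centre `x₀`; legs `(v l, u l)`, `(w, x')`, `(w', x, w₀)`; low edges `(p j, q j)`.  Adjacent: `x₀ ~ v l, w, w'`;
`v l ~ u l`; `w ~ x'`; `w' ~ x`; `x ~ w₀`.  Not adjacent: `x₀ ≁ w₀`; `v l ≁ x', x` (`l ∉ P`), `v l ≁ w₀`; `w ≁ u l, x, w₀`;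
`w' ≁ u l, x'`; `u l ≁ x', x, w₀`; `x' ≁ x` (common neighbour `t`); `x' ≁ w₀`. -/
def S_Fan2 : Prop := ∀ (V : Type) (D : SimpleGraph V) (k N : ℕ) (u v : ℕ → V) (t : V)
  (p q : ℕ → V) (X W : Set V) (P : Finset ℕ), TriFree D → NoSpi k D → Fan D k N u v t p q X W →
  Good D N v X P → ∀ x ∈ X, ∀ x' ∈ X, ∀ x₀ ∈ X, ∀ w₀ ∈ W, (J D N v x).card = P.card →
  (J D N v x').card = P.card → (J D N v x₀).card = P.card + 1 → D.Adj w₀ x → ¬ D.Adj w₀ x₀ →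
  ¬ Alp D N v X W P x' →
  (∀ w ∈ W, D.Adj w x₀ → D.Adj w x' → D.Adj w x) ∨ ∀ w ∈ W, D.Adj w x₀ → D.Adj w x → D.Adj w x'

/-- **FanC.** The exact cut.  (Uses Fan0, Fan1, Fan2.)

Proof. `s = |P|`, `X_i = {x ∈ X | |J x| = i}`, `α = Alp`, `β = Bet`.  `W'' = {w ∈ W | w` complete to `X_{s+1}`, no neighbour in
`X_{s-1}}`.  For `x' ∈ X_s \ α` and `w ∈ W` with `w ~ x'`: `w` is complete to `X_{s+1}` (otherwise `x' ∈ α`).  For
`x ∈ X_s \ β` and `w ∈ W` with `w ≁ x`: `w` has no neighbour in `X_{s-1}`.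
(F3) `x ∈ α`, `y ∈ β`: `N(y) ∩ W'' ⊆ N(x)`.  Let `w ∈ W''`, `w ~ y`, `w ≁ x`; `x₀, w₀` for `x`, `x₂, w₂` for `y`.  `y ∉ α`, `x ∉ β`
(Fan1).  Fan2 for `x, x' = y, x₀, w₀`: the first alternative fails (`w ~ x₀` because `w ∈ W''`).  The second one fails
for `w₂`: `w₂ ≁ y`; `w₂ ~ x` (otherwise `x ∈ β`); `w₂ ~ x₀` (Fan0 for `(x₀, x₂)`: `P \ J x₂` and `J x₀ \ P` are nonempty, so
`J x₀ \ J x₂` has two elements).
`γ⁺ = {x' ∈ X_s \ α | ∃ x ∈ α, N(x) ∩ W'' ⊊ N(x') ∩ W''}`, `γ⁻ = X_s \ (α ∪ γ⁺)`.  For `x' ∈ γ⁻`, `x ∈ α`: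
`N(x') ∩ W'' ⊆ N(x)` (Fan2: on `W''`, all of which sees `x₀`, the two sets are comparable).  `β ⊆ γ⁻` by (F3) and Fan1.
`XL = {|J x| > s} ∪ α ∪ γ⁺`, `WL = {w ∈ W | w` has no neighbour in `X \ XL}`.  `X \ XL = {|J x| < s} ∪ γ⁻`.
CLAIM: `w ∈ W`, `x' ∈ X \ XL`, `w ~ x'`, `x ∈ XL` imply `w ~ x`.  Suppose `w ≁ x`.  By Fan0 `|J x \ J x'| ≤ 1`, so (sizes)
`|J x| ≤ |J x'| + 1`.  The possible cases: (a) `x ∈ X_{s+1}`, `x' ∈ γ⁻`: then `x' ∈ α`.  (b) `x ∈ α ∪ γ⁺`,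
`x' ∈ X_{s-1}`: then `x ∈ β ⊆ γ⁻`, contradiction.  (c) `x ∈ α`, `x' ∈ γ⁻`: `w ∈ W''` (see above, `x ∉ β`), so `w ∈ N(x)`.
(d) `x ∈ γ⁺`, `x' ∈ γ⁻`: `w ∈ W''` (`x' ∉ α`, `x ∉ β`); take `x₁ ∈ α` with `N(x₁) ∩ W'' ⊆ N(x)`:
`w ∈ N(x') ∩ W'' ⊆ N(x₁) ∩ W'' ⊆ N(x)`.
The inclusions of the sets `J` follow from `Good`. -/
def S_FanC : Prop := ∀ (V : Type) (D : SimpleGraph V) (k N : ℕ) (u v : ℕ → V) (t : V)
  (p q : ℕ → V) (X W : Set V) (P : Finset ℕ), TriFree D → NoSpi k D → Fan D k N u v t p q X W →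
  Good D N v X P → ∃ XL ⊆ X, ∃ WL ⊆ W,
    (∀ x ∈ X, P.card < (J D N v x).card → x ∈ XL) ∧
    (∀ x ∈ X, (J D N v x).card < P.card → x ∉ XL) ∧
    (∀ x ∈ XL, P ⊆ J D N v x) ∧ (∀ x ∈ X, x ∉ XL → J D N v x ⊆ P) ∧
    (∀ x ∈ XL, ∀ w ∈ W, w ∉ WL → D.Adj x w) ∧ ∀ x ∈ X, x ∉ XL → ∀ w ∈ WL, ¬ D.Adj x w

end Pool.Agent.MPd439b2.SA
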