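import Pool.Agent.Lib.MP_d439b2_co.SA.SpecB
import Pool.Agent.Lib.MP_d439b2_co.SA.SpecFan

/-!
# MP_d439b2_co, SA, Spec C: frames of type (I,T) give a cut of rank three (helper13)

Every `S_...` is a statement to be proved in its own file; the docstring contains the complete proof.
`v ~ w` means `D.Adj v w`.  `U` is the set of the light vertices of the frame (they touch at most one edge
`a i, b i`); `a i, b i ∈ U`.  In `Fr0` a vertex with a neighbour `b i` has no neighbour `a j`.  Two vertices with a common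
neighbour are not adjacent.  All models which consist of single vertices are given by `S_Pt` (SpecFan): centre
`c`, legs `(x₁, y₁)`, `(x₂, y₂)`, `(x₃, y₃, z₃)`, and `k` low edges.
-/

set_option autoImplicit false

namespace Pool.Agent.MPd439b2.SA

open Pool.Agent.MPd439b2 Pool.Agent.MPd439b2.W

variable {V : Type}

/-- `v` has position `q`: its neighbours among the `b j` are `q, q + 1, ..` or `q, q + 2, q + 3, ..` -/
def Ps (D : SimpleGraph V) (n : ℕ) (b : ℕ → V) (v : V) (q : ℕ) : Prop :=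
  (∀ j < n, (D.Adj v (b j) ↔ q ≤ j)) ∨ ∀ j < n, (D.Adj v (b j) ↔ j = q ∨ q + 2 ≤ j)

/-- the vertices with a position `q`, `lo ≤ q < hi` -/
def XM (D : SimpleGraph V) (n : ℕ) (b : ℕ → V) (lo hi : ℕ) : Set V :=
  {v | ∃ q, lo ≤ q ∧ q < hi ∧ Ps D n b v q}

/-- the light vertices -/
def LtS (D : SimpleGraph V) (n : ℕ) (a b : ℕ → V) : Set V := {v | Lt D n a b v}

/-- the vertices which are complete to all `a j` -/
def BFs (D : SimpleGraph V) (n : ℕ) (a : ℕ → V) : Set V := {v | ∀ j < n, D.Adj v (a j)}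

/-- the isolated vertices of `D[U]` which are seen by `X` -/
def WI (D : SimpleGraph V) (U X : Set V) : Set V :=
  {z | z ∈ U ∧ (∀ z' ∈ U, ¬ D.Adj z z') ∧ ∃ x ∈ X, D.Adj x z}

/-- **Lists of components**: `KA t ∪ KB t` (`t < N`) are the components of `D[U]` with an edge which are seen by
`X`; the vertices of `X` see nothing of `KA t`, and all or nothing of `KB t` -/
structure CK (D : SimpleGraph V) (U X : Set V) (N : ℕ) (KA KB : ℕ → Set V) : Prop where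
  comp : ∀ t < N, IsComp D U (KA t ∪ KB t)
  dAB : ∀ t < N, Disjoint (KA t) (KB t)
  nb : ∀ t < N, (∀ u ∈ KA t, ∃ v ∈ KB t, D.Adj u v) ∧ ∀ v ∈ KB t, ∃ u ∈ KA t, D.Adj u v
  ne : ∀ t < N, (KB t).Nonempty
  iA : ∀ t < N, ∀ u ∈ KA t, ∀ u' ∈ KA t, ¬ D.Adj u u'
  iB : ∀ t < N, ∀ v ∈ KB t, ∀ v' ∈ KB t, ¬ D.Adj v v'
  dis : ∀ s < N, ∀ t < N, s ≠ t → Disjoint (KA s ∪ KB s) (KA t ∪ KB t)
  seen : ∀ t < N, ∃ x ∈ X, ∀ v ∈ KB t, D.Adj x v
  xa : ∀ x ∈ X, ∀ t < N, ∀ u ∈ KA t, ¬ D.Adj x u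
  xb : ∀ x ∈ X, ∀ t < N, (∀ v ∈ KB t, D.Adj x v) ∨ ∀ v ∈ KB t, ¬ D.Adj x v
  cov : ∀ x ∈ X, ∀ z ∈ U, ∀ z' ∈ U, D.Adj x z → D.Adj z z' → ∃ t < N, z ∈ KB t

/-- **C1.** The classes of vertices.

Proof. Let `v` touch two different edges.  If `v ~ b i` for some `i < n` then `v ≁ a j` for all `j < n` (`ex`), so `v` has two
different neighbours among the `b j`; so not `Few`, and `FinS`: `Ps D n b v q`; the two neighbours are `≥ q`, so
`q + 1 < n`, and `v ~ b (n - 1)` (first form: `q ≤ n - 1`; second form: there is a neighbour `j ≥ q + 2`).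
Otherwise `v` has two different neighbours among the `a j`, so not `Few`, and `v ∈ BFs`. -/
def S_Cls : Prop := ∀ (n : ℕ) (V : Type) (D : SimpleGraph V) (a b x : ℕ → V), FrT D n a b x →
  ∀ v, v ∈ LtS D n a b ∨ v ∈ BFs D n a ∨
    ∃ q, q + 1 < n ∧ Ps D n b v q ∧ D.Adj v (b (n - 1)) ∧ ∀ j < n, ¬ D.Adj v (a j)

/-- **C2.** Neighbourhoods of mediums in the light graph are closed under distance two.  (Uses `S_Pt`.)

Proof. Suppose `y ≁ w'`.  `y ≁ a j` for all `j < n` (`y ~ b (n - 1)`, `ex`).  At most three indices are touched by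
`w, u, w'`.  Among `q + 2, .., n - 1` (at least six indices) there are different `i, j` which are not touched, and among
`0, .., q - 1` (at least `k + 4`) there are `k` not touched indices `r 0, ..`.  `S_Pt`: centre `y`; legs `(b i, a i)`,
`(b j, a j)`, `(w, u, w')`; low edges `(a (r t), b (r t))`.  `y ~ b i, b j, w`; `w ~ u ~ w'`; `y ≁ w'`; `y ≁ b (r t)`. -/
def S_Clo : Prop := ∀ (k n : ℕ) (V : Type) (D : SimpleGraph V) (a b x : ℕ → V), TriFree D →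
  NoSpi k D → Fr0 D n a b x → ∀ (y : V) (q : ℕ), Ps D n b y q → k + 4 ≤ q → q + 8 ≤ n →
  ∀ w ∈ LtS D n a b, ∀ u ∈ LtS D n a b, ∀ w' ∈ LtS D n a b,
    D.Adj y w → D.Adj w u → D.Adj u w' → D.Adj y w'

/-- **C3.** Two mediums do not see the two ends of an edge of the light graph.  (Uses `S_R`.)

Proof. Suppose `y ~ w`, `y' ~ u`.  `j₀ = k + 2`; `z = x j₀` is the ladder vertex.  Let `I₀` be the set of the indices
`< n` not touched by `u` or `w` (all but at most two), `I = I₀ ∪ {n}`, `P i = {b i}`, `Q i = {a i}` for `i < n`,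
`P n = {w}`, `Q n = {u}`: a block matching.  CLAIM: `z ~ w`.  S_R with `C = {z}`, `C' = {y}`: `R` = the indices `< j₀` in
`I₀` (at least `k`; touched by neither, as `q ≥ k + 8`); `i, j` two elements of `I₀` in `{j₀, .., q - 1}` (at least six
indices); the common index `l`: an element of `I₀` in `{q + 2, .., n - 1}`.  `C`, `C'` are not complete (common neighbour
`b l`).  `C'` touches `n`, so `C` touches `n`; S_R with the common index `n`: both see the same end, and `y ≁ u`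
(`y ~ w ~ u`), so `z ~ w`.  (`Off`: `z, y` have at least two neighbours among the `b j`, so they are not `a i, b i`, `u`, `w`.)
In the same way `z ~ u` (with `y'`).  Triangle `z, w, u`: contradiction. -/
def S_Side : Prop := ∀ (k n : ℕ) (V : Type) (D : SimpleGraph V) (a b x : ℕ → V), TriFree D →
  NoSpi k D → Fr0 D n a b x → ∀ (y y' : V) (q q' : ℕ), Ps D n b y q → Ps D n b y' q' →
  k + 8 ≤ q → q + 8 ≤ n → k + 8 ≤ q' → q' + 8 ≤ n →
  ∀ w ∈ LtS D n a b, ∀ u ∈ LtS D n a b, D.Adj w u → D.Adj y w → ¬ D.Adj y' u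

/-- **C4.** Light neighbours of a vertex are seen by all vertices further left.  (Uses `S_Pt`.)

Proof. Suppose `y ≁ z`.  `z` touches at most one index.  Among the neighbours `q, q + 2, q + 3` (at least) of `y` which are
`< q'` there are two, `i, j`, not touched by `z`; among `0, .., q - 1` there are `k` indices `r` not touched by `z`.
`y'` misses `b i, b j, b r`.  `y, y'` miss all `a`'s (`ex`).  `S_Pt`: centre `y`; legs `(b i, a i)`, `(b j, a j)`,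
`(b (n - 1), y', z)`; low edges `(a r, b r)`.  `y ~ b (n - 1) ~ y' ~ z`; `b (n - 1) ≁ z` is not needed. -/
def S_Far : Prop := ∀ (k n : ℕ) (V : Type) (D : SimpleGraph V) (a b x : ℕ → V), TriFree D →
  NoSpi k D → Fr0 D n a b x → ∀ (y y' : V) (q q' : ℕ), Ps D n b y q → Ps D n b y' q' →
  k + 1 ≤ q → q + 4 ≤ q' → q' + 1 < n → D.Adj y' (b (n - 1)) →
  ∀ z ∈ LtS D n a b, D.Adj y' z → D.Adj y z

/-- **C5.** Full vertices see the light neighbours of the mediums.  (Uses `S_L3`.)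

Proof. If `z = b (n - 1)`: clear.  Otherwise suppose `f ≁ z`.  `z` touches at most one index.  `R` = `k` indices `< e` not
touched by `z`; `i, j` two indices in `{e, .., q - 1}` not touched by `z`; `I = R ∪ {i, j}`, `P r = {b r}`,
`Q r = {a r}`.  `C = {f, x e}`, `B0 = {b (n - 1)}`, `B1 = {y}`, `B2 = {z}`.  `C` is complete to `{b i}`, `{b j}`, `B0`; it
touches no `r < e` (`x e ≁ b r, a r`).  `y ≁ b r, b i, b j` (`r, i, j < q`) and `y ≁ a`'s (`ex`); `z` touches no index of `I`;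
`b (n - 1)` neither.  `y ~ b (n - 1)`, `y ~ z`; `C` is not complete to `B2`.  Disjoint: `y ≠ f, x e` (`y ≁ b e`; `e < q`);
`z ≠ f, x e` (at least two neighbours); `z ≠ b (n - 1)`; `f`, `x e` are not vertices of the matching.  S_L3:
`k = |R| < k`, contradiction. -/
def S_AFc : Prop := ∀ (k n : ℕ) (V : Type) (D : SimpleGraph V) (a b x : ℕ → V), TriFree D →
  NoSpi k D → Fr0 D n a b x → ∀ (f y : V) (e q : ℕ), (∀ j, e ≤ j → j < n → D.Adj f (b j)) →
  Ps D n b y q → k + 1 ≤ e → e + 3 ≤ q → q + 1 < n → D.Adj y (b (n - 1)) →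
  ∀ z ∈ LtS D n a b, D.Adj y z → D.Adj f z

/-- **C6.** Lists of components.

Proof. Let `𝒦` be the set of the components `K` of `D[U]` (`IsComp`) such that some `x ∈ X` has a neighbour `z ∈ K` and `z` has a
neighbour in `U` (hence in `K`).  Finite.  For `K ∈ 𝒦` let `KB = {v ∈ K | some x ∈ X sees v}`, `KA = K \ KB`.
(1) `w ∈ KB`, `u ∈ U`, `w ~ u`: `u ∈ K`, and by `side` no `x' ∈ X` sees `u`: `u ∈ KA`.  So `iB`.
(2) The set `KB ∪ {u ∈ K | u has a neighbour in KB}` is closed in `K`: if `u ~ w ∈ KB`, `x ~ w` and `u ~ w' ∈ K` then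
`x ~ w'` by `clo`, so `w' ∈ KB`.  So it is `K` (connected: `Conn.eq_of_nb`).  Hence every `u ∈ KA` has a neighbour in
`KB`, and all its neighbours in `K` are in `KB` (the same computation): `iA`, `nb` for `KA`.  `nb` for `KB`: `K` is
connected with at least two vertices, so `v ∈ KB` has a neighbour in `K`, in `KA` by (1).
(3) `xb`: let `x ∈ X` see `v ∈ KB`.  The set `{w ∈ KB | x ~ w} ∪ {u ∈ K | u ~ w for some w ∈ KB with x ~ w}` is closed in `K`
(`clo` and (1), (2)), so it is `K`; so `x` sees all of `KB` (an element of `KB` in the second part would be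
adjacent to an element of `KB`).  `seen`: some `x` sees an element of `KB`, so all.  `xa` by definition.
`dis`: different components are disjoint (`IsComp.eq`).  `cov`: the component of `z` is in `𝒦`, and `z ∈ KB`.
(4) Enumerate `𝒦` such that the component of `t` is the last one (`t ∈ KB N`). -/
def S_CK : Prop := ∀ (V : Type) [Finite V] (D : SimpleGraph V) (U X : Set V) (t t' : V), TriFree D →
  (∀ x ∈ X, ∀ w ∈ U, ∀ u ∈ U, ∀ w' ∈ U, D.Adj x w → D.Adj w u → D.Adj u w' → D.Adj x w') →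
  (∀ x ∈ X, ∀ x' ∈ X, ∀ w ∈ U, ∀ u ∈ U, D.Adj w u → D.Adj x w → ¬ D.Adj x' u) →
  t ∈ U → t' ∈ U → D.Adj t t' → (∃ x ∈ X, D.Adj x t) →
  ∃ (N : ℕ) (KA KB : ℕ → Set V), CK D U X (N + 1) KA KB ∧ t ∈ KB N

/-- **C7.** The components of the edges of the frame.

Proof. `x lo`, `x (lo + 1)`, .., `x (hi - 1)` are in `X` (position `i`, first form).  Let `lo < i < hi`.  `x lo ~ b i`, `b i ~ a i`, so
`b i ∈ KB t` for some `t ≤ N` (`cov`), `t =: l i`.  `a i ∈ KA t`: it is adjacent to `b i`, so in the component, and not in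
`KB t` (`iB`).  `l i ≠ N`: if `i + 1 < hi` then `x (i + 1) ∈ X` sees `b (n - 1) ∈ KB N`, hence all of `KB N`, but not `b i`.  So let
`lo < i`, `i + 1 < hi` in the statement.  Injective: `l i = l j`, `i < j`: `x (i + 1) ~ b j`, so `x (i + 1)` sees all of
`KB (l j)`, in particular `b i`: contradiction. -/
def S_Idx : Prop := ∀ (n lo hi N : ℕ) (V : Type) (D : SimpleGraph V) (a b x : ℕ → V)
  (KA KB : ℕ → Set V), TriFree D → Fr0 D n a b x → hi + 8 ≤ n →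
  CK D (LtS D n a b) (XM D n b lo hi) (N + 1) KA KB → b (n - 1) ∈ KB N →
  ∃ l : ℕ → ℕ, (∀ i, lo < i → i + 1 < hi → l i < N ∧ b i ∈ KB (l i) ∧ a i ∈ KA (l i)) ∧
    ∀ i j, lo < i → i + 1 < hi → lo < j → j + 1 < hi → l i = l j → i = j

/-- **C8.** The fan of a frame.

Proof. `p j = a j`, `q j = b j`, `t = b (n - 1)`.  `X = XM D n b lo hi`, `W = WI D U X`.  Every `x ∈ X` has a position `q`,
`lo ≤ q < hi`: `x ~ b (n - 1)`, `x ≁ b j` for `j < k ≤ lo`, `x ≁ a j` for all `j < n` (`ex`).  `im`: different components.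
`xu`: `xa`.  `wu`, `wt`, `ww`, `lw`: the elements of `W` are isolated in `D[U]`, and `u l, v l, t, a j, b j ∈ U`.  `tu`: `t` is in
the component `N`, `l < N`.  `lt`: `IM`.  `lu`: if `u l` or `v l` were adjacent to `a j` or `b j` then `a j, b j` would be in the
component `l`, and one of them in `KB l` (`iA`: they are adjacent); by `seen` some `x ∈ X` would see it: contradiction. -/
def S_FanX : Prop := ∀ (k n lo hi N : ℕ) (V : Type) (D : SimpleGraph V) (a b x : ℕ → V)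
  (KA KB : ℕ → Set V) (u v : ℕ → V), TriFree D → Fr0 D n a b x → k ≤ lo → lo < hi → hi + 8 ≤ n →
  CK D (LtS D n a b) (XM D n b lo hi) (N + 1) KA KB → b (n - 1) ∈ KB N →
  (∀ l < N, u l ∈ KA l ∧ v l ∈ KB l ∧ D.Adj (u l) (v l)) →
  Fan D k N u v (b (n - 1)) a b (XM D n b lo hi) (WI D (LtS D n a b) (XM D n b lo hi))

/-- **C9.** Non-neighbours of a `B`-full vertex are close to each other.  (Uses `S_L3`.)

Proof. `I = {c, .., c + k - 1} ∪ {n - 2, n - 1}`, `P i = {b i}`, `Q (c + i) = {a (c + i), y (i + 2)}` for `i < k`,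
`Q (n - 2) = {a (n - 2), y 0}`, `Q (n - 1) = {a (n - 1), y 1}`: a block matching (`y i ~ b j` for `j ≥ c`).
`C = {z}`, `B0 = {b (n - 3)}`, `B1 = {a (n - 3)}`, `B2 = {g}`.  `z ~ b (n - 3), b (n - 2), b (n - 1)`, `z ≁ b (c + i)`, `z ≁` all
`a`'s (`ex`): `C` touches exactly `n - 2, n - 1`.  `g ~ a (n - 3)`, `g ≁ z`, `g ≁ b i`, `g ≁ y i`: `B2` is untouched; `B0`, `B1` are
untouched (`a i ≁ b (n - 3)`; `a (n - 3) ≁ b i`).  The `y i` are different from each other, from `z`, from `g` (`y i ≁ a 0`,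
`g ~ a 0`), and from the vertices of the matching (two neighbours `b (n - 1), b (n - 2)`).  S_L3 with
`R = {c, .., c + k - 1}`: contradiction. -/
def S_GX : Prop := ∀ (k n : ℕ) (V : Type) (D : SimpleGraph V) (a b x : ℕ → V), TriFree D →
  NoSpi k D → Fr0 D n a b x → ∀ (g z : V) (y : ℕ → V) (c : ℕ), g ∈ BFs D n a → c + k + 3 ≤ n →
  (∀ i < k + 2, ¬ D.Adj g (y i) ∧ y i ≠ z ∧ ∀ j, c ≤ j → j < n → D.Adj (y i) (b j)) →
  (∀ i < k + 2, ∀ j < k + 2, y i = y j → i = j) → ¬ D.Adj g z →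
  (∀ j, j < c + k → ¬ D.Adj z (b j)) → ¬ (D.Adj z (b (n - 3)) ∧ D.Adj z (b (n - 2)) ∧
    D.Adj z (b (n - 1)))

/-- **C10.** `B`-full vertices do not see light vertices of type `B`.  (Uses `S_Far`, `S_GX`.)

Proof. Suppose `g ~ v`.  For `k + 3 ≤ i ≤ q - 4`: `x i ~ v` (S_Far with `y := x i`, `y' := y`), so `g ≁ x i` (triangle).
S_GX with `y i := x (k + 3 + i)` (`i < k + 2`), `c = 2 k + 5`, `z = x (q - 4)` (`q - 4 ≥ 3 k + 6 > c + k`): contradiction. -/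
def S_Wr : Prop := ∀ (k n : ℕ) (V : Type) (D : SimpleGraph V) (a b x : ℕ → V), TriFree D →
  NoSpi k D → Fr0 D n a b x → ∀ (g y : V) (q : ℕ), g ∈ BFs D n a → Ps D n b y q →
  3 * k + 12 ≤ q → q + 1 < n → D.Adj y (b (n - 1)) →
  ∀ v ∈ LtS D n a b, D.Adj y v → ¬ D.Adj g v

/-- **C11.** Components with an edge which is not touched by a `B`-full vertex.  (Uses `S_Pt`, `S_Idx`.)

Proof. `X = XM D n b lo hi`.  `l` from `S_Idx`.  Among the at least `k + 2` indices `i` with `lo < i < q` (`i + 1 < hi`) there are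
different `i, j` with `l i, l j ∉ S`.  `z ≁ b i, b j`, `z ≁` all `a`'s.  Let `s ∈ S`: `(u s, v s)` is an edge of the component
`s ≠ l i, l j, N`, so it is not adjacent to `a i, b i, a j, b j`, `b (n - 1)`, `a (n - 1)` (in the component `N`), and
`z ≁ u s` (`xa`), `z ≁ v s` (hypothesis), `g ≁ u s, v s`.
(a) `g ≁ z`: `S_Pt`: centre `g`; legs `(a i, b i)`, `(a j, b j)`, `(a (n - 1), b (n - 1), z)`; low edges `(u s, v s)`,
`s ∈ S` (`IM`: different components).  `g ≁ b`'s.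
(b) `g ~ z`, and `m < N`, `u' ∈ KA m`, `v' ∈ KB m` adjacent, `z ~ v'`, `g ≁ u', v'`: `m ∉ S` (`z` sees all or nothing of `KB m`),
`m ≠ l i, l j` (`z ≁ b i`).  `S_Pt`: centre `g`; legs `(a i, b i)`, `(a j, b j)`, `(z, v', u')`; the same low edges. -/
def S_NC : Prop := ∀ (k n lo hi N : ℕ) (V : Type) (D : SimpleGraph V) (a b x : ℕ → V)
  (KA KB : ℕ → Set V) (u v : ℕ → V), TriFree D → NoSpi k D → Fr0 D n a b x → hi + 8 ≤ n →
  CK D (LtS D n a b) (XM D n b lo hi) (N + 1) KA KB → b (n - 1) ∈ KB N →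
  ∀ (g z : V) (q : ℕ) (S : Finset ℕ), g ∈ BFs D n a → Ps D n b z q → lo + k + 4 ≤ q → q + 1 < hi →
  S.card = k → (∀ s ∈ S, s < N ∧ u s ∈ KA s ∧ v s ∈ KB s ∧ D.Adj (u s) (v s) ∧
    ¬ D.Adj g (u s) ∧ ¬ D.Adj g (v s) ∧ ¬ D.Adj z (v s)) →
  D.Adj g z ∧ ∀ m < N, ∀ u' ∈ KA m, ∀ v' ∈ KB m, D.Adj u' v' → D.Adj z v' → D.Adj g u' ∨ D.Adj g v'

/-- **C12.** Bounded many bad places for components.  (Uses `S_Far`, `S_Wr`, `S_NC`, `W.S_Ind`.)

Proof. For `t < N` let `ℓ t` be the largest `i`, `lo ≤ i < hi`, such that `x i` sees `KB t` (if there is one).  Let `Bd` be the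
set of the `i`, `lo' ≤ i`, `i + 1 < hi`, such that there are `g ∈ BFs`, `t < N` with `ℓ t = i` and `u ∈ KA t` with `g ≁ u`.
(1) CLAIM: for `g ∈ BFs` there are at most `k` values `i = ℓ t`, `lo' ≤ i`, `i + 1 < hi`, of indices `t < N` such that
`g ≁ u` for some `u = u t ∈ KA t`.  Let `i*` be the largest one, `ℓ t* = i*`.  Suppose that there are `k` other values,
`S` a set of `k` indices `t` with these values.  `u t` has a neighbour `v t ∈ KB t` (`nb`), and `g ≁ v t` by S_Wr (`y = x (ℓ t)`,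
`ℓ t ≥ lo' ≥ 3 k + 12`).  `z = x i*`: for `t ∈ S`, `z` does not see `KB t`, as `ℓ t < i*`.  `z` sees `v t*`, `g ≁ u t*`,
`g ≁ v t*`.  S_NC: contradiction.
(2) For `i ∈ Bd` choose `g i`, `t i`, `u' i ∈ KA (t i)`, `g i ≁ u' i`.  If `J ⊆ Bd` and `g i ≁ u' j` for all `j ∈ J` then by (1)
`|J| ≤ k` (`ℓ (t j) = j`).  `W.S_Ind`: `|Bd| ≤ (2 k + 1) m₀`. -/
def S_BdK : Prop := ∀ (k m₀ n lo hi lo' N : ℕ) (V : Type) (D : SimpleGraph V) (a b x : ℕ → V)
  (KA KB : ℕ → Set V), TriFree D → NoSpi k D → ¬ CoM D m₀ → Fr0 D n a b x → hi + 8 ≤ n →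
  CK D (LtS D n a b) (XM D n b lo hi) (N + 1) KA KB → b (n - 1) ∈ KB N →
  lo + k + 4 ≤ lo' → 3 * k + 12 ≤ lo' →
  ∃ Bd : Finset ℕ, Bd.card ≤ (2 * k + 1) * m₀ ∧ ∀ i, lo' ≤ i → i + 1 < hi → i ∉ Bd →
    ∀ t < N, (∀ v ∈ KB t, D.Adj (x i) v) → (∀ j, i < j → j < hi → ∀ v ∈ KB t, ¬ D.Adj (x j) v) →
    ∀ g ∈ BFs D n a, ∀ u ∈ KA t, D.Adj g u

/-- **C13.** Bounded many bad places for mediums.  (Uses `S_GX`, `W.S_Ind`.)

Proof. Let `Bd` be the set of the `i`, `lo' ≤ i < hi`, such that `g ≁ y` for some `g ∈ BFs` and some `y` with `Ps D n b y i`.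
(1) CLAIM: for `g ∈ BFs` there are at most `2 k + 4` numbers `i`, `lo' ≤ i < hi`, such that `g ≁ y` for some `y` with position
`i`.  Let `i*` be the largest one, `z` the vertex.  If there are `k + 2` such numbers `i ≤ i* - k - 2` then let `y 0, ..` be the
corresponding vertices (different positions, so different vertices, as the positions are `< hi ≤ n - 8`) and
`c = i* - k`: `y j ~ b m` for `m ≥ c` (`i + 2 ≤ c`), `z ≁ b m` for `m < i* = c + k`.  S_GX: contradiction.  So at most `k + 1` of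
them are `≤ i* - k - 2`, and at most `k + 2` are `> i* - k - 2`.
(2) `W.S_Ind` with `τ = 2 k + 4` as in C12: `|Bd| ≤ (2 (2 k + 4) + 1) m₀`. -/
def S_BdX : Prop := ∀ (k m₀ n lo' hi : ℕ) (V : Type) (D : SimpleGraph V) (a b x : ℕ → V),
  TriFree D → NoSpi k D → ¬ CoM D m₀ → Fr0 D n a b x → hi + 8 ≤ n → k + 2 ≤ lo' →
  ∃ Bd : Finset ℕ, Bd.card ≤ (4 * k + 9) * m₀ ∧ ∀ i, lo' ≤ i → i < hi → i ∉ Bd →
    ∀ y, Ps D n b y i → ∀ g ∈ BFs D n a, D.Adj g y

/-- **C14.** Sets with three kinds of rows.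

Proof. The nonempty types of `Y` are among the three sets `T 0, T 1, T 2` (`Rep.cr_types`, or `LK.a1` (6) for the rank of the
rows `Y` and columns `Yᶜ`): the trace of `y ∈ Y` on `Yᶜ` is `T i ∩ Yᶜ`. -/
def S_Three : Prop := ∀ (V : Type) [Finite V] (D : SimpleGraph V) (Y : Set V) (T : Fin 3 → Set V),
  (∀ y ∈ Y, ∃ i, ∀ z ∉ Y, (D.Adj y z ↔ z ∈ T i)) → LK.cr D Y ≤ 3

/-- **C15.** The band.  (Uses `S_Cls`, `S_Far`, `S_AFc`, `S_Idx`, `S_FanX`, `S_FanN`, `S_FanG`, `S_FanC`,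
`S_Three`.)

Proof. `U = LtS`, `X = XM D n b lo hi`, `W = WI D U X`; `u l ∈ KA l`, `v l ∈ KB l` adjacent (`nb`, `ne`); the fan of
`S_FanX`; `J x = J D N v x`: `l ∈ J x` iff `x` sees `KB l` (`xb`).  `l` from `S_Idx`: for `lo < i`, `i + 1 < hi` and
`y ∈ X`: `l i ∈ J y` iff `y ~ b i`.
(1) `F = {J y | y ∈ X}` satisfies `NestF` (`S_FanN`).  For `lo < i`, `i + 3 < hi`: `l i, l (i + 1) ∈ J (x i) \ J (x (i + 2))`,
so `J (x (i + 2)) ⊆ J (x i)` and `|J (x (i + 2))| < |J (x i)|`.  `S_FanG`: `P¹` with `J (x (i₁ + 2)) ⊆ P¹ ⊆ J (x i₁)` and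
`P²` with `J (x (i₂ + 2)) ⊆ P² ⊆ J (x i₂)`, both `GoodF`, i.e. `Good D N v X P`.  `P² ⊆ J (x i₂) ⊆ J (x (i₁ + 2)) ⊆ P¹`
(`i₂ ≥ i₁ + 4`: `S_FanN` for `x (i₁ + 2)`, `x i₂`).  `S_FanC`: `XL¹, WL¹` and `XL², WL²`.
(2) `Y = (XL² \ XL¹) ∪ ⋃ {KA l ∪ KB l | l ∈ P¹ \ P²} ∪ (WL² \ WL¹)`.  `AF` = the vertices with a position `< lo`, `XE` = those with
a position `≥ hi` (and `< n - 1`), `BF = BFs`.  By `S_Cls`: `V = U ∪ BF ∪ AF ∪ X ∪ XE`.  All vertices of `AF, X, XE` see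
`b (n - 1)`, so they are pairwise not adjacent.
(3) Rows of `y ∈ XL² \ XL¹`: `J y ⊆ P¹`, `P² ⊆ J y`.  Position `p` of `y`: `i₁ ≤ p` (`y ~ b p`; if `p < i₁` then
`l p ∈ J y ⊆ P¹ ⊆ J (x i₁)`, but `x i₁ ≁ b p`; if `p = lo` use `b (p + 2)` instead: `p + 2 < i₁`), and `p ≤ i₂ + 2` (`l (i₂ + 2) ∈ J (x (i₂ + 2)) ⊆ P² ⊆ J y`).  So `y`
is complete to `BF` (hypothesis `cX`).  On the rest outside `Y`: `AF, X, XE`: not adjacent.  A light vertex `z ∉ Y` seen by `y`: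
if `z` has a neighbour in `U` then `z ∈ KB l`, `l ≤ N`; it is seen iff `l ∈ J y` or `l = N`; for `l ∉ P¹ \ P²` this holds
iff `l ∈ P²` or `l = N`.  If `z` is isolated in `D[U]` then `z ∈ W` if it is seen by some element of `X`; for
`z ∈ WL¹`: not seen; for `z ∈ W \ WL²`: seen.  So `T 0 = BF ∪ ⋃ {KB l | l ∈ P² or l = N} ∪ (W \ WL²)` describes the rows.
(4) Rows of `z ∈ KA l`, `l ∈ P¹ \ P²`.  `l ∈ J (x i₁)` and `l ∉ J (x (i₂ + 2))`.  `U \ Y`: nothing (component).  `X`: nothing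
(`xa`).  `AF`: every `f ∈ AF` is complete to `KB l` (`S_AFc` with `e = lo + 1`, `y = x i₁`), and `z` has a neighbour in
`KB l`: not adjacent.  `XE`: by `S_Far` (`y := x (i₂ + 2)`) a light vertex seen by `XE` is seen by `x (i₂ + 2)`, but it
sees no vertex of `KA l`, and none of `KB l`: not adjacent.  `BF`: complete.  Let `i` be the largest index `< hi` such that
`x i` sees `KB l`; `i₁ ≤ i`; by `S_Far` `i ≤ i₂ + 5` (otherwise `x (i₂ + 2)` would see `KB l`); hypothesis `cK`.  So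
`T 1 = BF`.
(5) Rows of `z ∈ KB l`: `BF`: nothing (`z` has a neighbour in `KA l`, which is complete to `BF`).  `AF`: complete.  `XL¹`:
complete (`l ∈ P¹ ⊆ J`); `X \ XL²`: nothing (`J ⊆ P²`).  `XE`: nothing, see (4).  `U \ Y`: nothing.  `T 2 = AF ∪ XL¹`.
(6) Rows of `w ∈ WL² \ WL¹`: `U`: nothing.  `x (i₁ - 2) ∈ XL¹` (`|J (x (i₁ - 2))| > |J (x i₁)| ≥ |P¹|`) is complete to
`W \ WL¹`, so it sees `w`; `S_AFc`: `AF` is complete to `w`; `g ∈ BF` sees `x (i₁ - 2)` (`cX`), so not `w`.  `XL¹`: complete;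
`X \ XL²`: nothing.  `XE`: `x (i₂ + 4) ∉ XL²` (`|J (x (i₂ + 4))| < |J (x (i₂ + 2))| ≤ |P²|`) does not see `w ∈ WL²`; by `S_Far`
(`y := x (i₂ + 4)`) no vertex of `XE` sees `w`.  `T 2` again.  (An element of `X` outside `Y` is in `XL¹` or not in `XL²`;
if it is in `XL¹` and not in `XL²` then `P¹ ⊆ J ⊆ P²`, impossible as `P¹ \ P²` is not empty.)  `S_Three`: rank at most 3.
(7) For `i₁ + 2 ≤ i < i₂`: `l i ∈ J (x (i₁ + 2)) ⊆ P¹`, `l i ∉ J (x i₂) ⊇ P²`, so `b i ∈ Y`.  For `lo < i < i₁`: `l i ∉ P¹`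
(`x i₁ ≁ b i`), so `b i ∉ Y` (`b i ∈ KB (l i)`). -/
def S_Bnd : Prop := ∀ (k n lo hi N i₁ i₂ : ℕ) (V : Type) [Finite V] (D : SimpleGraph V)
  (a b x : ℕ → V) (KA KB : ℕ → Set V), TriFree D → NoSpi k D → FrT D n a b x → hi + 8 ≤ n →
  CK D (LtS D n a b) (XM D n b lo hi) (N + 1) KA KB → b (n - 1) ∈ KB N →
  k + 1 ≤ lo → lo + 8 ≤ i₁ → i₁ + 4 ≤ i₂ → i₂ + 12 ≤ hi →
  (∀ i, i₁ - 2 ≤ i → i ≤ i₂ + 5 → ∀ y, Ps D n b y i → ∀ g ∈ BFs D n a, D.Adj g y) →
  (∀ i, i₁ ≤ i → i ≤ i₂ + 5 → ∀ t < N, (∀ v ∈ KB t, D.Adj (x i) v) →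
    (∀ j, i < j → j < hi → ∀ v ∈ KB t, ¬ D.Adj (x j) v) → ∀ g ∈ BFs D n a, ∀ u ∈ KA t, D.Adj g u) →
  ∃ Y : Set V, LK.cr D Y ≤ 3 ∧ (∀ i, i₁ + 2 ≤ i → i < i₂ → b i ∈ Y) ∧
    ∀ i, lo < i → i < i₁ → b i ∉ Y

/-- **C16.** Frames of type (I,T) give a cut of rank at most three.  (Uses `S_Clo`, `S_Side`, `S_CK`, `S_BdK`,
`S_BdX`, `S_Bnd`, `S_CoMs`.)

Proof. `m₀` from `S_CoMs`; `lo = k + 8`, `lo' = 4 k + 30 + B`, `M = (2 k + 1) m₀ + (4 k + 9) m₀` (the number of bad places),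
`ℓ = B + 20`, `hi = lo' + (M + 1) * ℓ + 20`, `n = hi + 20`.  `C2`, `C3` for `X = XM D n b lo hi`, `C6` with `t = b (n - 1)`,
`t' = a (n - 1)`, seen by `x lo`.  `C12`, `C13`: the union `Bd` of the two sets has at most `M` elements, so one of the `M + 1`
intervals `{lo' + s ℓ, .., lo' + (s + 1) ℓ - 1}` contains no element of `Bd`; call it `{c, .., c + ℓ - 1}`.
`i₁ = c + 2`, `i₂ = c + B + 8`, `i₂ + 5 < c + ℓ`, `i₂ + 12 ≤ hi`.  C15: `b i ∈ Y` for
`i₁ + 2 ≤ i < i₂`: more than `B` different vertices (`IM.inj_b`); `b i ∉ Y` for `lo < i < i₁`: more than `B` (`i₁ ≥ lo'`). -/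
def S_B1 : Prop := ∀ k B : ℕ, ∃ n : ℕ, ∀ (V : Type) [Finite V] (D : SimpleGraph V) (a b x : ℕ → V),
  TriFree D → NoSpi k D → FrT D n a b x →
  ∃ Y : Set V, LK.cr D Y ≤ 3 ∧ B < Y.ncard ∧ B < Yᶜ.ncard

end Pool.Agent.MPd439b2.SA
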