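import Pool.Agent.Lib.MP_d439b2_co.SA.SpecFan
import Pool.Agent.Lib.MP_d439b2_co.Rep.Cut
import Pool.Agent.Lib.MP_d439b2_co.W.SpecM
import Pool.Agent.Lib.MP_d439b2_co.W.SpecE
import Pool.Agent.Lib.MP_d439b2_co.W.Dig
import Pool.Agent.Lib.MP_d439b2_co.W.SpecO

/-!
# MP_d439b2_co, SA, Spec TT: Step A', case (T,T) (helper24)

`D` triangle-free, `CMh D h n a b`: `a i, b i` (`i < n`) is an induced matching such that every vertex touches at most `h`
of the edges (light) or is complete to all `b i` or to all `a i` (full).  The components of the light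
graph which contain edges of the matching: many components (this file), or one component with many edges
(Spec T of helper28, the hypothesis `S_OneComp`; it needs `Excl s D`).

Every `S_...` is a statement to be proved in its own file; the docstring contains the complete proof.
`x ~ y` means `D.Adj x y`.
-/

set_option autoImplicit false

namespace Pool.Agent.MPd439b2.SA

open Pool.Agent.MPd439b2 Pool.Agent.MPd439b2.W Pool.Agent.MPd439b2.Rep

variable {V : Type}

/-- `p q` is an edge of `D[K]` which is not covered by `f` -/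
def Unc (D : SimpleGraph V) (K : Set V) (f p q : V) : Prop :=
  p ∈ K ∧ q ∈ K ∧ D.Adj p q ∧ ¬ D.Adj f p ∧ ¬ D.Adj f q

/-- **System of components**: pairwise disjoint and anticomplete connected sets `K l`, `l < N`, and
edges `a l, b l` of `K l` -/
structure KSys (D : SimpleGraph V) (N : ℕ) (K : ℕ → Set V) (a b : ℕ → V) : Prop where
  con : ∀ l < N, Conn D (K l)
  ama : ∀ l < N, a l ∈ K l
  bmb : ∀ l < N, b l ∈ K l
  edg : ∀ l < N, D.Adj (a l) (b l)
  dis : ∀ l < N, ∀ l' < N, l ≠ l' → Disjoint (K l) (K l')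
  ant : ∀ l < N, ∀ l' < N, l ≠ l' → ∀ x ∈ K l, ∀ y ∈ K l', ¬ D.Adj x y

/-- the vertices which touch at most `h` of the edges `a i, b i`, `i < n` -/
def Lig (D : SimpleGraph V) (h n : ℕ) (a b : ℕ → V) : Set V := {v | (Jt D n a b v).card ≤ h}

/-- **TT1.** A mixed triple.

Proof. Let `A₀ = {v ∈ K | f ~ v}`.  Suppose that there is no triple as claimed.  (*) If `w ∈ A₀`, `u, w' ∈ K`,
`w ~ u`, `u ~ w'` then `w' ∈ A₀` (`f ≁ u` because `f ~ w ~ u`, no triangles).  Let
`C = A₀ ∪ {u ∈ K | ∃ w ∈ A₀, w ~ u}`.  `b ∈ C ⊆ K`.  `C = K`: otherwise, by `Conn D K`, there are `v ∈ C` and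
`v' ∈ K \ C` with `v ~ v'` (`Conn.eq_of_nb`); `v ∈ A₀` gives `v' ∈ C`; `v ~ w ∈ A₀` gives `v' ∈ A₀` by (*).
Contradiction.  So `p ∈ C`, and `p ∉ A₀`: there is `w ∈ A₀` with `w ~ p`.  `p ~ q`, so `q ∈ A₀` by (*), against
`f ≁ q`. -/
def S_Mix : Prop := ∀ (V : Type) (D : SimpleGraph V) (K : Set V) (f b p q : V), TriFree D →
  Conn D K → b ∈ K → D.Adj f b → Unc D K f p q →
  ∃ w ∈ K, ∃ u ∈ K, ∃ w' ∈ K, D.Adj w u ∧ D.Adj u w' ∧ D.Adj f w ∧ ¬ D.Adj f u ∧ ¬ D.Adj f w'

/-- **TT2.** Parity: two vertices which cover all edges of a connected set and agree on one vertex agree.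

Proof. `C = {v ∈ K | f ~ v ↔ g ~ v}` contains `c`.  If `v ∈ C`, `v' ∈ K`, `v ~ v'` then `f` sees exactly one of `v, v'`
(at least one by hypothesis, not both: triangle), the same for `g`; so `v' ∈ C`.  By `Conn D K`
(`Conn.eq_of_nb`) `C = K`. -/
def S_Par : Prop := ∀ (V : Type) (D : SimpleGraph V) (K : Set V) (f g c : V), TriFree D →
  Conn D K → (∀ p q, ¬ Unc D K f p q) → (∀ p q, ¬ Unc D K g p q) → c ∈ K →
  (D.Adj f c ↔ D.Adj g c) → ∀ v ∈ K, (D.Adj f v ↔ D.Adj g v)

/-- **TT3.** A vertex which sees all `b l` does not cover at most `k` of the components.  (Uses Pt, TT1 = `S_Mix`.)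

Proof. Suppose that `I` has at least `k + 1` elements; take `k + 1` of them, `l₀, l₁, .., l_k`, and two further
indices `r, r' < N` (`k + 3 ≤ N`).  `S_Mix` for `K l₀`, `b l₀`: `w, u, w'`.  Let `p_j, q_j` (`1 ≤ j ≤ k`) be an uncovered
edge of `K l_j`.  `S_Pt`: centre `f`; legs `(b r, a r)`, `(b r', a r')`, `(w, u, w')`; the separate edges
`(p_j, q_j)`.  `f` sees `b r`, `b r'`, `w` and does not see `a r`, `a r'` (no triangles), `u`, `w'`, `p_j`, `q_j`.  All other
pairs are in different sets `K l`, so they are not adjacent. -/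
def S_BadF : Prop := ∀ (V : Type) (D : SimpleGraph V) (k N : ℕ) (K : ℕ → Set V) (a b : ℕ → V) (f : V)
  (I : Finset ℕ), TriFree D → NoSpi k D → KSys D N K a b → k + 3 ≤ N → (∀ l < N, D.Adj f (b l)) →
  (∀ l ∈ I, l < N ∧ ∃ p q, Unc D (K l) f p q) → I.card ≤ k

/-- **TT4.** Boundedly many components are not covered by some vertex of `F`.  (Uses TT2 = `S_Par`, TT3 = `S_BadF`,
`W.S_Dig`.)

Proof. Suppose `(2 k + 1) m < |I|`.  For `l ∈ I` choose `f l ∈ F` and an edge `(p l, q l)` of `K l` not covered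
by `f l`.  `W.dig` (`S_Dig`) for `R l l' = ∃ p q, Unc D (K l') (f l) p q`, `τ = k` (`S_BadF`): there is `J ⊆ I` with `m`
elements such that for `l ≠ l'` in `J` the vertex `f l` covers `K l'`.  For `l' ∈ J` the vertices `f l`, `l ∈ J`,
`l ≠ l'`, agree on `K l'` (`S_Par` with `c = b l'`).  Each of them sees exactly one of `p l', q l'`, and it is the same
one for all `l`: call it `c l'` (if there is no such `l` let `c l' = p l'`).  So for `l, l' ∈ J`: `f l ~ c l'` iff
`l ≠ l'`.  Enumerate `J`: `CoM D m`, a contradiction. -/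
def S_BadB : Prop := ∀ (V : Type) (D : SimpleGraph V) (k m N : ℕ) (K : ℕ → Set V) (a b : ℕ → V)
  (F : Set V) (I : Finset ℕ), TriFree D → NoSpi k D → ¬ CoM D m → KSys D N K a b → k + 3 ≤ N →
  (∀ f ∈ F, ∀ l < N, D.Adj f (b l)) →
  (∀ l ∈ I, l < N ∧ ∃ f ∈ F, ∃ p q, Unc D (K l) f p q) → I.card ≤ (2 * k + 1) * m

/-- **TT5.** The union of covered components has cut-rank at most two.  (Uses TT2 = `S_Par`.)

Proof. Let `X = ⋃_{l ∈ G} K l`.  The complement of `X` is the union of `P₀` (vertices without neighbours in `X`),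
`P₁ = FA \ X`, `P₂ = FB \ X` (last hypothesis).  `rk P₀ X = 0` (`rk_anti`).  By `S_Par` all `f ∈ FA` have the same
neighbours in `K l` for every `l ∈ G` (they agree on `b l`), so all `f ∈ FA` have the same neighbours in `X`:
`rk P₁ X ≤ 1` (`rk_one` with `T` = the neighbours of one of them).  The same for `FB` (they agree on `a l`).
`rk_union` twice and `rk_symm`: `cr D X = rk D X Xᶜ ≤ 2`. -/
def S_KCut : Prop := ∀ (V : Type) [Finite V] (D : SimpleGraph V) (N : ℕ) (K : ℕ → Set V)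
  (a b : ℕ → V) (FA FB : Set V) (G : Finset ℕ), TriFree D → KSys D N K a b → (∀ l ∈ G, l < N) →
  (∀ f ∈ FA, ∀ l ∈ G, D.Adj f (b l)) → (∀ f ∈ FB, ∀ l ∈ G, D.Adj f (a l)) →
  (∀ f ∈ FA ∪ FB, ∀ l ∈ G, ∀ p q, ¬ Unc D (K l) f p q) →
  (∀ v, (∀ l ∈ G, v ∉ K l) → v ∈ FA ∨ v ∈ FB ∨ ∀ l ∈ G, ∀ x ∈ K l, ¬ D.Adj v x) →
  LK.cr D (⋃ l ∈ G, K l) ≤ 2

/-- **TT6.** Many components.  (Uses TT4 = `S_BadB`, TT5 = `S_KCut`.)

Proof. `N = k + 3 + 2 (2 k + 1) m + 2 B + 2`.  Let `FA` be the set of the vertices complete to all `b i`, `i < n`, `FB`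
the set of the vertices complete to all `a i`, and `L = Lig D h n a b`.  `a' l = a (ι l)`, `b' l = b (ι l)`, and
`KSys D N K a' b'` holds: two different components of `D[L]` are disjoint (`IsComp.eq`) and anticomplete (if
`x ∈ K l`, `y ∈ K l'`, `x ~ y`, then `y ∈ L` and `y ∈ K l` by `IsComp`); `a' l ~ b' l` by `IM`.
TT4 for `F = FA` and, with the roles of `a` and `b` exchanged, for `F = FB`: all but at most `2 (2 k + 1) m` indices
`l < N` are covered by all `f ∈ FA ∪ FB`.  Take a set `G` of `B + 1` covered indices; at least `B + 1` further indices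
remain.  TT5: a vertex `v` outside the `K l`, `l ∈ G`, is in `FA`, in `FB`, or in `L`; in the last case it
has no neighbour in `K l` (`IsComp`).  `X = ⋃_{l ∈ G} K l` contains the `B + 1` different vertices `a' l`, `l ∈ G`, and its
complement contains the `a' l` with the other `l`. -/
def S_Many : Prop := ∀ k m h B : ℕ, ∃ N : ℕ, ∀ (V : Type) [Finite V] (D : SimpleGraph V) (n : ℕ)
  (a b : ℕ → V) (K : ℕ → Set V) (ι : ℕ → ℕ), TriFree D → NoSpi k D → ¬ CoM D m → CMh D h n a b →
  (∀ l < N, ι l < n) → (∀ l < N, IsComp D (Lig D h n a b) (K l)) →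
  (∀ l < N, a (ι l) ∈ K l ∧ b (ι l) ∈ K l) → (∀ l < N, ∀ l' < N, l ≠ l' → K l ≠ K l') →
  ∃ X : Set V, LK.cr D X ≤ 2 ∧ B < X.ncard ∧ B < Xᶜ.ncard

/-- **One component** (Spec T of helper28, form used here): if a component of the light graph contains many
edges of the matching then there is a cut of bounded rank with two large sides -/
def S_OneComp : Prop := ∀ s k m h : ℕ, ∃ c : ℕ, ∀ B : ℕ, ∃ n₀ : ℕ, ∀ (V : Type) [Finite V]
  (D : SimpleGraph V) (n : ℕ) (a b : ℕ → V) (K : Set V) (I : Finset ℕ), TriFree D → Excl s D →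
  NoSpi k D → ¬ CoM D m → CMh D h n a b → IsComp D (Lig D h n a b) K →
  (∀ i ∈ I, i < n ∧ a i ∈ K ∧ b i ∈ K) →
  n₀ ≤ I.card → ∃ X : Set V, LK.cr D X ≤ c ∧ B < X.ncard ∧ B < Xᶜ.ncard

/-- **TT7.** Case (T,T).  (Uses TT6 = `S_Many`, and `S_OneComp`.)

Proof. `c' = max c 2` with `c` from `S_OneComp` for `k, m, h`; given `B`, let `n₁` be the number of `S_OneComp` for `B` and
`N` the number of TT6; `n₀ = n₁ N + 2`.  For every `i < n` the vertices `a i`, `b i` are light: `Jt` of each of them is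
`{i}` (`IM`), and `1 ≤ h`, because for `h = 0` the vertex `a 0` (which touches the edge `0`) would be complete to all
`b j` or to all `a j`, against `a 0 ≁ b 1`, `a 0 ≁ a 0`.  Let `C i` be the component of `D[Lig]` which contains `a i`
(`exists_comp`); it contains `b i` too (`a i ~ b i`).  If some component contains `n₁` of the `a i` then `S_OneComp`.
Otherwise the map `i ↦ C i` (`i < n`) has at least `N` different values (each value is taken less than `n₁` times);
choose `ι l` for `N` different values and use TT6. -/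
def S_TT : Prop := ∀ s k m h : ℕ, ∃ c : ℕ, ∀ B : ℕ, ∃ n₀ : ℕ, ∀ (V : Type) [Finite V]
  (D : SimpleGraph V) (n : ℕ) (a b : ℕ → V), TriFree D → Excl s D → NoSpi k D → ¬ CoM D m →
  CMh D h n a b → n₀ ≤ n → ∃ X : Set V, LK.cr D X ≤ c ∧ B < X.ncard ∧ B < Xᶜ.ncard

end Pool.Agent.MPd439b2.SA
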