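import Pool.Agent.Lib.MP_d439b2_co.SA.SpecC
import Pool.Agent.Lib.MP_d439b2_co.SA.SpecTT

/-!
# MP_d439b2_co, SA, Spec N: every large induced matching contains an opposite ladder (helper13)

The statement `S_NO` is the conclusion of Step A': the cases (T,T), (I,T), (I,I) give cuts of bounded rank
with two large sides, which do not exist by the hypothesis `Rep.Link`.
-/

set_option autoImplicit false

namespace Pool.Agent.MPd439b2.SA

open Pool.Agent.MPd439b2 Pool.Agent.MPd439b2.W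

/-- **N0.** Case (I,I), same direction (helper24, `SA/SpecII`): a frame of type (I,I) gives a cut of bounded rank
with two large sides -/
def S_IIh : Prop := ∀ k m : ℕ, ∃ c : ℕ, ∀ B : ℕ, ∃ n₀ : ℕ, ∀ (V : Type) [Finite V]
  (D : SimpleGraph V) (n : ℕ) (a b x y : ℕ → V), TriFree D → NoSpi k D → ¬ CoM D m →
  FrI D n a b x y → n₀ ≤ n → ∃ X : Set V, LK.cr D X ≤ c ∧ B < X.ncard ∧ B < Xᶜ.ncard

/-- **N1.** Opposite ladders can be reversed.

Proof. `x' i = w (N - 1 - i)`, `w' i = x (N - 1 - i)`. -/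
def S_OLrev : Prop := ∀ (N : ℕ) (V : Type) (D : SimpleGraph V) (a b x w : ℕ → V),
  OL D N b a x w → OL D N (fun i => a (N - 1 - i)) (fun i => b (N - 1 - i))
    (fun i => w (N - 1 - i)) fun i => x (N - 1 - i)

/-- **N2.** An opposite ladder with mixed orientations contains one with constant orientation.  (Uses
`S_OLrev`.)

Proof. Among the `2 N` indices at least `N` are not exchanged, or at least `N` are exchanged.  Restrict to them (in
the increasing order); in the second case use `S_OLrev`. -/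
def S_OLmix : Prop := ∀ (N : ℕ) (V : Type) (D : SimpleGraph V) (a b a' b' x w : ℕ → V) (σ : ℕ → ℕ)
  (n : ℕ), (∀ i < 2 * N, σ i < n ∧ ((a' i = a (σ i) ∧ b' i = b (σ i)) ∨
    (a' i = b (σ i) ∧ b' i = a (σ i)))) → OL D (2 * N) a' b' x w →
  ∃ (τ : ℕ → ℕ) (x' w' : ℕ → V), (∀ i < N, τ i < n) ∧ (∀ i < N, ∀ j < N, τ i = τ j → i = j) ∧
    OL D N (fun i => a (τ i)) (fun i => b (τ i)) x' w'

/-- **N3.** Large induced matchings contain opposite ladders, if there are no cuts of bounded rank with two large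
sides.  (Uses `S_Dich`, `S_Win`, `S_TT`, `S_B1`, `S_IIh`, `S_OLmix`.)

Proof. `c₁` from `S_TT` for `s, k, h = 2, m₀`, `c₂` from `S_IIh`, `c₀ = max (max c₁ c₂) 3`.  The sizes for
`B = β c₁`, `β 3`, `β c₂`; `L` large; `r` from `S_Win` for `k, L, 2 N'`; `n₁` from `S_Dich`.  Clean matching: `S_TT`.
Otherwise a ladder for `a' i, b' i`, the ends of the edges `σ i`; `S_Win`: `FrT` (`S_B1`), `FrI` (`S_IIh`), or an opposite
ladder of size `2 N'`: `S_OLmix`. -/
def S_NO : Prop := ∀ (s k m₀ N' : ℕ) (β : ℕ → ℕ), ∃ c₀ n₁ : ℕ, ∀ (V : Type) [Finite V]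
  (D : SimpleGraph V), TriFree D → Excl s D → NoSpi k D → ¬ CoM D m₀ → Rep.Link β c₀ D →
  ∀ a b : ℕ → V, IM D n₁ a b →
  ∃ (σ : ℕ → ℕ) (x w : ℕ → V), (∀ i < N', σ i < n₁) ∧ (∀ i < N', ∀ j < N', σ i = σ j → i = j) ∧
    OL D N' (fun i => a (σ i)) (fun i => b (σ i)) x w

end Pool.Agent.MPd439b2.SA
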